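import Pool.Agent.H2.GEN.AttF3

/-!
# Recentred labels in a class

`Rc f a w`: the function `f` is right-continuous at the point along the diagonal.
`TmH S`: the members of the class have positive probability and small time deficit.
`att_rec`: at the points of right-continuity, the labels of a threshold may be taken with the radius
and the window of the point itself (slope law for chains).
`RelvC`: no relation between the coordinates of a chain, in a class.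
-/

set_option autoImplicit false

namespace Pool.CHT

open Finset Real MvPolynomial
open Pool.Agent.H49.Ent Pool.Agent.H32.Dense Pool.STK Pool.KA Pool.KSAT Pool.K2S Pool.PB Pool.S6C
open Pool.GEN
open Pool.LBT (LSys Slo Tri ThrOf)
open Pool.LEV (Law)

variable {m J : ℕ} {θ : ℝ} {S : PCl m} {P : List (Fin m) × Fin m → ℝ → ℝ → ℝ}

/-! ### Auxiliary -/

theorem big (c : ℝ) {s : ℝ} (hs : 0 < s) : ∃ J₀ : ℕ, ∀ J : ℕ, J₀ ≤ J → c ≤ s * J := by
  obtain ⟨J₀, hJ₀⟩ := exists_nat_ge (c / s)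
  refine ⟨J₀, fun J hJ => ?_⟩
  have h1 : c / s ≤ J := hJ₀.trans (by exact_mod_cast hJ)
  rw [div_le_iff₀ hs] at h1
  linarith

/-- Statements about all members hold for all events of the members of probability at least `κ`. -/
theorem bas_ev {Φ : Stat m} (h : Bas S Φ) {κ : ℝ} (hκ : 0 < κ) :
    Bas S (fun J F A => ∀ B : F.Ω → Prop, Sub B A → κ * Pe F.p A ≤ Pe F.p B → Φ J F B) := by
  obtain ⟨τ, hτ, J₁, h⟩ := h
  obtain ⟨J₂, hJ₂⟩ := exists_nat_ge (-Real.log κ / (τ / 2))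
  refine ⟨τ / 2, by positivity, max J₁ J₂, fun J hJ F A hA B hB hP => ?_⟩
  refine h J ((le_max_left _ _).trans hJ) F B ?_
  have h1 := S.res (τ := τ / 2) (τ' := τ / 2) (by positivity) hA hB (by
    refine le_trans (mul_le_mul_of_nonneg_right ?_ (Pe_nonneg F.isLaw A)) hP
    have hJ' : (J₂ : ℝ) ≤ J := by exact_mod_cast (le_max_right _ _).trans hJ
    have h2 : -Real.log κ / (τ / 2) ≤ J := hJ₂.trans hJ'
    rw [div_le_iff₀ (by positivity)] at h2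
    have h3 : -(τ / 2 * (J : ℝ)) ≤ Real.log κ := by linarith
    exact (Real.exp_le_exp.2 h3).trans (Real.exp_log hκ).le)
  rwa [add_halves] at h1

/-- **Right-continuity** along the diagonal. -/
def Rc (f : ℝ → ℝ → ℝ) (a w : ℝ) : Prop :=
  ∀ ε : ℝ, 0 < ε → ∃ o : ℝ, 0 < o ∧ a + o ≤ 1 ∧ f (a + o) (w + o) ≤ f a w + ε

/-- **The members of the class** have positive probability and small time deficit. -/
def TmH (S : PCl m) : Prop :=
  (∀ (τ : ℝ) (J : ℕ) (F : Fam m J) (A : F.Ω → Prop), S.St τ J F A → 0 < Pe F.p A) ∧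
    ∀ ε : ℝ, 0 < ε → Bas S (fun J F A => ∀ h : 0 < Pe F.p A,
      (Pool.FLF.Fam.sub F A h).Tm (ε * J))

theorem TmH.sub {S' : PCl m} (h : TmH S)
    (hs : ∀ (τ : ℝ) (J : ℕ) (F : Fam m J) (A : F.Ω → Prop), S'.St τ J F A → S.St τ J F A) :
    TmH S' := ⟨fun τ J F A hA => h.1 τ J F A (hs τ J F A hA), fun ε hε => Bas.sub hs (h.2 ε hε)⟩

/-! ### The sides -/

/-- **The precisions of the chains** of radius and window at most those of the point. -/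
theorem side_le (hP : ThrOf (chsys m θ) S P) (c : ℕ → Fin m) (j : ℕ) (K : ℕ → ℕ) {a w : ℝ}
    (hw : 0 < w) (hwa : w ≤ a) (hθ : 0 < θ) (hrc : Rc (bet P c j) a w) {σ : ℝ} (hσ : 0 < σ)
    (h1 : bet P c j a w + 2 * σ ≤ 1) :
    Bas S (fun J F A => ∀ (a₀ w₀ e₀ : ℕ) (g : ℕ → ℕ), w₀ ≤ a₀ → a₀ ≤ ⌊a * J⌋₊ →
      w₀ ≤ ⌊w * J⌋₊ → e₀ ≤ ⌊θ * w * J⌋₊ → (∀ l ≤ j, g l ≤ J) → ChN F c (j + 1) K a₀ w₀ e₀ g A →
      (g j : ℝ) + ⌊a * J⌋₊ ≤ (bet P c j a w + 2 * σ) * J + a₀) := by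
  obtain ⟨o, ho, ho1, ho2⟩ := hrc σ hσ
  obtain ⟨a', ha1, ha2⟩ := exists_rat_btwn (show a + o / 2 < a + o by linarith)
  obtain ⟨w', hw1, hw2⟩ := exists_rat_btwn (show w < w + o / 2 by linarith)
  have hwa' : (w' : ℝ) ≤ a' := by linarith
  have ha' : (a' : ℝ) ≤ 1 := by linarith
  have hw' : (0 : ℝ) ≤ w' := by linarith
  have hb : bet P c j a' w' ≤ bet P c j a w + σ := by
    refine le_trans ?_ ho2
    exact (hP.law _).mono hw' hwa' ha2.le (by linarith) (by linarith) ho1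
  refine Bas.mono 0 (no_unif hP c j K a' w' (θ * w) σ (by exact_mod_cast hw')
    (by exact_mod_cast hwa') (by exact_mod_cast ha') (mul_lt_mul_of_pos_left hw1 hθ) hσ
    (by linarith)) ?_
  intro J _ F A hn a₀ w₀ e₀ g k1 k2 k3 k4 k5 k6
  have hJ : (0 : ℝ) ≤ J := Nat.cast_nonneg J
  have e1 : ⌊a * J⌋₊ ≤ ⌊(a' : ℝ) * J⌋₊ :=
    Nat.floor_le_floor (mul_le_mul_of_nonneg_right (by linarith) hJ)
  have e2 : ⌊w * J⌋₊ ≤ ⌊(w' : ℝ) * J⌋₊ :=
    Nat.floor_le_floor (mul_le_mul_of_nonneg_right hw1.le hJ)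
  have h2 : ¬ (⌊(bet P c j a' w' + σ) * J⌋₊ + a₀ ≤ g j + ⌊(a' : ℝ) * J⌋₊) := fun h =>
    hn a₀ w₀ e₀ g k1 (k2.trans e1) (k3.trans e2) k4 k5 h k6
  push Not at h2
  have h3 : ((g j + ⌊a * J⌋₊ : ℕ) : ℝ) ≤ ((⌊(bet P c j a' w' + σ) * J⌋₊ + a₀ : ℕ) : ℝ) := by
    have : g j + ⌊a * J⌋₊ ≤ ⌊(bet P c j a' w' + σ) * J⌋₊ + a₀ := by omega
    exact_mod_cast this
  have hb0 : 0 ≤ bet P c j a' w' := by
    have := hP.low ((List.range j).map c, c j) a' w' hw' hwa' ha'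
    have h4 : (a' : ℝ) ≤ bet P c j a' w' := this
    linarith
  have h5 := Nat.floor_le (show 0 ≤ (bet P c j a' w' + σ) * (J : ℝ) by positivity)
  have h6 : (bet P c j a' w' + σ) * (J : ℝ) ≤ (bet P c j a w + 2 * σ) * J :=
    mul_le_mul_of_nonneg_right (by linarith) hJ
  push_cast at h3
  linarith

/-! ### The labels of the thresholds -/

/-- The chain of the list of the first coordinates. -/
theorem cht_chN {c : ℕ → Fin m} {l : ℕ} {K a w Q : ℕ} {F : Fam m J} {A : F.Ω → Prop}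
    (h : Cht θ ((List.range l).map c) (c l) K a w Q J F A) :
    ∃ (a₀ w₀ : ℕ) (g : ℕ → ℕ), w₀ ≤ a₀ ∧ a₀ ≤ a ∧ w₀ ≤ w ∧ Q + a₀ ≤ g l + a ∧
      (∀ j ≤ l, g j ≤ J) ∧ ChN F c (l + 1) (fun _ => K) a₀ w₀ (lipE θ K w J) g A := by
  have hlen : ((List.range l).map c).length = l := by simp
  obtain ⟨a₀, w₀, g, h1, h2, h3, h4, h5, h6⟩ := h
  rw [hlen] at h4 h5 h6
  refine ⟨a₀, w₀, g, h1, h2, h3, h4, h5, ChN.congr h6 (fun j hj => ?_) fun _ _ => rfl⟩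
  rcases Nat.lt_or_ge j l with h7 | h7
  · simp [h7]
  · have : j = l := by omega
    subst this
    simp

/-- **The labels of the threshold with the radius and the window of the point**, at the points of
right-continuity. -/
theorem att_rec (hP : ThrOf (chsys m θ) S P) (hθ : 0 < θ) (hS : TmH S) {c : ℕ → Fin m} {l : ℕ}
    (hc : Set.InjOn c (Set.Iio (l + 1))) {a w : ℝ} (hw : 0 < w) (hwa : w ≤ a) (ha : a < 1)
    (hrc : ∀ j ≤ l, Rc (bet P c j) a w) (hv : ∀ j ≤ l, bet P c j a w + θ * w < 1) {h₂ : ℝ}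
    (h2 : 0 < h₂) : ∃ D₀ : ℕ, ∀ D ≥ D₀, Bas S (fun J F A => ∃ B : F.Ω → Prop, Sub B A ∧
      Pe F.p A ≤ 2 * Pe F.p B ∧ ∃ (e' : ℕ) (g' : ℕ → ℕ), g' l = ⌊(bet P c l a w - h₂) * J⌋₊ ∧
        ChN F c (l + 1) (fun _ => D) ⌊a * J⌋₊ ⌊w * J⌋₊ e' g' B) := by
  have hb0 : ∀ j, a ≤ bet P c j a w := fun j =>
    hP.low ((List.range j).map c, c j) a w hw.le hwa ha.le
  have ha0 : 0 < a := hw.trans_le hwa
  obtain ⟨h, hh⟩ : ∃ h : ℝ, h = min h₂ a := ⟨_, rfl⟩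
  have hh0 : 0 < h := by rw [hh]; exact lt_min h2 ha0
  have hh1 : h ≤ h₂ := by rw [hh]; exact min_le_left _ _
  have hh2 : h ≤ a := by rw [hh]; exact min_le_right _ _
  obtain ⟨K, hK⟩ := hP.att ((List.range l).map c, c l) a w (h / 2) hw hwa ha.le (half_pos hh0) (by
    have h3 : a ≤ P ((List.range l).map c, c l) a w := hb0 l
    linarith)
  -- the gap
  obtain ⟨σ, hσ, hσj⟩ : ∃ σ : ℝ, 0 < σ ∧ ∀ j ≤ l, bet P c j a w + θ * w + 3 * σ ≤ 1 := by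
    obtain ⟨j₀, hj₀, hmin⟩ := Finset.exists_min_image (range (l + 1))
      (fun j => 1 - (bet P c j a w + θ * w)) ⟨0, mem_range.2 (by omega)⟩
    refine ⟨(1 - (bet P c j₀ a w + θ * w)) / 3, ?_, fun j hj => ?_⟩
    · have := hv j₀ (by rw [mem_range] at hj₀; omega)
      linarith
    · have := hmin j (mem_range.2 (by omega))
      linarith
  obtain ⟨K₁, hK₁⟩ : ∃ K₁, K₁ = max K 1 := ⟨_, rfl⟩
  obtain ⟨C₁, c₀, hC₁, hslope⟩ := ch_slope' m (l + 1) (fun _ => K₁) (fun _ => by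
    rw [hK₁]; exact le_max_right _ _)
  have hlog : 0 < Real.log 2 := Real.log_pos (by norm_num)
  have hC0 : 0 < C₁ := by linarith
  obtain ⟨ε, hε⟩ : ∃ ε : ℝ, ε = min (h * Real.log 2 / (8 * C₁ * (l + 2)))
    ((1 - w) * Real.log 2 / (2 * C₁)) := ⟨_, rfl⟩
  have hw1 : w < 1 := hwa.trans_lt ha
  have hε0 : 0 < ε := by
    rw [hε]
    refine lt_min (by positivity) (div_pos (mul_pos (by linarith) hlog) (by positivity))
  have hε1 : ε * (8 * C₁ * (l + 2)) ≤ h * Real.log 2 := by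
    have := min_le_left (h * Real.log 2 / (8 * C₁ * (l + 2)))
      ((1 - w) * Real.log 2 / (2 * C₁))
    rw [← hε, le_div_iff₀ (by positivity)] at this
    exact this
  have hε2 : ε * (2 * C₁) ≤ (1 - w) * Real.log 2 := by
    have := min_le_right (h * Real.log 2 / (8 * C₁ * (l + 2)))
      ((1 - w) * Real.log 2 / (2 * C₁))
    rw [← hε, le_div_iff₀ (by positivity)] at this
    exact this
  obtain ⟨J₁, hJ₁⟩ := big ((l + 2) * (C₁ / Real.log 2 + 2) + 2) (show 0 < h / 8 by positivity)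
  obtain ⟨J₂, hJ₂⟩ := big (2 * C₁) (show 0 < (1 - w) * Real.log 2 from mul_pos (by linarith) hlog)
  obtain ⟨J₃, hJ₃⟩ := big (c₀ : ℝ) hσ
  have hside := Bas.all (S := S) (l + 1) (Φ := fun j J F A => ∀ (a₀ w₀ e₀ : ℕ) (g : ℕ → ℕ),
      w₀ ≤ a₀ → a₀ ≤ ⌊a * J⌋₊ → w₀ ≤ ⌊w * J⌋₊ → e₀ ≤ ⌊θ * w * J⌋₊ → (∀ l ≤ j, g l ≤ J) →
      ChN F c (j + 1) (fun _ => K) a₀ w₀ e₀ g A →
      (g j : ℝ) + ⌊a * J⌋₊ ≤ (bet P c j a w + 2 * σ) * J + a₀) fun j hj =>
    side_le hP c j (fun _ => K) hw hwa hθ (hrc j (by omega)) hσ (by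
      have := hσj j (by omega)
      have h3 : 0 ≤ θ * w := by positivity
      linarith)
  have hpos : Bas S (fun _ F A => 0 < Pe F.p A) := ⟨1, one_pos, 0, fun J _ F A hA =>
    hS.1 1 J F A hA⟩
  refine ⟨K₁, fun D hD => ?_⟩
  refine Bas.mono (max (max J₁ J₂) J₃) (((hK.and hside).and (hS.2 ε hε0)).and hpos) ?_
  rintro J hJ F A ⟨⟨⟨hT, hsd⟩, htm⟩, hA⟩
  have hJ0 : (0 : ℝ) ≤ J := Nat.cast_nonneg J
  have b1 := hJ₁ J (((le_max_left _ _).trans (le_max_left _ _)).trans hJ)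
  have b2 := hJ₂ J (((le_max_right _ _).trans (le_max_left _ _)).trans hJ)
  have b3 := hJ₃ J ((le_max_right _ _).trans hJ)
  obtain ⟨a₀, w₀, g, k1, k2, k3, k4, k5, k6⟩ := cht_chN hT
  have ewJ : ⌊w * J⌋₊ ≤ J := Pool.LBT.fl_le' hw1.le J
  have elip : lipE θ K ⌊w * J⌋₊ J ≤ ⌊θ * w * J⌋₊ := by
    unfold lipE
    refine Nat.floor_le_floor ?_
    rw [abs_of_pos hθ]
    have h3 : (⌊w * J⌋₊ : ℝ) ≤ w * J := Nat.floor_le (by positivity)
    have h4 : 0 ≤ (J : ℝ) / (K + 1) := by positivity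
    have h5 : θ * ⌊w * J⌋₊ ≤ θ * (w * J) := mul_le_mul_of_nonneg_left h3 hθ.le
    linarith
  have hg : ∀ j ≤ l, (g j : ℝ) + ⌊a * J⌋₊ ≤ (bet P c j a w + 2 * σ) * J + a₀ := fun j hj =>
    hsd j (by omega) a₀ w₀ (lipE θ K ⌊w * J⌋₊ J) g k1 k2 k3 elip (fun l' hl' => k5 l' (by omega))
      (k6.mono (by omega) (fun _ _ => le_rfl) le_rfl le_rfl (k3.trans ewJ) le_rfl)
  -- the number of digits
  obtain ⟨u, hu⟩ : ∃ u : ℕ, u = ⌈C₁ * (ε * J + 1) / Real.log 2⌉₊ := ⟨_, rfl⟩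
  have hu1 : C₁ * (ε * J + 1) ≤ u * Real.log 2 := by
    have := Nat.le_ceil (C₁ * (ε * J + 1) / Real.log 2)
    rw [← hu, div_le_iff₀ hlog] at this
    exact this
  have hu2 : (u : ℝ) * Real.log 2 ≤ C₁ * (ε * J + 1) + Real.log 2 := by
    have := (Nat.ceil_lt_add_one (show 0 ≤ C₁ * (ε * J + 1) / Real.log 2 by positivity)).le
    rw [← hu] at this
    have h3 := mul_le_mul_of_nonneg_right this hlog.le
    rw [add_mul, div_mul_cancel₀ _ hlog.ne', one_mul] at h3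
    exact h3
  have hu3 : (((l + 1) * u + 1 : ℕ) : ℝ) + 1 ≤ h / 4 * J := by
    have h3 : ((l : ℝ) + 2) * (u * Real.log 2) ≤
        (l + 2) * (C₁ * (ε * J + 1) + Real.log 2) := mul_le_mul_of_nonneg_left hu2 (by positivity)
    have h4 : (l + 2) * C₁ * (ε * J) ≤ h / 8 * J * Real.log 2 := by
      have := mul_le_mul_of_nonneg_right hε1 hJ0
      linarith
    have h6 : ((l : ℝ) + 2) * (C₁ / Real.log 2 + 1) * Real.log 2 =
        (l + 2) * (C₁ + Real.log 2) := by field_simp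
    have h5 : ((l : ℝ) + 2) * u * Real.log 2 ≤
        (h / 8 * J + (l + 2) * (C₁ / Real.log 2 + 1)) * Real.log 2 := by
      calc ((l : ℝ) + 2) * u * Real.log 2 = (l + 2) * (u * Real.log 2) := by ring
        _ ≤ (l + 2) * (C₁ * (ε * J + 1) + Real.log 2) := h3
        _ = (l + 2) * C₁ * (ε * J) + (l + 2) * (C₁ + Real.log 2) := by ring
        _ ≤ h / 8 * J * Real.log 2 + (l + 2) * (C₁ + Real.log 2) := by linarith
        _ = _ := by rw [← h6]; ring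
    have h7 := le_of_mul_le_mul_right h5 hlog
    have h8 : ((l : ℝ) + 1) * u ≤ (l + 2) * u :=
      mul_le_mul_of_nonneg_right (by linarith) (Nat.cast_nonneg u)
    push_cast
    linarith
  -- the precision of the target
  have hbl : a ≤ bet P c l a w := hb0 l
  have hQ0 : ⌊(bet P c l a w - h) * J⌋₊ + ((l + 1) * u + 1) ≤
      ⌊(bet P c l a w - h / 2) * J⌋₊ := by
    have h3 := Nat.lt_floor_add_one ((bet P c l a w - h / 2) * (J : ℝ))
    have h6 := Nat.floor_le (show 0 ≤ (bet P c l a w - h) * (J : ℝ) from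
      mul_nonneg (by linarith) hJ0)
    have h7 : ((⌊(bet P c l a w - h) * J⌋₊ + ((l + 1) * u + 1) : ℕ) : ℝ) ≤
        ((⌊(bet P c l a w - h / 2) * J⌋₊ : ℕ) : ℝ) := by
      have h8 : 0 ≤ h * (J : ℝ) := by positivity
      push_cast at hu3 ⊢
      linarith
    exact_mod_cast h7
  have hQ : ⌊(bet P c l a w - h₂) * J⌋₊ ≤ ⌊(bet P c l a w - h) * J⌋₊ :=
    Nat.floor_le_floor (mul_le_mul_of_nonneg_right (by linarith) hJ0)
  have hk4 : ⌊(bet P c l a w - h / 2) * J⌋₊ + a₀ ≤ g l + ⌊a * J⌋₊ := k4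
  -- from a chain with the radius of the point
  have fin : ∀ (B : F.Ω → Prop) (e' : ℕ) (g' : ℕ → ℕ), Sub B A → Pe F.p A ≤ 2 * Pe F.p B →
      ⌊(bet P c l a w - h) * J⌋₊ ≤ g' l → ChN F c (l + 1) (fun _ => K₁) ⌊a * J⌋₊ w₀ e' g' B →
      ∃ B : F.Ω → Prop, Sub B A ∧ Pe F.p A ≤ 2 * Pe F.p B ∧
        ∃ (e' : ℕ) (g' : ℕ → ℕ), g' l = ⌊(bet P c l a w - h₂) * J⌋₊ ∧
          ChN F c (l + 1) (fun _ => D) ⌊a * J⌋₊ ⌊w * J⌋₊ e' g' B := by
    intro B e' g' h3 h4 h5 h6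
    refine ⟨B, h3, h4, e', fun j => if j = l then ⌊(bet P c l a w - h₂) * J⌋₊ else g' j,
      if_pos rfl, ?_⟩
    refine ChN.last (g := g') (h6.mono le_rfl (fun _ _ => hD) le_rfl k3 ewJ le_rfl)
      (fun j hj => if_neg (by omega)) fun j hj => ?_
    have : j = l := by omega
    subst this
    show (if j = j then _ else g' j) ≤ g' j
    rw [if_pos rfl]
    exact hQ.trans h5
  obtain ⟨v, hv'⟩ : ∃ v, v = ⌊a * J⌋₊ - a₀ := ⟨_, rfl⟩
  have hav : a₀ + v = ⌊a * J⌋₊ := by omega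
  rcases Nat.lt_or_ge v ((l + 1) * u + 1) with hvu | hvu
  · refine fin A (lipE θ K ⌊w * J⌋₊ J) g (fun _ h => h) (by linarith) (by omega) ?_
    exact k6.mono le_rfl (fun _ _ => by rw [hK₁]; exact le_max_left _ _) k2 le_rfl
      (k3.trans ewJ) le_rfl
  · obtain ⟨G, H, h6⟩ := k6.mono (K' := fun _ => K₁) le_rfl
      (fun _ _ => by rw [hK₁]; exact le_max_left _ _) le_rfl le_rfl (k3.trans ewJ) le_rfl
    have haJ : (⌊a * J⌋₊ : ℝ) = a₀ + v := by rw [← hav]; push_cast; ring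
    obtain ⟨B, l1, l2, l3, -⟩ := hslope J F c a₀ w₀ (lipE θ K ⌊w * J⌋₊ J) v u g A G H (ε * J) hA hc
      k1 (k3.trans ewJ) (fun j hj => by
        have h7 := hg j (by omega)
        have h8 := hσj j (by omega)
        have h9 : (lipE θ K ⌊w * J⌋₊ J : ℝ) ≤ θ * w * J :=
          (Nat.cast_le.2 elip).trans (Nat.floor_le (by positivity))
        have h10 := mul_le_mul_of_nonneg_right h8 hJ0
        have h11 : ((lipE θ K ⌊w * J⌋₊ J + g j + v + c₀ : ℕ) : ℝ) ≤ (J : ℝ) := by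
          push_cast
          rw [haJ] at h7
          linarith
        exact_mod_cast h11) hvu (by positivity) (htm hA) (by
        have h7 : (w₀ : ℝ) ≤ w * J := (Nat.cast_le.2 k3).trans (Nat.floor_le (by positivity))
        have h8 := mul_le_mul_of_nonneg_right hε2 hJ0
        have h9 := mul_le_mul_of_nonneg_right h7 hlog.le
        linarith) (by
        have h7 : (2 : ℝ) ^ u = Real.exp (u * Real.log 2) := by
          rw [mul_comm, Real.exp_mul, Real.exp_log (by norm_num)]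
          simp
        rw [h7]
        exact Real.exp_le_exp.2 hu1) h6
    rw [hav] at l3
    refine fin B _ _ l1 (by linarith) ?_ ⟨_, _, l3⟩
    show _ ≤ g l + v - (l + 1) * u
    omega

/-! ### No relation -/

/-- **Hierarchical defects**: the defect of `l` is small against the classes of the coordinates
after `l`. -/
def Hie (φ : ℕ → ℕ → ℝ) (i : ℕ) (K : ℕ → ℕ) (d : ℕ → ℝ) : Prop :=
  ∀ l < i, 0 < d l ∧ d l ≤ φ l (∑ l' ∈ Finset.Ioo l i, K l')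

theorem Hie.mono {φ φ' : ℕ → ℕ → ℝ} {i : ℕ} {K : ℕ → ℕ} {d : ℕ → ℝ} (h : Hie φ i K d)
    (hφ : ∀ l n, φ l n ≤ φ' l n) : Hie φ' i K d :=
  fun l hl => ⟨(h l hl).1, (h l hl).2.trans (hφ _ _)⟩

theorem Hie.congr {φ : ℕ → ℕ → ℝ} {i : ℕ} {K K' : ℕ → ℕ} {d d' : ℕ → ℝ} (h : Hie φ i K d)
    (hK : ∀ l < i, K' l = K l) (hd : ∀ l < i, d' l = d l) : Hie φ i K' d' := by
  intro l hl
  have e1 : ∑ l' ∈ Finset.Ioo l i, K' l' = ∑ l' ∈ Finset.Ioo l i, K l' :=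
    Finset.sum_congr rfl fun l' hl' => hK l' (Finset.mem_Ioo.1 hl').2
  rw [hd l hl, e1]
  exact h l hl

/-- **No relation** between the coordinates of the chains of an event: a two-sided polynomial of
degree `D` which is small at the samples is small on the natural boxes. -/
def RelvS (c : ℕ → Fin m) (i : ℕ) (K : ℕ → ℕ) (β d : ℕ → ℝ) (a w e₀ : ℝ) (D : ℕ) (η η' : ℝ) :
    Stat m := fun J F A =>
  ∀ (G : PtT F → ℕ → MvPolynomial (Option (Fin m)) ℝ)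
    (H : LnT F → ℕ → MvPolynomial (Option (Fin m)) ℝ),
    ChOK F c i K ⌊a * J⌋₊ ⌊w * J⌋₊ ⌊e₀ * J⌋₊ (fun l => ⌊(β l - d l) * J⌋₊) A G H →
    ∀ (Dx : PtT F → MvPolynomial (Option (Fin m)) ℝ)
      (Dl : LnT F → MvPolynomial (Option (Fin m)) ℝ) (N : ℕ),
      (∀ y, (Dx y).totalDegree ≤ D) → (∀ s, (Dl s).totalDegree ≤ D) →
      (∀ y, DepC c i (Dx y)) → (∀ s, DepC c i (Dl s)) →
      (∀ ω, A ω → |eval (bt F ω) (Dx (ptr F J ω))| ≤ 1 / 2 ^ N) →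
      (∀ ω, A ω → ∀ b, NBx c (G (ptr F J ω)) (fun l => ⌊(β l - d l) * J⌋₊) ⌊a * J⌋₊ (F.t ω) i b →
        |eval b (Dx (ptr F J ω)) - eval b (Dl (slam F ⌊w * J⌋₊ ω))| ≤ 1 / 2 ^ N) →
      ∃ B : F.Ω → Prop, Sub B A ∧ (1 - η') * Pe F.p A ≤ Pe F.p B ∧ ∀ ω, B ω →
        ∀ b, NBx c (G (ptr F J ω)) (fun l => ⌊(β l - d l) * J⌋₊) ⌊a * J⌋₊ (F.t ω) i b →
          |eval b (Dx (ptr F J ω))| ≤ 2 ^ ⌊η * J⌋₊ / 2 ^ N

/-- **No relation between the coordinates of the chain** in the class, at the point `(a, w)`. -/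
def RelvC (S : PCl m) (c : ℕ → Fin m) (r : ℕ) (β : ℕ → ℝ) (a w e₀ : ℝ) : Prop :=
  ∀ (D : ℕ) (η : ℝ), 0 < η → ∃ φ : ℕ → ℕ → ℝ, (∀ l n, 0 < φ l n) ∧
    ∀ i ≤ r, ∀ (K : ℕ → ℕ) (d : ℕ → ℝ), Hie φ i K d → ∀ η' : ℝ, 0 < η' →
      Bas S (RelvS c i K β d a w e₀ D η η')

theorem RelvC.sub {S' : PCl m} {c : ℕ → Fin m} {r : ℕ} {β : ℕ → ℝ} {a w e₀ : ℝ}
    (h : RelvC S c r β a w e₀) (hs : ∀ (τ : ℝ) (J : ℕ) (F : Fam m J) (A : F.Ω → Prop),
      S'.St τ J F A → S.St τ J F A) : RelvC S' c r β a w e₀ := by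
  intro D η hη
  obtain ⟨φ, h1, h2⟩ := h D η hη
  exact ⟨φ, h1, fun i hi K d hd η' hη' => Bas.sub hs (h2 i hi K d hd η' hη')⟩

/-- From the class to the large events of its members. -/
theorem relvF_of {c : ℕ → Fin m} {i : ℕ} {K : ℕ → ℕ} {β d : ℕ → ℝ} {a w e₀ : ℝ} {D : ℕ} {η : ℝ}
    (h : Bas S (RelvS c i K β d a w e₀ D η (1 / 2))) {κ κ₁ : ℝ} (hκ : 0 < κ) (hκ₁ : 0 < κ₁) :
    Bas S (fun J F A => ∀ (B₀ : F.Ω → Prop) (G : PtT F → ℕ → MvPolynomial (Option (Fin m)) ℝ)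
      (H : LnT F → ℕ → MvPolynomial (Option (Fin m)) ℝ) (e : ℕ), Sub B₀ A →
      κ₁ * Pe F.p A ≤ Pe F.p B₀ → e ≤ ⌊e₀ * J⌋₊ →
      ChOK F c i K ⌊a * J⌋₊ ⌊w * J⌋₊ e (fun l => ⌊(β l - d l) * J⌋₊) B₀ G H →
      RelvF F c i ⌊a * J⌋₊ ⌊w * J⌋₊ (fun l => ⌊(β l - d l) * J⌋₊) D ⌊η * J⌋₊ κ B₀ G) := by
  refine Bas.mono 0 (bas_ev h (mul_pos hκ hκ₁)) ?_
  intro J _ F A hR B₀ G H e hB₀ hP he hL B' hB' hP' Dx Dl M h1 h2 h3 h4 hM h5 h6
  obtain ⟨B, l1, l2, l3⟩ := hR B' (fun ω h => hB₀ ω (hB' ω h)) (by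
      calc κ * κ₁ * Pe F.p A = κ * (κ₁ * Pe F.p A) := by ring
        _ ≤ κ * Pe F.p B₀ := mul_le_mul_of_nonneg_left hP hκ.le
        _ ≤ _ := hP') G H ((hL.mono le_rfl (fun _ => le_rfl) le_rfl he).sub hB')
    (fun y => C (1 / M) * Dx y) (fun s => C (1 / M) * Dl s) 0
    (fun y => (totalDegree_mul _ _).trans (by rw [totalDegree_C, zero_add]; exact h1 y))
    (fun s => (totalDegree_mul _ _).trans (by rw [totalDegree_C, zero_add]; exact h2 s))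
    (fun y b b' hn hb => by rw [map_mul, map_mul, h3 y b b' hn hb, eval_C, eval_C])
    (fun s b b' hn hb => by rw [map_mul, map_mul, h4 s b b' hn hb, eval_C, eval_C])
    (fun ω hω => by
      rw [map_mul, eval_C, abs_mul, abs_of_pos (by positivity : 0 < 1 / M), pow_zero, div_one,
        one_div, inv_mul_le_iff₀ hM, mul_one]
      exact h5 ω hω)
    (fun ω hω b hb => by
      rw [map_mul, map_mul, eval_C, ← mul_sub, abs_mul,
        abs_of_pos (by positivity : 0 < 1 / M), pow_zero, div_one, one_div, inv_mul_le_iff₀ hM,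
        mul_one]
      exact h6 ω hω b hb)
  refine ⟨B, l1, by linarith, fun ω hω b hb => ?_⟩
  have h7 := l3 ω hω b hb
  rw [map_mul, eval_C, abs_mul, abs_of_pos (by positivity : 0 < 1 / M), pow_zero, div_one,
    one_div, inv_mul_le_iff₀ hM] at h7
  linarith

end Pool.CHT
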