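import Pool.Agent.H2.GEN.ChT

/-!
# Chains of labels over boxes whose sides are bounded below

`CtB θ β i K a w P`: chains as in `Pool.CHT.chsys` and `Pool.LBN.lsys` (radii and windows which may
be larger than `2 ^ (-a)` and `2 ^ (-w)`, one digit of the radius counts for one digit of the
precision of the target), whose sides are not smaller than `2 ^ (-β l)`, where `β` is any family of
functions of the radius and of the window of the label. The gradients are capped (`some θ`) or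
arbitrary (`none`).

`chsysB m θ β` is a system of labels with the slope law and the trivial labels in every class, so
that every class has a subclass with thresholds (`thr_chsysB`). No property of `β` is used.
`no_B`: no better label over these boxes, uniformly in the sides. `le_B`: labels over these boxes
bound the threshold from below. `thr_le`: comparison of thresholds of two systems.
`LSys.cnd`: the labels which are visible from the point and a further variable.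
-/

set_option autoImplicit false

namespace Pool.LBT

open Finset Real
open Pool.Agent.H49.Ent Pool.Agent.H32.Dense Pool.STK Pool.KA Pool.KSAT Pool.K2S Pool.PB Pool.S6C
open Pool.LEV

variable {m : ℕ}

/-! ### Comparison of thresholds -/

/-- The two statements cannot both hold. -/
theorem bas_false {S : PCl m} (hS : S.Ne) {Φ : Stat m} (h : Bas S Φ)
    (h' : Bas S (fun J F A => ¬ Φ J F A)) : False := by
  obtain ⟨τ, hτ, J₁, h⟩ := h.and h'
  obtain ⟨J, hJ, F, A, hA⟩ := hS τ hτ J₁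
  exact (h J hJ F A hA).2 (h J hJ F A hA).1

/-- **Comparison** of thresholds, from the labels of the first to the labels of the second system,
at different points. -/
theorem thr_le' {L L' : LSys m} {S : PCl m} {P : L.ι → ℝ → ℝ → ℝ} {P' : L'.ι → ℝ → ℝ → ℝ}
    (hS : S.Ne) (hP : ThrOf L S P) (hP' : ThrOf L' S P') {i : L.ι} {i' : L'.ι}
    (h : ∀ K : ℕ, ∃ K' : ℕ, ∀ (a w Q J : ℕ) (F : Fam m J) (A : F.Ω → Prop),
      L.T i K a w Q J F A → L'.T i' K' a w Q J F A) {a w : ℝ} {a' w' : ℚ} (hw : 0 < w)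
    (hwa : w ≤ a) (ha : a ≤ a') (hww : w ≤ w') (hwa' : w' ≤ a') (ha' : a' ≤ 1) :
    P i a w ≤ P' i' a' w' := by
  by_contra hcon
  push Not at hcon
  have haR : (a' : ℝ) ≤ 1 := by exact_mod_cast ha'
  have hwaR : (w' : ℝ) ≤ a' := by exact_mod_cast hwa'
  have h0 : 0 ≤ P' i' a' w' := by
    have h1 := hP'.low i' a' w' (hw.le.trans hww) hwaR haR
    have h2 : (0 : ℝ) ≤ a' := (hw.le.trans hwa).trans ha
    linarith
  obtain ⟨e, he⟩ : ∃ e, e = (P i a w - P' i' a' w') / 2 := ⟨_, rfl⟩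
  have he0 : 0 < e := by rw [he]; linarith
  have h1 := hP.up i a w hw.le hwa (ha.trans haR)
  obtain ⟨K, hK⟩ := hP.att i a w e hw hwa (ha.trans haR) he0 (by linarith)
  obtain ⟨K', hK'⟩ := h K
  have hno := hP'.no i' K' a' w' e (by exact_mod_cast hw.le.trans hww) hwa' ha' he0 (by linarith)
  refine bas_false hS (Bas.mono 0 hK ?_) hno
  intro J _ F A hT
  have hJ0 : (0 : ℝ) ≤ J := Nat.cast_nonneg J
  have e1 : P i a w - e = P' i' a' w' + e := by rw [he]; ring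
  rw [e1] at hT
  refine L'.mono le_rfl (Nat.floor_le_floor (mul_le_mul_of_nonneg_right ha hJ0))
    (Nat.floor_le_floor (mul_le_mul_of_nonneg_right hww hJ0))
    (Nat.floor_le_floor (mul_le_mul_of_nonneg_right hwaR hJ0)) (fl_le' haR J) (hK' _ _ _ _ _ _ hT)

/-- **Comparison** of thresholds at the rational points. -/
theorem thr_le {L L' : LSys m} {S : PCl m} {P : L.ι → ℝ → ℝ → ℝ} {P' : L'.ι → ℝ → ℝ → ℝ}
    (hS : S.Ne) (hP : ThrOf L S P) (hP' : ThrOf L' S P') {i : L.ι} {i' : L'.ι}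
    (h : ∀ K : ℕ, ∃ K' : ℕ, ∀ (a w Q J : ℕ) (F : Fam m J) (A : F.Ω → Prop),
      L.T i K a w Q J F A → L'.T i' K' a w Q J F A) {a w : ℚ} (hw : 0 < w)
    (hwa : w ≤ a) (ha : a ≤ 1) : P i a w ≤ P' i' a w :=
  thr_le' hS hP hP' h (by exact_mod_cast hw) (by exact_mod_cast hwa) le_rfl le_rfl hwa ha

/-- The threshold is the supremum of its values at the rational points below. -/
def Reg (P : ℝ → ℝ → ℝ) : Prop :=
  ∀ a w ε : ℝ, 0 < w → w ≤ a → a ≤ 1 → 0 < ε → ∃ a' w' : ℚ, 0 < w' ∧ w' ≤ a' ∧ a' ≤ 1 ∧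
    (a' : ℝ) ≤ a ∧ (w' : ℝ) ≤ w ∧ P a w - ε < P a' w'

/-- **Comparison at all points**, if the first threshold is regular. -/
theorem Reg.le {P P' : ℝ → ℝ → ℝ} (hP : Reg P) (hP' : Law P')
    (h : ∀ a w : ℚ, 0 < w → w ≤ a → a ≤ 1 → P a w ≤ P' a w) {a w : ℝ} (hw : 0 < w) (hwa : w ≤ a)
    (ha : a ≤ 1) : P a w ≤ P' a w := by
  refine le_of_forall_pos_le_add fun ε hε => ?_
  obtain ⟨a', w', h1, h2, h3, h4, h5, h6⟩ := hP a w ε hw hwa ha hε
  have h7 := h a' w' h1 h2 h3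
  have h8 : P' a' w' ≤ P' a w := hP'.mono (by exact_mod_cast h1.le) (by exact_mod_cast h2) h4 h5
    hwa ha
  linarith

theorem rlaw_of {L : LSys m} {S : PCl m} {P : L.ι → ℝ → ℝ → ℝ} (hP : ThrOf L S P) (i : L.ι) :
    RLaw (fun a w : ℚ => P i a w) where
  low := fun a w h1 h2 h3 => hP.low i a w (by exact_mod_cast h1) (by exact_mod_cast h2)
    (by exact_mod_cast h3)
  up := fun a w h1 h2 h3 => hP.up i a w (by exact_mod_cast h1) (by exact_mod_cast h2)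
    (by exact_mod_cast h3)
  mono := fun a a' w w' h1 h2 h3 h4 h5 h6 => (hP.law i).mono (by exact_mod_cast h1)
    (by exact_mod_cast h2) (by exact_mod_cast h3) (by exact_mod_cast h4) (by exact_mod_cast h5)
    (by exact_mod_cast h6)
  slope := fun a w v h1 h2 h3 h4 => by
    have := (hP.law i).slope a w v (by exact_mod_cast h1) (by exact_mod_cast h2)
      (by exact_mod_cast h3) (by exact_mod_cast h4)
    push_cast
    exact this

/-- **The regular thresholds.** -/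
theorem ThrOf.reg {L : LSys m} {S : PCl m} {P : L.ι → ℝ → ℝ → ℝ} (hP : ThrOf L S P) :
    ∃ P' : L.ι → ℝ → ℝ → ℝ, ThrOf L S P' ∧ (∀ i, Reg (P' i)) ∧
      ∀ (i : L.ι) (a w : ℚ), 0 ≤ w → w ≤ a → a ≤ 1 → P' i a w = P i a w := by
  have hr := fun i => rlaw_of hP i
  have e0 : ∀ (i : L.ι) (a w : ℚ), 0 ≤ w → w ≤ a → a ≤ 1 →
      rext (fun a w : ℚ => P i a w) a w = P i a w := fun i a w h1 h2 h3 =>
    rext_rat (hr i) h1 h2 h3
  refine ⟨fun i => rext (fun a w : ℚ => P i a w), ⟨fun i => rext_law (hr i),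
    fun i a w h1 h2 h3 => rext_low (hr i) h1 h2 h3, fun i a w h1 h2 _ => rext_up (hr i) h1 h2,
    ?_, ?_⟩, ?_, e0⟩
  · intro i a w h hw hwa ha hh hhP
    obtain ⟨a', w', h1, h2, h3, h4, h5, h6⟩ := rext_att (hr i) hw hwa ha (half_pos hh)
    have h7 : h / 2 < P i a' w' := by linarith
    obtain ⟨K, hK⟩ := hP.att i a' w' (h / 2) (by exact_mod_cast h1) (by exact_mod_cast h2)
      (by exact_mod_cast h3) (half_pos hh) h7
    refine ⟨K, Bas.mono 0 hK ?_⟩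
    intro J _ F A hT
    have hJ0 : (0 : ℝ) ≤ J := Nat.cast_nonneg J
    refine L.mono le_rfl (Nat.floor_le_floor (mul_le_mul_of_nonneg_right h4 hJ0))
      (Nat.floor_le_floor (mul_le_mul_of_nonneg_right h5 hJ0))
      (Nat.floor_le_floor (mul_le_mul_of_nonneg_right hwa hJ0)) (fl_le' ha J)
      (L.anti (Nat.floor_le_floor (mul_le_mul_of_nonneg_right ?_ hJ0)) hT)
    linarith
  · intro i K a w h h1 h2 h3 h4 h5
    rw [e0 i a w h1 h2 h3] at h5 ⊢
    exact hP.no i K a w h h1 h2 h3 h4 h5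
  · intro i a w ε hw hwa ha hε
    obtain ⟨a', w', h1, h2, h3, h4, h5, h6⟩ := rext_att (hr i) hw hwa ha hε
    refine ⟨a', w', h1, h2, h3, h4, h5, ?_⟩
    show rext (fun a w : ℚ => P i a w) a w - ε < rext (fun a w : ℚ => P i a w) a' w'
    rw [e0 i a' w' h1.le h2 h3]
    exact h6

/-! ### Visible variables -/

/-- **The labels which are visible from the point and from the variable `z`.** -/
def LSys.cnd (L : LSys m) {κ : ∀ J : ℕ, Fam m J → Type}
    (z : ∀ (J : ℕ) (F : Fam m J), F.Ω → κ J F) : LSys m where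
  ι := L.ι
  T i K a w P := fun J F A => L.T i K a w P J (F.cnd (z J F)) A
  her i K a w P J F := fun A B hB h => L.her i K a w P J (F.cnd (z J F)) A B hB h
  anti h h' := L.anti h h'
  mono hK ha hw hwa haJ h := L.mono hK ha hw hwa haJ h

instance (L : LSys m) [h : Countable L.ι] {κ : ∀ J : ℕ, Fam m J → Type}
    (z : ∀ (J : ℕ) (F : Fam m J), F.Ω → κ J F) : Countable (L.cnd z).ι := h

/-- Countably many systems at once. -/
def LSys.sig {α : Type} (L : α → LSys m) : LSys m where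
  ι := (x : α) × (L x).ι
  T i := (L i.1).T i.2
  her i := (L i.1).her i.2
  anti := fun {i _ _ _ _ _ _ _ _} h h' => (L i.1).anti h h'
  mono := fun {i _ _ _ _ _ _ _ _ _ _} hK ha hw hwa haJ h => (L i.1).mono hK ha hw hwa haJ h

instance {α : Type} [Countable α] (L : α → LSys m) [∀ x, Countable (L x).ι] :
    Countable (LSys.sig L).ι := inferInstanceAs (Countable ((x : α) × (L x).ι))

theorem slo_sig {α : Type} {L : α → LSys m} {S : PCl m} (h : ∀ x, Slo (L x) S) :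
    Slo (LSys.sig L) S := fun i => h i.1 i.2

theorem tri_sig {α : Type} {L : α → LSys m} {S : PCl m} (h : ∀ x, Tri (L x) S) :
    Tri (LSys.sig L) S := fun i => h i.1 i.2

theorem ThrOf.of_sig {α : Type} {L : α → LSys m} {S : PCl m} {P : (LSys.sig L).ι → ℝ → ℝ → ℝ}
    (h : ThrOf (LSys.sig L) S P) (x : α) : ThrOf (L x) S (fun i => P ⟨x, i⟩) where
  law i := h.law ⟨x, i⟩
  low i := h.low ⟨x, i⟩
  up i := h.up ⟨x, i⟩
  att i := h.att ⟨x, i⟩
  no i := h.no ⟨x, i⟩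

end Pool.LBT

namespace Pool.CHB

open Finset Real MvPolynomial
open Pool.Agent.H49.Ent Pool.Agent.H32.Dense Pool.STK Pool.KA Pool.KSAT Pool.K2S Pool.PB Pool.S6C
open Pool.GEN Pool.CHT
open Pool.LBT (LSys Slo Tri ThrOf)
open Pool.LEV (Law)

variable {m J : ℕ}

/-! ### Chains with more side information -/

/-- **Chains which are visible from more**: the variable `z` is a function of the variable `z'` on
the event. -/
theorem ChN.cnd_mono {F : Fam m J} {κ κ' : Type} {z : F.Ω → κ} {z' : F.Ω → κ'} (f : κ' → κ)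
    {A : F.Ω → Prop} (hf : ∀ ω, A ω → z ω = f (z' ω)) {c : ℕ → Fin m} {r : ℕ} {K : ℕ → ℕ}
    {a w e : ℕ} {g : ℕ → ℕ} (h : ChN (F.cnd z) c r K a w e g A) :
    ChN (F.cnd z') c r K a w e g A := by
  obtain ⟨G, H, h⟩ := h
  obtain ⟨G', hG'⟩ : ∃ G' : PtT (F.cnd z') → ℕ → MvPolynomial (Option (Fin m)) ℝ,
    G' = fun y => G (y.1, y.2.1, (f y.2.2.1, y.2.2.2)) := ⟨_, rfl⟩
  obtain ⟨H', hH'⟩ : ∃ H' : LnT (F.cnd z') → ℕ → MvPolynomial (Option (Fin m)) ℝ,
    H' = fun s => H (s.1, (f s.2.1.1, s.2.1.2), s.2.2) := ⟨_, rfl⟩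
  have e1 : ∀ ω : F.Ω, A ω → G' (ptr (F.cnd z') J ω) = G (ptr (F.cnd z) J ω) := by
    intro ω hω
    rw [hG']
    show G (F.X J ω, F.T ω, (f (z' ω), F.Z ω)) = G (F.X J ω, F.T ω, (z ω, F.Z ω))
    rw [hf ω hω]
  have e2 : ∀ ω : F.Ω, A ω → H' (slam (F.cnd z') w ω) = H (slam (F.cnd z) w ω) := by
    intro ω hω
    rw [hH']
    show H (F.l ω, (f (z' ω), F.Z ω), F.T1 w ω) = H (F.l ω, (z ω, F.Z ω), F.T1 w ω)
    rw [hf ω hω]
  refine ⟨G', H', fun y i => by rw [hG']; exact h.degG _ i, fun s i => by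
    rw [hH']; exact h.degH _ i, fun y i => by rw [hG']; exact h.depG _ i, fun s i => by
    rw [hH']; exact h.depH _ i, fun ω hω i hi => ?_, fun ω hω i hi b hb => ?_,
    fun ω hω i hi b hb l hl => ?_⟩
  · rw [e1 ω hω]
    exact h.pos ω hω i hi
  · rw [e1 ω hω] at hb ⊢
    rw [e2 ω hω]
    exact h.agr ω hω i hi b hb
  · rw [e1 ω hω] at hb ⊢
    exact h.lip ω hω i hi b hb l hl

/-- Chains of the family are visible with side information. -/
theorem ChN.cnd {F : Fam m J} {κ : Type} (z : F.Ω → κ) {A : F.Ω → Prop} {c : ℕ → Fin m} {r : ℕ}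
    {K : ℕ → ℕ} {a w e : ℕ} {g : ℕ → ℕ} (h : ChN F c r K a w e g A) :
    ChN (F.cnd z) c r K a w e g A := by
  obtain ⟨G, H, h⟩ := h
  exact ⟨fun y => G (y.1, y.2.1, y.2.2.2), fun s => H (s.1, s.2.1.2, s.2.2),
    fun y i => h.degG _ i, fun s i => h.degH _ i, fun y i => h.depG _ i, fun s i => h.depH _ i,
    fun ω hω i hi => h.pos ω hω i hi, fun ω hω i hi b hb => h.agr ω hω i hi b hb,
    fun ω hω i hi b hb l hl => h.lip ω hω i hi b hb l hl⟩

/-- The chains of constant labels, of any precisions. -/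
theorem chN_const (F : Fam m J) (c : ℕ → Fin m) (r : ℕ) (K : ℕ → ℕ) (a e : ℕ) {w : ℕ} {g : ℕ → ℕ}
    (hg : ∀ i < r, g i + 1 ≤ w) (hw : w ≤ J) (A : F.Ω → Prop) : ChN F c r K a w e g A := by
  have e1 : ∀ i < r, (1 : ℝ) / 2 ^ J ≤ 1 / 2 ^ g i / 2 := by
    intro i hi
    have : (1 : ℝ) / 2 ^ J ≤ 1 / 2 ^ (g i + 1) := inv_mono ((hg i hi).trans hw)
    refine this.trans (le_of_eq ?_)
    rw [pow_succ]; field_simp
  have e2 : ∀ i < r, (1 : ℝ) / 2 ^ w ≤ 1 / 2 ^ g i / 2 := by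
    intro i hi
    refine (inv_mono (hg i hi)).trans (le_of_eq ?_)
    rw [pow_succ]; field_simp
  refine ⟨fun y i => C ((y.1 (c i) : ℝ) / 2 ^ J),
    fun s i => C (s.1.1 (c i) + (s.2.2 : ℝ) / 2 ^ w * s.1.2 (c i)), fun y i => ?_, fun s i => ?_,
    fun y i => ?_, fun s i => ?_, fun ω _ i hi => ?_, fun ω _ i hi b _ => ?_,
    fun ω _ i _ b _ l _ => ?_⟩
  · rw [totalDegree_C]; exact Nat.zero_le _
  · rw [totalDegree_C]; exact Nat.zero_le _
  · intro b b' _ _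
    rw [eval_C, eval_C]
  · intro b b' _ _
    rw [eval_C, eval_C]
  · have h1 := near_pt F (c i) ω
    have h2 := e1 i hi
    have h3 : (0 : ℝ) < 1 / 2 ^ g i := by positivity
    rw [eval_C]
    change |F.x ω (c i) - ((F.X J ω (c i) : ℤ) : ℝ) / 2 ^ J| ≤ 1 / 2 ^ g i
    linarith
  · have h1 := near_pt F (c i) ω
    have h2 := near_win F (c i) hw ω
    have h3 := e1 i hi
    have h4 := e2 i hi
    rw [eval_C, eval_C]
    change |((F.X J ω (c i) : ℤ) : ℝ) / 2 ^ J - F.x1 w ω (c i)| ≤ 1 / 2 ^ g i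
    rw [abs_le] at h1 h2 ⊢
    constructor <;> linarith [h1.1, h1.2, h2.1, h2.2]
  · rw [pderiv_C, map_zero, abs_zero]
    positivity

/-! ### The labels -/

/-- The sides are at least `2 ^ (-β)`, up to the defect of the class `K`. -/
def Sid (β : List (Fin m) × Fin m → ℝ → ℝ → ℝ) (i : List (Fin m) × Fin m) (K : ℕ) (α ω : ℝ)
    (J : ℕ) (g : ℕ → ℕ) : Prop :=
  ∀ j < i.1.length, (g j : ℝ) ≤ max 0 (β (i.1.take j, i.1.getD j i.2) α ω * J - J / (K + 1))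

theorem Sid.mono {β : List (Fin m) × Fin m → ℝ → ℝ → ℝ} {i : List (Fin m) × Fin m} {K K' : ℕ}
    {α ω : ℝ} {J : ℕ} {g : ℕ → ℕ} (h : Sid β i K α ω J g) (hK : K ≤ K') : Sid β i K' α ω J g := by
  intro j hj
  refine (h j hj).trans (max_le_max le_rfl ?_)
  have h1 : ((K : ℝ) + 1) ≤ (K' : ℝ) + 1 := by
    have : (K : ℝ) ≤ K' := by exact_mod_cast hK
    linarith
  have h2 : (J : ℝ) / ((K' : ℝ) + 1) ≤ (J : ℝ) / ((K : ℝ) + 1) :=
    div_le_div_of_nonneg_left (Nat.cast_nonneg J) (by positivity) h1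
  linarith

/-- **Chain labels** of the target `i.2` over the base `i.1`, with sides at least `2 ^ (-β)`, on
larger radii and windows; the gradients are capped or not. -/
def CtB (θ : Option ℝ) (β : List (Fin m) × Fin m → ℝ → ℝ → ℝ) (i : List (Fin m) × Fin m)
    (K a w P : ℕ) : Stat m := fun J F A =>
  ∃ (α ω : ℝ) (e : ℕ) (g : ℕ → ℕ), 0 ≤ ω ∧ ω ≤ α ∧ α ≤ 1 ∧ ⌊α * J⌋₊ ≤ a ∧ ⌊ω * J⌋₊ ≤ w ∧
    P + ⌊α * J⌋₊ ≤ g i.1.length + a ∧ (∀ j ≤ i.1.length, g j ≤ J) ∧ Sid β i K α ω J g ∧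
    (∀ θ₀ ∈ θ, e ≤ lipE θ₀ K w J) ∧
    ChN F (fun j => i.1.getD j i.2) (i.1.length + 1) (fun _ => K) ⌊α * J⌋₊ ⌊ω * J⌋₊ e g A

variable {θ : Option ℝ} {β : List (Fin m) × Fin m → ℝ → ℝ → ℝ}

theorem CtB.her (θ : Option ℝ) (β : List (Fin m) × Fin m → ℝ → ℝ → ℝ)
    (i : List (Fin m) × Fin m) (K a w P J : ℕ) (F : Fam m J) :
    Hered (CtB θ β i K a w P J F) := by
  rintro A B hB ⟨α, ω, e, g, h1, h2, h3, h4, h5, h6, h7, h8, h9, h⟩
  exact ⟨α, ω, e, g, h1, h2, h3, h4, h5, h6, h7, h8, h9, ChN.hered F _ _ _ _ _ _ _ A B hB h⟩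

theorem CtB.anti {i : List (Fin m) × Fin m} {K a w P P' : ℕ} {F : Fam m J} {A : F.Ω → Prop}
    (hP : P' ≤ P) (h : CtB θ β i K a w P J F A) : CtB θ β i K a w P' J F A := by
  obtain ⟨α, ω, e, g, h1, h2, h3, h4, h5, h6, h⟩ := h
  exact ⟨α, ω, e, g, h1, h2, h3, h4, h5, by omega, h⟩

theorem CtB.mono {i : List (Fin m) × Fin m} {K K' a a' w w' P : ℕ} {F : Fam m J}
    {A : F.Ω → Prop} (hK : K ≤ K') (ha : a ≤ a') (hw : w ≤ w')
    (h : CtB θ β i K a w P J F A) : CtB θ β i K' a' w' P J F A := by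
  obtain ⟨α, ω, e, g, h1, h2, h3, h4, h5, h6, h7, h8, h9, h⟩ := h
  exact ⟨α, ω, e, g, h1, h2, h3, h4.trans ha, h5.trans hw, by omega, h7, h8.mono hK,
    fun θ₀ hθ => (h9 θ₀ hθ).trans (lipE_mono hK hw), h.cls fun _ _ => hK⟩

/-- **The slope**. -/
theorem CtB.slope {i : List (Fin m) × Fin m} {K a w P v : ℕ} {F : Fam m J} {A : F.Ω → Prop}
    (h : CtB θ β i K a w P J F A) : CtB θ β i K (a + v) w (P + v) J F A := by
  obtain ⟨α, ω, e, g, h1, h2, h3, h4, h5, h6, h⟩ := h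
  exact ⟨α, ω, e, g, h1, h2, h3, by omega, h5, by omega, h⟩

/-- Larger `β`. -/
theorem CtB.side {β' : List (Fin m) × Fin m → ℝ → ℝ → ℝ} {i : List (Fin m) × Fin m}
    {K a w P : ℕ} {F : Fam m J} {A : F.Ω → Prop}
    (hβ : ∀ j < i.1.length, ∀ α ω : ℝ, 0 ≤ ω → ω ≤ α → α ≤ 1 →
      β (i.1.take j, i.1.getD j i.2) α ω ≤ β' (i.1.take j, i.1.getD j i.2) α ω)
    (h : CtB θ β i K a w P J F A) : CtB θ β' i K a w P J F A := by
  obtain ⟨α, ω, e, g, h1, h2, h3, h4, h5, h6, h7, h8, h9, h⟩ := h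
  refine ⟨α, ω, e, g, h1, h2, h3, h4, h5, h6, h7, fun j hj => ?_, h9, h⟩
  refine (h8 j hj).trans (max_le_max le_rfl ?_)
  have := mul_le_mul_of_nonneg_right (hβ j hj α ω h1 h2 h3) (Nat.cast_nonneg (α := ℝ) J)
  linarith

/-- No cap. -/
theorem CtB.uncap {i : List (Fin m) × Fin m} {K a w P : ℕ} {F : Fam m J} {A : F.Ω → Prop}
    (h : CtB θ β i K a w P J F A) : CtB none β i K a w P J F A := by
  obtain ⟨α, ω, e, g, h1, h2, h3, h4, h5, h6, h7, h8, -, h⟩ := h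
  exact ⟨α, ω, e, g, h1, h2, h3, h4, h5, h6, h7, h8, fun _ h => by simp at h, h⟩

/-- The sides do not matter for the system `Pool.CHT.chsys`. -/
theorem CtB.cht {θ₀ : ℝ} {i : List (Fin m) × Fin m} {K a w P : ℕ} {F : Fam m J}
    {A : F.Ω → Prop} (h : CtB (some θ₀) β i K a w P J F A) : Cht θ₀ i.1 i.2 K a w P J F A := by
  obtain ⟨α, ω, e, g, h1, h2, h3, h4, h5, h6, h7, h8, h9, G, H, h⟩ := h
  exact ⟨⌊α * J⌋₊, ⌊ω * J⌋₊, g,
    Nat.floor_le_floor (mul_le_mul_of_nonneg_right h2 (Nat.cast_nonneg J)), h4, h5, h6, h7, G, H,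
    h.mono le_rfl (fun _ => le_rfl) le_rfl (h9 θ₀ rfl)⟩

theorem floor_div {J w : ℕ} (hw : w ≤ J) : ⌊(w : ℝ) / J * J⌋₊ = w := by
  rcases Nat.eq_zero_or_pos J with h | h
  · subst h
    have : w = 0 := by omega
    subst this
    simp
  · have h1 : (0 : ℝ) < J := by exact_mod_cast h
    rw [div_mul_cancel₀ _ h1.ne', Nat.floor_natCast]

/-- A chain is a label of its last coordinate, for every list. -/
theorem CtB.of_chN {c : ℕ → Fin m} {i : ℕ} {K : ℕ → ℕ} {K₀ a w e P : ℕ} {α ω : ℝ}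
    {g : ℕ → ℕ} {F : Fam m J} {A : F.Ω → Prop}
    (h : ChN F c (i + 1) K ⌊α * J⌋₊ ⌊ω * J⌋₊ e g A) (h0 : 0 ≤ ω) (hωα : ω ≤ α) (hα : α ≤ 1)
    (ha : ⌊α * J⌋₊ ≤ a) (hw : ⌊ω * J⌋₊ ≤ w) (hP : P + ⌊α * J⌋₊ ≤ g i + a)
    (hK : ∀ l < i + 1, K l ≤ K₀) (he : ∀ θ₀ ∈ θ, e ≤ lipE θ₀ K₀ w J) (hg : ∀ l ≤ i, g l ≤ J)
    (hgβ : ∀ l < i, (g l : ℝ) ≤ max 0 (bet β c l α ω * J - J / (K₀ + 1))) :
    CtB θ β ((List.range i).map c, c i) K₀ a w P J F A := by
  have hlen : ((List.range i).map c).length = i := by simp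
  have hget : ∀ l ≤ i, ((List.range i).map c).getD l (c i) = c l := by
    intro l hl
    rcases Nat.lt_or_ge l i with h2 | h2
    · simp [h2]
    · have : l = i := by omega
      subst this
      simp
  refine ⟨α, ω, e, g, h0, hωα, hα, ha, hw, ?_, ?_, ?_, he, ?_⟩
  · show P + ⌊α * J⌋₊ ≤ g ((List.range i).map c).length + a
    rw [hlen]
    exact hP
  · show ∀ j ≤ ((List.range i).map c).length, g j ≤ J
    rw [hlen]
    exact hg
  · intro j hj
    have hj' : j < i := by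
      have : j < ((List.range i).map c).length := hj
      rwa [hlen] at this
    have e1 : (((List.range i).map c).take j, ((List.range i).map c).getD j (c i)) =
        ((List.range j).map c, c j) := by
      rw [hget j hj'.le, ← List.map_take, List.take_range, min_eq_left hj'.le]
    show (g j : ℝ) ≤ max 0 (β (((List.range i).map c).take j,
      ((List.range i).map c).getD j (c i)) α ω * J - J / (K₀ + 1))
    rw [e1]
    exact hgβ j hj'
  · show ChN F (fun j => ((List.range i).map c).getD j (c i)) (((List.range i).map c).length + 1)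
      (fun _ => K₀) ⌊α * J⌋₊ ⌊ω * J⌋₊ e g A
    rw [hlen]
    exact ChN.congr (h.cls (K' := fun _ => K₀) hK) (fun l hl => (hget l (by omega)).symm)
      fun _ _ => rfl

/-! ### The system -/

/-- **The system of the chain labels with sides at least `2 ^ (-β)`.** -/
noncomputable def chsysB (m : ℕ) (θ : Option ℝ) (β : List (Fin m) × Fin m → ℝ → ℝ → ℝ) :
    LSys m where
  ι := List (Fin m) × Fin m
  T i := CtB θ β i
  her i K a w P J F := CtB.her θ β i K a w P J F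
  anti h := CtB.anti h
  mono hK ha hw _ _ h := CtB.mono hK ha hw h

instance (θ : Option ℝ) (β : List (Fin m) × Fin m → ℝ → ℝ → ℝ) : Countable (chsysB m θ β).ι :=
  inferInstanceAs (Countable (List (Fin m) × Fin m))

theorem slo_chsysB (θ : Option ℝ) (β : List (Fin m) × Fin m → ℝ → ℝ → ℝ) (S : PCl m) :
    Slo (chsysB m θ β) S := by
  intro i K
  refine ⟨K, fun w₀ hw₀ η hη => ⟨1, one_pos, 0, fun J _ F A _ a w v P Q _ _ _ _ hQ hT =>
    ⟨A, fun _ h => h, ?_, ?_⟩⟩⟩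
  · have h1 : Real.exp (-(η * J)) ≤ 1 := by
      rw [Real.exp_le_one_iff]
      have : 0 ≤ η * (J : ℝ) := by positivity
      linarith
    calc _ ≤ 1 * Pe F.p A := mul_le_mul_of_nonneg_right h1 (Pe_nonneg F.isLaw A)
      _ = _ := one_mul _
  · have h1 : Q ≤ P + v := by
      have : (Q : ℝ) ≤ ((P + v : ℕ) : ℝ) := by
        push_cast
        have : 0 ≤ η * (J : ℝ) := by positivity
        linarith
      exact_mod_cast this
    exact CtB.anti h1 (CtB.slope hT)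

theorem tri_chsysB (θ : Option ℝ) (β : List (Fin m) × Fin m → ℝ → ℝ → ℝ) (S : PCl m) :
    Tri (chsysB m θ β) S := by
  intro i
  refine ⟨0, fun η hη => ⟨1, one_pos, ?_⟩⟩
  obtain ⟨J₁, hJ₁⟩ := exists_nat_ge (1 / η)
  refine ⟨J₁, fun J hJ F A _ w P hw hP => ⟨A, fun _ h => h, ?_, ?_⟩⟩
  · have h1 : Real.exp (-(η * J)) ≤ 1 := by
      rw [Real.exp_le_one_iff]
      have : 0 ≤ η * (J : ℝ) := by positivity
      linarith
    calc _ ≤ 1 * Pe F.p A := mul_le_mul_of_nonneg_right h1 (Pe_nonneg F.isLaw A)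
      _ = _ := one_mul _
  · have hJ' : (J₁ : ℝ) ≤ J := by exact_mod_cast hJ
    have e1 : 1 / η ≤ J := hJ₁.trans hJ'
    rw [div_le_iff₀ hη] at e1
    have e2 : P + 1 ≤ w := by
      have : ((P + 1 : ℕ) : ℝ) ≤ w := by
        push_cast
        linarith
      exact_mod_cast this
    have hf := floor_div hw
    obtain ⟨g, hg⟩ : ∃ g : ℕ → ℕ, g = fun j => if j < i.1.length then 0 else P := ⟨_, rfl⟩
    have hgP : ∀ j, g j ≤ P := by
      intro j
      rw [hg]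
      show (if j < i.1.length then 0 else P) ≤ P
      split_ifs <;> omega
    refine ⟨(w : ℝ) / J, (w : ℝ) / J, 0, g, by positivity, le_rfl,
      div_le_one_of_le₀ (by exact_mod_cast hw) (Nat.cast_nonneg J), hf.le, hf.le, ?_,
      fun j _ => (hgP j).trans (by omega), fun j hj => ?_, fun _ _ => Nat.zero_le _, ?_⟩
    · rw [hf, hg]
      show P + w ≤ (if i.1.length < i.1.length then 0 else P) + w
      rw [if_neg (lt_irrefl _)]
    · rw [hg]
      show (((if j < i.1.length then 0 else P : ℕ)) : ℝ) ≤ _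
      rw [if_pos hj]
      simp
    · rw [hf]
      exact chN_const F _ _ _ w 0 (fun j _ => by have := hgP j; omega) hw A

/-- **The thresholds** are numbers of a subclass, for all bases and targets at once; they are
regular. -/
theorem thr_chsysB (θ : Option ℝ) (β : List (Fin m) × Fin m → ℝ → ℝ → ℝ) {S : PCl m}
    (hS : S.Ne) :
    ∃ (S' : PCl m) (P : List (Fin m) × Fin m → ℝ → ℝ → ℝ), S'.Ne ∧
      (∀ (τ : ℝ) (J : ℕ) (F : Fam m J) (A : F.Ω → Prop), S'.St τ J F A → S.St τ J F A) ∧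
      ThrOf (chsysB m θ β) S' P ∧ ∀ i, Pool.LBT.Reg (P i) := by
  obtain ⟨S', P, h1, h2, h3⟩ := Pool.LBT.thr (chsysB m θ β) S hS (slo_chsysB θ β S)
    (tri_chsysB θ β S)
  obtain ⟨P', h4, h5, -⟩ := h3.reg
  exact ⟨S', P', h1, h2, h4, h5⟩

/-- With a visible variable `z`. -/
theorem slo_cnd (θ : Option ℝ) (β : List (Fin m) × Fin m → ℝ → ℝ → ℝ)
    {κ : ∀ J : ℕ, Fam m J → Type} (z : ∀ (J : ℕ) (F : Fam m J), F.Ω → κ J F) (S : PCl m) :
    Slo ((chsysB m θ β).cnd z) S := by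
  intro i K
  obtain ⟨K', h⟩ := slo_chsysB θ β (⟨fun _ _ _ _ => True, fun _ _ => trivial,
    fun _ _ _ _ => trivial⟩ : PCl m) i K
  refine ⟨K', fun w₀ hw₀ η hη => ?_⟩
  obtain ⟨τ, hτ, J₁, h⟩ := h w₀ hw₀ η hη
  exact ⟨τ, hτ, J₁, fun J hJ F A _ a w v P Q h1 h2 h3 h4 h5 h6 =>
    h J hJ (F.cnd (z J F)) A trivial a w v P Q h1 h2 h3 h4 h5 h6⟩

theorem tri_cnd (θ : Option ℝ) (β : List (Fin m) × Fin m → ℝ → ℝ → ℝ)
    {κ : ∀ J : ℕ, Fam m J → Type} (z : ∀ (J : ℕ) (F : Fam m J), F.Ω → κ J F) (S : PCl m) :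
    Tri ((chsysB m θ β).cnd z) S := by
  intro i
  obtain ⟨K', h⟩ := tri_chsysB θ β (⟨fun _ _ _ _ => True, fun _ _ => trivial,
    fun _ _ _ _ => trivial⟩ : PCl m) i
  refine ⟨K', fun η hη => ?_⟩
  obtain ⟨τ, hτ, J₁, h⟩ := h η hη
  exact ⟨τ, hτ, J₁, fun J hJ F A _ w P h1 h2 => h J hJ (F.cnd (z J F)) A trivial w P h1 h2⟩

/-! ### None better, and lower bounds -/

variable {S : PCl m} {P : List (Fin m) × Fin m → ℝ → ℝ → ℝ}

/-- **No better label over the boxes of `β`**, uniformly: no chain with a radius and a window which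
are not smaller, and with sides which are larger than `2 ^ (-β)` at this radius and window, has a
better label of its last coordinate. -/
theorem no_B (hP : ThrOf (chsysB m θ β) S P) (c : ℕ → Fin m) (i : ℕ) (K : ℕ → ℕ) (a w : ℚ)
    (e h δ : ℝ) (hw : 0 ≤ w) (hwa : w ≤ a) (ha : a ≤ 1) (he : ∀ θ₀ ∈ θ, e < θ₀ * w) (hh : 0 < h)
    (hδ : 0 < δ) (h1 : bet P c i a w + h ≤ 1) :
    Bas S (fun J F A => ∀ (α ω : ℝ) (e₀ : ℕ) (g : ℕ → ℕ), 0 ≤ ω → ω ≤ α → α ≤ 1 →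
      ⌊α * J⌋₊ ≤ ⌊(a : ℝ) * J⌋₊ → ⌊ω * J⌋₊ ≤ ⌊(w : ℝ) * J⌋₊ → (∀ θ₀ ∈ θ, e₀ ≤ ⌊e * J⌋₊) →
      (∀ l ≤ i, g l ≤ J) → (∀ l < i, (g l : ℝ) ≤ max 0 ((bet β c l α ω - δ) * J)) →
      ⌊(bet P c i a w + h) * J⌋₊ + ⌊α * J⌋₊ ≤ g i + ⌊(a : ℝ) * J⌋₊ →
      ¬ ChN F c (i + 1) K ⌊α * J⌋₊ ⌊ω * J⌋₊ e₀ g A) := by
  obtain ⟨K₁, J₁, hK₁⟩ : ∃ K₁ J₁ : ℕ, ∀ θ₀ ∈ θ, ∀ K ≥ K₁, ∀ J ≥ J₁,
      ⌊e * J⌋₊ ≤ lipE θ₀ K ⌊(w : ℝ) * J⌋₊ J := by
    cases θ with
    | none => exact ⟨0, 0, fun _ h => by simp at h⟩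
    | some t =>
      obtain ⟨K₁, J₁, h⟩ := le_lipE hw (he t rfl)
      refine ⟨K₁, J₁, fun θ₀ hθ => ?_⟩
      have : t = θ₀ := by simpa using hθ
      rw [← this]
      exact h
  obtain ⟨K₂, hK₂⟩ := exists_nat_ge (1 / δ)
  obtain ⟨K₀, hK₀⟩ : ∃ K₀, K₀ = max (max K₁ K₂) ((range (i + 1)).sup K) := ⟨_, rfl⟩
  refine Bas.mono J₁ (hP.no ((List.range i).map c, c i) K₀ a w h hw hwa ha hh h1) ?_
  intro J hJ F A hn α ω e₀ g k0 k1 k2 k3 k4 k5 k6 k7 k8 k9
  refine hn ?_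
  have hK : ∀ l < i + 1, K l ≤ K₀ := fun l hl => by
    rw [hK₀]
    exact (Finset.le_sup (f := K) (mem_range.2 hl)).trans (le_max_right _ _)
  refine CtB.of_chN k9 k0 k1 k2 k3 k4 k8 hK (fun θ₀ hθ => (k5 θ₀ hθ).trans (hK₁ θ₀ hθ K₀ (by
    rw [hK₀]; exact (le_max_left _ _).trans (le_max_left _ _)) J hJ)) k6 fun l hl => ?_
  refine (k7 l hl).trans (max_le_max le_rfl ?_)
  have h2 : (1 : ℝ) / δ ≤ (K₀ : ℝ) + 1 := by
    have h3 : K₂ ≤ K₀ := by rw [hK₀]; exact (le_max_right _ _).trans (le_max_left _ _)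
    have h4 : (K₂ : ℝ) ≤ K₀ := by exact_mod_cast h3
    linarith
  rw [div_le_iff₀ hδ] at h2
  have hJ0 : (0 : ℝ) ≤ J := Nat.cast_nonneg J
  have h3 : (J : ℝ) / (K₀ + 1) ≤ δ * J := by
    rw [div_le_iff₀ (by positivity)]
    nlinarith
  nlinarith

/-- **No better label**, in the form of the chains with real exponents. -/
theorem no_Bn (hP : ThrOf (chsysB m θ β) S P) (c : ℕ → Fin m) (i : ℕ) (K : ℕ → ℕ) (a w : ℚ)
    (e h : ℝ) (g : ℕ → ℝ) (hw : 0 ≤ w) (hwa : w ≤ a) (ha : a ≤ 1) (he : ∀ θ₀ ∈ θ, e < θ₀ * w)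
    (hh : 0 < h) (h1 : bet P c i a w + h ≤ 1) (hg : ∀ l < i, g l < bet β c l a w)
    (hg1 : ∀ l < i, g l ≤ 1) :
    Bas S (fun J F A => ¬ Chn c (i + 1) K a w e
      (fun l => if l = i then bet P c i a w + h else g l) J F A) := by
  obtain ⟨δ, hδ, hgδ⟩ : ∃ δ : ℝ, 0 < δ ∧ ∀ l < i, g l ≤ bet β c l a w - δ := by
    rcases Nat.eq_zero_or_pos i with h0 | h0
    · exact ⟨1, one_pos, fun l hl => by omega⟩
    · obtain ⟨l₀, hl₀, hmin⟩ := Finset.exists_min_image (range i) (fun l => bet β c l a w - g l)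
        ⟨0, mem_range.2 h0⟩
      exact ⟨bet β c l₀ a w - g l₀, by linarith [hg l₀ (mem_range.1 hl₀)], fun l hl => by
        linarith [hmin l (mem_range.2 hl)]⟩
  refine Bas.mono 0 (no_B hP c i K a w e h δ hw hwa ha he hh hδ h1) ?_
  intro J _ F A hn hC
  have hJ : (0 : ℝ) ≤ J := Nat.cast_nonneg J
  have hwR : (w : ℝ) ≤ a := by exact_mod_cast hwa
  have haR : (a : ℝ) ≤ 1 := by exact_mod_cast ha
  refine hn a w ⌊e * J⌋₊ (fun l => ⌊(if l = i then bet P c i a w + h else g l) * J⌋₊)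
    (by exact_mod_cast hw) hwR haR le_rfl le_rfl (fun _ _ => le_rfl) (fun l hl => ?_)
    (fun l hl => ?_) ?_ hC
  · refine Pool.LBT.fl_le' ?_ J
    split_ifs with h3
    · exact h1
    · exact hg1 l (lt_of_le_of_ne hl h3)
  · show ((⌊(if l = i then bet P c i a w + h else g l) * J⌋₊ : ℕ) : ℝ) ≤ _
    rw [if_neg hl.ne]
    rcases le_or_gt 0 (g l) with h4 | h4
    · refine (Nat.floor_le (by positivity)).trans (le_max_of_le_right ?_)
      exact mul_le_mul_of_nonneg_right (hgδ l hl) hJ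
    · rw [Nat.floor_of_nonpos (by nlinarith)]
      simp
  · show _ ≤ ⌊(if i = i then bet P c i a w + h else g i) * J⌋₊ + _
    rw [if_pos rfl]

/-- **Labels bound the threshold from below**: a chain of the class with sides larger than
`2 ^ (-β)`, at any point `(a, w)` before the rational point `(a', w')`. -/
theorem le_B (hS : S.Ne) (hP : ThrOf (chsysB m θ β) S P) (c : ℕ → Fin m) (i : ℕ) (K : ℕ → ℕ)
    {a w : ℝ} {a' w' : ℚ} {e δ q : ℝ} (hw : 0 ≤ w) (hwa : w ≤ a) (ha : a ≤ a') (hww : w ≤ w')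
    (hwa' : w' ≤ a') (ha' : a' ≤ 1) (he : ∀ θ₀ ∈ θ, e < θ₀ * w') (hδ : 0 < δ)
    (h : Bas S (fun J F A => ∃ (e₀ : ℕ) (g : ℕ → ℕ), (∀ θ₀ ∈ θ, e₀ ≤ ⌊e * J⌋₊) ∧
      (∀ l ≤ i, g l ≤ J) ∧ (∀ l < i, (g l : ℝ) ≤ max 0 ((bet β c l a w - δ) * J)) ∧
      q * J ≤ g i + 1 ∧ ChN F c (i + 1) K ⌊a * J⌋₊ ⌊w * J⌋₊ e₀ g A)) :
    min 1 (q + (a' - a)) ≤ bet P c i a' w' := by
  by_contra hcon
  push Not at hcon
  have haR : (a' : ℝ) ≤ 1 := by exact_mod_cast ha'
  have hwaR : (w' : ℝ) ≤ a' := by exact_mod_cast hwa'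
  have c1 : bet P c i a' w' < 1 := hcon.trans_le (min_le_left _ _)
  have c2 : bet P c i a' w' < q + (a' - a) := hcon.trans_le (min_le_right _ _)
  have c0 : 0 ≤ bet P c i a' w' := by
    have h1 := hP.low ((List.range i).map c, c i) a' w' (hw.trans hww) hwaR haR
    have h2 : (0 : ℝ) ≤ a' := (hw.trans hwa).trans ha
    exact h2.trans h1
  obtain ⟨η, hη⟩ : ∃ η, η = min (1 - bet P c i a' w') ((q + (a' - a) - bet P c i a' w') / 2) :=
    ⟨_, rfl⟩
  have hη0 : 0 < η := by rw [hη]; exact lt_min (by linarith) (by linarith)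
  have hη1 : bet P c i a' w' + η ≤ 1 := by
    have := min_le_left (1 - bet P c i a' w') ((q + (a' - a) - bet P c i a' w') / 2)
    rw [← hη] at this
    linarith
  have hη2 : bet P c i a' w' + 2 * η ≤ q + (a' - a) := by
    have := min_le_right (1 - bet P c i a' w') ((q + (a' - a) - bet P c i a' w') / 2)
    rw [← hη] at this
    linarith
  obtain ⟨J₁, hJ₁⟩ := exists_nat_ge (3 / η)
  refine Pool.LBT.bas_false hS h (Bas.mono J₁ (no_B hP c i K a' w' e η δ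
    (by exact_mod_cast hw.trans hww) hwa' ha' he hη0 hδ hη1) ?_)
  rintro J hJ F A hn ⟨e₀, g, k1, k2, k3, k4, k5⟩
  have hJ0 : (0 : ℝ) ≤ J := Nat.cast_nonneg J
  have ha0 : 0 ≤ a := hw.trans hwa
  refine hn a w e₀ g hw hwa (ha.trans haR)
    (Nat.floor_le_floor (mul_le_mul_of_nonneg_right ha hJ0))
    (Nat.floor_le_floor (mul_le_mul_of_nonneg_right hww hJ0)) k1 k2 k3 ?_ k5
  have hJ' : (J₁ : ℝ) ≤ J := by exact_mod_cast hJ
  have e1 : 3 / η ≤ J := hJ₁.trans hJ'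
  rw [div_le_iff₀ hη0] at e1
  have f1 := Nat.floor_le (show 0 ≤ (bet P c i a' w' + η) * (J : ℝ) by positivity)
  have f2 := Nat.floor_le (show 0 ≤ a * (J : ℝ) by positivity)
  have f3 := Nat.lt_floor_add_one ((a' : ℝ) * (J : ℝ))
  have f4 : ((⌊(bet P c i a' w' + η) * J⌋₊ + ⌊a * J⌋₊ : ℕ) : ℝ) ≤
      ((g i + ⌊(a' : ℝ) * J⌋₊ : ℕ) : ℝ) := by
    push_cast
    nlinarith
  exact_mod_cast f4

end Pool.CHB
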