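import Pool.Agent.H2.GEN.AttH
import Pool.Agent.H2.GEN.ChB

/-!
# Consequences, and longer lists

`tmH_of_reg`, `tmH_of_tmC`: the time deficit of the members of a class.
`att_greedy`: one point. `chN_long`: a label over a list is a label over a longer list.
`tau_mono`: the precision over a longer list is larger. `Pts.of_greedy`.
-/

set_option autoImplicit false

namespace Pool.CHT

open Finset Real MvPolynomial
open Pool.Agent.H49.Ent Pool.Agent.H32.Dense Pool.STK Pool.KA Pool.KSAT Pool.K2S Pool.PB Pool.S6C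
open Pool.GEN
open Pool.LBT (LSys Slo Tri ThrOf)
open Pool.LEV (Law)

variable {m J : ℕ} {θ : ℝ} {S : PCl m} {P : List (Fin m) × Fin m → ℝ → ℝ → ℝ}

/-! ### The time deficit -/

/-- Classes of regular families. -/
theorem tmH_of_reg (h : ∀ (τ : ℝ) (J : ℕ) (F : Fam m J) (A : F.Ω → Prop), S.St τ J F A →
    F.Tr ∧ F.Tm (τ * J) ∧ F.Rb (τ * J) ∧ Real.exp (-(τ * J)) ≤ Pe F.p A) : TmH S := by
  refine ⟨fun τ J F A hA => (Real.exp_pos _).trans_le (h τ J F A hA).2.2.2, fun ε hε =>
    ⟨ε / 6, by positivity, 0, fun J _ F A hA hA0 => ?_⟩⟩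
  obtain ⟨h1, h2, h3, h4⟩ := h _ J F A hA
  have h5 := Pool.STPA.sub_Tm_of_reg h1 h2 h3 hA0 h4
  have e1 : 4 * (ε / 6 * (J : ℝ)) + ε / 6 * J + ε / 6 * J = ε * J := by ring
  rw [e1] at h5
  exact h5

/-- Classes with the time deficit `C₀ τ J`; the hypothesis is `Pool.GEN.TmC S C₀`. -/
theorem tmH_of_tmC {C₀ : ℝ} (hC : 0 ≤ C₀) (h : ∀ (τ : ℝ) (J : ℕ) (F : Fam m J) (A : F.Ω → Prop),
    0 < τ → S.St τ J F A → 0 < Pe F.p A ∧ ∀ h : IsLaw (Pool.Agent.H49.Ent.cond F.p A True),
      (F.res A True h).Tm (C₀ * τ * J)) : TmH S := by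
  refine ⟨fun τ J F A hA => (h (max τ 1) J F A (lt_max_of_lt_right one_pos)
    (S.mono (le_max_left _ _) hA)).1, fun ε hε =>
    ⟨ε / (C₀ + 1), by positivity, 0, fun J _ F A hA hA0 => ?_⟩⟩
  have h4 := (h _ J F A (by positivity) hA).2 (isLaw_cond F.isLaw hA0)
  have h5 : C₀ * (ε / (C₀ + 1)) * (J : ℝ) ≤ ε * J := by
    refine mul_le_mul_of_nonneg_right ?_ (Nat.cast_nonneg J)
    rw [← mul_div_assoc, div_le_iff₀ (by positivity)]
    nlinarith
  have h6 : (Pool.FLF.Fam.sub F A hA0).Tm (C₀ * (ε / (C₀ + 1)) * J) := by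
    unfold Fam.Tm at h4 ⊢
    refine h4.trans (le_of_eq ?_)
    exact (Pool.FLF.sub_CH F.T (fun ω => (F.l ω, F.Z ω))).symm
  unfold Fam.Tm at h6 ⊢
  linarith

/-! ### One point -/

/-- **Chains in greedy order**, with small gradients, at one point. -/
theorem att_greedy (hP : ThrOf (chsys m θ) S P) (hθ : 0 < θ) (hS : TmH S) {c : ℕ → Fin m} {r : ℕ}
    (hc : Set.InjOn c (Set.Iio r)) {a w vs e₀ : ℝ} (hvs : 0 ≤ vs)
    (h : Pts S P θ c r 1 (fun _ => a) (fun _ => w) vs e₀) {φ : ℕ → ℕ → ℝ}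
    (hφ : ∀ l n, 0 < φ l n) {e : ℝ} (he : Csl r r * vs < e) (he₀ : e ≤ e₀) :
    ∃ (K : ℕ → ℕ) (d : ℕ → ℝ) (K₁ : ℝ), 0 < K₁ ∧ (∀ l, 1 ≤ K l) ∧ Hie φ r K d ∧
      Bas S (fun J F A => ∃ B : F.Ω → Prop, Sub B A ∧ Pe F.p A ≤ K₁ * Pe F.p B ∧
        ChN F c r K ⌊a * J⌋₊ ⌊w * J⌋₊ ⌊e * J⌋₊ (fun l => ⌊(bet P c l a w - d l) * J⌋₊) B) := by
  obtain ⟨K, d, δ, K₁, h1, h2, h3, -, h4⟩ := jatt hP hθ hS hc hvs h r le_rfl φ hφ e he he₀
  refine ⟨K, d, K₁, h1, h2, h3, Bas.mono 0 h4 ?_⟩
  rintro J - F A ⟨B, G, H, h5, h6, h7⟩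
  exact ⟨B, h5, h6, G 0, H 0, h7.ok 0 one_pos⟩

/-! ### Longer lists -/

/-- The middle of the cell of the sample. -/
theorem near_mid (F : Fam m J) (i : Fin m) (ω : F.Ω) :
    |F.x ω i - (((F.X J ω i : ℤ) : ℝ) + 1 / 2) / 2 ^ J| ≤ 1 / 2 := by
  have hr0 : (0 : ℝ) < 2 ^ J := by positivity
  have hr1 : (1 : ℝ) ≤ 2 ^ J := one_le_pow₀ (by norm_num)
  have a1 := Int.floor_le ((2 : ℝ) ^ J * F.x ω i)
  have a2 := Int.lt_floor_add_one ((2 : ℝ) ^ J * F.x ω i)
  have e : F.x ω i - (((F.X J ω i : ℤ) : ℝ) + 1 / 2) / 2 ^ J =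
      (2 ^ J * F.x ω i - (((⌊(2 : ℝ) ^ J * F.x ω i⌋ : ℤ) : ℝ) + 1 / 2)) / 2 ^ J := by
    change F.x ω i - (((⌊(2 : ℝ) ^ J * F.x ω i⌋ : ℤ) : ℝ) + 1 / 2) / 2 ^ J = _
    field_simp
  rw [e, abs_div, abs_of_pos hr0, div_le_iff₀ hr0]
  have h1 : |2 ^ J * F.x ω i - (((⌊(2 : ℝ) ^ J * F.x ω i⌋ : ℤ) : ℝ) + 1 / 2)| ≤ 1 / 2 := by
    rw [abs_le]
    constructor <;> linarith
  nlinarith

/-- The middle of the window of the sample. -/
theorem near_midw (F : Fam m J) (i : Fin m) (w : ℕ) (ω : F.Ω) :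
    |F.x ω i - (F.u ω i + ((F.T1 w ω : ℝ) + 1 / 2) / 2 ^ min w J * F.d ω i)| ≤ 1 / 2 := by
  have hT : F.T1 w ω = F.T1 (min w J) ω := by
    unfold Fam.T1
    congr 2
    omega
  have hr0 : (0 : ℝ) < 2 ^ min w J := by positivity
  have hr1 : (1 : ℝ) ≤ 2 ^ min w J := one_le_pow₀ (by norm_num)
  have b1 := T1_real F (min_le_right w J) ω
  have e : F.x ω i - (F.u ω i + ((F.T1 w ω : ℝ) + 1 / 2) / 2 ^ min w J * F.d ω i) =
      (2 ^ min w J * F.t ω - (F.T1 (min w J) ω + 1 / 2)) / 2 ^ min w J * F.d ω i := by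
    rw [hT]
    unfold Fam.x
    field_simp
    ring
  rw [e, abs_mul]
  have b2 : |(2 ^ min w J * F.t ω - (F.T1 (min w J) ω + 1 / 2)) / 2 ^ min w J| ≤ 1 / 2 := by
    rw [abs_div, abs_of_pos hr0, div_le_iff₀ hr0]
    have h1 : |2 ^ min w J * F.t ω - (F.T1 (min w J) ω + 1 / 2)| ≤ 1 / 2 := by
      rw [abs_le]
      constructor <;> linarith [b1.1, b1.2]
    nlinarith
  calc _ ≤ 1 / 2 * 1 := mul_le_mul b2 (F.dir ω i) (abs_nonneg _) (by norm_num)
    _ = _ := mul_one _

/-- **A label over a list is a label over a longer list.** -/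
theorem chN_long {F : Fam m J} {c : ℕ → Fin m} {l l' : ℕ} {k : Fin m} {K a w e : ℕ} {g : ℕ → ℕ}
    {A : F.Ω → Prop} (hc : Set.InjOn (pch c l' k) (Set.Iio (l' + 1))) (hll : l ≤ l')
    (h : ChN F (pch c l k) (l + 1) (fun _ => K) a w e g A) :
    ChN F (pch c l' k) (l' + 1) (fun _ => K) a w e
      (fun j => if j < l then g j else if j < l' then 0 else g l) A := by
  obtain ⟨G, H, h⟩ := h
  obtain ⟨g', hg'⟩ : ∃ g' : ℕ → ℕ, g' = fun j => if j < l then g j else if j < l' then 0 else g l :=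
    ⟨_, rfl⟩
  rw [← hg']
  have g1 : ∀ j < l, g' j = g j := fun j hj => by rw [hg']; exact if_pos hj
  have g2 : ∀ j, l ≤ j → j < l' → g' j = 0 := fun j h1 h2 => by
    rw [hg']
    show (if j < l then g j else if j < l' then 0 else g l) = 0
    rw [if_neg (by omega), if_pos h2]
  have g3 : g' l' = g l := by
    rw [hg']
    show (if l' < l then g l' else if l' < l' then 0 else g l) = g l
    rw [if_neg (by omega), if_neg (lt_irrefl _)]
  obtain ⟨G', hG'⟩ : ∃ G' : PtT F → ℕ → MvPolynomial (Option (Fin m)) ℝ, G' = fun y j =>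
      if j < l then G y j else if j < l' then C (((y.1 (pch c l' k j) : ℝ) + 1 / 2) / 2 ^ J) else
        if j = l' then G y l else 0 := ⟨_, rfl⟩
  obtain ⟨H', hH'⟩ : ∃ H' : LnT F → ℕ → MvPolynomial (Option (Fin m)) ℝ, H' = fun s j =>
      if j < l then H s j else if j < l' then C (s.1.1 (pch c l' k j) +
        ((s.2.2 : ℝ) + 1 / 2) / 2 ^ min w J * s.1.2 (pch c l' k j)) else
        if j = l' then H s l else 0 := ⟨_, rfl⟩
  have G1 : ∀ y, ∀ j < l, G' y j = G y j := fun y j hj => by rw [hG']; exact if_pos hj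
  have G2 : ∀ y j, l ≤ j → j < l' →
      G' y j = C (((y.1 (pch c l' k j) : ℝ) + 1 / 2) / 2 ^ J) := fun y j h1 h2 => by
    rw [hG']
    show (if j < l then _ else if j < l' then _ else _) = _
    rw [if_neg (by omega), if_pos h2]
  have G3 : ∀ y, G' y l' = G y l := fun y => by
    rw [hG']
    show (if l' < l then _ else if l' < l' then _ else if l' = l' then _ else _) = _
    rw [if_neg (by omega), if_neg (lt_irrefl _), if_pos rfl]
  have G4 : ∀ y j, l' < j → G' y j = 0 := fun y j hj => by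
    rw [hG']
    show (if j < l then _ else if j < l' then _ else if j = l' then _ else _) = _
    rw [if_neg (by omega), if_neg (by omega), if_neg (by omega)]
  have H1 : ∀ s, ∀ j < l, H' s j = H s j := fun s j hj => by rw [hH']; exact if_pos hj
  have H2 : ∀ s j, l ≤ j → j < l' → H' s j = C (s.1.1 (pch c l' k j) +
      ((s.2.2 : ℝ) + 1 / 2) / 2 ^ min w J * s.1.2 (pch c l' k j)) := fun s j h1 h2 => by
    rw [hH']
    show (if j < l then _ else if j < l' then _ else _) = _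
    rw [if_neg (by omega), if_pos h2]
  have H3 : ∀ s, H' s l' = H s l := fun s => by
    rw [hH']
    show (if l' < l then _ else if l' < l' then _ else if l' = l' then _ else _) = _
    rw [if_neg (by omega), if_neg (lt_irrefl _), if_pos rfl]
  have H4 : ∀ s j, l' < j → H' s j = 0 := fun s j hj => by
    rw [hH']
    show (if j < l then _ else if j < l' then _ else if j = l' then _ else _) = _
    rw [if_neg (by omega), if_neg (by omega), if_neg (by omega)]
  have hcc : ∀ j < l, pch c l' k j = pch c l k j := fun j hj => by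
    rw [pch_lt hj, pch_lt (by omega)]
  have hck : pch c l' k l' = pch c l k l := by rw [pch_self, pch_self]
  -- the boxes
  have bx : ∀ {y : PtT F} {t : ℝ} {j j' : ℕ} {b : Option (Fin m) → ℝ}, j ≤ l → j ≤ j' →
      NBx (pch c l' k) (G' y) g' a t j' b → NBx (pch c l k) (G y) g a t j b := by
    intro y t j j' b h1 h2 hb
    refine ⟨hb.1, fun x hx => ?_⟩
    have h3 := hb.2 x (by omega)
    rw [hcc x (by omega), G1 y x (by omega), g1 x (by omega)] at h3
    exact h3
  have dd : ∀ {j j' : ℕ} {Q : MvPolynomial (Option (Fin m)) ℝ}, j ≤ l → j ≤ j' →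
      DepC (pch c l k) j Q → DepC (pch c l' k) j' Q := by
    intro j j' Q h1 h2 hQ b b' hn hb
    exact hQ b b' hn fun x hx => by rw [← hcc x (by omega)]; exact hb x (by omega)
  have d0 : ∀ (j : ℕ) (v : ℝ), DepC (pch c l' k) j (C v) := fun _ v b b' _ _ => by
    rw [eval_C, eval_C]
  have dz : ∀ j : ℕ, DepC (pch c l' k) j (0 : MvPolynomial (Option (Fin m)) ℝ) :=
    fun _ b b' _ _ => by rw [map_zero, map_zero]
  have tri : ∀ j, j < l ∨ (l ≤ j ∧ j < l') ∨ j = l' ∨ l' < j := fun j => by omega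
  refine ⟨G', H', fun y j => ?_, fun s j => ?_, fun y j => ?_, fun s j => ?_,
    fun ω hω j hj => ?_, fun ω hω j hj b hb => ?_, fun ω hω j hj b hb x hx => ?_⟩
  · rcases tri j with h1 | ⟨h1, h2⟩ | rfl | h1
    · rw [G1 y j h1]; exact h.degG y j
    · rw [G2 y j h1 h2, totalDegree_C]; exact Nat.zero_le _
    · rw [G3]; exact h.degG y l
    · rw [G4 y j h1, totalDegree_zero]; exact Nat.zero_le _
  · rcases tri j with h1 | ⟨h1, h2⟩ | rfl | h1
    · rw [H1 s j h1]; exact h.degH s j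
    · rw [H2 s j h1 h2, totalDegree_C]; exact Nat.zero_le _
    · rw [H3]; exact h.degH s l
    · rw [H4 s j h1, totalDegree_zero]; exact Nat.zero_le _
  · rcases tri j with h1 | ⟨h1, h2⟩ | rfl | h1
    · rw [G1 y j h1]; exact dd h1.le le_rfl (h.depG y j)
    · rw [G2 y j h1 h2]; exact d0 j _
    · rw [G3]; exact dd le_rfl hll (h.depG y l)
    · rw [G4 y j h1]; exact dz j
  · rcases tri j with h1 | ⟨h1, h2⟩ | rfl | h1
    · rw [H1 s j h1]; exact dd h1.le le_rfl (h.depH s j)
    · rw [H2 s j h1 h2]; exact d0 j _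
    · rw [H3]; exact dd le_rfl hll (h.depH s l)
    · rw [H4 s j h1]; exact dz j
  · rcases tri j with h1 | ⟨h1, h2⟩ | rfl | h1
    · rw [G1 _ j h1, hcc j h1, g1 j h1]; exact h.pos ω hω j (by omega)
    · rw [G2 _ j h1 h2, g2 j h1 h2, eval_C, pow_zero, div_one]
      exact (near_mid F (pch c l' k j) ω).trans (by norm_num)
    · rw [G3, hck, g3]; exact h.pos ω hω l (by omega)
    · omega
  · rcases tri j with h1 | ⟨h1, h2⟩ | rfl | h1
    · rw [G1 _ j h1, H1 _ j h1, g1 j h1]
      exact h.agr ω hω j (by omega) b (bx h1.le le_rfl hb)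
    · rw [G2 _ j h1 h2, H2 _ j h1 h2, g2 j h1 h2, eval_C, eval_C, pow_zero, div_one]
      have a1 := near_mid F (pch c l' k j) ω
      have a2 := near_midw F (pch c l' k j) w ω
      change |(((F.X J ω (pch c l' k j) : ℤ) : ℝ) + 1 / 2) / 2 ^ J - (F.u ω (pch c l' k j) +
        ((F.T1 w ω : ℝ) + 1 / 2) / 2 ^ min w J * F.d ω (pch c l' k j))| ≤ 1
      rw [abs_le] at a1 a2 ⊢
      constructor <;> linarith only [a1.1, a1.2, a2.1, a2.2]
    · rw [G3, H3, g3]
      exact h.agr ω hω l (by omega) b (bx le_rfl hll hb)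
    · omega
  · rcases tri j with h1 | ⟨h1, h2⟩ | h1 | h1
    · rw [G1 _ j h1, hcc x (by omega),
        nlp_congr (l := x) (g := g') (g' := g) fun y hy => g1 y (by omega)]
      exact h.lip ω hω j (by omega) b (bx h1.le le_rfl hb) x hx
    · rw [G2 _ j h1 h2, pderiv_C, map_zero, abs_zero]
      positivity
    · subst h1
      rw [G3]
      rcases Nat.lt_or_ge x l with h5 | h5
      · rw [hcc x h5]
        refine (h.lip ω hω l (by omega) b (bx le_rfl hll hb) x h5).trans ?_
        refine pow_le_pow_right₀ (by norm_num) (Nat.add_le_add_left ?_ _)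
        unfold nlp
        rw [g3]
        refine Nat.sub_le_sub_right (Finset.sup_le fun y hy => ?_) _
        have hy' := Finset.mem_Icc.1 hy
        rcases Nat.lt_or_ge y l with h6 | h6
        · rw [← g1 y h6]
          exact Finset.le_sup (f := g') (Finset.mem_Icc.2 ⟨hy'.1, by omega⟩)
        · have : y = l := by omega
          subst this
          rw [← g3]
          exact Finset.le_sup (f := g') (Finset.mem_Icc.2 ⟨by omega, le_rfl⟩)
      · have h6 := DepC.pd_zero (h.depG (ptr F J ω) l) (o := some (pch c j k x)) (by simp)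
          (fun y hy he => by
            have h7 := Option.some_injective _ he
            rw [← hcc y hy] at h7
            have := hc (show x < j + 1 by omega) (show y < j + 1 by omega) h7
            omega) b
        rw [h6, abs_zero]
        positivity
    · omega

theorem map_pch (c : ℕ → Fin m) (l : ℕ) (k : Fin m) :
    (List.range l).map (pch c l k) = (List.range l).map c :=
  List.map_congr_left fun j hj => pch_lt (List.mem_range.1 hj)

theorem inj_pch {c : ℕ → Fin m} {l i : ℕ} (hc : Set.InjOn c (Set.Iio (i + 1))) (hl : l ≤ i) :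
    Set.InjOn (pch c l (c i)) (Set.Iio (l + 1)) := by
  intro x hx y hy hxy
  have hx' : x ≤ l := Nat.lt_succ_iff.1 hx
  have hy' : y ≤ l := Nat.lt_succ_iff.1 hy
  rcases Nat.lt_or_ge x l with hx1 | hx1 <;> rcases Nat.lt_or_ge y l with hy1 | hy1
  · rw [pch_lt hx1, pch_lt hy1] at hxy
    exact hc (show x < i + 1 by omega) (show y < i + 1 by omega) hxy
  · have : y = l := by omega
    subst this
    rw [pch_lt hx1, pch_self] at hxy
    have := hc (show x < i + 1 by omega) (show i < i + 1 by omega) hxy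
    omega
  · have : x = l := by omega
    subst this
    rw [pch_lt hy1, pch_self] at hxy
    have := hc (show i < i + 1 by omega) (show y < i + 1 by omega) hxy
    omega
  · omega

theorem cht_long {c : ℕ → Fin m} {l l' i : ℕ} (hc : Set.InjOn c (Set.Iio (i + 1))) (hll : l ≤ l')
    (hi : l' ≤ i) {K a w Q : ℕ} {F : Fam m J} {A : F.Ω → Prop}
    (h : Cht θ ((List.range l).map c) (c i) K a w Q J F A) :
    Cht θ ((List.range l').map c) (c i) K a w Q J F A := by
  rw [← map_pch c l (c i)] at h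
  have e1 : c i = pch c l (c i) l := pch_self.symm
  have h1 : Cht θ ((List.range l).map (pch c l (c i))) (pch c l (c i) l) K a w Q J F A := by
    rw [pch_self]
    exact h
  obtain ⟨a₀, w₀, g, k1, k2, k3, k4, k5, k6⟩ := cht_chN h1
  have h2 := chN_long (inj_pch hc hi) hll k6
  have h3 := Cht.of_chN (θ := θ) (K₀ := K) (a := a) (w := w) (P := Q) h2 k1 k2 k3 (by
      show Q + a₀ ≤ (if l' < l then g l' else if l' < l' then 0 else g l) + a
      rw [if_neg (by omega), if_neg (lt_irrefl _)]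
      exact k4) (fun _ _ => le_rfl) le_rfl (fun j hj => by
      show (if j < l then g j else if j < l' then 0 else g l) ≤ J
      split_ifs with h5 h6
      · exact k5 j (by omega)
      · exact Nat.zero_le _
      · exact k5 l le_rfl)
  rw [map_pch, pch_self] at h3
  exact h3

/-- **The precision over a longer list** is larger, at the points of right-continuity. -/
theorem tau_mono (hS : S.Ne) (hP : ThrOf (chsys m θ) S P) {c : ℕ → Fin m} {l l' i : ℕ}
    (hc : Set.InjOn c (Set.Iio (i + 1))) (hll : l ≤ l') (hi : l' ≤ i) {a w : ℝ} (hw : 0 < w)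
    (hwa : w ≤ a) (hrc : Rc (tau P c l' i) a w) : tau P c l i a w ≤ tau P c l' i a w := by
  refine le_of_forall_pos_le_add fun ε hε => ?_
  obtain ⟨o, ho, ho1, ho2⟩ := hrc ε hε
  obtain ⟨a', ha1, ha2⟩ := exists_rat_btwn (show a + o / 2 < a + o by linarith)
  obtain ⟨w', hw1, hw2⟩ := exists_rat_btwn (show w < w + o / 2 by linarith)
  have hwa' : (w' : ℝ) ≤ a' := by linarith
  have ha' : (a' : ℝ) ≤ 1 := by linarith
  have h1 := Pool.LBT.thr_le' (i := ((List.range l).map c, c i))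
    (i' := ((List.range l').map c, c i)) hS hP hP
    (fun K => ⟨K, fun a w Q J F A hT => cht_long hc hll hi hT⟩) hw hwa
    (show a ≤ a' by linarith) hw1.le (by exact_mod_cast hwa') (by exact_mod_cast ha')
  refine h1.trans (le_trans ?_ ho2)
  exact (hP.law _).mono (by linarith) hwa' ha2.le (by linarith) (by linarith) ho1

/-- **Points of a class with a greedy order**: the precisions are then nearly sorted. -/
theorem Pts.of_greedy (hS : S.Ne) (hP : ThrOf (chsys m θ) S P) {c : ℕ → Fin m} {r N : ℕ}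
    (hc : Set.InjOn c (Set.Iio r)) {a w : ℕ → ℝ} {vs e₀ : ℝ} (pos : ∀ k < N, 0 < w k)
    (wa : ∀ k < N, w k ≤ a k) (lt : ∀ k < N, a k < 1)
    (rc : ∀ k < N, ∀ i < r, ∀ l ≤ i, Rc (tau P c l i) (a k) (w k))
    (vis : ∀ k < N, ∀ i < r, bet P c i (a k) (w k) + θ * w k < 1)
    (gre : ∀ k < N, ∀ i < r, ∀ l < i,
      bet P c l (a k) (w k) ≤ tau P c l i (a k) (w k) + vs)
    (rel : ∀ k < N, RelvC S c r (fun l => bet P c l (a k) (w k)) (a k) (w k) e₀) :
    Pts S P θ c r N a w vs e₀ := by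
  have key : ∀ k < N, ∀ i < r, ∀ l ≤ i,
      tau P c l i (a k) (w k) ≤ bet P c i (a k) (w k) := fun k hk i hi l hl => by
    have h1 := tau_mono hS hP (hc.mono fun x (hx : x < i + 1) => show x < r by omega) hl le_rfl
      (pos k hk) (wa k hk) (rc k hk i hi i le_rfl)
    rw [tau_self] at h1
    exact h1
  exact ⟨pos, wa, lt, rc, fun k hk i hi l hl => by
    have := key k hk i hi l hl
    have := vis k hk i hi
    linarith, gre, fun k hk i hi l hl => by
    have := key k hk i hi l hl.le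
    have := gre k hk i hi l hl
    linarith, rel⟩

end Pool.CHT
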