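import Pool.Agent.H2.GEN.AttG

/-!
# Chains at several points of a class, in greedy order

`jatt`: at finitely many points `(a k, w k)`, there are chains with the precisions of the
thresholds, up to hierarchical defects, on one large event, with small gradients, which are near
each other on the finer natural boxes (for all pairs `a k ≤ a k'`, `w k ≤ w k'`). The order of the coordinates is greedy up to `vs`, the thresholds are
right-continuous at the points, and there is no relation between the coordinates of the chains.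
-/

set_option autoImplicit false

namespace Pool.CHT

open Finset Real MvPolynomial
open Pool.Agent.H49.Ent Pool.Agent.H32.Dense Pool.STK Pool.KA Pool.KSAT Pool.K2S Pool.PB Pool.S6C
open Pool.GEN
open Pool.LBT (LSys Slo Tri ThrOf)
open Pool.LEV (Law)

variable {m J : ℕ} {θ : ℝ} {S : PCl m} {P : List (Fin m) × Fin m → ℝ → ℝ → ℝ}

/-! ### Auxiliary -/

/-- The labels beyond the chain do not matter. -/
theorem MCh.congr {F : Fam m J} {c : ℕ → Fin m} {i : ℕ} {K K' : ℕ → ℕ} {N : ℕ}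
    {R : ℕ → ℕ → Prop} {a w : ℕ → ℕ} {e : ℕ} {g g' : ℕ → ℕ → ℕ} {δ δ' : ℕ → ℕ} {B : F.Ω → Prop}
    {G : ℕ → PtT F → ℕ → MvPolynomial (Option (Fin m)) ℝ}
    {H : ℕ → LnT F → ℕ → MvPolynomial (Option (Fin m)) ℝ} (h : MCh F c i K N R a w e g δ B G H)
    (hK : ∀ l < i, K l ≤ K' l) (hg : ∀ k, ∀ l < i, g' k l = g k l) (hδ : ∀ l < i, δ' l = δ l) :
    ∃ (G' : ℕ → PtT F → ℕ → MvPolynomial (Option (Fin m)) ℝ)
      (H' : ℕ → LnT F → ℕ → MvPolynomial (Option (Fin m)) ℝ),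
      MCh F c i K' N R a w e g' δ' B G' H' := by
  obtain ⟨G', hG'⟩ : ∃ G' : ℕ → PtT F → ℕ → MvPolynomial (Option (Fin m)) ℝ,
    G' = fun k y l => if l < i then G k y l else 0 := ⟨_, rfl⟩
  obtain ⟨H', hH'⟩ : ∃ H' : ℕ → LnT F → ℕ → MvPolynomial (Option (Fin m)) ℝ,
    H' = fun k y l => if l < i then H k y l else 0 := ⟨_, rfl⟩
  have gl : ∀ k y, ∀ l < i, G' k y l = G k y l := fun k y l hl => by rw [hG']; exact if_pos hl
  have gg : ∀ k y l, i ≤ l → G' k y l = 0 := fun k y l hl => by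
    rw [hG']; exact if_neg (by omega)
  have hl' : ∀ k y, ∀ l < i, H' k y l = H k y l := fun k y l hl => by rw [hH']; exact if_pos hl
  have hg' : ∀ k y l, i ≤ l → H' k y l = 0 := fun k y l hl => by
    rw [hH']; exact if_neg (by omega)
  have bx : ∀ {k : ℕ} {y : PtT F} {x : ℕ} {t : ℝ} {l : ℕ} {b : Option (Fin m) → ℝ}, l ≤ i →
      NBx c (G' k y) (g' k) x t l b → NBx c (G k y) (g k) x t l b := by
    intro k y x t l b hl hb
    refine ⟨hb.1, fun j hj => ?_⟩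
    rw [← gl k y j (by omega), ← hg k j (by omega)]
    exact hb.2 j hj
  have d0 : ∀ l : ℕ, DepC c l (0 : MvPolynomial (Option (Fin m)) ℝ) := by
    intro l b b' _ _
    rw [map_zero, map_zero]
  refine ⟨G', H', ⟨fun k hk => ⟨fun y l => ?_, fun s l => ?_, fun y l => ?_, fun s l => ?_,
    fun ω hω l hl => ?_, fun ω hω l hl b hb => ?_, fun ω hω l hl b hb j hj => ?_⟩,
    fun k' hk' k hk hR l hl ω hω b hb => ?_, fun k' hk' k hk hR l hl ω hω b hb => ?_,
    fun k hk l hl ω hω b hb => ?_⟩⟩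
  · rcases Nat.lt_or_ge l i with h1 | h1
    · rw [gl k y l h1]; exact ((h.ok k hk).degG y l).trans (hK l h1)
    · rw [gg k y l h1, totalDegree_zero]; exact Nat.zero_le _
  · rcases Nat.lt_or_ge l i with h1 | h1
    · rw [hl' k s l h1]; exact ((h.ok k hk).degH s l).trans (hK l h1)
    · rw [hg' k s l h1, totalDegree_zero]; exact Nat.zero_le _
  · rcases Nat.lt_or_ge l i with h1 | h1
    · rw [gl k y l h1]; exact (h.ok k hk).depG y l
    · rw [gg k y l h1]; exact d0 l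
  · rcases Nat.lt_or_ge l i with h1 | h1
    · rw [hl' k s l h1]; exact (h.ok k hk).depH s l
    · rw [hg' k s l h1]; exact d0 l
  · rw [gl k _ l hl, hg k l hl]
    exact (h.ok k hk).pos ω hω l hl
  · rw [gl k _ l hl, hl' k _ l hl, hg k l hl]
    exact (h.ok k hk).agr ω hω l hl b (bx hl.le hb)
  · rw [gl k _ l hl, nlp_congr (l := j) (g := g' k) (g' := g k) fun x hx => hg k x (by omega)]
    exact (h.ok k hk).lip ω hω l hl b (bx hl.le hb) j hj
  · rw [gl k' _ l hl, gl k _ l hl, hg k l hl, hδ l hl]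
    exact h.uni k' hk' k hk hR l hl ω hω b (bx hl.le hb)
  · rw [gl k _ l hl, hl' k _ l hl, hg k l hl, hδ l hl]
    exact h.two k' hk' k hk hR l hl ω hω b (bx hl.le hb)
  · rw [gl k _ l hl, hδ l hl]
    exact h.siz k hk l hl ω hω b (bx hl.le hb)

theorem fin_pos (N : ℕ) {f : ℕ → ℝ} (h : ∀ k < N, 0 < f k) : ∃ μ : ℝ, 0 < μ ∧ ∀ k < N, μ ≤ f k := by
  induction N with
  | zero => exact ⟨1, one_pos, fun k hk => absurd hk (Nat.not_lt_zero k)⟩
  | succ N ih =>
    obtain ⟨μ, h1, h2⟩ := ih fun k hk => h k (by omega)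
    refine ⟨min μ (f N), lt_min h1 (h N (by omega)), fun k hk => ?_⟩
    rcases Nat.lt_or_ge k N with h3 | h3
    · exact (min_le_left _ _).trans (h2 k h3)
    · have : k = N := by omega
      subst this
      exact min_le_right _ _

/-- Floors of sums. -/
theorem fl_add {x y z : ℝ} (h : x ≤ y + z) : ⌊x⌋₊ ≤ ⌊y⌋₊ + (⌊z⌋₊ + 1) := by
  rcases le_or_gt 0 y with hy | hy
  · rcases le_or_gt 0 x with hx | hx
    · have h1 := Nat.floor_le hx
      have h2 := Nat.lt_floor_add_one y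
      have h3 := Nat.lt_floor_add_one z
      have h4 : ((⌊x⌋₊ : ℕ) : ℝ) < ((⌊y⌋₊ + (⌊z⌋₊ + 1) + 1 : ℕ) : ℝ) := by
        push_cast
        linarith
      have h5 : ⌊x⌋₊ < ⌊y⌋₊ + (⌊z⌋₊ + 1) + 1 := by exact_mod_cast h4
      omega
    · rw [Nat.floor_of_nonpos hx.le]
      exact Nat.zero_le _
  · have h1 : ⌊x⌋₊ ≤ ⌊z⌋₊ := Nat.floor_le_floor (by linarith)
    omega

theorem dgp_le (K : ℕ → ℕ) {l i r : ℕ} (hi : i ≤ r) :
    (dgp K l i : ℝ) ≤ (1 + ((∑ l' ∈ Finset.Ioo l i, K l' : ℕ) : ℝ)) ^ r := by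
  have e1 : Finset.Ico (l + 1) i = Finset.Ioo l i := by
    ext x
    rw [Finset.mem_Ico, Finset.mem_Ioo]
    omega
  have h1 : dgp K l i ≤ (1 + ∑ l' ∈ Finset.Ioo l i, K l') ^ r := by
    unfold dgp
    rw [e1]
    calc ∏ l' ∈ Finset.Ioo l i, max (K l') 1 ≤
        ∏ _l' ∈ Finset.Ioo l i, (1 + ∑ l' ∈ Finset.Ioo l i, K l') :=
          Finset.prod_le_prod' fun x hx => by
            have : K x ≤ ∑ l' ∈ Finset.Ioo l i, K l' :=
              Finset.single_le_sum (f := K) (fun _ _ => Nat.zero_le _) hx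
            omega
      _ = (1 + ∑ l' ∈ Finset.Ioo l i, K l') ^ (Finset.Ioo l i).card := by
          rw [Finset.prod_const]
      _ ≤ _ := Nat.pow_le_pow_right (by omega) (by
          rw [Nat.card_Ioo]
          omega)
  exact_mod_cast h1

/-! ### The hypotheses at the points -/

/-- The precision of the coordinate `c i` over the first `l` coordinates. -/
def tau (P : List (Fin m) × Fin m → ℝ → ℝ → ℝ) (c : ℕ → Fin m) (l i : ℕ) : ℝ → ℝ → ℝ :=
  P ((List.range l).map c, c i)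

theorem tau_self (P : List (Fin m) × Fin m → ℝ → ℝ → ℝ) (c : ℕ → Fin m) (i : ℕ) :
    tau P c i i = bet P c i := rfl

theorem bet_pch {c : ℕ → Fin m} {l i : ℕ} : bet P (pch c l (c i)) l = tau P c l i := by
  unfold bet tau
  rw [pch_self]
  congr 2
  refine List.map_congr_left fun j hj => ?_
  exact pch_lt (List.mem_range.1 hj)

theorem bet_pch_lt {c : ℕ → Fin m} {l i j : ℕ} (hj : j < l) :
    bet P (pch c l (c i)) j = bet P c j := by
  unfold bet
  rw [pch_lt hj]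
  congr 2
  refine List.map_congr_left fun x hx => ?_
  exact pch_lt ((List.mem_range.1 hx).trans hj)

/-- **Points of a class with a greedy order of the coordinates.** -/
structure Pts (S : PCl m) (P : List (Fin m) × Fin m → ℝ → ℝ → ℝ) (θ : ℝ) (c : ℕ → Fin m)
    (r N : ℕ) (a w : ℕ → ℝ) (vs e₀ : ℝ) : Prop where
  pos : ∀ k < N, 0 < w k
  wa : ∀ k < N, w k ≤ a k
  lt : ∀ k < N, a k < 1
  rc : ∀ k < N, ∀ i < r, ∀ l ≤ i, Rc (tau P c l i) (a k) (w k)
  vis : ∀ k < N, ∀ i < r, ∀ l ≤ i, tau P c l i (a k) (w k) + θ * w k < 1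
  gre : ∀ k < N, ∀ i < r, ∀ l < i, bet P c l (a k) (w k) ≤ tau P c l i (a k) (w k) + vs
  srt : ∀ k < N, ∀ i < r, ∀ l < i, bet P c l (a k) (w k) ≤ bet P c i (a k) (w k) + vs
  rel : ∀ k < N, RelvC S c r (fun l => bet P c l (a k) (w k)) (a k) (w k) e₀

/-- The constants of the gradients. -/
def Csl (r : ℕ) : ℕ → ℕ
  | 0 => 0
  | i + 1 => 1 + r * (Csl r i + 1)

/-- The conclusion, for the first `i` coordinates. -/
def Jat (S : PCl m) (P : List (Fin m) × Fin m → ℝ → ℝ → ℝ) (c : ℕ → Fin m) (N : ℕ) (a w : ℕ → ℝ)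
    (i : ℕ) (φ : ℕ → ℕ → ℝ) (e : ℝ) : Prop :=
  ∃ (K : ℕ → ℕ) (d δ : ℕ → ℝ) (K₁ : ℝ), 0 < K₁ ∧ (∀ l, 1 ≤ K l) ∧ Hie φ i K d ∧ Hie φ i K δ ∧
    Bas S (fun J F A => ∃ (B : F.Ω → Prop)
      (G : ℕ → PtT F → ℕ → MvPolynomial (Option (Fin m)) ℝ)
      (H : ℕ → LnT F → ℕ → MvPolynomial (Option (Fin m)) ℝ), Sub B A ∧
      Pe F.p A ≤ K₁ * Pe F.p B ∧ MCh F c i K N (fun k k' => a k ≤ a k' ∧ w k ≤ w k')
        (fun k => ⌊a k * J⌋₊) (fun k => ⌊w k * J⌋₊) ⌊e * J⌋₊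
        (fun k l => ⌊(bet P c l (a k) (w k) - d l) * J⌋₊) (fun l => ⌊δ l * J⌋₊) B G H)

/-- All the labels at once. -/
theorem att_all (hP : ThrOf (chsys m θ) S P) (hθ : 0 < θ) (hS : TmH S) {c : ℕ → Fin m} {r N : ℕ}
    (hc : Set.InjOn c (Set.Iio r)) {a w : ℕ → ℝ} {vs e₀ : ℝ} (h : Pts S P θ c r N a w vs e₀)
    {i : ℕ} (hi : i < r) {h₂ : ℝ} (h2 : 0 < h₂) : ∃ D₀ : ℕ, ∀ D ≥ D₀, ∀ κ : ℝ, 0 < κ →
    Bas S (fun J F A => ∀ B : F.Ω → Prop, Sub B A → κ * Pe F.p A ≤ Pe F.p B →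
      ∃ B' : F.Ω → Prop, Sub B' B ∧ Pe F.p B ≤ 2 ^ (N * (i + 1)) * Pe F.p B' ∧
        ∀ k < N, ∀ l ≤ i, ∃ (e' : ℕ) (g' : ℕ → ℕ), g' l = ⌊(tau P c l i (a k) (w k) - h₂) * J⌋₊ ∧
          ChN F (pch c l (c i)) (l + 1) (fun _ => D) ⌊a k * J⌋₊ ⌊w k * J⌋₊ e' g' B') := by
  have h0 : ∀ k l : ℕ, ∃ D₀ : ℕ, k < N → l ≤ i → ∀ D ≥ D₀, Bas S (fun J F A =>
      ∃ B : F.Ω → Prop, Sub B A ∧ Pe F.p A ≤ 2 * Pe F.p B ∧ ∃ (e' : ℕ) (g' : ℕ → ℕ),
        g' l = ⌊(tau P c l i (a k) (w k) - h₂) * J⌋₊ ∧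
        ChN F (pch c l (c i)) (l + 1) (fun _ => D) ⌊a k * J⌋₊ ⌊w k * J⌋₊ e' g' B) := by
    intro k l
    by_cases hk : k < N ∧ l ≤ i
    · obtain ⟨hk, hl⟩ := hk
      obtain ⟨D₀, h1⟩ := att_rec (c := pch c l (c i)) (l := l) hP hθ hS (by
        intro x hx y hy hxy
        have hx' : x ≤ l := Nat.lt_succ_iff.1 hx
        have hy' : y ≤ l := Nat.lt_succ_iff.1 hy
        rcases Nat.lt_or_ge x l with hx1 | hx1 <;> rcases Nat.lt_or_ge y l with hy1 | hy1
        · rw [pch_lt hx1, pch_lt hy1] at hxy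
          exact hc (show x < r by omega) (show y < r by omega) hxy
        · have : y = l := by omega
          subst this
          rw [pch_lt hx1, pch_self] at hxy
          have := hc (show x < r by omega) (show i < r by omega) hxy
          omega
        · have : x = l := by omega
          subst this
          rw [pch_lt hy1, pch_self] at hxy
          have := hc (show i < r by omega) (show y < r by omega) hxy
          omega
        · omega) (h.pos k hk) (h.wa k hk) (h.lt k hk) (fun j hj => by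
        rcases Nat.lt_or_ge j l with h3 | h3
        · rw [bet_pch_lt h3]
          exact h.rc k hk j (by omega) j le_rfl
        · have : j = l := by omega
          subst this
          rw [bet_pch]
          exact h.rc k hk i hi j hl) (fun j hj => by
        rcases Nat.lt_or_ge j l with h3 | h3
        · rw [bet_pch_lt h3]
          exact h.vis k hk j (by omega) j le_rfl
        · have : j = l := by omega
          subst this
          rw [bet_pch]
          exact h.vis k hk i hi j hl) h2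
      refine ⟨D₀, fun _ _ D hD => ?_⟩
      have h4 := h1 D hD
      rw [bet_pch] at h4
      exact h4
    · exact ⟨0, fun h1 h2 => absurd ⟨h1, h2⟩ hk⟩
  choose D₀ hD₀ using h0
  refine ⟨∑ k ∈ range N, ∑ l ∈ range (i + 1), D₀ k l, fun D hD κ hκ => ?_⟩
  have hDkl : ∀ k < N, ∀ l ≤ i, D₀ k l ≤ D := by
    intro k hk l hl
    refine le_trans ?_ hD
    calc D₀ k l ≤ ∑ l ∈ range (i + 1), D₀ k l :=
          Finset.single_le_sum (f := fun l => D₀ k l) (fun _ _ => Nat.zero_le _)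
            (mem_range.2 (by omega))
      _ ≤ _ := Finset.single_le_sum (f := fun k => ∑ l ∈ range (i + 1), D₀ k l)
            (fun _ _ => Nat.zero_le _) (mem_range.2 hk)
  obtain ⟨n, hn⟩ : ∃ n, n = N * (i + 1) := ⟨_, rfl⟩
  have hb := Bas.all (S := S) N (Φ := fun k J F A => ∀ l < i + 1, ∀ B : F.Ω → Prop, Sub B A →
      κ / 2 ^ n * Pe F.p A ≤ Pe F.p B → ∃ B' : F.Ω → Prop, Sub B' B ∧
        Pe F.p B ≤ 2 * Pe F.p B' ∧ ∃ (e' : ℕ) (g' : ℕ → ℕ),
        g' l = ⌊(tau P c l i (a k) (w k) - h₂) * J⌋₊ ∧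
        ChN F (pch c l (c i)) (l + 1) (fun _ => D) ⌊a k * J⌋₊ ⌊w k * J⌋₊ e' g' B') fun k hk =>
    Bas.all (S := S) (i + 1) (Φ := fun l J F A => ∀ B : F.Ω → Prop, Sub B A →
      κ / 2 ^ n * Pe F.p A ≤ Pe F.p B → ∃ B' : F.Ω → Prop, Sub B' B ∧
        Pe F.p B ≤ 2 * Pe F.p B' ∧ ∃ (e' : ℕ) (g' : ℕ → ℕ),
        g' l = ⌊(tau P c l i (a k) (w k) - h₂) * J⌋₊ ∧
        ChN F (pch c l (c i)) (l + 1) (fun _ => D) ⌊a k * J⌋₊ ⌊w k * J⌋₊ e' g' B') fun l hl =>
      bas_ev (hD₀ k l hk (by omega) D (hDkl k hk l (by omega))) (by positivity)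
  refine Bas.mono 0 hb ?_
  intro J _ F A hbb B hB hPB
  have hpos : ∀ A : F.Ω → Prop, 0 ≤ Pe F.p A := fun A => Pe_nonneg F.isLaw A
  obtain ⟨B', l1, l2, x, l3⟩ := iter_ex (p := F.p) (τ := ℕ × (ℕ → ℕ)) hpos 1 n (B₀ := B)
    (κ := 1 / 2 ^ n)
    (Ψ := fun j x B => x.2 (j % (i + 1)) =
        ⌊(tau P c (j % (i + 1)) i (a (j / (i + 1))) (w (j / (i + 1))) - h₂) * J⌋₊ ∧
        ChN F (pch c (j % (i + 1)) (c i)) (j % (i + 1) + 1) (fun _ => D) ⌊a (j / (i + 1)) * J⌋₊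
          ⌊w (j / (i + 1)) * J⌋₊ x.1 x.2 B)
    (fun j x B B' hB h => ⟨h.1, ChN.hered F _ _ _ _ _ _ _ B B' hB h.2⟩) (by positivity)
    (by rw [one_mul, one_div_mul_cancel (by positivity)]) (fun j hj B' hB' hP' => by
      have hj1 : j / (i + 1) < N := by
        rw [Nat.div_lt_iff_lt_mul (by omega)]
        omega
      obtain ⟨B'', n1, n2, e', g', n3, n4⟩ := hbb (j / (i + 1)) hj1 (j % (i + 1))
        (Nat.mod_lt _ (by omega)) B' (fun ω h => hB ω (hB' ω h)) (by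
          calc κ / 2 ^ n * Pe F.p A = 1 / 2 ^ n * (κ * Pe F.p A) := by ring
            _ ≤ 1 / 2 ^ n * Pe F.p B := mul_le_mul_of_nonneg_left hPB (by positivity)
            _ ≤ _ := hP')
      exact ⟨B'', n1, by rw [pow_one]; exact n2, (e', g'), n3, n4⟩)
  refine ⟨B', l1, by rw [one_mul, hn] at l2; exact l2, fun k hk l hl => ?_⟩
  have e1 : (k * (i + 1) + l) / (i + 1) = k := by
    rw [Nat.add_comm, Nat.add_mul_div_right _ _ (by omega), Nat.div_eq_of_lt (by omega), zero_add]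
  have e2 : (k * (i + 1) + l) % (i + 1) = l := by
    rw [Nat.add_comm, Nat.add_mul_mod_self_right, Nat.mod_eq_of_lt (by omega)]
  have h3 := l3 (k * (i + 1) + l) (by
    have : (k + 1) * (i + 1) ≤ N * (i + 1) := Nat.mul_le_mul_right _ hk
    rw [hn]
    nlinarith)
  rw [e1, e2] at h3
  exact ⟨(x (k * (i + 1) + l)).1, (x (k * (i + 1) + l)).2, h3.1, h3.2⟩

/-- **One more coordinate.** -/
theorem jat_succ (hP : ThrOf (chsys m θ) S P) (hθ : 0 < θ) (hS : TmH S) {c : ℕ → Fin m} {r N : ℕ}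
    (hc : Set.InjOn c (Set.Iio r)) {a w : ℕ → ℝ} {vs e₀ : ℝ} (hvs : 0 ≤ vs)
    (h : Pts S P θ c r N a w vs e₀) {i : ℕ} (hi : i < r)
    (ih : ∀ φ : ℕ → ℕ → ℝ, (∀ l n, 0 < φ l n) → ∀ e : ℝ, Csl r i * vs < e → e ≤ e₀ →
      Jat S P c N a w i φ e) (φ : ℕ → ℕ → ℝ) (hφ : ∀ l n, 0 < φ l n) (e : ℝ)
    (he : Csl r (i + 1) * vs < e) (he₀ : e ≤ e₀) : Jat S P c N a w (i + 1) φ e := by
  -- the parameters
  obtain ⟨μ, hμ, hμw⟩ := fin_pos N h.pos
  obtain ⟨ρ, hρ⟩ : ∃ ρ : ℝ, ρ = e - Csl r (i + 1) * vs := ⟨_, rfl⟩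
  have hρ0 : 0 < ρ := by rw [hρ]; linarith
  have hCsl : (Csl r (i + 1) : ℝ) = 1 + r * (Csl r i + 1) := by
    show ((1 + r * (Csl r i + 1) : ℕ) : ℝ) = _
    push_cast
    ring
  obtain ⟨x, hx⟩ : ∃ x : ℝ, x = min (φ i 0) (μ / 8) := ⟨_, rfl⟩
  have hx0 : 0 < x := by rw [hx]; exact lt_min (hφ i 0) (by positivity)
  have hx1 : x ≤ φ i 0 := by rw [hx]; exact min_le_left _ _
  have hx2 : x ≤ μ / 8 := by rw [hx]; exact min_le_right _ _
  obtain ⟨h₂, hh₂⟩ : ∃ h₂ : ℝ, h₂ = min (x / 2) (ρ / 8) := ⟨_, rfl⟩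
  have h20 : 0 < h₂ := by rw [hh₂]; exact lt_min (by positivity) (by positivity)
  have h21 : h₂ ≤ x / 2 := by rw [hh₂]; exact min_le_left _ _
  have h22 : h₂ ≤ ρ / 8 := by rw [hh₂]; exact min_le_right _ _
  obtain ⟨D₀, hatt⟩ := att_all hP hθ hS hc h hi h20
  obtain ⟨D, hD⟩ : ∃ D, D = max D₀ 1 := ⟨_, rfl⟩
  have hD1 : 1 ≤ D := by rw [hD]; exact le_max_right _ _
  have hD1' : (1 : ℝ) ≤ D := by exact_mod_cast hD1
  obtain ⟨C, hfam⟩ := fam_step D r N hD1
  obtain ⟨η, hη⟩ : ∃ η : ℝ, η = min (ρ / 8) (x / 4) / (C + 1) := ⟨_, rfl⟩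
  have hη0 : 0 < η := by
    rw [hη]
    exact div_pos (lt_min (by positivity) (by positivity)) (by positivity)
  have hηC : (C + 1) * η ≤ min (ρ / 8) (x / 4) := by
    rw [hη, mul_div_cancel₀ _ (by positivity : (C + 1 : ℝ) ≠ 0)]
  have hC0 : (0 : ℝ) ≤ C := Nat.cast_nonneg C
  have hη1 : C * η ≤ ρ / 8 := by
    have := hηC.trans (min_le_left _ _)
    linarith
  have hη2 : C * η ≤ x / 4 := by
    have := hηC.trans (min_le_right _ _)
    linarith
  have hη3 : η ≤ x / 4 := by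
    have := hηC.trans (min_le_right _ _)
    nlinarith
  -- no relation
  have hrel : ∀ k, ∃ φ' : ℕ → ℕ → ℝ, (∀ l n, 0 < φ' l n) ∧ (k < N → ∀ (K : ℕ → ℕ) (d : ℕ → ℝ),
      Hie φ' i K d → Bas S (RelvS c i K (fun l => bet P c l (a k) (w k)) d (a k) (w k) e₀ D η
        (1 / 2))) := by
    intro k
    by_cases hk : k < N
    · obtain ⟨φ', h1, h3⟩ := h.rel k hk D η hη0
      exact ⟨φ', h1, fun _ K d hd => h3 i hi.le K d hd (1 / 2) (by norm_num)⟩
    · exact ⟨fun _ _ => 1, fun _ _ => one_pos, fun h => absurd h hk⟩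
  choose φ₁ hφ₁ hrel using hrel
  have hψ : ∀ l n, ∃ y : ℝ, 0 < y ∧ ∀ k < N, y ≤ φ₁ k l n := fun l n =>
    fin_pos N fun k _ => hφ₁ k l n
  choose ψ hψ0 hψ1 using hψ
  have hr0 : (0 : ℝ) ≤ r := Nat.cast_nonneg r
  obtain ⟨ρ', hρ'⟩ : ∃ ρ' : ℝ, ρ' = ρ / (8 * (r + 1)) := ⟨_, rfl⟩
  have hρ'0 : 0 < ρ' := by rw [hρ']; positivity
  have hρ'r : r * ρ' ≤ ρ / 8 := by
    rw [hρ', mul_div_assoc', div_le_div_iff₀ (by positivity) (by norm_num)]
    nlinarith
  obtain ⟨φ', hφ'⟩ : ∃ φ' : ℕ → ℕ → ℝ, φ' = fun l n => min (φ l (n + D)) (min (ψ l n)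
      (min (μ / 8) (min ρ' (x / (8 * (r + 1) * D * (1 + n) ^ r))))) := ⟨_, rfl⟩
  have hφ'0 : ∀ l n, 0 < φ' l n := by
    intro l n
    rw [hφ']
    exact lt_min (hφ _ _) (lt_min (hψ0 _ _) (lt_min (by positivity) (lt_min hρ'0
      (by positivity))))
  have f1 : ∀ l n, φ' l n ≤ φ l (n + D) := fun l n => by rw [hφ']; exact min_le_left _ _
  have f2 : ∀ l n, φ' l n ≤ ψ l n := fun l n => by
    rw [hφ']; exact (min_le_right _ _).trans (min_le_left _ _)
  have f3 : ∀ l n, φ' l n ≤ μ / 8 := fun l n => by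
    rw [hφ']; exact (min_le_right _ _).trans ((min_le_right _ _).trans (min_le_left _ _))
  have f4 : ∀ l n, φ' l n ≤ ρ' := fun l n => by
    rw [hφ']
    exact (min_le_right _ _).trans ((min_le_right _ _).trans ((min_le_right _ _).trans
      (min_le_left _ _)))
  have f5 : ∀ l n, φ' l n ≤ x / (8 * (r + 1) * D * (1 + n) ^ r) := fun l n => by
    rw [hφ']
    exact (min_le_right _ _).trans ((min_le_right _ _).trans ((min_le_right _ _).trans
      (min_le_right _ _)))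
  obtain ⟨e₁, he₁⟩ : ∃ e₁ : ℝ, e₁ = Csl r i * vs + ρ' := ⟨_, rfl⟩
  have hr1 : (1 : ℝ) ≤ r := by exact_mod_cast (show 1 ≤ r by omega)
  have hCi : (0 : ℝ) ≤ Csl r i := Nat.cast_nonneg _
  have he₁e : e₁ ≤ e := by
    have h1 : Csl r i * vs ≤ Csl r (i + 1) * vs := by
      refine mul_le_mul_of_nonneg_right ?_ hvs
      rw [hCsl]
      nlinarith
    have h3 : ρ' ≤ ρ := by
      have : 1 * ρ' ≤ r * ρ' := mul_le_mul_of_nonneg_right hr1 hρ'0.le
      linarith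
    rw [he₁]
    linarith
  obtain ⟨K₀, d₀, δ₀, K₁, hK₁, hK0, hd₀, hδ₀, hlow⟩ := ih φ' hφ'0 e₁ (by rw [he₁]; linarith)
    (he₁e.trans he₀)
  obtain ⟨K, hK⟩ : ∃ K : ℕ → ℕ, K = fun l => if l = i then D else K₀ l := ⟨_, rfl⟩
  obtain ⟨d, hd⟩ : ∃ d : ℕ → ℝ, d = fun l => if l = i then x else d₀ l := ⟨_, rfl⟩
  obtain ⟨δ, hδ⟩ : ∃ δ : ℕ → ℝ, δ = fun l => if l = i then x else δ₀ l := ⟨_, rfl⟩
  have hKi : K i = D := by rw [hK]; exact if_pos rfl
  have hKl : ∀ l < i, K l = K₀ l := fun l hl => by rw [hK]; exact if_neg (by omega)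
  have hdi : d i = x := by rw [hd]; exact if_pos rfl
  have hdl : ∀ l < i, d l = d₀ l := fun l hl => by rw [hd]; exact if_neg (by omega)
  have hδi : δ i = x := by rw [hδ]; exact if_pos rfl
  have hδl : ∀ l < i, δ l = δ₀ l := fun l hl => by rw [hδ]; exact if_neg (by omega)
  have hd' : Hie φ' i K d := hd₀.congr hKl hdl
  have hδ' : Hie φ' i K δ := hδ₀.congr hKl hδl
  have hsum : ∀ l < i, ∑ l' ∈ Finset.Ioo l (i + 1), K l' = ∑ l' ∈ Finset.Ioo l i, K l' + D := by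
    intro l hl
    have e1 : Finset.Ioo l (i + 1) = insert i (Finset.Ioo l i) := by
      ext y
      rw [Finset.mem_insert, Finset.mem_Ioo, Finset.mem_Ioo]
      omega
    rw [e1, Finset.sum_insert (by rw [Finset.mem_Ioo]; omega), hKi, add_comm]
  have hie : ∀ d : ℕ → ℝ, Hie φ' i K d → d i = x → Hie φ (i + 1) K d := by
    intro d hd hdi l hl
    rcases Nat.lt_or_ge l i with h1 | h1
    · rw [hsum l h1]
      exact ⟨(hd l h1).1, (hd l h1).2.trans (f1 _ _)⟩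
    · have : l = i := by omega
      subst this
      have e1 : Finset.Ioo l (l + 1) = ∅ := by
        ext y
        rw [Finset.mem_Ioo]
        simp
      rw [hdi, e1, Finset.sum_empty]
      exact ⟨hx0, hx1⟩
  obtain ⟨c₁, hfam⟩ := hfam i K hi hKi
  obtain ⟨n, hn⟩ : ∃ n, n = N * (i + 1) := ⟨_, rfl⟩
  refine ⟨K, d, δ, K₁ * 2 ^ n * 2 ^ C, by positivity, fun l => ?_, hie d hd' hdi,
    hie δ hδ' hδi, ?_⟩
  · rcases eq_or_ne l i with h1 | h1
    · rw [h1, hKi]; exact hD1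
    · rw [hK]
      show 1 ≤ if l = i then D else K₀ l
      rw [if_neg h1]
      exact hK0 l
  -- the statements about the class
  have hatt' := hatt D (by rw [hD]; exact le_max_left _ _) (1 / K₁) (by positivity)
  have hrel' := Bas.all (S := S) N (Φ := fun k J F A => ∀ (B₀ : F.Ω → Prop)
      (G : PtT F → ℕ → MvPolynomial (Option (Fin m)) ℝ)
      (H : LnT F → ℕ → MvPolynomial (Option (Fin m)) ℝ) (e : ℕ), Sub B₀ A →
      1 / (K₁ * 2 ^ n) * Pe F.p A ≤ Pe F.p B₀ → e ≤ ⌊e₀ * J⌋₊ →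
      ChOK F c i K ⌊a k * J⌋₊ ⌊w k * J⌋₊ e
        (fun l => ⌊(bet P c l (a k) (w k) - d l) * J⌋₊) B₀ G H →
      RelvF F c i ⌊a k * J⌋₊ ⌊w k * J⌋₊ (fun l => ⌊(bet P c l (a k) (w k) - d l) * J⌋₊) D
        ⌊η * J⌋₊ (1 / 2 ^ C) B₀ G) fun k hk =>
    relvF_of (hrel k hk K d (hd'.mono fun l n => (f2 l n).trans (hψ1 l n k hk)))
      (by positivity) (by positivity)
  obtain ⟨cs, hcs⟩ : ∃ cs : ℝ, cs = ∑ l ∈ range i, (D * dgp K l i : ℝ) := ⟨_, rfl⟩
  obtain ⟨J₁, hJ₁⟩ := big ((c₁ : ℝ) + C + r * 4 + 3) (show 0 < ρ / 8 by positivity)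
  obtain ⟨J₂, hJ₂⟩ := big ((c₁ : ℝ) + C + 1 + cs) (show 0 < x / 8 by positivity)
  obtain ⟨J₃, hJ₃⟩ := big (1 : ℝ) (show 0 < μ / 8 by positivity)
  refine Bas.mono (max (max J₁ J₂) J₃) ((hlow.and hatt').and hrel') ?_
  rintro J hJ F A ⟨⟨⟨B₁, G, H, hB₁, hPB₁, hM⟩, hat⟩, hre⟩
  have hJ0 : (0 : ℝ) ≤ J := Nat.cast_nonneg J
  have b1 := hJ₁ J (((le_max_left _ _).trans (le_max_left _ _)).trans hJ)
  have b2 := hJ₂ J (((le_max_right _ _).trans (le_max_left _ _)).trans hJ)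
  have b3 := hJ₃ J ((le_max_right _ _).trans hJ)
  obtain ⟨G, H, hM⟩ := hM.congr (K' := K)
    (g' := fun k l => ⌊(bet P c l (a k) (w k) - d l) * J⌋₊) (δ' := fun l => ⌊δ l * J⌋₊)
    (fun l hl => (hKl l hl).ge) (fun k l hl => by
      show ⌊(bet P c l (a k) (w k) - d l) * J⌋₊ = ⌊(bet P c l (a k) (w k) - d₀ l) * J⌋₊
      rw [hdl l hl]) (fun l hl => by
      show ⌊δ l * J⌋₊ = ⌊δ₀ l * J⌋₊
      rw [hδl l hl])
  obtain ⟨B₂, hB₂, hPB₂, hch⟩ := hat B₁ hB₁ (by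
    rw [one_div, inv_mul_le_iff₀ hK₁]
    exact hPB₁)
  have hB₂A : Sub B₂ A := fun ω h => hB₁ ω (hB₂ ω h)
  have hPA2 : Pe F.p A ≤ K₁ * 2 ^ n * Pe F.p B₂ := by
    rw [hn]
    calc Pe F.p A ≤ K₁ * Pe F.p B₁ := hPB₁
      _ ≤ K₁ * (2 ^ (N * (i + 1)) * Pe F.p B₂) := mul_le_mul_of_nonneg_left hPB₂ hK₁.le
      _ = _ := by ring
  have hM2 := hM.sub hB₂
  have haw : ∀ k < N, 0 < a k := fun k hk => (h.pos k hk).trans_le (h.wa k hk)
  have hlow' : ∀ l, ∀ k < N, a k ≤ bet P c l (a k) (w k) := fun l k hk =>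
    hP.low ((List.range l).map c, c l) (a k) (w k) (h.pos k hk).le (h.wa k hk) (h.lt k hk).le
  have hμb : ∀ l, ∀ k < N, μ ≤ bet P c l (a k) (w k) := fun l k hk =>
    (hμw k hk).trans ((h.wa k hk).trans (hlow' l k hk))
  have hdμ : ∀ l < i, d l ≤ μ / 8 := fun l hl => (hd' l hl).2.trans (f3 _ _)
  have hδμ : ∀ l < i, δ l ≤ μ / 8 := fun l hl => (hδ' l hl).2.trans (f3 _ _)
  have hdρ : ∀ l < i, d l ≤ ρ' := fun l hl => (hd' l hl).2.trans (f4 _ _)
  have hδ0 : ∀ l < i, 0 < δ l := fun l hl => (hδ' l hl).1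
  have hd0 : ∀ l ≤ i, 0 < d l := by
    intro l hl
    rcases Nat.lt_or_ge l i with h1 | h1
    · exact (hd' l h1).1
    · have : l = i := by omega
      subst this
      rw [hdi]
      exact hx0
  have hfl : ⌊η * J⌋₊ ≤ η * (J : ℝ) := Nat.floor_le (by positivity)
  obtain ⟨B, G', H', k1, k2, k3⟩ := hfam (F := F) (c := c) (a := fun k => ⌊a k * J⌋₊)
    (w := fun k => ⌊w k * J⌋₊) (e := ⌊e₁ * J⌋₊) (e' := ⌊e * J⌋₊) (h := ⌊η * J⌋₊)
    (q := ⌊(vs + h₂) * J⌋₊ + 1) (s := ⌊e₁ * J⌋₊ + (⌊(vs + ρ') * J⌋₊ + 1))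
    (g := fun k l => ⌊(bet P c l (a k) (w k) - d l) * J⌋₊)
    (P := fun k l => ⌊(tau P c l i (a k) (w k) - h₂) * J⌋₊) (δ := fun l => ⌊δ l * J⌋₊)
    (κ := 1 / 2 ^ C) (B₀ := B₂) (G := G) (H := H)
    (hc.mono fun y hy => lt_trans hy hi) (by positivity)
    (by rw [one_div_mul_cancel (by positivity)]) hM2
    (fun k hk => hre k hk B₂ (G k) (H k) ⌊e₁ * J⌋₊ hB₂A (by
      rw [one_div, inv_mul_le_iff₀ (by positivity)]
      exact hPA2) (Nat.floor_le_floor (mul_le_mul_of_nonneg_right (he₁e.trans he₀) hJ0))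
      (hM2.ok k hk)) hch
    (fun k hk l hl => by
      have g1 := h.gre k hk i hi l hl
      have g2 := h.srt k hk i hi l hl
      have g3 := mul_nonneg (hd0 l hl.le).le hJ0
      constructor
      · refine fl_add ?_
        have := mul_le_mul_of_nonneg_right g1 hJ0
        linarith
      · refine fl_add ?_
        have := mul_le_mul_of_nonneg_right g2 hJ0
        show (bet P c l (a k) (w k) - d l) * (J : ℝ) ≤ (tau P c i i (a k) (w k) - h₂) * J +
          (vs + h₂) * J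
        rw [tau_self]
        linarith)
    (fun k hk j hj l hl => by
      refine Nat.add_le_add_left ?_ _
      show (Finset.Icc l j).sup (fun l => ⌊(bet P c l (a k) (w k) - d l) * J⌋₊) -
        ⌊(bet P c j (a k) (w k) - d j) * J⌋₊ ≤ _
      rw [Nat.sub_le_iff_le_add']
      refine Finset.sup_le fun y hy => ?_
      have hy' := Finset.mem_Icc.1 hy
      have g3 := mul_nonneg (hd0 y (by omega)).le hJ0
      have g4 := mul_le_mul_of_nonneg_right (hdρ j hj) hJ0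
      refine fl_add ?_
      rcases Nat.lt_or_ge y j with h1 | h1
      · have := mul_le_mul_of_nonneg_right (h.srt k hk j (by omega) y h1) hJ0
        linarith
      · have : y = j := by omega
        subst this
        have := mul_nonneg hvs hJ0
        linarith [mul_nonneg hρ'0.le hJ0])
    (by
      refine Nat.le_floor ?_
      have g1 : (⌊(vs + h₂) * J⌋₊ : ℝ) ≤ (vs + h₂) * J := Nat.floor_le (by positivity)
      have g2 : (⌊e₁ * J⌋₊ : ℝ) ≤ e₁ * J := Nat.floor_le (by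
        rw [he₁]; positivity)
      have g3 : (⌊(vs + ρ') * J⌋₊ : ℝ) ≤ (vs + ρ') * J := Nat.floor_le (by positivity)
      have g4 : (C : ℝ) * ⌊η * J⌋₊ ≤ ρ / 8 * J := by
        have := mul_le_mul_of_nonneg_left hfl hC0
        have g5 := mul_le_mul_of_nonneg_right hη1 hJ0
        linarith
      have g6 : r * ((⌊e₁ * J⌋₊ : ℝ) + (⌊(vs + ρ') * J⌋₊ + 1) + 2) ≤
          r * ((e₁ + vs + ρ') * J + 3) := by
        refine mul_le_mul_of_nonneg_left ?_ hr0
        linarith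
      have g7 : r * (e₁ + vs + ρ') ≤ r * (Csl r i + 1) * vs + ρ / 8 + ρ / 8 := by
        rw [he₁]
        linarith
      have g8 := mul_le_mul_of_nonneg_right g7 hJ0
      have g9 := mul_le_mul_of_nonneg_right h22 hJ0
      have g10 : e = (1 + r * (Csl r i + 1)) * vs + ρ := by rw [← hCsl, hρ]; ring
      have g11 : 0 ≤ ρ / 8 * (J : ℝ) := by positivity
      rw [g10]
      push_cast
      linarith)
    (Nat.floor_le_floor (mul_le_mul_of_nonneg_right he₁e hJ0))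
    (fun k hk => by
      refine Nat.le_floor ?_
      show ((⌊(bet P c i (a k) (w k) - d i) * J⌋₊ + C * (⌊η * J⌋₊ + 1) : ℕ) : ℝ) ≤
        (bet P c i (a k) (w k) - h₂) * J
      rw [hdi]
      have g1 : (⌊(bet P c i (a k) (w k) - x) * J⌋₊ : ℝ) ≤ (bet P c i (a k) (w k) - x) * J :=
        Nat.floor_le (mul_nonneg (by linarith [hμb i k hk]) hJ0)
      have g4 : (C : ℝ) * ⌊η * J⌋₊ ≤ x / 4 * J := by
        have := mul_le_mul_of_nonneg_left hfl hC0
        have g5 := mul_le_mul_of_nonneg_right hη2 hJ0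
        linarith
      have g5 := mul_le_mul_of_nonneg_right h21 hJ0
      have g6 : 0 ≤ cs := by rw [hcs]; exact Finset.sum_nonneg fun _ _ => by positivity
      have g7 : (0 : ℝ) ≤ c₁ := Nat.cast_nonneg c₁
      have g8 : 0 ≤ x * (J : ℝ) := by positivity
      push_cast
      linarith)
    (fun k' hk' k hk hR => by
      obtain ⟨g1, g2⟩ := hR
      refine ⟨Nat.floor_le_floor (mul_le_mul_of_nonneg_right g1 hJ0),
        Nat.floor_le_floor (mul_le_mul_of_nonneg_right g2 hJ0),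
        Pool.LBT.fl_le' ((h.wa k' hk').trans (h.lt k' hk').le) J, fun l hl => ?_⟩
      refine Nat.floor_le_floor (mul_le_mul_of_nonneg_right ?_ hJ0)
      have g3 : bet P c l (a k) (w k) ≤ bet P c l (a k') (w k') :=
        (hP.law _).mono (h.pos k hk).le (h.wa k hk) g1 g2 (h.wa k' hk') (h.lt k' hk').le
      linarith)
    (fun k hk l hl => by
      refine Nat.le_floor ?_
      have g1 : (⌊δ l * J⌋₊ : ℝ) ≤ δ l * J := Nat.floor_le (mul_nonneg (hδ0 l hl).le hJ0)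
      have g2 := mul_le_mul_of_nonneg_right (hδμ l hl) hJ0
      have g3 := mul_le_mul_of_nonneg_right (hdμ l hl) hJ0
      have g4 := mul_le_mul_of_nonneg_right (hμb l k hk) hJ0
      have g5 : 0 ≤ μ * (J : ℝ) := by positivity
      push_cast
      linarith)
    (by
      refine Nat.le_floor ?_
      rw [hδi]
      have g1 : ∀ l ∈ range i, ((⌊δ l * J⌋₊ : ℝ) + 1) * (D * dgp K l i) ≤
          x / (8 * (r + 1)) * J + D * dgp K l i := by
        intro l hl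
        have hl' := mem_range.1 hl
        have g2 : (⌊δ l * J⌋₊ : ℝ) ≤ δ l * J := Nat.floor_le (mul_nonneg (hδ0 l hl').le hJ0)
        have g3 := (hδ' l hl').2.trans (f5 _ _)
        have g4 := dgp_le K (l := l) (r := r) hi.le
        obtain ⟨y, hy⟩ : ∃ y : ℝ, y = (1 + ((∑ l' ∈ Finset.Ioo l i, K l' : ℕ) : ℝ)) ^ r :=
          ⟨_, rfl⟩
        have hy0 : 0 < y := by rw [hy]; positivity
        rw [← hy] at g3 g4
        have hD0 : (0 : ℝ) < D := by linarith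
        have hdg : (0 : ℝ) ≤ dgp K l i := Nat.cast_nonneg _
        have g5 : δ l * (D * dgp K l i) ≤ x / (8 * (r + 1)) := by
          calc δ l * (D * dgp K l i) ≤ x / (8 * (r + 1) * D * y) * (D * y) :=
                mul_le_mul g3 (mul_le_mul_of_nonneg_left g4 hD0.le) (by positivity)
                  (by positivity)
            _ = _ := by field_simp
        have g6 := mul_le_mul_of_nonneg_right g5 hJ0
        have g7 := mul_le_mul_of_nonneg_right g2 (show (0 : ℝ) ≤ D * dgp K l i by positivity)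
        linarith
      have g2 := Finset.sum_le_sum g1
      rw [Finset.sum_add_distrib, Finset.sum_const, card_range, nsmul_eq_mul, ← hcs] at g2
      have g3 : (i : ℝ) * (x / (8 * (r + 1)) * J) ≤ x / 8 * J := by
        have g4 : (i : ℝ) ≤ r + 1 := by
          have : (i : ℝ) ≤ r := by exact_mod_cast hi.le
          linarith
        calc (i : ℝ) * (x / (8 * (r + 1)) * J) ≤ (r + 1) * (x / (8 * (r + 1)) * J) :=
              mul_le_mul_of_nonneg_right g4 (by positivity)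
          _ = _ := by field_simp
      have g5 := mul_le_mul_of_nonneg_right hη3 hJ0
      have g6 : 0 ≤ x * (J : ℝ) := by positivity
      push_cast
      linarith)
  refine ⟨B, G', H', fun ω h => hB₂A ω (k1 ω h), ?_, k3⟩
  calc Pe F.p A ≤ K₁ * 2 ^ n * Pe F.p B₂ := hPA2
    _ ≤ K₁ * 2 ^ n * (2 ^ C * Pe F.p B) := mul_le_mul_of_nonneg_left k2 (by positivity)
    _ = _ := by ring

/-- **Chains at several points of a class, in greedy order.** -/
theorem jatt (hP : ThrOf (chsys m θ) S P) (hθ : 0 < θ) (hS : TmH S) {c : ℕ → Fin m} {r N : ℕ}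
    (hc : Set.InjOn c (Set.Iio r)) {a w : ℕ → ℝ} {vs e₀ : ℝ} (hvs : 0 ≤ vs)
    (h : Pts S P θ c r N a w vs e₀) : ∀ i ≤ r, ∀ φ : ℕ → ℕ → ℝ, (∀ l n, 0 < φ l n) → ∀ e : ℝ,
    Csl r i * vs < e → e ≤ e₀ → Jat S P c N a w i φ e := by
  intro i
  induction i with
  | zero =>
    intro _ φ _ e _ _
    refine ⟨fun _ => 1, fun _ => 0, fun _ => 0, 1, one_pos, fun _ => le_rfl,
      fun l hl => absurd hl (Nat.not_lt_zero l), fun l hl => absurd hl (Nat.not_lt_zero l),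
      1, one_pos, 0, fun J _ F A _ => ⟨A, fun _ _ _ => 0, fun _ _ _ => 0, fun _ h => h,
        by rw [one_mul], ⟨fun k hk => ⟨fun y l => ?_, fun s l => ?_, fun y l b b' _ _ => ?_,
        fun s l b b' _ _ => ?_, fun ω hω l hl => absurd hl (Nat.not_lt_zero l),
        fun ω hω l hl => absurd hl (Nat.not_lt_zero l),
        fun ω hω l hl => absurd hl (Nat.not_lt_zero l)⟩,
        fun k' _ k _ _ l hl => absurd hl (Nat.not_lt_zero l),
        fun k' _ k _ _ l hl => absurd hl (Nat.not_lt_zero l),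
        fun k _ l hl => absurd hl (Nat.not_lt_zero l)⟩⟩⟩
    · show (0 : MvPolynomial (Option (Fin m)) ℝ).totalDegree ≤ 1
      rw [totalDegree_zero]; exact Nat.zero_le _
    · show (0 : MvPolynomial (Option (Fin m)) ℝ).totalDegree ≤ 1
      rw [totalDegree_zero]; exact Nat.zero_le _
    · show eval b (0 : MvPolynomial (Option (Fin m)) ℝ) = eval b' 0
      rw [map_zero, map_zero]
    · show eval b (0 : MvPolynomial (Option (Fin m)) ℝ) = eval b' 0
      rw [map_zero, map_zero]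
  | succ i ih =>
    intro hi φ hφ e he he₀
    exact jat_succ hP hθ hS hc hvs h (by omega) (fun φ hφ e h1 h2 => ih (by omega) φ hφ e h1 h2)
      φ hφ e he he₀

end Pool.CHT
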