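import Pool.Agent.H1.GEN.One
import Pool.Agent.H2.GEN.ChB

/-!
# Labels over boxes and labels of a coordinate over any list

The labels of the systems `Pool.CHB.chsysB` and `Pool.CHT.chsys` with a list without repetitions and
a target which is not in the list are labels of the system `Pool.ONE.tgs` of the target.
Consequently the thresholds over boxes are at most the thresholds of the target (`le_tgs`).
-/

set_option autoImplicit false

namespace Pool.CHB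

open Finset Real MvPolynomial
open Pool.Agent.H49.Ent Pool.Agent.H32.Dense Pool.STK Pool.KA Pool.KSAT Pool.K2S Pool.PB Pool.S6C
open Pool.GEN Pool.CHT
open Pool.LBT (LSys Slo Tri ThrOf)
open Pool.LEV (Law)
open Pool.LBN (Tch cof)
open Pool.ONE (tgs)

variable {n J : ℕ} {θ : Option ℝ} {β : List (Fin n) × Fin n → ℝ → ℝ → ℝ}

theorem cof_getD {l : List (Fin n)} {k : Fin n} {j : ℕ} (hj : j ≤ l.length) :
    l.getD j k = cof l k j := by
  rcases Nat.lt_or_ge j l.length with h | h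
  · rw [Pool.LBN.cof_lt h, List.getD_eq_getElem _ _ h]
  · have : j = l.length := by omega
    subst this
    rw [Pool.LBN.cof_len, List.getD_eq_default _ _ le_rfl]

/-- Labels over boxes are labels. -/
theorem CtB.tch {i : List (Fin n) × Fin n} {K a w P : ℕ} {F : Fam n J} {A : F.Ω → Prop}
    (h : CtB θ β i K a w P J F A) : Tch i.1 i.2 K a w P J F A := by
  obtain ⟨α, ω, e, g, h1, h2, h3, h4, h5, h6, h7, h8, h9, h10⟩ := h
  exact ⟨⌊α * J⌋₊, ⌊ω * J⌋₊, e, g,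
    Nat.floor_le_floor (mul_le_mul_of_nonneg_right h2 (Nat.cast_nonneg J)), h4, h5, h6, h7,
    Pool.LBN.chn_congr h10 (fun j hj => cof_getD (Nat.lt_succ_iff.1 hj)) (fun _ _ => le_rfl)
      fun _ _ => rfl⟩

/-- Chain labels are labels. -/
theorem tch_of_cht {θ₀ : ℝ} {l : List (Fin n)} {k : Fin n} {K a w P : ℕ} {F : Fam n J}
    {A : F.Ω → Prop} (h : Cht θ₀ l k K a w P J F A) : Tch l k K a w P J F A := by
  obtain ⟨a₀, w₀, g, h1, h2, h3, h4, h5, h6⟩ := h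
  exact ⟨a₀, w₀, _, g, h1, h2, h3, h4, h5, Pool.LBN.chn_congr h6
    (fun j hj => cof_getD (Nat.lt_succ_iff.1 hj)) (fun _ _ => le_rfl) fun _ _ => rfl⟩

/-- **The thresholds over boxes are at most the thresholds of the target**, at all points. -/
theorem le_tgs {S : PCl n} (hS : S.Ne) {P : List (Fin n) × Fin n → ℝ → ℝ → ℝ}
    (hP : ThrOf (chsysB n θ β) S P) {i : List (Fin n) × Fin n} (hi : i.1.Nodup) (hi' : i.2 ∉ i.1)
    (hR : Pool.LBT.Reg (P i)) {Q : ℝ → ℝ → ℝ} (hQ : ThrOf (tgs i.2) S (fun _ => Q)) :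
    ∀ a w : ℝ, 0 < w → w ≤ a → a ≤ 1 → P i a w ≤ Q a w := fun _ _ h1 h2 h3 =>
  hR.le (hQ.law ()) (fun _ _ k1 k2 k3 => Pool.LBT.thr_le (i' := ()) hS hP hQ (fun K =>
    ⟨K, fun _ _ _ _ _ _ hT => ⟨i.1, hi, hi', CtB.tch hT⟩⟩) k1 k2 k3) h1 h2 h3

/-- The same for the chain labels with arbitrary sides. -/
theorem le_tgs' {S : PCl n} (hS : S.Ne) {θ₀ : ℝ} {P : List (Fin n) × Fin n → ℝ → ℝ → ℝ}
    (hP : ThrOf (chsys n θ₀) S P) {i : List (Fin n) × Fin n} (hi : i.1.Nodup) (hi' : i.2 ∉ i.1)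
    (hR : Pool.LBT.Reg (P i)) {Q : ℝ → ℝ → ℝ} (hQ : ThrOf (tgs i.2) S (fun _ => Q)) :
    ∀ a w : ℝ, 0 < w → w ≤ a → a ≤ 1 → P i a w ≤ Q a w := fun _ _ h1 h2 h3 =>
  hR.le (hQ.law ()) (fun _ _ k1 k2 k3 => Pool.LBT.thr_le (i' := ()) hS hP hQ (fun K =>
    ⟨K, fun _ _ _ _ _ _ hT => ⟨i.1, hi, hi', tch_of_cht hT⟩⟩) k1 k2 k3) h1 h2 h3

/-- **The thresholds over boxes exist in a subclass** and are at most the thresholds of the target;
any countable family of `β` at once. -/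
theorem thr_le_tgs {S : PCl n} (hS : S.Ne) {κ : Type} [Countable κ] (θ : κ → Option ℝ)
    (β : κ → List (Fin n) × Fin n → ℝ → ℝ → ℝ) :
    ∃ (S' : PCl n) (P : κ → List (Fin n) × Fin n → ℝ → ℝ → ℝ), S'.Ne ∧
      (∀ (τ : ℝ) (J : ℕ) (F : Fam n J) (A : F.Ω → Prop), S'.St τ J F A → S.St τ J F A) ∧
      (∀ x, ThrOf (chsysB n (θ x) (β x)) S' (P x)) ∧ (∀ x i, Pool.LBT.Reg (P x i)) ∧
      ∀ (k : Fin n) (Q : ℝ → ℝ → ℝ), ThrOf (tgs k) S (fun _ => Q) → ∀ x (l : List (Fin n)),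
        l.Nodup → k ∉ l → ∀ a w : ℝ, 0 < w → w ≤ a → a ≤ 1 → P x (l, k) a w ≤ Q a w := by
  obtain ⟨S', P, h1, h2, h3⟩ := Pool.LBT.thr (LSys.sig fun x => chsysB n (θ x) (β x)) S hS
    (Pool.LBT.slo_sig fun x => slo_chsysB (θ x) (β x) S)
    (Pool.LBT.tri_sig fun x => tri_chsysB (θ x) (β x) S)
  obtain ⟨P', h4, h5, -⟩ := h3.reg
  refine ⟨S', fun x i => P' ⟨x, i⟩, h1, h2, fun x => h4.of_sig x, fun x i => h5 ⟨x, i⟩,
    fun k Q hQ x l hl hk => ?_⟩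
  exact le_tgs h1 (h4.of_sig x) (i := (l, k)) hl hk (h5 ⟨x, (l, k)⟩) (hQ.sub h2)

end Pool.CHB
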