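import Pool.Agent.H2.GEN.ChnB
import Pool.Agent.H9.GEN.AttC
import Pool.Agent.H9.GEN.DiaN
import Pool.Agent.H62.GEN.JatC
import Pool.Agent.H87.GEN.Pkg
import Pool.Agent.H60.GEN.Dich

/-!
# The grids of ball charts at the windows of a class

`Fac.chI`: at almost every good window of an order of a class with its numbers (`Pool.PKG.Pk`) all
that is needed for the grid of re-centred ball charts (`Pool.ISO.ChI`), at all small scales.
-/

set_option autoImplicit false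

namespace Pool.PKG

open MeasureTheory Set Filter Topology
open Pool.Agent.H49.Ent Pool.Agent.H32.Dense Pool.STK Pool.KA Pool.KSAT Pool.K2S Pool.PB
open Pool.GEN Pool.S6C Pool.STAT Pool.CHT Pool.GRW Pool.ONE Pool.STA
open Pool.LBT (LSys ThrOf)
open Pool.LBN (cof)
open Pool.ALL (RateOf)
open Pool.TOP (T1c T2c TopS)
open Pool.STR (AttN Slp slp_of)
open Pool.FRN (AttC UpA Wgd Gdy attN_attC tgP_of')
open Pool.JTN (TgP Cen jatN_of)
open Pool.ISO (ChI)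

variable {n : ℕ} {hn : 2 ≤ n} {S : PCl n} {P : ℝ → ℝ → ℝ} {r : ℝ → ℝ}
  {P' : ℕ → List (Fin n) × Fin n → ℝ → ℝ → ℝ} {Λ : Finset (Fin n) → Fin n → ℝ → ℝ → ℝ}
  {o : Od n} {g α Q c : ℝ}

/-- The windows with labels. -/
def Wgc (P' : ℕ → List (Fin n) × Fin n → ℝ → ℝ → ℝ) (j : ℕ) : Set ℝ :=
  Wgd (P' j) ∩ Set.Ioo 0 1

theorem Pk.wgc_den (H : Pk hn S P r P' Λ) (j : ℕ) (x y : ℝ) (hx : 0 < x) (hxy : x < y)
    (hy : y < 1) : ∃ w ∈ Wgc P' j, x < w ∧ w < y := by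
  have h1 := Pool.FRN.wgd_ae (H.cht j)
  rw [ae_restrict_iff' measurableSet_Ioo] at h1
  obtain ⟨w, h2, h3⟩ := (Measure.dense_of_ae h1).exists_between hxy
  have h4 : w ∈ Set.Ioo (0 : ℝ) 1 := ⟨hx.trans h3.1, h3.2.trans hy⟩
  exact ⟨w, ⟨h2 h4, h4⟩, h3.1, h3.2⟩

/-- Finitely many bounded functions which are differentiable at `g`. -/
theorem slp_fin {ι : Type*} (s : Finset ι) {D : ι → ℝ → ℝ} {g : ℝ} (hg0 : 0 < g) (hg1 : g < 1)
    (h0 : ∀ i, ∀ x : ℝ, 0 ≤ x → x ≤ 1 → 0 ≤ D i x) (h1 : ∀ i, ∀ x : ℝ, 0 ≤ x → x ≤ 1 → D i x ≤ 1)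
    (hd : ∀ i ∈ s, DifferentiableAt ℝ (D i) g) :
    ∃ c : ℝ, 0 < c ∧ ∃ r₀ : ℝ, 0 < r₀ ∧ ∀ r : ℝ, 0 < r → r < r₀ → ∀ c' : ℝ, 0 < c' → c' ≤ c →
      ∀ i ∈ s, Slp (D i) c' g r := by
  classical
  induction s using Finset.induction_on with
  | empty => exact ⟨1, one_pos, 1, one_pos, fun r _ _ c' _ _ i hi => absurd hi (Finset.notMem_empty i)⟩
  | insert a s ha ih =>
    obtain ⟨c₁, hc₁, r₁, hr₁, h2⟩ := ih fun i hi => hd i (Finset.mem_insert_of_mem hi)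
    obtain ⟨c₂, hc₂, r₂, hr₂, h3⟩ := slp_of (h0 a) (h1 a) hg0 hg1 (hd a (Finset.mem_insert_self a s))
    refine ⟨min c₁ c₂, lt_min hc₁ hc₂, min r₁ r₂, lt_min hr₁ hr₂,
      fun r hr hr' c' hc hc' i hi => ?_⟩
    rcases Finset.mem_insert.1 hi with rfl | hi
    · exact h3 r hr (hr'.trans_le (min_le_right _ _)) c' hc (hc'.trans (min_le_right _ _))
    · exact h2 r hr (hr'.trans_le (min_le_left _ _)) c' hc (hc'.trans (min_le_left _ _)) i hi

/-- **The facts for the grid** at a good window where the diagonals are differentiable. -/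
theorem Fac.chI (F : Fac hn S P r P' o g α Q c) (H : Pk hn S P r P' Λ)
    (hd : ∀ i, DifferentiableAt ℝ (fun v => P' o.2 i v v) g)
    (hdP : DifferentiableAt ℝ (fun v => P v v) g) :
    ∃ c₀ : ℝ, 0 < c₀ ∧ c₀ ≤ 1 ∧ ∃ r₀ : ℝ, 0 < r₀ ∧ ∀ ρ : ℝ, 0 < ρ → ρ < r₀ → ∀ c' : ℝ, 0 < c' →
      c' ≤ c₀ → ChI S (P' o.2) (tht o.2) (cc hn o.1.1) (n - 1) P (Wgc P' o.2) (1 - c) c' g ρ := by
  have hg0 := F.g0
  have hg1 := F.g1
  have hθ := tht_pos o.2
  have hcθ := F.thc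
  have hc : 0 < c := hθ.trans hcθ
  obtain ⟨c₁, hc₁, r₁, hr₁, h1⟩ := slp_fin (Finset.range n ×ˢ Finset.range n)
    (D := fun p : ℕ × ℕ => fun v => tau (P' o.2) (cc hn o.1.1) p.1 p.2 v v) hg0 hg1
    (fun p x h0 h1 => h0.trans ((H.cht o.2).low _ _ _ h0 le_rfl h1))
    (fun p x h0 h1 => (H.cht o.2).up _ _ _ h0 le_rfl h1) (fun p _ => hd _)
  obtain ⟨c₂, hc₂, r₂, hr₂, h2⟩ := slp_of (D := fun v => P v v)
    (fun x h0 h1 => h0.trans (H.tgs.low () _ _ h0 le_rfl h1))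
    (fun x h0 h1 => H.tgs.up () _ _ h0 le_rfl h1) hg0 hg1 hdP
  obtain ⟨c₀, hc₀⟩ : ∃ c₀ : ℝ, c₀ = min (min c₁ c₂) (min (min g (1 - g)) (min (tht o.2) 1)) :=
    ⟨_, rfl⟩
  have k1 : c₀ ≤ c₁ := by rw [hc₀]; exact (min_le_left _ _).trans (min_le_left _ _)
  have k2 : c₀ ≤ c₂ := by rw [hc₀]; exact (min_le_left _ _).trans (min_le_right _ _)
  have k3 : c₀ ≤ g := by
    rw [hc₀]; exact (min_le_right _ _).trans ((min_le_left _ _).trans (min_le_left _ _))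
  have k4 : c₀ ≤ 1 - g := by
    rw [hc₀]; exact (min_le_right _ _).trans ((min_le_left _ _).trans (min_le_right _ _))
  have k5 : c₀ ≤ tht o.2 := by
    rw [hc₀]; exact (min_le_right _ _).trans ((min_le_right _ _).trans (min_le_left _ _))
  have k6 : c₀ ≤ 1 := by
    rw [hc₀]; exact (min_le_right _ _).trans ((min_le_right _ _).trans (min_le_right _ _))
  have k0 : 0 < c₀ := by
    rw [hc₀]
    exact lt_min (lt_min hc₁ hc₂) (lt_min (lt_min hg0 (by linarith)) (lt_min hθ one_pos))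
  refine ⟨c₀, k0, k6, min (min r₁ r₂) ((α - g) / 16), lt_min (lt_min hr₁ hr₂)
    (by linarith [F.gα]), fun ρ hρ hρ' c' hc' hcc => ?_⟩
  have m1 : ρ < r₁ := hρ'.trans_le ((min_le_left _ _).trans (min_le_left _ _))
  have m2 : ρ < r₂ := hρ'.trans_le ((min_le_left _ _).trans (min_le_right _ _))
  have m3 : ρ < (α - g) / 16 := hρ'.trans_le (min_le_right _ _)
  have m4 : g + 8 * ρ < α := by linarith
  exact
    { g0 := by linarith
      g1 := by linarith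
      cθ := by linarith
      sg1 := by linarith
      sgθ := by linarith
      bd := fun l hl w hw hw' => F.le l hl w w hw le_rfl (by linarith)
      bdN := fun w hw hw' => (F.PQ w w hw le_rfl (by linarith)).trans F.Q1
      low := fun w hw hw' => H.tgs.low () w w hw.le le_rfl hw'
      tg := fun w hw hw0 hw1 => by
        have h3 : UpA (P' o.2) w w := Pool.FRN.Wgd.self hw.1 hw.2.2
        have h4 : ThrOf (tgs (cc hn o.1.1 (n - 1))) S (fun _ => P) := by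
          rw [cc_ge hn _ le_rfl]
          exact H.tgs
        have h5 : T1c S (cc hn o.1.1 (n - 1)) α (1 - c) := by
          rw [cc_ge hn _ le_rfl]
          exact F.t1
        have h6 : T2c S (cc hn o.1.1 (n - 1)) α Q (1 - c) := by
          rw [cc_ge hn _ le_rfl]
          exact F.t2
        refine tgP_of' H.ne (H.cht o.2) (tht_pos _) H.tmh (fun i hi => ?_) h4 h5 h6 F.α1
          (by linarith) F.Q1 hw0 le_rfl (by linarith) (F.PQ w w hw0 le_rfl (by linarith)) h3 hw.1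
        rw [cc_ge hn _ le_rfl] at hi
        exact cc_all hn o.1.1 hi
      up := fun w hw hw0 hw1 i hi l hl => Pool.FRN.Wgd.self hw.1 hw1 _
      den := H.wgc_den o.2
      gre := fun i hi l hl => F.gre i hi l hl.le
      slo := fun i hi l hl => h1 ρ hρ m1 c' hc' (hcc.trans k1) (l, i)
        (Finset.mem_product.2 ⟨Finset.mem_range.2 (by omega), Finset.mem_range.2 (by omega)⟩)
      sloN := h2 ρ hρ m2 c' hc' (hcc.trans k2) }

/-- The diagonals are differentiable at almost every window. -/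
theorem Pk.dif_ae (H : Pk hn S P r P' Λ) : ∀ᵐ g : ℝ, 0 < g → g < 1 →
    (∀ j i, DifferentiableAt ℝ (fun v => P' j i v v) g) ∧ DifferentiableAt ℝ (fun v => P v v) g := by
  have h1 : ∀ᵐ g : ℝ, ∀ (j : ℕ) (i : List (Fin n) × Fin n), 0 < g → g < 1 →
      DifferentiableAt ℝ (fun v => P' j i v v) g :=
    ae_all_iff.2 fun j => ae_all_iff.2 fun i => Pool.STR.dia_ae ((H.cht j).law i)
  filter_upwards [h1, Pool.STR.dia_ae (H.tgs.law ())] with g h2 h3 h4 h5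
  exact ⟨fun j i => h2 j i h4 h5, h3 h4 h5⟩

/-- **The facts for the grid** at almost every good window of every order. -/
theorem Pk.chI_ae (H : Pk hn S P r P' Λ) (hTop : TopS n) (hF : FZX (n - 1)) :
    ∀ᵐ g : ℝ, ∀ o : Od n, g ∈ Gs P r P' Λ o → ∃ c₀ sg : ℝ, 0 < c₀ ∧ c₀ ≤ 1 ∧ ∃ r₀ : ℝ,
      0 < r₀ ∧ ∀ ρ : ℝ, 0 < ρ → ρ < r₀ → ∀ c' : ℝ, 0 < c' → c' ≤ c₀ →
        ChI S (P' o.2) (tht o.2) (cc hn o.1.1) (n - 1) P (Wgc P' o.2) sg c' g ρ := by
  filter_upwards [H.dif_ae] with g hg o ho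
  obtain ⟨α, Q, c, F⟩ := H.fac hTop hF ho
  obtain ⟨h1, h2⟩ := hg F.g0 F.g1
  obtain ⟨c₀, hc₀, hc1, r₀, hr₀, h3⟩ := F.chI H (h1 o.2) h2
  exact ⟨c₀, 1 - c, hc₀, hc1, r₀, hr₀, h3⟩

end Pool.PKG
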