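import Pool.Agent.H2.GEN.ChG

/-!
# The gradient of a label in the directions of the chain

`slope_tri`: if a polynomial `Q` in the coordinates of a chain is near a polynomial in the
coordinates before `c j`, up to `M` units of the side of `c j`, for every `j`, then its partial
derivatives are bounded by `M`, up to constants and powers of the gradients of the labels of the
chain.
-/

set_option autoImplicit false

namespace Pool.CHT

open Finset Real MvPolynomial
open Pool.Agent.H49.Ent Pool.Agent.H32.Dense Pool.STK Pool.KA Pool.KSAT Pool.K2S Pool.PB Pool.S6C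
open Pool.GEN

variable {m : ℕ}

/-- The derivatives in the other directions vanish. -/
theorem DepC.pd_zero {c : ℕ → Fin m} {i : ℕ} {G : MvPolynomial (Option (Fin m)) ℝ}
    (h : DepC c i G) {o : Option (Fin m)} (ho : o ≠ none) (hl : ∀ l < i, o ≠ some (c l))
    (b : Option (Fin m) → ℝ) : eval b (pderiv o G) = 0 := by
  classical
  obtain ⟨g, hg⟩ : ∃ g : Option (Fin m) → Polynomial ℝ, g = fun j =>
      Polynomial.C (b j) + Polynomial.C (if j = o then 1 else 0) * Polynomial.X := ⟨_, rfl⟩
  have hge : ∀ (Q : MvPolynomial (Option (Fin m)) ℝ) (t : ℝ), (MvPolynomial.aeval g Q).eval t =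
      MvPolynomial.eval (fun j => b j + (if j = o then 1 else 0) * t) Q := by
    intro Q t
    rw [Pool.KBX.eval_aeval_poly]
    congr 1
    congr 1
    funext j
    rw [hg]
    simp only [Polynomial.eval_add, Polynomial.eval_mul, Polynomial.eval_C, Polynomial.eval_X]
  have hd : (Polynomial.derivative (MvPolynomial.aeval g G)).eval 0 = eval b (pderiv o G) := by
    rw [der_aevalσ, Polynomial.eval_finsetSum, Finset.sum_eq_single o]
    · rw [Polynomial.eval_mul, hge]
      rw [hg]
      simp
    · intro j _ hj
      rw [Polynomial.eval_mul, hg]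
      simp [hj]
    · intro h'
      exact absurd (Finset.mem_univ _) h'
  have e : MvPolynomial.aeval g G = Polynomial.C (eval b G) := by
    refine Polynomial.funext fun t => ?_
    rw [hge, Polynomial.eval_C]
    refine h _ _ ?_ fun k hk => ?_
    · show b none + _ = b none
      rw [if_neg (Ne.symm ho)]
      ring
    · show b (some (c k)) + _ = b (some (c k))
      rw [if_neg (Ne.symm (hl k hk))]
      ring
  rw [← hd, e, Polynomial.derivative_C, Polynomial.eval_zero]

/-- **The curve** through `b` in the direction of the coordinate `c j` with the velocity `δ`: the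
coordinates after keep their distance to the labels. -/
theorem curve_dir {c : ℕ → Fin m} {i : ℕ} (hc : Set.InjOn c (Set.Iio i)) {K : ℕ → ℕ}
    {G : ℕ → MvPolynomial (Option (Fin m)) ℝ} (hdeg : ∀ l, (G l).totalDegree ≤ K l)
    (hdep : ∀ l, DepC c l (G l)) (b : Option (Fin m) → ℝ) (δ : ℝ) {j : ℕ} (k : ℕ)
    (hk : j + 1 ≤ k) :
    k ≤ i → ∃ p : Option (Fin m) → Polynomial ℝ, (∀ o, (p o).natDegree ≤ dgp K j k) ∧
      (∀ o, (p o).eval 0 = b o) ∧
      (∀ o, (∀ l, j ≤ l → l < k → o ≠ some (c l)) → p o = Polynomial.C (b o)) ∧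
      (p (some (c j)) = Polynomial.C (b (some (c j))) + Polynomial.C δ * Polynomial.X) ∧
      ∀ l, j < l → l < k → ∀ s, (p (some (c l))).eval s =
        eval (fun o => (p o).eval s) (G l) + (b (some (c l)) - eval b (G l)) := by
  classical
  induction k, hk using Nat.le_induction with
  | base =>
    intro hi
    refine ⟨fun o => if o = some (c j) then Polynomial.C (b (some (c j))) +
      Polynomial.C δ * Polynomial.X else Polynomial.C (b o),
      fun o => ?_, fun o => ?_, fun o ho => ?_, ?_, fun l h1 h2 => ?_⟩
    · rw [dgp_self]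
      show (if o = some (c j) then Polynomial.C (b (some (c j))) +
        Polynomial.C δ * Polynomial.X else Polynomial.C (b o)).natDegree ≤ 1
      split_ifs
      · refine (Polynomial.natDegree_add_le _ _).trans (max_le ?_ ?_)
        · rw [Polynomial.natDegree_C]
          exact Nat.zero_le _
        · exact (Polynomial.natDegree_C_mul_le _ _).trans Polynomial.natDegree_X_le
      · rw [Polynomial.natDegree_C]
        exact Nat.zero_le _
    · show (if o = some (c j) then Polynomial.C (b (some (c j))) +
        Polynomial.C δ * Polynomial.X else Polynomial.C (b o)).eval 0 = b o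
      split_ifs with h
      · rw [h]
        simp only [Polynomial.eval_add, Polynomial.eval_mul, Polynomial.eval_C,
          Polynomial.eval_X]
        ring
      · rw [Polynomial.eval_C]
    · exact if_neg (ho j le_rfl (by omega))
    · exact if_pos rfl
    · omega
  | succ k hk ih =>
    intro hi
    obtain ⟨p, h1, h2, h3, h4, h5⟩ := ih (by omega)
    obtain ⟨q, hq⟩ : ∃ q : Option (Fin m) → Polynomial ℝ, q = Function.update p (some (c k))
        (MvPolynomial.aeval p (G k) + Polynomial.C (b (some (c k)) - eval b (G k))) := ⟨_, rfl⟩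
    have hqk : q (some (c k)) = MvPolynomial.aeval p (G k) +
        Polynomial.C (b (some (c k)) - eval b (G k)) := by
      rw [hq]
      exact Function.update_self _ _ _
    have hqo : ∀ o, o ≠ some (c k) → q o = p o := by
      intro o ho
      rw [hq]
      exact Function.update_of_ne ho _ _
    have hne : ∀ l < k, (some (c l) : Option (Fin m)) ≠ some (c k) := by
      intro l hl h
      have h7 := hc (show l ∈ Set.Iio i from (hl.trans_le (by omega : k ≤ i)))
        (show k ∈ Set.Iio i from (by omega : k < i)) (Option.some_injective _ h)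
      omega
    have hqn : q none = p none := hqo _ (by simp)
    have hev : ∀ l ≤ k, ∀ s, eval (fun o => (q o).eval s) (G l) =
        eval (fun o => (p o).eval s) (G l) := by
      intro l hl s
      refine hdep l _ _ ?_ fun l' hl' => ?_
      · show (q none).eval s = (p none).eval s
        rw [hqn]
      · show (q (some (c l'))).eval s = (p (some (c l'))).eval s
        rw [hqo _ (hne l' (by omega))]
    have hpb : (fun o => (p o).eval 0) = b := funext h2
    refine ⟨q, fun o => ?_, fun o => ?_, fun o ho => ?_, ?_, fun l k1 k2 s => ?_⟩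
    · rw [dgp_succ K hk]
      by_cases ho : o = some (c k)
      · rw [ho, hqk]
        refine (Polynomial.natDegree_add_le _ _).trans (max_le ?_ ?_)
        · refine (natDegree_aeval_mul (G k) p h1 (hdeg k)).trans ?_
          rw [mul_comm]
          exact Nat.mul_le_mul_left _ (le_max_left _ _)
        · rw [Polynomial.natDegree_C]
          exact Nat.zero_le _
      · rw [hqo o ho]
        exact (h1 o).trans (Nat.le_mul_of_pos_right _ (lt_max_of_lt_right one_pos))
    · by_cases ho : o = some (c k)
      · rw [ho, hqk, Polynomial.eval_add, Polynomial.eval_C, Pool.KBX.eval_aeval_poly, hpb]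
        ring
      · rw [hqo o ho]
        exact h2 o
    · rw [hqo o (ho k (by omega) (by omega))]
      exact h3 o fun l l1 l2 => ho l l1 (by omega)
    · rw [hqo _ (hne j (by omega))]
      exact h4
    · rcases Nat.lt_or_ge l k with h7 | h7
      · rw [hqo _ (hne l h7), hev l h7.le]
        exact h5 l k1 h7 s
      · have : l = k := by omega
        subst this
        rw [hev l le_rfl, hqk, Polynomial.eval_add, Polynomial.eval_C, Pool.KBX.eval_aeval_poly]

/-- The derivative along the curve. -/
theorem der_curve {c : ℕ → Fin m} {i j k : ℕ} (hc : Set.InjOn c (Set.Iio i)) (hk : k ≤ i)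
    {b : Option (Fin m) → ℝ} {p : Option (Fin m) → Polynomial ℝ} (hp0 : ∀ o, (p o).eval 0 = b o)
    (hpc : ∀ o, (∀ l, j ≤ l → l < i → o ≠ some (c l)) → p o = Polynomial.C (b o))
    {R : MvPolynomial (Option (Fin m)) ℝ} (hR : DepC c k R) :
    (Polynomial.derivative (aeval p R)).eval 0 = ∑ l ∈ Ico j k,
      eval b (pderiv (some (c l)) R) * (Polynomial.derivative (p (some (c l)))).eval 0 := by
  classical
  have hpb : (fun o => (p o).eval 0) = b := funext hp0
  have hinj : Set.InjOn (fun l => (some (c l) : Option (Fin m))) (Ico j k : Finset ℕ) := by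
    intro l hl l' hl' h
    rw [Finset.mem_coe, Finset.mem_Ico] at hl hl'
    exact hc (show l ∈ Set.Iio i from hl.2.trans_le hk) (show l' ∈ Set.Iio i from
      hl'.2.trans_le hk) (Option.some_injective _ h)
  rw [der_aevalσ, Polynomial.eval_finsetSum, ← Finset.sum_image (s := Ico j k)
    (g := fun l => (some (c l) : Option (Fin m)))
    (f := fun o => eval b (pderiv o R) * (Polynomial.derivative (p o)).eval 0) hinj]
  have h1 : ∀ o : Option (Fin m), (aeval p (pderiv o R) * Polynomial.derivative (p o)).eval 0 =
      eval b (pderiv o R) * (Polynomial.derivative (p o)).eval 0 := by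
    intro o
    rw [Polynomial.eval_mul, Pool.KBX.eval_aeval_poly, hpb]
  rw [Finset.sum_congr rfl fun o _ => h1 o]
  symm
  refine Finset.sum_subset (Finset.subset_univ _) fun o _ ho => ?_
  by_cases h2 : ∃ l, j ≤ l ∧ l < i ∧ o = some (c l)
  · obtain ⟨l, l1, l2, rfl⟩ := h2
    have hkl : k ≤ l := by
      by_contra h3
      exact ho (Finset.mem_image.2 ⟨l, Finset.mem_Ico.2 ⟨l1, by omega⟩, rfl⟩)
    rw [DepC.pd_zero hR (by simp) (fun l' hl' h => ?_), zero_mul]
    have h3 := hc (show l ∈ Set.Iio i from l2) (show l' ∈ Set.Iio i from by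
      show l' < i
      omega) (Option.some_injective _ h)
    omega
  · push Not at h2
    rw [hpc o (fun l l1 l2 => h2 l l1 l2), Polynomial.derivative_C, Polynomial.eval_zero, mul_zero]

/-- **The gradient in the directions of the chain.** -/
theorem slope_tri (D : ℕ) : ∃ C : ℝ, 1 ≤ C ∧ ∀ {m : ℕ} {c : ℕ → Fin m} {i D₀ : ℕ} {K : ℕ → ℕ}
    {G : ℕ → MvPolynomial (Option (Fin m)) ℝ} {Q : MvPolynomial (Option (Fin m)) ℝ}
    {Qs : ℕ → MvPolynomial (Option (Fin m)) ℝ} {g : ℕ → ℕ} {a : ℕ} {t M S : ℝ}
    {b : Option (Fin m) → ℝ}, Set.InjOn c (Set.Iio i) → (∀ l, (G l).totalDegree ≤ K l) →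
    (∀ l, DepC c l (G l)) → DepC c i Q → (∀ j < i, DepC c j (Qs j)) → Q.totalDegree ≤ D₀ →
    (∀ j < i, (Qs j).totalDegree ≤ D₀) → (∀ j < i, D₀ * dgp K j i ≤ D) → 0 ≤ M → 0 ≤ S →
    NBx c G g a t i b → (∀ l < i, ∀ l' < l, |eval b (pderiv (some (c l')) (G l))| ≤ S) →
    (∀ j < i, ∀ b' : Option (Fin m) → ℝ, NBx c G g a t i b' →
      |eval b' Q - eval b' (Qs j)| ≤ M / 2 ^ g j) →
    ∀ j < i, |eval b (pderiv (some (c j)) Q)| ≤ C * M * (2 * (1 + S)) ^ (i - 1 - j) := by
  obtain ⟨C, hC, h⟩ := Pool.Agent.H40.FR.unit_coef D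
  refine ⟨C, hC, ?_⟩
  intro m c i D₀ K G Q Qs g a t M S b hc hdeg hdep hQ hQs hQd hQsd hD hM hS hb hG hQQ
  -- the derivative along the curve
  have key : ∀ j < i, |eval b (pderiv (some (c j)) Q)| ≤ C * M +
      ∑ l ∈ Ico (j + 1) i, |eval b (pderiv (some (c l)) Q)| * (1 + S) ^ (l - j) := by
    intro j hj
    obtain ⟨δ, hδ1, hδ2⟩ : ∃ δ : ℝ, |δ| = 1 / 2 ^ g j ∧ ∀ s ∈ Set.Icc (0 : ℝ) 1,
        |(b (some (c j)) - eval b (G j)) + s * δ| ≤ 1 / 2 ^ g j := by
      have h1 := abs_le.1 (hb.2 j hj)
      have h0 : (0 : ℝ) < 1 / 2 ^ g j := by positivity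
      rcases le_or_gt 0 (b (some (c j)) - eval b (G j)) with h2 | h2
      · refine ⟨-(1 / 2 ^ g j), by rw [abs_neg, abs_of_pos h0], fun s hs => ?_⟩
        have h3 := mul_nonneg hs.1 h0.le
        have h4 := mul_le_mul_of_nonneg_right hs.2 h0.le
        rw [abs_le]
        constructor <;> nlinarith
      · refine ⟨1 / 2 ^ g j, abs_of_pos h0, fun s hs => ?_⟩
        have h3 := mul_nonneg hs.1 h0.le
        have h4 := mul_le_mul_of_nonneg_right hs.2 h0.le
        rw [abs_le]
        constructor <;> nlinarith
    obtain ⟨p, p1, p2, p3, p4, p5⟩ := curve_dir hc hdeg hdep b δ (j := j) i hj le_rfl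
    have pn : p none = Polynomial.C (b none) := p3 none fun l _ _ => by simp
    have plt : ∀ l < j, p (some (c l)) = Polynomial.C (b (some (c l))) := fun l hl =>
      p3 _ fun l' h1 h2 h3 => by
        have h4 := hc (show l ∈ Set.Iio i from hl.trans hj) (show l' ∈ Set.Iio i from h2)
          (Option.some_injective _ h3)
        omega
    have hcst : ∀ (k : ℕ) (R : MvPolynomial (Option (Fin m)) ℝ), k ≤ j → DepC c k R →
        ∀ s, eval (fun o => (p o).eval s) R = eval b R := by
      intro k R hk hR s
      refine hR _ _ ?_ fun l hl => ?_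
      · show (p none).eval s = b none
        rw [pn, Polynomial.eval_C]
      · show (p (some (c l))).eval s = b (some (c l))
        rw [plt l (by omega), Polynomial.eval_C]
    have hin : ∀ s ∈ Set.Icc (0 : ℝ) 1, NBx c G g a t i (fun o => (p o).eval s) := by
      intro s hs
      refine ⟨?_, fun l hl => ?_⟩
      · show |(p none).eval s - t| ≤ _
        rw [pn, Polynomial.eval_C]
        exact hb.1
      · show |(p (some (c l))).eval s - eval (fun o => (p o).eval s) (G l)| ≤ _
        rcases lt_trichotomy l j with h1 | h1 | h1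
        · rw [hcst l (G l) h1.le (hdep l), plt l h1, Polynomial.eval_C]
          exact hb.2 l hl
        · subst h1
          rw [hcst l (G l) le_rfl (hdep l), p4]
          simp only [Polynomial.eval_add, Polynomial.eval_mul, Polynomial.eval_C,
            Polynomial.eval_X]
          have e1 : b (some (c l)) + δ * s - eval b (G l) =
              (b (some (c l)) - eval b (G l)) + s * δ := by ring
          rw [e1]
          exact hδ2 s hs
        · rw [p5 l h1 hl s, add_sub_cancel_left]
          exact hb.2 l hl
    -- the velocities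
    obtain ⟨v, hv⟩ : ∃ v : ℕ → ℝ, v = fun l => (Polynomial.derivative (p (some (c l)))).eval 0 :=
      ⟨_, rfl⟩
    have vj : v j = δ := by
      rw [hv]
      show (Polynomial.derivative (p (some (c j)))).eval 0 = δ
      rw [p4]
      simp
    have vl : ∀ l, j < l → l < i → v l = ∑ l' ∈ Ico j l, eval b (pderiv (some (c l')) (G l)) *
        v l' := by
      intro l h1 h2
      have e1 : p (some (c l)) = aeval p (G l) + Polynomial.C (b (some (c l)) - eval b (G l)) := by
        refine Polynomial.funext fun s => ?_
        rw [p5 l h1 h2 s, Polynomial.eval_add, Polynomial.eval_C, Pool.KBX.eval_aeval_poly]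
      have e2 : v l = (Polynomial.derivative (aeval p (G l))).eval 0 := by
        rw [hv]
        show (Polynomial.derivative (p (some (c l)))).eval 0 = _
        rw [e1, Polynomial.derivative_add, Polynomial.derivative_C, add_zero]
      rw [e2, der_curve hc h2.le p2 p3 (hdep l), hv]
    have h2g : (0 : ℝ) < 1 / 2 ^ g j := by positivity
    have vb : ∀ l, j ≤ l → l < i → |v l| ≤ 1 / 2 ^ g j * (1 + S) ^ (l - j) := by
      intro l
      induction l using Nat.strong_induction_on with
      | _ l ih =>
        intro h1 h2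
        rcases h1.eq_or_lt with h3 | h3
        · subst h3
          rw [vj, hδ1, Nat.sub_self, pow_zero, mul_one]
        · rw [vl l h3 h2]
          have h4 : |∑ l' ∈ Ico j l, eval b (pderiv (some (c l')) (G l)) * v l'| ≤
              ∑ l' ∈ Ico j l, S * (1 / 2 ^ g j * (1 + S) ^ (l' - j)) := by
            refine (Finset.abs_sum_le_sum_abs _ _).trans (Finset.sum_le_sum fun l' hl' => ?_)
            rw [Finset.mem_Ico] at hl'
            rw [abs_mul]
            exact mul_le_mul (hG l h2 l' hl'.2) (ih l' hl'.2 hl'.1 (by omega)) (abs_nonneg _) hS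
          refine h4.trans ?_
          have h5 : ∀ n : ℕ, ∑ l' ∈ Ico j (j + n), S * (1 / 2 ^ g j * (1 + S) ^ (l' - j)) =
              1 / 2 ^ g j * ((1 + S) ^ n - 1) := by
            intro n
            induction n with
            | zero => simp
            | succ n ihn =>
              rw [← add_assoc, Finset.sum_Ico_succ_top (by omega), ihn, Nat.add_sub_cancel_left]
              ring
          have h6 := h5 (l - j)
          rw [show j + (l - j) = l by omega] at h6
          rw [h6]
          have h7 : (0 : ℝ) ≤ (1 + S) ^ (l - j) := by positivity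
          nlinarith
    -- Markov
    obtain ⟨f, hf⟩ : ∃ f : Polynomial ℝ, f = aeval p (Q - Qs j) := ⟨_, rfl⟩
    have hfd : f.natDegree ≤ D := by
      rw [hf]
      exact (natDegree_aeval_mul (Q - Qs j) p p1 ((totalDegree_sub _ _).trans
        (max_le hQd (hQsd j hj)))).trans (hD j hj)
    have hfs : ∀ s ∈ Set.Icc (0 : ℝ) 1, |f.eval s| ≤ M / 2 ^ g j := by
      intro s hs
      rw [hf, Pool.KBX.eval_aeval_poly, map_sub]
      exact hQQ j hj _ (hin s hs)
    have hf1 := h f (M / 2 ^ g j) hfd hfs 1
    have hfe : (Polynomial.derivative (aeval p Q)).eval 0 = f.coeff 1 := by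
      have e1 : aeval p Q = f + Polynomial.C (eval b (Qs j)) := by
        refine Polynomial.funext fun s => ?_
        rw [hf, Polynomial.eval_add, Polynomial.eval_C, Pool.KBX.eval_aeval_poly,
          Pool.KBX.eval_aeval_poly, map_sub, hcst j (Qs j) le_rfl (hQs j hj) s]
        ring
      rw [e1, Polynomial.derivative_add, Polynomial.derivative_C, add_zero,
        ← Polynomial.coeff_zero_eq_eval_zero, Polynomial.coeff_derivative]
      simp
    have hsum := der_curve hc le_rfl p2 p3 hQ
    rw [hfe, Finset.sum_eq_sum_Ico_succ_bot hj] at hsum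
    have e3 : (Polynomial.derivative (p (some (c j)))).eval 0 = δ := by rw [← vj, hv]
    rw [e3] at hsum
    have h8 : |eval b (pderiv (some (c j)) Q) * δ| ≤ C * (M / 2 ^ g j) +
        ∑ l ∈ Ico (j + 1) i, |eval b (pderiv (some (c l)) Q)| *
          (1 / 2 ^ g j * (1 + S) ^ (l - j)) := by
      have e4 : eval b (pderiv (some (c j)) Q) * δ = f.coeff 1 -
          ∑ l ∈ Ico (j + 1) i, eval b (pderiv (some (c l)) Q) *
            (Polynomial.derivative (p (some (c l)))).eval 0 := by linarith
      rw [e4]
      refine (abs_sub _ _).trans (add_le_add hf1 ?_)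
      refine (Finset.abs_sum_le_sum_abs _ _).trans (Finset.sum_le_sum fun l hl => ?_)
      rw [Finset.mem_Ico] at hl
      rw [abs_mul]
      refine mul_le_mul_of_nonneg_left ?_ (abs_nonneg _)
      have := vb l (by omega) hl.2
      rw [hv] at this
      exact this
    rw [abs_mul, hδ1] at h8
    have h9 : ∑ l ∈ Ico (j + 1) i, |eval b (pderiv (some (c l)) Q)| *
          (1 / 2 ^ g j * (1 + S) ^ (l - j)) = (∑ l ∈ Ico (j + 1) i,
        |eval b (pderiv (some (c l)) Q)| * (1 + S) ^ (l - j)) * (1 / 2 ^ g j) := by
      rw [Finset.sum_mul]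
      refine Finset.sum_congr rfl fun l _ => ?_
      ring
    rw [h9] at h8
    have h10 : C * (M / 2 ^ g j) = C * M * (1 / 2 ^ g j) := by ring
    rw [h10, ← add_mul] at h8
    exact le_of_mul_le_mul_right h8 h2g
  -- the induction from above
  intro j hj
  obtain ⟨n, hn⟩ : ∃ n, n = i - 1 - j := ⟨_, rfl⟩
  have hB : 1 ≤ 1 + S := by linarith
  induction n using Nat.strong_induction_on generalizing j with
  | _ n ih =>
    rw [← hn]
    refine (key j hj).trans ?_
    have h1 : ∀ l ∈ Ico (j + 1) i, |eval b (pderiv (some (c l)) Q)| * (1 + S) ^ (l - j) ≤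
        C * M * (1 + S) ^ n * 2 ^ (i - 1 - l) := by
      intro l hl
      rw [Finset.mem_Ico] at hl
      have h2 := ih (i - 1 - l) (by omega) l hl.2 rfl
      calc _ ≤ C * M * (2 * (1 + S)) ^ (i - 1 - l) * (1 + S) ^ (l - j) :=
            mul_le_mul_of_nonneg_right h2 (by positivity)
        _ = C * M * (1 + S) ^ n * 2 ^ (i - 1 - l) := by
            rw [mul_pow, show n = (i - 1 - l) + (l - j) by omega, pow_add]
            ring
    refine (add_le_add le_rfl (Finset.sum_le_sum h1)).trans ?_
    rw [← Finset.mul_sum]
    have h3 : ∑ l ∈ Ico (j + 1) i, (2 : ℝ) ^ (i - 1 - l) = 2 ^ n - 1 := by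
      have h4 : ∀ k : ℕ, k ≤ i - 1 - j → ∑ l ∈ Ico (i - k) i, (2 : ℝ) ^ (i - 1 - l) =
          2 ^ k - 1 := by
        intro k
        induction k with
        | zero => simp
        | succ k ihk =>
          intro hk
          have e1 : Ico (i - (k + 1)) i = insert (i - (k + 1)) (Ico (i - k) i) := by
            ext x
            rw [Finset.mem_insert, Finset.mem_Ico, Finset.mem_Ico]
            omega
          rw [e1, Finset.sum_insert (by rw [Finset.mem_Ico]; omega), ihk (by omega),
            show i - 1 - (i - (k + 1)) = k by omega, pow_succ]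
          ring
      have h5 := h4 (i - 1 - j) le_rfl
      rw [show i - (i - 1 - j) = j + 1 by omega, ← hn] at h5
      exact h5
    rw [h3, mul_pow]
    have h6 : (1 : ℝ) ≤ (1 + S) ^ n := one_le_pow₀ hB
    have h7 : 0 ≤ C * M := by positivity
    nlinarith [mul_le_mul_of_nonneg_left h6 h7]

end Pool.CHT
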