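import Pool.Agent.H2.GEN.ChS
import Pool.Agent.H2.GEN.ChU

/-!
# Moving labels to the natural box of a chain

`RelvF`: on large parts of an event there is no relation between the coordinates of a chain: a
two-sided polynomial which is small at the samples is small on the natural boxes.
`move_pre`: labels of a chain over the first coordinates, with any sides, are two-sided on the
natural boxes. `top_step`: the label of the next coordinate of the chain: it is two-sided on the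
natural boxes, and its gradient is small if there are good labels over all the prefixes.
`cross_step`: labels of the next coordinate on two natural boxes.
-/

set_option autoImplicit false

namespace Pool.CHT

open Finset Real MvPolynomial
open Pool.Agent.H49.Ent Pool.Agent.H32.Dense Pool.STK Pool.KA Pool.KSAT Pool.K2S Pool.PB Pool.S6C
open Pool.GEN

variable {m J : ℕ}

/-! ### Growth -/

/-- **The growth** from a natural box to the box of `2 ^ n` times the sides. -/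
theorem nbx_dil (r : ℕ) (K : ℕ → ℕ) : ∃ c₀ D₁ : ℕ, 1 ≤ D₁ ∧ ∀ {m : ℕ} {c : ℕ → Fin m} {i : ℕ}
    {G : ℕ → MvPolynomial (Option (Fin m)) ℝ} {Q : MvPolynomial (Option (Fin m)) ℝ}
    {g : ℕ → ℕ} {a : ℕ} {t M : ℝ} (n : ℕ), i < r → Set.InjOn c (Set.Iio i) →
    (∀ l, (G l).totalDegree ≤ K l) → (∀ l, DepC c l (G l)) → DepC c i Q →
    Q.totalDegree ≤ K i → 0 ≤ M →
    (∀ b, NBx c G g a t i b → |eval b Q| ≤ M) → ∀ b : Option (Fin m) → ℝ,
      |b none - t| ≤ 1 / 2 ^ a →
      (∀ l < i, |b (some (c l)) - eval b (G l)| ≤ 2 ^ n / 2 ^ g l) →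
        |eval b Q| ≤ 2 ^ (c₀ + n * D₁) * M := by
  obtain ⟨D, hD⟩ : ∃ D, D = ∑ i ∈ range r, K i * dga K i := ⟨_, rfl⟩
  obtain ⟨C, hC, h⟩ := grow_one D
  obtain ⟨c₀, hc₀⟩ := pow_unbounded_of_one_lt C (one_lt_two (α := ℝ))
  refine ⟨c₀, D + 1, by omega, ?_⟩
  intro m c i G Q g a t M n hi hc hdeg hdep hQ hQd hM0 hM b hb0 hb
  have hDi : K i * dga K i ≤ D := by
    rw [hD]
    exact Finset.single_le_sum (f := fun i => K i * dga K i) (fun _ _ => Nat.zero_le _)
      (mem_range.2 hi)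
  obtain ⟨b₀, h01, h02⟩ := pt_adapt hc hdep t (fun _ => 0) i le_rfl
  obtain ⟨p, h1, h2, h3, h4, h5⟩ := curve_all hc hdeg hdep b₀ b i le_rfl
  have h2n : (0 : ℝ) < 2 ^ n := by positivity
  have h2n1 : (1 : ℝ) ≤ 2 ^ n := one_le_pow₀ (by norm_num)
  have h6 := h (MvPolynomial.aeval p Q) M n (K i * dga K i) (natDegree_aeval_mul Q p h1 hQd) hDi
    (fun τ hτ => by
      rw [Pool.KBX.eval_aeval_poly]
      have hs0 : 0 ≤ τ / 2 ^ n := div_nonneg hτ.1 (by positivity)
      have hs1 : τ / 2 ^ n ≤ 1 / 2 ^ n := div_le_div_of_nonneg_right hτ.2 h2n.le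
      have hs2 : τ / 2 ^ n ≤ 1 := hs1.trans (by rw [div_le_one h2n]; exact h2n1)
      refine hM _ ⟨?_, fun l hl => ?_⟩
      · show |(p none).eval (τ / 2 ^ n) - t| ≤ _
        have e1 : (p none).eval (τ / 2 ^ n) - t = τ / 2 ^ n * (b none - t) := by
          rw [h2, h01]; ring
        rw [e1, abs_mul, abs_of_nonneg hs0]
        calc τ / 2 ^ n * |b none - t| ≤ 1 * (1 / 2 ^ a) :=
              mul_le_mul hs2 hb0 (abs_nonneg _) (by norm_num)
          _ = _ := one_mul _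
      · show |(p (some (c l))).eval (τ / 2 ^ n) - eval (fun o => (p o).eval (τ / 2 ^ n)) (G l)| ≤ _
        rw [h3 l hl, add_sub_cancel_left, h02 l hl, add_zero, sub_self, zero_add, sub_zero,
          abs_mul, abs_of_nonneg hs0]
        calc τ / 2 ^ n * |b (some (c l)) - eval b (G l)| ≤ 1 / 2 ^ n * (2 ^ n / 2 ^ g l) :=
              mul_le_mul hs1 (hb l hl) (abs_nonneg _) (by positivity)
          _ = _ := by field_simp)
  rw [Pool.KBX.eval_aeval_poly] at h6
  have e1 : eval (fun o => (p o).eval 1) Q = eval b Q := hQ _ _ (by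
    show (p none).eval 1 = b none
    rw [h2]; ring) h5
  rw [e1] at h6
  refine h6.trans (mul_le_mul_of_nonneg_right ?_ hM0)
  rw [pow_add]
  refine mul_le_mul hc₀.le (pow_le_pow_right₀ (by norm_num) (Nat.mul_le_mul_left n (by omega)))
    (by positivity) (by positivity)

/-! ### No relation -/

/-- **No relation** between the coordinates of the chain, on large parts of the event. -/
def RelvF (F : Fam m J) (c : ℕ → Fin m) (i a w : ℕ) (g : ℕ → ℕ) (D h : ℕ) (κ : ℝ)
    (B₀ : F.Ω → Prop) (G : PtT F → ℕ → MvPolynomial (Option (Fin m)) ℝ) : Prop :=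
  ∀ B' : F.Ω → Prop, Sub B' B₀ → κ * Pe F.p B₀ ≤ Pe F.p B' →
    ∀ (Dx : PtT F → MvPolynomial (Option (Fin m)) ℝ) (Dl : LnT F → MvPolynomial (Option (Fin m)) ℝ)
      (M : ℝ), (∀ y, (Dx y).totalDegree ≤ D) → (∀ s, (Dl s).totalDegree ≤ D) →
    (∀ y, DepC c i (Dx y)) → (∀ s, DepC c i (Dl s)) → 0 < M →
    (∀ ω, B' ω → |eval (bt F ω) (Dx (ptr F J ω))| ≤ M) →
    (∀ ω, B' ω → ∀ b, NBx c (G (ptr F J ω)) g a (F.t ω) i b →
      |eval b (Dx (ptr F J ω)) - eval b (Dl (slam F w ω))| ≤ M) →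
    ∃ B'' : F.Ω → Prop, Sub B'' B' ∧ Pe F.p B' / 2 ≤ Pe F.p B'' ∧ ∀ ω, B'' ω →
      ∀ b, NBx c (G (ptr F J ω)) g a (F.t ω) i b → |eval b (Dx (ptr F J ω))| ≤ 2 ^ h * M

theorem RelvF.mono {F : Fam m J} {c : ℕ → Fin m} {i a w : ℕ} {g : ℕ → ℕ} {D D' h : ℕ} {κ κ' : ℝ}
    {B₀ : F.Ω → Prop} {G : PtT F → ℕ → MvPolynomial (Option (Fin m)) ℝ}
    (hR : RelvF F c i a w g D h κ B₀ G) (hD : D' ≤ D) (hκ : κ ≤ κ') :
    RelvF F c i a w g D' h κ' B₀ G := fun B' hB hP Dx Dl M h1 h2 =>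
  hR B' hB ((mul_le_mul_of_nonneg_right hκ (Pe_nonneg F.isLaw B₀)).trans hP) Dx Dl M
    (fun y => (h1 y).trans hD) fun s => (h2 s).trans hD

/-- Smaller events. -/
theorem RelvF.sub {F : Fam m J} {c : ℕ → Fin m} {i a w : ℕ} {g : ℕ → ℕ} {D h : ℕ} {κ κ₁ κ₂ : ℝ}
    {B₀ B₁ : F.Ω → Prop} {G : PtT F → ℕ → MvPolynomial (Option (Fin m)) ℝ}
    (hR : RelvF F c i a w g D h κ B₀ G) (hB : Sub B₁ B₀) (hP : κ₁ * Pe F.p B₀ ≤ Pe F.p B₁)
    (h2 : 0 ≤ κ₂) (hκ : κ ≤ κ₂ * κ₁) : RelvF F c i a w g D h κ₂ B₁ G := by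
  intro B' hB' hP'
  refine hR B' (fun ω h => hB ω (hB' ω h)) ?_
  calc κ * Pe F.p B₀ ≤ κ₂ * κ₁ * Pe F.p B₀ := mul_le_mul_of_nonneg_right hκ (Pe_nonneg F.isLaw B₀)
    _ = κ₂ * (κ₁ * Pe F.p B₀) := by ring
    _ ≤ κ₂ * Pe F.p B₁ := mul_le_mul_of_nonneg_left hP h2
    _ ≤ _ := hP'

/-- The chain over the first `l` coordinates with the target `k`. -/
def pch (c : ℕ → Fin m) (l : ℕ) (k : Fin m) (j : ℕ) : Fin m := if j < l then c j else k

theorem pch_lt {c : ℕ → Fin m} {l : ℕ} {k : Fin m} {j : ℕ} (h : j < l) : pch c l k j = c j :=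
  if_pos h

theorem pch_self {c : ℕ → Fin m} {l : ℕ} {k : Fin m} : pch c l k l = k := if_neg (lt_irrefl l)

/-- The exponents of the losses. -/
def lex (h c₀ D₁ : ℕ) : ℕ → ℕ
  | 0 => 0
  | j + 1 => h + c₀ + lex h c₀ D₁ j * D₁

theorem lex_le (h c₀ D₁ j : ℕ) : lex h c₀ D₁ j ≤ (h + c₀) * (1 + D₁) ^ j := by
  induction j with
  | zero => simp [lex]
  | succ j ih =>
    show h + c₀ + lex h c₀ D₁ j * D₁ ≤ _
    have h1 := Nat.mul_le_mul_right D₁ ih
    have h2 : h + c₀ ≤ (h + c₀) * (1 + D₁) ^ j := Nat.le_mul_of_pos_right _ (by positivity)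
    calc h + c₀ + lex h c₀ D₁ j * D₁ ≤ (h + c₀) * (1 + D₁) ^ j + (h + c₀) * (1 + D₁) ^ j * D₁ :=
          Nat.add_le_add h2 h1
      _ = (h + c₀) * (1 + D₁) ^ (j + 1) := by ring

theorem lex_mono {h c₀ D₁ j : ℕ} (hD : 1 ≤ D₁) : lex h c₀ D₁ j ≤ lex h c₀ D₁ (j + 1) := by
  show _ ≤ h + c₀ + lex h c₀ D₁ j * D₁
  have : lex h c₀ D₁ j ≤ lex h c₀ D₁ j * D₁ := Nat.le_mul_of_pos_right _ hD
  omega

/-- **Moving a chain** over the first coordinates, with any sides, to the natural boxes. -/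
theorem move_pre (D r : ℕ) (hD : 1 ≤ D) : ∃ C : ℕ, ∀ {m J : ℕ} {F : Fam m J} {c : ℕ → Fin m}
    {i l a w e' h : ℕ} {k : Fin m} {g g' : ℕ → ℕ} {κ κ' : ℝ} {B₀ B' : F.Ω → Prop}
    {G G' : PtT F → ℕ → MvPolynomial (Option (Fin m)) ℝ}
    {H' : LnT F → ℕ → MvPolynomial (Option (Fin m)) ℝ}, l ≤ i → i < r →
    Set.InjOn c (Set.Iio i) → RelvF F c i a w g D h κ B₀ G → Sub B' B₀ →
    κ' * Pe F.p B₀ ≤ Pe F.p B' → κ * 2 ^ r ≤ κ' →
    ChOK F (pch c l k) (l + 1) (fun _ => D) a w e' g' B' G' H' →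
    ∃ B : F.Ω → Prop, Sub B B' ∧ Pe F.p B' / 2 ^ l ≤ Pe F.p B ∧ ∀ ω, B ω →
      ∀ b, NBx c (G (ptr F J ω)) g a (F.t ω) i b →
        (∀ j < l, |b (some (c j)) - eval b (G' (ptr F J ω) j)| ≤ 2 ^ (C * (h + 1)) / 2 ^ g' j) ∧
        |eval b (G' (ptr F J ω) l) - eval b (H' (slam F w ω) l)| ≤
          2 ^ (C * (h + 1)) / 2 ^ g' l := by
  obtain ⟨c₀, D₁, hD₁, hdil⟩ := nbx_dil (r + 1) (fun _ => D)
  refine ⟨(c₀ + 1) * (1 + D₁) ^ (r + 1), ?_⟩
  intro m J F c i l a w e' h k g g' κ κ' B₀ B' G G' H' hl hi hc hR hB' hP' hκ hL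
  have hlexC : ∀ j ≤ r + 1, lex h c₀ D₁ j ≤ (c₀ + 1) * (1 + D₁) ^ (r + 1) * (h + 1) := by
    intro j hj
    refine (lex_le h c₀ D₁ j).trans ?_
    have h1 : (1 + D₁) ^ j ≤ (1 + D₁) ^ (r + 1) := Nat.pow_le_pow_right (by omega) hj
    calc (h + c₀) * (1 + D₁) ^ j ≤ ((c₀ + 1) * (h + 1)) * (1 + D₁) ^ (r + 1) :=
          Nat.mul_le_mul (by nlinarith) h1
      _ = _ := by ring
  -- the two sides on the natural boxes
  have htwo : ∀ j ≤ l, ∀ ω, B' ω → ∀ b, NBx c (G (ptr F J ω)) g a (F.t ω) i b →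
      (∀ j' < j, |b (some (c j')) - eval b (G' (ptr F J ω) j')| ≤
        2 ^ lex h c₀ D₁ j / 2 ^ g' j') →
      |eval b (G' (ptr F J ω) j) - eval b (H' (slam F w ω) j)| ≤
        2 ^ (c₀ + lex h c₀ D₁ j * D₁) * (1 / 2 ^ g' j) := by
    intro j hj ω hω b hb hbj
    have h1 := hdil (c := pch c l k) (i := j) (G := G' (ptr F J ω))
      (Q := G' (ptr F J ω) j - H' (slam F w ω) j) (g := g') (a := a) (t := F.t ω)
      (M := 1 / 2 ^ g' j) (lex h c₀ D₁ j) (by omega) (fun x hx y hy hxy => by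
        have hx' : x < j := hx
        have hy' : y < j := hy
        rw [pch_lt (by omega), pch_lt (by omega)] at hxy
        exact hc (show x < i by omega) (show y < i by omega) hxy) (hL.degG _) (hL.depG _)
      (fun y y' hn hy => by rw [map_sub, map_sub, hL.depG _ j y y' hn hy, hL.depH _ j y y' hn hy])
      ((totalDegree_sub _ _).trans (max_le (hL.degG _ j) (hL.degH _ j))) (by positivity)
      (fun b hb => by rw [map_sub]; exact hL.agr ω hω j (by omega) b hb) b hb.1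
      (fun j' hj' => by rw [pch_lt (by omega)]; exact hbj j' hj')
    rw [map_sub] at h1
    exact h1
  have key : ∀ j ≤ l, ∃ B : F.Ω → Prop, Sub B B' ∧ Pe F.p B' / 2 ^ j ≤ Pe F.p B ∧ ∀ ω, B ω →
      ∀ b, NBx c (G (ptr F J ω)) g a (F.t ω) i b → ∀ j' < j,
        |b (some (c j')) - eval b (G' (ptr F J ω) j')| ≤ 2 ^ lex h c₀ D₁ j / 2 ^ g' j' := by
    intro j
    induction j with
    | zero => exact fun _ => ⟨B', fun _ h => h, by simp, fun ω _ b _ j' hj' => by omega⟩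
    | succ j ih =>
      intro hj
      obtain ⟨B, k1, k2, k3⟩ := ih (by omega)
      obtain ⟨M, hM⟩ : ∃ M : ℝ, M = 2 ^ (c₀ + lex h c₀ D₁ j * D₁) * (1 / 2 ^ g' j) := ⟨_, rfl⟩
      have hM0 : 0 < M := by rw [hM]; positivity
      have hM1 : (1 : ℝ) / 2 ^ g' j ≤ M := by
        rw [hM]
        exact le_mul_of_one_le_left (by positivity) (one_le_pow₀ (by norm_num))
      obtain ⟨B'', l1, l2, l3⟩ := hR B (fun ω h => hB' ω (k1 ω h)) (by
          have h1 : κ * 2 ^ r * Pe F.p B₀ ≤ κ' * Pe F.p B₀ :=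
            mul_le_mul_of_nonneg_right hκ (Pe_nonneg F.isLaw B₀)
          have h2 : κ * Pe F.p B₀ * 2 ^ r ≤ Pe F.p B' := by linarith [h1, hP']
          have h3 : (2 : ℝ) ^ j ≤ 2 ^ r := pow_le_pow_right₀ (by norm_num) (by omega)
          rw [div_le_iff₀ (by positivity)] at k2
          rcases le_or_gt (κ * Pe F.p B₀) 0 with h4 | h4
          · exact h4.trans (Pe_nonneg F.isLaw B)
          · have h5 : κ * Pe F.p B₀ * 2 ^ j ≤ Pe F.p B * 2 ^ j :=
              (mul_le_mul_of_nonneg_left h3 h4.le).trans (h2.trans k2)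
            exact le_of_mul_le_mul_right h5 (by positivity))
        (fun y => X (some (c j)) - G' y j) (fun s => X (some (c j)) - H' s j) M
        (fun y => (totalDegree_sub _ _).trans (max_le (by rw [totalDegree_X]; exact hD)
          (hL.degG y j))) (fun s => (totalDegree_sub _ _).trans (max_le (by
            rw [totalDegree_X]; exact hD) (hL.degH s j))) (fun y b b' hn hb => by
          rw [map_sub, map_sub, eval_X, eval_X, hb j (by omega), hL.depG y j b b' hn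
            (fun l' hl' => by rw [pch_lt (by omega)]; exact hb l' (by omega))])
        (fun s b b' hn hb => by
          rw [map_sub, map_sub, eval_X, eval_X, hb j (by omega), hL.depH s j b b' hn
            (fun l' hl' => by rw [pch_lt (by omega)]; exact hb l' (by omega))]) hM0
        (fun ω hω => by
          rw [map_sub, eval_X]
          have := hL.pos ω (k1 ω hω) j (by omega)
          rw [pch_lt (by omega)] at this
          exact this.trans hM1) (fun ω hω b hb => by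
          rw [map_sub, map_sub, eval_X]
          have := htwo j (by omega) ω (k1 ω hω) b hb (k3 ω hω b hb)
          rw [← hM] at this
          have e1 : b (some (c j)) - eval b (G' (ptr F J ω) j) - (b (some (c j)) -
              eval b (H' (slam F w ω) j)) = -(eval b (G' (ptr F J ω) j) -
                eval b (H' (slam F w ω) j)) := by ring
          rw [e1, abs_neg]
          exact this)
      refine ⟨B'', fun ω h => k1 ω (l1 ω h), ?_, fun ω hω b hb j' hj' => ?_⟩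
      · refine le_trans (le_of_eq ?_) ((div_le_div_of_nonneg_right k2 (by norm_num)).trans l2)
        rw [pow_succ]
        field_simp
      · rcases Nat.lt_or_ge j' j with h7 | h7
        · refine (k3 ω (l1 ω hω) b hb j' h7).trans (div_le_div_of_nonneg_right ?_ (by positivity))
          exact pow_le_pow_right₀ (by norm_num) (lex_mono hD₁)
        · have : j' = j := by omega
          subst this
          have h8 := l3 ω hω b hb
          rw [map_sub, eval_X, hM] at h8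
          refine h8.trans (le_of_eq ?_)
          show _ = 2 ^ (h + c₀ + lex h c₀ D₁ j' * D₁) / 2 ^ g' j'
          rw [add_assoc h, pow_add]
          ring
  obtain ⟨B, k1, k2, k3⟩ := key l le_rfl
  refine ⟨B, k1, k2, fun ω hω b hb => ⟨fun j hj => ?_, ?_⟩⟩
  · refine (k3 ω hω b hb j hj).trans (div_le_div_of_nonneg_right ?_ (by positivity))
    exact pow_le_pow_right₀ (by norm_num) (hlexC l (by omega))
  · refine (htwo l le_rfl ω (k1 ω hω) b hb (k3 ω hω b hb)).trans ?_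
    rw [mul_one_div]
    refine div_le_div_of_nonneg_right ?_ (by positivity)
    refine pow_le_pow_right₀ (by norm_num) (le_trans ?_ (hlexC (l + 1) (by omega)))
    show _ ≤ h + c₀ + lex h c₀ D₁ l * D₁
    omega

end Pool.CHT
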