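import Pool.Agent.H2.GEN.EvM
import Pool.Agent.H2.GEN.IsoS
import Pool.Agent.H2.GEN.Mix

/-!
# Closed balls, mixed thin chains and labels

`EvS`: a closed ball chart at the window `w`, re-centred at several radii, with no relation; at the
radius `w + v` a mixed chain (the re-centred labels for the coordinates in `R`, the thin labels for
the others) with no relation, and a label of the target which is two-sided over its natural boxes.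
`ev_win`: in a class, at one window. `ev_con`: finitely many windows with one radius, on one event.
-/

set_option autoImplicit false

namespace Pool.ISO

open Finset Real MvPolynomial
open Pool.Agent.H49.Ent Pool.Agent.H32.Dense Pool.STK Pool.KA Pool.KSAT Pool.K2S Pool.PB Pool.S6C
open Pool.GEN Pool.CHT Pool.CHX
open Pool.LBT (LSys Slo Tri ThrOf fl_le' bas_false)
open Pool.LEV (Law)
open Pool.FLF (Fam.sub)
open Pool.JTN (TgP)

/-- **One closed ball, re-centred; a mixed thin chain; a label of the target.** -/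
structure EvS {m J : ℕ} (F : Fam m J) (c : ℕ → Fin m) (r D Dr w' v M : ℕ) (z : ℕ → ℕ)
    (e h p : ℕ) (R : ℕ → Prop) (g gc gT g₀ : ℕ → ℕ) (κ : ℝ) (B : F.Ω → Prop)
    (G₀ : PtT F → ℕ → MvPolynomial (Option (Fin m)) ℝ)
    (H₀ : LnT F → ℕ → MvPolynomial (Option (Fin m)) ℝ)
    (T : PtT F → ℕ → MvPolynomial (Option (Fin m)) ℝ)
    (TH : LnT F → ℕ → MvPolynomial (Option (Fin m)) ℝ)
    (Gt : PtT F → MvPolynomial (Option (Fin m)) ℝ)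
    (Ht : LnT F → MvPolynomial (Option (Fin m)) ℝ) : Prop where
  ball : ChOK F c (r + 1) (fun _ => D) w' w' e g₀ B G₀ H₀
  cls : Clsd F (r + 1) w' B G₀ H₀
  relb : RelvF F c r w' w' g₀ Dr h κ B G₀
  near : ∀ ω, B ω → ∀ l ≤ r, ∀ b : Option (Fin m) → ℝ,
    |eval b (Gno (c l) J J (fun y => G₀ y l) (ptr F J ω)) - eval b (G₀ (ptr F J ω) l)| ≤
      2 / 2 ^ g₀ l
  rad : ∀ i ≤ M, ChOK F c (r + 1) (fun _ => D) (w' + z i) w' e (fun l => g l + z i) B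
    (fun y l => Gno (c l) J J (fun y => G₀ y l) y) (fun s l => Hno (c l) (fun s => H₀ s l) s)
  top : ChOK F c (r + 1) (fun _ => D) (w' + v) w' e gc B
    (fun y l => Gno (c l) J J (fun y => G₀ y l) y) (fun s l => Hno (c l) (fun s => H₀ s l) s)
  gle : ∀ l ≤ r, gc l ≤ g l + v
  thin : ChOK F c r (fun _ => D) (w' + v) w' e gT B T TH
  relt : RelvF F c r (w' + v) w' gT Dr h κ B T
  rgh : ∀ l < r, R l → gT l = gc l ∧ (∀ y, T y l = Gno (c l) J J (fun y => G₀ y l) y) ∧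
    ∀ s, TH s l = Hno (c l) (fun s => H₀ s l) s
  dG : ∀ y, (Gt y).totalDegree ≤ D
  dH : ∀ s, (Ht s).totalDegree ≤ D
  pG : ∀ y, DepC c r (Gt y)
  pH : ∀ s, DepC c r (Ht s)
  pos : ∀ ω, B ω → |F.x ω (c r) - eval (bt F ω) (Gt (ptr F J ω))| ≤ 1 / 2 ^ p
  agr : ∀ ω, B ω → ∀ b, NBx c (T (ptr F J ω)) gT (w' + v) (F.t ω) r b →
    |eval b (Gt (ptr F J ω)) - eval b (Ht (slam F w' ω))| ≤ 1 / 2 ^ p

/-- **The sides.** `lv`: the levels of the ball; `bt`: the levels of the thin labels. -/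
structure Sds (r J v : ℕ) (R : ℕ → Prop) (lv bt : ℕ → ℝ) (σ ε η : ℝ) (gc gT g₀ : ℕ → ℕ) :
    Prop where
  b1 : ∀ l ≤ r, (lv l - σ) * J ≤ g₀ l
  b2 : ∀ l ≤ r, (g₀ l : ℝ) ≤ lv l * J
  c1 : ∀ l ≤ r, (lv l - η) * J + v ≤ gc l
  c2 : ∀ l ≤ r, (gc l : ℝ) ≤ (lv l - ε) * J + v
  t1 : ∀ l < r, ¬ R l → (bt l - η) * J ≤ gT l
  t2 : ∀ l < r, ¬ R l → (gT l : ℝ) ≤ (bt l - ε) * J

/-- Smaller events. -/
theorem EvS.sub {m J : ℕ} {F : Fam m J} {c : ℕ → Fin m} {r D Dr w' v M : ℕ} {z : ℕ → ℕ}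
    {e h p : ℕ} {R : ℕ → Prop} {g gc gT g₀ : ℕ → ℕ} {κ κ₁ κ₂ : ℝ} {B B' : F.Ω → Prop}
    {G₀ : PtT F → ℕ → MvPolynomial (Option (Fin m)) ℝ}
    {H₀ : LnT F → ℕ → MvPolynomial (Option (Fin m)) ℝ}
    {T : PtT F → ℕ → MvPolynomial (Option (Fin m)) ℝ}
    {TH : LnT F → ℕ → MvPolynomial (Option (Fin m)) ℝ}
    {Gt : PtT F → MvPolynomial (Option (Fin m)) ℝ}
    {Ht : LnT F → MvPolynomial (Option (Fin m)) ℝ}
    (H : EvS F c r D Dr w' v M z e h p R g gc gT g₀ κ B G₀ H₀ T TH Gt Ht) (hB : Sub B' B)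
    (hP : κ₁ * Pe F.p B ≤ Pe F.p B') (h2 : 0 ≤ κ₂) (hκ : κ ≤ κ₂ * κ₁) :
    EvS F c r D Dr w' v M z e h p R g gc gT g₀ κ₂ B' G₀ H₀ T TH Gt Ht where
  ball := H.ball.sub hB
  cls := H.cls.sub hB
  relb := H.relb.sub hB hP h2 hκ
  near := fun ω hω => H.near ω (hB ω hω)
  rad := fun i hi => (H.rad i hi).sub hB
  top := H.top.sub hB
  gle := H.gle
  thin := H.thin.sub hB
  relt := H.relt.sub hB hP h2 hκ
  rgh := H.rgh
  dG := H.dG
  dH := H.dH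
  pG := H.pG
  pH := H.pH
  pos := fun ω hω => H.pos ω (hB ω hω)
  agr := fun ω hω => H.agr ω (hB ω hω)

/-- Larger exponents. -/
theorem EvS.mono {m J : ℕ} {F : Fam m J} {c : ℕ → Fin m} {r D Dr w' v M : ℕ} {z : ℕ → ℕ}
    {e e' h h' p p' : ℕ} {R : ℕ → Prop} {g gc gT g₀ : ℕ → ℕ} {κ : ℝ} {B : F.Ω → Prop}
    {G₀ : PtT F → ℕ → MvPolynomial (Option (Fin m)) ℝ}
    {H₀ : LnT F → ℕ → MvPolynomial (Option (Fin m)) ℝ}
    {T : PtT F → ℕ → MvPolynomial (Option (Fin m)) ℝ}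
    {TH : LnT F → ℕ → MvPolynomial (Option (Fin m)) ℝ}
    {Gt : PtT F → MvPolynomial (Option (Fin m)) ℝ}
    {Ht : LnT F → MvPolynomial (Option (Fin m)) ℝ}
    (H : EvS F c r D Dr w' v M z e h p R g gc gT g₀ κ B G₀ H₀ T TH Gt Ht) (he : e ≤ e')
    (hh : h ≤ h') (hp : p' ≤ p) :
    EvS F c r D Dr w' v M z e' h' p' R g gc gT g₀ κ B G₀ H₀ T TH Gt Ht where
  ball := H.ball.mono le_rfl (fun _ => le_rfl) le_rfl he
  cls := H.cls
  relb := relvF_exp H.relb hh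
  near := H.near
  rad := fun i hi => (H.rad i hi).mono le_rfl (fun _ => le_rfl) le_rfl he
  top := H.top.mono le_rfl (fun _ => le_rfl) le_rfl he
  gle := H.gle
  thin := H.thin.mono le_rfl (fun _ => le_rfl) le_rfl he
  relt := relvF_exp H.relt hh
  rgh := H.rgh
  dG := H.dG
  dH := H.dH
  pG := H.pG
  pH := H.pH
  pos := fun ω hω => (H.pos ω hω).trans (one_div_le_one_div_of_le (by positivity)
    (pow_le_pow_right₀ (by norm_num) hp))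
  agr := fun ω hω b hb => (H.agr ω hω b hb).trans (one_div_le_one_div_of_le (by positivity)
    (pow_le_pow_right₀ (by norm_num) hp))

/-- **One window.** -/
theorem ev_win (m r S₀ : ℕ) (hr : 1 ≤ r) (hS₀ : 1 ≤ S₀) : ∃ D : ℕ, 1 ≤ D ∧ ∀ Dr : ℕ, ∃ C : ℝ,
    1 ≤ C ∧ ∀ {S : PCl m} {P : List (Fin m) × Fin m → ℝ → ℝ → ℝ} {θ : ℝ} {c : ℕ → Fin m}
    {Pt : ℝ → ℝ → ℝ} {R : ℕ → Prop} {a w ρ ρ' ε Eb : ℝ}
    {vs e e₀ E sg vs' e' e₀' E' sg' : ℝ → ℝ} {Q Q' : Set ℝ},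
    ThrOf (chsys m θ) S P → 0 < θ → TmH S → Set.InjOn c (Set.Iio (r + 1)) → Law Pt → w < a →
    PtD S P θ c r Pt w w ρ S₀ vs e e₀ E sg Q →
    PtD S P θ c r Pt a w ρ' S₀ vs' e' e₀' E' sg' Q' →
    E 0 ≤ Eb → E' 0 ≤ Eb → e₀' 0 ≤ Eb → 0 ≤ ε →
    (∀ l < r, R l → bet P c l a w ≤ bet P c l w w + (a - w) + ε) →
    (∀ l ≤ r, lvN P c r Pt l w w + E 0 + (a - w) < 1) → C * ε < w → ∀ p' : ℝ, 0 ≤ p' →
    p' + C * ε < Pt a w → ∀ (η σ r₀ : ℝ) (M : ℕ), C * ε < η → 0 < σ → 0 < r₀ →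
    ∃ (K₁ μ : ℝ) (b : ℕ → ℝ), 0 < K₁ ∧ 0 < μ ∧
      (∀ l ≤ r, lvN P c r Pt l w w - σ < b l ∧ b l < lvN P c r Pt l w w - μ) ∧
      ∀ κ : ℝ, 0 < κ → Bas S (fun J F A => ∀ z : ℕ → ℕ,
        (∀ i ≤ M, r₀ * J ≤ z i ∧ z i ≤ ⌊a * J⌋₊ - ⌊w * J⌋₊) →
        ∃ (B : F.Ω → Prop) (gc gT g₀ : ℕ → ℕ)
          (G₀ : PtT F → ℕ → MvPolynomial (Option (Fin m)) ℝ)
          (H₀ : LnT F → ℕ → MvPolynomial (Option (Fin m)) ℝ)
          (T : PtT F → ℕ → MvPolynomial (Option (Fin m)) ℝ)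
          (TH : LnT F → ℕ → MvPolynomial (Option (Fin m)) ℝ)
          (Gt : PtT F → MvPolynomial (Option (Fin m)) ℝ)
          (Ht : LnT F → MvPolynomial (Option (Fin m)) ℝ), Sub B A ∧
          Pe F.p A ≤ K₁ * Pe F.p B ∧
          Sds r J (⌊a * J⌋₊ - ⌊w * J⌋₊) R (fun l => lvN P c r Pt l w w)
            (fun l => bet P c l a w) σ ε η gc gT g₀ ∧
          EvS F c r D Dr ⌊w * J⌋₊ (⌊a * J⌋₊ - ⌊w * J⌋₊) M z ⌊(Eb + σ + η) * J⌋₊ ⌊η * J⌋₊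
            ⌊p' * J⌋₊ R (fun l => ⌊b l * J⌋₊) gc gT g₀ κ B G₀ H₀ T TH Gt Ht) := by
  obtain ⟨D₁, hD₁, hthin⟩ := thin_labs r S₀ hr hS₀
  obtain ⟨D₂, C₂, hD₂, hC₂, hiso⟩ := iso_ptC m r S₀ hS₀
  obtain ⟨D, hD⟩ : ∃ D, D = max D₁ D₂ := ⟨_, rfl⟩
  have hDD1 : D₁ ≤ D := by rw [hD]; exact le_max_left _ _
  have hDD2 : D₂ ≤ D := by rw [hD]; exact le_max_right _ _
  refine ⟨D, hD₁.trans hDD1, fun Dr => ?_⟩
  obtain ⟨C₃, h3c⟩ := three_chains D Dr r (hD₁.trans hDD1)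
  obtain ⟨C₄, hC₄, hmix⟩ := mix_chains D Dr r (hD₁.trans hDD1)
  have hC₃0 : (0 : ℝ) ≤ C₃ := Nat.cast_nonneg _
  obtain ⟨Cs, hCs⟩ : ∃ Cs : ℕ, Cs = (2 * C₄) ^ (r + 1) := ⟨_, rfl⟩
  have hCs1 : 1 ≤ Cs := by rw [hCs]; exact Nat.one_le_pow _ _ (by omega)
  have hCsR : (1 : ℝ) ≤ Cs := by exact_mod_cast hCs1
  obtain ⟨V, hV⟩ : ∃ V : ℝ, V = 2 * Cs + C₃ + 2 := ⟨_, rfl⟩
  obtain ⟨U, hU⟩ : ∃ U : ℝ, U = 4 * Cs + 2 * C₃ + 4 := ⟨_, rfl⟩
  obtain ⟨k₀, hk₀⟩ : ∃ k₀ : ℝ, k₀ = 8 * Cs + 3 * C₃ + 8 := ⟨_, rfl⟩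
  refine ⟨V, by rw [hV]; linarith, ?_⟩
  intro S P θ c Pt R a w ρ ρ' ε Eb vs e e₀ E sg vs' e' e₀' E' sg' Q Q' hP hθ hS hinj hPt hwa hdw hda
    hEb hEb' heb' hε hrough htop hεw p' hp' hpP η σ r₀ M hη hσ hr₀
  have hinj' : Set.InjOn c (Set.Iio r) := hinj.mono fun x hx => lt_trans hx (Nat.lt_succ_self r)
  have hw0 := hdw.w0
  have hw1 : w < 1 := hdw.a1
  have ha1 : a < 1 := hda.a1
  have ha0 : 0 < a := hda.a0
  have hE0 := hdw.E0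
  -- the constants
  obtain ⟨s₂, hs₂, hs₂l⟩ := fin_pos (r + 1)
    (f := fun l => 1 - (lvN P c r Pt l w w + E 0 + (a - w))) fun l hl => by
      have := htop l (by omega)
      linarith
  obtain ⟨δ, hδ⟩ : ∃ δ : ℝ, δ = min (min η w) (Pt a w - p') - V * ε := ⟨_, rfl⟩
  have hδ0 : 0 < δ := by
    rw [hδ]
    have := lt_min (lt_min hη hεw) (show V * ε < Pt a w - p' by linarith)
    linarith
  have hδη : δ + V * ε ≤ η := by
    rw [hδ]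
    have h1 := min_le_left (min η w) (Pt a w - p')
    have h2 := min_le_left η w
    linarith
  have hδw : δ + V * ε ≤ w := by
    rw [hδ]
    have h1 := min_le_left (min η w) (Pt a w - p')
    have h2 := min_le_right η w
    linarith
  have hδP : δ + V * ε ≤ Pt a w - p' := by
    rw [hδ]
    have h1 := min_le_right (min η w) (Pt a w - p')
    linarith
  have hU0 : 0 < U + 1 := by rw [hU]; linarith
  obtain ⟨x, hx⟩ : ∃ x : ℝ, x = min (min σ (w / 2)) (min (s₂ / 2) (δ / (U + 1))) := ⟨_, rfl⟩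
  have hx0 : 0 < x := by
    rw [hx]
    exact lt_min (lt_min hσ (by linarith)) (lt_min (by linarith) (by positivity))
  have hxσ : x ≤ σ := by rw [hx]; exact (min_le_left _ _).trans (min_le_left _ _)
  have hxw : x < w := by
    have : x ≤ w / 2 := by rw [hx]; exact (min_le_left _ _).trans (min_le_right _ _)
    linarith
  have hxs : x ≤ s₂ / 2 := by rw [hx]; exact (min_le_right _ _).trans (min_le_left _ _)
  have hxδ : U * x + x ≤ δ := by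
    have h1 : x ≤ δ / (U + 1) := by rw [hx]; exact (min_le_right _ _).trans (min_le_right _ _)
    rw [le_div_iff₀ hU0] at h1
    linarith
  -- the events
  obtain ⟨K₁, dT, dN, hK₁, hdT, hdN, hbT, hbR⟩ := hthin hP hθ hS hinj hPt hda (max D Dr) x x hx0 hx0
  obtain ⟨K₃, dT', dN', hK₃, hdT', hdN', hbT', hbR'⟩ :=
    hthin hP hθ hS hinj hPt hdw (max D Dr) x x hx0 hx0
  obtain ⟨K₂, μ, b, hK₂, hμ, hb, hbI⟩ := hiso (v := w - ρ) (ε := 0) hP hθ hS hinj hPt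
    (by linarith [hdw.ρw]) (by linarith [hdw.ρ0]) hw1 le_rfl hdw.q0
    (fun x y h1 h2 h3 => hdw.den x y h1 h2 (by linarith)) (fun κ h1 h2 h3 =>
      ⟨hdw.pt κ h1 h2 (by linarith), fun l hl => by
        have := hdw.grw κ h1 h2 (by linarith) l hl
        linarith⟩) (by rw [sub_sub_cancel]; exact hdw.sr) x hx0 (by rw [mul_zero]; exact hx0) hxw
    ((w + 1) / 2) r₀ (by linarith) (by linarith) hr₀ (M + 1)
  obtain ⟨K, hK⟩ : ∃ K : ℝ, K = K₁ * (K₃ * K₂) := ⟨_, rfl⟩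
  have hK0 : 0 < K := by rw [hK]; positivity
  have h4 : (0 : ℝ) < 4 ^ r := by positivity
  refine ⟨K * 4 ^ r * 4 ^ r, μ, b, by positivity, hμ, fun l hl =>
    ⟨by linarith [(hb l hl).1], (hb l hl).2⟩, fun κ hκ => ?_⟩
  -- the measures
  obtain ⟨κb, hκb⟩ : ∃ κb : ℝ, κb = min κ (1 / 2) / 4 ^ r := ⟨_, rfl⟩
  have hκb0 : 0 < κb := by
    rw [hκb]
    exact div_pos (lt_min hκ (by norm_num)) h4
  have hκbe : κb * 4 ^ r = min κ (1 / 2) := by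
    rw [hκb]
    field_simp
  have hκb1 : κb * 4 ^ r ≤ κ := by
    rw [hκbe]
    exact min_le_left _ _
  have hκb2 : κb * (2 * 4 ^ r) ≤ 1 := by
    have h1 : κb * (2 * 4 ^ r) = 2 * (κb * 4 ^ r) := by ring
    rw [h1, hκbe]
    linarith [min_le_right κ (1 / 2 : ℝ)]
  obtain ⟨κT, hκT⟩ : ∃ κT : ℝ, κT = κb / 4 ^ r := ⟨_, rfl⟩
  have hκT0 : 0 < κT := by
    rw [hκT]
    exact div_pos hκb0 h4
  have hκT1 : κT * 4 ^ r = κb := by
    rw [hκT]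
    field_simp
  have h41 : (1 : ℝ) ≤ 4 ^ r := one_le_pow₀ (by norm_num)
  have hκT2 : κT * (2 * 4 ^ r) ≤ 1 := by
    have h1 : κT ≤ κb := by
      rw [← hκT1]
      exact le_mul_of_one_le_right hκT0.le h41
    exact (mul_le_mul_of_nonneg_right h1 (by positivity)).trans hκb2
  have hrel := hbR κT (1 / K) hκT0 (by positivity)
  have hrel' := hbR' κb (1 / (K * 4 ^ r)) hκb0 (by positivity)
  obtain ⟨J₁, hJ₁⟩ := big 1 hμ
  obtain ⟨J₂, hJ₂⟩ := big k₀ hx0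
  obtain ⟨J₃, hJ₃⟩ := big 1 (show 0 < s₂ / 2 by linarith)
  refine Bas.mono (max J₁ (max J₂ J₃))
    (((bas_then hK₁ hbT (bas_then hK₃ hbT' hbI)).and hrel).and hrel') ?_
  rintro J hJ F A ⟨⟨⟨B₁, h1, h2, ⟨⟨T, TH, hT⟩, ⟨N, NH, hN⟩⟩, ⟨B₂, h1', h2',
    ⟨⟨T', TH', hT'⟩, ⟨N', NH', hN'⟩⟩, hI⟩⟩, hR⟩, hR'⟩ z hz
  have hJμ : 1 ≤ μ * J := hJ₁ J ((le_max_left _ _).trans hJ)
  have hJx : k₀ ≤ x * J := hJ₂ J ((le_max_left _ _).trans ((le_max_right _ _).trans hJ))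
  have hJs : 1 ≤ s₂ / 2 * J := hJ₃ J ((le_max_right _ _).trans ((le_max_right _ _).trans hJ))
  have hJ0 : (0 : ℝ) ≤ J := Nat.cast_nonneg J
  have hp := Pe_nonneg F.isLaw
  have hxJ0 : 0 ≤ x * J := mul_nonneg hx0.le hJ0
  have hεJ0 : 0 ≤ ε * J := mul_nonneg hε hJ0
  -- the radius
  obtain ⟨v, hv⟩ : ∃ v, ⌊a * J⌋₊ = ⌊w * J⌋₊ + v :=
    Nat.exists_eq_add_of_le (Nat.floor_le_floor (mul_le_mul_of_nonneg_right hwa.le hJ0))
  obtain ⟨w', hw'⟩ : ∃ w' : ℕ, w' = ⌊w * J⌋₊ := ⟨_, rfl⟩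
  have hw'1 : (w' : ℝ) ≤ w * J := by rw [hw']; exact Nat.floor_le (by positivity)
  have hw'2 : w * J < w' + 1 := by rw [hw']; exact Nat.lt_floor_add_one _
  rw [← hw'] at hv
  have hv1 : (v : ℝ) ≤ (a - w) * J + 1 := by
    have h5 : ((w' + v : ℕ) : ℝ) ≤ a * J := by
      rw [← hv]
      exact Nat.floor_le (by positivity)
    push_cast at h5
    linarith
  have hv2 : (a - w) * J - 1 ≤ v := by
    have h5 : a * J < ((w' + v : ℕ) : ℝ) + 1 := by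
      rw [← hv]
      exact Nat.lt_floor_add_one _
    push_cast at h5
    linarith
  rw [← hw'] at hT' hN'
  rw [← hw', hv] at hT hN
  rw [← hw'] at hz ⊢
  rw [hv, Nat.add_sub_cancel_left] at hz ⊢
  -- the levels
  have hlvl : ∀ l < r, lvN P c r Pt l w w = bet P c l w w := fun l hl => if_pos hl
  have hlvr : lvN P c r Pt r a w = Pt a w := if_neg (lt_irrefl r)
  have hlow : ∀ l ≤ r, w ≤ lvN P c r Pt l w w := fun l _ => hdw.low hP l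
  have hb0 : ∀ l ≤ r, 0 < b l := fun l hl => by
    have := hlow l hl
    linarith [(hb l hl).1]
  have hbta : ∀ l, a ≤ bet P c l a w := fun l => hP.low _ _ _ hw0.le hwa.le ha1.le
  have hslo : ∀ l < r, bet P c l w w + (a - w) ≤ bet P c l a w := by
    intro l hl
    have h5 : min 1 (bet P c l w w + (a - w)) ≤ bet P c l (w + (a - w)) w :=
      (hP.law ((List.range l).map c, c l)).slope w w (a - w) hw0.le le_rfl (by linarith)
        (by linarith)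
    have h6 := htop l hl.le
    rw [hlvl l hl] at h6
    have h7 : bet P c l w w + (a - w) < 1 := by linarith
    rw [show w + (a - w) = a by ring, min_eq_right h7.le] at h5
    exact h5
  -- the ball
  obtain ⟨z', hz'⟩ : ∃ z' : ℕ → ℕ, z' = fun i => if i ≤ M then z i else v := ⟨_, rfl⟩
  have hz1 : ∀ i ≤ M, z' i = z i := fun i hi => by rw [hz']; exact if_pos hi
  have hz2 : z' (M + 1) = v := by rw [hz']; exact if_neg (by omega)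
  have hz3 : ∀ i ≤ M + 1, r₀ * J ≤ z' i ∧ z' i ≤ v := by
    intro i hi
    rcases Nat.lt_or_ge M i with h5 | h5
    · have h6 : i = M + 1 := by omega
      rw [h6, hz2]
      refine ⟨?_, le_rfl⟩
      obtain ⟨h7, h8⟩ := hz 0 (Nat.zero_le _)
      exact h7.trans (by exact_mod_cast h8)
    · rw [hz1 i h5]
      exact hz i h5
  have hfl : ∀ l ≤ r, (⌊b l * J⌋₊ : ℝ) ≤ b l * J ∧ b l * J < ⌊b l * J⌋₊ + 1 := fun l hl =>
    ⟨Nat.floor_le (mul_nonneg (hb0 l hl).le hJ0), Nat.lt_floor_add_one _⟩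
  obtain ⟨B₃, g₀, G₀, H₀, l1, l2, l3, l4, lc, l5, l6⟩ := hI w' (fun i => w' + z' i)
    (fun i l => ⌊b l * J⌋₊ + z' i) (by rw [hw']) (hw'1.trans (mul_le_mul_of_nonneg_right
      (by linarith) hJ0)) (fun i hi => by
        push_cast
        linarith [(hz3 i hi).1]) (fun i hi l hl => by
        push_cast
        linarith [(hfl l hl).1]) (fun i hi l hl => by
        push_cast
        linarith [(hfl l hl).2]) (fun i hi l hl => by
        push_cast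
        have h5 : (z' i : ℝ) ≤ v := by exact_mod_cast (hz3 i hi).2
        have h6 := mul_le_mul_of_nonneg_right (hs₂l l (by omega)) hJ0
        have h7 := mul_le_mul_of_nonneg_right hxs hJ0
        linarith)
  have hPA : 1 / K * Pe F.p A ≤ Pe F.p B₃ := by
    rw [one_div, inv_mul_le_iff₀ hK0, hK]
    calc Pe F.p A ≤ K₁ * Pe F.p B₁ := h2
      _ ≤ K₁ * (K₃ * Pe F.p B₂) := mul_le_mul_of_nonneg_left h2' hK₁.le
      _ ≤ K₁ * (K₃ * (K₂ * Pe F.p B₃)) :=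
          mul_le_mul_of_nonneg_left (mul_le_mul_of_nonneg_left l2 hK₃.le) hK₁.le
      _ = _ := by ring
  have s31 : Sub B₃ B₁ := fun ω hω => h1' ω (l1 ω hω)
  rw [← hw', hv] at hR
  have hRT := hR B₃ T TH (fun ω hω => h1 ω (s31 ω hω)) hPA (hT.sub s31)
  have htop' := l5 (M + 1) le_rfl
  simp only [hz2] at htop'
  -- the losses
  obtain ⟨q₃, hq₃⟩ : ∃ q₃, q₃ = ⌊(x + ε) * J⌋₊ + 3 := ⟨_, rfl⟩
  have hq₃1 : (q₃ : ℝ) ≤ (x + ε) * J + 3 := by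
    rw [hq₃]
    push_cast
    have := Nat.floor_le (show 0 ≤ (x + ε) * J by positivity)
    linarith
  have hq₃2 : (x + ε) * J + 2 ≤ q₃ := by
    rw [hq₃]
    push_cast
    have := Nat.lt_floor_add_one ((x + ε) * J)
    linarith
  have hxJ : (⌊x * J⌋₊ : ℝ) ≤ x * J := Nat.floor_le (by positivity)
  obtain ⟨s, hs⟩ : ∃ s : ℕ → ℕ, s = fun i => (2 * C₄) ^ (i + 1) * (⌊x * J⌋₊ + q₃ + 1) := ⟨_, rfl⟩
  have hsr : s r = Cs * (⌊x * J⌋₊ + q₃ + 1) := by rw [hs, hCs]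
  have hSH : SHie C₄ (r + 1) (C₄ * (⌊x * J⌋₊ + q₃ + 1)) s := by
    refine ⟨?_, fun i _ => ?_⟩
    · rw [hs]
      show C₄ * (⌊x * J⌋₊ + q₃ + 1) ≤ (2 * C₄) ^ (0 + 1) * (⌊x * J⌋₊ + q₃ + 1)
      rw [zero_add, pow_one]
      exact Nat.mul_le_mul_right _ (by omega)
    · rw [hs]
      show C₄ * ((2 * C₄) ^ (i + 1) * (⌊x * J⌋₊ + q₃ + 1) + 1) ≤
        (2 * C₄) ^ (i + 1 + 1) * (⌊x * J⌋₊ + q₃ + 1)
      have h5 : 1 ≤ (2 * C₄) ^ (i + 1) * (⌊x * J⌋₊ + q₃ + 1) :=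
        Nat.one_le_iff_ne_zero.2 (Nat.mul_ne_zero (pow_ne_zero _ (by omega)) (by omega))
      rw [pow_succ _ (i + 1)]
      calc C₄ * ((2 * C₄) ^ (i + 1) * (⌊x * J⌋₊ + q₃ + 1) + 1) ≤
          C₄ * ((2 * C₄) ^ (i + 1) * (⌊x * J⌋₊ + q₃ + 1) +
            (2 * C₄) ^ (i + 1) * (⌊x * J⌋₊ + q₃ + 1)) :=
            Nat.mul_le_mul_left _ (Nat.add_le_add_left h5 _)
        _ = _ := by ring
  have hsle : ∀ l ≤ r, s l ≤ s r := fun l hl => hSH.mono hC₄ hl (Nat.lt_succ_self r)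
  have hsrR : (s r : ℝ) ≤ 2 * Cs * (x * J) + Cs * (ε * J) + 4 * Cs := by
    rw [hsr]
    push_cast
    have h5 : (⌊x * J⌋₊ : ℝ) + q₃ + 1 ≤ 2 * (x * J) + ε * J + 4 := by linarith
    calc (Cs : ℝ) * (⌊x * J⌋₊ + q₃ + 1) ≤ Cs * (2 * (x * J) + ε * J + 4) :=
          mul_le_mul_of_nonneg_left h5 (by linarith)
      _ = _ := by ring
  have hslR : ∀ l ≤ r, (s l : ℝ) ≤ s r := fun l hl => by exact_mod_cast hsle l hl
  have hsq : ∀ l, ε * J ≤ s l := by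
    intro l
    have h5 : q₃ ≤ s l := by
      rw [hs]
      show q₃ ≤ (2 * C₄) ^ (l + 1) * (⌊x * J⌋₊ + q₃ + 1)
      have h6 : 1 ≤ (2 * C₄) ^ (l + 1) := Nat.one_le_pow _ _ (by omega)
      have h7 : 1 * (⌊x * J⌋₊ + q₃ + 1) ≤ (2 * C₄) ^ (l + 1) * (⌊x * J⌋₊ + q₃ + 1) :=
        Nat.mul_le_mul_right _ h6
      omega
    have h6 : (q₃ : ℝ) ≤ s l := by exact_mod_cast h5
    linarith
  -- the room
  have hroom : ∀ y : ℝ, δ + V * ε ≤ y → U * (x * J) + V * (ε * J) + k₀ ≤ y * J := by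
    intro y hy
    have h5 : (U * x + x + V * ε) * J ≤ y * J := mul_le_mul_of_nonneg_right (by linarith) hJ0
    have e5 : (U * x + x + V * ε) * J = U * (x * J) + x * J + V * (ε * J) := by ring
    rw [e5] at h5
    linarith
  have hrη := hroom η hδη
  have hrw := hroom w hδw
  have hrP := hroom (Pt a w - p') hδP
  rw [hU, hV, hk₀] at hrη hrw hrP
  have p1 : 0 ≤ Cs * (x * J) := by positivity
  have p2 : 0 ≤ Cs * (ε * J) := by positivity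
  have p3 : 0 ≤ C₃ * (x * J) := by positivity
  have p4 : 0 ≤ C₃ * (ε * J) := by positivity
  -- the sides
  have hgT : ∀ l < r, (⌊(bet P c l a w - dT l) * J⌋₊ : ℝ) ≤ (bet P c l a w - dT l) * J ∧
      (bet P c l a w - dT l) * J < ⌊(bet P c l a w - dT l) * J⌋₊ + 1 := fun l hl =>
    ⟨Nat.floor_le (mul_nonneg (by linarith [(hdT l hl).2.2, hbta l]) hJ0),
      Nat.lt_floor_add_one _⟩
  have hdTJ : ∀ l < r, 0 ≤ dT l * J ∧ dT l * J ≤ x * J := fun l hl =>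
    ⟨mul_nonneg (hdT l hl).1.le hJ0, mul_le_mul_of_nonneg_right (hdT l hl).2.1 hJ0⟩
  have hbJ : ∀ l ≤ r, (lvN P c r Pt l w w - x) * J ≤ b l * J ∧
      b l * J ≤ (lvN P c r Pt l w w - μ) * J := fun l hl =>
    ⟨mul_le_mul_of_nonneg_right (hb l hl).1.le hJ0, mul_le_mul_of_nonneg_right (hb l hl).2.le hJ0⟩
  have hwJ : ∀ l ≤ r, w * J ≤ lvN P c r Pt l w w * J := fun l hl =>
    mul_le_mul_of_nonneg_right (hlow l hl) hJ0
  have hsT : ∀ l < r, s l ≤ ⌊(bet P c l a w - dT l) * J⌋₊ := fun l hl => by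
    have h7 := hgT l hl
    have h10 := hdTJ l hl
    have h11 := hslR l hl.le
    have h12 := mul_le_mul_of_nonneg_right (hbta l) hJ0
    have h13 : w * J ≤ a * J := mul_le_mul_of_nonneg_right hwa.le hJ0
    have h14 : (s l : ℝ) ≤ ⌊(bet P c l a w - dT l) * J⌋₊ := by linarith
    exact_mod_cast h14
  have hsΓ : ∀ l ≤ r, s l ≤ ⌊b l * J⌋₊ + v := fun l hl => by
    have h8 := hfl l hl
    have h9 := hbJ l hl
    have h10 := hwJ l hl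
    have h11 := hslR l hl
    have h14 : (s l : ℝ) ≤ ((⌊b l * J⌋₊ + v : ℕ) : ℝ) := by
      push_cast
      linarith
    exact_mod_cast h14
  obtain ⟨B₄, m1, m2, m3, m4, m5, m6⟩ := hmix (R := R) (e := ⌊(Eb + x) * J⌋₊) (κ := κb) (s := s)
    (q := q₃) hinj hRT hκb0.le hκT1.le hκT2
    ((hT.sub s31).mono le_rfl (fun _ => hDD1) le_rfl
      (Nat.floor_le_floor (mul_le_mul_of_nonneg_right (by linarith) hJ0)))
    ((hN.sub s31).mono le_rfl (fun _ => hDD1) le_rfl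
      (Nat.floor_le_floor (mul_le_mul_of_nonneg_right (by linarith) hJ0)))
    (htop'.mono le_rfl (fun _ => hDD2) le_rfl
      (Nat.floor_le_floor (mul_le_mul_of_nonneg_right (by linarith) hJ0)))
    (fun l hl hRl => by
      have h5 := hrough l hl hRl
      rw [← hlvl l hl] at h5
      have h6 := mul_le_mul_of_nonneg_right h5 hJ0
      have h7 := hgT l hl
      have h8 := hfl l hl.le
      have h9 := hbJ l hl.le
      have h10 := hdTJ l hl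
      have h12 : (⌊(bet P c l a w - dT l) * J⌋₊ : ℝ) ≤ ((⌊b l * J⌋₊ + v + q₃ : ℕ) : ℝ) := by
        push_cast
        linarith
      exact_mod_cast h12)
    (fun l hl => by
      have h5 := hslo l hl
      rw [← hlvl l hl] at h5
      have h6 := mul_le_mul_of_nonneg_right h5 hJ0
      have h7 := hgT l hl
      have h8 := hfl l hl.le
      have h9 := hbJ l hl.le
      have h10 := hdTJ l hl
      have h12 : ((⌊b l * J⌋₊ + v : ℕ) : ℝ) ≤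
          ((⌊(bet P c l a w - dT l) * J⌋₊ + q₃ : ℕ) : ℝ) := by
        push_cast
        linarith
      exact_mod_cast h12)
    hSH hsT hsΓ
  -- the ball, no relation
  have hPA' : 1 / (K * 4 ^ r) * Pe F.p A ≤ Pe F.p B₄ := by
    rw [one_div, inv_mul_le_iff₀ (by positivity)]
    rw [one_div, inv_mul_le_iff₀ hK0] at hPA
    calc Pe F.p A ≤ K * Pe F.p B₃ := hPA
      _ ≤ K * (4 ^ r * Pe F.p B₄) := mul_le_mul_of_nonneg_left m2 hK0.le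
      _ = _ := by ring
  have s42 : Sub B₄ B₂ := fun ω hω => l1 ω (m1 ω hω)
  have s41 : Sub B₄ B₁ := fun ω hω => s31 ω (m1 ω hω)
  rw [← hw'] at hR'
  have hRT' := hR' B₄ T' TH' (fun ω hω => h1 ω (s41 ω hω)) hPA' (hT'.sub s42)
  obtain ⟨q₄, hq₄⟩ : ∃ q₄, q₄ = ⌊x * J⌋₊ + 2 := ⟨_, rfl⟩
  have hq₄1 : (q₄ : ℝ) ≤ x * J + 2 := by
    rw [hq₄]
    push_cast
    linarith
  have hq₄2 : x * J + 1 ≤ q₄ := by
    rw [hq₄]
    push_cast
    have := Nat.lt_floor_add_one (x * J)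
    linarith
  obtain ⟨B₅, n1, n2, -, -, n5⟩ := h3c (q := q₄) (κ := κ) hinj' hRT' hκ.le hκb1 hκb2
    ((hT'.sub s42).mono le_rfl (fun _ => hDD1) le_rfl le_rfl)
    ((hN'.sub s42).mono le_rfl (fun _ => hDD1) le_rfl le_rfl)
    ((l4.sub m1).mono le_rfl (fun _ => hDD2) le_rfl le_rfl) (fun l hl => by
      have h5 := (l3 l hl.le).1
      have h6 : (⌊(bet P c l w w - dT' l) * J⌋₊ : ℝ) ≤ (bet P c l w w - dT' l) * J :=
        Nat.floor_le (mul_nonneg (by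
          have := hlow l hl.le
          rw [hlvl l hl] at this
          linarith [(hdT' l hl).2.2]) hJ0)
      have h7 : 0 ≤ dT' l * J := mul_nonneg (hdT' l hl).1.le hJ0
      rw [hlvl l hl] at h5
      have h12 : (⌊(bet P c l w w - dT' l) * J⌋₊ : ℝ) ≤ ((g₀ l + q₄ : ℕ) : ℝ) := by
        push_cast
        linarith
      exact_mod_cast h12)
  have s53 : Sub B₅ B₃ := fun ω hω => m1 ω (n1 ω hω)
  have hsη : s r ≤ ⌊η * J⌋₊ := by
    refine Nat.le_floor ?_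
    linarith
  have hZη : C₃ * (⌊x * J⌋₊ + q₄ + 1) ≤ ⌊η * J⌋₊ := by
    refine Nat.le_floor ?_
    push_cast
    have h5 : (⌊x * J⌋₊ : ℝ) + q₄ + 1 ≤ 2 * (x * J) + 3 := by linarith
    have h6 : (C₃ : ℝ) * (⌊x * J⌋₊ + q₄ + 1) ≤ C₃ * (2 * (x * J) + 3) :=
      mul_le_mul_of_nonneg_left h5 hC₃0
    have e6 : (C₃ : ℝ) * (2 * (x * J) + 3) = 2 * (C₃ * (x * J)) + 3 * C₃ := by ring
    linarith
  obtain ⟨gN, hgN⟩ : ∃ gN : ℕ, gN = ⌊(lvN P c r Pt r a w - dN r) * J⌋₊ := ⟨_, rfl⟩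
  have hsp : s r + ⌊p' * J⌋₊ ≤ gN := by
    rw [hgN, hlvr]
    refine Nat.le_floor ?_
    push_cast
    have h6 : (⌊p' * J⌋₊ : ℝ) ≤ p' * J := Nat.floor_le (by positivity)
    have h7 := mul_le_mul_of_nonneg_right (hdN r le_rfl).2.1 hJ0
    linarith
  have hdiv : ∀ {y n k : ℕ}, y + k ≤ n → (2 : ℝ) ^ y / 2 ^ n ≤ 1 / 2 ^ k := fun {y n k} h => by
    rw [div_le_div_iff₀ (by positivity) (by positivity), one_mul, ← pow_add]
    exact pow_le_pow_right₀ (by norm_num) h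
  have hσJ : x * J ≤ σ * J := mul_le_mul_of_nonneg_right hxσ hJ0
  have hη0 : 0 ≤ η * J := by linarith
  have hEJ : 0 ≤ Eb * J := mul_nonneg (hE0.le.trans hEb) hJ0
  have hE : ⌊(E 0 + x) * J⌋₊ ≤ ⌊(Eb + σ + η) * J⌋₊ := by
    refine Nat.floor_le_floor ?_
    have h5 := mul_le_mul_of_nonneg_right hEb hJ0
    linarith
  have hE2 : ⌊(Eb + x) * J⌋₊ + 2 * s r + q₃ ≤ ⌊(Eb + σ + η) * J⌋₊ := by
    refine Nat.le_floor ?_
    push_cast
    have h5 : (⌊(Eb + x) * J⌋₊ : ℝ) ≤ (Eb + x) * J :=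
      Nat.floor_le (mul_nonneg (by linarith) hJ0)
    linarith
  have hPB : Pe F.p A ≤ K * 4 ^ r * 4 ^ r * Pe F.p B₅ := by
    rw [one_div, inv_mul_le_iff₀ (by positivity)] at hPA'
    calc Pe F.p A ≤ K * 4 ^ r * Pe F.p B₄ := hPA'
      _ ≤ K * 4 ^ r * (4 ^ r * Pe F.p B₅) := mul_le_mul_of_nonneg_left n2 (by positivity)
      _ = _ := by ring
  refine ⟨B₅, fun l => ⌊b l * J⌋₊ + v - s l, fun l => mixl R (fun l => ⌊b l * J⌋₊ + v)
    (fun l => ⌊(bet P c l a w - dT l) * J⌋₊) l - s l, g₀, G₀, H₀,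
    (fun y => mixl R (fun l => Gno (c l) J J (fun y => G₀ y l) y) (T y)),
    (fun y => mixl R (fun l => Hno (c l) (fun s => H₀ s l) y) (TH y)), fun y => N y r,
    fun s => NH s r, fun ω hω => h1 ω (s31 ω (s53 ω hω)), hPB, ⟨fun l hl => ?_, fun l hl => ?_,
      fun l hl => ?_, fun l hl => ?_, fun l hl hRl => ?_, fun l hl hRl => ?_⟩,
    ⟨(l4.sub s53).mono le_rfl (fun _ => hDD2) le_rfl hE, lc.sub s53, relvF_exp n5 hZη,
      fun ω hω => l6 ω (s53 ω hω), fun i hi => ?_,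
      (m4.sub n1).mono le_rfl (fun _ => le_rfl) le_rfl hE2, fun l hl => Nat.sub_le _ _,
      (m3.sub n1).mono le_rfl (fun _ => le_rfl) le_rfl hE2, ?_, fun l hl hRl => ?_,
      fun y => (hN.degG y r).trans hDD1, fun s => (hN.degH s r).trans hDD1, fun y => hN.depG y r,
      fun s => hN.depH s r, fun ω hω => ?_, fun ω hω b hb => ?_⟩⟩
  · exact (mul_le_mul_of_nonneg_right (by linarith) hJ0).trans (l3 l hl).1
  · exact (l3 l hl).2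
  · have h5 := hfl l hl
    have h6 := hbJ l hl
    have h7 := hslR l hl
    have h8 : ((⌊b l * J⌋₊ + v : ℕ) : ℝ) ≤ ((⌊b l * J⌋₊ + v - s l : ℕ) : ℝ) + s l := by
      have : ⌊b l * J⌋₊ + v ≤ ⌊b l * J⌋₊ + v - s l + s l := by omega
      exact_mod_cast this
    push_cast at h8
    show (lvN P c r Pt l w w - η) * J + v ≤ ((⌊b l * J⌋₊ + v - s l : ℕ) : ℝ)
    linarith
  · have h5 := hfl l hl
    have h6 := hbJ l hl
    have h8 : ((⌊b l * J⌋₊ + v - s l : ℕ) : ℝ) = ((⌊b l * J⌋₊ + v : ℕ) : ℝ) - s l :=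
      Nat.cast_sub (hsΓ l hl)
    have h9 : 0 ≤ μ * J := by linarith
    have h10 := hsq l
    show ((⌊b l * J⌋₊ + v - s l : ℕ) : ℝ) ≤ (lvN P c r Pt l w w - ε) * J + v
    rw [h8]
    push_cast
    linarith
  · rw [mixl_neg hRl]
    have h5 := hgT l hl
    have h6 := hdTJ l hl
    have h7 := hslR l hl.le
    have h8 : (⌊(bet P c l a w - dT l) * J⌋₊ : ℝ) ≤
        ((⌊(bet P c l a w - dT l) * J⌋₊ - s l : ℕ) : ℝ) + s l := by
      have : ⌊(bet P c l a w - dT l) * J⌋₊ ≤ ⌊(bet P c l a w - dT l) * J⌋₊ - s l + s l := by omega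
      exact_mod_cast this
    show (bet P c l a w - η) * J ≤ ((⌊(bet P c l a w - dT l) * J⌋₊ - s l : ℕ) : ℝ)
    linarith
  · rw [mixl_neg hRl]
    have h5 := hgT l hl
    have h6 := hdTJ l hl
    have h8 : ((⌊(bet P c l a w - dT l) * J⌋₊ - s l : ℕ) : ℝ) =
        (⌊(bet P c l a w - dT l) * J⌋₊ : ℝ) - s l := Nat.cast_sub (hsT l hl)
    have h10 := hsq l
    show ((⌊(bet P c l a w - dT l) * J⌋₊ - s l : ℕ) : ℝ) ≤ (bet P c l a w - ε) * J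
    rw [h8]
    linarith
  · have h5 := l5 i (by omega)
    simp only [hz1 i hi] at h5
    exact (h5.sub s53).mono le_rfl (fun _ => hDD2) le_rfl hE
  · have h5 := m6.sub (κ₁ := 1 / 4 ^ r) (κ₂ := κ) n1 (by
      rw [one_div, inv_mul_le_iff₀ h4]
      exact n2) hκ.le (by
      rw [mul_one_div, le_div_iff₀ h4]
      exact hκb1)
    exact relvF_exp h5 hsη
  · refine ⟨?_, fun y => mixl_pos hRl, fun s => mixl_pos hRl⟩
    show mixl R (fun l => ⌊b l * J⌋₊ + v) _ l - s l = _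
    rw [mixl_pos hRl]
  · refine (hN.pos ω (s31 ω (s53 ω hω)) r (Nat.lt_succ_self r)).trans ?_
    show 1 / 2 ^ ⌊(lvN P c r Pt r a w - dN r) * J⌋₊ ≤ _
    rw [← hgN]
    have h5 := hdiv (y := 0) (n := gN) (k := ⌊p' * J⌋₊) (by omega)
    rw [pow_zero] at h5
    exact h5
  · refine (m5 ω (n1 ω hω) b hb).trans ?_
    show 2 ^ s r / 2 ^ ⌊(lvN P c r Pt r a w - dN r) * J⌋₊ ≤ _
    rw [← hgN]
    exact hdiv hsp

/-! ### Finitely many windows -/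

/-- **The data of a window** `w`, for the radius `a`. `R`: the rough coordinates. -/
structure WinD {m : ℕ} (S : PCl m) (P : List (Fin m) × Fin m → ℝ → ℝ → ℝ) (θ : ℝ)
    (c : ℕ → Fin m) (r : ℕ) (Pt : ℝ → ℝ → ℝ) (a w : ℝ) (S₀ : ℕ) (Eb ε : ℝ) (R : ℕ → Prop) :
    Prop where
  lt : w < a
  dw : ∃ (ρ : ℝ) (vs e e₀ E sg : ℝ → ℝ) (Q : Set ℝ),
    PtD S P θ c r Pt w w ρ S₀ vs e e₀ E sg Q ∧ E 0 ≤ Eb
  da : ∃ (ρ : ℝ) (vs e e₀ E sg : ℝ → ℝ) (Q : Set ℝ),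
    PtD S P θ c r Pt a w ρ S₀ vs e e₀ E sg Q ∧ E 0 ≤ Eb ∧ e₀ 0 ≤ Eb
  ε0 : 0 ≤ ε
  rgh : ∀ l < r, R l → bet P c l a w ≤ bet P c l w w + (a - w) + ε
  top : ∀ l ≤ r, lvN P c r Pt l w w + Eb + (a - w) < 1

/-- **The event at one window**, with all the objects. -/
def EvX {m J : ℕ} (F : Fam m J) (c : ℕ → Fin m) (r D Dr w' v M : ℕ) (z : ℕ → ℕ)
    (e h p : ℕ) (R : ℕ → Prop) (g : ℕ → ℕ) (lv bt : ℕ → ℝ) (σ ε η κ : ℝ) (B : F.Ω → Prop) :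
    Prop :=
  ∃ (gc gT g₀ : ℕ → ℕ) (G₀ : PtT F → ℕ → MvPolynomial (Option (Fin m)) ℝ)
    (H₀ : LnT F → ℕ → MvPolynomial (Option (Fin m)) ℝ)
    (T : PtT F → ℕ → MvPolynomial (Option (Fin m)) ℝ)
    (TH : LnT F → ℕ → MvPolynomial (Option (Fin m)) ℝ)
    (Gt : PtT F → MvPolynomial (Option (Fin m)) ℝ)
    (Ht : LnT F → MvPolynomial (Option (Fin m)) ℝ), Sds r J v R lv bt σ ε η gc gT g₀ ∧
    EvS F c r D Dr w' v M z e h p R g gc gT g₀ κ B G₀ H₀ T TH Gt Ht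

/-- **Finitely many windows on one event**, with one radius `a`. The losses depend on the window. -/
theorem ev_con (m r S₀ : ℕ) (hr : 1 ≤ r) (hS₀ : 1 ≤ S₀) : ∃ D : ℕ, 1 ≤ D ∧ ∀ Dr : ℕ, ∃ C : ℝ,
    1 ≤ C ∧ ∀ {S : PCl m} {P : List (Fin m) × Fin m → ℝ → ℝ → ℝ} {θ : ℝ} {c : ℕ → Fin m}
    {Pt : ℝ → ℝ → ℝ} {R : ℕ → Prop} {a Eb : ℝ} {o ε p' η σ r₀ : ℕ → ℝ} (N M : ℕ),
    ThrOf (chsys m θ) S P → 0 < θ → TmH S → Set.InjOn c (Set.Iio (r + 1)) → Law Pt →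
    (∀ k ≤ N, WinD S P θ c r Pt a (o k) S₀ Eb (ε k) R) →
    (∀ k ≤ N, C * ε k < o k ∧ C * ε k < η k) →
    (∀ k ≤ N, 0 ≤ p' k ∧ p' k + C * ε k < Pt a (o k)) → (∀ k ≤ N, 0 < σ k ∧ 0 < r₀ k) →
    ∃ (K₁ : ℝ) (μ : ℕ → ℝ) (b : ℕ → ℕ → ℝ), 0 < K₁ ∧ (∀ k ≤ N, 0 < μ k ∧ ∀ l ≤ r,
        lvN P c r Pt l (o k) (o k) - σ k < b k l ∧
        b k l < lvN P c r Pt l (o k) (o k) - μ k) ∧
      ∀ κ : ℝ, 0 < κ → Bas S (fun J F A => ∀ z : ℕ → ℕ → ℕ,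
        (∀ k ≤ N, ∀ i ≤ M, r₀ k * J ≤ z k i ∧ z k i ≤ ⌊a * J⌋₊ - ⌊o k * J⌋₊) →
        ∃ B : F.Ω → Prop, Sub B A ∧ Pe F.p A ≤ K₁ * Pe F.p B ∧ ∀ k ≤ N,
          EvX F c r D Dr ⌊o k * J⌋₊ (⌊a * J⌋₊ - ⌊o k * J⌋₊) M (z k)
            ⌊(Eb + σ k + η k) * J⌋₊ ⌊η k * J⌋₊ ⌊p' k * J⌋₊ R (fun l => ⌊b k l * J⌋₊)
            (fun l => lvN P c r Pt l (o k) (o k)) (fun l => bet P c l a (o k)) (σ k) (ε k) (η k)
            κ B) := by
  obtain ⟨D, hD, hwin⟩ := ev_win m r S₀ hr hS₀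
  refine ⟨D, hD, fun Dr => ?_⟩
  obtain ⟨C, hC, hwin⟩ := hwin Dr
  refine ⟨C, hC, ?_⟩
  intro S P θ c Pt R a Eb o ε p' η σ r₀ N M hP hθ hS hinj hPt hW hε hp' hσ
  -- one window
  have h1 : ∀ k, ∃ (K₁ μ : ℝ) (b : ℕ → ℝ), k ≤ N → 0 < K₁ ∧ 0 < μ ∧
      (∀ l ≤ r, lvN P c r Pt l (o k) (o k) - σ k < b l ∧
        b l < lvN P c r Pt l (o k) (o k) - μ) ∧
      ∀ κ : ℝ, 0 < κ → Bas S (fun J F A => ∀ z : ℕ → ℕ,
        (∀ i ≤ M, r₀ k * J ≤ z i ∧ z i ≤ ⌊a * J⌋₊ - ⌊o k * J⌋₊) →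
        ∃ B : F.Ω → Prop, Sub B A ∧ Pe F.p A ≤ K₁ * Pe F.p B ∧
          EvX F c r D Dr ⌊o k * J⌋₊ (⌊a * J⌋₊ - ⌊o k * J⌋₊) M z
            ⌊(Eb + σ k + η k) * J⌋₊ ⌊η k * J⌋₊ ⌊p' k * J⌋₊ R (fun l => ⌊b l * J⌋₊)
            (fun l => lvN P c r Pt l (o k) (o k)) (fun l => bet P c l a (o k)) (σ k) (ε k) (η k)
            κ B) := by
    intro k
    by_cases hk : k ≤ N
    · obtain ⟨ρ, vs, e, e₀, E, sg, Q, d1, d2⟩ := (hW k hk).dw
      obtain ⟨ρ', vs', e', e₀', E', sg', Q', d3, d4, d5⟩ := (hW k hk).da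
      obtain ⟨K₁, μ, b, k1, k2, k3, k4⟩ := hwin (R := R) hP hθ hS hinj hPt (hW k hk).lt d1 d3 d2
        d4 d5 (hW k hk).ε0 (hW k hk).rgh (fun l hl => by
          have := (hW k hk).top l hl
          linarith) (hε k hk).1 (p' k) (hp' k hk).1 (hp' k hk).2 (η k) (σ k) (r₀ k) M
        (hε k hk).2 (hσ k hk).1 (hσ k hk).2
      refine ⟨K₁, μ, b, fun _ => ⟨k1, k2, k3, fun κ hκ => (k4 κ hκ).mono 0 ?_⟩⟩
      rintro J - F A hA z hz
      obtain ⟨B, gc, gT, g₀, G₀, H₀, T, TH, Gt, Ht, l1, l2, l3, l4⟩ := hA z hz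
      exact ⟨B, l1, l2, gc, gT, g₀, G₀, H₀, T, TH, Gt, Ht, l3, l4⟩
    · exact ⟨0, 0, fun _ => 0, fun h => absurd h hk⟩
  choose K₁ μ b hb using h1
  -- all windows
  have h2 : ∀ n ≤ N, ∃ K : ℝ, 0 < K ∧ ∀ κ : ℝ, 0 < κ → Bas S (fun J F A => ∀ z : ℕ → ℕ → ℕ,
        (∀ k ≤ N, ∀ i ≤ M, r₀ k * J ≤ z k i ∧ z k i ≤ ⌊a * J⌋₊ - ⌊o k * J⌋₊) →
        ∃ B : F.Ω → Prop, Sub B A ∧ Pe F.p A ≤ K * Pe F.p B ∧ ∀ k ≤ n,
          EvX F c r D Dr ⌊o k * J⌋₊ (⌊a * J⌋₊ - ⌊o k * J⌋₊) M (z k)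
            ⌊(Eb + σ k + η k) * J⌋₊ ⌊η k * J⌋₊ ⌊p' k * J⌋₊ R (fun l => ⌊b k l * J⌋₊)
            (fun l => lvN P c r Pt l (o k) (o k)) (fun l => bet P c l a (o k)) (σ k) (ε k) (η k)
            κ B) := by
    intro n
    induction n with
    | zero =>
      intro _
      obtain ⟨k1, -, -, k4⟩ := hb 0 (Nat.zero_le N)
      refine ⟨K₁ 0, k1, fun κ hκ => (k4 κ hκ).mono 0 ?_⟩
      rintro J - F A hA z hz
      obtain ⟨B, l1, l2, l3⟩ := hA (z 0) (hz 0 (Nat.zero_le N))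
      exact ⟨B, l1, l2, fun k hk => by rw [Nat.le_zero.1 hk]; exact l3⟩
    | succ n ih =>
      intro hn
      obtain ⟨K, hK, hA⟩ := ih (by omega)
      obtain ⟨k1, -, -, k4⟩ := hb (n + 1) hn
      refine ⟨K * K₁ (n + 1), mul_pos hK k1, fun κ hκ => ?_⟩
      have h3 := hA (κ / K₁ (n + 1)) (div_pos hκ k1)
      have h4 := bas_ev (k4 κ hκ) (κ := 1 / K) (by positivity)
      refine Bas.mono 0 (h3.and h4) ?_
      rintro J - F A ⟨h5, h6⟩ z hz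
      obtain ⟨B, l1, l2, l3⟩ := h5 z hz
      obtain ⟨B', m1, m2, m3⟩ := h6 B l1 (by
        rw [one_div, inv_mul_le_iff₀ hK]
        exact l2) (z (n + 1)) (hz (n + 1) hn)
      refine ⟨B', fun ω hω => l1 ω (m1 ω hω), ?_, fun k hk => ?_⟩
      · calc Pe F.p A ≤ K * Pe F.p B := l2
          _ ≤ K * (K₁ (n + 1) * Pe F.p B') := mul_le_mul_of_nonneg_left m2 hK.le
          _ = _ := by ring
      · rcases Nat.lt_or_ge n k with h7 | h7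
        · have h8 : k = n + 1 := by omega
          subst h8
          exact m3
        · obtain ⟨gc, gT, g₀, G₀, H₀, T, TH, Gt, Ht, n1, n2⟩ := l3 k h7
          refine ⟨gc, gT, g₀, G₀, H₀, T, TH, Gt, Ht, n1, n2.sub (κ₁ := 1 / K₁ (n + 1)) m1 ?_
            hκ.le (le_of_eq ?_)⟩
          · rw [one_div, inv_mul_le_iff₀ k1]
            exact m2
          · rw [mul_one_div]
  obtain ⟨K, hK, hA⟩ := h2 N le_rfl
  exact ⟨K, μ, b, hK, fun k hk => ⟨(hb k hk).2.1, (hb k hk).2.2.1⟩, hA⟩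

end Pool.ISO
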