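import Pool.Agent.H2.GEN.EvC

/-!
# Uniform growth backwards

`mx_mono`: the maximal inequality for monotone functions. `bk_max`: near a window where the diagonal
of a law grows at most linearly, for all small depths `s` and all `0 ≤ x ≤ y ≤ s`, the growth
backwards at `(w + y, w + x)` is at most linear, with uniform constants, for all `w` near the window
outside a set of measure `τ s`. `Fac.ptD_unif`: the data `PtD` at these pairs, uniform constants.
-/

set_option autoImplicit false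

namespace Pool.ISO

open Finset Real MeasureTheory

/-! ### The maximal inequality -/

/-- The growth of a monotone function over disjoint intervals. -/
theorem sum_growth {f : ℝ → ℝ} {x₀ : ℝ} {κ : ℝ → ℝ} (s : Finset ℝ) :
    ∀ y : ℝ, MonotoneOn f (Set.Icc x₀ y) → x₀ ≤ y →
    (∀ b ∈ s, 0 ≤ κ b ∧ x₀ ≤ b - κ b ∧ b ≤ y) →
    ((s : Set ℝ).PairwiseDisjoint fun b => Set.Icc (b - κ b) b) →
    ∑ b ∈ s, (f b - f (b - κ b)) ≤ f y - f x₀ := by
  classical
  induction s using Finset.induction_on_max with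
  | empty =>
    intro y hf hxy _ _
    rw [Finset.sum_empty]
    have := hf (Set.left_mem_Icc.2 hxy) (Set.right_mem_Icc.2 hxy) hxy
    linarith
  | insert b s hmax ih =>
    intro y hf hxy hs hd
    have hb := hs b (Finset.mem_insert_self b s)
    have hnb : b ∉ s := fun h => lt_irrefl b (hmax b h)
    rw [Finset.sum_insert hnb]
    have h1 := ih (b - κ b) (hf.mono (Set.Icc_subset_Icc_right (by linarith))) hb.2.1
      (fun b' hb' => by
        have h2 := hs b' (Finset.mem_insert_of_mem hb')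
        refine ⟨h2.1, h2.2.1, ?_⟩
        by_contra hcon
        push Not at hcon
        have h3 := hd (Finset.mem_coe.2 (Finset.mem_insert_self b s))
          (Finset.mem_coe.2 (Finset.mem_insert_of_mem hb')) (by
            intro h
            exact hnb (h ▸ hb'))
        have h4 : Disjoint (Set.Icc (b - κ b) b) (Set.Icc (b' - κ b') b') := h3
        have h5 : b' ∈ Set.Icc (b - κ b) b := ⟨hcon.le, (hmax b' hb').le⟩
        exact Set.disjoint_left.1 h4 h5 ⟨by linarith [h2.1], le_rfl⟩)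
      (hd.subset (by
        rw [Finset.coe_insert]
        exact Set.subset_insert _ _))
    have h2 := hf (a := b) (b := y) ⟨by linarith, hb.2.2⟩ (Set.right_mem_Icc.2 hxy) hb.2.2
    linarith

/-- **The maximal inequality.** -/
theorem mx_mono {f : ℝ → ℝ} {x₀ x y N κ₀ : ℝ} (hf : MonotoneOn f (Set.Icc x₀ y)) (hN : 0 < N)
    (hκ₀ : 0 ≤ κ₀) (hx : x₀ ≤ x - κ₀) (hxy : x ≤ y) :
    volume {w : ℝ | (x ≤ w ∧ w ≤ y) ∧ ∃ κ : ℝ, 0 < κ ∧ κ ≤ κ₀ ∧ N * κ < f w - f (w - κ)} ≤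
      ENNReal.ofReal (4 * (f y - f x₀) / N) := by
  classical
  obtain ⟨T, hT⟩ : ∃ T : Set ℝ, T = {w : ℝ | (x ≤ w ∧ w ≤ y) ∧ ∃ κ : ℝ, 0 < κ ∧ κ ≤ κ₀ ∧
    N * κ < f w - f (w - κ)} := ⟨_, rfl⟩
  rw [← hT]
  have h1 : ∀ w, ∃ κ : ℝ, w ∈ T → (x ≤ w ∧ w ≤ y) ∧ 0 < κ ∧ κ ≤ κ₀ ∧ N * κ < f w - f (w - κ) := by
    intro w
    by_cases hw : w ∈ T
    · have h2 := hw
      rw [hT] at h2
      obtain ⟨h3, κ, h4, h5, h6⟩ := h2
      exact ⟨κ, fun _ => ⟨h3, h4, h5, h6⟩⟩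
    · exact ⟨0, fun h => absurd h hw⟩
  choose κ hκ using h1
  have hball : ∀ w, Metric.closedBall (w - κ w / 2) (κ w / 2) = Set.Icc (w - κ w) w := fun w => by
    rw [Real.closedBall_eq_Icc]
    congr 1 <;> ring
  obtain ⟨u, huT, hud, hucov⟩ := Vitali.exists_disjoint_subfamily_covering_enlargement_closedBall
    T (fun w => w - κ w / 2) (fun w => κ w / 2) (κ₀ / 2) (fun w hw => by
      have := (hκ w hw).2.2.1
      show κ w / 2 ≤ κ₀ / 2
      linarith) 4 (by norm_num)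
  have hud' : u.PairwiseDisjoint fun w => Set.Icc (w - κ w) w := by
    intro a ha b hb hab
    have h2 := hud ha hb hab
    simp only [Function.onFun] at h2 ⊢
    rw [hball, hball] at h2
    exact h2
  have hucount : u.Countable := hud'.countable_of_nonempty_interior fun w hw => by
    rw [interior_Icc]
    exact Set.nonempty_Ioo.2 (by linarith [(hκ w (huT hw)).2.1])
  have hxy0 : x₀ ≤ y := by linarith
  -- finite sums
  have hfin : ∀ s : Finset ℝ, (s : Set ℝ) ⊆ u → ∑ b ∈ s, κ b ≤ (f y - f x₀) / N := by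
    intro s hs
    have h2 := sum_growth (κ := κ) s y hf hxy0 (fun b hb => by
      have h3 := hκ b (huT (hs hb))
      exact ⟨h3.2.1.le, by linarith [h3.1.1, h3.2.2.1], h3.1.2⟩) (hud'.subset hs)
    rw [le_div_iff₀ hN, Finset.sum_mul]
    refine le_trans (Finset.sum_le_sum fun b hb => ?_) h2
    have h3 := hκ b (huT (hs hb))
    rw [mul_comm]
    exact h3.2.2.2.le
  have hfy : 0 ≤ f y - f x₀ := by
    have := hf (Set.left_mem_Icc.2 hxy0) (Set.right_mem_Icc.2 hxy0) hxy0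
    linarith
  -- the cover
  have hcov : T ⊆ ⋃ b ∈ u, Metric.closedBall (b - κ b / 2) (4 * (κ b / 2)) := by
    intro w hw
    obtain ⟨b, hb, h2⟩ := hucov w hw
    refine Set.mem_iUnion₂.2 ⟨b, hb, h2 ?_⟩
    show w ∈ Metric.closedBall (w - κ w / 2) (κ w / 2)
    rw [hball]
    exact ⟨by linarith [(hκ w hw).2.1], le_rfl⟩
  calc volume T ≤ volume (⋃ b ∈ u, Metric.closedBall (b - κ b / 2) (4 * (κ b / 2))) :=
        measure_mono hcov
    _ ≤ ∑' b : u, volume (Metric.closedBall ((b : ℝ) - κ b / 2) (4 * (κ b / 2))) :=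
        measure_biUnion_le volume hucount _
    _ = ∑' b : u, ENNReal.ofReal (4 * κ b) := by
        refine tsum_congr fun b => ?_
        rw [Real.volume_closedBall]
        congr 1
        ring
    _ ≤ ENNReal.ofReal (4 * (f y - f x₀) / N) := by
        rw [ENNReal.tsum_eq_iSup_sum]
        refine iSup_le fun s => ?_
        rw [← ENNReal.ofReal_sum_of_nonneg fun b _ => by
          have := (hκ b (huT b.2)).2.1
          positivity]
        refine ENNReal.ofReal_le_ofReal ?_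
        have h2 := hfin (s.map ⟨Subtype.val, Subtype.val_injective⟩) (by
          intro b hb
          obtain ⟨b', -, rfl⟩ := Finset.mem_map.1 (Finset.mem_coe.1 hb)
          exact b'.2)
        rw [Finset.sum_map] at h2
        rw [← Finset.mul_sum, mul_div_assoc]
        exact mul_le_mul_of_nonneg_left h2 (by norm_num)

/-! ### Two variables -/

open Pool.LEV (Law)

/-- **Uniform growth backwards** near a window where the diagonal grows at most linearly. -/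
theorem bk_max {f : ℝ → ℝ → ℝ} (hf : Law f) {g V t₀ : ℝ} (hg : 0 < g) (hg1 : g < 1) (hV : 0 ≤ V)
    (ht₀ : 0 < t₀) (hD : ∀ t : ℝ, |t| < t₀ → |f (g + t) (g + t) - f g g| ≤ V * |t|) {c τ : ℝ}
    (hc : 0 ≤ c) (hτ : 0 < τ) : ∃ N s₀ ρ : ℝ, 0 < N ∧ 0 < s₀ ∧ 0 < ρ ∧ (c + 1) * s₀ + ρ < g ∧
      g + (c + 1) * s₀ < 1 ∧ ∀ s x y : ℝ, 0 < s → s < s₀ → 0 ≤ x → x ≤ y → y ≤ s →
      volume {w : ℝ | |w - g| ≤ c * s ∧ ¬ ∀ κ : ℝ, 0 ≤ κ → κ ≤ ρ →
        f (w + y) (w + x) ≤ f (w + y - κ) (w + x - κ) + N * κ} ≤ ENNReal.ofReal (τ * s) := by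
  obtain ⟨N, hN⟩ : ∃ N, N = V * (2 * c + 3) + 8 * V * (c + 1) / τ + 1 := ⟨_, rfl⟩
  have hN0 : 0 < N := by rw [hN]; positivity
  have hN1 : V * (2 * c + 3) ≤ N := by
    have : 0 ≤ 8 * V * (c + 1) / τ := by positivity
    linarith
  have hN2 : 4 * (2 * (V * (c + 1))) / N ≤ τ := by
    rw [div_le_iff₀ hN0, hN]
    have h1 : τ * (V * (2 * c + 3) + 8 * V * (c + 1) / τ + 1) =
        τ * (V * (2 * c + 3)) + 8 * V * (c + 1) + τ := by
      field_simp
    rw [h1]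
    have : 0 ≤ τ * (V * (2 * c + 3)) := by positivity
    linarith
  obtain ⟨M, hM⟩ : ∃ M, M = min t₀ (min g (1 - g)) := ⟨_, rfl⟩
  have hM0 : 0 < M := by
    rw [hM]
    exact lt_min ht₀ (lt_min hg (by linarith))
  have m1 : M ≤ t₀ := by rw [hM]; exact min_le_left _ _
  have m2 : M ≤ g := by rw [hM]; exact (min_le_right _ _).trans (min_le_left _ _)
  have m3 : M ≤ 1 - g := by rw [hM]; exact (min_le_right _ _).trans (min_le_right _ _)
  obtain ⟨s₀, hs₀⟩ : ∃ s₀, s₀ = M / (4 * (c + 1)) := ⟨_, rfl⟩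
  have hs0 : 0 < s₀ := by rw [hs₀]; positivity
  have hcs : (c + 1) * s₀ = M / 4 := by
    rw [hs₀]
    field_simp
  refine ⟨N, s₀, M / 4, hN0, hs0, by linarith, by linarith, by linarith,
    fun s x y hs hss hx hxy hys => ?_⟩
  have hcs' : (c + 1) * s < M / 4 := by
    rw [← hcs]
    exact mul_lt_mul_of_pos_left hss (by linarith)
  have hc0 : 0 ≤ c * s := by positivity
  have ecs : (c + 1) * s = c * s + s := by ring
  rw [ecs] at hcs'
  -- the diagonal
  have hdia : ∀ t u : ℝ, |t| ≤ M / 2 → |u| ≤ M / 2 →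
      f (g + t) (g + t) - f (g + u) (g + u) ≤ V * |t| + V * |u| := by
    intro t u ht hu
    have h1 := (abs_le.1 (hD t (by linarith))).2
    have h2 := (abs_le.1 (hD u (by linarith))).1
    linarith
  -- the function on the line
  obtain ⟨h, hh⟩ : ∃ h : ℝ → ℝ, h = fun w => f (w + y) (w + x) := ⟨_, rfl⟩
  have hmon : MonotoneOn h (Set.Icc (g - c * s - s) (g + c * s)) := by
    intro a ha b hb hab
    rw [hh]
    exact hf.mono (by linarith [ha.1]) (by linarith) (by linarith) (by linarith) (by linarith)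
      (by linarith [hb.2])
  have hup : ∀ w, |w - g| ≤ c * s + s + M / 4 → h w ≤ f (w + y) (w + y) := fun w hw => by
    rw [hh]
    have := abs_le.1 hw
    exact hf.mono_w _ _ _ (by linarith) (by linarith) le_rfl (by linarith)
  have hlo : ∀ w, |w - g| ≤ c * s + s + M / 4 → f (w + x) (w + x) ≤ h w := fun w hw => by
    rw [hh]
    have := abs_le.1 hw
    exact hf.mono_a _ _ _ (by linarith) le_rfl (by linarith) (by linarith)
  -- two windows
  have hgr : ∀ w κ : ℝ, |w - g| ≤ c * s → 0 ≤ κ → κ ≤ M / 4 →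
      h w - h (w - κ) ≤ V * (2 * (c * s) + s + κ + s) := by
    intro w κ hw hκ hκ'
    have hw' := abs_le.1 hw
    have h1 := hup w (by linarith)
    have h2 := hlo (w - κ) (by
      rw [abs_le]
      constructor <;> linarith)
    have h3 := hdia (w + y - g) (w - κ + x - g) (by
      rw [abs_le]
      constructor <;> linarith) (by
      rw [abs_le]
      constructor <;> linarith)
    have e1 : g + (w + y - g) = w + y := by ring
    have e2 : g + (w - κ + x - g) = w - κ + x := by ring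
    rw [e1, e2] at h3
    have h4 : |w + y - g| ≤ c * s + s := by
      rw [abs_le]
      constructor <;> linarith
    have h5 : |w - κ + x - g| ≤ c * s + κ + s := by
      rw [abs_le]
      constructor <;> linarith
    have h6 := mul_le_mul_of_nonneg_left h4 hV
    have h7 := mul_le_mul_of_nonneg_left h5 hV
    have e3 : V * (2 * (c * s) + s + κ + s) = V * (c * s + s) + V * (c * s + κ + s) := by ring
    linarith
  have hmx := mx_mono (κ₀ := s) hmon hN0 hs.le (x := g - c * s) le_rfl (by linarith)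
  refine (measure_mono ?_).trans (hmx.trans (ENNReal.ofReal_le_ofReal ?_))
  · rintro w ⟨hw, hnot⟩
    have hw' := abs_le.1 hw
    refine ⟨⟨by linarith, by linarith⟩, ?_⟩
    push Not at hnot
    obtain ⟨κ, k1, k2, k3⟩ := hnot
    have k4 : N * κ < h w - h (w - κ) := by
      rw [hh]
      show N * κ < f (w + y) (w + x) - f (w - κ + y) (w - κ + x)
      have e1 : w - κ + y = w + y - κ := by ring
      have e2 : w - κ + x = w + x - κ := by ring
      rw [e1, e2]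
      linarith
    have k5 : 0 < κ := by
      rcases k1.lt_or_eq with h1 | h1
      · exact h1
      · exfalso
        rw [← h1, mul_zero, sub_zero] at k4
        linarith
    refine ⟨κ, k5, ?_, k4⟩
    by_contra hcon
    push Not at hcon
    have h1 := hgr w κ hw k1 k2
    have h2 : V * (2 * (c * s) + s + κ + s) ≤ V * (2 * c + 3) * κ := by
      have h3 : 2 * (c * s) + s + κ + s ≤ (2 * c + 2) * κ + κ := by
        have : (2 * c + 2) * s ≤ (2 * c + 2) * κ := mul_le_mul_of_nonneg_left hcon.le (by linarith)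
        linarith
      calc V * (2 * (c * s) + s + κ + s) ≤ V * ((2 * c + 2) * κ + κ) :=
            mul_le_mul_of_nonneg_left h3 hV
        _ = _ := by ring
    have h3 := mul_le_mul_of_nonneg_right hN1 k1
    linarith
  · have h1 := hup (g + c * s) (by
      rw [add_sub_cancel_left, abs_of_nonneg hc0]
      linarith)
    have h2 := hlo (g - c * s - s) (by
      rw [abs_le]
      constructor <;> linarith)
    have h3 := hdia (c * s + y) (-(c * s) - s + x) (by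
      rw [abs_le]
      constructor <;> linarith) (by
      rw [abs_le]
      constructor <;> linarith)
    have e1 : g + (c * s + y) = g + c * s + y := by ring
    have e2 : g + (-(c * s) - s + x) = g - c * s - s + x := by ring
    rw [e1, e2] at h3
    have h4 : |c * s + y| ≤ c * s + s := by
      rw [abs_le]
      constructor <;> linarith
    have h5 : |-(c * s) - s + x| ≤ c * s + s := by
      rw [abs_le]
      constructor <;> linarith
    have h6 := mul_le_mul_of_nonneg_left h4 hV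
    have h7 := mul_le_mul_of_nonneg_left h5 hV
    have h8 : h (g + c * s) - h (g - c * s - s) ≤ 2 * (V * (c + 1)) * s := by
      have e3 : 2 * (V * (c + 1)) * s = V * (c * s + s) + V * (c * s + s) := by ring
      linarith
    calc 4 * (h (g + c * s) - h (g - c * s - s)) / N ≤ 4 * (2 * (V * (c + 1)) * s) / N :=
          div_le_div_of_nonneg_right (mul_le_mul_of_nonneg_left h8 (by norm_num)) hN0.le
      _ = 4 * (2 * (V * (c + 1))) / N * s := by ring
      _ ≤ τ * s := mul_le_mul_of_nonneg_right hN2 hs.le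

/-- **Uniform growth backwards**, finitely many laws. -/
theorem bk_maxn {f : ℕ → ℝ → ℝ → ℝ} {g : ℝ} (hg : 0 < g) (hg1 : g < 1) {c : ℝ} (hc : 0 ≤ c) :
    ∀ (n : ℕ), (∀ l < n, Law (f l)) → (∀ l < n, ∃ V t₀ : ℝ, 0 ≤ V ∧ 0 < t₀ ∧
      ∀ t : ℝ, |t| < t₀ → |f l (g + t) (g + t) - f l g g| ≤ V * |t|) → ∀ τ : ℝ, 0 < τ →
    ∃ N s₀ ρ : ℝ, 0 < N ∧ 0 < s₀ ∧ 0 < ρ ∧ (c + 1) * s₀ + ρ < g ∧
      g + (c + 1) * s₀ < 1 ∧ ∀ s x y : ℝ, 0 < s → s < s₀ → 0 ≤ x → x ≤ y → y ≤ s →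
      volume {w : ℝ | |w - g| ≤ c * s ∧ ¬ ∀ l < n, ∀ κ : ℝ, 0 ≤ κ → κ ≤ ρ →
        f l (w + y) (w + x) ≤ f l (w + y - κ) (w + x - κ) + N * κ} ≤ ENNReal.ofReal (τ * s) := by
  intro n
  induction n with
  | zero =>
    intro _ _ τ hτ
    obtain ⟨M, hM⟩ : ∃ M, M = min g (1 - g) := ⟨_, rfl⟩
    have hM0 : 0 < M := by
      rw [hM]
      exact lt_min hg (by linarith)
    have m2 : M ≤ g := by rw [hM]; exact min_le_left _ _
    have m3 : M ≤ 1 - g := by rw [hM]; exact min_le_right _ _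
    have hcs : (c + 1) * (M / (4 * (c + 1))) = M / 4 := by field_simp
    refine ⟨1, M / (4 * (c + 1)), M / 4, one_pos, by positivity, by linarith, by linarith,
      by linarith, fun s x y _ _ _ _ _ => ?_⟩
    have h1 : {w : ℝ | |w - g| ≤ c * s ∧ ¬ ∀ l < 0, ∀ κ : ℝ, 0 ≤ κ → κ ≤ M / 4 →
        f l (w + y) (w + x) ≤ f l (w + y - κ) (w + x - κ) + 1 * κ} = ∅ := by
      rw [Set.eq_empty_iff_forall_notMem]
      rintro w ⟨-, h2⟩
      exact h2 fun l hl => absurd hl (Nat.not_lt_zero l)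
    rw [h1, measure_empty]
    exact zero_le
  | succ n ih =>
    intro hf hD τ hτ
    obtain ⟨N, s₀, ρ, h1, h2, h3, h4, h5, h6⟩ := ih (fun l hl => hf l (by omega))
      (fun l hl => hD l (by omega)) (τ / 2) (by linarith)
    obtain ⟨V, t₀, hV, ht₀, hd⟩ := hD n (Nat.lt_succ_self n)
    obtain ⟨N', s₀', ρ', k1, k2, k3, k4, k5, k6⟩ := bk_max (hf n (Nat.lt_succ_self n)) hg hg1 hV ht₀
      hd hc (show 0 < τ / 2 by linarith)
    have e1 : (c + 1) * min s₀ s₀' ≤ (c + 1) * s₀ :=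
      mul_le_mul_of_nonneg_left (min_le_left _ _) (by linarith)
    refine ⟨max N N', min s₀ s₀', min ρ ρ', lt_max_of_lt_left h1, lt_min h2 k2, lt_min h3 k3,
      by linarith [min_le_left ρ ρ'], by linarith, fun s x y hs hss hx hxy hys => ?_⟩
    have h7 := h6 s x y hs (hss.trans_le (min_le_left _ _)) hx hxy hys
    have h8 := k6 s x y hs (hss.trans_le (min_le_right _ _)) hx hxy hys
    have e2 : τ * s = τ / 2 * s + τ / 2 * s := by ring
    rw [e2, ENNReal.ofReal_add (by positivity) (by positivity)]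
    refine (measure_mono ?_).trans ((measure_union_le _ _).trans (add_le_add h7 h8))
    rintro w ⟨hw, hnot⟩
    by_contra hcon
    rw [Set.mem_union, not_or] at hcon
    obtain ⟨c1, c2⟩ := hcon
    simp only [Set.mem_ofPred_eq, not_and, not_not] at c1 c2
    refine hnot fun l hl κ hκ hκρ => ?_
    rcases Nat.lt_or_ge l n with h9 | h9
    · have h10 := c1 hw l h9 κ hκ (hκρ.trans (min_le_left _ _))
      have h11 := mul_le_mul_of_nonneg_right (le_max_left N N') hκ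
      linarith
    · have h10 : l = n := by omega
      subst h10
      have h11 := c2 hw κ hκ (hκρ.trans (min_le_right _ _))
      have h12 := mul_le_mul_of_nonneg_right (le_max_right N N') hκ
      linarith

/-! ### The data of the paths -/

open Pool.Agent.H49.Ent Pool.Agent.H32.Dense Pool.STK Pool.KA Pool.KSAT Pool.K2S Pool.PB Pool.S6C
open Pool.GEN Pool.CHT Pool.CHX
open Pool.LBT (LSys Slo Tri ThrOf fl_le' bas_false)
open Pool.JTN (TgP Cen mod_all)
open Pool.FRN (AttC UpA Wgd attN_attC law_diag)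
open Pool.STR (AttN)

/-- **The data of a path** with given constants. -/
theorem ptD_mk {m : ℕ} {S : PCl m} {P : List (Fin m) × Fin m → ℝ → ℝ → ℝ} {θ : ℝ}
    {c : ℕ → Fin m} {r : ℕ} {Pt : ℝ → ℝ → ℝ} {x vs e E sg ρ₀ : ℝ} {Att : Set (ℝ × ℝ)}
    (hAN : AttN Att) (hx : ρ₀ < x) (hx1 : x + ρ₀ < 1)
    (hpt : ∀ a w, (a, w) ∈ Att → 0 < w → w ≤ a → a < 1 →
      |a - x| ≤ ρ₀ → |w - x| ≤ ρ₀ → PtN S P θ c r Pt a w vs e e E sg) {a w ρ : ℝ} {S₀ : ℕ}
    (haw : (a, w) ∈ Att) (hwa : w ≤ a) (ha : |a - x| ≤ ρ₀ / 2) (hw : |w - x| ≤ ρ₀ / 2)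
    (hρ : 0 < ρ) (hρ1 : ρ ≤ ρ₀ / 2) (hg : ∀ l ≤ r, ∀ κ : ℝ, 0 ≤ κ → κ ≤ ρ →
      lvN P c r Pt l a w ≤ lvN P c r Pt l (a - κ) (w - κ) + S₀ * κ) (hS₀ : 2 ≤ S₀ * ρ) :
    PtD S P θ c r Pt a w ρ S₀ (fun _ => vs) (fun _ => e) (fun _ => e) (fun _ => E)
        (fun _ => sg) {κ | (a - κ, w - κ) ∈ Att} := by
  have ha' := abs_le.1 ha
  have hw' := abs_le.1 hw
  refine ⟨hρ, by linarith, hwa, by linarith, ?_, fun y z hy hyz hz => ?_,
    fun κ h2 h3 h4 => ?_, fun κ h2 h3 h4 l hl => hg l hl κ h3 h4, hS₀⟩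
  · show (a - 0, w - 0) ∈ Att
    rw [sub_zero, sub_zero]
    exact haw
  · have h2 := hAN a w hwa
    obtain ⟨t, h3, h4⟩ := (Measure.dense_of_ae h2).exists_between (neg_lt_neg hyz)
    have h5 := h3 (by linarith [h4.1]) (by linarith [h4.2])
    refine ⟨-t, ?_, by linarith [h4.2], by linarith [h4.1]⟩
    show (a - -t, w - -t) ∈ Att
    rw [sub_neg_eq_add, sub_neg_eq_add]
    exact h5
  · refine hpt _ _ h2 (by linarith) (by linarith) (by linarith) ?_ ?_
    · rw [abs_le]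
      constructor <;> linarith
    · rw [abs_le]
      constructor <;> linarith

/-- **The data of the paths near a centre, with uniform constants.** -/
theorem ptD_maxn {m : ℕ} {S : PCl m} {P : List (Fin m) × Fin m → ℝ → ℝ → ℝ} {θ : ℝ}
    (hP : ThrOf (chsys m θ) S P) {c : ℕ → Fin m} {r : ℕ} {Pt : ℝ → ℝ → ℝ} (hPt : Law Pt)
    {x vs e E sg ρ₀ : ℝ} {Att : Set (ℝ × ℝ)} (hAN : AttN Att) (hρ₀ : 0 < ρ₀) (hx : ρ₀ < x)
    (hx1 : x + ρ₀ < 1)
    (hpt : ∀ a w, (a, w) ∈ Att → 0 < w → w ≤ a → a < 1 →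
      |a - x| ≤ ρ₀ → |w - x| ≤ ρ₀ → PtN S P θ c r Pt a w vs e e E sg)
    (hD : ∀ l ≤ r, ∃ V t₀ : ℝ, 0 ≤ V ∧ 0 < t₀ ∧ ∀ t : ℝ, |t| < t₀ →
      |lvN P c r Pt l (x + t) (x + t) - lvN P c r Pt l x x| ≤ V * |t|) {c₀ τ : ℝ} (hc₀ : 0 ≤ c₀)
    (hτ : 0 < τ) : ∃ (S₀ : ℕ) (s₁ : ℝ), 1 ≤ S₀ ∧ 0 < s₁ ∧ ∀ s u y : ℝ, 0 < s → s < s₁ → 0 ≤ u →
      u ≤ y → y ≤ s → volume {w : ℝ | |w - x| ≤ c₀ * s ∧ ¬ ∃ (ρ : ℝ) (Q : Set ℝ),
        PtD S P θ c r Pt (w + y) (w + u) ρ S₀ (fun _ => vs) (fun _ => e) (fun _ => e)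
          (fun _ => E) (fun _ => sg) Q} ≤ ENNReal.ofReal (τ * s) := by
  obtain ⟨N, s₀, ρ, h1, h2, h3, h4, h5, h6⟩ := bk_maxn (f := fun l => lvN P c r Pt l)
    (show 0 < x by linarith) (show x < 1 by linarith) hc₀ (r + 1) (fun l hl => by
      have h7 : lvN P c r Pt l = if l < r then bet P c l else Pt := by
        funext a w
        unfold lvN
        split_ifs <;> rfl
      rw [h7]
      split_ifs
      · exact hP.law _
      · exact hPt) (fun l hl => hD l (by omega)) τ hτ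
  obtain ⟨ρ₁, hρ₁⟩ : ∃ ρ₁ : ℝ, ρ₁ = min ρ (ρ₀ / 2) := ⟨_, rfl⟩
  have hρ10 : 0 < ρ₁ := by rw [hρ₁]; exact lt_min h3 (by linarith)
  have hρ11 : ρ₁ ≤ ρ := by rw [hρ₁]; exact min_le_left _ _
  have hρ12 : ρ₁ ≤ ρ₀ / 2 := by rw [hρ₁]; exact min_le_right _ _
  obtain ⟨S₀, hS₀⟩ := exists_nat_ge (max N (2 / ρ₁) + 1)
  have hS1 : N ≤ S₀ := by linarith [le_max_left N (2 / ρ₁)]
  have hS2 : 2 / ρ₁ ≤ S₀ := by linarith [le_max_right N (2 / ρ₁)]
  have hS3 : (1 : ℝ) ≤ S₀ := by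
    have : 0 ≤ max N (2 / ρ₁) := h1.le.trans (le_max_left _ _)
    linarith
  rw [div_le_iff₀ hρ10] at hS2
  obtain ⟨s₁, hs₁⟩ : ∃ s₁ : ℝ, s₁ = min s₀ (ρ₀ / (2 * (c₀ + 1))) := ⟨_, rfl⟩
  have hs10 : 0 < s₁ := by rw [hs₁]; exact lt_min h2 (by positivity)
  have hs11 : s₁ ≤ s₀ := by rw [hs₁]; exact min_le_left _ _
  have hs12 : (c₀ + 1) * s₁ ≤ ρ₀ / 2 := by
    have h7 : s₁ ≤ ρ₀ / (2 * (c₀ + 1)) := by rw [hs₁]; exact min_le_right _ _
    rw [le_div_iff₀ (by positivity)] at h7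
    linarith
  refine ⟨S₀, s₁, by exact_mod_cast hS3, hs10, fun s u y hs hss hu huy hys => ?_⟩
  have h7 := h6 s u y hs (hss.trans_le hs11) hu huy hys
  have h8 : volume {w : ℝ | ¬ (0 < u + w → y + w < 1 → (y + w, u + w) ∈ Att)} = 0 :=
    ae_iff.1 (hAN y u huy)
  have h9 : (c₀ + 1) * s ≤ ρ₀ / 2 :=
    (mul_le_mul_of_nonneg_left hss.le (by linarith)).trans hs12
  have e9 : (c₀ + 1) * s = c₀ * s + s := by ring
  rw [e9] at h9
  have h10 : ENNReal.ofReal (τ * s) = ENNReal.ofReal (τ * s) + 0 := (add_zero _).symm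
  rw [h10, ← h8]
  refine (measure_mono ?_).trans ((measure_union_le _ _).trans (add_le_add_left h7 _))
  rintro w ⟨hw, hnot⟩
  by_contra hcon
  rw [Set.mem_union, not_or] at hcon
  obtain ⟨c1, c2⟩ := hcon
  simp only [Set.mem_ofPred_eq, not_and, not_not] at c1 c2
  have hw' := abs_le.1 hw
  have h11 := c2 (by linarith) (by linarith)
  rw [add_comm y w, add_comm u w] at h11
  refine hnot ⟨ρ₁, {κ | (w + y - κ, w + u - κ) ∈ Att}, ptD_mk hAN hx hx1 hpt h11 (by linarith)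
    (by
      rw [abs_le]
      constructor <;> linarith) (by
      rw [abs_le]
      constructor <;> linarith) hρ10 hρ12 (fun l hl κ hκ hκρ => ?_) hS2⟩
  have h12 := c1 hw l (by omega) κ hκ (hκρ.trans hρ11)
  have h13 := mul_le_mul_of_nonneg_right hS1 hκ
  linarith

/-- Linear growth of the diagonals at almost every window. -/
theorem dg_ae {ι : Type*} [Countable ι] {f : ι → ℝ → ℝ → ℝ} (hf : ∀ i, Law (f i)) :
    ∀ᵐ w : ℝ, 0 < w → w < 1 → ∀ i, ∃ V t₀ : ℝ, 0 ≤ V ∧ 0 < t₀ ∧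
      ∀ t : ℝ, |t| < t₀ → |f i (w + t) (w + t) - f i w w| ≤ V * |t| := by
  have h2 := Upd.upd (fun i t => f i (0 + t) t) 0 1 fun i x hx y hy hxy =>
    (hf i).mono (by linarith [hx.1]) (by linarith) (by linarith) (by linarith)
      (by linarith) (by linarith [hy.2])
  rw [ae_restrict_iff' measurableSet_Ioo] at h2
  filter_upwards [h2] with w h3 hw hw1 i
  obtain ⟨V, o₀, k1, k2, k3⟩ := h3 ⟨hw, hw1⟩ i
  refine ⟨V, o₀, k1, k2, fun t ht => ?_⟩
  have h4 := k3 t ht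
  simp only [zero_add] at h4
  exact h4

/-- **A point outside finitely many small sets.** -/
theorem ex_good {A : Set ℝ} {n : ℕ} {t : ℝ} (Bad : ℕ → Set ℝ)
    (hA : ENNReal.ofReal (n * t) < volume A)
    (hB : ∀ k < n, volume (Bad k) ≤ ENNReal.ofReal t) : ∃ w ∈ A, ∀ k < n, w ∉ Bad k := by
  by_contra hcon
  push Not at hcon
  have h1 : A ⊆ ⋃ k ∈ Finset.range n, Bad k := by
    intro w hw
    obtain ⟨k, hk, hk'⟩ := hcon w hw
    exact Set.mem_iUnion₂.2 ⟨k, Finset.mem_range.2 hk, hk'⟩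
  have h2 := (measure_mono h1).trans (measure_biUnion_finset_le (μ := volume) (Finset.range n) Bad)
  have h3 : ∑ k ∈ Finset.range n, volume (Bad k) ≤ ENNReal.ofReal (n * t) := by
    refine (Finset.sum_le_sum fun k hk => hB k (Finset.mem_range.1 hk)).trans (le_of_eq ?_)
    rw [Finset.sum_const, Finset.card_range, nsmul_eq_mul, ENNReal.ofReal_mul (Nat.cast_nonneg n),
      ENNReal.ofReal_natCast]
  exact absurd (h2.trans h3) (not_le.2 hA)

end Pool.ISO

namespace Pool.PKG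

open MeasureTheory Set Filter Topology
open Pool.Agent.H49.Ent Pool.Agent.H32.Dense Pool.STK Pool.KA Pool.KSAT Pool.K2S Pool.PB
open Pool.GEN Pool.S6C Pool.STAT Pool.CHT Pool.GRW Pool.ONE Pool.STA
open Pool.LBT (LSys ThrOf)
open Pool.LEV (Law)
open Pool.TOP (TopS)
open Pool.FRN (AttC UpA Wgd attN_attC)
open Pool.JTN (TgP Cen)
open Pool.ISO (PtN PtD Att2 lvN ptN_near ptD_near att2_ae ptD_maxn dg_ae)

variable {n : ℕ} {hn : 2 ≤ n} {S : PCl n} {P : ℝ → ℝ → ℝ} {r : ℝ → ℝ}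
  {P' : ℕ → List (Fin n) × Fin n → ℝ → ℝ → ℝ} {Λ : Finset (Fin n) → Fin n → ℝ → ℝ → ℝ}
  {o : Od n} {g α Q c : ℝ}

/-- The diagonals of the levels grow at most linearly near `g`. -/
def DgL (hn : 2 ≤ n) (P : ℝ → ℝ → ℝ) (P' : ℕ → List (Fin n) × Fin n → ℝ → ℝ → ℝ) (o : Od n)
    (g : ℝ) : Prop :=
  ∀ l ≤ n - 1, ∃ V t₀ : ℝ, 0 ≤ V ∧ 0 < t₀ ∧ ∀ t : ℝ, |t| < t₀ →
    |lvN (P' o.2) (cc hn o.1.1) (n - 1) P l (g + t) (g + t) -
      lvN (P' o.2) (cc hn o.1.1) (n - 1) P l g g| ≤ V * |t|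

theorem Pk.dgL_ae (H : Pk hn S P r P' Λ) : ∀ᵐ g : ℝ, 0 < g → g < 1 → ∀ o : Od n,
    DgL hn P P' o g := by
  have h1 : ∀ᵐ g : ℝ, ∀ j : ℕ, 0 < g → g < 1 → ∀ i, ∃ V t₀ : ℝ, 0 ≤ V ∧ 0 < t₀ ∧
      ∀ t : ℝ, |t| < t₀ → |P' j i (g + t) (g + t) - P' j i g g| ≤ V * |t| :=
    ae_all_iff.2 fun j => dg_ae fun i => (H.cht j).law i
  have h2 := dg_ae (ι := Unit) (f := fun _ => P) fun _ => H.tgs.law ()
  filter_upwards [h1, h2] with g h3 h4 hg hg1 o l _
  unfold lvN
  split_ifs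
  · exact h3 o.2 hg hg1 _
  · exact h4 hg hg1 ()

/-- **The data of the paths near a good window, with uniform constants**: `E` is the exponent of the
gradients of the target, there is room for it. For all pairs `(w + y, w + u)` in the scale `s`, and
all `w` near `g` outside a set of measure `τ s`. -/
theorem Fac.ptD_unif (F : Fac hn S P r P' o g α Q c) (H : Pk hn S P r P' Λ)
    (hD : DgL hn P P' o g) :
    ∃ E : ℝ, 0 < E ∧ (∀ l ≤ n - 1, lvN (P' o.2) (cc hn o.1.1) (n - 1) P l g g + E < 1) ∧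
      ∀ e' : ℝ, 0 < e' → ∃ vs e : ℝ, 0 < e ∧ e ≤ e' ∧ ∀ c₀ τ : ℝ, 0 ≤ c₀ → 0 < τ →
        ∃ (S₀ : ℕ) (s₁ : ℝ), 1 ≤ S₀ ∧ 0 < s₁ ∧ ∀ s u y : ℝ, 0 < s → s < s₁ → 0 ≤ u → u ≤ y →
          y ≤ s → volume {w : ℝ | |w - g| ≤ c₀ * s ∧ ¬ ∃ (ρ : ℝ) (Q' : Set ℝ),
            PtD S (P' o.2) (tht o.2) (cc hn o.1.1) (n - 1) P (w + y) (w + u) ρ S₀ (fun _ => vs)
              (fun _ => e) (fun _ => e) (fun _ => E) (fun _ => 1 - c) Q'} ≤
            ENNReal.ofReal (τ * s) := by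
  have hc0 : 0 < c := (tht_pos _).trans F.thc
  obtain ⟨M, hM⟩ : ∃ M, M = max (P g g) (bet (P' o.2) (cc hn o.1.1) (n - 2) g g) := ⟨_, rfl⟩
  have hPc : P g g ≤ 1 - c := (F.PQ g g F.g0 le_rfl F.gα).trans F.Q1
  have hM1 : M ≤ 1 - c := by
    rw [hM]
    exact max_le hPc (F.le (n - 2) (by omega) g g F.g0 le_rfl F.gα)
  have hE0 : 0 < 1 - c / 2 - M := by linarith
  have hE : 1 - c < 1 - c / 2 - M + P g g ∨
      1 - c < 1 - c / 2 - M + bet (P' o.2) (cc hn o.1.1) (n - 2) g g := by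
    rcases max_choice (P g g) (bet (P' o.2) (cc hn o.1.1) (n - 2) g g) with h | h
    · left
      rw [hM, h]
      linarith
    · right
      rw [hM, h]
      linarith
  refine ⟨1 - c / 2 - M, hE0, fun l hl => ?_, fun e' he' => ?_⟩
  · unfold lvN
    split_ifs with h3
    · have h4 := F.bet_le H h3
      have h5 : bet (P' o.2) (cc hn o.1.1) (n - 2) g g ≤ M := by
        rw [hM]
        exact le_max_right _ _
      linarith
    · have h5 : P g g ≤ M := by
        rw [hM]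
        exact le_max_left _ _
      linarith
  · have hα := F.gα
    obtain ⟨vs, e, he0, he1, ρ₁, hρ₁, h1⟩ := ptN_near (S := S) H.ne (H.cht o.2) (tht_pos _) H.tmh
      (cc_inj1 hn _) (H.tgs.law ()) (fun a w hw hwa ha1 => H.tgs.low () a w hw.le hwa ha1)
      (F.cen' hE0 hE) (by linarith)
      (Att := AttC (P' o.2))
      (fun a w haw _ _ ha1 => ⟨fun i _ l _ => haw.1.rc ha1 _ l i, fun i _ => haw.1.up _ i⟩)
      (ρT := (α - g) / 2) (by linarith) (fun a w haw hw hwa ha1 hag _ => F.tgP H hw hwa (by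
        have := (abs_le.1 hag).2
        linarith) haw) he'
    refine ⟨vs, e, he0, he1, fun c₀ τ hc₀ hτ => ?_⟩
    obtain ⟨ρ₀, hρ₀⟩ : ∃ ρ₀ : ℝ, ρ₀ = min ρ₁ (min (g / 2) ((1 - g) / 2)) := ⟨_, rfl⟩
    have hg0 := F.g0
    have hg1 := F.g1
    have hρ0 : 0 < ρ₀ := by
      rw [hρ₀]
      exact lt_min hρ₁ (lt_min (by linarith) (by linarith))
    have r1 : ρ₀ ≤ ρ₁ := by rw [hρ₀]; exact min_le_left _ _
    have r2 : ρ₀ ≤ g / 2 := by rw [hρ₀]; exact (min_le_right _ _).trans (min_le_left _ _)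
    have r3 : ρ₀ ≤ (1 - g) / 2 := by rw [hρ₀]; exact (min_le_right _ _).trans (min_le_right _ _)
    exact ptD_maxn (H.cht o.2) (H.tgs.law ()) (attN_attC (H.cht o.2)) hρ0 (by linarith)
      (by linarith) (fun a w haw hw hwa ha h2 h3 =>
        h1 a w haw hw hwa ha (h2.trans r1) (h3.trans r1)) hD hc₀ hτ

/-- **The data of the paths near almost every good window, with uniform constants.** -/
theorem Pk.unif_ae (H : Pk hn S P r P' Λ) (hTop : TopS n) (hF : FZX (n - 1)) :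
    ∀ᵐ g : ℝ, ∀ o : Od n, g ∈ Gs P r P' Λ o → ∃ E c : ℝ, 0 < E ∧
      (∀ l ≤ n - 1, lvN (P' o.2) (cc hn o.1.1) (n - 1) P l g g + E < 1) ∧
      ∀ e' : ℝ, 0 < e' → ∃ vs e : ℝ, 0 < e ∧ e ≤ e' ∧ ∀ c₀ τ : ℝ, 0 ≤ c₀ → 0 < τ →
        ∃ (S₀ : ℕ) (s₁ : ℝ), 1 ≤ S₀ ∧ 0 < s₁ ∧ ∀ s u y : ℝ, 0 < s → s < s₁ → 0 ≤ u → u ≤ y →
          y ≤ s → volume {w : ℝ | |w - g| ≤ c₀ * s ∧ ¬ ∃ (ρ : ℝ) (Q' : Set ℝ),
            PtD S (P' o.2) (tht o.2) (cc hn o.1.1) (n - 1) P (w + y) (w + u) ρ S₀ (fun _ => vs)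
              (fun _ => e) (fun _ => e) (fun _ => E) (fun _ => 1 - c) Q'} ≤
            ENNReal.ofReal (τ * s) := by
  filter_upwards [H.dgL_ae] with g hg o ho
  obtain ⟨α, Q, c, F⟩ := H.fac hTop hF ho
  obtain ⟨E, h1, h2, h3⟩ := F.ptD_unif H (hg F.g0 F.g1 o)
  exact ⟨E, c, h1, h2, h3⟩

end Pool.PKG
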