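import Pool.Agent.H2.GEN.AttI
import Pool.Agent.H9.GEN.Tgs0

/-!
# Good points

`gpt_of`: a point of right-continuity with a greedy order and without relations is a good point
(`Pool.FRN.GPt`).
-/

set_option autoImplicit false

namespace Pool.CHT

open Finset Real MvPolynomial
open Pool.Agent.H49.Ent Pool.Agent.H32.Dense Pool.STK Pool.KA Pool.KSAT Pool.K2S Pool.PB Pool.S6C
open Pool.GEN
open Pool.LBT (LSys Slo Tri ThrOf)
open Pool.LEV (Law)

variable {m J : ℕ} {θ : ℝ} {S : PCl m} {P : List (Fin m) × Fin m → ℝ → ℝ → ℝ}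

/-- **Good points**: the order of the coordinates is greedy at the point. -/
theorem gpt_of (hP : ThrOf (chsys m θ) S P) (hθ : 0 < θ) (hS : TmH S) {c : ℕ → Fin m} {r : ℕ}
    (hc : Set.InjOn c (Set.Iio r)) {a w e₀ : ℝ} (he₀ : 0 < e₀)
    (h : Pts S P θ c r 1 (fun _ => a) (fun _ => w) 0 e₀) :
    Pool.FRN.GPt S c r (fun l => bet P c l a w) a w := by
  intro D η hη
  obtain ⟨φ₁, hφ₁, hrel⟩ := h.rel 0 one_pos D η hη
  obtain ⟨K, d, δ, K₁, hK₁, -, hd, -, hj⟩ := jatt hP hθ hS hc le_rfl h r le_rfl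
    (fun l n => min (φ₁ l n) (η / 2)) (fun l n => lt_min (hφ₁ l n) (by positivity)) (min η e₀)
    (by rw [mul_zero]; exact lt_min hη he₀) (min_le_right _ _)
  obtain ⟨K', hK'⟩ : ∃ K' : ℕ → ℕ, K' = fun l => if l < r then K l else 0 := ⟨_, rfl⟩
  have hKl : ∀ l < r, K' l = K l := fun l hl => by rw [hK']; exact if_pos hl
  have hd' : Hie φ₁ r K' d := (hd.mono fun l n => min_le_left _ _).congr hKl fun _ _ => rfl
  refine ⟨∑ l ∈ range r, K l, K₁, hK₁, fun κ η' hκ hη' => ?_⟩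
  have hKc : ∀ l, K' l ≤ ∑ l ∈ range r, K l := by
    intro l
    rcases Nat.lt_or_ge l r with h1 | h1
    · rw [hKl l h1]
      exact Finset.single_le_sum (f := K) (fun _ _ => Nat.zero_le _) (mem_range.2 h1)
    · rw [hK']
      show (if l < r then K l else 0) ≤ _
      rw [if_neg (by omega)]
      exact Nat.zero_le _
  obtain ⟨J₁, hJ₁⟩ := big (1 : ℝ) (show 0 < η / 2 by positivity)
  refine Bas.mono J₁ (hj.and (bas_ev (hrel r le_rfl K' d hd' η' hη')
    (show 0 < κ / K₁ by positivity))) ?_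
  rintro J hJ F A ⟨⟨B, G, H, hB, hPB, hM⟩, hR⟩
  have hJ0 : (0 : ℝ) ≤ J := Nat.cast_nonneg J
  obtain ⟨G, H, hM⟩ := hM.congr (K' := K')
    (g' := fun _ l => ⌊(bet P c l a w - d l) * J⌋₊) (δ' := fun l => ⌊δ l * J⌋₊)
    (fun l hl => (hKl l hl).ge) (fun _ _ _ => rfl) (fun _ _ => rfl)
  have hok := hM.ok 0 one_pos
  refine ⟨B, fun l => ⌊(bet P c l a w - d l) * J⌋₊, G 0, H 0, hB, hPB, fun l hl => ?_,
    hok.mono le_rfl hKc le_rfl
      (Nat.floor_le_floor (mul_le_mul_of_nonneg_right (min_le_left _ _) hJ0)), ?_⟩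
  · have h1 : d l ≤ η / 2 := (hd l hl).2.trans (min_le_right _ _)
    have h2 := (hd l hl).1
    have h3 := hJ₁ J hJ
    have h4 := mul_le_mul_of_nonneg_right h1 hJ0
    have h5 := mul_nonneg h2.le hJ0
    have h6 : (0 : ℝ) ≤ bet P c l a w * J := by
      have h7 : a ≤ bet P c l a w := hP.low _ a w (h.pos 0 one_pos).le (h.wa 0 one_pos)
        (h.lt 0 one_pos).le
      have h8 : 0 < a := (h.pos 0 one_pos).trans_le (h.wa 0 one_pos)
      exact mul_nonneg (h8.le.trans h7) hJ0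
    show |((⌊(bet P c l a w - d l) * J⌋₊ : ℕ) : ℝ) - bet P c l a w * J| ≤ η * J
    rcases le_or_gt 0 ((bet P c l a w - d l) * (J : ℝ)) with h7 | h7
    · have h8 := Nat.floor_le h7
      have h9 := Nat.lt_floor_add_one ((bet P c l a w - d l) * (J : ℝ))
      rw [abs_le]
      constructor <;> linarith
    · rw [Nat.floor_of_nonpos h7.le, Nat.cast_zero, abs_le]
      constructor <;> linarith
  · intro A' hA' hPA' Dx Dl N h1 h2 h3 h4 h5
    obtain ⟨B', l1, l2, l3⟩ := hR A' (fun ω h => hB ω (hA' ω h)) (by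
        calc κ / K₁ * Pe F.p A ≤ κ / K₁ * (K₁ * Pe F.p B) :=
              mul_le_mul_of_nonneg_left hPB (by positivity)
          _ = κ * Pe F.p B := by field_simp
          _ ≤ _ := hPA') (G 0) (H 0) ((hok.mono le_rfl (fun _ => le_rfl) le_rfl
            (Nat.floor_le_floor (mul_le_mul_of_nonneg_right (min_le_right _ _) hJ0))).sub hA')
      Dx Dl N h1 h2 h3 h4 (fun ω hω => (h5 ω hω).1) (fun ω hω => (h5 ω hω).2)
    refine ⟨B', l1, l2, fun ω hω b hb => (l3 ω hω b hb).trans ?_⟩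
    exact div_le_div_of_nonneg_right (pow_le_pow_right₀ (by norm_num) (Nat.floor_le_ceil _))
      (by positivity)

end Pool.CHT
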