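import Pool.Agent.H2.GEN.EvM
import Pool.Agent.H62.GEN.JatC
import Pool.Agent.H62.GEN.JatE

/-!
# The data of the points near a good window

`ptN_near`: the data `PtN` at all the good pairs near a centre, with constant exponents. `ptD_near`:
the data `PtD` of a path, at the good pairs where the levels also grow at most linearly backwards.
`Att2`: these pairs; almost all pairs of every line of direction `(1, 1)`. `Fac.ptD`: in a class.
-/

set_option autoImplicit false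

namespace Pool.ISO

open Finset Real MvPolynomial MeasureTheory
open Pool.Agent.H49.Ent Pool.Agent.H32.Dense Pool.STK Pool.KA Pool.KSAT Pool.K2S Pool.PB Pool.S6C
open Pool.GEN Pool.CHT Pool.CHX
open Pool.LBT (LSys Slo Tri ThrOf fl_le' bas_false)
open Pool.LEV (Law)
open Pool.JTN (TgP Cen mod_all)
open Pool.FRN (AttC UpA Wgd attN_attC law_diag)
open Pool.STR (AttN)

variable {m : ℕ}

theorem PtD.mono {S : PCl m} {P : List (Fin m) × Fin m → ℝ → ℝ → ℝ} {θ : ℝ} {c : ℕ → Fin m}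
    {r : ℕ} {Pt : ℝ → ℝ → ℝ} {a w ρ : ℝ} {S₀ S₁ : ℕ} {vs e e₀ E sg : ℝ → ℝ} {Q : Set ℝ}
    (h : PtD S P θ c r Pt a w ρ S₀ vs e e₀ E sg Q) (hS : S₀ ≤ S₁) :
    PtD S P θ c r Pt a w ρ S₁ vs e e₀ E sg Q where
  ρ0 := h.ρ0
  ρw := h.ρw
  wa := h.wa
  a1 := h.a1
  q0 := h.q0
  den := h.den
  pt := h.pt
  grw κ h1 h2 h3 l hl := (h.grw κ h1 h2 h3 l hl).trans (by
    have h4 : (S₀ : ℝ) * κ ≤ S₁ * κ := mul_le_mul_of_nonneg_right (by exact_mod_cast hS) h2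
    linarith)
  sr := h.sr.trans (mul_le_mul_of_nonneg_right (by exact_mod_cast hS) h.ρ0.le)

/-- **The data of the points near a centre.** -/
theorem ptN_near {S : PCl m} (hS0 : S.Ne) {P : List (Fin m) × Fin m → ℝ → ℝ → ℝ} {θ : ℝ}
    (hP : ThrOf (chsys m θ) S P) (hθ : 0 < θ) (hS : TmH S) {c : ℕ → Fin m} {r : ℕ}
    (hc : Set.InjOn c (Set.Iio r)) {Pt : ℝ → ℝ → ℝ} (hQ : Law Pt)
    (hQl : ∀ a w, 0 < w → w ≤ a → a ≤ 1 → a ≤ Pt a w) {x sg E : ℝ} (hx : Cen P θ c r Pt x sg E)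
    (hxP : Pt x x < 1) {Att : Set (ℝ × ℝ)}
    (hAtt : ∀ a w, (a, w) ∈ Att → 0 < w → w ≤ a → a < 1 →
      (∀ i < r, ∀ l ≤ i, Rc (tau P c l i) a w) ∧ ∀ i < r, Up1 (bet P c i) a w) {ρT : ℝ}
    (hρT : 0 < ρT)
    (hT : ∀ a w, (a, w) ∈ Att → 0 < w → w ≤ a → a < 1 → |a - x| ≤ ρT → |w - x| ≤ ρT →
      TgP S c r (Pt a w) a w sg) {e' : ℝ} (he' : 0 < e') :
    ∃ vs e : ℝ, 0 < e ∧ e ≤ e' ∧ ∃ ρ₀ : ℝ, 0 < ρ₀ ∧ ∀ a w, (a, w) ∈ Att → 0 < w → w ≤ a → a < 1 →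
      |a - x| ≤ ρ₀ → |w - x| ≤ ρ₀ → PtN S P θ c r Pt a w vs e e E sg := by
  have hr0 : (0 : ℝ) ≤ r := Nat.cast_nonneg r
  have hx0 := hx.x0
  have hx1 := hx.x1
  have hE0 := hx.E0
  have hC0 : (0 : ℝ) ≤ Csl r r := Nat.cast_nonneg _
  obtain ⟨μv, hμv, hμv'⟩ := fin_pos r (f := fun i => 1 - (bet P c i x x + θ * x))
    (fun i hi => by
      have h1 := hx.vis i hi
      linarith)
  have hst : 0 < max (E + Pt x x - sg) (if 1 ≤ r then E + bet P c (r - 1) x x - sg else 0) := by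
    rw [lt_max_iff]
    rcases hx.top with h1 | ⟨h1, h2⟩
    · exact Or.inl (by linarith)
    · right
      rw [if_pos h1]
      linarith
  obtain ⟨s₀, hs₀⟩ : ∃ s₀ : ℝ, s₀ = max (E + Pt x x - sg)
    (if 1 ≤ r then E + bet P c (r - 1) x x - sg else 0) := ⟨_, rfl⟩
  rw [← hs₀] at hst
  obtain ⟨ef, hef⟩ : ∃ ef : ℝ, ef = min e' (min (θ * x / 8) (E / (4 * (r + 1)))) := ⟨_, rfl⟩
  have hef0 : 0 < ef := by
    rw [hef]
    exact lt_min he' (lt_min (by positivity) (by positivity))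
  have hef' : ef ≤ e' := by rw [hef]; exact min_le_left _ _
  have hef1 : ef ≤ θ * x / 8 := by rw [hef]; exact (min_le_right _ _).trans (min_le_left _ _)
  have hef2 : ef * (r + 1) ≤ E / 4 := by
    have h1 : ef ≤ E / (4 * (r + 1)) := by
      rw [hef]; exact (min_le_right _ _).trans (min_le_right _ _)
    rw [le_div_iff₀ (by positivity)] at h1
    linarith
  obtain ⟨ω, hω⟩ : ∃ ω : ℝ, ω = min (min (ef / (4 * (Csl r r + 1))) ((1 - Pt x x) / 2))
    (min (μv / 4) (s₀ / 2)) := ⟨_, rfl⟩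
  have hω0 : 0 < ω := by
    rw [hω]
    exact lt_min (lt_min (by positivity) (by linarith)) (lt_min (by positivity) (by positivity))
  have hω1 : ω * (4 * (Csl r r + 1)) ≤ ef := by
    rw [← le_div_iff₀ (by positivity), hω]
    exact (min_le_left _ _).trans (min_le_left _ _)
  have hωP : ω ≤ (1 - Pt x x) / 2 := by
    rw [hω]
    exact (min_le_left _ _).trans (min_le_right _ _)
  have hω2 : ω ≤ μv / 4 := by
    rw [hω]
    exact (min_le_right _ _).trans (min_le_left _ _)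
  have hω3 : ω ≤ s₀ / 2 := by
    rw [hω]
    exact (min_le_right _ _).trans (min_le_right _ _)
  have hω4 : 4 * ω ≤ ef := by
    have h1 : ω * (4 * 1) ≤ ω * (4 * (Csl r r + 1)) :=
      mul_le_mul_of_nonneg_left (by linarith) hω0.le
    linarith
  have hω5 : Csl r r * (2 * ω) < ef := by
    have h1 : ω * (4 * (Csl r r + 1)) = 2 * (Csl r r * (2 * ω)) + 4 * ω := by ring
    have h2 : 0 ≤ Csl r r * (2 * ω) := by positivity
    linarith
  obtain ⟨ρ₁, hρ₁, hmod⟩ := mod_all hP hQ hx hω0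
  obtain ⟨ρ₀, hρ₀⟩ : ∃ ρ₀ : ℝ, ρ₀ = min (min ρ₁ ρT) (min (x / 2) (μv / (4 * θ))) := ⟨_, rfl⟩
  have hρ₀0 : 0 < ρ₀ := by
    rw [hρ₀]
    exact lt_min (lt_min hρ₁ hρT) (lt_min (by positivity) (by positivity))
  have r1 : ρ₀ ≤ ρ₁ := by rw [hρ₀]; exact (min_le_left _ _).trans (min_le_left _ _)
  have r2 : ρ₀ ≤ ρT := by rw [hρ₀]; exact (min_le_left _ _).trans (min_le_right _ _)
  have r3 : ρ₀ ≤ x / 2 := by rw [hρ₀]; exact (min_le_right _ _).trans (min_le_left _ _)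
  have r5 : θ * ρ₀ ≤ μv / 4 := by
    have h1 : ρ₀ ≤ μv / (4 * θ) := by
      rw [hρ₀]
      exact (min_le_right _ _).trans (min_le_right _ _)
    rw [le_div_iff₀ (by positivity)] at h1
    linarith
  refine ⟨2 * ω, ef, hef0, hef', ρ₀, hρ₀0, fun a w haw hw hwa ha h1 h2 => ?_⟩
  obtain ⟨hn1, hn2⟩ := hmod a w hw.le hwa ha.le (h1.trans r1) (h2.trans r1)
  have h3 := abs_le.1 h2
  have hθw : θ * w ≤ θ * x + θ * ρ₀ := by
    have := mul_le_mul_of_nonneg_left (show w ≤ x + ρ₀ by linarith [h3.2]) hθ.le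
    linarith
  have hθw' : θ * x / 2 ≤ θ * w := by
    have := mul_le_mul_of_nonneg_left (show x / 2 ≤ w by linarith [h3.1]) hθ.le
    linarith
  have hθx : 0 < θ * x := by positivity
  refine ⟨Pts.of_up hS0 hP hθ hS hc (by positivity) hef0.le (fun _ _ => hw) (fun _ _ => hwa)
    (fun _ _ => ha) (fun _ _ => by linarith) (fun _ _ => (hAtt a w haw hw hwa ha).1)
    (fun _ _ => (hAtt a w haw hw hwa ha).2) (fun _ _ i hi => ?_) (fun _ _ i hi l hl => ?_),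
    by positivity, hω5, le_rfl, ?_, ?_, hT a w haw hw hwa ha (h1.trans r2) (h2.trans r2),
    hQl a w hw hwa ha.le, ?_⟩
  · have h4 := abs_le.1 (hn1 i hi i le_rfl)
    rw [tau_self] at h4
    have h5 := hμv' i hi
    linarith [h4.2]
  · have h4 := abs_le.1 (hn1 l (hl.trans hi) l le_rfl)
    have h5 := abs_le.1 (hn1 i hi l hl.le)
    have h6 := hx.gre i hi l hl
    rw [tau_self] at h4
    linarith [h4.2, h5.1]
  · have h4 : 2 * ω * (r + 1) ≤ ef / 2 * (r + 1) :=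
      mul_le_mul_of_nonneg_right (by linarith) (by linarith)
    linarith
  · have h4 := abs_le.1 hn2
    have h5 : s₀ ≤ E + Pt x x - sg ∨ s₀ ≤ if 1 ≤ r then E + bet P c (r - 1) x x - sg else 0 := by
      rw [← le_max_iff, hs₀]
    rcases h5 with h5 | h5
    · exact Or.inl (by linarith [h4.1])
    · right
      by_cases h6 : 1 ≤ r
      · rw [if_pos h6] at h5
        have h7 := abs_le.1 (hn1 (r - 1) (by omega) (r - 1) le_rfl)
        rw [tau_self] at h7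
        exact ⟨h6, by linarith [h7.1]⟩
      · rw [if_neg h6] at h5
        linarith
  · have h4 := abs_le.1 hn2
    linarith [h4.2]

/-- **At most linear growth backwards.** -/
def Bk1 (f : ℝ → ℝ → ℝ) (a w : ℝ) : Prop :=
  ∃ V o₀ : ℝ, 0 ≤ V ∧ 0 < o₀ ∧ ∀ κ : ℝ, 0 ≤ κ → κ < o₀ → f a w ≤ f (a - κ) (w - κ) + V * κ

/-- Finitely many levels. -/
theorem bk1_fin {f : ℕ → ℝ → ℝ → ℝ} {a w : ℝ} : ∀ r : ℕ, (∀ l < r, Bk1 (f l) a w) →
    ∃ V o₀ : ℝ, 0 ≤ V ∧ 0 < o₀ ∧ ∀ l < r, ∀ κ : ℝ, 0 ≤ κ → κ < o₀ →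
      f l a w ≤ f l (a - κ) (w - κ) + V * κ := by
  intro r
  induction r with
  | zero => exact fun _ => ⟨0, 1, le_rfl, one_pos, fun l hl => absurd hl (Nat.not_lt_zero l)⟩
  | succ r ih =>
    intro h
    obtain ⟨V, o₀, h1, h2, h3⟩ := ih fun l hl => h l (by omega)
    obtain ⟨V', o₁, h4, h5, h6⟩ := h r (Nat.lt_succ_self r)
    refine ⟨max V V', min o₀ o₁, h1.trans (le_max_left _ _), lt_min h2 h5,
      fun l hl κ hκ hκ' => ?_⟩
    rcases Nat.lt_or_ge l r with h7 | h7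
    · have h8 := h3 l h7 κ hκ (hκ'.trans_le (min_le_left _ _))
      have h9 := mul_le_mul_of_nonneg_right (le_max_left V V') hκ
      linarith
    · have h10 : l = r := by omega
      subst h10
      have h8 := h6 κ hκ (hκ'.trans_le (min_le_right _ _))
      have h9 := mul_le_mul_of_nonneg_right (le_max_right V V') hκ
      linarith

/-- **The data of the paths near a centre.** -/
theorem ptD_near {S : PCl m} {P : List (Fin m) × Fin m → ℝ → ℝ → ℝ} {θ : ℝ} {c : ℕ → Fin m}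
    {r : ℕ} {Pt : ℝ → ℝ → ℝ} {x vs e E sg ρ₀ : ℝ} {Att : Set (ℝ × ℝ)} (hAN : AttN Att)
    (hρ₀ : 0 < ρ₀) (hx : ρ₀ < x) (hx1 : x + ρ₀ < 1)
    (hpt : ∀ a w, (a, w) ∈ Att → 0 < w → w ≤ a → a < 1 →
      |a - x| ≤ ρ₀ → |w - x| ≤ ρ₀ → PtN S P θ c r Pt a w vs e e E sg) {a w : ℝ}
    (haw : (a, w) ∈ Att) (hwa : w ≤ a) (ha : |a - x| ≤ ρ₀ / 2) (hw : |w - x| ≤ ρ₀ / 2)
    (hbk : ∀ l < r, Bk1 (bet P c l) a w) (hbt : Bk1 Pt a w) :
    ∃ (ρ : ℝ) (S₀ : ℕ) (Q : Set ℝ), 1 ≤ S₀ ∧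
      PtD S P θ c r Pt a w ρ S₀ (fun _ => vs) (fun _ => e) (fun _ => e) (fun _ => E)
        (fun _ => sg) Q := by
  have ha' := abs_le.1 ha
  have hw' := abs_le.1 hw
  obtain ⟨V, o₀, hV, ho₀, h1⟩ := bk1_fin (f := fun l => if l < r then bet P c l else Pt) (a := a)
    (w := w) (r + 1) fun l hl => by
      rcases Nat.lt_or_ge l r with h2 | h2
      · rw [if_pos h2]
        exact hbk l h2
      · rw [if_neg (by omega)]
        exact hbt
  obtain ⟨ρ, hρ⟩ : ∃ ρ : ℝ, ρ = min (ρ₀ / 2) (o₀ / 2) := ⟨_, rfl⟩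
  have hρ0 : 0 < ρ := by rw [hρ]; exact lt_min (by linarith) (by linarith)
  have hρ1 : ρ ≤ ρ₀ / 2 := by rw [hρ]; exact min_le_left _ _
  have hρ2 : ρ < o₀ := by
    have : ρ ≤ o₀ / 2 := by rw [hρ]; exact min_le_right _ _
    linarith
  obtain ⟨S₀, hS₀⟩ := exists_nat_ge (max V (2 / ρ) + 1)
  have hS1 : V ≤ S₀ := by linarith [le_max_left V (2 / ρ)]
  have hS2 : 2 / ρ ≤ S₀ := by linarith [le_max_right V (2 / ρ)]
  have hS3 : (1 : ℝ) ≤ S₀ := by
    have : 0 ≤ max V (2 / ρ) := hV.trans (le_max_left _ _)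
    linarith
  refine ⟨ρ, S₀, {κ | (a - κ, w - κ) ∈ Att}, by exact_mod_cast hS3, hρ0, by linarith, hwa,
    by linarith, ?_, fun y z hy hyz hz => ?_, fun κ h2 h3 h4 => ?_, fun κ h2 h3 h4 l hl => ?_, ?_⟩
  · show (a - 0, w - 0) ∈ Att
    rw [sub_zero, sub_zero]
    exact haw
  · have h2 := hAN a w hwa
    obtain ⟨t, h3, h4⟩ := (Measure.dense_of_ae h2).exists_between (neg_lt_neg hyz)
    have h5 := h3 (by linarith [h4.1]) (by linarith [h4.2])
    refine ⟨-t, ?_, by linarith [h4.2], by linarith [h4.1]⟩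
    show (a - -t, w - -t) ∈ Att
    rw [sub_neg_eq_add, sub_neg_eq_add]
    exact h5
  · refine hpt _ _ h2 (by linarith) (by linarith) (by linarith) ?_ ?_
    · rw [abs_le]
      constructor <;> linarith
    · rw [abs_le]
      constructor <;> linarith
  · have h5 := h1 l (by omega) κ h3 (by linarith)
    have h6 := mul_le_mul_of_nonneg_right hS1 h3
    unfold lvN
    split_ifs with h7
    · simp only [if_pos h7] at h5
      linarith
    · simp only [if_neg h7] at h5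
      linarith
  · rw [div_le_iff₀ hρ0] at hS2
    exact hS2

/-! ### The good pairs -/

/-- **The good pairs** where the levels also grow at most linearly backwards. -/
def Att2 (P : List (Fin m) × Fin m → ℝ → ℝ → ℝ) (Pt : ℝ → ℝ → ℝ) : Set (ℝ × ℝ) :=
  {q : ℝ × ℝ | q ∈ AttC P ∧ (∀ i, Bk1 (P i) q.1 q.2) ∧ Bk1 Pt q.1 q.2}

/-- Growth backwards at almost all pairs of a line. -/
theorem bk_ae {ι : Type*} [Countable ι] {f : ι → ℝ → ℝ → ℝ} (hf : ∀ i, Law (f i)) {d : ℝ}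
    (hd : 0 ≤ d) : ∀ᵐ w : ℝ, 0 < w → w + d < 1 → ∀ i, Bk1 (f i) (w + d) w := by
  have h2 := Upd.upd (fun i t => f i (d + t) t) 0 (1 - d) fun i x hx y hy hxy =>
    (hf i).mono (by linarith [hx.1]) (by linarith) (by linarith) (by linarith)
      (by linarith) (by linarith [hy.2])
  rw [ae_restrict_iff' measurableSet_Ioo] at h2
  filter_upwards [h2] with w h3 hw hw1 i
  obtain ⟨V, o₀, k1, k2, k3⟩ := h3 ⟨hw, by linarith⟩ i
  refine ⟨V, o₀, k1, k2, fun κ hκ hκ' => ?_⟩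
  have h4 := k3 (-κ) (by rw [abs_neg, abs_of_nonneg hκ]; exact hκ')
  rw [abs_neg, abs_of_nonneg hκ] at h4
  have h5 := (abs_le.1 h4).1
  have e1 : d + (w - κ) = w + d - κ := by ring
  have e2 : w + -κ = w - κ := by ring
  have e3 : d + w = w + d := by ring
  simp only [e2, e1, e3] at h5
  linarith

/-- **Almost every window** is the window of good pairs for all rational depths. -/
theorem att2_ae {θ : ℝ} {S : PCl m} {P : List (Fin m) × Fin m → ℝ → ℝ → ℝ} {Pt : ℝ → ℝ → ℝ}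
    (hP : ThrOf (chsys m θ) S P) (hPt : Law Pt) : ∀ᵐ w : ℝ, 0 < w → ∀ q : ℚ, (0 : ℝ) ≤ q →
      w + q < 1 → (w + q, w) ∈ Att2 P Pt := by
  have h1 : ∀ᵐ w : ℝ, ∀ q : ℚ, (0 : ℝ) ≤ q → 0 < w → w + q < 1 → (w + (q : ℝ), w) ∈ Att2 P Pt := by
    refine ae_all_iff.2 fun q => ?_
    by_cases hq : (0 : ℝ) ≤ q
    · have h2 := attN_attC hP q 0 hq
      have h3 := bk_ae (f := P) (fun i => hP.law i) hq
      have h4 := bk_ae (ι := Unit) (f := fun _ => Pt) (fun _ => hPt) hq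
      filter_upwards [h2, h3, h4] with w k1 k2 k3 _ hw hw1
      have k4 := k1 (by linarith) (by linarith)
      rw [zero_add, add_comm] at k4
      exact ⟨k4, k2 hw hw1, k3 hw hw1 ()⟩
    · exact Filter.Eventually.of_forall fun w h => absurd h hq
  filter_upwards [h1] with w h2 hw q hq hw1
  exact h2 q hq hw hw1

end Pool.ISO

namespace Pool.PKG

open MeasureTheory Set Filter Topology
open Pool.Agent.H49.Ent Pool.Agent.H32.Dense Pool.STK Pool.KA Pool.KSAT Pool.K2S Pool.PB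
open Pool.GEN Pool.S6C Pool.STAT Pool.CHT Pool.GRW Pool.ONE Pool.STA
open Pool.LBT (LSys ThrOf)
open Pool.LEV (Law)
open Pool.TOP (TopS)
open Pool.FRN (AttC UpA Wgd attN_attC)
open Pool.JTN (TgP Cen)
open Pool.ISO (PtN PtD Att2 lvN ptN_near ptD_near att2_ae)

variable {n : ℕ} {hn : 2 ≤ n} {S : PCl n} {P : ℝ → ℝ → ℝ} {r : ℝ → ℝ}
  {P' : ℕ → List (Fin n) × Fin n → ℝ → ℝ → ℝ} {Λ : Finset (Fin n) → Fin n → ℝ → ℝ → ℝ}
  {o : Od n} {g α Q c : ℝ}

/-- **The data of the paths near a good window**: `E` is the exponent of the gradients of the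
target, there is room for it; the exponents of the list are as small as one wants. -/
theorem Fac.ptD (F : Fac hn S P r P' o g α Q c) (H : Pk hn S P r P' Λ) :
    ∃ E : ℝ, 0 < E ∧ (∀ l ≤ n - 1, lvN (P' o.2) (cc hn o.1.1) (n - 1) P l g g + E < 1) ∧
      ∀ e' : ℝ, 0 < e' → ∃ vs e ρ₀ : ℝ, 0 < e ∧ e ≤ e' ∧ 0 < ρ₀ ∧ ∀ a w : ℝ,
        (a, w) ∈ Att2 (P' o.2) P → w ≤ a → |a - g| ≤ ρ₀ → |w - g| ≤ ρ₀ →
        ∃ (ρ : ℝ) (S₀ : ℕ) (Q' : Set ℝ), 1 ≤ S₀ ∧
          PtD S (P' o.2) (tht o.2) (cc hn o.1.1) (n - 1) P a w ρ S₀ (fun _ => vs) (fun _ => e)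
            (fun _ => e) (fun _ => E) (fun _ => 1 - c) Q' := by
  have hc0 : 0 < c := (tht_pos _).trans F.thc
  obtain ⟨M, hM⟩ : ∃ M, M = max (P g g) (bet (P' o.2) (cc hn o.1.1) (n - 2) g g) := ⟨_, rfl⟩
  have hPc : P g g ≤ 1 - c := (F.PQ g g F.g0 le_rfl F.gα).trans F.Q1
  have hM1 : M ≤ 1 - c := by
    rw [hM]
    exact max_le hPc (F.le (n - 2) (by omega) g g F.g0 le_rfl F.gα)
  have hE0 : 0 < 1 - c / 2 - M := by linarith
  have hE : 1 - c < 1 - c / 2 - M + P g g ∨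
      1 - c < 1 - c / 2 - M + bet (P' o.2) (cc hn o.1.1) (n - 2) g g := by
    rcases max_choice (P g g) (bet (P' o.2) (cc hn o.1.1) (n - 2) g g) with h | h
    · left
      rw [hM, h]
      linarith
    · right
      rw [hM, h]
      linarith
  refine ⟨1 - c / 2 - M, hE0, fun l hl => ?_, fun e' he' => ?_⟩
  · unfold lvN
    split_ifs with h3
    · have h4 := F.bet_le H h3
      have h5 : bet (P' o.2) (cc hn o.1.1) (n - 2) g g ≤ M := by
        rw [hM]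
        exact le_max_right _ _
      linarith
    · have h5 : P g g ≤ M := by
        rw [hM]
        exact le_max_left _ _
      linarith
  · have hα := F.gα
    obtain ⟨vs, e, he0, he1, ρ₁, hρ₁, h1⟩ := ptN_near (S := S) H.ne (H.cht o.2) (tht_pos _) H.tmh
      (cc_inj1 hn _) (H.tgs.law ()) (fun a w hw hwa ha1 => H.tgs.low () a w hw.le hwa ha1)
      (F.cen' hE0 hE) (by linarith)
      (Att := AttC (P' o.2))
      (fun a w haw _ _ ha1 => ⟨fun i _ l _ => haw.1.rc ha1 _ l i, fun i _ => haw.1.up _ i⟩)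
      (ρT := (α - g) / 2) (by linarith) (fun a w haw hw hwa ha1 hag _ => F.tgP H hw hwa (by
        have := (abs_le.1 hag).2
        linarith) haw) he'
    obtain ⟨ρ₀, hρ₀⟩ : ∃ ρ₀ : ℝ, ρ₀ = min ρ₁ (min (g / 2) ((1 - g) / 2)) := ⟨_, rfl⟩
    have hg0 := F.g0
    have hg1 := F.g1
    have hρ0 : 0 < ρ₀ := by
      rw [hρ₀]
      exact lt_min hρ₁ (lt_min (by linarith) (by linarith))
    have r1 : ρ₀ ≤ ρ₁ := by rw [hρ₀]; exact min_le_left _ _
    have r2 : ρ₀ ≤ g / 2 := by rw [hρ₀]; exact (min_le_right _ _).trans (min_le_left _ _)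
    have r3 : ρ₀ ≤ (1 - g) / 2 := by rw [hρ₀]; exact (min_le_right _ _).trans (min_le_right _ _)
    refine ⟨vs, e, ρ₀ / 2, he0, he1, by linarith, fun a w haw hwa ha hw => ?_⟩
    exact ptD_near (attN_attC (H.cht o.2)) hρ0 (by linarith) (by linarith)
      (fun a w haw hw hwa ha h2 h3 => h1 a w haw hw hwa ha (h2.trans r1) (h3.trans r1)) haw.1 hwa
      ha hw (fun l _ => haw.2.1 _) haw.2.2

/-- **The data of the paths at almost every good window**, for small rational depths: at `(w, w)`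
and at `(w + q, w)`. -/
theorem Pk.ptD_ae (H : Pk hn S P r P' Λ) (hTop : TopS n) (hF : FZX (n - 1)) :
    ∀ᵐ w : ℝ, ∀ o : Od n, w ∈ Gs P r P' Λ o → ∃ E c q₁ : ℝ, 0 < E ∧ 0 < q₁ ∧ w + q₁ < 1 ∧
      (∀ l ≤ n - 1, lvN (P' o.2) (cc hn o.1.1) (n - 1) P l w w + E + 2 * q₁ +
        (P (w + q₁) w - P w w) < 1) ∧
      ∃ vs e : ℝ, 0 < e ∧ ∀ q : ℚ, (0 : ℝ) < q → (q : ℝ) < q₁ →
        ∃ (ρ ρ' : ℝ) (S₀ : ℕ) (Q₁ Q₂ : Set ℝ), 1 ≤ S₀ ∧
          PtD S (P' o.2) (tht o.2) (cc hn o.1.1) (n - 1) P w w ρ S₀ (fun _ => vs) (fun _ => e)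
            (fun _ => e) (fun _ => E) (fun _ => 1 - c) Q₁ ∧
          PtD S (P' o.2) (tht o.2) (cc hn o.1.1) (n - 1) P (w + q) w ρ' S₀ (fun _ => vs)
            (fun _ => e) (fun _ => e) (fun _ => E) (fun _ => 1 - c) Q₂ := by
  have h1 : ∀ᵐ w : ℝ, ∀ j : ℕ, 0 < w → ∀ q : ℚ, (0 : ℝ) ≤ q → w + q < 1 →
      (w + (q : ℝ), w) ∈ Att2 (P' j) P := ae_all_iff.2 fun j => att2_ae (H.cht j) (H.tgs.law ())
  filter_upwards [h1] with w h2 o ho
  obtain ⟨α, Q, c, F⟩ := H.fac hTop hF ho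
  obtain ⟨E, hE, hlE, h3⟩ := F.ptD H
  obtain ⟨vs, e, ρ₀, he, -, hρ₀, h4⟩ := h3 1 one_pos
  have hw0 := F.g0
  have hw1 := F.g1
  obtain ⟨s, hs, hsl⟩ := fin_pos n
    (f := fun l => 1 - (lvN (P' o.2) (cc hn o.1.1) (n - 1) P l w w + E)) fun l hl => by
      have := hlE l (by omega)
      linarith
  obtain ⟨δ, hδ, hcon⟩ := Metric.continuousAt_iff.1 F.conP (s / 4) (by linarith)
  obtain ⟨q₁, hq₁⟩ : ∃ q₁ : ℝ, q₁ = min (min (s / 8) (δ / 2)) (min ρ₀ ((1 - w) / 2)) := ⟨_, rfl⟩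
  have hq0 : 0 < q₁ := by
    rw [hq₁]
    exact lt_min (lt_min (by linarith) (by linarith)) (lt_min hρ₀ (by linarith))
  have r1 : q₁ ≤ s / 8 := by rw [hq₁]; exact (min_le_left _ _).trans (min_le_left _ _)
  have r4 : q₁ ≤ δ / 2 := by rw [hq₁]; exact (min_le_left _ _).trans (min_le_right _ _)
  have r2 : q₁ ≤ ρ₀ := by rw [hq₁]; exact (min_le_right _ _).trans (min_le_left _ _)
  have r3 : q₁ ≤ (1 - w) / 2 := by rw [hq₁]; exact (min_le_right _ _).trans (min_le_right _ _)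
  have h7 : P (w + q₁) w ≤ P w w + s / 4 := by
    have h8 := hcon (x := w + q₁) (by
      rw [Real.dist_eq, add_sub_cancel_left, abs_of_pos hq0]
      linarith)
    rw [Real.dist_eq] at h8
    have h9 := (abs_lt.1 h8).2
    have h10 := (H.tgs.law ()).mono_w (w + q₁) w (w + q₁) hw0.le (by linarith) le_rfl
      (by linarith)
    linarith
  refine ⟨E, c, q₁, hE, hq0, by linarith, fun l hl => ?_, vs, e, he, fun q hq hqq => ?_⟩
  · have := hsl l (by omega)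
    linarith
  have h5 := h2 o.2 hw0 0 (by norm_num) (by rw [Rat.cast_zero]; linarith)
  rw [Rat.cast_zero, add_zero] at h5
  have h6 := h2 o.2 hw0 q hq.le (by linarith)
  obtain ⟨ρ, S₁, Q₁, k1, k2⟩ := h4 w w h5 le_rfl (by rw [sub_self, abs_zero]; exact hρ₀.le)
    (by rw [sub_self, abs_zero]; exact hρ₀.le)
  obtain ⟨ρ', S₂, Q₂, k3, k4⟩ := h4 (w + q) w h6 (by linarith)
    (by rw [add_sub_cancel_left, abs_of_pos hq]; linarith)
    (by rw [sub_self, abs_zero]; exact hρ₀.le)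
  exact ⟨ρ, ρ', max S₁ S₂, Q₁, Q₂, k1.trans (le_max_left _ _), k2.mono (le_max_left _ _),
    k4.mono (le_max_right _ _)⟩

end Pool.PKG
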