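import Pool.Agent.H71.GEN.Vel
import Pool.Agent.H71.GEN.Nst
import Pool.Agent.H40.SLP.TrlC

/-!
# Labels on boxes: the slope law

`BxOK F I k K r w P β A G H`: the coordinate `k` is on the graph of `G` (a function of the point of
resolution `r`), which agrees with `H` (a function of the line in a window) on the box with the
sides `2 ^ (-β o)` around the point; both are polynomials in the time and the coordinates in `I`.
If all the sides shrink by `2 ^ (-v)`, the precision increases by `v`, up to the defect of the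
times (`bx_slope`). The sides are arbitrary.
-/

set_option autoImplicit false

namespace Pool.GEN

open Finset Real MvPolynomial
open Pool.Agent.H49.Ent Pool.Agent.H32.Dense Pool.STK Pool.KA Pool.KSAT Pool.K2S Pool.PB
open Pool.FLF (Fam.sub)
open Pool.PB.Trl (rt rt_mem t_rt)

variable {m J : ℕ}

/-- The increments of a polynomial which is bounded on a box. -/
theorem box_lip {σ : Type} [Fintype σ] (K : ℕ) : ∃ C : ℝ, 1 ≤ C ∧ ∀ (P : MvPolynomial σ ℝ)
    (x b r : σ → ℝ) (lam M : ℝ), P.totalDegree ≤ K → 0 < lam → lam ≤ 1 →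
    (∀ y : σ → ℝ, (∀ j, |y j - x j| ≤ r j) → |eval y P| ≤ M) →
    (∀ j, |b j - x j| ≤ lam * r j) → |eval b P - eval x P| ≤ C * M * lam := by
  obtain ⟨C, hC, h⟩ := Pool.Agent.H40.SLP.lip_one K
  refine ⟨C, hC, ?_⟩
  intro P x b r lam M hP hl0 hl1 hM hb
  obtain ⟨g, hg⟩ : ∃ g : σ → Polynomial ℝ, g = fun j =>
      Polynomial.C (x j) + Polynomial.C ((b j - x j) / lam) * Polynomial.X := ⟨_, rfl⟩
  have hgd : ∀ j, (g j).natDegree ≤ 1 := by
    intro j
    rw [hg]
    refine (Polynomial.natDegree_add_le _ _).trans (max_le ?_ ?_)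
    · rw [Polynomial.natDegree_C]
      exact Nat.zero_le _
    · exact (Polynomial.natDegree_C_mul_le _ _).trans Polynomial.natDegree_X_le
  have hge : ∀ t, (MvPolynomial.aeval g P).eval t =
      MvPolynomial.eval (fun j => x j + (b j - x j) / lam * t) P := by
    intro t
    rw [Pool.KBX.eval_aeval_poly]
    congr 1
    congr 1
    funext j
    rw [hg]
    simp
  have h1 := h (MvPolynomial.aeval g P) M (Pool.KBX.natDegree_aeval_le P g hgd hP) (by
    intro t ht
    rw [hge]
    refine hM _ fun j => ?_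
    have h2 : x j + (b j - x j) / lam * t - x j = (b j - x j) / lam * t := by ring
    rw [h2, abs_mul, abs_div, abs_of_pos hl0, abs_of_nonneg ht.1]
    have h3 : |b j - x j| / lam ≤ r j := by
      rw [div_le_iff₀ hl0, mul_comm]
      exact hb j
    have h4 : 0 ≤ |b j - x j| / lam := by positivity
    nlinarith only [h3, h4, ht, ht.1, ht.2]) lam 0 (by
    rw [abs_of_pos hl0]
    linarith) (by simp)
  rw [hge, hge] at h1
  have e1 : (fun j => x j + (b j - x j) / lam * lam) = b := by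
    funext j
    field_simp
    ring
  have e2 : (fun j => x j + (b j - x j) / lam * 0) = x := by
    funext j
    ring
  rw [e1, e2, sub_zero, abs_of_pos hl0] at h1
  exact h1

/-! ### The corrected polynomials -/

/-- The line with the data `s`, at the time `t`. -/
noncomputable def blo {ζ : Type} (s : ((Fin m → ℝ) × (Fin m → ℝ)) × ζ × ℕ) (t : ℝ) :
    Option (Fin m) → ℝ
  | none => t
  | some j => s.1.1 j + s.1.2 j * t

/-- The line, as polynomials in the time. -/
noncomputable def blq {ζ : Type} (s : ((Fin m → ℝ) × (Fin m → ℝ)) × ζ × ℕ) :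
    Option (Fin m) → MvPolynomial (Option (Fin m)) ℝ
  | none => X none
  | some j => C (s.1.1 j) + C (s.1.2 j) * X none

/-- The height of the line above the graph. -/
noncomputable def eso {ζ : Type} (k : Fin m)
    (H : ((Fin m → ℝ) × (Fin m → ℝ)) × ζ × ℕ → MvPolynomial (Option (Fin m)) ℝ)
    (s : ((Fin m → ℝ) × (Fin m → ℝ)) × ζ × ℕ) (t : ℝ) : ℝ :=
  s.1.1 k + s.1.2 k * t - eval (blo s t) (H s)

/-- The corrected polynomial of the line. -/
noncomputable def Hno {ζ : Type} (k : Fin m)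
    (H : ((Fin m → ℝ) × (Fin m → ℝ)) × ζ × ℕ → MvPolynomial (Option (Fin m)) ℝ)
    (s : ((Fin m → ℝ) × (Fin m → ℝ)) × ζ × ℕ) : MvPolynomial (Option (Fin m)) ℝ :=
  H s + (C (s.1.1 k) + C (s.1.2 k) * X none - bind₁ (blq s) (H s))

section line

variable {ζ : Type} (k : Fin m)
  (H : ((Fin m → ℝ) × (Fin m → ℝ)) × ζ × ℕ → MvPolynomial (Option (Fin m)) ℝ)
  (s : ((Fin m → ℝ) × (Fin m → ℝ)) × ζ × ℕ)

theorem eval_Hno (b : Option (Fin m) → ℝ) :
    eval b (Hno k H s) = eval b (H s) + eso k H s (b none) := by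
  have h1 : eval b (bind₁ (blq s) (H s)) = eval (blo s (b none)) (H s) := by
    rw [eval, eval₂Hom_bind₁]
    congr 1
    congr 1
    funext j
    show eval b (blq s j) = blo s (b none) j
    cases j with
    | none => simp [blq, blo]
    | some j => simp [blq, blo]
  unfold Hno eso
  rw [map_add, map_sub, h1, map_add, map_mul, eval_C, eval_C, eval_X]

theorem deg_Hno {K : ℕ} (hK : 1 ≤ K) (hH : (H s).totalDegree ≤ K) :
    (Hno k H s).totalDegree ≤ K := by
  have h0 : ∀ x : ℝ, (C x : MvPolynomial (Option (Fin m)) ℝ).totalDegree ≤ 1 := by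
    intro x
    rw [totalDegree_C]
    exact Nat.zero_le _
  have h1 : ∀ x : ℝ, (C x * X none : MvPolynomial (Option (Fin m)) ℝ).totalDegree ≤ 1 := by
    intro x
    refine (totalDegree_mul _ _).trans ?_
    rw [totalDegree_C, totalDegree_X]
  have h2 : ∀ j, (blq s j).totalDegree ≤ 1 := by
    intro j
    cases j with
    | none => exact (totalDegree_X _).le
    | some j => exact (totalDegree_add _ _).trans (max_le (h0 _) (h1 _))
  unfold Hno
  refine (totalDegree_add _ _).trans (max_le hH ?_)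
  refine (totalDegree_sub _ _).trans (max_le ?_ ?_)
  · exact ((totalDegree_add _ _).trans (max_le (h0 _) (h1 _))).trans hK
  · exact (Pool.SLO.totalDegree_bind₁_le _ h2 _).trans hH

theorem dep_Hno {I : Finset (Fin m)} (hH : DepOn I (H s)) : DepOn I (Hno k H s) := by
  intro b b' hn hb
  rw [eval_Hno, eval_Hno, hH b b' hn hb, hn]

/-- The height, as a polynomial in the relative time. -/
noncomputable def qso (w : ℕ) : Polynomial ℝ := lc w s (some k) - aeval (lc w s) (H s)

theorem eval_lc' (w : ℕ) (τ : ℝ) (o : Option (Fin m)) :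
    (lc w s o).eval τ = blo s (((s.2.2 : ℝ) + τ) / 2 ^ w) o := by
  cases o with
  | none =>
    simp only [lc, blo, Polynomial.eval_add, Polynomial.eval_mul, Polynomial.eval_C,
      Polynomial.eval_X]
    ring
  | some j =>
    simp only [lc, blo, Polynomial.eval_add, Polynomial.eval_mul, Polynomial.eval_C,
      Polynomial.eval_X]
    ring

theorem eval_qso (w : ℕ) (τ : ℝ) :
    (qso k H s w).eval τ = eso k H s (((s.2.2 : ℝ) + τ) / 2 ^ w) := by
  unfold qso eso
  rw [Polynomial.eval_sub, Pool.KBX.eval_aeval_poly, eval_lc']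
  congr 2
  congr 1
  funext o
  exact eval_lc' s w τ o

theorem deg_qso (w : ℕ) {K : ℕ} (hK : 1 ≤ K) (hH : (H s).totalDegree ≤ K) :
    (qso k H s w).natDegree ≤ K := by
  unfold qso
  refine (Polynomial.natDegree_sub_le _ _).trans (max_le ((natDegree_lc w s _).trans hK) ?_)
  exact Pool.KBX.natDegree_aeval_le _ _ (natDegree_lc w s) hH

end line

theorem eso_at (F : Fam m J) (k : Fin m) (w : ℕ) (H : LnT F → MvPolynomial (Option (Fin m)) ℝ)
    (ω : F.Ω) : eso k H (slam F w ω) (F.t ω) = F.x ω k - eval (bt F ω) (H (slam F w ω)) := by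
  have h1 : blo (slam F w ω) (F.t ω) = bt F ω := by
    funext o
    cases o with
    | none => rfl
    | some j =>
      show F.u ω j + F.d ω j * F.t ω = F.u ω j + F.t ω * F.d ω j
      ring
  unfold eso
  rw [h1]
  congr 1
  show F.u ω k + F.d ω k * F.t ω = F.u ω k + F.t ω * F.d ω k
  ring

/-- The rounded point. -/
noncomputable def bho {ζ : Type} (J r : ℕ) (y : (Fin m → ℤ) × (ℕ × ζ)) : Option (Fin m) → ℝ
  | none => (y.2.1 : ℝ) / 2 ^ J
  | some j => (y.1 j : ℝ) / 2 ^ r

/-- The corrected polynomial of the point. -/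
noncomputable def Gno {ζ : Type} (k : Fin m) (J r : ℕ)
    (G : (Fin m → ℤ) × (ℕ × ζ) → MvPolynomial (Option (Fin m)) ℝ)
    (y : (Fin m → ℤ) × (ℕ × ζ)) : MvPolynomial (Option (Fin m)) ℝ :=
  G y + C ((y.1 k : ℝ) / 2 ^ r - eval (bho J r y) (G y))

/-! ### Labels on boxes -/

/-- **The conditions for a two-sided label** of the coordinate `k` over the coordinates in `I`, on
boxes with the sides `2 ^ (-β o)`. -/
structure BxOK (F : Fam m J) (I : Finset (Fin m)) (k : Fin m) (K r w P : ℕ)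
    (β : Option (Fin m) → ℕ) (A : F.Ω → Prop) (G : PtT F → MvPolynomial (Option (Fin m)) ℝ)
    (H : LnT F → MvPolynomial (Option (Fin m)) ℝ) : Prop where
  degG : ∀ y, (G y).totalDegree ≤ K
  degH : ∀ s, (H s).totalDegree ≤ K
  depG : ∀ y, DepOn I (G y)
  depH : ∀ s, DepOn I (H s)
  pos : ∀ ω, A ω → |F.x ω k - eval (bt F ω) (G (ptr F r ω))| ≤ 1 / 2 ^ P
  agr : ∀ ω, A ω → ∀ b : Option (Fin m) → ℝ, (∀ o, |b o - bt F ω o| ≤ 1 / 2 ^ β o) →
    |eval b (G (ptr F r ω)) - eval b (H (slam F w ω))| ≤ 1 / 2 ^ P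

theorem BxOK.sub {F : Fam m J} {I : Finset (Fin m)} {k : Fin m} {K r w P : ℕ}
    {β : Option (Fin m) → ℕ} {A B : F.Ω → Prop} {G : PtT F → MvPolynomial (Option (Fin m)) ℝ}
    {H : LnT F → MvPolynomial (Option (Fin m)) ℝ} (h : BxOK F I k K r w P β A G H)
    (hB : Sub B A) : BxOK F I k K r w P β B G H :=
  ⟨h.degG, h.degH, h.depG, h.depH, fun ω hω => h.pos ω (hB ω hω), fun ω hω => h.agr ω (hB ω hω)⟩

/-- Smaller boxes, smaller precision, larger degree. -/
theorem BxOK.mono {F : Fam m J} {I : Finset (Fin m)} {k : Fin m} {K K' r w P P' : ℕ}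
    {β β' : Option (Fin m) → ℕ} {A : F.Ω → Prop} {G : PtT F → MvPolynomial (Option (Fin m)) ℝ}
    {H : LnT F → MvPolynomial (Option (Fin m)) ℝ} (h : BxOK F I k K r w P β A G H)
    (hK : K ≤ K') (hβ : ∀ o, β o ≤ β' o) (hP : P' ≤ P) : BxOK F I k K' r w P' β' A G H :=
  ⟨fun y => (h.degG y).trans hK, fun s => (h.degH s).trans hK, h.depG, h.depH,
    fun ω hω => (h.pos ω hω).trans (inv_mono hP), fun ω hω b hb =>
      (h.agr ω hω b fun o => (hb o).trans (inv_mono (hβ o))).trans (inv_mono hP)⟩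

/-- Shorter windows. -/
theorem BxOK.win {F : Fam m J} {I : Finset (Fin m)} {k : Fin m} {K r w w' P : ℕ}
    {β : Option (Fin m) → ℕ} {A : F.Ω → Prop} {G : PtT F → MvPolynomial (Option (Fin m)) ℝ}
    {H : LnT F → MvPolynomial (Option (Fin m)) ℝ} (h : BxOK F I k K r w P β A G H)
    (hw : w ≤ w') (hw' : w' ≤ J) :
    BxOK F I k K r w' P β A G (fun s => H (s.1, s.2.1, s.2.2 / 2 ^ (w' - w))) :=
  ⟨h.degG, fun s => h.degH _, h.depG, fun s => h.depH _, h.pos, fun ω hω b hb => by
    have e := slam_coarse F hw hw' ω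
    have h1 := h.agr ω hω b hb
    rw [e] at h1
    exact h1⟩

/-- **The slope law on boxes.** The growth `g`: the polynomial `G` varies by at most `2 ^ g` units
of the sides on the box, so that it may be evaluated at the rounded point. -/
theorem bx_slope (m K : ℕ) (hK : 1 ≤ K) : ∃ C₁ : ℝ, 1 ≤ C₁ ∧
    ∀ (J : ℕ) (F : Fam m J) (I : Finset (Fin m)) (k : Fin m) (w v P Q u g : ℕ)
      (β β' : Option (Fin m) → ℕ) (A : F.Ω → Prop) (G : PtT F → MvPolynomial (Option (Fin m)) ℝ)
      (H : LnT F → MvPolynomial (Option (Fin m)) ℝ) (θ : ℝ) (hA : 0 < Pe F.p A),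
      w ≤ β none → w ≤ J → (∀ o, β o + v ≤ β' o) → (∀ i ∈ I, β (some i) ≤ J) →
      P + v + g ≤ J → Q + u = P + v → 0 ≤ θ → (Fam.sub F A hA).Tm θ →
      C₁ * (θ + 1) ≤ ((J : ℝ) - w) * Real.log 2 → Real.exp (C₁ * (θ + 1)) ≤ 2 ^ u →
      BxOK F I k K J w P β A G H →
      (∀ ω, A ω → ∀ b : Option (Fin m) → ℝ, (∀ o, |b o - bt F ω o| ≤ 1 / 2 ^ β o) →
        ∀ i ∈ I, |eval b (G (ptr F J ω)) - F.x ω k| ≤ 2 ^ g / 2 ^ β (some i)) →
      ∃ B : F.Ω → Prop, Sub B A ∧ Pe F.p A / 2 ≤ Pe F.p B ∧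
        BxOK F I k K J w Q β' B (Gno k J J G) (Hno k H) ∧
        ∀ ω, A ω → ∀ b, |eval b (Gno k J J G (ptr F J ω)) - eval b (G (ptr F J ω))| ≤
          C₁ / 2 ^ P := by
  classical
  obtain ⟨c₁, hc₁, h₁⟩ := box_lip (σ := Option (Fin m)) K
  obtain ⟨c₂, hc₂, h₂⟩ := Pool.Agent.H40.SLP.lip_one K
  obtain ⟨C₀, hC₀, hrem⟩ := Pool.PZ.Zrt.rem_ev (m := m) K
  obtain ⟨c, hc⟩ : ∃ c, c = max c₁ c₂ := ⟨_, rfl⟩
  have hcc1 : c₁ ≤ c := by rw [hc]; exact le_max_left _ _
  have hcc2 : c₂ ≤ c := by rw [hc]; exact le_max_right _ _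
  have hc1 : 1 ≤ c := hc₁.trans hcc1
  obtain ⟨D, hD⟩ : ∃ D : ℝ, D = 4 * c + 2 := ⟨_, rfl⟩
  have hD1 : 1 ≤ D := by rw [hD]; linarith only [hc₁, hcc1]
  have hlD : 0 ≤ Real.log D := Real.log_nonneg hD1
  have hDC : D ≤ C₀ + Real.log D + D := by linarith
  refine ⟨C₀ + Real.log D + D, by linarith, ?_⟩
  intro J F I k w v P Q u g β β' A G H θ hA hwβ hwJ hββ hβJ hPJ hQ hθ hTm hN hu hL hg
  obtain ⟨E, hE⟩ : ∃ E : ℝ, E = Real.exp (C₀ * (θ + 1)) := ⟨_, rfl⟩
  have hE1 : 1 ≤ E := by
    rw [hE, Real.one_le_exp_iff]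
    have : 0 ≤ θ + 1 := by linarith only [hθ]
    nlinarith only [hC₀, hθ]
  have hDE : D * E ≤ 2 ^ u := by
    refine le_trans ?_ hu
    have h1 : Real.exp ((C₀ + Real.log D + D) * (θ + 1)) =
        E * Real.exp ((Real.log D + D) * (θ + 1)) := by
      rw [hE, ← Real.exp_add]
      congr 1
      ring
    rw [h1, mul_comm D]
    refine mul_le_mul_of_nonneg_left ?_ (by linarith only [hE1])
    calc D = Real.exp (Real.log D) := (Real.exp_log (by linarith only [hc₁, hcc1, hD])).symm
      _ ≤ _ := Real.exp_le_exp.2 (by nlinarith only [hc₁, hcc1, hD, hθ, hlD])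
  have hP0 : (0 : ℝ) < 2 ^ P := by positivity
  have hJ0 : (0 : ℝ) < 2 ^ J := by positivity
  -- the deviation of the lines
  obtain ⟨B, hBA, hBP, hB⟩ := hrem J F A hA w (fun s => qso k H s w) (2 / 2 ^ P) θ hwJ
    (fun s => deg_qso k H s w hK (hL.degH s)) (by positivity) hθ hTm (by
      refine le_trans ?_ hN
      refine mul_le_mul_of_nonneg_right ?_ (by linarith only [hθ])
      linarith only [hc₁, hcc1, hD, hlD]) (fun ω hω => by
      show |(qso k H (slam F w ω) w).eval (rt F w ω)| ≤ 2 / 2 ^ P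
      rw [eval_qso, ← t_rt F hwJ, eso_at]
      have h1 := hL.pos ω hω
      have h3 := hL.agr ω hω (bt F ω) fun o => by rw [sub_self, abs_zero]; positivity
      have h4 : (2 : ℝ) / 2 ^ P = 1 / 2 ^ P + 1 / 2 ^ P := by ring
      rw [h4]
      rw [abs_le] at h1 h3 ⊢
      constructor <;> linarith only [h1, h3, h1.1, h1.2, h3.1, h3.2])
  -- the visible constant
  have hnear : ∀ ω, ∀ i, |((F.X J ω i : ℤ) : ℝ) / 2 ^ J - F.x ω i| ≤ 1 / 2 ^ J := fun ω i =>
    Pool.PB.Trl.x_near F J ω i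
  have herr : ∀ ω, A ω → |F.x ω k - eval (bt F ω) (G (ptr F J ω)) -
      (((F.X J ω k : ℤ) : ℝ) / 2 ^ J - eval (bho J J (ptr F J ω)) (G (ptr F J ω)))| ≤
      (1 + c) * 2 ^ g / 2 ^ J := by
    intro ω hω
    have h4 := hnear ω k
    have h2g : (1 : ℝ) ≤ 2 ^ g := one_le_pow₀ (by norm_num)
    -- the point with the coordinates outside `I` unchanged
    obtain ⟨b, hb⟩ : ∃ b : Option (Fin m) → ℝ, b = fun o => match o with
        | none => F.t ω
        | some i => if i ∈ I then ((F.X J ω i : ℤ) : ℝ) / 2 ^ J else F.x ω i := ⟨_, rfl⟩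
    have hbn : b none = F.t ω := by rw [hb]
    have hbi : ∀ i, b (some i) = if i ∈ I then ((F.X J ω i : ℤ) : ℝ) / 2 ^ J else F.x ω i := by
      intro i
      rw [hb]
    have e1 : eval (bho J J (ptr F J ω)) (G (ptr F J ω)) = eval b (G (ptr F J ω)) := by
      refine hL.depG _ _ _ ?_ fun i hi => ?_
      · rw [hbn]
        rfl
      · rw [hbi, if_pos hi]
        rfl
    have h5 : |eval b (G (ptr F J ω)) - eval (bt F ω) (G (ptr F J ω))| ≤ c * 2 ^ g / 2 ^ J := by
      rcases I.eq_empty_or_nonempty with hI | hI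
      · have e2 : eval b (G (ptr F J ω)) = eval (bt F ω) (G (ptr F J ω)) := by
          refine hL.depG _ _ _ hbn fun i hi => ?_
          rw [hI] at hi
          exact absurd hi (Finset.notMem_empty i)
        rw [e2, sub_self, abs_zero]
        positivity
      · obtain ⟨i₀, hi₀, hmax⟩ := Finset.exists_max_image I (fun i => β (some i)) hI
        have hr0 : (0 : ℝ) < 2 ^ β (some i₀) := by positivity
        have h6 := h₁ (G (ptr F J ω) - C (F.x ω k)) (bt F ω) b (fun o => 1 / 2 ^ β o)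
          (2 ^ β (some i₀) / 2 ^ J) (2 ^ g / 2 ^ β (some i₀))
          ((totalDegree_sub _ _).trans (max_le (hL.degG _) (by
            rw [totalDegree_C]; exact Nat.zero_le _))) (by positivity) (by
            rw [div_le_one hJ0]
            exact pow_le_pow_right₀ (by norm_num) (hβJ i₀ hi₀)) (by
            intro y hy
            rw [map_sub, eval_C]
            exact hg ω hω y hy i₀ hi₀) (by
            intro o
            cases o with
            | none =>
              rw [hbn]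
              show |F.t ω - F.t ω| ≤ _
              rw [sub_self, abs_zero]
              positivity
            | some i =>
              rw [hbi]
              show |(if i ∈ I then ((F.X J ω i : ℤ) : ℝ) / 2 ^ J else F.x ω i) - F.x ω i| ≤ _
              by_cases hi : i ∈ I
              · rw [if_pos hi]
                refine (hnear ω i).trans ?_
                have h7 : (2 : ℝ) ^ β (some i) ≤ 2 ^ β (some i₀) :=
                  pow_le_pow_right₀ (by norm_num) (hmax i hi)
                have h8 : (0 : ℝ) < 2 ^ β (some i) := by positivity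
                rw [div_mul_div_comm, mul_one, div_le_div_iff₀ hJ0 (by positivity)]
                nlinarith only [hJ0, h7]
              · rw [if_neg hi, sub_self, abs_zero]
                positivity)
        rw [map_sub, map_sub, eval_C, eval_C] at h6
        have h7 : c₁ * (2 ^ g / 2 ^ β (some i₀)) * (2 ^ β (some i₀) / 2 ^ J) ≤
            c * 2 ^ g / 2 ^ J := by
          have h8 : c₁ * (2 ^ g / 2 ^ β (some i₀)) * (2 ^ β (some i₀) / 2 ^ J) =
              c₁ * (2 ^ g / 2 ^ J) := by field_simp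
          rw [h8, mul_div_assoc]
          exact mul_le_mul_of_nonneg_right hcc1 (by positivity)
        have h9 : eval b (G (ptr F J ω)) - F.x ω k - (eval (bt F ω) (G (ptr F J ω)) - F.x ω k) =
            eval b (G (ptr F J ω)) - eval (bt F ω) (G (ptr F J ω)) := by ring
        rw [h9] at h6
        exact h6.trans h7
    rw [e1]
    have h6 : (1 : ℝ) / 2 ^ J ≤ 2 ^ g / 2 ^ J := div_le_div_of_nonneg_right h2g hJ0.le
    have h7 : (1 + c) * 2 ^ g / 2 ^ J = 2 ^ g / 2 ^ J + c * 2 ^ g / 2 ^ J := by ring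
    rw [h7]
    have h8 := h4.trans h6
    rw [abs_le] at h8 h5 ⊢
    constructor <;> linarith only [h5, h8, h5.1, h5.2, h8.1, h8.2]
  have hPv : (1 + c) * 2 ^ g / (2 : ℝ) ^ J ≤ (1 + c) / 2 ^ (P + v) := by
    rw [div_le_div_iff₀ hJ0 (by positivity), mul_assoc, ← pow_add]
    refine mul_le_mul_of_nonneg_left ?_ (by linarith only [hc₁, hcc1])
    exact pow_le_pow_right₀ (by norm_num) (by omega)
  have hGn : ∀ ω b, eval b (Gno k J J G (ptr F J ω)) = eval b (G (ptr F J ω)) +
      (((F.X J ω k : ℤ) : ℝ) / 2 ^ J - eval (bho J J (ptr F J ω)) (G (ptr F J ω))) := by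
    intro ω b
    unfold Gno
    rw [map_add, eval_C]
    rfl
  have hPv0 : (0 : ℝ) < 2 ^ (P + v) := by positivity
  have hQe : (1 : ℝ) / 2 ^ Q = 2 ^ u / 2 ^ (P + v) := by
    rw [← hQ, pow_add]
    field_simp
  refine ⟨B, hBA, hBP, ⟨fun y => ?_, fun s => deg_Hno k H s hK (hL.degH s), fun y => ?_,
    fun s => dep_Hno k H s (hL.depH s), fun ω hω => ?_, fun ω hω b hb => ?_⟩, ?_⟩
  · unfold Gno
    refine (totalDegree_add _ _).trans (max_le (hL.degG y) ?_)
    rw [totalDegree_C]
    exact Nat.zero_le _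
  · intro b b' hn hb
    unfold Gno
    rw [map_add, map_add, eval_C, eval_C, hL.depG y b b' hn hb]
  · have h1 := herr ω (hBA ω hω)
    rw [hGn]
    have h2 : |F.x ω k - (eval (bt F ω) (G (ptr F J ω)) +
        (((F.X J ω k : ℤ) : ℝ) / 2 ^ J - eval (bho J J (ptr F J ω)) (G (ptr F J ω))))| ≤
        (1 + c) / 2 ^ (P + v) := by
      refine le_trans (le_of_eq ?_) (h1.trans hPv)
      congr 1
      ring
    refine h2.trans ?_
    rw [hQe]
    refine div_le_div_of_nonneg_right ?_ hPv0.le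
    have : 1 + c ≤ D * E := by rw [hD]; nlinarith only [hc₁, hcc1, hE1]
    linarith only [hDE, this]
  · have hAω := hBA ω hω
    rw [hGn, eval_Hno]
    -- the difference of the two polynomials
    have hv1 : (1 : ℝ) / 2 ^ v ≤ 1 := by
      rw [div_le_one (by positivity)]
      exact one_le_pow₀ (by norm_num)
    have h3 := h₁ (G (ptr F J ω) - H (slam F w ω)) (bt F ω) b (fun o => 1 / 2 ^ β o) (1 / 2 ^ v)
      (1 / 2 ^ P) ((totalDegree_sub _ _).trans (max_le (hL.degG _) (hL.degH _)))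
      (by positivity) hv1 (by
        intro y hy
        rw [map_sub]
        exact hL.agr ω hAω y hy) (by
        intro o
        refine (hb o).trans ?_
        rw [div_mul_div_comm, one_mul, ← pow_add]
        refine inv_mono ?_
        have := hββ o
        omega)
    rw [map_sub, map_sub] at h3
    have h4 : c₁ * (1 / 2 ^ P) * (1 / 2 ^ v) ≤ c / 2 ^ (P + v) := by
      have h6 : c₁ * (1 / 2 ^ P) * (1 / 2 ^ v) = c₁ / (2 : ℝ) ^ (P + v) := by
        rw [pow_add]
        field_simp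
      rw [h6]
      exact div_le_div_of_nonneg_right hcc1 hPv0.le
    -- the time
    have hw0 : (0 : ℝ) < 2 ^ w := by positivity
    have h5 : eso k H (slam F w ω) (F.t ω) = (qso k H (slam F w ω) w).eval (rt F w ω) := by
      rw [eval_qso, ← t_rt F hwJ]
    have hb1 : |b none - F.t ω| ≤ 1 / 2 ^ (β none + v) :=
      (hb none).trans (inv_mono (hββ none))
    obtain ⟨τ', hτ'⟩ : ∃ τ', τ' = rt F w ω + 2 ^ w * (b none - F.t ω) := ⟨_, rfl⟩
    have h6 : eso k H (slam F w ω) (b none) = (qso k H (slam F w ω) w).eval τ' := by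
      rw [eval_qso, hτ']
      congr 1
      have h7 := t_rt F hwJ ω
      rw [eq_div_iff hw0.ne'] at h7 ⊢
      linear_combination h7
    have hd : 2 ^ w * |b none - F.t ω| ≤ 1 / 2 ^ v := by
      calc 2 ^ w * |b none - F.t ω| ≤ 2 ^ w * (1 / 2 ^ (β none + v)) :=
            mul_le_mul_of_nonneg_left hb1 hw0.le
        _ ≤ 2 ^ β none * (1 / 2 ^ (β none + v)) := mul_le_mul_of_nonneg_right
            (pow_le_pow_right₀ (by norm_num) hwβ) (by positivity)
        _ = 1 / 2 ^ v := by
            rw [pow_add]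
            field_simp
    have hrt := rt_mem F w ω
    have hτ2 : |τ'| ≤ 2 := by
      rw [hτ']
      refine (abs_add_le _ _).trans ?_
      rw [abs_mul, abs_of_pos hw0, abs_of_nonneg hrt.1]
      linarith only [hv1, hd, hrt, hrt.2]
    have hM0 : 0 ≤ E * (2 / 2 ^ P) := by positivity
    have h7 := h₂ (qso k H (slam F w ω) w) (E * (2 / 2 ^ P)) (deg_qso k H _ w hK (hL.degH _))
      (fun t ht => by rw [hE]; exact hB ω hω t ht) τ' (rt F w ω)
      hτ2 (by rw [abs_of_nonneg hrt.1]; linarith only [hrt, hrt.2])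
    have h8 : |τ' - rt F w ω| ≤ 1 / 2 ^ v := by
      rw [hτ']
      have : rt F w ω + 2 ^ w * (b none - F.t ω) - rt F w ω = 2 ^ w * (b none - F.t ω) := by ring
      rw [this, abs_mul, abs_of_pos hw0]
      exact hd
    have h9 : c₂ * (E * (2 / 2 ^ P)) * |τ' - rt F w ω| ≤ 2 * c * E / 2 ^ (P + v) := by
      calc c₂ * (E * (2 / 2 ^ P)) * |τ' - rt F w ω| ≤ c * (E * (2 / 2 ^ P)) * (1 / 2 ^ v) :=
            mul_le_mul (mul_le_mul_of_nonneg_right hcc2 hM0) h8 (abs_nonneg _)
              (mul_nonneg (by linarith only [hc₁, hcc1]) hM0)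
        _ = _ := by rw [pow_add]; field_simp
    rw [← h5, ← h6] at h7
    have h10 := eso_at F k w H ω
    have h3' := h3.trans h4
    have h7' := h7.trans h9
    have h11 := (herr ω hAω).trans hPv
    have hfin : c / (2 : ℝ) ^ (P + v) + 2 * c * E / 2 ^ (P + v) + (1 + c) / 2 ^ (P + v) ≤
        1 / 2 ^ Q := by
      rw [hQe, ← add_div, ← add_div]
      refine div_le_div_of_nonneg_right (le_trans ?_ hDE) hPv0.le
      rw [hD]
      nlinarith only [hE1, hc₁, hcc1]
    refine le_trans ?_ hfin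
    rw [abs_le] at h3' h7' h11 ⊢
    constructor <;> linarith only [h10, h3', h7', h11, h3'.1, h3'.2, h7'.1, h7'.2, h11.1, h11.2]
  · intro ω hω b
    rw [hGn]
    have h1 := hL.pos ω hω
    have h2 := (herr ω hω).trans hPv
    have e1 : eval b (G (ptr F J ω)) + (((F.X J ω k : ℤ) : ℝ) / 2 ^ J -
        eval (bho J J (ptr F J ω)) (G (ptr F J ω))) - eval b (G (ptr F J ω)) =
        ((F.X J ω k : ℤ) : ℝ) / 2 ^ J - eval (bho J J (ptr F J ω)) (G (ptr F J ω)) := by ring
    rw [e1]
    have h3 : (1 + c) / (2 : ℝ) ^ (P + v) ≤ (1 + c) / 2 ^ P := by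
      refine div_le_div_of_nonneg_left (by linarith only [hc₁, hcc1]) hP0 ?_
      exact pow_le_pow_right₀ (by norm_num) (Nat.le_add_right P v)
    have h4 : 1 / (2 : ℝ) ^ P + (1 + c) / 2 ^ P ≤ (C₀ + Real.log D + D) / 2 ^ P := by
      rw [← add_div]
      refine div_le_div_of_nonneg_right ?_ hP0.le
      have : 1 + (1 + c) ≤ D := by rw [hD]; linarith only [hc₁, hcc1]
      linarith only [hc₁, hC₀, hcc1, hD, hlD]
    have h2' := h2.trans h3
    rw [abs_le] at h1 h2' ⊢
    constructor <;> linarith only [h1, h4, h2', h1.1, h1.2, h2'.1, h2'.2]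

end Pool.GEN
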