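import Pool.Agent.H2.GEN.ChG
import Pool.Agent.H2.GEN.BxS

/-!
# The slope law for chains

A chain of labels on natural boxes of radius `2 ^ (-a)` gives, on a large subevent, a chain on
natural boxes of radius `2 ^ (-(a + v))`, all of whose precisions increase by `v`, up to the defect
of the times (`ch_slope`).
-/

set_option autoImplicit false

namespace Pool.CHT

open Finset Real MvPolynomial
open Pool.Agent.H49.Ent Pool.Agent.H32.Dense Pool.STK Pool.KA Pool.KSAT Pool.K2S Pool.PB Pool.S6C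
open Pool.GEN
open Pool.FLF (Fam.sub)
open Pool.PB.Trl (rt rt_mem t_rt)

variable {m J : ℕ}

/-! ### The curve between two points of a natural box -/

/-- The degree along a chain, in all directions. -/
def dga (K : ℕ → ℕ) (k : ℕ) : ℕ := ∏ l ∈ range k, max (K l) 1

theorem one_le_dga (K : ℕ → ℕ) (k : ℕ) : 1 ≤ dga K k :=
  Finset.one_le_prod'' fun _ => le_max_right _ _

/-- **The curve** from `b` to `b'`, which is affine in the time and in the distances to the labels.
-/
theorem curve_all {c : ℕ → Fin m} {i : ℕ} (hc : Set.InjOn c (Set.Iio i)) {K : ℕ → ℕ}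
    {G : ℕ → MvPolynomial (Option (Fin m)) ℝ} (hdeg : ∀ l, (G l).totalDegree ≤ K l)
    (hdep : ∀ l, DepC c l (G l)) (b b' : Option (Fin m) → ℝ) (k : ℕ) :
    k ≤ i → ∃ p : Option (Fin m) → Polynomial ℝ, (∀ o, (p o).natDegree ≤ dga K k) ∧
      (∀ s, (p none).eval s = b none + s * (b' none - b none)) ∧
      (∀ l < k, ∀ s, (p (some (c l))).eval s = eval (fun o => (p o).eval s) (G l) +
        ((b (some (c l)) - eval b (G l)) + s * ((b' (some (c l)) - eval b' (G l)) -
          (b (some (c l)) - eval b (G l))))) ∧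
      (∀ l < k, (p (some (c l))).eval 0 = b (some (c l))) ∧
      ∀ l < k, (p (some (c l))).eval 1 = b' (some (c l)) := by
  classical
  induction k with
  | zero =>
    intro _
    refine ⟨fun o => if o = none then Polynomial.C (b none) +
      Polynomial.C (b' none - b none) * Polynomial.X else 0, fun o => ?_, fun s => ?_,
      fun l hl => absurd hl (Nat.not_lt_zero l), fun l hl => absurd hl (Nat.not_lt_zero l),
      fun l hl => absurd hl (Nat.not_lt_zero l)⟩
    · show (if o = none then Polynomial.C (b none) +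
        Polynomial.C (b' none - b none) * Polynomial.X else 0).natDegree ≤ 1
      split_ifs
      · refine (Polynomial.natDegree_add_le _ _).trans (max_le ?_ ?_)
        · rw [Polynomial.natDegree_C]
          exact Nat.zero_le _
        · exact (Polynomial.natDegree_C_mul_le _ _).trans Polynomial.natDegree_X_le
      · rw [Polynomial.natDegree_zero]
        exact Nat.zero_le _
    · simp only [if_true, Polynomial.eval_add, Polynomial.eval_mul, Polynomial.eval_C,
        Polynomial.eval_X]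
      ring
  | succ k ih =>
    intro hi
    obtain ⟨p, h1, h2, h3, h4, h5⟩ := ih (by omega)
    obtain ⟨y, hy⟩ : ∃ y, y = b (some (c k)) - eval b (G k) := ⟨_, rfl⟩
    obtain ⟨y', hy'⟩ : ∃ y', y' = b' (some (c k)) - eval b' (G k) := ⟨_, rfl⟩
    obtain ⟨q, hq⟩ : ∃ q : Option (Fin m) → Polynomial ℝ, q = Function.update p (some (c k))
        (MvPolynomial.aeval p (G k) + (Polynomial.C y + Polynomial.C (y' - y) * Polynomial.X)) :=
      ⟨_, rfl⟩
    have hqk : q (some (c k)) = MvPolynomial.aeval p (G k) +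
        (Polynomial.C y + Polynomial.C (y' - y) * Polynomial.X) := by
      rw [hq]
      exact Function.update_self _ _ _
    have hqo : ∀ o, o ≠ some (c k) → q o = p o := by
      intro o ho
      rw [hq]
      exact Function.update_of_ne ho _ _
    have hne : ∀ l < k, (some (c l) : Option (Fin m)) ≠ some (c k) := by
      intro l hl h
      have h7 := hc (show l ∈ Set.Iio i from (hl.trans_le (by omega : k ≤ i)))
        (show k ∈ Set.Iio i from (by omega : k < i)) (Option.some_injective _ h)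
      omega
    have hqn : q none = p none := hqo _ (by simp)
    have hev : ∀ l ≤ k, ∀ s, eval (fun o => (q o).eval s) (G l) =
        eval (fun o => (p o).eval s) (G l) := by
      intro l hl s
      refine hdep l _ _ ?_ fun l' hl' => ?_
      · show (q none).eval s = (p none).eval s
        rw [hqn]
      · show (q (some (c l'))).eval s = (p (some (c l'))).eval s
        rw [hqo _ (hne l' (by omega))]
    have hqe : ∀ s, (q (some (c k))).eval s = eval (fun o => (p o).eval s) (G k) +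
        (y + s * (y' - y)) := by
      intro s
      rw [hqk, Polynomial.eval_add, Pool.KBX.eval_aeval_poly]
      simp only [Polynomial.eval_add, Polynomial.eval_mul, Polynomial.eval_C, Polynomial.eval_X]
      ring
    refine ⟨q, fun o => ?_, fun s => ?_, fun l hl s => ?_, fun l hl => ?_, fun l hl => ?_⟩
    · have e1 : dga K (k + 1) = dga K k * max (K k) 1 := by
        unfold dga
        rw [Finset.prod_range_succ]
      rw [e1]
      by_cases ho : o = some (c k)
      · rw [ho, hqk]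
        refine (Polynomial.natDegree_add_le _ _).trans (max_le ?_ ?_)
        · refine (natDegree_aeval_mul (G k) p h1 (hdeg k)).trans ?_
          rw [mul_comm]
          exact Nat.mul_le_mul_left _ (le_max_left _ _)
        · refine (Polynomial.natDegree_add_le _ _).trans (max_le ?_ ?_)
          · rw [Polynomial.natDegree_C]
            exact Nat.zero_le _
          · refine ((Polynomial.natDegree_C_mul_le _ _).trans Polynomial.natDegree_X_le).trans ?_
            exact Nat.mul_pos (one_le_dga K k) (lt_max_of_lt_right one_pos)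
      · rw [hqo o ho]
        exact (h1 o).trans (Nat.le_mul_of_pos_right _ (lt_max_of_lt_right one_pos))
    · rw [hqn]
      exact h2 s
    · rcases Nat.lt_or_ge l k with h7 | h7
      · rw [hqo _ (hne l h7), hev l h7.le]
        exact h3 l h7 s
      · have : l = k := by omega
        subst this
        rw [hev l le_rfl, hqe, hy, hy']
    · rcases Nat.lt_or_ge l k with h7 | h7
      · rw [hqo _ (hne l h7)]
        exact h4 l h7
      · have : l = k := by omega
        subst this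
        rw [hqe, hdep l (fun o => (p o).eval 0) b (by
          show (p none).eval 0 = b none
          rw [h2]; ring) h4, hy]
        ring
    · rcases Nat.lt_or_ge l k with h7 | h7
      · rw [hqo _ (hne l h7)]
        exact h5 l h7
      · have : l = k := by omega
        subst this
        rw [hqe, hdep l (fun o => (p o).eval 1) b' (by
          show (p none).eval 1 = b' none
          rw [h2]; ring) h5, hy, hy']
        ring

/-- **The increments** of a polynomial on a natural box. -/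
theorem nbx_lip (D : ℕ) : ∃ C : ℝ, 1 ≤ C ∧ ∀ {m : ℕ} {c : ℕ → Fin m} {i : ℕ} {K : ℕ → ℕ}
    {G : ℕ → MvPolynomial (Option (Fin m)) ℝ} {Q : MvPolynomial (Option (Fin m)) ℝ}
    {g : ℕ → ℕ} {a D₀ : ℕ} {t M lam : ℝ} {b b' : Option (Fin m) → ℝ}, Set.InjOn c (Set.Iio i) →
    (∀ l, (G l).totalDegree ≤ K l) → (∀ l, DepC c l (G l)) → DepC c i Q → Q.totalDegree ≤ D₀ →
    D₀ * dga K i ≤ D → 0 < lam → lam ≤ 1 →
    (∀ b : Option (Fin m) → ℝ, |b none - t| ≤ 1 / 2 ^ a →
      (∀ l < i, |b (some (c l)) - eval b (G l)| ≤ 4 / 2 ^ g l) → |eval b Q| ≤ M) →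
    b none = t → (∀ l < i, |b (some (c l)) - eval b (G l)| ≤ 1 / 2 ^ g l) →
    |b' none - t| ≤ lam / 2 ^ a →
    (∀ l < i, |(b' (some (c l)) - eval b' (G l)) - (b (some (c l)) - eval b (G l))| ≤
      lam / 2 ^ g l) → |eval b' Q - eval b Q| ≤ C * M * lam := by
  obtain ⟨C, hC, h⟩ := Pool.Agent.H40.SLP.lip_one D
  refine ⟨C, hC, ?_⟩
  intro m c i K G Q g a D₀ t M lam b b' hc hdeg hdep hQ hQd hD hl0 hl1 hM hb0 hb hb' hbb
  obtain ⟨p, h1, h2, h3, h4, h5⟩ := curve_all hc hdeg hdep b b' i le_rfl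
  obtain ⟨f, hf⟩ : ∃ f : Polynomial ℝ, f = (MvPolynomial.aeval p Q).comp
      (Polynomial.C (1 / lam) * Polynomial.X) := ⟨_, rfl⟩
  have hfe : ∀ s, f.eval s = eval (fun o => (p o).eval (s / lam)) Q := by
    intro s
    have e1 : (Polynomial.C (1 / lam) * Polynomial.X).eval s = s / lam := by
      simp only [Polynomial.eval_mul, Polynomial.eval_C, Polynomial.eval_X]
      ring
    rw [hf, Polynomial.eval_comp, e1, Pool.KBX.eval_aeval_poly]
  have hfd : f.natDegree ≤ D := by
    rw [hf]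
    refine Polynomial.natDegree_comp_le.trans ?_
    calc (MvPolynomial.aeval p Q).natDegree *
          (Polynomial.C (1 / lam : ℝ) * Polynomial.X).natDegree ≤ D * 1 :=
          Nat.mul_le_mul ((natDegree_aeval_mul Q p h1 hQd).trans hD)
            ((Polynomial.natDegree_C_mul_le _ _).trans Polynomial.natDegree_X_le)
      _ = D := mul_one _
  have h6 := h f M hfd (by
    intro τ hτ
    rw [hfe]
    have hs0 : 0 ≤ τ / lam := div_nonneg hτ.1 hl0.le
    have hs1 : τ / lam * lam ≤ 1 := by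
      rw [div_mul_cancel₀ _ hl0.ne']
      exact hτ.2
    refine hM _ ?_ fun l hl => ?_
    · show |(p none).eval (τ / lam) - t| ≤ _
      have e1 : (p none).eval (τ / lam) - t = τ / lam * (b' none - t) := by
        rw [h2, hb0]; ring
      rw [e1, abs_mul, abs_of_nonneg hs0]
      calc τ / lam * |b' none - t| ≤ τ / lam * (lam / 2 ^ a) := mul_le_mul_of_nonneg_left hb' hs0
        _ = (τ / lam * lam) / 2 ^ a := by ring
        _ ≤ 1 / 2 ^ a := div_le_div_of_nonneg_right hs1 (by positivity)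
    · show |(p (some (c l))).eval (τ / lam) - eval (fun o => (p o).eval (τ / lam)) (G l)| ≤ _
      rw [h3 l hl, add_sub_cancel_left]
      refine (abs_add_le _ _).trans ?_
      rw [abs_mul, abs_of_nonneg hs0]
      have h7 : τ / lam * |(b' (some (c l)) - eval b' (G l)) - (b (some (c l)) - eval b (G l))| ≤
          1 / 2 ^ g l := by
        calc _ ≤ τ / lam * (lam / 2 ^ g l) := mul_le_mul_of_nonneg_left (hbb l hl) hs0
          _ = (τ / lam * lam) / 2 ^ g l := by ring
          _ ≤ 1 / 2 ^ g l := div_le_div_of_nonneg_right hs1 (by positivity)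
      have h8 : (4 : ℝ) / 2 ^ g l = 4 * (1 / 2 ^ g l) := by ring
      have h9 : (0 : ℝ) ≤ 1 / 2 ^ g l := by positivity
      rw [h8]
      linarith [hb l hl]) lam 0 (by rw [abs_of_pos hl0]; linarith) (by simp)
  rw [hfe, hfe, div_self hl0.ne', zero_div, sub_zero, abs_of_pos hl0] at h6
  have e0 : eval (fun o => (p o).eval 0) Q = eval b Q := hQ _ _ (by
    show (p none).eval 0 = b none
    rw [h2]; ring) h4
  have e1 : eval (fun o => (p o).eval 1) Q = eval b' Q := hQ _ _ (by
    show (p none).eval 1 = b' none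
    rw [h2]; ring) h5
  rw [e0, e1] at h6
  exact h6

/-- Points with given distances to the labels. -/
theorem pt_adapt {c : ℕ → Fin m} {i : ℕ} (hc : Set.InjOn c (Set.Iio i))
    {G : ℕ → MvPolynomial (Option (Fin m)) ℝ} (hdep : ∀ l, DepC c l (G l)) (t : ℝ) (y : ℕ → ℝ)
    (k : ℕ) : k ≤ i → ∃ b : Option (Fin m) → ℝ, b none = t ∧
      ∀ l < k, b (some (c l)) = eval b (G l) + y l := by
  classical
  induction k with
  | zero => exact fun _ => ⟨fun _ => t, rfl, fun l hl => absurd hl (Nat.not_lt_zero l)⟩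
  | succ k ih =>
    intro hi
    obtain ⟨b, h1, h2⟩ := ih (by omega)
    obtain ⟨b', hb'⟩ : ∃ b' : Option (Fin m) → ℝ, b' = Function.update b (some (c k))
        (eval b (G k) + y k) := ⟨_, rfl⟩
    have hk : b' (some (c k)) = eval b (G k) + y k := by
      rw [hb']
      exact Function.update_self _ _ _
    have ho : ∀ o, o ≠ some (c k) → b' o = b o := by
      intro o ho
      rw [hb']
      exact Function.update_of_ne ho _ _
    have hne : ∀ l < k, (some (c l) : Option (Fin m)) ≠ some (c k) := by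
      intro l hl h
      have h7 := hc (show l ∈ Set.Iio i from (hl.trans_le (by omega : k ≤ i)))
        (show k ∈ Set.Iio i from (by omega : k < i)) (Option.some_injective _ h)
      omega
    have hev : ∀ l ≤ k, eval b' (G l) = eval b (G l) := fun l hl =>
      hdep l _ _ (ho _ (by simp)) fun l' hl' => ho _ (hne l' (by omega))
    refine ⟨b', by rw [ho _ (by simp)]; exact h1, fun l hl => ?_⟩
    rcases Nat.lt_or_ge l k with h7 | h7
    · rw [ho _ (hne l h7), hev l h7.le]
      exact h2 l h7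
    · have : l = k := by omega
      subst this
      rw [hk, hev l le_rfl]

/-- The growth from a natural box to the box of four times the sides. -/
theorem nbx_dbl (r : ℕ) (K : ℕ → ℕ) : ∃ c₀ : ℕ, ∀ {m : ℕ} {c : ℕ → Fin m} {i : ℕ}
    {G : ℕ → MvPolynomial (Option (Fin m)) ℝ} {Q : MvPolynomial (Option (Fin m)) ℝ}
    {g : ℕ → ℕ} {a : ℕ} {t M : ℝ}, i < r → Set.InjOn c (Set.Iio i) →
    (∀ l, (G l).totalDegree ≤ K l) → (∀ l, DepC c l (G l)) → DepC c i Q →
    Q.totalDegree ≤ K i → 0 ≤ M →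
    (∀ b, NBx c G g a t i b → |eval b Q| ≤ M) → ∀ b : Option (Fin m) → ℝ,
      |b none - t| ≤ 1 / 2 ^ a → (∀ l < i, |b (some (c l)) - eval b (G l)| ≤ 4 / 2 ^ g l) →
        |eval b Q| ≤ 2 ^ c₀ * M := by
  obtain ⟨D, hD⟩ : ∃ D, D = ∑ i ∈ range r, K i * dga K i := ⟨_, rfl⟩
  obtain ⟨C, hC, h⟩ := grow_one D
  obtain ⟨c₀, hc₀⟩ := pow_unbounded_of_one_lt (C * 2 ^ (2 * D)) (one_lt_two (α := ℝ))
  refine ⟨c₀, ?_⟩
  intro m c i G Q g a t M hi hc hdeg hdep hQ hQd hM0 hM b hb0 hb
  have hDi : K i * dga K i ≤ D := by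
    rw [hD]
    exact Finset.single_le_sum (f := fun i => K i * dga K i) (fun _ _ => Nat.zero_le _)
      (mem_range.2 hi)
  obtain ⟨b₀, h01, h02⟩ := pt_adapt hc hdep t (fun _ => 0) i le_rfl
  obtain ⟨p, h1, h2, h3, h4, h5⟩ := curve_all hc hdeg hdep b₀ b i le_rfl
  have h6 := h (MvPolynomial.aeval p Q) M 2 (K i * dga K i) (natDegree_aeval_mul Q p h1 hQd) hDi
    (fun τ hτ => by
      rw [Pool.KBX.eval_aeval_poly]
      have hs0 : 0 ≤ τ / 2 ^ 2 := div_nonneg hτ.1 (by positivity)
      have hs1 : τ / 2 ^ 2 ≤ 1 / 4 := by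
        have := hτ.2
        have e1 : (2 : ℝ) ^ 2 = 4 := by norm_num
        rw [e1]
        linarith
      refine hM _ ⟨?_, fun l hl => ?_⟩
      · show |(p none).eval (τ / 2 ^ 2) - t| ≤ _
        have e1 : (p none).eval (τ / 2 ^ 2) - t = τ / 2 ^ 2 * (b none - t) := by
          rw [h2, h01]; ring
        rw [e1, abs_mul, abs_of_nonneg hs0]
        calc τ / 2 ^ 2 * |b none - t| ≤ 1 * (1 / 2 ^ a) :=
              mul_le_mul (by linarith) hb0 (abs_nonneg _) (by norm_num)
          _ = _ := one_mul _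
      · show |(p (some (c l))).eval (τ / 2 ^ 2) - eval (fun o => (p o).eval (τ / 2 ^ 2)) (G l)| ≤ _
        rw [h3 l hl, add_sub_cancel_left, h02 l hl, add_zero, sub_self, zero_add, sub_zero,
          abs_mul, abs_of_nonneg hs0]
        calc τ / 2 ^ 2 * |b (some (c l)) - eval b (G l)| ≤ 1 / 4 * (4 / 2 ^ g l) :=
              mul_le_mul hs1 (hb l hl) (abs_nonneg _) (by norm_num)
          _ = _ := by ring)
  rw [Pool.KBX.eval_aeval_poly] at h6
  have e1 : eval (fun o => (p o).eval 1) Q = eval b Q := hQ _ _ (by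
    show (p none).eval 1 = b none
    rw [h2]; ring) h5
  rw [e1] at h6
  refine h6.trans (mul_le_mul_of_nonneg_right ?_ hM0)
  refine le_trans ?_ hc₀.le
  refine mul_le_mul_of_nonneg_left (pow_le_pow_right₀ (by norm_num) ?_) (by linarith)
  exact Nat.mul_le_mul_left 2 hDi

/-! ### The rounding of the point -/

/-- The mean value inequality in the coordinates of a chain. -/
theorem mv_chain {c : ℕ → Fin m} {i : ℕ} {Q : MvPolynomial (Option (Fin m)) ℝ} (hQ : DepC c i Q)
    {b b' : Option (Fin m) → ℝ} {L δ : ℝ} (hL0 : 0 ≤ L) (hδ0 : 0 ≤ δ) (hn : b' none = b none)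
    (hδ : ∀ l < i, |b' (some (c l)) - b (some (c l))| ≤ δ)
    (hL : ∀ y : Option (Fin m) → ℝ, y none = b none →
      (∀ l < i, |y (some (c l)) - b (some (c l))| ≤ δ) →
      ∀ l < i, |eval y (pderiv (some (c l)) Q)| ≤ L) :
    |eval b' Q - eval b Q| ≤ L * (i * δ) := by
  classical
  obtain ⟨z, hz⟩ : ∃ z : Option (Fin m) → ℝ, z = fun o =>
      if ∃ l < i, o = some (c l) then b' o else b o := ⟨_, rfl⟩
  have hzc : ∀ l < i, z (some (c l)) = b' (some (c l)) := by
    intro l hl
    rw [hz]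
    exact if_pos ⟨l, hl, rfl⟩
  have hzo : ∀ o, (¬ ∃ l < i, o = some (c l)) → z o = b o := by
    intro o ho
    rw [hz]
    exact if_neg ho
  have hzn : z none = b none := hzo none (by rintro ⟨l, _, h⟩; exact absurd h (by simp))
  have hzQ : eval z Q = eval b' Q := hQ _ _ (by rw [hzn, hn]) hzc
  rw [← hzQ]
  obtain ⟨g, hg⟩ : ∃ g : Option (Fin m) → Polynomial ℝ, g = fun j =>
      Polynomial.C (b j) + Polynomial.C (z j - b j) * Polynomial.X := ⟨_, rfl⟩
  have hge : ∀ (P : MvPolynomial (Option (Fin m)) ℝ) (t : ℝ), (MvPolynomial.aeval g P).eval t =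
      MvPolynomial.eval (fun j => b j + (z j - b j) * t) P := by
    intro P t
    rw [Pool.KBX.eval_aeval_poly]
    congr 1
    congr 1
    funext j
    rw [hg]
    simp
  have hd : ∀ t, (Polynomial.derivative (MvPolynomial.aeval g Q)).eval t =
      ∑ o, eval (fun j => b j + (z j - b j) * t) (pderiv o Q) * (z o - b o) := by
    intro t
    rw [der_aevalσ, Polynomial.eval_finsetSum]
    refine Finset.sum_congr rfl fun o _ => ?_
    rw [Polynomial.eval_mul, hge]
    congr 1
    rw [hg]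
    simp
  obtain ⟨τ, hτ, hτd⟩ := exists_deriv_eq_slope (fun t => (MvPolynomial.aeval g Q).eval t)
    (zero_lt_one' ℝ) (Polynomial.continuous _).continuousOn
    (Polynomial.differentiable _).differentiableOn
  have e1 : (MvPolynomial.aeval g Q).eval 1 = eval z Q := by
    rw [hge]
    congr 2
    funext j
    ring
  have e0 : (MvPolynomial.aeval g Q).eval 0 = eval b Q := by
    rw [hge]
    congr 2
    funext j
    ring
  rw [Polynomial.deriv, hd] at hτd
  simp only [e1, e0, sub_zero, div_one] at hτd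
  rw [← hτd]
  refine (Finset.abs_sum_le_sum_abs _ _).trans ?_
  obtain ⟨I, hI⟩ : ∃ I : Finset (Option (Fin m)), I = (range i).image fun l => some (c l) :=
    ⟨_, rfl⟩
  have hcard : (I.card : ℝ) ≤ i := by
    have : I.card ≤ i := by
      rw [hI]
      refine Finset.card_image_le.trans ?_
      rw [card_range]
    exact_mod_cast this
  have hterm : ∀ o, |eval (fun j => b j + (z j - b j) * τ) (pderiv o Q) * (z o - b o)| ≤
      if o ∈ I then L * δ else 0 := by
    intro o
    by_cases ho : ∃ l < i, o = some (c l)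
    · obtain ⟨l, hl, rfl⟩ := ho
      rw [if_pos (by rw [hI]; exact mem_image.2 ⟨l, mem_range.2 hl, rfl⟩), abs_mul]
      refine mul_le_mul (hL _ ?_ (fun l' hl' => ?_) l hl) ?_ (abs_nonneg _) hL0
      · show b none + (z none - b none) * τ = b none
        rw [hzn]
        ring
      · show |b (some (c l')) + (z (some (c l')) - b (some (c l'))) * τ - b (some (c l'))| ≤ δ
        rw [add_sub_cancel_left, abs_mul, hzc l' hl', abs_of_nonneg hτ.1.le]
        calc |b' (some (c l')) - b (some (c l'))| * τ ≤ δ * 1 :=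
              mul_le_mul (hδ l' hl') hτ.2.le hτ.1.le hδ0
          _ = δ := mul_one _
      · rw [hzc l hl]
        exact hδ l hl
    · rw [hzo o ho, sub_self, mul_zero, abs_zero]
      split_ifs
      · positivity
      · exact le_rfl
  refine (Finset.sum_le_sum fun o _ => hterm o).trans ?_
  rw [Finset.sum_ite_mem, Finset.univ_inter, Finset.sum_const, nsmul_eq_mul]
  calc (I.card : ℝ) * (L * δ) ≤ i * (L * δ) := mul_le_mul_of_nonneg_right hcard (by positivity)
    _ = _ := by ring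

/-- **The rounding**: the natural boxes and the labels at points of the same cell of the resolution
`J`. -/
theorem near_cell (r : ℕ) (K : ℕ → ℕ) : ∃ c₀ : ℕ, ∀ {m : ℕ} {c : ℕ → Fin m}
    {G : ℕ → MvPolynomial (Option (Fin m)) ℝ} {g : ℕ → ℕ} {a e J v : ℕ}
    {x : Option (Fin m) → ℝ}, Set.InjOn c (Set.Iio r) →
    (∀ l, (G l).totalDegree ≤ K l) → (∀ l, DepC c l (G l)) →
    (∀ l < r, |x (some (c l)) - eval x (G l)| ≤ 1 / 2 ^ g l) →
    (∀ i < r, ∀ b, NBx c G g a (x none) i b → ∀ l < i,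
      |eval b (pderiv (some (c l)) (G i))| ≤ 2 ^ (e + nlp g l i)) →
    (∀ i < r, e + g i + v + c₀ ≤ J) →
    ∀ i ≤ r, ∀ y : Option (Fin m) → ℝ, y none = x none →
      (∀ l < i, |y (some (c l)) - x (some (c l))| ≤ 1 / 2 ^ J) →
      (∀ l < i, |y (some (c l)) - eval y (G l)| ≤ 4 / 2 ^ g l) ∧
        (i < r → |eval y (G i) - eval x (G i)| ≤ 1 / 4 / 2 ^ (g i + v)) := by
  obtain ⟨c₁, h₁⟩ := nbx_dbl r K
  obtain ⟨c₂, hc₂⟩ := pow_unbounded_of_one_lt (4 * (r : ℝ)) (one_lt_two (α := ℝ))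
  refine ⟨c₁ + c₂ + 2, ?_⟩
  intro m c G g a e J v x hc hdeg hdep hpos hlip hJ i
  induction i with
  | zero =>
    intro _ y hy _
    refine ⟨fun l hl => absurd hl (Nat.not_lt_zero l), fun h0 => ?_⟩
    have h1 : eval y (G 0) = eval x (G 0) := hdep 0 _ _ hy fun l hl => absurd hl (Nat.not_lt_zero l)
    rw [h1, sub_self, abs_zero]
    positivity
  | succ i ih =>
    intro hi y hy hyx
    have hir : i < r := hi
    have ih' := ih hir.le
    have hbox : ∀ l < i + 1, |y (some (c l)) - eval y (G l)| ≤ 4 / 2 ^ g l := by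
      intro l hl
      obtain ⟨k1, k2⟩ := ih' y hy fun l hl => hyx l (by omega)
      rcases Nat.lt_or_ge l i with h2 | h2
      · exact k1 l h2
      · have : l = i := by omega
        subst this
        have h3 := k2 hir
        have h4 := hpos l hir
        have h5 := hyx l (by omega)
        have h6 : (1 : ℝ) / 2 ^ J ≤ 1 / 2 ^ g l := inv_mono (by
          have := hJ l hir
          omega)
        have h7 : (1 : ℝ) / 4 / 2 ^ (g l + v) ≤ 1 / 2 ^ g l := by
          rw [div_div]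
          refine one_div_le_one_div_of_le (by positivity) ?_
          have : (2 : ℝ) ^ g l ≤ 2 ^ (g l + v) := pow_le_pow_right₀ (by norm_num) (by omega)
          have h0 : (0 : ℝ) < 2 ^ (g l + v) := by positivity
          linarith
        have h8 : (4 : ℝ) / 2 ^ g l = 4 * (1 / 2 ^ g l) := by ring
        have h9 : (0 : ℝ) ≤ 1 / 2 ^ g l := by positivity
        rw [h8]
        rw [abs_le] at h3 h4 h5 ⊢
        constructor <;> linarith [h3.1, h3.2, h4.1, h4.2, h5.1, h5.2]
    refine ⟨hbox, fun hi1 => ?_⟩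
    -- the gradient of the label `i + 1` near the point
    have hsup : e + (Finset.range (i + 2)).sup g + v + (c₁ + c₂ + 2) ≤ J := by
      have h2 : (Finset.range (i + 2)).sup g ≤ J - (e + v + (c₁ + c₂ + 2)) := by
        refine Finset.sup_le fun j hj => ?_
        have := hJ j (by rw [mem_range] at hj; omega)
        omega
      have h3 := hJ (i + 1) hi1
      omega
    have hnlp : ∀ l < i + 1, g (i + 1) + nlp g l (i + 1) ≤ (Finset.range (i + 2)).sup g := by
      intro l hl
      unfold nlp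
      have h2 : (Finset.Icc l (i + 1)).sup g ≤ (Finset.range (i + 2)).sup g :=
        Finset.sup_mono fun j hj => by
          rw [Finset.mem_Icc] at hj
          rw [mem_range]
          omega
      have h3 : g (i + 1) ≤ (Finset.Icc l (i + 1)).sup g :=
        Finset.le_sup (f := g) (Finset.mem_Icc.2 ⟨hl.le, le_rfl⟩)
      omega
    obtain ⟨L, hL⟩ : ∃ L : ℝ, L = 2 ^ (c₁ + e + (Finset.range (i + 2)).sup g) / 2 ^ g (i + 1) :=
      ⟨_, rfl⟩
    have hL0 : 0 ≤ L := by rw [hL]; positivity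
    have h2 := mv_chain (hdep (i + 1)) (b := x) (b' := y) hL0
      (by positivity : (0 : ℝ) ≤ 1 / 2 ^ J) hy hyx (by
      intro z hz hzx l hl
      have hzb : ∀ l < i + 1, |z (some (c l)) - eval z (G l)| ≤ 4 / 2 ^ g l := by
        intro l hl
        obtain ⟨k1, k2⟩ := ih' z hz fun l hl => hzx l (by omega)
        rcases Nat.lt_or_ge l i with h2 | h2
        · exact k1 l h2
        · have : l = i := by omega
          subst this
          have h3 := k2 hir
          have h4 := hpos l hir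
          have h5 := hzx l (by omega)
          have h6 : (1 : ℝ) / 2 ^ J ≤ 1 / 2 ^ g l := inv_mono (by
            have := hJ l hir
            omega)
          have h7 : (1 : ℝ) / 4 / 2 ^ (g l + v) ≤ 1 / 2 ^ g l := by
            rw [div_div]
            refine one_div_le_one_div_of_le (by positivity) ?_
            have : (2 : ℝ) ^ g l ≤ 2 ^ (g l + v) := pow_le_pow_right₀ (by norm_num) (by omega)
            have h0 : (0 : ℝ) < 2 ^ (g l + v) := by positivity
            linarith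
          have h8 : (4 : ℝ) / 2 ^ g l = 4 * (1 / 2 ^ g l) := by ring
          have h9 : (0 : ℝ) ≤ 1 / 2 ^ g l := by positivity
          rw [h8]
          rw [abs_le] at h3 h4 h5 ⊢
          constructor <;> linarith [h3.1, h3.2, h4.1, h4.2, h5.1, h5.2]
      have h3 := h₁ (a := a) (t := x none) (M := 2 ^ (e + nlp g l (i + 1))) hi1
        (hc.mono fun j hj => lt_trans hj hi1) hdeg hdep (DepC.pderiv (hdep (i + 1)) l)
        (totalDegree_pdσ (hdeg (i + 1)) _) (by positivity)
        (fun b hb => hlip (i + 1) hi1 b hb l hl) z (by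
          rw [hz, sub_self, abs_zero]; positivity) hzb
      refine h3.trans ?_
      rw [hL, le_div_iff₀ (by positivity), ← pow_add, ← pow_add]
      refine pow_le_pow_right₀ (by norm_num) ?_
      have := hnlp l hl
      omega)
    refine h2.trans ?_
    have h3 : ((i + 1 : ℕ) : ℝ) ≤ r := by exact_mod_cast hi
    have h4 : (r : ℝ) ≤ 2 ^ c₂ / 4 := by linarith
    have h5 : L * (((i + 1 : ℕ) : ℝ) * (1 / 2 ^ J)) ≤
        2 ^ (c₁ + e + (Finset.range (i + 2)).sup g) / 2 ^ g (i + 1) * (2 ^ c₂ / 4 * (1 / 2 ^ J)) := by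
      rw [hL]
      refine mul_le_mul_of_nonneg_left ?_ (by positivity)
      exact mul_le_mul_of_nonneg_right (h3.trans h4) (by positivity)
    refine h5.trans ?_
    have h6 : (2 : ℝ) ^ (c₁ + e + (Finset.range (i + 2)).sup g) / 2 ^ g (i + 1) *
        (2 ^ c₂ / 4 * (1 / 2 ^ J)) =
        1 / 4 * (2 ^ (c₁ + e + (Finset.range (i + 2)).sup g + c₂) / (2 ^ g (i + 1) * 2 ^ J)) := by
      rw [pow_add (2 : ℝ) (c₁ + e + (Finset.range (i + 2)).sup g) c₂]
      field_simp
    rw [h6, div_eq_mul_one_div (1 / 4 : ℝ)]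
    refine mul_le_mul_of_nonneg_left ?_ (by norm_num)
    rw [div_le_div_iff₀ (by positivity) (by positivity), one_mul, ← pow_add, ← pow_add]
    refine pow_le_pow_right₀ (by norm_num) ?_
    omega

/-! ### The slope law -/

/-- **The recentred label at one sample.** The target `k` has the visible polynomial `Gt` and the
polynomials `Ht` of the lines, which agree up to `M` on the natural box; in the window the line has
the height at most `S` above the graph. If the time and the distances to the labels move by `lam`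
units, then the recentred polynomials agree up to `C (M + S) lam` and the error `ρ` of the visible
constant `δ`. -/
theorem slope_at (D : ℕ) : ∃ C : ℝ, 1 ≤ C ∧ ∀ {m J : ℕ} (F : Fam m J) (ω : F.Ω) {c : ℕ → Fin m}
    {i : ℕ} (k : Fin m) {K : ℕ → ℕ} {Γ : ℕ → MvPolynomial (Option (Fin m)) ℝ}
    {Gt : MvPolynomial (Option (Fin m)) ℝ} (Ht : LnT F → MvPolynomial (Option (Fin m)) ℝ)
    {g : ℕ → ℕ} {a w D₀ : ℕ} {M S lam ρ δ : ℝ} (b : Option (Fin m) → ℝ),
    Set.InjOn c (Set.Iio i) → (∀ l, (Γ l).totalDegree ≤ K l) → (∀ l, DepC c l (Γ l)) →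
    DepC c i Gt → DepC c i (Ht (slam F w ω)) → Gt.totalDegree ≤ D₀ →
    (Ht (slam F w ω)).totalDegree ≤ D₀ → 1 ≤ D₀ → D₀ * dga K i ≤ D → w ≤ a → w ≤ J →
    0 < lam → lam ≤ 1 → 0 ≤ M → 0 ≤ S →
    (∀ b : Option (Fin m) → ℝ, |b none - F.t ω| ≤ 1 / 2 ^ a →
      (∀ l < i, |b (some (c l)) - eval b (Γ l)| ≤ 4 / 2 ^ g l) →
        |eval b Gt - eval b (Ht (slam F w ω))| ≤ M) →
    (∀ l < i, |F.x ω (c l) - eval (bt F ω) (Γ l)| ≤ 1 / 2 ^ g l) →
    (∀ τ ∈ Set.Icc (0 : ℝ) 1, |(qso k Ht (slam F w ω) w).eval τ| ≤ S) →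
    |b none - F.t ω| ≤ lam / 2 ^ a →
    (∀ l < i, |(b (some (c l)) - eval b (Γ l)) - (F.x ω (c l) - eval (bt F ω) (Γ l))| ≤
      lam / 2 ^ g l) → |F.x ω k - eval (bt F ω) Gt - δ| ≤ ρ →
    |(eval b Gt + δ) - eval b (Hno k Ht (slam F w ω))| ≤ C * (M + S) * lam + ρ := by
  obtain ⟨C₁, hC₁, h₁⟩ := nbx_lip D
  obtain ⟨C₂, hC₂, h₂⟩ := Pool.Agent.H40.SLP.lip_one D
  refine ⟨C₁ + C₂, by linarith, ?_⟩
  intro m J F ω c i k K Γ Gt Ht g a w D₀ M S lam ρ δ b hc hdeg hdep hG hH hGd hHd hD₀ hD hwa hwJ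
    hl0 hl1 hM0 hS0 hM hpos hS hb hbb hδ
  have hD1 : D₀ ≤ D := (Nat.le_mul_of_pos_right _ (one_le_dga K i)).trans hD
  have h3 := h₁ (Q := Gt - Ht (slam F w ω)) (t := F.t ω) (b := bt F ω) (b' := b) hc hdeg hdep
    (fun y y' hn hy => by rw [map_sub, map_sub, hG y y' hn hy, hH y y' hn hy])
    ((totalDegree_sub _ _).trans (max_le hGd hHd)) hD hl0 hl1
    (fun b hb hbx => by rw [map_sub]; exact hM b hb hbx) rfl hpos hb hbb
  rw [map_sub, map_sub] at h3
  -- the time
  have hw0 : (0 : ℝ) < 2 ^ w := by positivity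
  have h5 : eso k Ht (slam F w ω) (F.t ω) = (qso k Ht (slam F w ω) w).eval (rt F w ω) := by
    rw [eval_qso, ← t_rt F hwJ]
  obtain ⟨τ', hτ'⟩ : ∃ τ', τ' = rt F w ω + 2 ^ w * (b none - F.t ω) := ⟨_, rfl⟩
  have h6 : eso k Ht (slam F w ω) (b none) = (qso k Ht (slam F w ω) w).eval τ' := by
    rw [eval_qso, hτ']
    congr 1
    have h7 := t_rt F hwJ ω
    rw [eq_div_iff hw0.ne'] at h7 ⊢
    linear_combination h7
  have hd : 2 ^ w * |b none - F.t ω| ≤ lam := by
    calc 2 ^ w * |b none - F.t ω| ≤ 2 ^ w * (lam / 2 ^ a) :=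
          mul_le_mul_of_nonneg_left hb hw0.le
      _ ≤ 2 ^ a * (lam / 2 ^ a) := mul_le_mul_of_nonneg_right
          (pow_le_pow_right₀ (by norm_num) hwa) (by positivity)
      _ = lam := by field_simp
  have hrt := rt_mem F w ω
  have hτ2 : |τ'| ≤ 2 := by
    rw [hτ']
    refine (abs_add_le _ _).trans ?_
    rw [abs_mul, abs_of_pos hw0, abs_of_nonneg hrt.1]
    linarith only [hd, hrt.2, hl1]
  have h7 := h₂ (qso k Ht (slam F w ω) w) S ((deg_qso k Ht _ w hD₀ hHd).trans hD1)
    hS τ' (rt F w ω) hτ2 (by rw [abs_of_nonneg hrt.1]; linarith only [hrt.2])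
  have h8 : |τ' - rt F w ω| ≤ lam := by
    rw [hτ']
    have : rt F w ω + 2 ^ w * (b none - F.t ω) - rt F w ω = 2 ^ w * (b none - F.t ω) := by ring
    rw [this, abs_mul, abs_of_pos hw0]
    exact hd
  have h9 : C₂ * S * |τ' - rt F w ω| ≤ C₂ * S * lam :=
    mul_le_mul_of_nonneg_left h8 (by positivity)
  rw [← h5, ← h6] at h7
  have h7' := h7.trans h9
  have h10 := eso_at F k w Ht ω
  rw [eval_Hno]
  have h11 : (C₁ + C₂) * (M + S) * lam = C₁ * M * lam + C₂ * S * lam + (C₁ * S * lam +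
      C₂ * M * lam) := by ring
  have h12 : 0 ≤ C₁ * S * lam + C₂ * M * lam := by positivity
  rw [h11]
  rw [abs_le] at h3 h7' hδ ⊢
  constructor <;> linarith only [h10, h12, h3.1, h3.2, h7'.1, h7'.2, hδ.1, hδ.2]

theorem nlp_shift {g : ℕ → ℕ} {v u l i : ℕ} (h : (i + 1) * u ≤ v) :
    nlp g l i ≤ nlp (fun i => g i + v - (i + 1) * u) l i := by
  unfold nlp
  have h1 : (Finset.Icc l i).sup g ≤
      (Finset.Icc l i).sup (fun i => g i + v - (i + 1) * u) + (i + 1) * u - v := by
    refine Finset.sup_le fun j hj => ?_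
    have h2 := Finset.le_sup (f := fun i => g i + v - (i + 1) * u) hj
    have hj' := (Finset.mem_Icc.1 hj).2
    have h3 : (j + 1) * u ≤ (i + 1) * u := Nat.mul_le_mul_right u (by omega)
    have h4 : g j + v - (j + 1) * u ≤ (Finset.Icc l i).sup (fun i => g i + v - (i + 1) * u) := h2
    omega
  show _ ≤ (Finset.Icc l i).sup (fun i => g i + v - (i + 1) * u) - (g i + v - (i + 1) * u)
  omega

/-- **The slope law for chains.** The label `i` loses `(i + 1) u` digits. -/
theorem ch_slope' (m r : ℕ) (K : ℕ → ℕ) (hK : ∀ i, 1 ≤ K i) : ∃ (C₁ : ℝ) (c₀ : ℕ), 1 ≤ C₁ ∧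
    ∀ (J : ℕ) (F : Fam m J) (c : ℕ → Fin m) (a w e v u : ℕ) (g : ℕ → ℕ) (A : F.Ω → Prop)
      (G : PtT F → ℕ → MvPolynomial (Option (Fin m)) ℝ)
      (H : LnT F → ℕ → MvPolynomial (Option (Fin m)) ℝ) (θ : ℝ) (hA : 0 < Pe F.p A),
      Set.InjOn c (Set.Iio r) → w ≤ a → w ≤ J → (∀ i < r, e + g i + v + c₀ ≤ J) → r * u + 1 ≤ v → 0 ≤ θ → (Fam.sub F A hA).Tm θ →
      C₁ * (θ + 1) ≤ ((J : ℝ) - w) * Real.log 2 → Real.exp (C₁ * (θ + 1)) ≤ 2 ^ u →
      ChOK F c r K a w e g A G H →
      ∃ B : F.Ω → Prop, Sub B A ∧ Pe F.p A / 2 ≤ Pe F.p B ∧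
        ChOK F c r K (a + v) w (e + c₀) (fun i => g i + v - (i + 1) * u) B
          (fun y i => Gno (c i) J J (fun y => G y i) y)
          (fun s i => Hno (c i) (fun s => H s i) s) ∧
        ∀ ω, A ω → ∀ i < r, ∀ b : Option (Fin m) → ℝ,
          |eval b (Gno (c i) J J (fun y => G y i) (ptr F J ω)) - eval b (G (ptr F J ω) i)| ≤
            2 / 2 ^ g i := by
  classical
  obtain ⟨Km, hKm⟩ : ∃ Km, Km = (range r).sup K := ⟨_, rfl⟩
  have hKi : ∀ i < r, K i ≤ Km := fun i hi => by
    rw [hKm]; exact Finset.le_sup (f := K) (mem_range.2 hi)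
  obtain ⟨D, hD⟩ : ∃ D, D = ∑ i ∈ range r, K i * dga K i := ⟨_, rfl⟩
  have hDi : ∀ i < r, K i * dga K i ≤ D := fun i hi => by
    rw [hD]
    exact Finset.single_le_sum (f := fun i => K i * dga K i) (fun _ _ => Nat.zero_le _)
      (mem_range.2 hi)
  obtain ⟨C, hC, hat⟩ := slope_at D
  obtain ⟨C₀, hC₀, hrem⟩ := Pool.PZ.Zrt.rem_ev (m := m) (2 * Km)
  obtain ⟨c₁, h₁⟩ := nbx_dbl r K
  obtain ⟨c₂, h₂⟩ := near_cell r K
  obtain ⟨R, hR⟩ : ∃ R : ℝ, R = 4 * r + 1 := ⟨_, rfl⟩
  have hR1 : 1 ≤ R := by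
    rw [hR]
    have : (0 : ℝ) ≤ r := Nat.cast_nonneg r
    linarith
  obtain ⟨D', hD'⟩ : ∃ D' : ℝ, D' = 2 * C * (2 ^ c₁ + R) + 1 := ⟨_, rfl⟩
  have hc₁0 : (0 : ℝ) < 2 ^ c₁ := by positivity
  have hD'1 : 1 ≤ D' := by
    rw [hD']
    have : 0 ≤ 2 * C * (2 ^ c₁ + R) := by positivity
    linarith
  have hlD : 0 ≤ Real.log D' := Real.log_nonneg hD'1
  refine ⟨C₀ + Real.log D' + D', c₁ + c₂ + 2, by linarith, ?_⟩
  intro J F c a w e v u g A G H θ hA hc hwa hwJ hJ huv hθ hTm hN hu hL
  obtain ⟨E, hE⟩ : ∃ E : ℝ, E = Real.exp (C₀ * (θ + 1)) := ⟨_, rfl⟩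
  have hE1 : 1 ≤ E := by
    rw [hE, Real.one_le_exp_iff]
    have : 0 ≤ θ + 1 := by linarith only [hθ]
    nlinarith only [hC₀, hθ]
  have hDE : D' * E ≤ 2 ^ u := by
    refine le_trans ?_ hu
    have h1 : Real.exp ((C₀ + Real.log D' + D') * (θ + 1)) =
        E * Real.exp ((Real.log D' + D') * (θ + 1)) := by
      rw [hE, ← Real.exp_add]
      congr 1
      ring
    rw [h1, mul_comm D']
    refine mul_le_mul_of_nonneg_left ?_ (by linarith only [hE1])
    calc D' = Real.exp (Real.log D') := (Real.exp_log (by linarith only [hD'1])).symm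
      _ ≤ _ := Real.exp_le_exp.2 (by nlinarith only [hθ, hlD, hD'1])
  -- the heights of the lines
  obtain ⟨q, hq⟩ : ∃ q : LnT F → ℕ → Polynomial ℝ, q = fun s i =>
      qso (c i) (fun s => H s i) s w := ⟨_, rfl⟩
  have hqd : ∀ s, ∀ i < r, (q s i).natDegree ≤ Km := by
    intro s i hi
    rw [hq]
    exact deg_qso _ _ _ _ ((hK i).trans (hKi i hi)) ((hL.degH s i).trans (hKi i hi))
  obtain ⟨Q, hQ⟩ : ∃ Q : LnT F → Polynomial ℝ, Q = fun s =>
      ∑ i ∈ range r, (Polynomial.C ((2 : ℝ) ^ g i) * q s i) ^ 2 := ⟨_, rfl⟩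
  have hQe : ∀ s τ, (Q s).eval τ = ∑ i ∈ range r, (2 ^ g i * (q s i).eval τ) ^ 2 := by
    intro s τ
    rw [hQ]
    simp only [Polynomial.eval_finsetSum, Polynomial.eval_pow, Polynomial.eval_mul,
      Polynomial.eval_C]
  have hQd : ∀ s, (Q s).natDegree ≤ 2 * Km := by
    intro s
    rw [hQ]
    refine Polynomial.natDegree_sum_le_of_forall_le _ _ fun i hi => ?_
    refine Polynomial.natDegree_pow_le.trans (Nat.mul_le_mul_left 2 ?_)
    exact (Polynomial.natDegree_C_mul_le _ _).trans (hqd s i (mem_range.1 hi))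
  have hown : ∀ ω, A ω → ∀ i < r, |(q (slam F w ω) i).eval (rt F w ω)| ≤ 2 / 2 ^ g i := by
    intro ω hω i hi
    rw [hq]
    show |(qso (c i) (fun s => H s i) (slam F w ω) w).eval (rt F w ω)| ≤ 2 / 2 ^ g i
    rw [eval_qso, ← t_rt F hwJ, eso_at]
    have h1 := hL.pos ω hω i hi
    have h3 := hL.agr ω hω i hi (bt F ω) (hL.self hω hi.le)
    have h4 : (2 : ℝ) / 2 ^ g i = 1 / 2 ^ g i + 1 / 2 ^ g i := by ring
    rw [h4]
    rw [abs_le] at h1 h3 ⊢
    constructor <;> linarith only [h1.1, h1.2, h3.1, h3.2]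
  obtain ⟨B, hBA, hBP, hB⟩ := hrem J F A hA w Q R θ hwJ hQd (by linarith only [hR1]) hθ hTm (by
      refine le_trans ?_ hN
      refine mul_le_mul_of_nonneg_right ?_ (by linarith only [hθ])
      linarith only [hlD, hD'1]) (fun ω hω => by
      rw [hQe]
      have h1 : ∀ i ∈ range r, (2 ^ g i * (q (slam F w ω) i).eval (rt F w ω)) ^ 2 ≤ 4 := by
        intro i hi
        have h2 := hown ω hω i (mem_range.1 hi)
        have h3 : |2 ^ g i * (q (slam F w ω) i).eval (rt F w ω)| ≤ 2 := by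
          rw [abs_mul, abs_of_pos (by positivity : (0 : ℝ) < 2 ^ g i)]
          rw [le_div_iff₀ (by positivity)] at h2
          linarith only [h2]
        have h4 := abs_le.1 h3
        nlinarith only [h4.1, h4.2]
      have h2 : 0 ≤ ∑ i ∈ range r, (2 ^ g i * (q (slam F w ω) i).eval (rt F w ω)) ^ 2 :=
        Finset.sum_nonneg fun i _ => sq_nonneg _
      rw [abs_of_nonneg h2]
      refine (Finset.sum_le_sum h1).trans ?_
      rw [Finset.sum_const, card_range, nsmul_eq_mul, hR]
      linarith)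
  have hBq : ∀ ω, B ω → ∀ i < r, ∀ τ ∈ Set.Icc (0 : ℝ) 1,
      |(qso (c i) (fun s => H s i) (slam F w ω) w).eval τ| ≤ E * R / 2 ^ g i := by
    intro ω hω i hi τ hτ
    have h1 := hB ω hω τ hτ
    rw [hQe, ← hE] at h1
    have h2 : (2 ^ g i * (q (slam F w ω) i).eval τ) ^ 2 ≤
        ∑ i ∈ range r, (2 ^ g i * (q (slam F w ω) i).eval τ) ^ 2 :=
      Finset.single_le_sum (f := fun i => (2 ^ g i * (q (slam F w ω) i).eval τ) ^ 2)
        (fun _ _ => sq_nonneg _) (mem_range.2 hi)
    have h3 := h2.trans ((le_abs_self _).trans h1)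
    have h4 : 1 ≤ E * R := by nlinarith only [hE1, hR1]
    have h5 : |2 ^ g i * (q (slam F w ω) i).eval τ| ≤ E * R := by
      refine abs_le_of_sq_le_sq (h3.trans ?_) (by linarith only [h4])
      nlinarith only [h4]
    rw [abs_mul, abs_of_pos (by positivity : (0 : ℝ) < 2 ^ g i)] at h5
    rw [le_div_iff₀ (by positivity)]
    have h6 : (qso (c i) (fun s => H s i) (slam F w ω) w) = q (slam F w ω) i := by rw [hq]
    rw [h6]
    linarith only [h5]
  -- the visible constants
  obtain ⟨δ, hδ⟩ : ∃ δ : PtT F → ℕ → ℝ, δ = fun y i =>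
      (y.1 (c i) : ℝ) / 2 ^ J - eval (bho J J y) (G y i) := ⟨_, rfl⟩
  have hGn : ∀ y i b, eval b (Gno (c i) J J (fun y => G y i) y) = eval b (G y i) + δ y i := by
    intro y i b
    rw [hδ]
    unfold Gno
    rw [map_add, eval_C]
  have hcell : ∀ ω, A ω → ∀ i < r, |eval (bho J J (ptr F J ω)) (G (ptr F J ω) i) -
      eval (bt F ω) (G (ptr F J ω) i)| ≤ 1 / 4 / 2 ^ (g i + v) := by
    intro ω hω i hi
    refine ((h₂ (x := bt F ω) (a := a) (e := e) (J := J) (v := v) hc (hL.degG _) (hL.depG _)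
      (fun l hl => hL.pos ω hω l hl) (fun i hi b hb l hl => hL.lip ω hω i hi b hb l hl)
      (fun i hi => ?_) i hi.le (bho J J (ptr F J ω)) rfl fun l _ => ?_).2 hi)
    · have := hJ i hi
      omega
    · exact Pool.PB.Trl.x_near F J ω (c l)
  have hρ : ∀ ω, A ω → ∀ i < r, |F.x ω (c i) - eval (bt F ω) (G (ptr F J ω) i) -
      δ (ptr F J ω) i| ≤ 1 / 2 / 2 ^ (g i + v) := by
    intro ω hω i hi
    have h3 := hcell ω hω i hi
    have h4 := Pool.PB.Trl.x_near F J ω (c i)
    have h5 : δ (ptr F J ω) i = ((F.X J ω (c i) : ℤ) : ℝ) / 2 ^ J -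
        eval (bho J J (ptr F J ω)) (G (ptr F J ω) i) := by
      rw [hδ]
      rfl
    rw [h5]
    have h6 : (1 : ℝ) / 2 ^ J ≤ 1 / 4 / 2 ^ (g i + v) := by
      rw [div_div]
      refine one_div_le_one_div_of_le (by positivity) ?_
      rw [show (4 : ℝ) = 2 ^ 2 by norm_num, ← pow_add]
      refine pow_le_pow_right₀ (by norm_num) ?_
      have := hJ i hi
      omega
    have h7 : (1 : ℝ) / 2 / 2 ^ (g i + v) = 1 / 4 / 2 ^ (g i + v) + 1 / 4 / 2 ^ (g i + v) := by
      ring
    rw [h7]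
    rw [abs_le] at h3 h4 ⊢
    constructor <;> linarith only [h3.1, h3.2, h4.1, h4.2, h6]
  have hui : ∀ i < r, (i + 1) * u ≤ v := by
    intro i hi
    have : (i + 1) * u ≤ r * u := Nat.mul_le_mul_right u hi
    omega
  -- the new boxes
  have hmove : ∀ ω, A ω → ∀ i < r, ∀ b : Option (Fin m) → ℝ,
      NBx c (fun i => Gno (c i) J J (fun y => G y i) (ptr F J ω))
        (fun i => g i + v - (i + 1) * u) (a + v) (F.t ω) i b →
      |b none - F.t ω| ≤ 2 / 2 ^ (v - i * u) / 2 ^ a ∧ ∀ l < i, |(b (some (c l)) -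
        eval b (G (ptr F J ω) l)) - (F.x ω (c l) - eval (bt F ω) (G (ptr F J ω) l))| ≤
          2 / 2 ^ (v - i * u) / 2 ^ g l := by
    intro ω hω i hi b hb
    constructor
    · refine hb.1.trans ?_
      rw [div_div, ← pow_add]
      calc (1 : ℝ) / 2 ^ (a + v) ≤ 2 / 2 ^ (a + v) := by
            refine div_le_div_of_nonneg_right (by norm_num) (by positivity)
        _ ≤ 2 / 2 ^ (v - i * u + a) := by
            refine div_le_div_of_nonneg_left (by norm_num) (by positivity) ?_
            exact pow_le_pow_right₀ (by norm_num) (by omega)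
    · intro l hl
      have h3 := hb.2 l hl
      simp only at h3
      rw [hGn] at h3
      have h4 := hρ ω hω l (hl.trans hi)
      have h5 : (1 : ℝ) / 2 / 2 ^ (g l + v) ≤ 1 / 2 ^ (g l + v - (l + 1) * u) := by
        rw [div_div]
        refine one_div_le_one_div_of_le (by positivity) ?_
        have h6 : (2 : ℝ) ^ (g l + v - (l + 1) * u) ≤ 2 ^ (g l + v) :=
          pow_le_pow_right₀ (by norm_num) (by omega)
        have h7 : (0 : ℝ) < 2 ^ (g l + v) := by positivity
        linarith only [h6, h7]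
      have h8 : (2 : ℝ) / 2 ^ (g l + v - (l + 1) * u) ≤ 2 / 2 ^ (v - i * u) / 2 ^ g l := by
        rw [div_div, ← pow_add]
        refine div_le_div_of_nonneg_left (by norm_num) (by positivity) ?_
        refine pow_le_pow_right₀ (by norm_num) ?_
        have h9 : (l + 1) * u ≤ i * u := Nat.mul_le_mul_right u hl
        have h10 := hui l (hl.trans hi)
        omega
      refine le_trans ?_ h8
      have h9 : (2 : ℝ) / 2 ^ (g l + v - (l + 1) * u) = 1 / 2 ^ (g l + v - (l + 1) * u) +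
          1 / 2 ^ (g l + v - (l + 1) * u) := by ring
      rw [h9]
      have h10 := h4.trans h5
      rw [abs_le] at h3 h10 ⊢
      constructor <;> linarith only [h3.1, h3.2, h10.1, h10.2]
  have hlam : ∀ i < r, (0 : ℝ) < 2 / 2 ^ (v - i * u) ∧ (2 : ℝ) / 2 ^ (v - i * u) ≤ 1 := by
    intro i hi
    refine ⟨by positivity, ?_⟩
    rw [div_le_one (by positivity)]
    have h3 : 1 ≤ v - i * u := by
      have : i * u ≤ r * u := Nat.mul_le_mul_right u hi.le
      omega
    calc (2 : ℝ) = 2 ^ 1 := by norm_num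
      _ ≤ 2 ^ (v - i * u) := pow_le_pow_right₀ (by norm_num) h3
  have hcJ : ∀ i < r, Set.InjOn c (Set.Iio i) := fun i hi => hc.mono fun j hj => lt_trans hj hi
  refine ⟨B, hBA, hBP, ⟨fun y i => ?_, fun s i => deg_Hno _ _ _ (hK i) (hL.degH s i),
    fun y i => ?_, fun s i => ?_, fun ω hω i hi => ?_, fun ω hω i hi b hb => ?_,
    fun ω hω i hi b hb l hl => ?_⟩, fun ω hω i hi b => ?_⟩
  · unfold Gno
    refine (totalDegree_add _ _).trans (max_le (hL.degG y i) ?_)
    rw [totalDegree_C]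
    exact Nat.zero_le _
  · intro b b' hn hb
    rw [hGn, hGn, hL.depG y i b b' hn hb]
  · intro b b' hn hb
    rw [eval_Hno, eval_Hno, hL.depH s i b b' hn hb, hn]
  · rw [hGn]
    have h3 := hρ ω (hBA ω hω) i hi
    have e1 : F.x ω (c i) - (eval (bt F ω) (G (ptr F J ω) i) + δ (ptr F J ω) i) =
        F.x ω (c i) - eval (bt F ω) (G (ptr F J ω) i) - δ (ptr F J ω) i := by ring
    rw [e1]
    refine h3.trans ?_
    rw [div_div]
    refine one_div_le_one_div_of_le (by positivity) ?_
    have h6 : (2 : ℝ) ^ (g i + v - (i + 1) * u) ≤ 2 ^ (g i + v) :=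
      pow_le_pow_right₀ (by norm_num) (by omega)
    have h7 : (0 : ℝ) < 2 ^ (g i + v) := by positivity
    linarith only [h6, h7]
  · have hAω := hBA ω hω
    obtain ⟨k1, k2⟩ := hmove ω hAω i hi b hb
    obtain ⟨l1, l2⟩ := hlam i hi
    have h3 := hat F ω (c i) (fun s => H s i) (Γ := G (ptr F J ω)) (Gt := G (ptr F J ω) i)
      (a := a) (w := w) (M := 2 ^ c₁ * (1 / 2 ^ g i)) (S := E * R / 2 ^ g i)
      (ρ := 1 / 2 / 2 ^ (g i + v)) (δ := δ (ptr F J ω) i) b (hcJ i hi) (hL.degG _) (hL.depG _)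
      (hL.depG _ i) (hL.depH _ i) (hL.degG _ i) (hL.degH _ i) (hK i) (hDi i hi) hwa hwJ l1 l2
      (by positivity) (by positivity) (fun b hb hbx => by
        have h4 := h₁ (Q := G (ptr F J ω) i - H (slam F w ω) i) (M := 1 / 2 ^ g i) hi (hcJ i hi)
          (hL.degG _) (hL.depG _)
          (fun y y' hn hy => by
            rw [map_sub, map_sub, hL.depG _ i y y' hn hy, hL.depH _ i y y' hn hy])
          ((totalDegree_sub _ _).trans (max_le (hL.degG _ i) (hL.degH _ i)))
          (by positivity)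
          (fun b hb => by rw [map_sub]; exact hL.agr ω hAω i hi b hb) b hb hbx
        rw [map_sub] at h4
        exact h4) (fun l hl => hL.pos ω hAω l (hl.trans hi)) (hBq ω hω i hi) k1 k2
      (hρ ω hAω i hi)
    rw [hGn]
    refine h3.trans ?_
    have h4 : (0 : ℝ) < 2 ^ (g i + v) := by positivity
    have h5 : (1 : ℝ) / 2 ^ (g i + v - (i + 1) * u) = 2 ^ ((i + 1) * u) / 2 ^ (g i + v) := by
      rw [div_eq_div_iff (by positivity) (by positivity), one_mul, ← pow_add]
      congr 1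
      have := hui i hi
      omega
    have h6 : (2 : ℝ) / 2 ^ (v - i * u) = 2 * 2 ^ (i * u) / 2 ^ v := by
      rw [div_eq_div_iff (by positivity) (by positivity), mul_assoc, ← pow_add]
      congr 2
      have : i * u ≤ r * u := Nat.mul_le_mul_right u hi.le
      omega
    rw [h5, h6]
    have h7 : C * (2 ^ c₁ * (1 / 2 ^ g i) + E * R / 2 ^ g i) * (2 * 2 ^ (i * u) / 2 ^ v) +
        1 / 2 / 2 ^ (g i + v) = (2 * C * (2 ^ c₁ + E * R) * 2 ^ (i * u) + 1 / 2) /
          2 ^ (g i + v) := by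
      rw [pow_add]
      field_simp
    rw [h7]
    refine div_le_div_of_nonneg_right ?_ h4.le
    have h8 : (2 : ℝ) ^ ((i + 1) * u) = 2 ^ u * 2 ^ (i * u) := by
      rw [← pow_add]
      congr 1
      ring
    have h9 : (1 : ℝ) ≤ 2 ^ (i * u) := one_le_pow₀ (by norm_num)
    have h10 : 2 * C * (2 ^ c₁ + E * R) + 1 ≤ D' * E := by
      rw [hD']
      have : 2 * C * 2 ^ c₁ ≤ 2 * C * 2 ^ c₁ * E := by
        refine le_mul_of_one_le_right (by positivity) hE1
      nlinarith only [this, hE1]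
    rw [h8]
    calc 2 * C * (2 ^ c₁ + E * R) * 2 ^ (i * u) + 1 / 2 ≤
          (2 * C * (2 ^ c₁ + E * R) + 1) * 2 ^ (i * u) := by linarith only [h9]
      _ ≤ 2 ^ u * 2 ^ (i * u) := mul_le_mul_of_nonneg_right (h10.trans hDE) (by positivity)
  · have hAω := hBA ω hω
    obtain ⟨k1, k2⟩ := hmove ω hAω i hi b hb
    obtain ⟨l1, l2⟩ := hlam i hi
    have e1 : pderiv (some (c l)) (Gno (c i) J J (fun y => G y i) (ptr F J ω)) =
        pderiv (some (c l)) (G (ptr F J ω) i) := by
      unfold Gno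
      rw [map_add, pderiv_C, add_zero]
    rw [e1]
    have h3 := h₁ (Q := pderiv (some (c l)) (G (ptr F J ω) i)) (M := 2 ^ (e + nlp g l i)) hi
      (hcJ i hi) (hL.degG _) (hL.depG _) (DepC.pderiv (hL.depG _ i) l)
      (totalDegree_pdσ (hL.degG _ i) _) (by positivity)
      (fun b hb => hL.lip ω hAω i hi b hb l hl) b (k1.trans (by
        refine div_le_div_of_nonneg_right l2 (by positivity))) (fun j hj => by
        have h4 := k2 j hj
        have h5 := hL.pos ω hAω j (hj.trans hi)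
        have h6 : (2 : ℝ) / 2 ^ (v - i * u) / 2 ^ g j ≤ 1 / 2 ^ g j :=
          div_le_div_of_nonneg_right l2 (by positivity)
        have h7 : (4 : ℝ) / 2 ^ g j = 4 * (1 / 2 ^ g j) := by ring
        have h8 : (0 : ℝ) < 1 / 2 ^ g j := by positivity
        rw [h7]
        have h4' := h4.trans h6
        rw [abs_le] at h4' h5 ⊢
        constructor <;> linarith only [h4'.1, h4'.2, h5.1, h5.2, h8])
    refine h3.trans ?_
    rw [← pow_add]
    refine pow_le_pow_right₀ (by norm_num) ?_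
    have := nlp_shift (g := g) (l := l) (hui i hi)
    omega
  · rw [hGn, add_sub_cancel_left]
    have h3 := hL.pos ω hω i hi
    have h4 := hρ ω hω i hi
    have h5 : (1 : ℝ) / 2 / 2 ^ (g i + v) ≤ 1 / 2 ^ g i := by
      rw [div_div]
      refine one_div_le_one_div_of_le (by positivity) ?_
      have h6 : (2 : ℝ) ^ g i ≤ 2 ^ (g i + v) := pow_le_pow_right₀ (by norm_num) (by omega)
      have h7 : (0 : ℝ) < 2 ^ (g i + v) := by positivity
      linarith only [h6, h7]
    have h6 : (2 : ℝ) / 2 ^ g i = 1 / 2 ^ g i + 1 / 2 ^ g i := by ring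
    rw [h6]
    have h7 := h4.trans h5
    rw [abs_le] at h3 h7 ⊢
    constructor <;> linarith only [h3.1, h3.2, h7.1, h7.2]

/-- The slope law, if the sides are at most `1 / 4`. -/
theorem ch_slope (m r : ℕ) (K : ℕ → ℕ) (hK : ∀ i, 1 ≤ K i) : ∃ (C₁ : ℝ) (c₀ : ℕ), 1 ≤ C₁ ∧
    ∀ (J : ℕ) (F : Fam m J) (c : ℕ → Fin m) (a w e v u : ℕ) (g : ℕ → ℕ) (A : F.Ω → Prop)
      (G : PtT F → ℕ → MvPolynomial (Option (Fin m)) ℝ)
      (H : LnT F → ℕ → MvPolynomial (Option (Fin m)) ℝ) (θ : ℝ) (hA : 0 < Pe F.p A),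
      Set.InjOn c (Set.Iio r) → w ≤ a → w ≤ J → (∀ i < r, 2 ≤ g i) →
      (∀ i < r, e + g i + v + c₀ ≤ J) → r * u + 1 ≤ v → 0 ≤ θ → (Fam.sub F A hA).Tm θ →
      C₁ * (θ + 1) ≤ ((J : ℝ) - w) * Real.log 2 → Real.exp (C₁ * (θ + 1)) ≤ 2 ^ u →
      ChOK F c r K a w e g A G H →
      ∃ B : F.Ω → Prop, Sub B A ∧ Pe F.p A / 2 ≤ Pe F.p B ∧
        ChOK F c r K (a + v) w (e + c₀) (fun i => g i + v - (i + 1) * u) B
          (fun y i => Gno (c i) J J (fun y => G y i) y)
          (fun s i => Hno (c i) (fun s => H s i) s) ∧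
        ∀ ω, A ω → ∀ i < r, ∀ b : Option (Fin m) → ℝ,
          |eval b (Gno (c i) J J (fun y => G y i) (ptr F J ω)) - eval b (G (ptr F J ω) i)| ≤
            2 / 2 ^ g i := by
  obtain ⟨C₁, c₀, h1, h⟩ := ch_slope' m r K hK
  exact ⟨C₁, c₀, h1, fun J F c a w e v u g A G H θ hA k1 k2 k3 _ =>
    h J F c a w e v u g A G H θ hA k1 k2 k3⟩

end Pool.CHT
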