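import Pool.Agent.H2.GEN.LabT
import Pool.Agent.H80.GEN.Chn
import Pool.Agent.H39.GEN.LabN

/-!
# Thresholds of chains of labels

`Cht θ l k K a w P`: a chain of two-sided labels of the coordinates in the list `l` and of the target
`k`, on radii and windows which may be larger than `2 ^ (-a)` and `2 ^ (-w)`, with arbitrary sides;
one digit of the radius counts for one digit of the precision of the target; the exponents of the
gradients are less than `θ w`. These are labels with the slope law and the trivial labels in every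
class (`chsys`), so that every class has a subclass with thresholds for all the lists at once
(`thr_chsys`), which have the properties in `ChThr` along every chain (`chThr_of`).
-/

set_option autoImplicit false

namespace Pool.CHT

open Finset Real MvPolynomial
open Pool.Agent.H49.Ent Pool.Agent.H32.Dense Pool.STK Pool.KA Pool.KSAT Pool.K2S Pool.PB Pool.S6C
open Pool.GEN
open Pool.LBT (LSys Slo Tri ThrOf)
open Pool.LEV (Law)

variable {m J : ℕ}

/-! ### Other lists -/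

theorem DepC.congr {c c' : ℕ → Fin m} {i : ℕ} {G : MvPolynomial (Option (Fin m)) ℝ}
    (h : DepC c i G) (hc : ∀ l < i, c l = c' l) : DepC c' i G :=
  fun b b' hn hb => h b b' hn fun l hl => by rw [hc l hl]; exact hb l hl

theorem nlp_congr {g g' : ℕ → ℕ} {l i : ℕ} (h : ∀ j ≤ i, g j = g' j) : nlp g l i = nlp g' l i := by
  unfold nlp
  rw [h i le_rfl, Finset.sup_congr rfl fun j hj => h j (Finset.mem_Icc.1 hj).2]

/-- Only the first coordinates matter. -/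
theorem ChN.congr {F : Fam m J} {c c' : ℕ → Fin m} {r : ℕ} {K : ℕ → ℕ} {a w e : ℕ} {g g' : ℕ → ℕ}
    {A : F.Ω → Prop} (h : ChN F c r K a w e g A) (hc : ∀ l < r, c l = c' l)
    (hg : ∀ l < r, g l = g' l) : ChN F c' r K a w e g' A := by
  obtain ⟨G, H, h⟩ := h
  have d0 : ∀ i : ℕ, DepC c' i (0 : MvPolynomial (Option (Fin m)) ℝ) := by
    intro i b b' _ _
    rw [map_zero, map_zero]
  have hb : ∀ {y : PtT F} {t : ℝ} {i : ℕ} {b : Option (Fin m) → ℝ}, i < r →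
      NBx c' (fun l => if l < r then G y l else 0) g' a t i b → NBx c (G y) g a t i b := by
    intro y t i b hi hb
    refine ⟨hb.1, fun l hl => ?_⟩
    have h1 := hb.2 l hl
    simp only [if_pos (hl.trans hi)] at h1
    rw [hc l (hl.trans hi), hg l (hl.trans hi)]
    exact h1
  refine ⟨fun y i => if i < r then G y i else 0, fun s i => if i < r then H s i else 0,
    fun y i => ?_, fun s i => ?_, fun y i => ?_, fun s i => ?_, fun ω hω i hi => ?_,
    fun ω hω i hi b hbx => ?_, fun ω hω i hi b hbx l hl => ?_⟩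
  · split_ifs with hi
    · exact h.degG y i
    · rw [totalDegree_zero]
      exact Nat.zero_le _
  · split_ifs with hi
    · exact h.degH s i
    · rw [totalDegree_zero]
      exact Nat.zero_le _
  · split_ifs with hi
    · exact DepC.congr (h.depG y i) fun l hl => hc l (hl.trans hi)
    · exact d0 i
  · split_ifs with hi
    · exact DepC.congr (h.depH s i) fun l hl => hc l (hl.trans hi)
    · exact d0 i
  · rw [if_pos hi, ← hc i hi, ← hg i hi]
    exact h.pos ω hω i hi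
  · rw [if_pos hi, if_pos hi, ← hg i hi]
    exact h.agr ω hω i hi b (hb hi hbx)
  · rw [if_pos hi, ← hc l (hl.trans hi),
      ← nlp_congr (l := l) (g := g) (g' := g') fun j hj => hg j (hj.trans_lt hi)]
    exact h.lip ω hω i hi b (hb hi hbx) l hl

/-! ### The labels -/

/-- The exponent of the gradient in the class `K`, on the windows `2 ^ (-w)`. -/
noncomputable def lipE (θ : ℝ) (K w J : ℕ) : ℕ := ⌊|θ| * w - (J : ℝ) / (K + 1)⌋₊

theorem lipE_mono {θ : ℝ} {K K' w w' J : ℕ} (h : K ≤ K') (hw : w ≤ w') :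
    lipE θ K w J ≤ lipE θ K' w' J := by
  refine Nat.floor_le_floor ?_
  have hθ := abs_nonneg θ
  have h1 : ((K : ℝ) + 1) ≤ (K' : ℝ) + 1 := by
    have : (K : ℝ) ≤ K' := by exact_mod_cast h
    linarith
  have h2 : (J : ℝ) / ((K' : ℝ) + 1) ≤ (J : ℝ) / ((K : ℝ) + 1) :=
    div_le_div_of_nonneg_left (Nat.cast_nonneg J) (by positivity) h1
  have h3 : |θ| * w ≤ |θ| * w' := mul_le_mul_of_nonneg_left (by exact_mod_cast hw) hθ
  linarith

theorem le_lipE {θ' e : ℝ} {w : ℚ} (hw : 0 ≤ w) (h : e < θ' * w) : ∃ K₀ J₀ : ℕ, ∀ K ≥ K₀,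
    ∀ J ≥ J₀, ⌊e * J⌋₊ ≤ lipE θ' K ⌊(w : ℝ) * J⌋₊ J := by
  obtain ⟨θ, hθe⟩ : ∃ θ, θ = |θ'| := ⟨_, rfl⟩
  have hθ : 0 ≤ θ := by rw [hθe]; exact abs_nonneg _
  have hwR : (0 : ℝ) ≤ w := by exact_mod_cast hw
  have h0 : 0 < θ * w - e := by
    have : θ' * w ≤ θ * w := mul_le_mul_of_nonneg_right (by rw [hθe]; exact le_abs_self _) hwR
    linarith
  unfold lipE
  rw [← hθe]
  obtain ⟨K₀, hK₀⟩ := exists_nat_ge (2 / (θ * w - e))
  obtain ⟨J₀, hJ₀⟩ := exists_nat_ge (2 * θ / (θ * w - e))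
  refine ⟨K₀, J₀, fun K hK J hJ => ?_⟩
  refine Nat.floor_le_floor ?_
  have hJ0 : (0 : ℝ) ≤ J := Nat.cast_nonneg J
  have h1 : 2 / (θ * w - e) ≤ (K : ℝ) + 1 := by
    have : (K₀ : ℝ) ≤ K := by exact_mod_cast hK
    linarith
  have h2 : 2 * θ / (θ * w - e) ≤ (J : ℝ) := by
    have : (J₀ : ℝ) ≤ J := by exact_mod_cast hJ
    linarith
  rw [div_le_iff₀ h0] at h1 h2
  have h3 : (J : ℝ) / (K + 1) ≤ (θ * w - e) / 2 * J := by
    rw [div_le_iff₀ (by positivity)]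
    nlinarith
  have h4 := Nat.lt_floor_add_one ((w : ℝ) * J)
  have h5 : θ * ((w : ℝ) * J) ≤ θ * (⌊(w : ℝ) * J⌋₊ + 1) := mul_le_mul_of_nonneg_left h4.le hθ
  nlinarith

/-- **Chain labels** of the target `k` over the base `l`, with arbitrary sides, on larger radii and
windows. -/
def Cht (θ : ℝ) (l : List (Fin m)) (k : Fin m) (K a w P : ℕ) : Stat m := fun J F A =>
  ∃ (a₀ w₀ : ℕ) (g : ℕ → ℕ), w₀ ≤ a₀ ∧ a₀ ≤ a ∧ w₀ ≤ w ∧ P + a₀ ≤ g l.length + a ∧
    (∀ j ≤ l.length, g j ≤ J) ∧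
    ChN F (fun j => l.getD j k) (l.length + 1) (fun _ => K) a₀ w₀ (lipE θ K w J) g A

theorem Cht.her (θ : ℝ) (l : List (Fin m)) (k : Fin m) (K a w P J : ℕ) (F : Fam m J) :
    Hered (Cht θ l k K a w P J F) := by
  rintro A B hB ⟨a₀, w₀, g, h1, h2, h3, h4, h5, h⟩
  exact ⟨a₀, w₀, g, h1, h2, h3, h4, h5, ChN.hered F _ _ _ _ _ _ _ A B hB h⟩

theorem Cht.anti {θ : ℝ} {l : List (Fin m)} {k : Fin m} {K a w P P' : ℕ} {F : Fam m J}
    {A : F.Ω → Prop} (hP : P' ≤ P) (h : Cht θ l k K a w P J F A) :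
    Cht θ l k K a w P' J F A := by
  obtain ⟨a₀, w₀, g, h1, h2, h3, h4, h5, h⟩ := h
  exact ⟨a₀, w₀, g, h1, h2, h3, by omega, h5, h⟩

theorem Cht.mono {θ : ℝ} {l : List (Fin m)} {k : Fin m} {K K' a a' w w' P : ℕ}
    {F : Fam m J} {A : F.Ω → Prop} (hK : K ≤ K') (ha : a ≤ a') (hw : w ≤ w')
    (h : Cht θ l k K a w P J F A) : Cht θ l k K' a' w' P J F A := by
  obtain ⟨a₀, w₀, g, h1, h2, h3, h4, h5, G, H, h⟩ := h
  exact ⟨a₀, w₀, g, h1, h2.trans ha, h3.trans hw, by omega, h5, G, H,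
    h.mono le_rfl (fun _ => hK) le_rfl (lipE_mono hK hw)⟩

/-- **The slope**. -/
theorem Cht.slope {θ : ℝ} {l : List (Fin m)} {k : Fin m} {K a w P v : ℕ} {F : Fam m J}
    {A : F.Ω → Prop} (h : Cht θ l k K a w P J F A) : Cht θ l k K (a + v) w (P + v) J F A := by
  obtain ⟨a₀, w₀, g, h1, h2, h3, h4, h5, h⟩ := h
  exact ⟨a₀, w₀, g, h1, by omega, h3, by omega, h5, h⟩

/-- A chain is a label of its last coordinate, for every list. -/
theorem Cht.of_chN {θ : ℝ} {c : ℕ → Fin m} {i : ℕ} {K : ℕ → ℕ} {K₀ a w a₀ w₀ e P : ℕ}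
    {g : ℕ → ℕ} {F : Fam m J} {A : F.Ω → Prop} (h : ChN F c (i + 1) K a₀ w₀ e g A) (hwa : w₀ ≤ a₀)
    (ha : a₀ ≤ a) (hw : w₀ ≤ w) (hP : P + a₀ ≤ g i + a) (hK : ∀ l < i + 1, K l ≤ K₀)
    (he : e ≤ lipE θ K₀ w J) (hg : ∀ l ≤ i, g l ≤ J) :
    Cht θ ((List.range i).map c) (c i) K₀ a w P J F A := by
  have hlen : ((List.range i).map c).length = i := by simp
  refine ⟨a₀, w₀, g, hwa, ha, hw, ?_, ?_, ?_⟩
  · rw [hlen]
    exact hP
  · rw [hlen]
    exact hg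
  · rw [hlen]
    obtain ⟨G, H, h1⟩ := h.cls (K' := fun _ => K₀) hK
    refine ChN.congr ⟨G, H, h1.mono le_rfl (fun _ => le_rfl) le_rfl he⟩ (fun l hl => ?_)
      fun _ _ => rfl
    rcases Nat.lt_or_ge l i with h2 | h2
    · simp [h2]
    · have : l = i := by omega
      subst this
      simp

/-! ### The trivial chains -/

theorem near_pt (F : Fam m J) (i : Fin m) (ω : F.Ω) :
    |F.x ω i - ((F.X J ω i : ℤ) : ℝ) / 2 ^ J| ≤ 1 / 2 ^ J := by
  have hr0 : (0 : ℝ) < 2 ^ J := by positivity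
  have a1 := Int.floor_le ((2 : ℝ) ^ J * F.x ω i)
  have a2 := Int.lt_floor_add_one ((2 : ℝ) ^ J * F.x ω i)
  have e : F.x ω i - ((F.X J ω i : ℤ) : ℝ) / 2 ^ J =
      (2 ^ J * F.x ω i - ((⌊(2 : ℝ) ^ J * F.x ω i⌋ : ℤ) : ℝ)) / 2 ^ J := by
    change F.x ω i - ((⌊(2 : ℝ) ^ J * F.x ω i⌋ : ℤ) : ℝ) / 2 ^ J = _
    field_simp
  rw [e, abs_div, abs_of_pos hr0]
  refine div_le_div_of_nonneg_right ?_ hr0.le
  rw [abs_le]
  constructor <;> linarith

theorem near_win (F : Fam m J) (i : Fin m) {w : ℕ} (hw : w ≤ J) (ω : F.Ω) :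
    |F.x ω i - F.x1 w ω i| ≤ 1 / 2 ^ w := by
  have hw0 : (0 : ℝ) < 2 ^ w := by positivity
  have b1 := T1_real F hw ω
  have e : F.x ω i - F.x1 w ω i = (2 ^ w * F.t ω - F.T1 w ω) / 2 ^ w * F.d ω i := by
    unfold Fam.x Fam.x1
    field_simp
    ring
  rw [e, abs_mul]
  have b2 : |(2 ^ w * F.t ω - F.T1 w ω) / 2 ^ w| ≤ 1 / 2 ^ w := by
    rw [abs_div, abs_of_pos hw0]
    refine div_le_div_of_nonneg_right ?_ hw0.le
    rw [abs_le]
    constructor <;> linarith [b1.1, b1.2]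
  calc _ ≤ 1 / 2 ^ w * 1 := mul_le_mul b2 (F.dir ω i) (abs_nonneg _) (by positivity)
    _ = _ := mul_one _

/-- The chains of constant labels. -/
theorem chN_trivial (F : Fam m J) (c : ℕ → Fin m) (r : ℕ) (K : ℕ → ℕ) (a e : ℕ) {w P : ℕ}
    (hP : P + 1 ≤ w) (hw : w ≤ J) (A : F.Ω → Prop) : ChN F c r K a w e (fun _ => P) A := by
  have e1 : (1 : ℝ) / 2 ^ J ≤ 1 / 2 ^ (P + 1) := inv_mono (hP.trans hw)
  have e2 : (1 : ℝ) / 2 ^ w ≤ 1 / 2 ^ (P + 1) := inv_mono hP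
  have e3 : (1 : ℝ) / 2 ^ (P + 1) = 1 / 2 ^ P / 2 := by rw [pow_succ]; field_simp
  have e4 : (0 : ℝ) < 1 / 2 ^ P := by positivity
  refine ⟨fun y i => C ((y.1 (c i) : ℝ) / 2 ^ J),
    fun s i => C (s.1.1 (c i) + (s.2.2 : ℝ) / 2 ^ w * s.1.2 (c i)), fun y i => ?_, fun s i => ?_,
    fun y i => ?_, fun s i => ?_, fun ω _ i _ => ?_, fun ω _ i _ b _ => ?_,
    fun ω _ i _ b _ l _ => ?_⟩
  · rw [totalDegree_C]; exact Nat.zero_le _
  · rw [totalDegree_C]; exact Nat.zero_le _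
  · intro b b' _ _
    rw [eval_C, eval_C]
  · intro b b' _ _
    rw [eval_C, eval_C]
  · have h1 := near_pt F (c i) ω
    rw [eval_C]
    change |F.x ω (c i) - ((F.X J ω (c i) : ℤ) : ℝ) / 2 ^ J| ≤ 1 / 2 ^ P
    linarith
  · have h1 := near_pt F (c i) ω
    have h2 := near_win F (c i) hw ω
    rw [eval_C, eval_C]
    change |((F.X J ω (c i) : ℤ) : ℝ) / 2 ^ J - F.x1 w ω (c i)| ≤ 1 / 2 ^ P
    rw [abs_le] at h1 h2 ⊢
    constructor <;> linarith [h1.1, h1.2, h2.1, h2.2]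
  · rw [pderiv_C, map_zero, abs_zero]
    positivity

/-! ### The system -/

/-- **The system of the chain labels**: the charts are pairs of a list (the base) and a coordinate
(the target). -/
noncomputable def chsys (m : ℕ) (θ : ℝ) : LSys m where
  ι := List (Fin m) × Fin m
  T i := Cht θ i.1 i.2
  her i K a w P J F := Cht.her θ i.1 i.2 K a w P J F
  anti h := Cht.anti h
  mono hK ha hw _ _ h := Cht.mono hK ha hw h

instance (θ : ℝ) : Countable (chsys m θ).ι :=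
  inferInstanceAs (Countable (List (Fin m) × Fin m))

theorem slo_chsys (θ : ℝ) (S : PCl m) : Slo (chsys m θ) S := by
  intro i K
  refine ⟨K, fun w₀ hw₀ η hη => ⟨1, one_pos, 0, fun J _ F A _ a w v P Q _ _ _ _ hQ hT =>
    ⟨A, fun _ h => h, ?_, ?_⟩⟩⟩
  · have h1 : Real.exp (-(η * J)) ≤ 1 := by
      rw [Real.exp_le_one_iff]
      have : 0 ≤ η * (J : ℝ) := by positivity
      linarith
    calc _ ≤ 1 * Pe F.p A := mul_le_mul_of_nonneg_right h1 (Pe_nonneg F.isLaw A)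
      _ = _ := one_mul _
  · have h1 : Q ≤ P + v := by
      have : (Q : ℝ) ≤ ((P + v : ℕ) : ℝ) := by
        push_cast
        have : 0 ≤ η * (J : ℝ) := by positivity
        linarith
      exact_mod_cast this
    exact Cht.anti h1 (Cht.slope hT)

theorem tri_chsys (θ : ℝ) (S : PCl m) : Tri (chsys m θ) S := by
  intro i
  refine ⟨0, fun η hη => ⟨1, one_pos, ?_⟩⟩
  obtain ⟨J₁, hJ₁⟩ := exists_nat_ge (1 / η)
  refine ⟨J₁, fun J hJ F A _ w P hw hP => ⟨A, fun _ h => h, ?_, ?_⟩⟩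
  · have h1 : Real.exp (-(η * J)) ≤ 1 := by
      rw [Real.exp_le_one_iff]
      have : 0 ≤ η * (J : ℝ) := by positivity
      linarith
    calc _ ≤ 1 * Pe F.p A := mul_le_mul_of_nonneg_right h1 (Pe_nonneg F.isLaw A)
      _ = _ := one_mul _
  · have hJ' : (J₁ : ℝ) ≤ J := by exact_mod_cast hJ
    have e1 : 1 / η ≤ J := hJ₁.trans hJ'
    rw [div_le_iff₀ hη] at e1
    have e2 : P + 1 ≤ w := by
      have : ((P + 1 : ℕ) : ℝ) ≤ w := by
        push_cast
        linarith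
      exact_mod_cast this
    have e3 : P ≤ J := by omega
    refine ⟨w, w, fun _ => P, le_rfl, le_rfl, le_rfl, le_rfl, fun _ _ => e3, ?_⟩
    exact chN_trivial F _ _ _ w _ e2 hw A

/-- **The thresholds of the chains** are numbers of a subclass, for all bases and targets at once.
No property of the class is used. -/
theorem thr_chsys (θ : ℝ) {S : PCl m} (hS : S.Ne) :
    ∃ (S' : PCl m) (P : List (Fin m) × Fin m → ℝ → ℝ → ℝ), S'.Ne ∧
      (∀ (τ : ℝ) (J : ℕ) (F : Fam m J) (A : F.Ω → Prop), S'.St τ J F A → S.St τ J F A) ∧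
      ThrOf (chsys m θ) S' P :=
  Pool.LBT.thr (chsys m θ) S hS (slo_chsys θ S) (tri_chsys θ S)

/-! ### The thresholds along a chain -/

/-- The thresholds along the chain `c`. -/
def bet (P : List (Fin m) × Fin m → ℝ → ℝ → ℝ) (c : ℕ → Fin m) (i : ℕ) : ℝ → ℝ → ℝ :=
  P ((List.range i).map c, c i)

variable {θ : ℝ} {S : PCl m} {P : List (Fin m) × Fin m → ℝ → ℝ → ℝ}

/-- **No better label**, uniformly: no chain of natural exponents, of the radius and of the window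
of the threshold or larger, of any sides, has a better label of its last coordinate. -/
theorem no_unif (hP : ThrOf (chsys m θ) S P) (c : ℕ → Fin m) (i : ℕ) (K : ℕ → ℕ) (a w : ℚ)
    (e h : ℝ) (hw : 0 ≤ w) (hwa : w ≤ a) (ha : a ≤ 1) (he : e < θ * w) (hh : 0 < h)
    (h1 : bet P c i a w + h ≤ 1) :
    Bas S (fun J F A => ∀ (a₀ w₀ e₀ : ℕ) (g : ℕ → ℕ), w₀ ≤ a₀ → a₀ ≤ ⌊(a : ℝ) * J⌋₊ →
      w₀ ≤ ⌊(w : ℝ) * J⌋₊ → e₀ ≤ ⌊e * J⌋₊ → (∀ l ≤ i, g l ≤ J) →
      ⌊(bet P c i a w + h) * J⌋₊ + a₀ ≤ g i + ⌊(a : ℝ) * J⌋₊ →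
      ¬ ChN F c (i + 1) K a₀ w₀ e₀ g A) := by
  obtain ⟨K₁, J₁, hK₁⟩ := le_lipE hw he
  obtain ⟨K₀, hK₀⟩ : ∃ K₀, K₀ = max K₁ ((range (i + 1)).sup K) := ⟨_, rfl⟩
  refine Bas.mono J₁ (hP.no ((List.range i).map c, c i) K₀ a w h hw hwa ha hh h1) ?_
  intro J hJ F A hn a₀ w₀ e₀ g k1 k2 k3 k4 k5 k6 k7
  refine hn ?_
  have hK : ∀ l < i + 1, K l ≤ K₀ := fun l hl => by
    rw [hK₀]
    exact (Finset.le_sup (f := K) (mem_range.2 hl)).trans (le_max_right _ _)
  exact Cht.of_chN k7 k1 k2 k3 k6 hK (k4.trans (hK₁ K₀ (by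
    rw [hK₀]; exact le_max_left _ _) J hJ)) k5

/-- **The thresholds along a chain.** -/
theorem chThr_of (hP : ThrOf (chsys m θ) S P) (c : ℕ → Fin m) (r : ℕ) :
    ChThr S c r θ (bet P c) where
  low := fun i _ a w h0 h1 h2 => hP.low _ a w h0 h1 h2
  up := fun i _ a w h0 h1 h2 => hP.up _ a w h0 h1 h2
  mono := fun i _ a a' w w' h0 h1 h2 h3 h4 h5 => (hP.law _).mono h0 h1 h2 h3 h4 h5
  slope := fun i _ a w v h0 h1 h2 h3 => (hP.law _).slope a w v h0 h1 h2 h3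
  no := by
    intro i _ K a w e h g h0 h1 h2 he hh hb hg
    refine Bas.mono 0 (no_unif hP c i K a w e h h0 h1 h2 he hh hb) ?_
    intro J _ F A hn hC
    have hJ : (0 : ℝ) ≤ J := Nat.cast_nonneg J
    have hwR : (w : ℝ) ≤ a := by exact_mod_cast h1
    refine hn ⌊(a : ℝ) * J⌋₊ ⌊(w : ℝ) * J⌋₊ ⌊e * J⌋₊ _
      (Nat.floor_le_floor (mul_le_mul_of_nonneg_right hwR hJ)) le_rfl le_rfl le_rfl (fun l hl => ?_)
      ?_ hC
    · show ⌊(if l = i then bet P c i a w + h else g l) * J⌋₊ ≤ J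
      refine Pool.LBT.fl_le' ?_ J
      split_ifs with h3
      · exact hb
      · have h4 : l < i := lt_of_le_of_ne hl h3
        have h5 : bet P c l a w ≤ 1 := hP.up _ a w (by exact_mod_cast h0) hwR (by exact_mod_cast h2)
        linarith [hg l h4]
    · show _ ≤ ⌊(if i = i then bet P c i a w + h else g i) * J⌋₊ + _
      rw [if_pos rfl]

end Pool.CHT
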