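import Pool.Agent.H2.GEN.Iso
import Pool.Agent.H95.GN.Rlc

/-!
# Two chains at one point

`nbx_ext`: a point of the box of the first coordinates can be extended. `box_swap`: if the natural
boxes of one chain lie near another chain, also the boxes of the other chain lie near the first one.
`relv_swap`: no relation for a chain with near boxes. `lab_swap`: the two sides of a label on the
boxes of a near chain.
-/

set_option autoImplicit false

namespace Pool.ISO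

open Finset Real MvPolynomial
open Pool.Agent.H49.Ent Pool.Agent.H32.Dense Pool.STK Pool.KA Pool.KSAT Pool.K2S Pool.PB Pool.S6C
open Pool.GEN Pool.CHT Pool.CHX

variable {m J : ℕ}

/-- **Extension of a point** of the box of the first coordinates. -/
theorem nbx_ext {c : ℕ → Fin m} {i : ℕ} (hc : Set.InjOn c (Set.Iio i))
    {G : ℕ → MvPolynomial (Option (Fin m)) ℝ} (hdep : ∀ l, DepC c l (G l)) {g : ℕ → ℕ} {a : ℕ}
    {t : ℝ} {j : ℕ} (hj : j ≤ i) {b : Option (Fin m) → ℝ} (hb : NBx c G g a t j b) :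
    ∃ b' : Option (Fin m) → ℝ, NBx c G g a t i b' ∧ b' none = b none ∧
      (∀ l < j, b' (some (c l)) = b (some (c l))) ∧
      ∀ l, j ≤ l → l < i → b' (some (c l)) = eval b' (G l) := by
  have key : ∀ k, j + k ≤ i → ∃ b' : Option (Fin m) → ℝ, NBx c G g a t (j + k) b' ∧
      b' none = b none ∧ (∀ l < j, b' (some (c l)) = b (some (c l))) ∧
      ∀ l, j ≤ l → l < j + k → b' (some (c l)) = eval b' (G l) := by
    intro k
    induction k with
    | zero => exact fun _ => ⟨b, hb, rfl, fun _ _ => rfl, fun l h1 h2 => by omega⟩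
    | succ k ih =>
      intro hk
      obtain ⟨b', h1, h2, h3, h4⟩ := ih (by omega)
      have hck : Set.InjOn c (Set.Iio (j + k + 1)) := hc.mono fun x hx => by
        rw [Set.mem_Iio] at hx ⊢
        omega
      have h5 := Pool.RLV.nbx_graph hck hdep h1
      have hne : ∀ l < j + k, (some (c l) : Option (Fin m)) ≠ some (c (j + k)) := by
        intro l hl he
        have := hck (Set.mem_Iio.2 (by omega)) (Set.mem_Iio.2 (Nat.lt_succ_self _))
          (Option.some_injective _ he)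
        omega
      refine ⟨_, h5, ?_, fun l hl => ?_, fun l h6 h7 => ?_⟩
      · rw [Function.update_of_ne (by simp)]
        exact h2
      · rw [Function.update_of_ne (hne l (by omega))]
        exact h3 l hl
      · rw [Pool.RLV.dep_upd hck (l := l) (l' := j + k) (by omega) (Nat.lt_succ_self _) (hdep l)]
        rcases Nat.lt_or_ge l (j + k) with h8 | h8
        · rw [Function.update_of_ne (hne l h8)]
          exact h4 l h6 h8
        · have h9 : l = j + k := by omega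
          rw [h9, Function.update_self]
  obtain ⟨b', h1, h2, h3, h4⟩ := key (i - j) (by omega)
  have e1 : j + (i - j) = i := by omega
  rw [e1] at h1 h4
  exact ⟨b', h1, h2, h3, h4⟩

/-- **The boxes are near, the other way.** -/
theorem box_swap (D r : ℕ) : ∃ C : ℕ, ∀ {m : ℕ} {c : ℕ → Fin m} {i p q a : ℕ} {t : ℝ}
    {G G' : ℕ → MvPolynomial (Option (Fin m)) ℝ} {g g' : ℕ → ℕ}, i < r →
    Set.InjOn c (Set.Iio i) → (∀ l, (G l).totalDegree ≤ D) → (∀ l, DepC c l (G l)) →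
    (∀ l, (G' l).totalDegree ≤ D) → (∀ l, DepC c l (G' l)) → (∀ l < i, g l ≤ g' l + q) →
    (∀ b, NBx c G g a t i b → ∀ j < i, |b (some (c j)) - eval b (G' j)| ≤ 2 ^ p / 2 ^ g' j) →
    ∀ b, NBx c G' g' a t i b → ∀ j < i,
      |b (some (c j)) - eval b (G j)| ≤ 2 ^ (C * (p + q + 1)) / 2 ^ g j := by
  obtain ⟨c₀, D₁, hD₁, hdil⟩ := nbx_dil (r + 1) (fun _ => D)
  refine ⟨(c₀ + 1) * (1 + D₁) ^ (r + 1), ?_⟩
  intro m c i p q a t G G' g g' hi hc hdG hpG hdG' hpG' hg hnear b hb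
  obtain ⟨h, hh⟩ : ∃ h, h = p + q + 1 := ⟨_, rfl⟩
  have hlexC : ∀ j ≤ r + 1, lex h c₀ D₁ j ≤ (c₀ + 1) * (1 + D₁) ^ (r + 1) * (p + q + 1) := by
    intro j hj
    refine (lex_le h c₀ D₁ j).trans ?_
    have h1 : (1 + D₁) ^ j ≤ (1 + D₁) ^ (r + 1) := Nat.pow_le_pow_right (by omega) hj
    calc (h + c₀) * (1 + D₁) ^ j ≤ ((c₀ + 1) * (p + q + 1)) * (1 + D₁) ^ (r + 1) := by
          refine Nat.mul_le_mul ?_ h1
          rw [hh]
          nlinarith
      _ = _ := by ring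
  -- the difference of the labels on the boxes of `G`
  have hdiff : ∀ j < i, ∀ b, NBx c G g a t j b →
      |eval b (G j) - eval b (G' j)| ≤ 2 ^ (p + q) / 2 ^ g j := by
    intro j hj b hb
    obtain ⟨b', h1, h2, h3, h4⟩ := nbx_ext hc hpG hj.le hb
    have h5 := hnear b' h1 j hj
    rw [h4 j le_rfl hj, hpG j b' b h2 h3, hpG' j b' b h2 h3] at h5
    refine h5.trans ?_
    rw [div_le_div_iff₀ (by positivity) (by positivity), ← pow_add, ← pow_add]
    exact pow_le_pow_right₀ (by norm_num) (by have := hg j hj; omega)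
  have key : ∀ j ≤ i, ∀ j' < j, |b (some (c j')) - eval b (G j')| ≤
      2 ^ lex h c₀ D₁ j / 2 ^ g j' := by
    intro j
    induction j with
    | zero => exact fun _ j' hj' => by omega
    | succ j ih =>
      intro hj j' hj'
      have h0 := ih (by omega)
      rcases Nat.lt_or_ge j' j with h7 | h7
      · refine (h0 j' h7).trans (div_le_div_of_nonneg_right ?_ (by positivity))
        exact pow_le_pow_right₀ (by norm_num) (lex_mono hD₁)
      have hjj : j' = j := by omega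
      subst hjj
      have hcj : Set.InjOn c (Set.Iio j') := hc.mono fun x hx => by
        rw [Set.mem_Iio] at hx ⊢
        omega
      have h1 := hdil (c := c) (i := j') (G := G) (Q := G j' - G' j') (g := g) (a := a) (t := t)
        (M := 2 ^ (p + q) / 2 ^ g j') (lex h c₀ D₁ j') (by omega) hcj hdG hpG
        (fun y y' hn hy => by rw [map_sub, map_sub, hpG j' y y' hn hy, hpG' j' y y' hn hy])
        ((totalDegree_sub _ _).trans (max_le (hdG j') (hdG' j'))) (by positivity)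
        (fun b hb => by rw [map_sub]; exact hdiff j' hj b hb) b hb.1 h0
      rw [map_sub] at h1
      have h2 := hb.2 j' hj
      have h3 : (1 : ℝ) / 2 ^ g' j' ≤ 2 ^ q / 2 ^ g j' := by
        rw [div_le_div_iff₀ (by positivity) (by positivity), one_mul, ← pow_add]
        exact pow_le_pow_right₀ (by norm_num) (by have := hg j' hj; omega)
      have h4 : (2 : ℝ) ^ q / 2 ^ g j' + 2 ^ (c₀ + lex h c₀ D₁ j' * D₁) *
          (2 ^ (p + q) / 2 ^ g j') ≤ 2 ^ lex h c₀ D₁ (j' + 1) / 2 ^ g j' := by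
        rw [← mul_div_assoc, ← add_div]
        refine div_le_div_of_nonneg_right ?_ (by positivity)
        have e3 : lex h c₀ D₁ (j' + 1) = (c₀ + lex h c₀ D₁ j' * D₁) + (p + q) + 1 := by
          show h + c₀ + lex h c₀ D₁ j' * D₁ = _
          rw [hh]
          ring
        have e4 : (2 : ℝ) ^ q ≤ 2 ^ (c₀ + lex h c₀ D₁ j' * D₁) * 2 ^ (p + q) := by
          rw [← pow_add]
          exact pow_le_pow_right₀ (by norm_num) (by omega)
        rw [e3, pow_succ _ (c₀ + lex h c₀ D₁ j' * D₁ + (p + q)), pow_add _ _ (p + q)]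
        linarith
      have e5 : b (some (c j')) - eval b (G j') = (b (some (c j')) - eval b (G' j')) -
          (eval b (G j') - eval b (G' j')) := by ring
      rw [e5]
      refine le_trans ?_ h4
      rw [abs_le] at h1 h2 ⊢
      constructor <;> linarith only [h1.1, h1.2, h2.1, h2.2, h3]
  intro j hj
  refine (key i le_rfl j hj).trans (div_le_div_of_nonneg_right ?_ (by positivity))
  exact pow_le_pow_right₀ (by norm_num) (hlexC i (by omega))

/-- **The two sides** on the boxes near the boxes of the chain. -/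
theorem lab_swap (D r : ℕ) : ∃ C : ℕ, ∀ {m : ℕ} {c : ℕ → Fin m} {i p a : ℕ} {t M : ℝ}
    {G G' : ℕ → MvPolynomial (Option (Fin m)) ℝ} {g g' : ℕ → ℕ}
    {Q : MvPolynomial (Option (Fin m)) ℝ}, i < r →
    Set.InjOn c (Set.Iio i) → (∀ l, (G l).totalDegree ≤ D) → (∀ l, DepC c l (G l)) →
    DepC c i Q → Q.totalDegree ≤ D → 0 ≤ M →
    (∀ b, NBx c G' g' a t i b → ∀ j < i, |b (some (c j)) - eval b (G j)| ≤ 2 ^ p / 2 ^ g j) →
    (∀ b, NBx c G g a t i b → |eval b Q| ≤ M) →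
    ∀ b, NBx c G' g' a t i b → |eval b Q| ≤ 2 ^ (C * (p + 1)) * M := by
  obtain ⟨c₀, D₁, hD₁, hdil⟩ := nbx_dil r (fun _ => D)
  refine ⟨c₀ + D₁, ?_⟩
  intro m c i p a t M G G' g g' Q hi hc hdG hpG hpQ hdQ hM hnear hQ b hb
  refine (hdil p hi hc hdG hpG hpQ hdQ hM hQ b hb.1 (hnear b hb)).trans ?_
  refine mul_le_mul_of_nonneg_right (pow_le_pow_right₀ (by norm_num) ?_) hM
  nlinarith

/-- **No relation** for a chain with near boxes. -/
theorem relv_swap (D r : ℕ) : ∃ C : ℕ, ∀ {m J : ℕ} {F : Fam m J} {c : ℕ → Fin m}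
    {i a w h p : ℕ} {g g' : ℕ → ℕ} {κ κ₁ κ₂ : ℝ} {B₀ B : F.Ω → Prop}
    {G G' : PtT F → ℕ → MvPolynomial (Option (Fin m)) ℝ}, i < r →
    Set.InjOn c (Set.Iio i) → RelvF F c i a w g D h κ B₀ G → Sub B B₀ →
    κ₁ * Pe F.p B₀ ≤ Pe F.p B → 0 ≤ κ₂ → κ ≤ κ₂ * κ₁ →
    (∀ y l, (G y l).totalDegree ≤ D) → (∀ y l, DepC c l (G y l)) →
    (∀ y l, (G' y l).totalDegree ≤ D) → (∀ y l, DepC c l (G' y l)) →
    (∀ ω, B ω → ∀ b, NBx c (G (ptr F J ω)) g a (F.t ω) i b →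
      ∀ j < i, |b (some (c j)) - eval b (G' (ptr F J ω) j)| ≤ 2 ^ p / 2 ^ g' j) →
    (∀ ω, B ω → ∀ b, NBx c (G' (ptr F J ω)) g' a (F.t ω) i b →
      ∀ j < i, |b (some (c j)) - eval b (G (ptr F J ω) j)| ≤ 2 ^ p / 2 ^ g j) →
    RelvF F c i a w g' D (h + C * (p + 1)) κ₂ B G' := by
  obtain ⟨C, hsw⟩ := lab_swap D r
  refine ⟨2 * C, ?_⟩
  intro m J F c i a w h p g g' κ κ₁ κ₂ B₀ B G G' hi hc hR hB hP hκ₂ hκ hdG hpG hdG' hpG' h1 h2
    B' hB' hP' Dx Dl M k1 k2 k3 k4 hM k5 k6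
  obtain ⟨M', hM'⟩ : ∃ M' : ℝ, M' = 2 ^ (C * (p + 1)) * M := ⟨_, rfl⟩
  have hMM : M ≤ M' := by
    rw [hM']
    exact le_mul_of_one_le_left hM.le (one_le_pow₀ (by norm_num))
  obtain ⟨B'', l1, l2, l3⟩ := hR B' (fun ω hω => hB ω (hB' ω hω)) (by
      calc κ * Pe F.p B₀ ≤ κ₂ * κ₁ * Pe F.p B₀ :=
            mul_le_mul_of_nonneg_right hκ (Pe_nonneg F.isLaw B₀)
        _ = κ₂ * (κ₁ * Pe F.p B₀) := by ring
        _ ≤ κ₂ * Pe F.p B := mul_le_mul_of_nonneg_left hP hκ₂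
        _ ≤ _ := hP') Dx Dl M' k1 k2 k3 k4 (hM.trans_le hMM)
    (fun ω hω => (k5 ω hω).trans hMM) (fun ω hω b hb => by
      have h3 := hsw (c := c) (i := i) (p := p) (a := a) (t := F.t ω) (M := M)
        (G := G' (ptr F J ω)) (G' := G (ptr F J ω)) (g := g') (g' := g)
        (Q := Dx (ptr F J ω) - Dl (slam F w ω)) hi hc (hdG' _) (hpG' _)
        (fun y y' hn hy => by rw [map_sub, map_sub, k3 _ y y' hn hy, k4 _ y y' hn hy])
        ((totalDegree_sub _ _).trans (max_le (k1 _) (k2 _))) hM.le (h1 ω (hB' ω hω))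
        (fun b hb => by rw [map_sub]; exact k6 ω hω b hb) b hb
      rw [map_sub] at h3
      rw [hM']
      exact h3)
  refine ⟨B'', l1, l2, fun ω hω b hb => ?_⟩
  have h3 := hsw (c := c) (i := i) (p := p) (a := a) (t := F.t ω) (M := 2 ^ h * M')
    (G := G (ptr F J ω)) (G' := G' (ptr F J ω)) (g := g) (g' := g') (Q := Dx (ptr F J ω)) hi hc
    (hdG _) (hpG _) (k3 _) (k1 _) (mul_nonneg (by positivity) (hM.trans_le hMM).le)
    (h2 ω (hB' ω (l1 ω hω))) (l3 ω hω) b hb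
  refine h3.trans (le_of_eq ?_)
  rw [hM', show h + 2 * C * (p + 1) = C * (p + 1) + h + C * (p + 1) by ring, pow_add, pow_add]
  ring

/-- A larger exponent. -/
theorem relvF_exp {F : Fam m J} {c : ℕ → Fin m} {i a w : ℕ} {g : ℕ → ℕ} {D h h' : ℕ} {κ : ℝ}
    {B₀ : F.Ω → Prop} {G : PtT F → ℕ → MvPolynomial (Option (Fin m)) ℝ}
    (hR : RelvF F c i a w g D h κ B₀ G) (hh : h ≤ h') : RelvF F c i a w g D h' κ B₀ G := by
  intro B' hB hP Dx Dl M h1 h2 h3 h4 hM h5 h6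
  obtain ⟨B'', k1, k2, k3⟩ := hR B' hB hP Dx Dl M h1 h2 h3 h4 hM h5 h6
  refine ⟨B'', k1, k2, fun ω hω b hb => (k3 ω hω b hb).trans ?_⟩
  exact mul_le_mul_of_nonneg_right (pow_le_pow_right₀ (by norm_num) hh) hM.le

/-- **Three chains at one point**: no relation for `T`; the label of the target of `N` and no
relation for `Γ`, on the natural boxes of `Γ`. -/
theorem three_chains (D Dr r : ℕ) (hD : 1 ≤ D) : ∃ C : ℕ, ∀ {m J : ℕ} {F : Fam m J}
    {c : ℕ → Fin m} {a w e₁ e₂ e₃ h q : ℕ} {κT κ : ℝ} {gT gN gΓ : ℕ → ℕ} {B : F.Ω → Prop}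
    {T N Γ : PtT F → ℕ → MvPolynomial (Option (Fin m)) ℝ}
    {TH NH ΓH : LnT F → ℕ → MvPolynomial (Option (Fin m)) ℝ}, Set.InjOn c (Set.Iio r) →
    RelvF F c r a w gT (max D Dr) h κT B T → 0 ≤ κ → κT * 4 ^ r ≤ κ → κT * (2 * 4 ^ r) ≤ 1 →
    ChOK F c r (fun _ => D) a w e₁ gT B T TH → ChOK F c (r + 1) (fun _ => D) a w e₂ gN B N NH →
    ChOK F c (r + 1) (fun _ => D) a w e₃ gΓ B Γ ΓH → (∀ l < r, gT l ≤ gΓ l + q) →
    ∃ B' : F.Ω → Prop, Sub B' B ∧ Pe F.p B ≤ 4 ^ r * Pe F.p B' ∧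
      (∀ ω, B' ω → ∀ b, NBx c (Γ (ptr F J ω)) gΓ a (F.t ω) r b → ∀ l < r,
        |b (some (c l)) - eval b (T (ptr F J ω) l)| ≤ 2 ^ (C * (h + q + 1)) / 2 ^ gT l ∧
        |b (some (c l)) - eval b (N (ptr F J ω) l)| ≤ 2 ^ (C * (h + q + 1)) / 2 ^ gN l) ∧
      (∀ ω, B' ω → ∀ b, NBx c (Γ (ptr F J ω)) gΓ a (F.t ω) r b →
        |eval b (N (ptr F J ω) r) - eval b (NH (slam F w ω) r)| ≤
          2 ^ (C * (h + q + 1)) / 2 ^ gN r) ∧
      RelvF F c r a w gΓ Dr (C * (h + q + 1)) κ B' Γ := by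
  obtain ⟨C₁, hmv⟩ := move_all D (r + 1) hD
  obtain ⟨C₂, hbs⟩ := box_swap D (r + 1)
  obtain ⟨C₀, hls⟩ := lab_swap D (r + 1)
  obtain ⟨C₃, hC₃⟩ : ∃ C₃, C₃ = C₀ + 1 := ⟨_, rfl⟩
  obtain ⟨C₄, hrs⟩ := relv_swap (max D Dr) (r + 1)
  obtain ⟨C, hC⟩ : ∃ C, C = (C₃ + C₄ + 1) * (C₂ + 2) * (C₁ + 2) * 4 := ⟨_, rfl⟩
  refine ⟨C, ?_⟩
  intro m J F c a w e₁ e₂ e₃ h q κT κ gT gN gΓ B T N Γ TH NH ΓH hc hR hκ hκ1 hκ2 hT hN hΓ hq
  have hp := Pe_nonneg F.isLaw
  have h4 : (0 : ℝ) < 4 ^ r := by positivity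
  have h2 : (0 : ℝ) < 2 ^ r := by positivity
  have e4 : (4 : ℝ) ^ r = 2 ^ r * 2 ^ r := by
    rw [← mul_pow]
    norm_num
  have hRD : RelvF F c r a w gT D h κT B T := hR.mono (le_max_left _ _) le_rfl
  -- the boxes of `T` near `Γ`
  obtain ⟨B₁, k1, k2, k3⟩ := hmv (κ' := 1) (Nat.lt_succ_self r) hc hRD (fun _ h => h)
    (by rw [one_mul]) (by
      rcases le_or_gt κT 0 with h0 | h0
      · have : κT * 2 ^ (r + 1) ≤ 0 := mul_nonpos_of_nonpos_of_nonneg h0 (by positivity)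
        linarith
      · have h3 : (2 : ℝ) ^ (r + 1) ≤ 2 * 4 ^ r := by
          rw [e4, pow_succ]
          have : (1 : ℝ) ≤ 2 ^ r := one_le_pow₀ (by norm_num)
          nlinarith
        exact (mul_le_mul_of_nonneg_left h3 h0.le).trans hκ2)
    (hΓ.mono (Nat.le_succ r) (fun _ => le_rfl) le_rfl le_rfl)
  have hP1 : Pe F.p B ≤ 2 ^ r * Pe F.p B₁ := by
    rw [div_le_iff₀ h2] at k2
    linarith
  -- the boxes of `T` near `N`
  obtain ⟨B₂, l1, l2, l3⟩ := hmv (κ' := 1 / 2 ^ r) (Nat.lt_succ_self r) hc hRD k1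
    (by rw [one_div, inv_mul_le_iff₀ h2]; exact hP1) (by
      rw [le_div_iff₀ h2]
      rcases le_or_gt κT 0 with h0 | h0
      · have : κT * 2 ^ (r + 1) * 2 ^ r ≤ 0 :=
          mul_nonpos_of_nonpos_of_nonneg (mul_nonpos_of_nonpos_of_nonneg h0 (by positivity))
            h2.le
        linarith
      · have h3 : κT * 2 ^ (r + 1) * 2 ^ r = κT * (2 * 4 ^ r) := by
          rw [e4, pow_succ]
          ring
        rw [h3]
        exact hκ2)
    ((hN.mono (Nat.le_succ r) (fun _ => le_rfl) le_rfl le_rfl).sub k1)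
  have hP2 : Pe F.p B ≤ 4 ^ r * Pe F.p B₂ := by
    rw [div_le_iff₀ h2] at l2
    calc Pe F.p B ≤ 2 ^ r * Pe F.p B₁ := hP1
      _ ≤ 2 ^ r * (Pe F.p B₂ * 2 ^ r) := mul_le_mul_of_nonneg_left l2 h2.le
      _ = 4 ^ r * Pe F.p B₂ := by rw [e4]; ring
  -- the boxes of `Γ` near `T`
  have hbT : ∀ ω, B₂ ω → ∀ b, NBx c (Γ (ptr F J ω)) gΓ a (F.t ω) r b → ∀ l < r,
      |b (some (c l)) - eval b (T (ptr F J ω) l)| ≤
        2 ^ (C₂ * (C₁ * (h + 1) + q + 1)) / 2 ^ gT l := by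
    intro ω hω b hb l hl
    exact hbs (Nat.lt_succ_self r) hc (hT.degG _) (hT.depG _) (hΓ.degG _) (hΓ.depG _) hq
      (fun b hb j hj => k3 ω (l1 ω hω) b hb j hj) b hb l hl
  obtain ⟨p, hp'⟩ : ∃ p, p = C₂ * (C₁ * (h + 1) + q + 1) + C₁ * (h + 1) := ⟨_, rfl⟩
  have hpC : (C₃ + C₄ + 1) * (2 * (p + 1)) + h ≤ C * (h + q + 1) := by
    have h1 : p + 1 ≤ (C₂ + 2) * (C₁ + 2) * (h + q + 1) := by
      rw [hp']
      nlinarith [Nat.zero_le (C₁ * q), Nat.zero_le (C₂ * q), Nat.zero_le (C₂ * C₁ * q),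
        Nat.zero_le (C₂ * h), Nat.zero_le (C₁ * h), Nat.zero_le (C₂ * C₁), Nat.zero_le C₁,
        Nat.zero_le C₂, Nat.zero_le (C₂ * C₁ * h)]
    have h3 : h ≤ (C₃ + C₄ + 1) * (C₂ + 2) * (C₁ + 2) * (h + q + 1) := by
      have : 1 ≤ (C₃ + C₄ + 1) * (C₂ + 2) * (C₁ + 2) :=
        Nat.one_le_iff_ne_zero.2 (by positivity)
      calc h ≤ 1 * (h + q + 1) := by omega
        _ ≤ _ := Nat.mul_le_mul_right _ this
    calc (C₃ + C₄ + 1) * (2 * (p + 1)) + h
        ≤ (C₃ + C₄ + 1) * (2 * ((C₂ + 2) * (C₁ + 2) * (h + q + 1))) +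
          (C₃ + C₄ + 1) * (C₂ + 2) * (C₁ + 2) * (h + q + 1) :=
          Nat.add_le_add (Nat.mul_le_mul_left _ (Nat.mul_le_mul_left _ h1)) h3
      _ ≤ C * (h + q + 1) := by
          rw [hC]
          have : (C₃ + C₄ + 1) * (2 * ((C₂ + 2) * (C₁ + 2) * (h + q + 1))) +
            (C₃ + C₄ + 1) * (C₂ + 2) * (C₁ + 2) * (h + q + 1) =
            3 * ((C₃ + C₄ + 1) * (C₂ + 2) * (C₁ + 2) * (h + q + 1)) := by ring
          rw [this]
          have h5 : (C₃ + C₄ + 1) * (C₂ + 2) * (C₁ + 2) * 4 * (h + q + 1) =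
            4 * ((C₃ + C₄ + 1) * (C₂ + 2) * (C₁ + 2) * (h + q + 1)) := by ring
          rw [h5]
          exact Nat.mul_le_mul_right _ (by norm_num)
  have q1 : C₁ * (h + 1) ≤ p := by rw [hp']; omega
  have q2 : C₂ * (C₁ * (h + 1) + q + 1) ≤ p := by rw [hp']; omega
  have q3 : C₃ * (2 * (p + 1)) ≤ C * (h + q + 1) :=
    le_trans (by nlinarith [Nat.zero_le (C₄ * (p + 1))]) hpC
  have q4 : h + C₄ * (p + 1) ≤ C * (h + q + 1) := le_trans (by
    nlinarith [Nat.zero_le (C₃ * (p + 1)), Nat.zero_le (C₄ * (p + 1))]) hpC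
  have q5 : p ≤ C * (h + q + 1) :=
    le_trans (by nlinarith [Nat.zero_le (C₄ * (p + 1)), Nat.zero_le (C₃ * (p + 1))]) hpC
  have hdiv : ∀ {x y n : ℕ}, x ≤ y → (2 : ℝ) ^ x / 2 ^ n ≤ 2 ^ y / 2 ^ n := fun h =>
    div_le_div_of_nonneg_right (pow_le_pow_right₀ (by norm_num) h) (by positivity)
  have hbT' : ∀ ω, B₂ ω → ∀ b, NBx c (Γ (ptr F J ω)) gΓ a (F.t ω) r b → ∀ l < r,
      |b (some (c l)) - eval b (T (ptr F J ω) l)| ≤ 2 ^ p / 2 ^ gT l :=
    fun ω hω b hb l hl => (hbT ω hω b hb l hl).trans (hdiv q2)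
  -- labels on the boxes of `Γ`
  have hQ : ∀ (Q : MvPolynomial (Option (Fin m)) ℝ) (l n : ℕ), l ≤ r → DepC c r Q →
      Q.totalDegree ≤ D → ∀ ω, B₂ ω →
      (∀ b, NBx c (T (ptr F J ω)) gT a (F.t ω) r b → |eval b Q| ≤ 2 ^ (C₃ * (p + 1)) / 2 ^ n) →
      ∀ b, NBx c (Γ (ptr F J ω)) gΓ a (F.t ω) r b →
        |eval b Q| ≤ 2 ^ (C * (h + q + 1)) / 2 ^ n := by
    intro Q l n hl hQ1 hQ2 ω hω hQ3 b hb
    have h1 := hls (Nat.lt_succ_self r) hc (hT.degG _) (hT.depG _) hQ1 hQ2 (by positivity)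
      (hbT' ω hω) hQ3 b hb
    refine h1.trans ?_
    rw [← mul_div_assoc, ← pow_add]
    refine hdiv (le_trans ?_ q3)
    have h5 : C₀ * (p + 1) ≤ C₃ * (p + 1) := Nat.mul_le_mul_right _ (by omega)
    have h6 : C₃ * (2 * (p + 1)) = C₃ * (p + 1) + C₃ * (p + 1) := by ring
    omega
  refine ⟨B₂, fun ω hω => k1 ω (l1 ω hω), hP2, fun ω hω b hb l hl =>
    ⟨(hbT' ω hω b hb l hl).trans (hdiv q5), ?_⟩, fun ω hω b hb => ?_, ?_⟩
  · have h1 := hQ (X (some (c l)) - N (ptr F J ω) l) l (gN l) hl.le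
      (fun y y' hn hy => by
        rw [map_sub, map_sub, eval_X, eval_X, hy l hl,
          (hN.depG (ptr F J ω) l).mono hl.le y y' hn hy])
      ((totalDegree_sub _ _).trans (max_le (by rw [totalDegree_X]; exact hD) (hN.degG _ l)))
      ω hω (fun b hb => by
        rw [map_sub, eval_X]
        refine (l3 ω hω b hb l hl).trans (hdiv (q1.trans ?_))
        calc p ≤ 1 * (p + 1) := by omega
          _ ≤ C₃ * (p + 1) := Nat.mul_le_mul_right _ (by omega)) b hb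
    rw [map_sub, eval_X] at h1
    exact h1
  · have hN' := hN.sub fun ω (hω : B₂ ω) => k1 ω (l1 ω hω)
    have h1 := hQ (N (ptr F J ω) r - NH (slam F w ω) r) r (gN r) le_rfl
      (fun y y' hn hy => by
        rw [map_sub, map_sub, hN.depG (ptr F J ω) r y y' hn hy, hN.depH (slam F w ω) r y y' hn hy])
      ((totalDegree_sub _ _).trans (max_le (hN.degG _ r) (hN.degH _ r)))
      ω hω (fun b hb => by
        have h2 := hls (p := C₁ * (h + 1)) (Nat.lt_succ_self r) hc (hN.degG (ptr F J ω))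
          (hN.depG (ptr F J ω))
          (Q := N (ptr F J ω) r - NH (slam F w ω) r) (M := 1 / 2 ^ gN r)
          (fun y y' hn hy => by
            rw [map_sub, map_sub, hN.depG (ptr F J ω) r y y' hn hy,
              hN.depH (slam F w ω) r y y' hn hy])
          ((totalDegree_sub _ _).trans (max_le (hN.degG _ r) (hN.degH _ r))) (by positivity)
          (fun b hb j hj => l3 ω hω b hb j hj) (fun b hb => by
            rw [map_sub]
            exact hN'.agr ω hω r (Nat.lt_succ_self r) b hb) b hb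
        refine h2.trans ?_
        rw [← mul_div_assoc, mul_one]
        refine hdiv ?_
        calc C₀ * (C₁ * (h + 1) + 1) ≤ C₃ * (p + 1) :=
              Nat.mul_le_mul (by omega) (by omega)
          _ ≤ _ := le_rfl) b hb
    rw [map_sub] at h1
    exact h1
  · have h1 := hrs (κ₁ := 1 / 4 ^ r) (κ₂ := κ) (p := p) (g' := gΓ) (G' := Γ)
      (Nat.lt_succ_self r) hc hR (fun ω (hω : B₂ ω) => k1 ω (l1 ω hω))
      (by rw [one_div, inv_mul_le_iff₀ h4]; exact hP2) hκ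
      (by rw [mul_one_div, le_div_iff₀ h4]; exact hκ1)
      (fun y l => (hT.degG y l).trans (le_max_left _ _)) hT.depG
      (fun y l => (hΓ.degG y l).trans (le_max_left _ _)) hΓ.depG
      (fun ω hω b hb j hj => (k3 ω (l1 ω hω) b hb j hj).trans (hdiv q1))
      (fun ω hω b hb j hj => hbT' ω hω b hb j hj)
    exact (relvF_exp h1 q4).mono (le_max_right _ _) le_rfl

end Pool.ISO
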