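import Pool.Agent.H2.GEN.GrdI

/-!
# The field `grd` of the iso kit

`grd_iso`: the labels of the grids on the boxes of rows, for every kit over the boxes of rows whose
joint property follows from `wBS`; the degree and the constants of the labels depend only on the
number of coordinates and on the constant of the row.
-/

set_option autoImplicit false

namespace Pool.STAT

open Finset MvPolynomial
open Pool.Agent.H49.Ent Pool.Agent.H32.Dense Pool.STK Pool.KS3 Pool.KA Pool.KSAT Pool.PB Pool.GEN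
open Pool.K2S Pool.S6C
open Pool.LEV (Law Lv)
open Pool.STR (AffB CellD)
open Pool.RTS (iso Diag)
open Pool.CHT (bet TmH chsys)
open Pool.LBT (ThrOf)
open Pool.ISO (ChI)
open CLO Pool.MIC6

/-- **The labels of the grids** on the boxes of rows. -/
theorem grd_iso (m n₀ : ℕ) {c : ℝ} (hc : 0 < c) : ∃ (K K' s₁ : ℕ) (sh : ℕ → ℕ), 1 ≤ K ∧ 1 ≤ K' ∧
    ∀ {P : ℝ → ℝ → ℝ} {ρ : ℝ → ℝ} {E : CellD P ρ} {S : PCl m} (Kt : KitS m E n₀) {β h Mr : ℝ},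
    Kt.K = K → S.Ne → TmH S → Law P → 0 < β → (Diag fun a => P a a) → (∀ o j, Diag (E.D o j)) →
    (∀ k, Inj (Kt.cs k) (n₀ + 1)) →
    (EvP (IsBS E c β h Mr) fun p => ∀ l < n₀, E.D p.k.2 (Kt.jx p.k.2 l) p.g + c ≤ 1) →
    (∀ k Q g r, E.Ad c k Q g r → ∃ (Pc : List (Fin m) × Fin m → ℝ → ℝ → ℝ) (θ sg : ℝ)
      (W : Set ℝ), ThrOf (chsys m θ) S Pc ∧
      (∀ l < n₀, ∀ a, E.D k.2 (Kt.jx k.2 l) a = bet Pc (Kt.cs k) l a a) ∧
      ChI S Pc θ (Kt.cs k) n₀ P W sg c g r) →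
    (∀ p N M θ (J : ℕ) (F : Fam m J) (D : GDat F) (A : F.Ω → Prop),
      wBS E Kt.cs Kt.jx n₀ K p N M θ J F A D.G D.H → Kt.W p N M θ J F D A) →
    ∀ M : ℕ, EvQ (IsBS E c β h Mr) fun N θ p => ∃ (b : ℕ → ℕ → ℕ → ℝ) (e : ℕ → ℕ → ℝ),
      Kt.kit.Near p N M θ b e ∧
        Lg S fun _ F A => ∃ D : GDat F, (Kt.kit.grid K' s₁ sh p N M θ b e).Ok F D A := by
  obtain ⟨K, hK, hbox⟩ := box_iso m n₀ hc
  obtain ⟨sh, K', s₁, hK', hgr⟩ := grJ_ex (n₀ + 1) K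
  refine ⟨K, K', s₁, sh, hK, hK', ?_⟩
  intro P ρ E S Kt β h Mr hKt hne hS hP hβ hPd hD hinj hlt hchi hW M
  subst hKt
  exact grd_of_box (isBS_mono E c β h Mr) (Kt := Kt.kit) (fun p => hinj p.k) hgr
    (Y := fun p N M θ => wBS E Kt.cs Kt.jx n₀ Kt.K p N M θ)
    (fun p N M θ => wBS_her E Kt.cs Kt.jx n₀ Kt.K p N M θ)
    (KitS.cel (Kt := Kt) (M := Mr) (h := h) hc hβ hPd hD (KitS.hlt_of hc hlt)) hW
    (fun M => hbox E Kt.cs Kt.jx hne hS hP hinj hchi M) M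

end Pool.STAT
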