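import Pool.Agent.H2.GEN.ChnP
import Pool.Agent.H2.GEN.GrdK
import Pool.Agent.H60.GEN.NumT

/-!
# The grids on the boxes of the rows of a class

`AdI`: all that is needed for the grids at a window. `PkT.parI`: the parameters of the cells with
this property (no defect). `PkT.hchi`, `PkT.hlt`: the hypotheses of `Pool.STAT.grd_iso` for all the
cells whose windows have the property `AdI`.
-/

set_option autoImplicit false

namespace Pool.PKG

open MeasureTheory Set Filter Topology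
open Pool.Agent.H49.Ent Pool.Agent.H32.Dense Pool.STK Pool.KA Pool.KSAT Pool.K2S Pool.PB
open Pool.GEN Pool.S6C Pool.STAT Pool.CHT Pool.GRW Pool.ONE Pool.STA
open Pool.LBT (LSys ThrOf)
open Pool.LEV (Law)
open Pool.ALL (RateOf)
open Pool.TOP (TopS)
open Pool.RTS (iso Diag)
open Pool.STR (NumI CellD RowD)
open Pool.ISO (ChI)

variable {n : ℕ} {hn : 2 ≤ n} {S : PCl n} {P : ℝ → ℝ → ℝ} {r : ℝ → ℝ}
  {P' : ℕ → List (Fin n) × Fin n → ℝ → ℝ → ℝ}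
  {Λ : Finset (Fin n) → Fin n → ℝ → ℝ → ℝ}
  {PB : ℕ → List (Fin n) × Fin n → ℝ → ℝ → ℝ}

/-- **The property of the windows** for the grids. -/
def AdI (hn : 2 ≤ n) (S : PCl n) (P : ℝ → ℝ → ℝ)
    (P' : ℕ → List (Fin n) × Fin n → ℝ → ℝ → ℝ) (c : ℝ) (o : Od n) (g ρ : ℝ) : Prop :=
  ∃ sg : ℝ, ChI S (P' o.2) (tht o.2) (cc hn o.1.1) (n - 1) P (Wgc P' o.2) sg c g ρ

/-- The diagonal of a level. -/
def jxI (n : ℕ) (l : ℕ) : Option (Fin (n - 1)) := if h : l < n - 1 then some ⟨l, h⟩ else none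

namespace PkT

variable (H : PkT hn S P r P' Λ PB)

/-- **The parameters** of the cells with the property `AdI`. -/
noncomputable def parI (hTop : TopS n) (hF : FZX (n - 1)) : (H.nk hTop hF).Par :=
  NumI.Par.one (nk := H.nk hTop hF) (fun c o _ g ρ => AdI hn S P P' c o g ρ) (fun _ _ _ => 0)
    {g | ¬ ∀ o : Od n, g ∈ Gs P r P' Λ o → ∃ c₀ sg : ℝ, 0 < c₀ ∧ c₀ ≤ 1 ∧ ∃ r₀ : ℝ,
      0 < r₀ ∧ ∀ ρ : ℝ, 0 < ρ → ρ < r₀ → ∀ c' : ℝ, 0 < c' → c' ≤ c₀ →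
        ChI S (P' o.2) (tht o.2) (cc hn o.1.1) (n - 1) P (Wgc P' o.2) sg c' g ρ}
    (ae_iff.1 (H.toPk.chI_ae hTop hF))
    (Eventually.of_forall fun Q hrow o ho => by
      have h1 := hrow.mem
      rw [mem_compl_iff, mem_ofPred_eq, not_not] at h1
      obtain ⟨c₀, sg, hc₀, -, r₀, hr₀, h2⟩ := h1 o ho.1
      exact ⟨c₀, hc₀, fun c' hc' hcc e he => ⟨r₀, hr₀, fun ρ hρ hρ' =>
        ⟨⟨sg, h2 ρ hρ hρ' c' hc' hcc⟩, by positivity⟩⟩⟩)

variable {hTop : TopS n} {hF : FZX (n - 1)} {p : (H.nk hTop hF).Par}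

/-- The windows of the cells have the property `ChI`. -/
theorem hchi (hp : ∀ c (k : p.α × Od n) Q g ρ, p.Ad' c k Q g ρ → AdI hn S P P' c k.2 g ρ)
    {c : ℝ} : ∀ (k : p.cell.α × p.cell.O) (Q g ρ : ℝ), p.cell.Ad c k Q g ρ →
      ∃ (Pc : List (Fin n) × Fin n → ℝ → ℝ → ℝ) (θ sg : ℝ) (W : Set ℝ),
        ThrOf (chsys n θ) S Pc ∧
        (∀ l < n - 1, ∀ a, p.cell.D k.2 (jxI n l) a =
          bet Pc (cc hn (show Od n from k.2).1.1) l a a) ∧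
        ChI S Pc θ (cc hn (show Od n from k.2).1.1) (n - 1) P W sg c g ρ := by
  rintro ⟨x, o⟩ Q g ρ h
  obtain ⟨sg, h1⟩ := hp c (x, o) Q g ρ h.2.2.2.2
  refine ⟨P' (show Od n from o).2, tht (show Od n from o).2, sg, Wgc P' (show Od n from o).2,
    H.cht _, fun l hl a => ?_, h1⟩
  have h2 : jxI n l = some ⟨l, hl⟩ := dif_pos hl
  rw [h2]
  rfl

/-- The diagonals are below one. -/
theorem hlt (hp : ∀ c (k : p.α × Od n) Q g ρ, p.Ad' c k Q g ρ → AdI hn S P P' c k.2 g ρ)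
    {c β h M : ℝ} : EvP (IsBS p.cell c β h M) fun q => ∀ l < n - 1,
      p.cell.D q.k.2 (jxI n l) q.g + c ≤ 1 := by
  refine ⟨1, one_pos, fun q hq l hl => ?_⟩
  obtain ⟨Pc, θ, sg, W, -, h2, h3⟩ := H.hchi hp q.k q.Q q.g q.r hq.ad
  have hg : 0 < q.g := by linarith [hq.g0, hq.r0]
  have h4 := h3.bd l hl q.g hg (by linarith [hq.r0])
  rw [h2 l hl]
  linarith [h3.sg1]

end PkT

end Pool.PKG
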