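import Pool.Agent.H2.GEN.Rate0
import Pool.Agent.H76.GN.Lev

/-!
# Numbers of monotone quantities; the activity of the directions

`nums`: a quantity which is monotone and Lipschitz in a scale `k ≤ J` and has numbers at the
rational scales has numbers at all scales, given by a monotone Lipschitz function.
`act_nums`: the entropy of the direction `D ⌊g J⌋` given the point, the time and the side
information is `act g * log 2 * J` in a subclass.
`exists_active`: if `c g ≤ act g`, there are arbitrarily small `g` at which `act` has a positive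
derivative.
-/

set_option autoImplicit false

namespace Pool.GEN

open Finset Real
open Pool.Agent.H49.Ent Pool.Agent.H32.Dense Pool.STK Pool.KA Pool.K2S Pool.PB Pool.S6C

variable {m J : ℕ}

/-- The rational points of the unit interval. -/
abbrev Q01 : Type := {q : ℚ // 0 ≤ q ∧ q ≤ 1}

/-- The largest Lipschitz extension from below. -/
noncomputable def rx (C : ℝ) (ρ : Q01 → ℝ) (x : ℝ) : ℝ :=
  ⨆ q : Q01, (ρ q - C * max (((q : ℚ) : ℝ) - x) 0)

section rx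

variable {C : ℝ} {ρ : Q01 → ℝ}

/-- The point one. -/
def q1 : Q01 := ⟨1, zero_le_one, le_rfl⟩

/-- The point zero. -/
def q0 : Q01 := ⟨0, le_rfl, zero_le_one⟩

theorem rx_bdd (hC : 0 ≤ C) (hm : ∀ q q' : Q01, (q : ℚ) ≤ q' → ρ q ≤ ρ q') (x : ℝ) :
    BddAbove (Set.range fun q : Q01 => ρ q - C * max (((q : ℚ) : ℝ) - x) 0) := by
  refine ⟨ρ q1, ?_⟩
  rintro y ⟨q, rfl⟩
  have h1 := hm q q1 q.2.2
  have h2 : 0 ≤ C * max (((q : ℚ) : ℝ) - x) 0 := mul_nonneg hC (le_max_right _ _)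
  simp only
  linarith

theorem rx_add (hC : 0 ≤ C) (hm : ∀ q q' : Q01, (q : ℚ) ≤ q' → ρ q ≤ ρ q') {x y : ℝ} :
    rx C ρ x ≤ rx C ρ y + C * |x - y| := by
  have : Nonempty Q01 := ⟨q0⟩
  refine ciSup_le fun q => ?_
  have h1 := le_ciSup (rx_bdd hC hm y) q
  have h2 : max (((q : ℚ) : ℝ) - y) 0 ≤ max (((q : ℚ) : ℝ) - x) 0 + |x - y| := by
    refine max_le ?_ ?_
    · have a1 := le_max_left (((q : ℚ) : ℝ) - x) 0
      have a2 := le_abs_self (x - y)
      linarith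
    · have a1 := le_max_right (((q : ℚ) : ℝ) - x) 0
      have a2 := abs_nonneg (x - y)
      linarith
  have h3 := mul_le_mul_of_nonneg_left h2 hC
  unfold rx
  linarith

theorem rx_mono (hC : 0 ≤ C) (hm : ∀ q q' : Q01, (q : ℚ) ≤ q' → ρ q ≤ ρ q') :
    Monotone (rx C ρ) := by
  intro x y hxy
  have : Nonempty Q01 := ⟨q0⟩
  refine ciSup_le fun q => ?_
  have h1 := le_ciSup (rx_bdd hC hm y) q
  have h2 : max (((q : ℚ) : ℝ) - y) 0 ≤ max (((q : ℚ) : ℝ) - x) 0 :=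
    max_le_max (by linarith) le_rfl
  have h3 := mul_le_mul_of_nonneg_left h2 hC
  unfold rx
  linarith

theorem rx_rat (hC : 0 ≤ C) (hm : ∀ q q' : Q01, (q : ℚ) ≤ q' → ρ q ≤ ρ q')
    (hl : ∀ q q' : Q01, (q : ℚ) ≤ q' → ρ q' ≤ ρ q + C * (((q' : ℚ) : ℝ) - ((q : ℚ) : ℝ)))
    (q : Q01) : rx C ρ ((q : ℚ) : ℝ) = ρ q := by
  have : Nonempty Q01 := ⟨q0⟩
  refine le_antisymm (ciSup_le fun q' => ?_) ?_
  · rcases le_total (q' : ℚ) (q : ℚ) with h | h
    · have h1 := hm q' q h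
      have h2 : 0 ≤ C * max (((q' : ℚ) : ℝ) - ((q : ℚ) : ℝ)) 0 :=
        mul_nonneg hC (le_max_right _ _)
      linarith
    · have h1 := hl q q' h
      have h2 := mul_le_mul_of_nonneg_left (le_max_left (((q' : ℚ) : ℝ) - ((q : ℚ) : ℝ)) 0) hC
      linarith
  · have h1 := le_ciSup (rx_bdd hC hm ((q : ℚ) : ℝ)) q
    simp only [sub_self, max_self, mul_zero, sub_zero] at h1
    exact h1

theorem rx_lip (hC : 0 ≤ C) (hm : ∀ q q' : Q01, (q : ℚ) ≤ q' → ρ q ≤ ρ q') :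
    LipschitzWith ⟨C, hC⟩ (rx C ρ) := by
  refine LipschitzWith.of_le_add_mul _ fun x y => ?_
  exact rx_add hC hm

end rx

/-- **Numbers of a monotone quantity.** -/
theorem nums {S : PCl m} (hne : S.Ne) {f : ∀ (J : ℕ) (F : Fam m J), (F.Ω → Prop) → ℕ → ℝ}
    {C : ℝ} (hC : 0 ≤ C)
    (hrat : ∀ q : Q01, ∃ ρ : ℝ, ∀ h : ℝ, 0 < h →
      Bas S (fun J F A => |f J F A ⌊((q : ℚ) : ℝ) * J⌋₊ - ρ * J| ≤ h * J))
    (hnear : Bas S (fun J F A => ∀ k k' : ℕ, k ≤ k' → k' ≤ J →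
      f J F A k ≤ f J F A k' ∧ f J F A k' ≤ f J F A k + C * ((k' : ℝ) - k))) :
    ∃ r : ℝ → ℝ, LipschitzWith ⟨C, hC⟩ r ∧ Monotone r ∧ ∀ Q : ℝ, 0 ≤ Q → Q ≤ 1 →
      ∀ h : ℝ, 0 < h → Bas S (fun J F A => |f J F A ⌊Q * J⌋₊ - r Q * J| ≤ h * J) := by
  choose ρ hρ using hrat
  have hfl : ∀ {Q : ℝ}, Q ≤ 1 → ∀ J : ℕ, ⌊Q * J⌋₊ ≤ J := by
    intro Q hQ J
    refine Nat.floor_le_of_le ?_
    have := mul_le_mul_of_nonneg_right hQ (Nat.cast_nonneg (α := ℝ) J)
    linarith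
  -- two scales
  have near2 : ∀ {a b : ℝ}, 0 ≤ a → a ≤ b → b ≤ 1 → Bas S (fun J F A =>
      f J F A ⌊a * J⌋₊ ≤ f J F A ⌊b * J⌋₊ ∧
        f J F A ⌊b * J⌋₊ ≤ f J F A ⌊a * J⌋₊ + C * ((b - a) * J + 1)) := by
    intro a b ha hab hb
    refine Bas.mono 0 hnear ?_
    intro J _ F A h1
    have hJ0 : (0 : ℝ) ≤ J := Nat.cast_nonneg J
    obtain ⟨h2, h3⟩ := h1 ⌊a * J⌋₊ ⌊b * J⌋₊
      (Nat.floor_le_floor (mul_le_mul_of_nonneg_right hab hJ0)) (hfl hb J)
    refine ⟨h2, h3.trans ?_⟩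
    have h4 := Nat.floor_le (show 0 ≤ b * (J : ℝ) by
      have : 0 ≤ b := ha.trans hab
      positivity)
    have h5 := Nat.lt_floor_add_one (a * (J : ℝ))
    have h6 : ((⌊b * (J : ℝ)⌋₊ : ℕ) : ℝ) - ⌊a * (J : ℝ)⌋₊ ≤ (b - a) * J + 1 := by linarith
    have := mul_le_mul_of_nonneg_left h6 hC
    linarith
  have h01 : ∀ q : Q01, (0 : ℝ) ≤ ((q : ℚ) : ℝ) ∧ ((q : ℚ) : ℝ) ≤ 1 := fun q =>
    ⟨by exact_mod_cast q.2.1, by exact_mod_cast q.2.2⟩
  have hm : ∀ q q' : Q01, (q : ℚ) ≤ q' → ρ q ≤ ρ q' := by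
    intro q q' hqq
    have hqq' : ((q : ℚ) : ℝ) ≤ ((q' : ℚ) : ℝ) := by exact_mod_cast hqq
    have := lim_le (c := 0) (C := 0) hne (hρ q) (hρ q')
      (Bas.mono 0 (near2 (h01 q).1 hqq' (h01 q').2) (fun J _ F A hA => by linarith [hA.1]))
    linarith
  have hl : ∀ q q' : Q01, (q : ℚ) ≤ q' → ρ q' ≤ ρ q + C * (((q' : ℚ) : ℝ) - ((q : ℚ) : ℝ)) := by
    intro q q' hqq
    have hqq' : ((q : ℚ) : ℝ) ≤ ((q' : ℚ) : ℝ) := by exact_mod_cast hqq
    exact lim_le (C := C) hne (hρ q') (hρ q)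
      (Bas.mono 0 (near2 (h01 q).1 hqq' (h01 q').2) (fun J _ F A hA => by
        have := hA.2
        have e1 : C * ((((q' : ℚ) : ℝ) - ((q : ℚ) : ℝ)) * J + 1) =
          C * (((q' : ℚ) : ℝ) - ((q : ℚ) : ℝ)) * J + C := by ring
        linarith))
  refine ⟨rx C ρ, rx_lip hC hm, rx_mono hC hm, fun Q hQ0 hQ1 h hh => ?_⟩
  have hC1 : 0 < C + 1 := by linarith
  obtain ⟨q, hqQ⟩ : ∃ q : Q01, |Q - ((q : ℚ) : ℝ)| ≤ h / (8 * (C + 1)) := by
    have h0 : 0 < h / (8 * (C + 1)) := by positivity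
    rcases lt_or_eq_of_le hQ1 with h1 | h1
    · obtain ⟨q, h2, h3⟩ := exists_rat_btwn (lt_min h1 (by linarith : Q < Q + h / (8 * (C + 1))))
      have h4 : (0 : ℝ) ≤ q := by linarith
      have h5 : (q : ℝ) ≤ 1 := (h3.trans_le (min_le_left _ _)).le
      refine ⟨⟨q, by exact_mod_cast h4, by exact_mod_cast h5⟩, ?_⟩
      have := h3.trans_le (min_le_right _ _)
      rw [abs_le]
      constructor <;> simp only <;> linarith
    · refine ⟨q1, ?_⟩
      rw [h1]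
      simp only [q1, Rat.cast_one, sub_self, abs_zero]
      exact h0.le
  obtain ⟨J₂, hJ₂⟩ := exists_nat_gt (8 * (C + 1) / h)
  have hfn : Bas S (fun J F A => |f J F A ⌊Q * J⌋₊ - f J F A ⌊((q : ℚ) : ℝ) * J⌋₊| ≤
      C * (|Q - ((q : ℚ) : ℝ)| * J + 1)) := by
    rcases le_total Q ((q : ℚ) : ℝ) with h1 | h1
    · refine Bas.mono 0 (near2 hQ0 h1 (h01 q).2) fun J _ F A hA => ?_
      rw [abs_of_nonpos (by linarith [hA.1]), abs_of_nonpos (by linarith : Q - ((q : ℚ) : ℝ) ≤ 0)]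
      have := hA.2
      have e : -(Q - ((q : ℚ) : ℝ)) = ((q : ℚ) : ℝ) - Q := by ring
      rw [e]
      linarith
    · refine Bas.mono 0 (near2 (h01 q).1 h1 hQ1) fun J _ F A hA => ?_
      rw [abs_of_nonneg (by linarith [hA.1]), abs_of_nonneg (by linarith : 0 ≤ Q - ((q : ℚ) : ℝ))]
      linarith [hA.2]
  refine Bas.mono J₂ ((hρ q (h / 4) (by linarith)).and hfn) ?_
  rintro J hJ F A ⟨k1, k2⟩
  have hJ0 : (0 : ℝ) ≤ J := Nat.cast_nonneg J
  have hJ3 : 8 * (C + 1) ≤ h * J := by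
    have : 8 * (C + 1) / h < J := hJ₂.trans_le (by exact_mod_cast hJ)
    rw [div_lt_iff₀ hh] at this
    linarith
  have hRP : |rx C ρ Q - ρ q| ≤ C * |Q - ((q : ℚ) : ℝ)| := by
    rw [← rx_rat hC hm hl q]
    have a1 := rx_add hC hm (x := Q) (y := ((q : ℚ) : ℝ))
    have a2 := rx_add hC hm (x := ((q : ℚ) : ℝ)) (y := Q)
    rw [abs_sub_comm ((q : ℚ) : ℝ) Q] at a2
    rw [abs_le]
    constructor <;> linarith
  have e1 : |rx C ρ Q * J - ρ q * J| ≤ C * |Q - ((q : ℚ) : ℝ)| * J := by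
    rw [← sub_mul, abs_mul, abs_of_nonneg hJ0]
    exact mul_le_mul_of_nonneg_right hRP hJ0
  have e2 : C * |Q - ((q : ℚ) : ℝ)| * J ≤ h / 8 * J := by
    refine mul_le_mul_of_nonneg_right ?_ hJ0
    have a1 : C * |Q - ((q : ℚ) : ℝ)| ≤ (C + 1) * (h / (8 * (C + 1))) :=
      mul_le_mul (by linarith) hqQ (abs_nonneg _) hC1.le
    have a2 : (C + 1) * (h / (8 * (C + 1))) = h / 8 := by field_simp
    linarith
  have e3 : C * (|Q - ((q : ℚ) : ℝ)| * J + 1) = C * |Q - ((q : ℚ) : ℝ)| * J + C := by ring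
  rw [e3] at k2
  rw [abs_le] at k1 e1 k2 ⊢
  constructor <;> linarith [k1.1, k1.2, e1.1, e1.2, k2.1, k2.2]

/-! ### The activity -/

/-- The directions in the unit box have few values. -/
theorem D_mem (F : Fam m J) (k : ℕ) (ω : F.Ω) :
    F.D k ω ∈ Fintype.piFinset fun _ : Fin m => Finset.Icc (-(2 : ℤ) ^ k) (2 ^ k) := by
  rw [Fintype.mem_piFinset]
  intro i
  have h := abs_le.1 (F.dir ω i)
  have h2 : (0 : ℝ) < 2 ^ k := by positivity
  rw [Finset.mem_Icc]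
  constructor
  · refine Int.le_floor.2 ?_
    push_cast
    nlinarith
  · have h3 : (⌊(2 : ℝ) ^ k * F.d ω i⌋ : ℝ) ≤ ((2 ^ k : ℤ) : ℝ) := by
      push_cast
      exact (Int.floor_le _).trans (by nlinarith)
    exact Int.cast_le.1 h3

theorem cnt_D (F : Fam m J) (k : ℕ) (A : F.Ω → Prop) :
    (cnt F.p (fun ω => (F.D k ω, ptr F J ω)) A : ℝ) ≤ (3 * 2 ^ k) ^ m * cnt F.p (ptr F J) A := by
  classical
  have h1 := cnt_le_card F.p (fun ω => (F.D k ω, ptr F J ω)) (A := A)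
    ((Fintype.piFinset fun _ : Fin m => Finset.Icc (-(2 : ℤ) ^ k) (2 ^ k)) ×ˢ
      ((univ.filter fun ω => 0 < F.p ω ∧ A ω).image (ptr F J))) (by
    intro ω h0 hA
    rw [Finset.mem_product]
    refine ⟨D_mem F k ω, mem_image_of_mem _ ?_⟩
    rw [mem_filter]
    exact ⟨mem_univ ω, h0, hA⟩)
  rw [Finset.card_product, Fintype.card_piFinset] at h1
  have h2 : (Finset.Icc (-(2 : ℤ) ^ k) (2 ^ k)).card ≤ 3 * 2 ^ k := by
    rw [Int.card_Icc]
    have : (1 : ℤ) ≤ 2 ^ k := one_le_pow₀ (by norm_num)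
    have h3 : ((2 : ℤ) ^ k + 1 - -(2 : ℤ) ^ k).toNat ≤ ((3 * 2 ^ k : ℕ) : ℤ).toNat := by
      refine Int.toNat_le_toNat ?_
      push_cast
      linarith
    rwa [Int.toNat_natCast] at h3
  have h4 : ∏ _i : Fin m, (Finset.Icc (-(2 : ℤ) ^ k) (2 ^ k)).card ≤ (3 * 2 ^ k) ^ m := by
    rw [Finset.prod_const, Finset.card_univ, Fintype.card_fin]
    exact Nat.pow_le_pow_left h2 m
  have h5 : cnt F.p (fun ω => (F.D k ω, ptr F J ω)) A ≤
      (3 * 2 ^ k) ^ m * cnt F.p (ptr F J) A := by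
    refine h1.trans (le_trans (Nat.mul_le_mul_right _ h4) (le_of_eq ?_))
    unfold cnt
    refine congrArg (fun c => (3 * 2 ^ k) ^ m * c) (congrArg Finset.card (Finset.ext fun x => ?_))
    simp only [mem_image, mem_filter, mem_univ, true_and, ptr]
  exact_mod_cast h5

/-- **The activity of the directions.** -/
theorem act_nums {S : PCl m} (hS : S.Ne)
    (hpos : ∀ (τ : ℝ) (J : ℕ) (F : Fam m J) (A : F.Ω → Prop), S.St τ J F A → 0 < Pe F.p A)
    {M : ℝ} (hcnt : Bas S (fun J F A => ∀ k : ℕ, k ≤ J →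
      (cnt F.p (ptr F k) A : ℝ) ≤ Real.exp (M * J))) :
    ∃ S' : PCl m, S'.Ne ∧
      (∀ (τ : ℝ) (J : ℕ) (F : Fam m J) (A : F.Ω → Prop), S'.St τ J F A → S.St τ J F A) ∧
      ∃ act : ℝ → ℝ, LipschitzWith m act ∧ Monotone act ∧ act 0 = 0 ∧
        ∀ g : ℝ, 0 ≤ g → g ≤ 1 → ∀ h : ℝ, 0 < h → Bas S' (fun J F A =>
          |CH (Pool.Agent.H49.Ent.cond F.p A True) (F.D ⌊g * J⌋₊)
            (fun ω => (F.X J ω, F.W ω)) - act g * Real.log 2 * J| ≤ h * J) := by
  classical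
  have hl2 : 0 < Real.log 2 := Real.log_pos (by norm_num)
  -- the functions
  obtain ⟨e, he⟩ := exists_surjective_nat (Option Q01)
  obtain ⟨Y, hY⟩ : ∃ Y : ∀ (_ J : ℕ) (F : Fam m J), F.Ω →
      (Fin m → ℤ) × ((Fin m → ℤ) × (ℕ × F.ζ)),
      Y = fun i J F ω => match e i with
        | none => (fun _ => 0, ptr F J ω)
        | some q => (F.D ⌊((q : ℚ) : ℝ) * J⌋₊ ω, ptr F J ω) := ⟨_, rfl⟩
  have hY0 : ∀ i, e i = none → ∀ (J : ℕ) (F : Fam m J),
      Y i J F = fun ω => (fun _ => 0, ptr F J ω) := by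
    intro i hi J F
    rw [hY]
    funext ω
    simp only [hi]
  have hY1 : ∀ i q, e i = some q → ∀ (J : ℕ) (F : Fam m J), Y i J F =
      fun ω => (F.D ⌊((q : ℚ) : ℝ) * J⌋₊ ω, ptr F J ω) := by
    intro i q hi J F
    rw [hY]
    funext ω
    simp only [hi]
  have hk : ∀ (q : Q01) (J : ℕ), ⌊((q : ℚ) : ℝ) * J⌋₊ ≤ J := by
    intro q J
    refine Nat.floor_le_of_le ?_
    have h1 : ((q : ℚ) : ℝ) ≤ 1 := by exact_mod_cast q.2.2
    have := mul_le_mul_of_nonneg_right h1 (Nat.cast_nonneg (α := ℝ) J)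
    linarith
  have h6 : Real.exp (Real.log 6) = 6 := Real.exp_log (by norm_num)
  have hl6 : 0 ≤ Real.log 6 := Real.log_nonneg (by norm_num)
  obtain ⟨S', hne, hsub, hη⟩ := ext_ent_base hS hpos
    (fun _ _ F => (Fin m → ℤ) × ((Fin m → ℤ) × (ℕ × F.ζ))) Y
    (fun _ => M + m * Real.log 6) (fun i => Bas.mono 1 hcnt (by
      intro J hJ1 F A hA
      have hJ1' : (1 : ℝ) ≤ J := by exact_mod_cast hJ1
      have hml : 0 ≤ (m : ℝ) * Real.log 6 * J := by positivity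
      rcases hi : e i with _ | q
      · rw [hY0 i hi]
        have h1 := cnt_comp_le F.p (ptr F J) (fun ω => ((fun _ => 0 : Fin m → ℤ), ptr F J ω))
          (A := A) (fun y => (fun _ => 0, y)) (fun ω _ _ => rfl)
        calc (cnt F.p (fun ω => ((fun _ => 0 : Fin m → ℤ), ptr F J ω)) A : ℝ)
            ≤ cnt F.p (ptr F J) A := by exact_mod_cast h1
          _ ≤ Real.exp (M * J) := hA J le_rfl
          _ ≤ _ := Real.exp_le_exp.2 (by nlinarith)
      · rw [hY1 i q hi]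
        have h1 := cnt_D F ⌊((q : ℚ) : ℝ) * J⌋₊ A
        have h2 : ((3 : ℝ) * 2 ^ ⌊((q : ℚ) : ℝ) * J⌋₊) ^ m ≤ Real.exp (m * Real.log 6 * J) := by
          have a1 : (3 : ℝ) * 2 ^ ⌊((q : ℚ) : ℝ) * J⌋₊ ≤ 6 ^ J := by
            calc (3 : ℝ) * 2 ^ ⌊((q : ℚ) : ℝ) * J⌋₊ ≤ 3 ^ J * 2 ^ J := by
                  refine mul_le_mul ?_ (pow_le_pow_right₀ (by norm_num) (hk q J))
                    (by positivity) (by positivity)
                  calc (3 : ℝ) = 3 ^ 1 := (pow_one _).symm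
                    _ ≤ 3 ^ J := pow_le_pow_right₀ (by norm_num) hJ1
              _ = 6 ^ J := by rw [← mul_pow]; norm_num
          calc ((3 : ℝ) * 2 ^ ⌊((q : ℚ) : ℝ) * J⌋₊) ^ m ≤ (6 ^ J) ^ m :=
                pow_le_pow_left₀ (by positivity) a1 m
            _ = Real.exp (m * Real.log 6 * J) := by
                have e1 : (m : ℝ) * Real.log 6 * J = Real.log 6 * ((J * m : ℕ) : ℝ) := by
                  push_cast
                  ring
                rw [← pow_mul, e1, Real.exp_mul, h6, Real.rpow_natCast]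
        calc (cnt F.p (fun ω => (F.D ⌊((q : ℚ) : ℝ) * J⌋₊ ω, ptr F J ω)) A : ℝ)
            ≤ (3 * 2 ^ ⌊((q : ℚ) : ℝ) * J⌋₊) ^ m * cnt F.p (ptr F J) A := h1
          _ ≤ Real.exp (m * Real.log 6 * J) * Real.exp (M * J) :=
              mul_le_mul h2 (hA J le_rfl) (Nat.cast_nonneg _) (Real.exp_pos _).le
          _ = _ := by rw [← Real.exp_add]; congr 1; ring))
  obtain ⟨i₁, hi₁⟩ := he none
  obtain ⟨η₀, hη₀⟩ := hη i₁
  have hpos' : Bas S' (fun _ F A => 0 < Pe F.p A) :=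
    ⟨1, one_pos, 0, fun J _ F A hA => hpos 1 J F A (hsub 1 J F A hA)⟩
  -- rational scales
  have hrat : ∀ q : Q01, ∃ ρ : ℝ, ∀ h : ℝ, 0 < h → Bas S' (fun J F A =>
      |CH (Pool.Agent.H49.Ent.cond F.p A True) (F.D ⌊((q : ℚ) : ℝ) * J⌋₊)
        (fun ω => (F.X J ω, F.W ω)) - ρ * J| ≤ h * J) := by
    intro q
    obtain ⟨i, hi⟩ := he (some q)
    obtain ⟨η, hη⟩ := hη i
    refine ⟨η - η₀, fun h hh => ?_⟩
    refine Bas.mono 0 (((hη (h / 2) (half_pos hh)).and (hη₀ (h / 2) (half_pos hh))).and hpos') ?_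
    rintro J - F A ⟨⟨k1, k2⟩, k3⟩
    rw [hY1 i q hi] at k1
    rw [hY0 i₁ hi₁] at k2
    have hcl := isLaw_cond F.isLaw k3
    have e1 : H (Pool.Agent.H49.Ent.cond F.p A True)
        (fun ω => ((fun _ => 0 : Fin m → ℤ), ptr F J ω)) =
        H (Pool.Agent.H49.Ent.cond F.p A True) (ptr F J) :=
      H_congr hcl.nonneg (fun _ _ _ _ e => Prod.ext rfl e)
        (fun _ _ _ _ e => (Prod.ext_iff.1 e).2)
    have e2 : CH (Pool.Agent.H49.Ent.cond F.p A True) (F.D ⌊((q : ℚ) : ℝ) * J⌋₊)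
        (fun ω => (F.X J ω, F.W ω)) =
        H (Pool.Agent.H49.Ent.cond F.p A True)
          (fun ω => (F.D ⌊((q : ℚ) : ℝ) * J⌋₊ ω, ptr F J ω)) -
        H (Pool.Agent.H49.Ent.cond F.p A True) (ptr F J) := rfl
    rw [e1] at k2
    rw [e2]
    rw [abs_le] at k1 k2 ⊢
    constructor <;> linarith [k1.1, k1.2, k2.1, k2.2]
  have hC : 0 ≤ (m : ℝ) * Real.log 2 := by positivity
  obtain ⟨r, h1, h2, h3⟩ := nums hne (f := fun J F A k =>
    CH (Pool.Agent.H49.Ent.cond F.p A True) (F.D k) (fun ω => (F.X J ω, F.W ω))) hC hrat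
    (Bas.mono 0 hpos' (by
      intro J _ F A hA k k' hk1 _
      have hcl := isLaw_cond F.isLaw hA
      obtain ⟨n, rfl⟩ := Nat.exists_eq_add_of_le hk1
      have a1 : Det (Pool.Agent.H49.Ent.cond F.p A True) (F.D (k + n)) (F.D k) :=
        fun ω ω' _ _ e => Pool.STK.B58.fl_fine (Nat.le_add_right k n) e
      have a2 := Rows.chain_det hcl.nonneg (F.D (k + n)) (F.D k) (fun ω => (F.X J ω, F.W ω)) a1
      have a3 := Pool.KA.TRC.CH_floor hcl F.d (fun ω => (F.X J ω, F.W ω)) k n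
      have a4 := CH_nonneg hcl.nonneg (F.D (k + n)) (fun ω => (F.D k ω, (F.X J ω, F.W ω)))
      have a5 : CH (Pool.Agent.H49.Ent.cond F.p A True) (F.D (k + n))
        (fun ω => (F.D k ω, (F.X J ω, F.W ω))) ≤ m * (n * Real.log 2) := a3
      refine ⟨by linarith, ?_⟩
      push_cast
      have e1 : (m : ℝ) * Real.log 2 * (k + n - k) = m * (n * Real.log 2) := by ring
      linarith))
  refine ⟨S', hne, hsub, fun g => (r g - r 0) / Real.log 2, ?_, ?_, by simp, ?_⟩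
  · refine LipschitzWith.of_dist_le_mul fun x y => ?_
    have a1 := h1.dist_le_mul x y
    rw [Real.dist_eq, Real.dist_eq] at a1 ⊢
    have a2 : (r x - r 0) / Real.log 2 - (r y - r 0) / Real.log 2 = (r x - r y) / Real.log 2 := by
      ring
    rw [a2, abs_div, abs_of_pos hl2, div_le_iff₀ hl2]
    refine a1.trans (le_of_eq ?_)
    show (m : ℝ) * Real.log 2 * |x - y| = _
    push_cast
    ring
  · intro x y hxy
    exact div_le_div_of_nonneg_right (by linarith [h2 hxy]) hl2.le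
  · -- the value at zero
    have hcc : 0 ≤ Real.log (3 ^ m) := Real.log_nonneg (one_le_pow₀ (by norm_num))
    have hr0 : r 0 = 0 := by
      have b1 : r 0 ≤ 0 := by
        have := lim_le (g := fun _ _ _ => 0) (b := 0) (c := 0) (C := Real.log (3 ^ m)) hne
          (h3 0 le_rfl zero_le_one) (fun h hh => ⟨1, one_pos, 0, fun J _ F A _ => by
            show |(0 : ℝ) - 0 * (J : ℝ)| ≤ h * J
            rw [zero_mul, sub_zero, abs_zero]
            positivity⟩)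
          (Bas.mono 0 hpos' (fun J _ F A hA => by
            have hcl := isLaw_cond F.isLaw hA
            have c1 : ⌊(0 : ℝ) * J⌋₊ = 0 := by simp
            simp only [c1]
            have c2 := CH_le_H' hcl (F.D 0) (fun ω => (F.X J ω, F.W ω))
            have c3 : H (Pool.Agent.H49.Ent.cond F.p A True) (F.D 0) ≤ Real.log (3 ^ m) := by
              have c4 := H_le_cnt F.isLaw (F.D 0) hA
              refine c4.trans (Real.log_le_log ?_ ?_)
              · have := one_le_cnt F.isLaw (F.D 0) hA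
                exact_mod_cast this
              · have c5 := cnt_le_card F.p (F.D 0) (A := A)
                  (Fintype.piFinset fun _ : Fin m => Finset.Icc (-(2 : ℤ) ^ 0) (2 ^ 0))
                  (fun ω _ _ => D_mem F 0 ω)
                rw [Fintype.card_piFinset, Finset.prod_const, Finset.card_univ,
                  Fintype.card_fin] at c5
                have c6 : (Finset.Icc (-(2 : ℤ) ^ 0) (2 ^ 0)).card = 3 := by decide
                rw [c6] at c5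
                exact_mod_cast c5
            linarith))
        linarith
      have b2 : 0 ≤ r 0 := by
        have := lim_le (f := fun _ _ _ => 0) (a := 0) (c := 0) (C := 0) hne
          (fun h hh => ⟨1, one_pos, 0, fun J _ F A _ => by
            show |(0 : ℝ) - 0 * (J : ℝ)| ≤ h * J
            rw [zero_mul, sub_zero, abs_zero]
            positivity⟩) (h3 0 le_rfl zero_le_one)
          (Bas.mono 0 hpos' (fun J _ F A hA => by
            have := CH_nonneg (isLaw_cond F.isLaw hA).nonneg (F.D ⌊(0 : ℝ) * J⌋₊)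
              (fun ω => (F.X J ω, F.W ω))
            linarith))
        linarith
      exact le_antisymm b1 b2
    intro g hg0 hg1 h hh
    rw [hr0]
    refine Bas.mono 0 (h3 g hg0 hg1 h hh) ?_
    intro J _ F A hA
    have e1 : (r g - 0) / Real.log 2 * Real.log 2 * J = r g * J := by
      rw [sub_zero, div_mul_cancel₀ _ hl2.ne']
    rw [e1]
    exact hA

/-- **Active scales.** -/
theorem exists_active {act : ℝ → ℝ} {K : NNReal} (hl : LipschitzWith K act) (hm : Monotone act)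
    {c : ℝ} (hc : 0 < c) (h : ∀ g : ℝ, 0 ≤ g → g ≤ 1 → act 0 + c * g ≤ act g) {e : ℝ}
    (he : 0 < e) (he1 : e ≤ 1) : ∃ q al : ℝ, 0 < q ∧ q < e ∧ 0 < al ∧ HasDerivAt act al q := by
  by_contra hcon
  push Not at hcon
  have h1 : act e = act 0 := by
    refine Pool.LEV.const_of_deriv hl he.le ?_
    filter_upwards [hl.ae_differentiableAt] with q hq hqI
    have h2 := hq.hasDerivAt
    have h3 : 0 ≤ deriv act q := hm.deriv_nonneg
    rcases h3.lt_or_eq with h4 | h4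
    · exact absurd h2 (hcon q _ hqI.1 hqI.2 h4)
    · exact h4.symm
  have h2 := h e he.le he1
  have h3 : 0 < c * e := by positivity
  linarith

end Pool.GEN
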