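import Pool.Agent.H2.GEN.ChN

/-!
# Numbers of quantities with two scales; the activity of the directions in blocks

`nums2`: a quantity which is Lipschitz in two scales and has numbers at the rational scales has
numbers at all scales.
`ActN`: the entropy of the digits of some coordinates of the direction, up to `q'`, given the point
and all digits of the direction up to `q`, is `N κ q q' * log 2 * J`. These numbers are
superadditive in the interval `(q, q']`, and additive for the full direction.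
-/

set_option autoImplicit false

namespace Pool.GEN

open Finset Real
open Pool.Agent.H49.Ent Pool.Agent.H32.Dense Pool.STK Pool.KA Pool.K2S Pool.PB Pool.S6C

variable {m J : ℕ}

/-- The largest Lipschitz extension from below, two variables. -/
noncomputable def rx2 (C : ℝ) (ρ : Q01 → Q01 → ℝ) (x y : ℝ) : ℝ :=
  ⨆ p : Q01 × Q01, (ρ p.1 p.2 - C * (|((p.1 : ℚ) : ℝ) - x| + |((p.2 : ℚ) : ℝ) - y|))

section rx2

variable {C : ℝ} {ρ : Q01 → Q01 → ℝ}

theorem q01 (q : Q01) : (0 : ℝ) ≤ ((q : ℚ) : ℝ) ∧ ((q : ℚ) : ℝ) ≤ 1 :=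
  ⟨by exact_mod_cast q.2.1, by exact_mod_cast q.2.2⟩

theorem q01_abs (q : Q01) : |((q : ℚ) : ℝ)| ≤ 1 := by
  rw [abs_of_nonneg (q01 q).1]
  exact (q01 q).2

theorem rx2_bdd (hC : 0 ≤ C) (hl : ∀ p q p' q' : Q01, ρ p q ≤ ρ p' q' +
    C * (|((p : ℚ) : ℝ) - ((p' : ℚ) : ℝ)| + |((q : ℚ) : ℝ) - ((q' : ℚ) : ℝ)|)) (x y : ℝ) :
    BddAbove (Set.range fun p : Q01 × Q01 =>
      ρ p.1 p.2 - C * (|((p.1 : ℚ) : ℝ) - x| + |((p.2 : ℚ) : ℝ) - y|)) := by
  refine ⟨ρ q0 q0 + C * 2, ?_⟩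
  rintro z ⟨p, rfl⟩
  have h1 := hl p.1 p.2 q0 q0
  have h2 : |((p.1 : ℚ) : ℝ) - ((q0 : ℚ) : ℝ)| + |((p.2 : ℚ) : ℝ) - ((q0 : ℚ) : ℝ)| ≤ 2 := by
    have e : (((q0 : ℚ) : ℝ)) = 0 := by simp [q0]
    rw [e, sub_zero, sub_zero]
    linarith [q01_abs p.1, q01_abs p.2]
  have h3 := mul_le_mul_of_nonneg_left h2 hC
  have h4 : 0 ≤ C * (|((p.1 : ℚ) : ℝ) - x| + |((p.2 : ℚ) : ℝ) - y|) := by positivity
  simp only
  linarith

theorem rx2_add (hC : 0 ≤ C) (hl : ∀ p q p' q' : Q01, ρ p q ≤ ρ p' q' +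
    C * (|((p : ℚ) : ℝ) - ((p' : ℚ) : ℝ)| + |((q : ℚ) : ℝ) - ((q' : ℚ) : ℝ)|)) (x y x' y' : ℝ) :
    rx2 C ρ x y ≤ rx2 C ρ x' y' + C * (|x - x'| + |y - y'|) := by
  have : Nonempty (Q01 × Q01) := ⟨(q0, q0)⟩
  refine ciSup_le fun p => ?_
  have h1 := le_ciSup (rx2_bdd hC hl x' y') p
  have h2 : |((p.1 : ℚ) : ℝ) - x'| ≤ |((p.1 : ℚ) : ℝ) - x| + |x - x'| := by
    have := abs_sub_le (((p.1 : ℚ) : ℝ)) x x'
    linarith
  have h3 : |((p.2 : ℚ) : ℝ) - y'| ≤ |((p.2 : ℚ) : ℝ) - y| + |y - y'| := by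
    have := abs_sub_le (((p.2 : ℚ) : ℝ)) y y'
    linarith
  have h4 := mul_le_mul_of_nonneg_left (add_le_add h2 h3) hC
  unfold rx2
  linarith

theorem rx2_rat (hC : 0 ≤ C) (hl : ∀ p q p' q' : Q01, ρ p q ≤ ρ p' q' +
    C * (|((p : ℚ) : ℝ) - ((p' : ℚ) : ℝ)| + |((q : ℚ) : ℝ) - ((q' : ℚ) : ℝ)|)) (p q : Q01) :
    rx2 C ρ ((p : ℚ) : ℝ) ((q : ℚ) : ℝ) = ρ p q := by
  have : Nonempty (Q01 × Q01) := ⟨(q0, q0)⟩
  refine le_antisymm (ciSup_le fun p' => ?_) ?_
  · have := hl p'.1 p'.2 p q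
    linarith
  · have h1 := le_ciSup (rx2_bdd hC hl ((p : ℚ) : ℝ) ((q : ℚ) : ℝ)) (p, q)
    simp only [sub_self, abs_zero, add_zero, mul_zero, sub_zero] at h1
    exact h1

end rx2

theorem q_near {Q : ℝ} (hQ0 : 0 ≤ Q) (hQ1 : Q ≤ 1) {e : ℝ} (he : 0 < e) :
    ∃ q : Q01, |Q - ((q : ℚ) : ℝ)| ≤ e := by
  rcases lt_or_eq_of_le hQ1 with h1 | h1
  · obtain ⟨q, h2, h3⟩ := exists_rat_btwn (lt_min h1 (by linarith : Q < Q + e))
    have h4 : (0 : ℝ) ≤ q := by linarith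
    have h5 : (q : ℝ) ≤ 1 := (h3.trans_le (min_le_left _ _)).le
    refine ⟨⟨q, by exact_mod_cast h4, by exact_mod_cast h5⟩, ?_⟩
    have := h3.trans_le (min_le_right _ _)
    rw [abs_le]
    constructor <;> simp only <;> linarith
  · refine ⟨q1, ?_⟩
    rw [h1]
    simp only [q1, Rat.cast_one, sub_self, abs_zero]
    exact he.le

theorem fl_le1 {Q : ℝ} (hQ : Q ≤ 1) (J : ℕ) : ⌊Q * J⌋₊ ≤ J := by
  refine Nat.floor_le_of_le ?_
  have := mul_le_mul_of_nonneg_right hQ (Nat.cast_nonneg (α := ℝ) J)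
  linarith

theorem fl_abs {a b : ℝ} (ha : 0 ≤ a) (hb : 0 ≤ b) (J : ℕ) :
    |((⌊a * J⌋₊ : ℕ) : ℝ) - ⌊b * J⌋₊| ≤ |a - b| * J + 1 := by
  have h1 := Nat.floor_le (show 0 ≤ a * (J : ℝ) by positivity)
  have h2 := Nat.lt_floor_add_one (a * (J : ℝ))
  have h3 := Nat.floor_le (show 0 ≤ b * (J : ℝ) by positivity)
  have h4 := Nat.lt_floor_add_one (b * (J : ℝ))
  have h5 : |a * J - b * J| = |a - b| * J := by
    rw [← sub_mul, abs_mul, abs_of_nonneg (Nat.cast_nonneg (α := ℝ) J)]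
  have h6 := le_abs_self (a * J - b * (J : ℝ))
  have h7 := neg_le_abs (a * J - b * (J : ℝ))
  rw [abs_le]
  constructor <;> linarith

/-- **Numbers of a quantity with two scales.** -/
theorem nums2 {S : PCl m} (hne : S.Ne)
    {f : ∀ (J : ℕ) (F : Fam m J), (F.Ω → Prop) → ℕ → ℕ → ℝ} {C : ℝ} (hC : 0 ≤ C)
    (hrat : ∀ p q : Q01, ∃ ρ : ℝ, ∀ h : ℝ, 0 < h → Bas S (fun J F A =>
      |f J F A ⌊((p : ℚ) : ℝ) * J⌋₊ ⌊((q : ℚ) : ℝ) * J⌋₊ - ρ * J| ≤ h * J))
    (hnear : Bas S (fun J F A => ∀ k k' l l' : ℕ, k ≤ J → k' ≤ J → l ≤ J → l' ≤ J →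
      f J F A k l ≤ f J F A k' l' + C * (|(k : ℝ) - k'| + |(l : ℝ) - l'|))) :
    ∃ r : ℝ → ℝ → ℝ, (∀ x y x' y' : ℝ, r x y ≤ r x' y' + C * (|x - x'| + |y - y'|)) ∧
      ∀ x y : ℝ, 0 ≤ x → x ≤ 1 → 0 ≤ y → y ≤ 1 → ∀ h : ℝ, 0 < h → Bas S (fun J F A =>
        |f J F A ⌊x * J⌋₊ ⌊y * J⌋₊ - r x y * J| ≤ h * J) := by
  choose ρ hρ using hrat
  have near2 : ∀ {a b a' b' : ℝ}, 0 ≤ a → a ≤ 1 → 0 ≤ b → b ≤ 1 → 0 ≤ a' → a' ≤ 1 → 0 ≤ b' →
      b' ≤ 1 → Bas S (fun J F A => f J F A ⌊a * J⌋₊ ⌊b * J⌋₊ ≤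
        f J F A ⌊a' * J⌋₊ ⌊b' * J⌋₊ + C * (|a - a'| + |b - b'|) * J + 2 * C) := by
    intro a b a' b' ha ha1 hb hb1 ha' ha1' hb' hb1'
    refine Bas.mono 0 hnear ?_
    intro J _ F A h1
    have h2 := h1 ⌊a * J⌋₊ ⌊a' * J⌋₊ ⌊b * J⌋₊ ⌊b' * J⌋₊ (fl_le1 ha1 J) (fl_le1 ha1' J)
      (fl_le1 hb1 J) (fl_le1 hb1' J)
    have h3 := fl_abs ha ha' J
    have h4 := fl_abs hb hb' J
    have h5 := mul_le_mul_of_nonneg_left (add_le_add h3 h4) hC
    have e : C * (|a - a'| * J + 1 + (|b - b'| * J + 1)) =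
      C * (|a - a'| + |b - b'|) * J + 2 * C := by ring
    linarith
  have hl : ∀ p q p' q' : Q01, ρ p q ≤ ρ p' q' +
      C * (|((p : ℚ) : ℝ) - ((p' : ℚ) : ℝ)| + |((q : ℚ) : ℝ) - ((q' : ℚ) : ℝ)|) := by
    intro p q p' q'
    exact lim_le (C := 2 * C) hne (hρ p q) (hρ p' q')
      (near2 (q01 p).1 (q01 p).2 (q01 q).1 (q01 q).2 (q01 p').1 (q01 p').2 (q01 q').1 (q01 q').2)
  refine ⟨rx2 C ρ, rx2_add hC hl, fun x y hx0 hx1 hy0 hy1 h hh => ?_⟩
  have hC1 : 0 < C + 1 := by linarith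
  have hh0 : 0 < h / (8 * (C + 1)) := by positivity
  obtain ⟨p, hp⟩ := q_near hx0 hx1 hh0
  obtain ⟨q, hq⟩ := q_near hy0 hy1 hh0
  obtain ⟨J₂, hJ₂⟩ := exists_nat_gt (16 * (C + 1) / h)
  refine Bas.mono J₂ (((hρ p q (h / 8) (by linarith)).and
    (near2 hx0 hx1 hy0 hy1 (q01 p).1 (q01 p).2 (q01 q).1 (q01 q).2)).and
    (near2 (q01 p).1 (q01 p).2 (q01 q).1 (q01 q).2 hx0 hx1 hy0 hy1)) ?_
  rintro J hJ F A ⟨⟨k1, k2⟩, k3⟩
  have hJ0 : (0 : ℝ) ≤ J := Nat.cast_nonneg J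
  have hJ3 : 16 * (C + 1) ≤ h * J := by
    have : 16 * (C + 1) / h < J := hJ₂.trans_le (by exact_mod_cast hJ)
    rw [div_lt_iff₀ hh] at this
    linarith
  have b1 := rx2_add hC hl x y ((p : ℚ) : ℝ) ((q : ℚ) : ℝ)
  have b2 := rx2_add hC hl ((p : ℚ) : ℝ) ((q : ℚ) : ℝ) x y
  rw [rx2_rat hC hl p q] at b1 b2
  rw [abs_sub_comm ((p : ℚ) : ℝ) x, abs_sub_comm ((q : ℚ) : ℝ) y] at b2 k3
  obtain ⟨D, hD⟩ : ∃ D, D = C * (|x - ((p : ℚ) : ℝ)| + |y - ((q : ℚ) : ℝ)|) := ⟨_, rfl⟩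
  rw [← hD] at b1 b2 k2 k3
  have hD1 : D ≤ h / 4 := by
    rw [hD]
    have a1 : C * (|x - ((p : ℚ) : ℝ)| + |y - ((q : ℚ) : ℝ)|) ≤
        (C + 1) * (h / (8 * (C + 1)) + h / (8 * (C + 1))) :=
      mul_le_mul (by linarith) (add_le_add hp hq) (by positivity) hC1.le
    have a2 : (C + 1) * (h / (8 * (C + 1)) + h / (8 * (C + 1))) = h / 4 := by
      field_simp
      ring
    linarith
  have b3 := mul_le_mul_of_nonneg_right b1 hJ0
  have b4 := mul_le_mul_of_nonneg_right b2 hJ0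
  have b5 := mul_le_mul_of_nonneg_right hD1 hJ0
  rw [abs_le] at k1 ⊢
  constructor <;> nlinarith [k1.1, k1.2]

/-! ### The blocks of the directions -/

open Classical in
/-- The coordinates in `κ`. -/
def prjK (κ : Finset (Fin m)) (v : Fin m → ℤ) : Fin m → ℤ := fun i => if i ∈ κ then v i else 0

open Classical in
/-- The coordinates in `κ` of a real vector. -/
noncomputable def prjKR (κ : Finset (Fin m)) (v : Fin m → ℝ) : Fin m → ℝ :=
  fun i => if i ∈ κ then v i else 0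

/-- The block of the direction. -/
noncomputable def blk (F : Fam m J) (κ : Finset (Fin m)) (A : F.Ω → Prop) (k l : ℕ) : ℝ :=
  CH (Pool.Agent.H49.Ent.cond F.p A True) (fun ω => prjK κ (F.D l ω))
    (fun ω => (F.D k ω, (F.X J ω, F.W ω)))

theorem D_det (F : Fam m J) (q : F.Ω → ℝ) {k l : ℕ} (h : k ≤ l) : Det q (F.D l) (F.D k) :=
  fun _ _ _ _ e => Pool.STK.B58.fl_fine h e

/-- Coarser digits of a projection. -/
theorem prjK_det (F : Fam m J) (q : F.Ω → ℝ) (κ : Finset (Fin m)) {k l : ℕ} (h : k ≤ l) :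
    Det q (fun ω => prjK κ (F.D l ω)) (fun ω => prjK κ (F.D k ω)) := by
  intro ω ω' _ _ e
  have e' : prjK κ (F.D l ω) = prjK κ (F.D l ω') := e
  show prjK κ (F.D k ω) = prjK κ (F.D k ω')
  have key : ∀ (d d' : ℝ), ⌊(2 : ℝ) ^ l * d⌋ = ⌊(2 : ℝ) ^ l * d'⌋ →
      ⌊(2 : ℝ) ^ k * d⌋ = ⌊(2 : ℝ) ^ k * d'⌋ := by
    intro d d' hd
    have := Pool.STK.B58.fl_fine (m := 1) (x := fun _ => d) (y := fun _ => d') h
      (by funext i; exact hd)
    exact congrFun this 0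
  funext i
  unfold prjK
  by_cases hi : i ∈ κ
  · simp only [hi, if_true]
    have h1 := congrFun e' i
    unfold prjK at h1
    simp only [hi, if_true] at h1
    exact key _ _ h1
  · simp only [hi, if_false]


/-- The projection is a rounding. -/
theorem prjK_fl (F : Fam m J) (κ : Finset (Fin m)) (l : ℕ) (ω : F.Ω) :
    prjK κ (F.D l ω) = fl l (prjKR κ (F.d ω)) := by
  funext i
  unfold prjK prjKR
  show _ = ⌊(2 : ℝ) ^ l * (if i ∈ κ then F.d ω i else 0)⌋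
  by_cases hi : i ∈ κ
  · simp only [hi, if_true]
    rfl
  · simp only [hi, if_false, mul_zero, Int.floor_zero]

section facts

variable {F : Fam m J} {A : F.Ω → Prop} (hA : 0 < Pe F.p A) (κ : Finset (Fin m))
include hA

theorem blk_nonneg (k l : ℕ) : 0 ≤ blk F κ A k l :=
  CH_nonneg (isLaw_cond F.isLaw hA).nonneg _ _

/-- The upper end. -/
theorem blk_up {k l l' : ℕ} (h : l ≤ l') : blk F κ A k l ≤ blk F κ A k l' ∧
    blk F κ A k l' ≤ blk F κ A k l + m * Real.log 2 * ((l' : ℝ) - l) := by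
  have hcl := isLaw_cond F.isLaw hA
  obtain ⟨n, rfl⟩ := Nat.exists_eq_add_of_le h
  have a2 := Rows.chain_det hcl.nonneg (fun ω => prjK κ (F.D (l + n) ω))
    (fun ω => prjK κ (F.D l ω)) (fun ω => (F.D k ω, (F.X J ω, F.W ω)))
    (prjK_det F _ κ (Nat.le_add_right l n))
  have a3 := Pool.KA.TRC.CH_floor hcl (fun ω => prjKR κ (F.d ω))
    (fun ω => (F.D k ω, (F.X J ω, F.W ω))) l n
  have a4 := CH_nonneg hcl.nonneg (fun ω => prjK κ (F.D (l + n) ω))
    (fun ω => (prjK κ (F.D l ω), (F.D k ω, (F.X J ω, F.W ω))))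
  simp only [← prjK_fl] at a3
  unfold blk
  refine ⟨by linarith, ?_⟩
  push_cast
  have e1 : (m : ℝ) * Real.log 2 * (l + n - l) = m * (n * Real.log 2) := by ring
  linarith

/-- The lower end. -/
theorem blk_lo {k k' l : ℕ} (h : k ≤ k') : blk F κ A k' l ≤ blk F κ A k l ∧
    blk F κ A k l ≤ blk F κ A k' l + m * Real.log 2 * ((k' : ℝ) - k) := by
  have hcl := isLaw_cond F.isLaw hA
  have h0 := hcl.nonneg
  refine ⟨CH_mono_cond h0 fun ω ω' _ _ e => ?_, ?_⟩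
  · have e' := Prod.ext_iff.1 e
    exact Prod.ext (Pool.STK.B58.fl_fine h e'.1) e'.2
  · have b1 := CH_le_add h0 (fun ω => prjK κ (F.D l ω)) (F.D k')
      (fun ω => (F.D k ω, (F.X J ω, F.W ω)))
    have b2 : CH (Pool.Agent.H49.Ent.cond F.p A True) (fun ω => prjK κ (F.D l ω))
        (fun ω => (F.D k' ω, (F.D k ω, (F.X J ω, F.W ω)))) ≤
        CH (Pool.Agent.H49.Ent.cond F.p A True) (fun ω => prjK κ (F.D l ω))
        (fun ω => (F.D k' ω, (F.X J ω, F.W ω))) := by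
      refine CH_mono_cond h0 fun ω ω' _ _ e => ?_
      have e' := Prod.ext_iff.1 e
      exact Prod.ext e'.1 (Prod.ext_iff.1 e'.2).2
    obtain ⟨n, rfl⟩ := Nat.exists_eq_add_of_le h
    have b3 := Pool.KA.TRC.CH_floor hcl F.d (fun ω => (F.X J ω, F.W ω)) k n
    have b4 : CH (Pool.Agent.H49.Ent.cond F.p A True) (F.D (k + n))
        (fun ω => (F.D k ω, (F.X J ω, F.W ω))) ≤ m * (n * Real.log 2) := b3
    unfold blk
    push_cast
    have e1 : (m : ℝ) * Real.log 2 * (k + n - k) = m * (n * Real.log 2) := by ring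
    linarith

theorem blk_near (k k' l l' : ℕ) : blk F κ A k l ≤ blk F κ A k' l' +
    m * Real.log 2 * (|(k : ℝ) - k'| + |(l : ℝ) - l'|) := by
  have hc : 0 ≤ (m : ℝ) * Real.log 2 := by positivity
  have h1 : blk F κ A k l ≤ blk F κ A k' l + m * Real.log 2 * |(k : ℝ) - k'| := by
    rcases le_total k k' with h | h
    · have := (blk_lo hA κ (l := l) h).2
      have h2 : (k' : ℝ) - k ≤ |(k : ℝ) - k'| := by
        rw [abs_sub_comm]
        exact le_abs_self _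
      have := mul_le_mul_of_nonneg_left h2 hc
      linarith
    · have := (blk_lo hA κ (l := l) h).1
      have h2 : 0 ≤ (m : ℝ) * Real.log 2 * |(k : ℝ) - k'| := by positivity
      linarith
  have h2 : blk F κ A k' l ≤ blk F κ A k' l' + m * Real.log 2 * |(l : ℝ) - l'| := by
    rcases le_total l' l with h | h
    · have := (blk_up hA κ (k := k') h).2
      have h2 := le_abs_self ((l : ℝ) - l')
      have := mul_le_mul_of_nonneg_left h2 hc
      linarith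
    · have := (blk_up hA κ (k := k') h).1
      have h2 : 0 ≤ (m : ℝ) * Real.log 2 * |(l : ℝ) - l'| := by positivity
      linarith
  rw [mul_add]
  linarith

/-- Superadditivity. -/
theorem blk_sup {k l n : ℕ} (hkl : k ≤ l) (hln : l ≤ n) :
    blk F κ A k l + blk F κ A l n ≤ blk F κ A k n := by
  have hcl := isLaw_cond F.isLaw hA
  have h0 := hcl.nonneg
  have a2 := Rows.chain_det h0 (fun ω => prjK κ (F.D n ω))
    (fun ω => prjK κ (F.D l ω)) (fun ω => (F.D k ω, (F.X J ω, F.W ω))) (prjK_det F _ κ hln)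
  have a3 : CH (Pool.Agent.H49.Ent.cond F.p A True) (fun ω => prjK κ (F.D n ω))
      (fun ω => (F.D l ω, (F.X J ω, F.W ω))) ≤
      CH (Pool.Agent.H49.Ent.cond F.p A True) (fun ω => prjK κ (F.D n ω))
      (fun ω => (prjK κ (F.D l ω), (F.D k ω, (F.X J ω, F.W ω)))) := by
    refine CH_mono_cond h0 fun ω ω' _ _ e => ?_
    have e' := Prod.ext_iff.1 e
    refine Prod.ext ?_ (Prod.ext (Pool.STK.B58.fl_fine hkl e'.1) e'.2)
    exact congrArg (prjK κ) e'.1
  unfold blk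
  linarith

/-- Additivity for the full direction. -/
theorem blk_add {k l n : ℕ} (hln : l ≤ n) :
    blk F univ A k n ≤ blk F univ A k l + blk F univ A l n := by
  have hcl := isLaw_cond F.isLaw hA
  have h0 := hcl.nonneg
  have a2 := Rows.chain_det h0 (fun ω => prjK univ (F.D n ω))
    (fun ω => prjK univ (F.D l ω)) (fun ω => (F.D k ω, (F.X J ω, F.W ω))) (prjK_det F _ univ hln)
  have a3 : CH (Pool.Agent.H49.Ent.cond F.p A True) (fun ω => prjK univ (F.D n ω))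
      (fun ω => (prjK univ (F.D l ω), (F.D k ω, (F.X J ω, F.W ω)))) ≤
      CH (Pool.Agent.H49.Ent.cond F.p A True) (fun ω => prjK univ (F.D n ω))
      (fun ω => (F.D l ω, (F.X J ω, F.W ω))) := by
    refine CH_mono_cond h0 fun ω ω' _ _ e => ?_
    have e' := Prod.ext_iff.1 e
    have e2 := Prod.ext_iff.1 e'.2
    refine Prod.ext ?_ e2.2
    funext i
    have h1 := congrFun e'.1 i
    unfold prjK at h1
    simpa using h1
  unfold blk
  linarith

/-- Short blocks. -/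
theorem blk_le {k l : ℕ} (h : k ≤ l) : blk F κ A k l ≤ m * Real.log 2 * ((l : ℝ) - k) := by
  have h1 := (blk_up hA κ (k := k) h).2
  have h2 : blk F κ A k k = 0 := by
    refine CH_eq_zero (isLaw_cond F.isLaw hA).nonneg fun ω ω' _ _ e => ?_
    exact congrArg (prjK κ) (Prod.ext_iff.1 e).1
  linarith

/-- Subadditivity in the coordinates. -/
theorem blk_insert (i : Fin m) (k l : ℕ) :
    blk F (insert i κ) A k l ≤ blk F κ A k l + blk F {i} A k l := by
  classical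
  have hcl := isLaw_cond F.isLaw hA
  have h0 := hcl.nonneg
  have a1 := CH_subadd h0 (fun ω => prjK κ (F.D l ω)) (fun ω => prjK {i} (F.D l ω))
    (fun ω => (F.D k ω, (F.X J ω, F.W ω)))
  have a2 : CH (Pool.Agent.H49.Ent.cond F.p A True) (fun ω => prjK (insert i κ) (F.D l ω))
      (fun ω => (F.D k ω, (F.X J ω, F.W ω))) ≤
      CH (Pool.Agent.H49.Ent.cond F.p A True)
        (fun ω => (prjK κ (F.D l ω), prjK {i} (F.D l ω)))
        (fun ω => (F.D k ω, (F.X J ω, F.W ω))) := by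
    refine CH_mono_left h0 fun ω ω' _ _ e => ?_
    have e1 := Prod.ext_iff.1 (Prod.ext_iff.1 e).1
    have e2 := congrFun e1.1
    have e3 := congrFun e1.2
    funext j
    show prjK (insert i κ) (F.D l ω) j = prjK (insert i κ) (F.D l ω') j
    have f2 : prjK κ (F.D l ω) j = prjK κ (F.D l ω') j := e2 j
    have f3 : prjK {i} (F.D l ω) j = prjK {i} (F.D l ω') j := e3 j
    unfold prjK at f2 f3 ⊢
    by_cases h1 : j = i
    · have h3 : j ∈ ({i} : Finset (Fin m)) := Finset.mem_singleton.2 h1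
      have h4 : j ∈ insert i κ := Finset.mem_insert.2 (Or.inl h1)
      rw [if_pos h3, if_pos h3] at f3
      rw [if_pos h4, if_pos h4]
      exact f3
    · by_cases h2 : j ∈ κ
      · have h4 : j ∈ insert i κ := Finset.mem_insert.2 (Or.inr h2)
        rw [if_pos h2, if_pos h2] at f2
        rw [if_pos h4, if_pos h4]
        exact f2
      · have h4 : j ∉ insert i κ := fun h => (Finset.mem_insert.1 h).elim h1 h2
        rw [if_neg h4, if_neg h4]
  unfold blk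
  linarith

theorem blk_sum (k l : ℕ) : blk F κ A k l ≤ ∑ i ∈ κ, blk F {i} A k l := by
  classical
  induction κ using Finset.induction_on with
  | empty =>
    rw [Finset.sum_empty]
    refine le_of_eq (CH_eq_zero (isLaw_cond F.isLaw hA).nonneg fun ω ω' _ _ e => ?_)
    funext i
    show prjK ∅ (F.D l ω) i = prjK ∅ (F.D l ω') i
    unfold prjK
    simp
  | insert i κ hi ih =>
    rw [Finset.sum_insert hi]
    have := blk_insert hA κ i k l
    linarith

/-- The whole direction. -/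
theorem blk_act (l : ℕ) : blk F univ A 0 l ≤ CH (Pool.Agent.H49.Ent.cond F.p A True) (F.D l)
      (fun ω => (F.X J ω, F.W ω)) ∧ CH (Pool.Agent.H49.Ent.cond F.p A True) (F.D l)
      (fun ω => (F.X J ω, F.W ω)) ≤ blk F univ A 0 l + Real.log (3 ^ m) := by
  classical
  have hcl := isLaw_cond F.isLaw hA
  have h0 := hcl.nonneg
  have e0 : blk F univ A 0 l = CH (Pool.Agent.H49.Ent.cond F.p A True) (F.D l)
      (fun ω => (F.D 0 ω, (F.X J ω, F.W ω))) := by
    unfold blk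
    congr 1
    funext ω i
    simp [prjK]
  rw [e0]
  refine ⟨CH_mono_cond h0 fun ω ω' _ _ e => (Prod.ext_iff.1 e).2, ?_⟩
  have b1 := CH_le_add h0 (F.D l) (F.D 0) (fun ω => (F.X J ω, F.W ω))
  have c2 := CH_le_H' hcl (F.D 0) (fun ω => (F.X J ω, F.W ω))
  have c3 : H (Pool.Agent.H49.Ent.cond F.p A True) (F.D 0) ≤ Real.log (3 ^ m) := by
    have c4 := H_le_cnt F.isLaw (F.D 0) hA
    refine c4.trans (Real.log_le_log ?_ ?_)
    · have := one_le_cnt F.isLaw (F.D 0) hA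
      exact_mod_cast this
    · have c5 := cnt_le_card F.p (F.D 0) (A := A)
        (Fintype.piFinset fun _ : Fin m => Finset.Icc (-(2 : ℤ) ^ 0) (2 ^ 0))
        (fun ω _ _ => D_mem F 0 ω)
      rw [Fintype.card_piFinset, Finset.prod_const, Finset.card_univ, Fintype.card_fin] at c5
      have c6 : (Finset.Icc (-(2 : ℤ) ^ 0) (2 ^ 0)).card = 3 := by decide
      rw [c6] at c5
      exact_mod_cast c5
  linarith

end facts

/-! ### Numbers -/

/-- A number of a class. -/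
def Nbr (S : PCl m) (f : ∀ (J : ℕ) (F : Fam m J), (F.Ω → Prop) → ℝ) (a : ℝ) : Prop :=
  ∀ h : ℝ, 0 < h → Bas S (fun J F A => |f J F A - a * J| ≤ h * J)

theorem Nbr.add {S : PCl m} {f g : ∀ (J : ℕ) (F : Fam m J), (F.Ω → Prop) → ℝ} {a b : ℝ}
    (hf : Nbr S f a) (hg : Nbr S g b) : Nbr S (fun J F A => f J F A + g J F A) (a + b) := by
  intro h hh
  refine Bas.mono 0 ((hf (h / 2) (half_pos hh)).and (hg (h / 2) (half_pos hh))) ?_
  rintro J - F A ⟨k1, k2⟩
  rw [abs_le] at k1 k2 ⊢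
  constructor <;> linarith [k1.1, k1.2, k2.1, k2.2]

theorem Nbr.zero (S : PCl m) : Nbr S (fun _ _ _ => 0) 0 := fun h hh =>
  ⟨1, one_pos, 0, fun J _ F A _ => by
    show |(0 : ℝ) - 0 * (J : ℝ)| ≤ h * J
    rw [zero_mul, sub_zero, abs_zero]
    positivity⟩

theorem Nbr.sum {S : PCl m} {ι : Type} (s : Finset ι)
    {f : ι → ∀ (J : ℕ) (F : Fam m J), (F.Ω → Prop) → ℝ} {a : ι → ℝ}
    (hf : ∀ i ∈ s, Nbr S (f i) (a i)) :
    Nbr S (fun J F A => ∑ i ∈ s, f i J F A) (∑ i ∈ s, a i) := by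
  classical
  induction s using Finset.induction_on with
  | empty => simpa using Nbr.zero S
  | insert i s hi ih =>
    simp only [Finset.sum_insert hi]
    exact (hf i (mem_insert_self _ _)).add (ih fun j hj => hf j (mem_insert_of_mem hj))

theorem Nbr.le {S : PCl m} (hS : S.Ne) {f g : ∀ (J : ℕ) (F : Fam m J), (F.Ω → Prop) → ℝ}
    {a b c C : ℝ} (hf : Nbr S f a) (hg : Nbr S g b)
    (h : Bas S (fun J F A => f J F A ≤ g J F A + c * J + C)) : a ≤ b + c :=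
  lim_le hS hf hg h

/-- **The activity numbers.** -/
structure ActN (S : PCl m) (N : Finset (Fin m) → ℝ → ℝ → ℝ) : Prop where
  num : ∀ (κ : Finset (Fin m)) (x y : ℝ), 0 ≤ x → x ≤ 1 → 0 ≤ y → y ≤ 1 →
    Nbr S (fun J F A => blk F κ A ⌊x * J⌋₊ ⌊y * J⌋₊) (N κ x y * Real.log 2)
  lip : ∀ (κ : Finset (Fin m)) (x y x' y' : ℝ), N κ x y ≤ N κ x' y' + m * (|x - x'| + |y - y'|)
  nonneg : ∀ (κ : Finset (Fin m)) (x y : ℝ), 0 ≤ x → x ≤ 1 → 0 ≤ y → y ≤ 1 → 0 ≤ N κ x y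
  le : ∀ (κ : Finset (Fin m)) (x y : ℝ), 0 ≤ x → x ≤ y → y ≤ 1 → N κ x y ≤ m * (y - x)
  sup : ∀ (κ : Finset (Fin m)) (x y z : ℝ), 0 ≤ x → x ≤ y → y ≤ z → z ≤ 1 →
    N κ x y + N κ y z ≤ N κ x z
  add : ∀ x y z : ℝ, 0 ≤ x → x ≤ y → y ≤ z → z ≤ 1 → N univ x y + N univ y z = N univ x z
  sum : ∀ x y : ℝ, 0 ≤ x → x ≤ y → y ≤ 1 → N univ x y ≤ ∑ i, N {i} x y
  act : ∀ g : ℝ, 0 ≤ g → g ≤ 1 → Nbr S (fun J F A =>
    CH (Pool.Agent.H49.Ent.cond F.p A True) (F.D ⌊g * J⌋₊) (fun ω => (F.X J ω, F.W ω)))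
      (N univ 0 g * Real.log 2)

/-- **The activity numbers exist.** -/
theorem actN_exists {S : PCl m} (hS : S.Ne)
    (hpos : ∀ (τ : ℝ) (J : ℕ) (F : Fam m J) (A : F.Ω → Prop), S.St τ J F A → 0 < Pe F.p A)
    {M : ℝ} (hcnt : Bas S (fun J F A => (cnt F.p (ptr F J) A : ℝ) ≤ Real.exp (M * J))) :
    ∃ (S' : PCl m) (N : Finset (Fin m) → ℝ → ℝ → ℝ), S'.Ne ∧
      (∀ (τ : ℝ) (J : ℕ) (F : Fam m J) (A : F.Ω → Prop), S'.St τ J F A → S.St τ J F A) ∧
      ActN S' N := by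
  classical
  have hl2 : 0 < Real.log 2 := Real.log_pos (by norm_num)
  have : Nonempty (Finset (Fin m) × Q01 × Q01 × Bool) := ⟨(∅, q0, q0, true)⟩
  obtain ⟨e, he⟩ := exists_surjective_nat (Finset (Fin m) × Q01 × Q01 × Bool)
  obtain ⟨Y, hY⟩ : ∃ Y : ∀ (_ J : ℕ) (F : Fam m J), F.Ω →
      (Fin m → ℤ) × ((Fin m → ℤ) × ((Fin m → ℤ) × (ℕ × F.ζ))),
      Y = fun i J F ω => (if (e i).2.2.2 then
        prjK (e i).1 (F.D ⌊(((e i).2.2.1 : ℚ) : ℝ) * J⌋₊ ω) else fun _ => 0,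
        (F.D ⌊(((e i).2.1 : ℚ) : ℝ) * J⌋₊ ω, (F.X J ω, F.W ω))) := ⟨_, rfl⟩
  have h36 : Real.exp (Real.log 36) = 36 := Real.exp_log (by norm_num)
  have hl36 : 0 ≤ Real.log 36 := Real.log_nonneg (by norm_num)
  obtain ⟨S', hne, hsub, hη⟩ := ext_ent_base hS hpos
    (fun _ _ F => (Fin m → ℤ) × ((Fin m → ℤ) × ((Fin m → ℤ) × (ℕ × F.ζ)))) Y
    (fun _ => M + m * Real.log 36) (fun i => Bas.mono 1 hcnt (by
      intro J hJ1 F A hA
      have key : ∀ (k l : ℕ), k ≤ J → l ≤ J → ∀ g : (Fin m → ℤ) → Fin m → ℤ,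
          (cnt F.p (fun ω => (g (F.D l ω), (F.D k ω, (F.X J ω, F.W ω)))) A : ℝ) ≤
          Real.exp (m * Real.log 36 * J) * cnt F.p (ptr F J) A := by
        intro k l hk hl g
        have h1 := cnt_le_card F.p (fun ω => (g (F.D l ω), (F.D k ω, ptr F J ω))) (A := A)
          (((Fintype.piFinset fun _ : Fin m => Finset.Icc (-(2 : ℤ) ^ l) (2 ^ l)).image g) ×ˢ
            ((Fintype.piFinset fun _ : Fin m => Finset.Icc (-(2 : ℤ) ^ k) (2 ^ k)) ×ˢ
            ((univ.filter fun ω => 0 < F.p ω ∧ A ω).image (ptr F J)))) (by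
          intro ω h0 hA
          rw [Finset.mem_product, Finset.mem_product]
          refine ⟨mem_image_of_mem _ (D_mem F l ω), D_mem F k ω, mem_image_of_mem _ ?_⟩
          rw [mem_filter]
          exact ⟨mem_univ ω, h0, hA⟩)
        rw [Finset.card_product, Finset.card_product] at h1
        have h2 : ∀ k : ℕ, k ≤ J → (Fintype.piFinset fun _ : Fin m =>
            Finset.Icc (-(2 : ℤ) ^ k) (2 ^ k)).card ≤ (6 ^ J) ^ m := by
          intro k hk
          rw [Fintype.card_piFinset, Finset.prod_const, Finset.card_univ, Fintype.card_fin]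
          refine Nat.pow_le_pow_left ?_ m
          rw [Int.card_Icc]
          have h3 : ((2 : ℤ) ^ k + 1 - -(2 : ℤ) ^ k).toNat ≤ ((3 * 2 ^ k : ℕ) : ℤ).toNat := by
            refine Int.toNat_le_toNat ?_
            have : (1 : ℤ) ≤ 2 ^ k := one_le_pow₀ (by norm_num)
            push_cast
            linarith
          rw [Int.toNat_natCast] at h3
          refine h3.trans ?_
          calc 3 * 2 ^ k ≤ 3 ^ J * 2 ^ J := by
                refine Nat.mul_le_mul ?_ (Nat.pow_le_pow_right (by norm_num) hk)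
                calc 3 = 3 ^ 1 := (pow_one _).symm
                  _ ≤ 3 ^ J := Nat.pow_le_pow_right (by norm_num) hJ1
            _ = 6 ^ J := by rw [← Nat.mul_pow]
        have h3 : cnt F.p (fun ω => (g (F.D l ω), (F.D k ω, (F.X J ω, F.W ω)))) A ≤
            (6 ^ J) ^ m * ((6 ^ J) ^ m * cnt F.p (ptr F J) A) := by
          refine h1.trans ?_
          refine Nat.mul_le_mul (card_image_le.trans (h2 l hl)) ?_
          refine Nat.mul_le_mul (h2 k hk) (le_of_eq ?_)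
          unfold cnt
          refine congrArg Finset.card (Finset.ext fun x => ?_)
          simp only [mem_image, mem_filter, mem_univ, true_and, ptr]
        have h4 : (((6 ^ J) ^ m * ((6 ^ J) ^ m * cnt F.p (ptr F J) A) : ℕ) : ℝ) =
            Real.exp (m * Real.log 36 * J) * cnt F.p (ptr F J) A := by
          have e1 : (m : ℝ) * Real.log 36 * J = Real.log 36 * ((J * m : ℕ) : ℝ) := by
            push_cast
            ring
          rw [e1, Real.exp_mul, h36, Real.rpow_natCast]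
          push_cast
          rw [← mul_assoc, ← pow_mul, ← mul_pow]
          norm_num
        rw [← h4]
        exact_mod_cast h3
      rw [hY]
      have hk1 := fl_le1 (q01 (e i).2.1).2 J
      have hk2 := fl_le1 (q01 (e i).2.2.1).2 J
      have h5 : Real.exp (m * Real.log 36 * J) * cnt F.p (ptr F J) A ≤
          Real.exp ((M + m * Real.log 36) * J) := by
        have e1 : (M + m * Real.log 36) * (J : ℝ) = m * Real.log 36 * J + M * J := by ring
        rw [e1, Real.exp_add]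
        exact mul_le_mul_of_nonneg_left hA (Real.exp_pos _).le
      refine le_trans ?_ h5
      rcases hb : (e i).2.2.2 with _ | _
      · have h6 := key _ _ hk1 hk2 (fun _ _ => 0)
        simp only [hb, Bool.false_eq_true, if_false]
        exact h6
      · have h6 := key _ _ hk1 hk2 (prjK (e i).1)
        simp only [hb, if_true]
        exact h6))
  have hpos' : Bas S' (fun _ F A => 0 < Pe F.p A) :=
    ⟨1, one_pos, 0, fun J _ F A hA => hpos 1 J F A (hsub 1 J F A hA)⟩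
  have hrat : ∀ (κ : Finset (Fin m)) (p q : Q01), ∃ ρ : ℝ, ∀ h : ℝ, 0 < h →
      Bas S' (fun J F A => |blk F κ A ⌊((p : ℚ) : ℝ) * J⌋₊ ⌊((q : ℚ) : ℝ) * J⌋₊ - ρ * J| ≤
        h * J) := by
    intro κ p q
    obtain ⟨i, hi⟩ := he (κ, p, q, true)
    obtain ⟨i', hi'⟩ := he (κ, p, q, false)
    obtain ⟨η, hη1⟩ := hη i
    obtain ⟨η₀, hη₀⟩ := hη i'
    refine ⟨η - η₀, fun h hh => ?_⟩
    refine Bas.mono 0 (((hη1 (h / 2) (half_pos hh)).and (hη₀ (h / 2) (half_pos hh))).and hpos') ?_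
    rintro J - F A ⟨⟨k1, k2⟩, k3⟩
    rw [hY] at k1 k2
    simp only [hi, if_true] at k1
    simp only [hi', Bool.false_eq_true, if_false] at k2
    have hcl := isLaw_cond F.isLaw k3
    have e1 : H (Pool.Agent.H49.Ent.cond F.p A True)
        (fun ω => ((fun _ => 0 : Fin m → ℤ), (F.D ⌊((p : ℚ) : ℝ) * J⌋₊ ω, (F.X J ω, F.W ω)))) =
        H (Pool.Agent.H49.Ent.cond F.p A True)
          (fun ω => (F.D ⌊((p : ℚ) : ℝ) * J⌋₊ ω, (F.X J ω, F.W ω))) :=
      H_congr hcl.nonneg (fun _ _ _ _ e => Prod.ext rfl e)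
        (fun _ _ _ _ e => (Prod.ext_iff.1 e).2)
    have e2 : blk F κ A ⌊((p : ℚ) : ℝ) * J⌋₊ ⌊((q : ℚ) : ℝ) * J⌋₊ =
        H (Pool.Agent.H49.Ent.cond F.p A True)
          (fun ω => (prjK κ (F.D ⌊((q : ℚ) : ℝ) * J⌋₊ ω),
            (F.D ⌊((p : ℚ) : ℝ) * J⌋₊ ω, (F.X J ω, F.W ω)))) -
        H (Pool.Agent.H49.Ent.cond F.p A True)
          (fun ω => (F.D ⌊((p : ℚ) : ℝ) * J⌋₊ ω, (F.X J ω, F.W ω))) := rfl
    rw [e1] at k2
    rw [e2]
    rw [abs_le] at k1 k2 ⊢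
    constructor <;> linarith [k1.1, k1.2, k2.1, k2.2]
  have hC : 0 ≤ (m : ℝ) * Real.log 2 := by positivity
  have hex : ∀ κ : Finset (Fin m), ∃ r : ℝ → ℝ → ℝ,
      (∀ x y x' y' : ℝ, r x y ≤ r x' y' + m * Real.log 2 * (|x - x'| + |y - y'|)) ∧
      ∀ x y : ℝ, 0 ≤ x → x ≤ 1 → 0 ≤ y → y ≤ 1 → ∀ h : ℝ, 0 < h → Bas S' (fun J F A =>
        |blk F κ A ⌊x * J⌋₊ ⌊y * J⌋₊ - r x y * J| ≤ h * J) := fun κ =>
    nums2 hne (f := fun J F A k l => blk F κ A k l) hC (hrat κ)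
      (Bas.mono 0 hpos' (fun J _ F A hA k k' l l' _ _ _ _ => blk_near hA κ k k' l l'))
  choose r hr1 hr2 using hex
  have hnum : ∀ (κ : Finset (Fin m)) (x y : ℝ), 0 ≤ x → x ≤ 1 → 0 ≤ y → y ≤ 1 →
      Nbr S' (fun J F A => blk F κ A ⌊x * J⌋₊ ⌊y * J⌋₊) (r κ x y / Real.log 2 * Real.log 2) := by
    intro κ x y h1 h2 h3 h4
    rw [div_mul_cancel₀ _ hl2.ne']
    exact hr2 κ x y h1 h2 h3 h4
  have cancel : ∀ {a b c : ℝ}, a * Real.log 2 ≤ b * Real.log 2 + c * Real.log 2 → a ≤ b + c := by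
    intro a b c h
    rw [← add_mul] at h
    exact le_of_mul_le_mul_right h hl2
  refine ⟨S', fun κ x y => r κ x y / Real.log 2, hne, hsub, hnum, ?_, ?_, ?_, ?_, ?_, ?_, ?_⟩
  · intro κ x y x' y'
    have h1 := hr1 κ x y x' y'
    rw [div_le_iff₀ hl2, add_mul, div_mul_cancel₀ _ hl2.ne']
    refine h1.trans (le_of_eq ?_)
    ring
  · intro κ x y h1 h2 h3 h4
    refine (cancel (a := 0) (b := r κ x y / Real.log 2) (c := 0) ?_).trans
      (le_of_eq (add_zero _))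
    have := Nbr.le (c := 0) (C := 0) hne (Nbr.zero S') (hnum κ x y h1 h2 h3 h4)
      (Bas.mono 0 hpos' (fun J _ F A hA => by
        have := blk_nonneg hA κ ⌊x * J⌋₊ ⌊y * J⌋₊
        linarith))
    linarith
  · intro κ x y h1 h2 h3
    have h0y : 0 ≤ y := h1.trans h2
    have := Nbr.le (c := m * (y - x) * Real.log 2) (C := m * Real.log 2) hne
      (hnum κ x y h1 (h2.trans h3) h0y h3) (Nbr.zero S')
      (Bas.mono 0 hpos' (fun J _ F A hA => by
        have hJ0 : (0 : ℝ) ≤ J := Nat.cast_nonneg J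
        have b1 := blk_le hA κ (Nat.floor_le_floor (mul_le_mul_of_nonneg_right h2 hJ0))
        have b2 := Nat.floor_le (show 0 ≤ y * (J : ℝ) by positivity)
        have b3 := Nat.lt_floor_add_one (x * (J : ℝ))
        have b4 : ((⌊y * (J : ℝ)⌋₊ : ℕ) : ℝ) - ⌊x * (J : ℝ)⌋₊ ≤ (y - x) * J + 1 := by linarith
        have b5 := mul_le_mul_of_nonneg_left b4 hC
        have e1 : (m : ℝ) * Real.log 2 * ((y - x) * J + 1) =
          m * (y - x) * Real.log 2 * J + m * Real.log 2 := by ring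
        linarith))
    have h5 := cancel (a := r κ x y / Real.log 2) (b := 0) (c := m * (y - x)) (by linarith)
    simpa using h5
  · intro κ x y z h1 h2 h3 h4
    have h0y : 0 ≤ y := h1.trans h2
    have h0z : 0 ≤ z := h0y.trans h3
    have hy1 : y ≤ 1 := h3.trans h4
    have hx1 : x ≤ 1 := h2.trans hy1
    have := Nbr.le (c := 0) (C := 0) hne
      ((hnum κ x y h1 hx1 h0y hy1).add (hnum κ y z h0y hy1 h0z h4)) (hnum κ x z h1 hx1 h0z h4)
      (Bas.mono 0 hpos' (fun J _ F A hA => by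
        have hJ0 : (0 : ℝ) ≤ J := Nat.cast_nonneg J
        have := blk_sup hA κ (Nat.floor_le_floor (mul_le_mul_of_nonneg_right h2 hJ0))
          (Nat.floor_le_floor (mul_le_mul_of_nonneg_right h3 hJ0))
        linarith))
    rw [← add_mul] at this
    have h5 := cancel (a := r κ x y / Real.log 2 + r κ y z / Real.log 2)
      (b := r κ x z / Real.log 2) (c := 0) (by linarith)
    simpa using h5
  · intro x y z h1 h2 h3 h4
    have h0y : 0 ≤ y := h1.trans h2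
    have h0z : 0 ≤ z := h0y.trans h3
    have hy1 : y ≤ 1 := h3.trans h4
    have hx1 : x ≤ 1 := h2.trans hy1
    refine le_antisymm ?_ ?_
    · have := Nbr.le (c := 0) (C := 0) hne
        ((hnum univ x y h1 hx1 h0y hy1).add (hnum univ y z h0y hy1 h0z h4))
        (hnum univ x z h1 hx1 h0z h4)
        (Bas.mono 0 hpos' (fun J _ F A hA => by
          have hJ0 : (0 : ℝ) ≤ J := Nat.cast_nonneg J
          have := blk_sup hA univ (Nat.floor_le_floor (mul_le_mul_of_nonneg_right h2 hJ0))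
            (Nat.floor_le_floor (mul_le_mul_of_nonneg_right h3 hJ0))
          linarith))
      rw [← add_mul] at this
      have h5 := cancel (a := r univ x y / Real.log 2 + r univ y z / Real.log 2)
        (b := r univ x z / Real.log 2) (c := 0) (by linarith)
      simpa using h5
    · have := Nbr.le (c := 0) (C := 0) hne (hnum univ x z h1 hx1 h0z h4)
        ((hnum univ x y h1 hx1 h0y hy1).add (hnum univ y z h0y hy1 h0z h4))
        (Bas.mono 0 hpos' (fun J _ F A hA => by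
          have hJ0 : (0 : ℝ) ≤ J := Nat.cast_nonneg J
          have := blk_add hA (k := ⌊x * J⌋₊)
            (Nat.floor_le_floor (mul_le_mul_of_nonneg_right h3 hJ0))
          linarith))
      rw [← add_mul] at this
      have h5 := cancel (a := r univ x z / Real.log 2)
        (b := r univ x y / Real.log 2 + r univ y z / Real.log 2) (c := 0) (by linarith)
      simpa using h5
  · intro x y h1 h2 h3
    have h0y : 0 ≤ y := h1.trans h2
    have hx1 : x ≤ 1 := h2.trans h3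
    have := Nbr.le (c := 0) (C := 0) hne (hnum univ x y h1 hx1 h0y h3)
      (Nbr.sum univ fun i _ => hnum {i} x y h1 hx1 h0y h3)
      (Bas.mono 0 hpos' (fun J _ F A hA => by
        have := blk_sum hA univ ⌊x * J⌋₊ ⌊y * J⌋₊
        linarith))
    rw [← Finset.sum_mul] at this
    have h5 := cancel (a := r univ x y / Real.log 2)
      (b := ∑ i, r {i} x y / Real.log 2) (c := 0) (by linarith)
    simpa using h5
  · intro g hg0 hg1 h hh
    have hcc : 0 ≤ Real.log (3 ^ m) := Real.log_nonneg (one_le_pow₀ (by norm_num))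
    obtain ⟨J₂, hJ₂⟩ := exists_nat_gt (2 * Real.log (3 ^ m) / h)
    refine Bas.mono J₂ ((hnum univ 0 g le_rfl zero_le_one hg0 hg1 (h / 2) (half_pos hh)).and
      hpos') ?_
    rintro J hJ F A ⟨k1, k2⟩
    have hJ3 : 2 * Real.log (3 ^ m) ≤ h * J := by
      have : 2 * Real.log (3 ^ m) / h < J := hJ₂.trans_le (by exact_mod_cast hJ)
      rw [div_lt_iff₀ hh] at this
      linarith
    have e0 : ⌊(0 : ℝ) * J⌋₊ = 0 := by simp
    simp only [e0] at k1
    obtain ⟨b1, b2⟩ := blk_act k2 ⌊g * J⌋₊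
    rw [abs_le] at k1 ⊢
    simp only
    constructor <;> linarith [k1.1, k1.2]

end Pool.GEN
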