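import Pool.Agent.H2.GEN.Act2

/-!
# The choice of an active coordinate and of an active scale

From the superadditive numbers `N {i}` of the blocks of one coordinate: there are a coordinate and
a scale `q`, as small as we like, at which most of the short blocks are active.
-/

set_option autoImplicit false

namespace Pool.GEN

open MeasureTheory Set Filter Topology

/-- Lebesgue points, from the right. -/
theorem leb {b : ℝ → ℝ} (hm : Measurable b) {K : ℝ} (h0 : ∀ x, 0 ≤ b x) (hK : ∀ x, b x ≤ K) :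
    ∀ᵐ x : ℝ, ∀ ε : ℝ, 0 < ε → ∃ g₀ : ℝ, 0 < g₀ ∧ ∀ g : ℝ, 0 < g → g ≤ g₀ →
      ∫ t in x..(x + g), |b t - b x| ≤ ε * g := by
  have hli : LocallyIntegrable b volume := by
    refine (locallyIntegrable_const K).mono hm.aestronglyMeasurable (ae_of_all _ fun x => ?_)
    rw [Real.norm_eq_abs, Real.norm_eq_abs, abs_of_nonneg (h0 x)]
    exact (hK x).trans (le_abs_self K)
  filter_upwards [IsUnifLocDoublingMeasure.ae_tendsto_average_norm_sub volume hli 1] with x hx
  intro ε hε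
  have h1 := hx (l := 𝓝[>] (0 : ℝ)) (fun g => x + g) (fun g => g) tendsto_id (by
    filter_upwards [self_mem_nhdsWithin] with g hg
    have hg' : (0 : ℝ) < g := hg
    rw [Metric.mem_closedBall, Real.dist_eq]
    have : x - (x + g) = -g := by ring
    rw [this, abs_neg, abs_of_pos hg', one_mul])
  have h2 := h1.eventually (Iio_mem_nhds (show (0 : ℝ) < ε / 4 by positivity))
  obtain ⟨g₀, hg₀, h3⟩ := mem_nhdsGT_iff_exists_Ioo_subset.1 h2
  have hg₀' : (0 : ℝ) < g₀ := hg₀
  refine ⟨g₀ / 2, by linarith, fun g hg1 hg2 => ?_⟩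
  have h4 : g ∈ Ioo (0 : ℝ) g₀ := ⟨hg1, by linarith⟩
  have h5 := h3 h4
  have h6 : ⨍ y in Metric.closedBall (x + g) g, ‖b y - b x‖ < ε / 4 := h5
  rw [setAverage_eq, Real.closedBall_eq_Icc] at h6
  have e1 : x + g - g = x := by ring
  have e2 : x + g + g = x + 2 * g := by ring
  rw [e1, e2] at h6
  have e3 : volume.real (Icc x (x + 2 * g)) = 2 * g := by
    rw [Measure.real, Real.volume_Icc, ENNReal.toReal_ofReal (by linarith)]
    ring
  rw [e3, smul_eq_mul, inv_mul_lt_iff₀ (by linarith)] at h6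
  have hint : IntegrableOn (fun y => ‖b y - b x‖) (Icc x (x + 2 * g)) := by
    have : IntegrableOn (fun y => b y - b x) (Icc x (x + 2 * g)) :=
      (hli.integrableOn_isCompact isCompact_Icc).sub
        (integrableOn_const (by rw [Real.volume_Icc]; exact ENNReal.ofReal_ne_top))
    exact this.norm
  have h7 : ∫ t in x..(x + g), |b t - b x| = ∫ t in Ioc x (x + g), ‖b t - b x‖ :=
    intervalIntegral.integral_of_le (by linarith)
  rw [h7]
  have h8 : ∫ t in Ioc x (x + g), ‖b t - b x‖ ≤ ∫ t in Icc x (x + 2 * g), ‖b t - b x‖ :=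
    setIntegral_mono_set hint (ae_of_all _ fun _ => norm_nonneg _)
      (LE.le.eventuallyLE (show Ioc x (x + g) ≤ Icc x (x + 2 * g) from fun t ht =>
        ⟨ht.1.le, by linarith [ht.2]⟩))
  have : ε / 4 * (2 * g) ≤ ε * g := by nlinarith
  linarith

/-- **The choice.** -/
theorem choice {ι : Type} [Fintype ι] {N : ι → ℝ → ℝ → ℝ} {U : ℝ → ℝ → ℝ} {K q₁ : ℝ}
    (hq₁ : 0 < q₁) (hq₁' : q₁ ≤ 1) (hU : 0 < U 0 q₁)
    (hadd : ∀ x y z : ℝ, 0 ≤ x → x ≤ y → y ≤ z → z ≤ 1 → U x z ≤ U x y + U y z)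
    (hsum : ∀ x y : ℝ, 0 ≤ x → x ≤ y → y ≤ 1 → U x y ≤ ∑ i, N i x y)
    (hU0 : U 0 0 ≤ 0) {b : ι → ℝ → ℝ} (hm : ∀ i, Measurable (b i)) (h0 : ∀ i x, 0 ≤ b i x)
    (hK : ∀ i x, b i x ≤ K)
    (hint : ∀ i x y, 0 ≤ x → x ≤ y → y ≤ 1 → ∫ t in x..y, b i t ≤ N i x y)
    (hmesh : ∀ i, ∀ e : ℝ, 0 < e → ∃ M₀ : ℕ, ∀ M : ℕ, M₀ ≤ M → 0 < M →
      ∑ l ∈ Finset.range M, |N i (q₁ * l / M) (q₁ * (l + 1 : ℕ) / M) -
        ∫ t in (q₁ * l / M)..(q₁ * (l + 1 : ℕ) / M), b i t| ≤ e) :
    ∃ (i : ι) (q al : ℝ), 0 < q ∧ q < q₁ ∧ 0 < al ∧ ∀ ε : ℝ, 0 < ε → ∃ g₀ : ℝ, 0 < g₀ ∧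
      ∀ g : ℝ, 0 < g → g ≤ g₀ → q + g ≤ 1 → ∀ M : ℕ, 0 < M → ∃ Gd ⊆ Finset.range M,
        (1 - ε) * M ≤ Gd.card ∧ ∀ l ∈ Gd, (al - ε) * (g / M) ≤
          N i (q + g * l / M) (q + g * (l + 1 : ℕ) / M) := by
  classical
  have hii : ∀ i x y, IntervalIntegrable (b i) volume x y := by
    intro i x y
    refine (intervalIntegrable_const (c := K)).mono_fun (hm i).aestronglyMeasurable
      (ae_of_all _ fun t => ?_)
    show ‖b i t‖ ≤ ‖K‖
    rw [Real.norm_eq_abs, Real.norm_eq_abs, abs_of_nonneg (h0 i t)]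
    exact (hK i t).trans (le_abs_self K)
  -- one coordinate is active
  have h1 : ∃ i, 0 < ∫ t in (0 : ℝ)..q₁, b i t := by
    by_contra hcon
    push Not at hcon
    have hcard : (0 : ℝ) ≤ Fintype.card ι := Nat.cast_nonneg _
    obtain ⟨e, he⟩ : ∃ e, e = U 0 q₁ / (2 * (Fintype.card ι + 1)) := ⟨_, rfl⟩
    have he0 : 0 < e := by rw [he]; positivity
    have hM : ∃ M₀ : ℕ, ∀ i, ∀ M : ℕ, M₀ ≤ M → 0 < M →
        ∑ l ∈ Finset.range M, |N i (q₁ * l / M) (q₁ * (l + 1 : ℕ) / M) -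
          ∫ t in (q₁ * l / M)..(q₁ * (l + 1 : ℕ) / M), b i t| ≤ e := by
      choose M₀ hM₀ using fun i => hmesh i e he0
      exact ⟨Finset.univ.sup M₀, fun i M hM hM0 =>
        hM₀ i M ((Finset.le_sup (Finset.mem_univ i)).trans hM) hM0⟩
    obtain ⟨M₀, hM₀⟩ := hM
    obtain ⟨M, hMe⟩ : ∃ M, M = M₀ + 1 := ⟨_, rfl⟩
    have hM0 : 0 < M := by omega
    have hMR : (0 : ℝ) < M := by exact_mod_cast hM0
    obtain ⟨x, hx⟩ : ∃ x : ℕ → ℝ, x = fun l : ℕ => q₁ * (l : ℝ) / M := ⟨_, rfl⟩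
    have hx0 : ∀ l, 0 ≤ x l := fun l => by rw [hx]; positivity
    have hx1 : ∀ l ≤ M, x l ≤ 1 := by
      intro l hl
      rw [hx]
      have : (l : ℝ) ≤ M := by exact_mod_cast hl
      rw [div_le_one hMR]
      nlinarith
    have hxx : ∀ l, x l ≤ x (l + 1) := by
      intro l
      rw [hx]
      refine div_le_div_of_nonneg_right ?_ hMR.le
      push_cast
      nlinarith
    have hx00 : x 0 = 0 := by rw [hx]; simp
    have hxM : x M = q₁ := by
      rw [hx]
      field_simp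
    have hUs : ∀ l ≤ M, U 0 (x l) ≤ ∑ k ∈ Finset.range l, U (x k) (x (k + 1)) := by
      intro l
      induction l with
      | zero => intro _; rw [hx00]; simpa using hU0
      | succ l ih =>
        intro hl
        rw [Finset.sum_range_succ]
        have := hadd 0 (x l) (x (l + 1)) le_rfl (hx0 l) (hxx l) (hx1 _ hl)
        linarith [ih (by omega)]
    have h2 := hUs M le_rfl
    rw [hxM] at h2
    have h3 : ∑ k ∈ Finset.range M, U (x k) (x (k + 1)) ≤
        ∑ i, ∑ k ∈ Finset.range M, N i (x k) (x (k + 1)) := by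
      rw [Finset.sum_comm]
      refine Finset.sum_le_sum fun k hk => ?_
      rw [Finset.mem_range] at hk
      exact hsum _ _ (hx0 k) (hxx k) (hx1 _ hk)
    have h4 : ∀ i, ∑ k ∈ Finset.range M, N i (x k) (x (k + 1)) ≤ e := by
      intro i
      have h5 := hM₀ i M (by omega) hM0
      have h6 : ∑ k ∈ Finset.range M, ∫ t in (x k)..(x (k + 1)), b i t =
          ∫ t in (x 0)..(x M), b i t :=
        intervalIntegral.sum_integral_adjacent_intervals fun k _ => hii i _ _
      rw [hx00, hxM] at h6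
      have h7 : ∑ k ∈ Finset.range M, N i (x k) (x (k + 1)) -
          ∑ k ∈ Finset.range M, ∫ t in (x k)..(x (k + 1)), b i t ≤ e := by
        rw [← Finset.sum_sub_distrib]
        refine le_trans (Finset.sum_le_sum fun k _ => le_abs_self _) ?_
        rw [hx]
        exact h5
      rw [h6] at h7
      linarith [hcon i]
    have h5 : U 0 q₁ ≤ Fintype.card ι * e := by
      refine h2.trans (h3.trans ?_)
      calc ∑ i, ∑ k ∈ Finset.range M, N i (x k) (x (k + 1)) ≤ ∑ _i : ι, e :=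
            Finset.sum_le_sum fun i _ => h4 i
        _ = _ := by rw [Finset.sum_const, Finset.card_univ, nsmul_eq_mul]
    have h6 : (Fintype.card ι : ℝ) * e ≤ U 0 q₁ / 2 := by
      rw [he, mul_div_assoc', div_le_iff₀ (by positivity)]
      nlinarith
    linarith
  obtain ⟨i, hi⟩ := h1
  -- the scale
  obtain ⟨q, hq, hqb, hqL⟩ : ∃ q : ℝ, q ∈ Ioo 0 q₁ ∧ 0 < b i q ∧ ∀ ε : ℝ, 0 < ε →
      ∃ g₀ : ℝ, 0 < g₀ ∧ ∀ g : ℝ, 0 < g → g ≤ g₀ →
        ∫ t in q..(q + g), |b i t - b i q| ≤ ε * g := by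
    by_contra hcon
    push Not at hcon
    have h2 : ∀ᵐ t : ℝ, t ∈ Ioo 0 q₁ → b i t = (fun _ => (0 : ℝ)) t := by
      filter_upwards [leb (hm i) (h0 i) (hK i)] with t ht htI
      by_contra hne
      have h3 : 0 < b i t := lt_of_le_of_ne (h0 i t) (Ne.symm hne)
      obtain ⟨ε, hε, h4⟩ := hcon t htI h3
      obtain ⟨g₀, hg₀, h5⟩ := ht ε hε
      obtain ⟨g, hg1, hg2, hg3⟩ := h4 g₀ hg₀
      exact absurd (h5 g hg1 hg2) (not_le.2 hg3)
    rw [intervalIntegral.integral_of_le hq₁.le, integral_Ioc_eq_integral_Ioo,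
      setIntegral_congr_ae measurableSet_Ioo h2] at hi
    simp at hi
  refine ⟨i, q, b i q, hq.1, hq.2, hqb, fun ε hε => ?_⟩
  obtain ⟨g₀, hg₀, hL⟩ := hqL (ε * ε) (by positivity)
  refine ⟨g₀, hg₀, fun g hg hgg hqg M hM => ?_⟩
  have hMR : (0 : ℝ) < M := by exact_mod_cast hM
  obtain ⟨x, hx⟩ : ∃ x : ℕ → ℝ, x = fun l : ℕ => q + g * (l : ℝ) / M := ⟨_, rfl⟩
  have hxx : ∀ l, x (l + 1) - x l = g / M := by
    intro l
    rw [hx]
    push_cast
    ring
  have hxle : ∀ l, x l ≤ x (l + 1) := fun l => by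
    have : 0 < g / M := by positivity
    linarith [hxx l]
  have hx0 : ∀ l, 0 ≤ x l := fun l => by
    rw [hx]
    have : 0 ≤ g * l / M := by positivity
    have := hq.1
    simp only
    linarith
  have hx1 : ∀ l ≤ M, x l ≤ 1 := by
    intro l hl
    rw [hx]
    have h2 : g * l / M ≤ g := by
      rw [div_le_iff₀ hMR]
      have : (l : ℝ) ≤ M := by exact_mod_cast hl
      nlinarith
    simp only
    linarith
  have hx00 : x 0 = q := by rw [hx]; simp
  have hxM : x M = q + g := by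
    rw [hx]
    field_simp
  have hia : ∀ u v, IntervalIntegrable (fun t => |b i t - b i q|) volume u v := fun u v =>
    ((hii i u v).sub intervalIntegrable_const).abs
  obtain ⟨Gd, hGd⟩ : ∃ Gd : Finset ℕ, Gd = (Finset.range M).filter fun l =>
    (b i q - ε) * (g / M) ≤ N i (x l) (x (l + 1)) := ⟨_, rfl⟩
  refine ⟨Gd, by rw [hGd]; exact Finset.filter_subset _ _, ?_, ?_⟩
  · obtain ⟨Bd, hBd⟩ : ∃ Bd : Finset ℕ, Bd = (Finset.range M).filter fun l =>
      ¬ (b i q - ε) * (g / M) ≤ N i (x l) (x (l + 1)) := ⟨_, rfl⟩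
    have hc : (Gd.card : ℝ) + Bd.card = M := by
      have := Finset.card_filter_add_card_filter_not (s := Finset.range M)
        (fun l => (b i q - ε) * (g / M) ≤ N i (x l) (x (l + 1)))
      rw [hGd, hBd]
      rw [Finset.card_range] at this
      exact_mod_cast this
    have h2 : ∀ l ∈ Bd, ε * (g / M) ≤ ∫ t in (x l)..(x (l + 1)), |b i t - b i q| := by
      intro l hl
      rw [hBd, Finset.mem_filter, Finset.mem_range, not_le] at hl
      have h3 := hint i (x l) (x (l + 1)) (hx0 l) (hxle l) (hx1 _ hl.1)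
      have h4 : ∫ t in (x l)..(x (l + 1)), (b i q - b i t) ≤
          ∫ t in (x l)..(x (l + 1)), |b i t - b i q| := by
        refine intervalIntegral.integral_mono_on (hxle l)
          (intervalIntegrable_const.sub (hii i _ _)) (hia _ _) fun t _ => ?_
        rw [abs_sub_comm]
        exact le_abs_self _
      rw [intervalIntegral.integral_sub intervalIntegrable_const (hii i _ _),
        intervalIntegral.integral_const, smul_eq_mul, hxx l] at h4
      nlinarith
    have h3 : (Bd.card : ℝ) * (ε * (g / M)) ≤ ε * ε * g := by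
      calc (Bd.card : ℝ) * (ε * (g / M)) = ∑ _l ∈ Bd, ε * (g / M) := by
            rw [Finset.sum_const, nsmul_eq_mul]
        _ ≤ ∑ l ∈ Bd, ∫ t in (x l)..(x (l + 1)), |b i t - b i q| := Finset.sum_le_sum h2
        _ ≤ ∑ l ∈ Finset.range M, ∫ t in (x l)..(x (l + 1)), |b i t - b i q| := by
            refine Finset.sum_le_sum_of_subset_of_nonneg ?_ fun l _ _ => ?_
            · rw [hBd]
              exact Finset.filter_subset _ _
            · exact intervalIntegral.integral_nonneg (hxle l) fun t _ => abs_nonneg _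
        _ = ∫ t in (x 0)..(x M), |b i t - b i q| :=
            intervalIntegral.sum_integral_adjacent_intervals fun k _ => hia _ _
        _ ≤ ε * ε * g := by
            rw [hx00, hxM]
            exact hL g hg hgg
    have h4 : (Bd.card : ℝ) ≤ ε * M := by
      have h5 : (Bd.card : ℝ) * (ε * (g / M)) = (Bd.card : ℝ) / M * (ε * g) := by ring
      have h6 : ε * ε * g = ε * (ε * g) := by ring
      rw [h5, h6] at h3
      have h7 := le_of_mul_le_mul_right h3 (by positivity)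
      rwa [div_le_iff₀ hMR] at h7
    nlinarith
  · intro l hl
    rw [hGd, Finset.mem_filter] at hl
    have h2 := hl.2
    rw [hx] at h2
    exact h2

end Pool.GEN
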