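import Pool.Agent.H2.GEN.Act3
import Pool.Agent.H99.GEN.Sup

/-!
# The activity of one coordinate
-/

set_option autoImplicit false

namespace Pool.GEN

open Finset Real
open Pool.Agent.H49.Ent Pool.Agent.H32.Dense Pool.STK Pool.KA Pool.K2S Pool.PB Pool.S6C

variable {m J : ℕ}

/-- The block of one coordinate. -/
theorem blk_coord (F : Fam m J) {A : F.Ω → Prop} (hA : 0 < Pe F.p A) (κ : Fin m) (k l : ℕ) :
    blk F {κ} A k l = CH (Pool.Agent.H49.Ent.cond F.p A True) (fun ω => F.D l ω κ)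
      (fun ω => (F.D k ω, (F.X J ω, F.W ω))) := by
  have h0 := (isLaw_cond F.isLaw hA).nonneg
  have hκ : κ ∈ ({κ} : Finset (Fin m)) := Finset.mem_singleton_self κ
  unfold blk
  refine CH_congr h0 ?_ ?_ (fun _ _ _ _ e => e) (fun _ _ _ _ e => e)
  · intro ω ω' _ _ e
    have h1 : prjK {κ} (F.D l ω) = prjK {κ} (F.D l ω') := (Prod.ext_iff.1 e).1
    have h2 := congrFun h1 κ
    unfold prjK at h2
    rw [if_pos hκ, if_pos hκ] at h2
    exact h2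
  · intro ω ω' _ _ e
    have h1 : F.D l ω κ = F.D l ω' κ := (Prod.ext_iff.1 e).1
    show prjK {κ} (F.D l ω) = prjK {κ} (F.D l ω')
    funext i
    unfold prjK
    by_cases hi : i ∈ ({κ} : Finset (Fin m))
    · rw [if_pos hi, if_pos hi, Finset.mem_singleton.1 hi]
      exact h1
    · rw [if_neg hi, if_neg hi]

/-- **The numbers of one coordinate.** -/
theorem ActN.coord {S : PCl m} {N : Finset (Fin m) → ℝ → ℝ → ℝ} (hN : ActN S N)
    (hpos : ∀ (τ : ℝ) (J : ℕ) (F : Fam m J) (A : F.Ω → Prop), S.St τ J F A → 0 < Pe F.p A)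
    (κ : Fin m) {x y : ℝ} (hx0 : 0 ≤ x) (hx1 : x ≤ 1) (hy0 : 0 ≤ y) (hy1 : y ≤ 1) :
    Nbr S (fun J F A => CH (Pool.Agent.H49.Ent.cond F.p A True) (fun ω => F.D ⌊y * J⌋₊ ω κ)
      (fun ω => (F.D ⌊x * J⌋₊ ω, (F.X J ω, F.W ω)))) (N {κ} x y * Real.log 2) := by
  intro h hh
  have hp : Bas S (fun _ F A => 0 < Pe F.p A) := ⟨1, one_pos, 0, fun J _ F A hA => hpos 1 J F A hA⟩
  refine Bas.mono 0 ((hN.num {κ} x y hx0 hx1 hy0 hy1 h hh).and hp) ?_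
  rintro J - F A ⟨k1, k2⟩
  simp only at k1 ⊢
  rwa [blk_coord F k2] at k1

theorem ActN.sa {S : PCl m} {N : Finset (Fin m) → ℝ → ℝ → ℝ} (hN : ActN S N)
    (κ : Finset (Fin m)) : Pool.SUPA.SA (N κ) m where
  nn q q' h0 h1 h2 := hN.nonneg κ q q' h0 (h1.trans h2) (h0.trans h1) h2
  le q q' h0 h1 h2 := hN.le κ q q' h0 h1 h2
  sup q q' q'' h0 h1 h2 h3 := hN.sup κ q q' q'' h0 h1 h2 h3

/-- **The choice of an active coordinate and of an active scale.** -/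
theorem ActN.choice {S : PCl m} {N : Finset (Fin m) → ℝ → ℝ → ℝ} (hN : ActN S N) {q₁ : ℝ}
    (hq₁ : 0 < q₁) (hq₁' : q₁ ≤ 1) (hact : 0 < N univ 0 q₁) :
    ∃ (κ : Fin m) (q al : ℝ), 0 < q ∧ q < q₁ ∧ 0 < al ∧ ∀ ε : ℝ, 0 < ε → ∃ g₀ : ℝ, 0 < g₀ ∧
      ∀ g : ℝ, 0 < g → g ≤ g₀ → q + g ≤ 1 → ∀ M : ℕ, 0 < M → ∃ Gd ⊆ Finset.range M,
        (1 - ε) * M ≤ Gd.card ∧ ∀ l ∈ Gd, (al - ε) * (g / M) ≤
          N {κ} (q + g * l / M) (q + g * (l + 1 : ℕ) / M) := by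
  have hmain : ∀ κ : Fin m, ∃ F b : ℝ → ℝ, Measurable b ∧ (∀ q, 0 ≤ b q) ∧ (∀ q, b q ≤ m) ∧
      (∀ x y, ∫ t in x..y, b t = F y - F x) ∧
      (∀ x y, 0 ≤ x → x ≤ y → y ≤ 1 → F y - F x ≤ N {κ} x y) ∧
      (∀ eps > 0, ∃ del > 0, ∀ (M : ℕ) (x : ℕ → ℝ), Monotone x → 0 ≤ x 0 → x M ≤ 1 →
        (∀ i < M, x (i + 1) - x i ≤ del) →
          ∑ i ∈ range M, |N {κ} (x i) (x (i + 1)) - (F (x (i + 1)) - F (x i))| ≤ eps) := by
    intro κ
    obtain ⟨F, b, -, -, -, h1, h2, h3, h4, h5, -, h6⟩ := Pool.SUPA.main (hN.sa {κ})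
    exact ⟨F, b, h1, h2, h3, h4, h5, h6⟩
  choose F b h1 h2 h3 h4 h5 h6 using hmain
  have h00 : N univ 0 0 = 0 := (hN.sa univ).self le_rfl zero_le_one
  refine Pool.GEN.choice (ι := Fin m) (N := fun κ => N {κ}) (U := N univ) (K := m) (b := b) hq₁
    hq₁' hact (fun x y z a1 a2 a3 a4 => (hN.add x y z a1 a2 a3 a4).ge)
    (fun x y a1 a2 a3 => hN.sum x y a1 a2 a3) h00.le h1 h2 h3
    (fun κ x y a1 a2 a3 => by rw [h4 κ x y]; exact h5 κ x y a1 a2 a3) ?_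
  intro κ e he
  obtain ⟨del, hdel, h7⟩ := h6 κ e he
  obtain ⟨M₀, hM₀⟩ := exists_nat_ge (q₁ / del)
  refine ⟨M₀, fun M hM hM0 => ?_⟩
  have hMR : (0 : ℝ) < M := by exact_mod_cast hM0
  have hMM : (M₀ : ℝ) ≤ M := by exact_mod_cast hM
  have h8 := h7 M (fun l : ℕ => q₁ * (l : ℝ) / M) (by
    intro l l' hll
    have : (l : ℝ) ≤ l' := by exact_mod_cast hll
    exact div_le_div_of_nonneg_right (mul_le_mul_of_nonneg_left this hq₁.le) hMR.le) (by simp)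
    (by
      have : q₁ * (M : ℝ) / M = q₁ := by field_simp
      simp only [this]
      exact hq₁') (by
    intro l _
    have e1 : q₁ * ((l + 1 : ℕ) : ℝ) / M - q₁ * (l : ℝ) / M = q₁ / M := by
      push_cast
      ring
    simp only [e1]
    rw [div_le_iff₀ hMR]
    rw [div_le_iff₀ hdel] at hM₀
    nlinarith)
  refine le_trans (le_of_eq (Finset.sum_congr rfl fun l _ => ?_)) h8
  rw [h4 κ]

end Pool.GEN
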