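import Pool.Agent.H2.GEN.AttF

/-!
# The next coordinate of a chain, on several natural boxes
-/

set_option autoImplicit false

namespace Pool.CHT

open Finset Real MvPolynomial
open Pool.Agent.H49.Ent Pool.Agent.H32.Dense Pool.STK Pool.KA Pool.KSAT Pool.K2S Pool.PB Pool.S6C
open Pool.GEN

variable {m J : ℕ}

/-- Finitely many passages to large parts of an event. -/
theorem iter_ev {Ω : Type} [Fintype Ω] {p : Ω → ℝ} (hp : ∀ A : Ω → Prop, 0 ≤ Pe p A) (s n : ℕ)
    {B₀ : Ω → Prop} {Φ : ℕ → Ω → Prop} {κ : ℝ} (hκ0 : 0 ≤ κ) (hκ : κ * 2 ^ (s * n) ≤ 1)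
    (h : ∀ l < n, ∀ B' : Ω → Prop, Sub B' B₀ → κ * Pe p B₀ ≤ Pe p B' →
      ∃ B'' : Ω → Prop, Sub B'' B' ∧ Pe p B' ≤ 2 ^ s * Pe p B'' ∧ ∀ ω, B'' ω → Φ l ω) :
    ∃ B : Ω → Prop, Sub B B₀ ∧ Pe p B₀ ≤ 2 ^ (s * n) * Pe p B ∧ ∀ ω, B ω → ∀ l < n, Φ l ω := by
  have key : ∀ j ≤ n, ∃ B : Ω → Prop, Sub B B₀ ∧ Pe p B₀ ≤ 2 ^ (s * j) * Pe p B ∧
      ∀ ω, B ω → ∀ l < j, Φ l ω := by
    intro j
    induction j with
    | zero => exact fun _ => ⟨B₀, fun _ h => h, by simp, fun _ _ l hl => absurd hl (by omega)⟩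
    | succ j ih =>
      intro hj
      obtain ⟨B, h1, h2, h3⟩ := ih (by omega)
      obtain ⟨B', k1, k2, k3⟩ := h j (by omega) B h1 (by
        have e1 : (2 : ℝ) ^ (s * j) ≤ 2 ^ (s * n) :=
          pow_le_pow_right₀ (by norm_num) (Nat.mul_le_mul_left s (by omega))
        calc κ * Pe p B₀ ≤ κ * (2 ^ (s * j) * Pe p B) := mul_le_mul_of_nonneg_left h2 hκ0
          _ ≤ κ * (2 ^ (s * n) * Pe p B) :=
              mul_le_mul_of_nonneg_left (mul_le_mul_of_nonneg_right e1 (hp B)) hκ0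
          _ = κ * 2 ^ (s * n) * Pe p B := by ring
          _ ≤ 1 * Pe p B := mul_le_mul_of_nonneg_right hκ (hp B)
          _ = _ := one_mul _)
      refine ⟨B', fun ω h => h1 ω (k1 ω h), ?_, fun ω hω l hl => ?_⟩
      · calc Pe p B₀ ≤ 2 ^ (s * j) * Pe p B := h2
          _ ≤ 2 ^ (s * j) * (2 ^ s * Pe p B') := mul_le_mul_of_nonneg_left k2 (by positivity)
          _ = _ := by rw [Nat.mul_succ, pow_add]; ring
      · rcases Nat.lt_or_ge l j with h4 | h4
        · exact h3 ω (k1 ω hω) l h4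
        · have : l = j := by omega
          subst this
          exact k3 ω hω
  exact key n le_rfl

theorem dep_pch {c : ℕ → Fin m} {l : ℕ} {k : Fin m} {Q : MvPolynomial (Option (Fin m)) ℝ}
    (h : DepC (pch c l k) l Q) : DepC c l Q := fun b b' hn hb =>
  h b b' hn fun j hj => by rw [pch_lt hj]; exact hb j hj

/-- **The label of the next coordinate** of a chain, from labels over all the prefixes. -/
theorem top_step (D r : ℕ) (hD : 1 ≤ D) : ∃ C : ℕ, ∀ K : ℕ → ℕ, ∃ c₁ : ℕ, ∀ {m J : ℕ}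
    {F : Fam m J} {c : ℕ → Fin m} {i a w e h q s : ℕ} {g P : ℕ → ℕ} {κ : ℝ} {B₀ : F.Ω → Prop}
    {G : PtT F → ℕ → MvPolynomial (Option (Fin m)) ℝ}
    {H : LnT F → ℕ → MvPolynomial (Option (Fin m)) ℝ}, i < r → Set.InjOn c (Set.Iio i) →
    0 ≤ κ → κ * 2 ^ C ≤ 1 → ChOK F c i K a w e g B₀ G H → RelvF F c i a w g D h κ B₀ G →
    (∀ l ≤ i, ∃ (e' : ℕ) (g' : ℕ → ℕ), g' l = P l ∧
      ChN F (pch c l (c i)) (l + 1) (fun _ => D) a w e' g' B₀) →
    (∀ l < i, g l ≤ P l + q ∧ g l ≤ P i + q) → (∀ j < i, ∀ l < j, e + nlp g l j ≤ s) →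
    ∃ (B : F.Ω → Prop) (Gi : PtT F → MvPolynomial (Option (Fin m)) ℝ)
      (Hi : LnT F → MvPolynomial (Option (Fin m)) ℝ), Sub B B₀ ∧ Pe F.p B₀ ≤ 2 ^ C * Pe F.p B ∧
      (∀ y, (Gi y).totalDegree ≤ D) ∧ (∀ s, (Hi s).totalDegree ≤ D) ∧ (∀ y, DepC c i (Gi y)) ∧
      (∀ s, DepC c i (Hi s)) ∧
      (∀ ω, B ω → |F.x ω (c i) - eval (bt F ω) (Gi (ptr F J ω))| ≤ 1 / 2 ^ P i) ∧
      ∀ ω, B ω → ∀ b, NBx c (G (ptr F J ω)) g a (F.t ω) i b →
        |eval b (Gi (ptr F J ω)) - eval b (Hi (slam F w ω))| ≤ 2 ^ (C * (h + 1)) / 2 ^ P i ∧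
        ∀ l < i, |eval b (pderiv (some (c l)) (Gi (ptr F J ω)))| ≤
          2 ^ (c₁ + C * (h + 1) + q + r * (s + 2)) := by
  obtain ⟨C, hmove⟩ := move_pre D r hD
  obtain ⟨C', hC'⟩ : ∃ C', C' = C + 2 + (r * (r + 1) + r) + r := ⟨_, rfl⟩
  refine ⟨C', fun K => ?_⟩
  obtain ⟨D', hD'⟩ : ∃ D', D' = ∑ i ∈ range r, ∑ j ∈ range i, D * dgp K j i := ⟨_, rfl⟩
  obtain ⟨Ct, hCt, htri⟩ := slope_tri D'
  obtain ⟨c₁, hc₁⟩ := pow_unbounded_of_one_lt Ct (one_lt_two (α := ℝ))
  refine ⟨c₁, ?_⟩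
  intro m J F c i a w e h q s g P κ B₀ G H hi hc hκ0 hκ hL hR hch hg hs
  have hD'i : ∀ j < i, D * dgp K j i ≤ D' := by
    intro j hj
    rw [hD']
    calc D * dgp K j i ≤ ∑ j ∈ range i, D * dgp K j i :=
          Finset.single_le_sum (f := fun j => D * dgp K j i) (fun _ _ => Nat.zero_le _)
            (mem_range.2 hj)
      _ ≤ _ := Finset.single_le_sum (f := fun i => ∑ j ∈ range i, D * dgp K j i)
            (fun _ _ => Nat.zero_le _) (mem_range.2 hi)
  have hch' : ∀ l : ℕ, ∃ (e' : ℕ) (g' : ℕ → ℕ) (G' : PtT F → ℕ → MvPolynomial (Option (Fin m)) ℝ)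
      (H' : LnT F → ℕ → MvPolynomial (Option (Fin m)) ℝ), l ≤ i → g' l = P l ∧
      ChOK F (pch c l (c i)) (l + 1) (fun _ => D) a w e' g' B₀ G' H' := by
    intro l
    by_cases hl : l ≤ i
    · obtain ⟨e', g', h1, G', H', h2⟩ := hch l hl
      exact ⟨e', g', G', H', fun _ => ⟨h1, h2⟩⟩
    · exact ⟨0, fun _ => 0, fun _ _ => 0, fun _ _ => 0, fun h => absurd h hl⟩
  choose e' g' G' H' hGH using hch'
  -- all the labels are two-sided on the natural boxes
  obtain ⟨B₁, k1, k2, k3⟩ := iter_ev (p := F.p) (fun A => Pe_nonneg F.isLaw A) r (i + 1)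
    (B₀ := B₀) (κ := κ * 2 ^ r)
    (Φ := fun l ω => ∀ b, NBx c (G (ptr F J ω)) g a (F.t ω) i b →
      |eval b (G' l (ptr F J ω) l) - eval b (H' l (slam F w ω) l)| ≤
        2 ^ (C * (h + 1)) / 2 ^ P l) (by positivity) (by
      refine le_trans ?_ hκ
      rw [mul_assoc, ← pow_add]
      refine mul_le_mul_of_nonneg_left (pow_le_pow_right₀ (by norm_num) ?_) hκ0
      rw [hC']
      have : r * (i + 1) ≤ r * (r + 1) := Nat.mul_le_mul_left r (by omega)
      omega) (fun l hl B' hB' hP' => by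
      obtain ⟨h1, h2⟩ := hGH l (by omega)
      obtain ⟨B, l1, l2, l3⟩ := hmove (κ' := κ * 2 ^ r) (k := c i) (show l ≤ i by omega) hi hc hR
        hB' hP' le_rfl (h2.sub hB')
      refine ⟨B, l1, ?_, fun ω hω b hb => ?_⟩
      · rw [div_le_iff₀ (by positivity)] at l2
        refine l2.trans ?_
        rw [mul_comm]
        exact mul_le_mul_of_nonneg_right (pow_le_pow_right₀ (by norm_num) (by omega))
          (Pe_nonneg F.isLaw B)
      · rw [← h1]
        exact (l3 ω hω b hb).2)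
  have hk1 : ∀ ω, B₁ ω → ∀ b, NBx c (G (ptr F J ω)) g a (F.t ω) i b → ∀ l ≤ i,
      |eval b (G' l (ptr F J ω) l) - eval b (H' l (slam F w ω) l)| ≤
        2 ^ (C * (h + 1)) / 2 ^ P l := fun ω hω b hb l hl => k3 ω hω l (by omega) b hb
  -- the labels over the prefixes are near the label
  obtain ⟨B₂, l1, l2, l3⟩ := iter_ev (p := F.p) (fun A => Pe_nonneg F.isLaw A) 1 i
    (B₀ := B₁) (κ := κ * 2 ^ (r * (r + 1)))
    (Φ := fun l ω => ∀ b, NBx c (G (ptr F J ω)) g a (F.t ω) i b →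
      |eval b (G' i (ptr F J ω) i) - eval b (G' l (ptr F J ω) l)| ≤
        2 ^ ((C + 2) * (h + 1) + q) / 2 ^ g l) (by positivity) (by
      refine le_trans ?_ hκ
      rw [mul_assoc, ← pow_add]
      refine mul_le_mul_of_nonneg_left (pow_le_pow_right₀ (by norm_num) ?_) hκ0
      rw [hC', one_mul]
      omega) (fun l hl B' hB' hP' => by
      obtain ⟨M, hM⟩ : ∃ M : ℝ, M = 2 ^ (C * (h + 1) + 1 + q) / 2 ^ g l := ⟨_, rfl⟩
      have hM0 : 0 < M := by rw [hM]; positivity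
      have hPl : ∀ x : ℕ, g l ≤ x + q → (2 : ℝ) ^ (C * (h + 1)) / 2 ^ x ≤ M / 2 := by
        intro x hx
        rw [hM, div_div, div_le_div_iff₀ (by positivity) (by positivity)]
        calc (2 : ℝ) ^ (C * (h + 1)) * (2 ^ g l * 2) = 2 ^ (C * (h + 1) + (g l + 1)) := by
              rw [pow_add, pow_succ]
          _ ≤ 2 ^ (C * (h + 1) + 1 + q + x) := pow_le_pow_right₀ (by norm_num) (by omega)
          _ = _ := by rw [pow_add]
      have hone : ∀ x : ℕ, (1 : ℝ) / 2 ^ x ≤ 2 ^ (C * (h + 1)) / 2 ^ x := fun x =>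
        div_le_div_of_nonneg_right (one_le_pow₀ (by norm_num)) (by positivity)
      obtain ⟨q1, q2⟩ := hg l hl
      obtain ⟨h1, h2⟩ := hGH l (by omega)
      obtain ⟨h3, h4⟩ := hGH i le_rfl
      obtain ⟨B'', n1, n2, n3⟩ := hR B' (fun ω h => k1 ω (hB' ω h)) (by
          have e1 : κ * Pe F.p B₀ ≤ κ * (2 ^ (r * (i + 1)) * Pe F.p B₁) :=
            mul_le_mul_of_nonneg_left k2 hκ0
          have e2 : κ * (2 ^ (r * (i + 1)) * Pe F.p B₁) ≤
              κ * 2 ^ (r * (r + 1)) * Pe F.p B₁ := by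
            rw [← mul_assoc]
            refine mul_le_mul_of_nonneg_right (mul_le_mul_of_nonneg_left ?_ hκ0)
              (Pe_nonneg F.isLaw B₁)
            exact pow_le_pow_right₀ (by norm_num) (Nat.mul_le_mul_left r (by omega))
          exact e1.trans (e2.trans hP'))
        (fun y => G' i y i - G' l y l) (fun s => H' i s i - H' l s l) M
        (fun y => (totalDegree_sub _ _).trans (max_le (h4.degG y i) (h2.degG y l)))
        (fun s => (totalDegree_sub _ _).trans (max_le (h4.degH s i) (h2.degH s l)))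
        (fun y b b' hn hb => by
          rw [map_sub, map_sub, dep_pch (h4.depG y i) b b' hn hb,
            dep_pch (h2.depG y l) b b' hn fun j hj => hb j (by omega)])
        (fun s b b' hn hb => by
          rw [map_sub, map_sub, dep_pch (h4.depH s i) b b' hn hb,
            dep_pch (h2.depH s l) b b' hn fun j hj => hb j (by omega)]) hM0
        (fun ω hω => by
          have hω0 : B₀ ω := k1 ω (hB' ω hω)
          have a1 := h4.pos ω hω0 i (by omega)
          have a2 := h2.pos ω hω0 l (by omega)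
          rw [pch_self, h3] at a1
          rw [pch_self, h1] at a2
          have a3 := a1.trans ((hone (P i)).trans (hPl (P i) q2))
          have a4 := a2.trans ((hone (P l)).trans (hPl (P l) q1))
          rw [map_sub]
          rw [abs_le] at a3 a4 ⊢
          constructor <;> linarith only [a3.1, a3.2, a4.1, a4.2])
        (fun ω hω b hb => by
          have a1 := (hk1 ω (hB' ω hω) b hb i le_rfl).trans (hPl (P i) q2)
          have a2 := (hk1 ω (hB' ω hω) b hb l (by omega)).trans (hPl (P l) q1)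
          rw [map_sub, map_sub]
          rw [abs_le] at a1 a2 ⊢
          constructor <;> linarith only [a1.1, a1.2, a2.1, a2.2])
      refine ⟨B'', n1, ?_, fun ω hω b hb => ?_⟩
      · rw [pow_one]
        linarith
      · have a1 := n3 ω hω b hb
        rw [map_sub] at a1
        refine a1.trans ?_
        rw [hM, ← mul_div_assoc, ← pow_add]
        refine div_le_div_of_nonneg_right (pow_le_pow_right₀ (by norm_num) ?_) (by positivity)
        have : (C + 2) * (h + 1) = C * (h + 1) + 2 * (h + 1) := by ring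
        omega)
  obtain ⟨h3, h4⟩ := hGH i le_rfl
  refine ⟨B₂, fun y => G' i y i, fun s => H' i s i, fun ω h => k1 ω (l1 ω h), ?_,
    fun y => h4.degG y i, fun s => h4.degH s i, fun y => dep_pch (h4.depG y i),
    fun s => dep_pch (h4.depH s i), fun ω hω => ?_, fun ω hω b hb => ⟨?_, fun l hl => ?_⟩⟩
  · calc Pe F.p B₀ ≤ 2 ^ (r * (i + 1)) * Pe F.p B₁ := k2
      _ ≤ 2 ^ (r * (i + 1)) * (2 ^ (1 * i) * Pe F.p B₂) :=
          mul_le_mul_of_nonneg_left l2 (by positivity)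
      _ = 2 ^ (r * (i + 1) + i) * Pe F.p B₂ := by rw [one_mul, pow_add]; ring
      _ ≤ _ := by
          refine mul_le_mul_of_nonneg_right (pow_le_pow_right₀ (by norm_num) ?_)
            (Pe_nonneg F.isLaw B₂)
          rw [hC']
          have : r * (i + 1) ≤ r * (r + 1) := Nat.mul_le_mul_left r (by omega)
          omega
  · have a1 := h4.pos ω (k1 ω (l1 ω hω)) i (by omega)
    rw [pch_self, h3] at a1
    exact a1
  · refine (hk1 ω (l1 ω hω) b hb i le_rfl).trans (div_le_div_of_nonneg_right ?_ (by positivity))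
    refine pow_le_pow_right₀ (by norm_num) (Nat.mul_le_mul_right _ ?_)
    rw [hC']
    omega
  · have hω0 : B₀ ω := k1 ω (l1 ω hω)
    have a1 := htri (D₀ := D) (Q := G' i (ptr F J ω) i) (Qs := fun j => G' j (ptr F J ω) j)
      (M := 2 ^ ((C + 2) * (h + 1) + q)) (S := 2 ^ s) (b := b) hc (hL.degG _) (hL.depG _)
      (dep_pch (h4.depG _ i)) (fun j hj => dep_pch ((hGH j (by omega)).2.depG _ j))
      (h4.degG _ i) (fun j hj => (hGH j (by omega)).2.degG _ j) hD'i (by positivity)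
      (by positivity) hb (fun j hj l' hl' => by
        have a2 := hL.lip ω hω0 j hj b (hb.mono le_rfl hj.le) l' hl'
        exact a2.trans (pow_le_pow_right₀ (by norm_num) (hs j hj l' hl')))
      (fun j hj b' hb' => l3 ω hω j hj b' hb') l hl
    refine a1.trans ?_
    have a3 : (2 * (1 + 2 ^ s) : ℝ) ^ (i - 1 - l) ≤ 2 ^ (r * (s + 2)) := by
      have a4 : (2 * (1 + 2 ^ s) : ℝ) ≤ 2 ^ (s + 2) := by
        rw [pow_add]
        have : (1 : ℝ) ≤ 2 ^ s := one_le_pow₀ (by norm_num)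
        linarith
      calc (2 * (1 + 2 ^ s) : ℝ) ^ (i - 1 - l) ≤ (2 ^ (s + 2)) ^ (i - 1 - l) :=
            pow_le_pow_left₀ (by positivity) a4 _
        _ = 2 ^ ((i - 1 - l) * (s + 2)) := by rw [← pow_mul, mul_comm]
        _ ≤ _ := pow_le_pow_right₀ (by norm_num) (Nat.mul_le_mul_right _ (by omega))
    calc Ct * 2 ^ ((C + 2) * (h + 1) + q) * (2 * (1 + 2 ^ s)) ^ (i - 1 - l) ≤
          2 ^ c₁ * 2 ^ ((C + 2) * (h + 1) + q) * 2 ^ (r * (s + 2)) := by
          refine mul_le_mul (mul_le_mul_of_nonneg_right hc₁.le (by positivity)) a3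
            (by positivity) (by positivity)
      _ = 2 ^ (c₁ + ((C + 2) * (h + 1) + q) + r * (s + 2)) := by
          rw [← pow_add, ← pow_add]
      _ ≤ _ := by
          refine pow_le_pow_right₀ (by norm_num) ?_
          have : (C + 2) * (h + 1) ≤ C' * (h + 1) := Nat.mul_le_mul_right _ (by rw [hC']; omega)
          omega

/-- **Two-sided labels on a finer box** of another chain. -/
theorem cross_two (r : ℕ) (K : ℕ → ℕ) : ∃ c₀ : ℕ, ∀ {m J : ℕ} {F : Fam m J} {c : ℕ → Fin m}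
    {i a a' w e : ℕ} {g g' δ : ℕ → ℕ} {B : F.Ω → Prop}
    {G G' : PtT F → ℕ → MvPolynomial (Option (Fin m)) ℝ}
    {H : LnT F → ℕ → MvPolynomial (Option (Fin m)) ℝ} {ω : F.Ω} {b : Option (Fin m) → ℝ},
    i < r → Set.InjOn c (Set.Iio i) → ChOK F c (i + 1) K a w e g B G H → a ≤ a' →
    (∀ l < i, g l ≤ g' l) → (∀ l < i, δ l + 1 ≤ g l) → B ω →
    NBx c (G' (ptr F J ω)) g' a' (F.t ω) i b →
    (∀ l < i, |eval b (G' (ptr F J ω) l) - eval b (G (ptr F J ω) l)| ≤ 2 ^ δ l / 2 ^ g l) →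
    |eval b (G (ptr F J ω) i) - eval b (H (slam F w ω) i)| ≤
      2 ^ (c₀ + ∑ l ∈ range i, (δ l + 1) * (K i * dgp K l i)) / 2 ^ g i := by
  obtain ⟨D, hD⟩ : ∃ D, D = ∑ i ∈ range r, ∑ j ∈ range i, K i * dgp K j i := ⟨_, rfl⟩
  obtain ⟨C, hC, h⟩ := nbx_grow D r
  obtain ⟨c₀, hc₀⟩ := pow_unbounded_of_one_lt C (one_lt_two (α := ℝ))
  refine ⟨c₀, ?_⟩
  intro m J F c i a a' w e g g' δ B G G' H ω b hi hc hL ha hg hδ hω hb hGG
  have hDi : ∀ j < i, K i * dgp K j i ≤ D := by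
    intro j hj
    rw [hD]
    calc K i * dgp K j i ≤ ∑ j ∈ range i, K i * dgp K j i :=
          Finset.single_le_sum (f := fun j => K i * dgp K j i) (fun _ _ => Nat.zero_le _)
            (mem_range.2 hj)
      _ ≤ _ := Finset.single_le_sum (f := fun i => ∑ j ∈ range i, K i * dgp K j i)
            (fun _ _ => Nat.zero_le _) (mem_range.2 hi)
  have h1 := h (K := K) (G := G (ptr F J ω)) (Q := G (ptr F J ω) i - H (slam F w ω) i) (g := g)
    (g' := fun l => g l - (δ l + 1)) (a := a) (t := F.t ω) (M := 1 / 2 ^ g i) (D₀ := K i) hi.le hc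
    (hL.degG _) (hL.depG _) (fun y y' hn hy => by
      rw [map_sub, map_sub, hL.depG _ i y y' hn hy, hL.depH _ i y y' hn hy])
    ((totalDegree_sub _ _).trans (max_le (hL.degG _ i) (hL.degH _ i))) hDi
    (fun j _ => Nat.sub_le _ _) (fun b hb => by rw [map_sub]; exact hL.agr ω hω i (by omega) b hb)
    b ⟨hb.1.trans (inv_mono ha), fun l hl => by
      have h2 := hb.2 l hl
      have h3 := hGG l hl
      have h4 : (1 : ℝ) / 2 ^ g' l ≤ 2 ^ δ l / 2 ^ g l :=
        (inv_mono (hg l hl)).trans (div_le_div_of_nonneg_right (one_le_pow₀ (by norm_num))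
          (by positivity))
      have h5 : (1 : ℝ) / 2 ^ (g l - (δ l + 1)) = 2 ^ δ l / 2 ^ g l + 2 ^ δ l / 2 ^ g l := by
        have h6 : (2 : ℝ) ^ g l = 2 ^ (g l - (δ l + 1)) * (2 ^ δ l * 2) := by
          rw [← pow_succ, ← pow_add]
          congr 1
          have := hδ l hl
          omega
        rw [h6]
        field_simp
        norm_num
      show |b (some (c l)) - eval b (G (ptr F J ω) l)| ≤ 1 / 2 ^ (g l - (δ l + 1))
      rw [h5]
      have h6 := h2.trans h4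
      rw [abs_le] at h6 h3 ⊢
      constructor <;> linarith only [h6.1, h6.2, h3.1, h3.2]⟩
  rw [map_sub] at h1
  refine h1.trans ?_
  rw [mul_one_div]
  refine div_le_div_of_nonneg_right ?_ (by positivity)
  rw [pow_add]
  refine mul_le_mul hc₀.le (pow_le_pow_right₀ (by norm_num) ?_) (by positivity) (by positivity)
  refine Finset.sum_le_sum fun l _ => Nat.mul_le_mul_right _ ?_
  omega

end Pool.CHT
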