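import Pool.Agent.H2.GEN.AttF2
import Pool.Agent.H2.GEN.ChT

/-!
# Chains on several natural boxes

`MCh`: chains of the same coordinates at several radii and windows, on one event, which are near
each other on the finer natural boxes. `fam_step`: one more coordinate.
-/

set_option autoImplicit false

namespace Pool.CHT

open Finset Real MvPolynomial
open Pool.Agent.H49.Ent Pool.Agent.H32.Dense Pool.STK Pool.KA Pool.KSAT Pool.K2S Pool.PB Pool.S6C
open Pool.GEN

variable {m J : ℕ}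

/-- Finitely many passages to large parts of an event, with choices. -/
theorem iter_ex {Ω τ : Type} [Fintype Ω] [Nonempty τ] {p : Ω → ℝ}
    (hp : ∀ A : Ω → Prop, 0 ≤ Pe p A) (s n : ℕ) {B₀ : Ω → Prop}
    {Ψ : ℕ → τ → (Ω → Prop) → Prop} (hΨ : ∀ l x B B', Sub B' B → Ψ l x B → Ψ l x B') {κ : ℝ}
    (hκ0 : 0 ≤ κ) (hκ : κ * 2 ^ (s * n) ≤ 1)
    (h : ∀ l < n, ∀ B' : Ω → Prop, Sub B' B₀ → κ * Pe p B₀ ≤ Pe p B' →
      ∃ B'' : Ω → Prop, Sub B'' B' ∧ Pe p B' ≤ 2 ^ s * Pe p B'' ∧ ∃ x, Ψ l x B'') :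
    ∃ B : Ω → Prop, Sub B B₀ ∧ Pe p B₀ ≤ 2 ^ (s * n) * Pe p B ∧
      ∃ x : ℕ → τ, ∀ l < n, Ψ l (x l) B := by
  classical
  have key : ∀ j ≤ n, ∃ B : Ω → Prop, Sub B B₀ ∧ Pe p B₀ ≤ 2 ^ (s * j) * Pe p B ∧
      ∃ x : ℕ → τ, ∀ l < j, Ψ l (x l) B := by
    intro j
    induction j with
    | zero => exact fun _ => ⟨B₀, fun _ h => h, by simp, fun _ => Classical.arbitrary τ,
        fun l hl => absurd hl (by omega)⟩
    | succ j ih =>
      intro hj
      obtain ⟨B, h1, h2, x, h3⟩ := ih (by omega)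
      obtain ⟨B', k1, k2, y, k3⟩ := h j (by omega) B h1 (by
        have e1 : (2 : ℝ) ^ (s * j) ≤ 2 ^ (s * n) :=
          pow_le_pow_right₀ (by norm_num) (Nat.mul_le_mul_left s (by omega))
        calc κ * Pe p B₀ ≤ κ * (2 ^ (s * j) * Pe p B) := mul_le_mul_of_nonneg_left h2 hκ0
          _ ≤ κ * (2 ^ (s * n) * Pe p B) :=
              mul_le_mul_of_nonneg_left (mul_le_mul_of_nonneg_right e1 (hp B)) hκ0
          _ = κ * 2 ^ (s * n) * Pe p B := by ring
          _ ≤ 1 * Pe p B := mul_le_mul_of_nonneg_right hκ (hp B)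
          _ = _ := one_mul _)
      refine ⟨B', fun ω h => h1 ω (k1 ω h), ?_, fun l => if l = j then y else x l,
        fun l hl => ?_⟩
      · calc Pe p B₀ ≤ 2 ^ (s * j) * Pe p B := h2
          _ ≤ 2 ^ (s * j) * (2 ^ s * Pe p B') := mul_le_mul_of_nonneg_left k2 (by positivity)
          _ = _ := by rw [Nat.mul_succ, pow_add]; ring
      · show Ψ l (if l = j then y else x l) B'
        rcases Nat.lt_or_ge l j with h4 | h4
        · rw [if_neg (by omega)]
          exact hΨ l _ B B' k1 (h3 l h4)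
        · have : l = j := by omega
          subst this
          rw [if_pos rfl]
          exact k3
  exact key n le_rfl

theorem nbx_congr {c : ℕ → Fin m} {G G' : ℕ → MvPolynomial (Option (Fin m)) ℝ} {g : ℕ → ℕ} {a : ℕ}
    {t : ℝ} {i : ℕ} {b : Option (Fin m) → ℝ} (h : ∀ l < i, G l = G' l)
    (hb : NBx c G g a t i b) : NBx c G' g a t i b :=
  ⟨hb.1, fun l hl => by rw [← h l hl]; exact hb.2 l hl⟩

/-- The position of the sample is near the position of its line at time zero. -/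
theorem near_ini (F : Fam m J) (i : Fin m) (ω : F.Ω) : |F.x ω i - F.u ω i| ≤ 1 := by
  have h1 : F.x ω i - F.u ω i = F.t ω * F.d ω i := by
    unfold Fam.x
    ring
  have h2 : |F.t ω| ≤ 1 := by
    have h3 : (F.T ω : ℝ) ≤ 2 ^ J := by
      have := (F.tim ω).le
      exact_mod_cast this
    unfold Fam.t
    rw [abs_of_nonneg (by positivity), div_le_one (by positivity)]
    exact h3
  rw [h1, abs_mul]
  calc |F.t ω| * |F.d ω i| ≤ 1 * 1 := mul_le_mul h2 (F.dir ω i) (abs_nonneg _) zero_le_one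
    _ = 1 := one_mul _

/-- **Chains on several natural boxes**: the box of `k'` is finer than the box of `k`, if
`R k k'`. -/
structure MCh (F : Fam m J) (c : ℕ → Fin m) (i : ℕ) (K : ℕ → ℕ) (N : ℕ) (R : ℕ → ℕ → Prop)
    (a w : ℕ → ℕ) (e : ℕ) (g : ℕ → ℕ → ℕ) (δ : ℕ → ℕ) (B : F.Ω → Prop)
    (G : ℕ → PtT F → ℕ → MvPolynomial (Option (Fin m)) ℝ)
    (H : ℕ → LnT F → ℕ → MvPolynomial (Option (Fin m)) ℝ) : Prop where
  ok : ∀ k < N, ChOK F c i K (a k) (w k) e (g k) B (G k) (H k)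
  uni : ∀ k' < N, ∀ k < N, R k k' → ∀ l < i, ∀ ω, B ω → ∀ b,
    NBx c (G k' (ptr F J ω)) (g k') (a k') (F.t ω) l b →
    |eval b (G k' (ptr F J ω) l) - eval b (G k (ptr F J ω) l)| ≤ 2 ^ δ l / 2 ^ g k l
  two : ∀ k' < N, ∀ k < N, R k k' → ∀ l < i, ∀ ω, B ω → ∀ b,
    NBx c (G k' (ptr F J ω)) (g k') (a k') (F.t ω) l b →
    |eval b (G k (ptr F J ω) l) - eval b (H k (slam F (w k) ω) l)| ≤ 2 ^ δ l / 2 ^ g k l
  siz : ∀ k < N, ∀ l < i, ∀ ω, B ω → ∀ b,
    NBx c (G k (ptr F J ω)) (g k) (a k) (F.t ω) l b →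
    |eval b (G k (ptr F J ω) l) - F.x ω (c l)| ≤ 2 ^ δ l

theorem MCh.sub {F : Fam m J} {c : ℕ → Fin m} {i : ℕ} {K : ℕ → ℕ} {N : ℕ} {R : ℕ → ℕ → Prop}
    {a w : ℕ → ℕ} {e : ℕ} {g : ℕ → ℕ → ℕ} {δ : ℕ → ℕ} {B B' : F.Ω → Prop}
    {G : ℕ → PtT F → ℕ → MvPolynomial (Option (Fin m)) ℝ}
    {H : ℕ → LnT F → ℕ → MvPolynomial (Option (Fin m)) ℝ} (h : MCh F c i K N R a w e g δ B G H)
    (hB : Sub B' B) : MCh F c i K N R a w e g δ B' G H where
  ok k hk := (h.ok k hk).sub hB
  uni k' hk' k hk hR l hl ω hω := h.uni k' hk' k hk hR l hl ω (hB ω hω)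
  two k' hk' k hk hR l hl ω hω := h.two k' hk' k hk hR l hl ω (hB ω hω)
  siz k hk l hl ω hω := h.siz k hk l hl ω (hB ω hω)

/-- The label of a line and of a larger window. -/
theorem slam_coarse' (F : Fam m J) {w w' : ℕ} (hw : w ≤ w') (hw' : w' ≤ J) (ω : F.Ω) :
    ((slam F w' ω).1, (slam F w' ω).2.1, (slam F w' ω).2.2 / 2 ^ (w' - w)) = slam F w ω :=
  (slam_coarse F hw hw' ω).symm

/-- **One more coordinate** on several natural boxes. -/
theorem fam_step (D r N : ℕ) (hD : 1 ≤ D) : ∃ C : ℕ, ∀ (i : ℕ) (K : ℕ → ℕ), i < r → K i = D →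
    ∃ c₁ : ℕ, ∀ {m J : ℕ} {F : Fam m J} {c : ℕ → Fin m} {R : ℕ → ℕ → Prop} {a w : ℕ → ℕ}
    {e e' h q s : ℕ}
    {g P : ℕ → ℕ → ℕ} {δ : ℕ → ℕ} {κ : ℝ} {B₀ : F.Ω → Prop}
    {G : ℕ → PtT F → ℕ → MvPolynomial (Option (Fin m)) ℝ}
    {H : ℕ → LnT F → ℕ → MvPolynomial (Option (Fin m)) ℝ},
    Set.InjOn c (Set.Iio i) → 0 ≤ κ → κ * 2 ^ C ≤ 1 → MCh F c i K N R a w e g δ B₀ G H →
    (∀ k < N, RelvF F c i (a k) (w k) (g k) D h κ B₀ (G k)) →
    (∀ k < N, ∀ l ≤ i, ∃ (e' : ℕ) (g' : ℕ → ℕ), g' l = P k l ∧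
      ChN F (pch c l (c i)) (l + 1) (fun _ => D) (a k) (w k) e' g' B₀) →
    (∀ k < N, ∀ l < i, g k l ≤ P k l + q ∧ g k l ≤ P k i + q) →
    (∀ k < N, ∀ j < i, ∀ l < j, e + nlp (g k) l j ≤ s) →
    c₁ + C * (h + 1) + q + r * (s + 2) ≤ e' → e ≤ e' →
    (∀ k < N, g k i + C * (h + 1) ≤ P k i) →
    (∀ k' < N, ∀ k < N, R k k' → a k ≤ a k' ∧ w k ≤ w k' ∧ w k' ≤ J ∧
      ∀ l ≤ i, g k l ≤ g k' l) →
    (∀ k < N, ∀ l < i, δ l + 1 ≤ g k l) →
    c₁ + h + ∑ l ∈ range i, (δ l + 1) * (D * dgp K l i) ≤ δ i →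
    ∃ (B : F.Ω → Prop) (G' : ℕ → PtT F → ℕ → MvPolynomial (Option (Fin m)) ℝ)
      (H' : ℕ → LnT F → ℕ → MvPolynomial (Option (Fin m)) ℝ), Sub B B₀ ∧
      Pe F.p B₀ ≤ 2 ^ C * Pe F.p B ∧ MCh F c (i + 1) K N R a w e' g δ B G' H' := by
  classical
  obtain ⟨Ct, htop⟩ := top_step D r hD
  obtain ⟨C, hC⟩ : ∃ C, C = Ct + Ct * N + N * N + N := ⟨_, rfl⟩
  refine ⟨C, fun i K hi hKi => ?_⟩
  obtain ⟨c₁, htop⟩ := htop K
  obtain ⟨c₂, hcr⟩ := cross_two r K
  refine ⟨c₁ + c₂ + 3, ?_⟩
  intro m J F c R a w e e' h q s g P δ κ B₀ G H hc hκ0 hκ hM hR hch hg hs he he' hgP hmon hδ hδi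
  have hpos : ∀ A : F.Ω → Prop, 0 ≤ Pe F.p A := fun A => Pe_nonneg F.isLaw A
  -- the new labels
  obtain ⟨B₁, k1, k2, x, k3⟩ := iter_ex (p := F.p)
    (τ := (PtT F → MvPolynomial (Option (Fin m)) ℝ) × (LnT F → MvPolynomial (Option (Fin m)) ℝ))
    hpos Ct N (B₀ := B₀) (κ := κ * 2 ^ Ct)
    (Ψ := fun k x B => (∀ y, (x.1 y).totalDegree ≤ D) ∧ (∀ s, (x.2 s).totalDegree ≤ D) ∧
      (∀ y, DepC c i (x.1 y)) ∧ (∀ s, DepC c i (x.2 s)) ∧
      (∀ ω, B ω → |F.x ω (c i) - eval (bt F ω) (x.1 (ptr F J ω))| ≤ 1 / 2 ^ P k i) ∧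
      ∀ ω, B ω → ∀ b, NBx c (G k (ptr F J ω)) (g k) (a k) (F.t ω) i b →
        |eval b (x.1 (ptr F J ω)) - eval b (x.2 (slam F (w k) ω))| ≤
          2 ^ (Ct * (h + 1)) / 2 ^ P k i ∧
        ∀ l < i, |eval b (pderiv (some (c l)) (x.1 (ptr F J ω)))| ≤
          2 ^ (c₁ + Ct * (h + 1) + q + r * (s + 2)))
    (fun l x B B' hB h => ⟨h.1, h.2.1, h.2.2.1, h.2.2.2.1,
      fun ω hω => h.2.2.2.2.1 ω (hB ω hω), fun ω hω => h.2.2.2.2.2 ω (hB ω hω)⟩)
    (by positivity) (by
      refine le_trans ?_ hκ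
      rw [mul_assoc, ← pow_add]
      refine mul_le_mul_of_nonneg_left (pow_le_pow_right₀ (by norm_num) ?_) hκ0
      rw [hC]
      omega)
    (fun k hk B' hB' hP' => by
      obtain ⟨B, Gi, Hi, l1, l2, l3, l4, l5, l6, l7, l8⟩ := htop (h := h) (q := q) (s := s)
        (κ := 1 / 2 ^ Ct) (P := P k) (B₀ := B') (c := c) hi hc (by positivity) (by
          rw [one_div_mul_cancel (by positivity)]) ((hM.ok k hk).sub hB')
        ((hR k hk).sub hB' hP' (by positivity) (le_of_eq (by field_simp))) (fun l hl => by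
          obtain ⟨e', g', h1, h2⟩ := hch k hk l hl
          exact ⟨e', g', h1, ChN.hered F _ _ _ _ _ _ _ B₀ B' hB' h2⟩) (hg k hk) (hs k hk)
      exact ⟨B, l1, l2, (Gi, Hi), l3, l4, l5, l6, l7, l8⟩)
  -- the chains
  obtain ⟨G', hG'⟩ : ∃ G' : ℕ → PtT F → ℕ → MvPolynomial (Option (Fin m)) ℝ, G' = fun k y l =>
      if l < i then G k y l else if l = i then (x k).1 y else 0 := ⟨_, rfl⟩
  obtain ⟨H', hH'⟩ : ∃ H' : ℕ → LnT F → ℕ → MvPolynomial (Option (Fin m)) ℝ, H' = fun k y l =>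
      if l < i then H k y l else if l = i then (x k).2 y else 0 := ⟨_, rfl⟩
  have gl : ∀ k y, ∀ l < i, G' k y l = G k y l := fun k y l hl => by
    rw [hG']; exact if_pos hl
  have gi : ∀ k y, G' k y i = (x k).1 y := fun k y => by
    rw [hG']
    show (if i < i then G k y i else if i = i then (x k).1 y else 0) = _
    rw [if_neg (lt_irrefl i), if_pos rfl]
  have gg : ∀ k y l, i < l → G' k y l = 0 := fun k y l hl => by
    rw [hG']
    show (if l < i then G k y l else if l = i then (x k).1 y else 0) = _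
    rw [if_neg (by omega), if_neg (by omega)]
  have hl' : ∀ k y, ∀ l < i, H' k y l = H k y l := fun k y l hl => by
    rw [hH']; exact if_pos hl
  have hi' : ∀ k y, H' k y i = (x k).2 y := fun k y => by
    rw [hH']
    show (if i < i then H k y i else if i = i then (x k).2 y else 0) = _
    rw [if_neg (lt_irrefl i), if_pos rfl]
  have hg' : ∀ k y l, i < l → H' k y l = 0 := fun k y l hl => by
    rw [hH']
    show (if l < i then H k y l else if l = i then (x k).2 y else 0) = _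
    rw [if_neg (by omega), if_neg (by omega)]
  have bxG : ∀ k y t l b, l ≤ i → NBx c (G' k y) (g k) (a k) t l b →
      NBx c (G k y) (g k) (a k) t l b := fun k y t l b hl hb =>
    nbx_congr (fun j hj => gl k y j (by omega)) hb
  have hCt : Ct * (h + 1) ≤ C * (h + 1) := Nat.mul_le_mul_right _ (by rw [hC]; omega)
  have okk : ∀ k < N, ChOK F c (i + 1) K (a k) (w k) e' (g k) B₁ (G' k) (H' k) := by
    intro k hk
    obtain ⟨x1, x2, x3, x4, x5, x6⟩ := k3 k hk
    have ho := (hM.ok k hk).sub k1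
    have hgk := hgP k hk
    refine ⟨fun y l => ?_, fun s l => ?_, fun y l => ?_, fun s l => ?_, fun ω hω l hl => ?_,
      fun ω hω l hl b hb => ?_, fun ω hω l hl b hb j hj => ?_⟩
    · rcases lt_trichotomy l i with h1 | h1 | h1
      · rw [gl k y l h1]; exact ho.degG y l
      · subst h1; rw [gi, hKi]; exact x1 y
      · rw [gg k y l h1, totalDegree_zero]; exact Nat.zero_le _
    · rcases lt_trichotomy l i with h1 | h1 | h1
      · rw [hl' k s l h1]; exact ho.degH s l
      · subst h1; rw [hi', hKi]; exact x2 s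
      · rw [hg' k s l h1, totalDegree_zero]; exact Nat.zero_le _
    · rcases lt_trichotomy l i with h1 | h1 | h1
      · rw [gl k y l h1]; exact ho.depG y l
      · subst h1; rw [gi]; exact x3 y
      · rw [gg k y l h1]
        intro b b' _ _
        rw [map_zero, map_zero]
    · rcases lt_trichotomy l i with h1 | h1 | h1
      · rw [hl' k s l h1]; exact ho.depH s l
      · subst h1; rw [hi']; exact x4 s
      · rw [hg' k s l h1]
        intro b b' _ _
        rw [map_zero, map_zero]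
    · rcases Nat.lt_or_ge l i with h1 | h1
      · rw [gl k _ l h1]; exact ho.pos ω hω l h1
      · have : l = i := by omega
        subst this
        rw [gi]
        exact (x5 ω hω).trans (inv_mono (by omega))
    · rcases Nat.lt_or_ge l i with h1 | h1
      · rw [gl k _ l h1, hl' k _ l h1]
        exact ho.agr ω hω l h1 b (bxG k _ _ l b h1.le hb)
      · have : l = i := by omega
        subst this
        rw [gi, hi']
        refine (x6 ω hω b (bxG k _ _ l b le_rfl hb)).1.trans ?_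
        rw [div_le_div_iff₀ (by positivity) (by positivity), one_mul, ← pow_add]
        exact pow_le_pow_right₀ (by norm_num) (by omega)
    · rcases Nat.lt_or_ge l i with h1 | h1
      · rw [gl k _ l h1]
        exact (ho.lip ω hω l h1 b (bxG k _ _ l b h1.le hb) j hj).trans
          (pow_le_pow_right₀ (by norm_num) (Nat.add_le_add_right he' _))
      · have : l = i := by omega
        subst this
        rw [gi]
        refine ((x6 ω hω b (bxG k _ _ l b le_rfl hb)).2 j hj).trans ?_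
        exact pow_le_pow_right₀ (by norm_num) (by omega)
  -- the coarse labels on the fine boxes
  obtain ⟨T, hT⟩ : ∃ T, T = c₂ + ∑ l ∈ range i, (δ l + 1) * (D * dgp K l i) := ⟨_, rfl⟩
  have two' : ∀ k' < N, ∀ k < N, R k k' → ∀ ω, B₁ ω → ∀ b,
      NBx c (G' k' (ptr F J ω)) (g k') (a k') (F.t ω) i b →
      |eval b (G' k (ptr F J ω) i) - eval b (H' k (slam F (w k) ω) i)| ≤ 2 ^ T / 2 ^ g k i := by
    intro k' hk' k hk hkR ω hω b hb
    obtain ⟨m1, m2, m3, m4⟩ := hmon k' hk' k hk hkR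
    have h1 := hcr (ω := ω) (b := b) (δ := δ) (g' := g k') (G' := G' k') (a' := a k') hi hc
      (okk k hk) m1 (fun l hl => m4 l hl.le) (hδ k hk) hω hb
      (fun l hl => by
        rw [gl k' _ l hl, gl k _ l hl]
        exact hM.uni k' hk' k hk hkR l hl ω (k1 ω hω) b
          (nbx_congr (fun j hj => gl k' _ j (by omega)) (hb.mono le_rfl hl.le)))
    rw [hKi] at h1
    rw [hT]
    exact h1
  have hB1 : ∀ κ' : ℝ, 0 ≤ κ' → ∀ B' : F.Ω → Prop, κ * 2 ^ (Ct * N) * κ' * Pe F.p B₁ ≤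
      κ' * Pe F.p B' → κ * Pe F.p B₀ * κ' ≤ κ' * Pe F.p B' := by
    intro κ' hκ' B' h1
    refine le_trans ?_ h1
    calc κ * Pe F.p B₀ * κ' ≤ κ * (2 ^ (Ct * N) * Pe F.p B₁) * κ' :=
          mul_le_mul_of_nonneg_right (mul_le_mul_of_nonneg_left k2 hκ0) hκ'
      _ = _ := by ring
  -- the differences of the labels
  obtain ⟨B₂, l1, l2, l3⟩ := iter_ev (p := F.p) hpos 1 (N * N) (B₀ := B₁)
    (κ := κ * 2 ^ (Ct * N))
    (Φ := fun n ω => R (n / N) (n % N) → ∀ b,
      NBx c (G' (n % N) (ptr F J ω)) (g (n % N)) (a (n % N)) (F.t ω) i b →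
      |eval b (G' (n % N) (ptr F J ω) i) - eval b (G' (n / N) (ptr F J ω) i)| ≤
        2 ^ (h + T + 2) / 2 ^ g (n / N) i) (by positivity) (by
      refine le_trans ?_ hκ
      rw [mul_assoc, ← pow_add]
      refine mul_le_mul_of_nonneg_left (pow_le_pow_right₀ (by norm_num) ?_) hκ0
      rw [hC, one_mul]
      omega) (fun n hn B' hB' hP' => by
      have hN0 : 0 < N := by
        rcases Nat.eq_zero_or_pos N with h0 | h0
        · subst h0; omega
        · exact h0
      obtain ⟨k, hk⟩ : ∃ k, k = n / N := ⟨_, rfl⟩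
      obtain ⟨k', hk'⟩ : ∃ k', k' = n % N := ⟨_, rfl⟩
      have hk'N : k' < N := by rw [hk']; exact Nat.mod_lt _ hN0
      have hkN : k < N := by
        rw [hk, Nat.div_lt_iff_lt_mul hN0]
        exact hn
      rw [← hk, ← hk']
      by_cases hkk : R k k'
      swap
      · exact ⟨B', fun _ h => h, by
          have := hpos B'
          rw [pow_one]
          linarith, fun ω _ h => absurd h hkk⟩
      obtain ⟨m1, m2, m3, m4⟩ := hmon k' hk'N k hkN hkk
      obtain ⟨x1, x2, x3, x4, x5, x6⟩ := k3 k' hk'N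
      obtain ⟨y1, y2, y3, y4, y5, y6⟩ := k3 k hkN
      obtain ⟨M, hM'⟩ : ∃ M : ℝ, M = 2 ^ (T + 1) / 2 ^ g k i := ⟨_, rfl⟩
      have hM0 : 0 < M := by rw [hM']; positivity
      have hMo : (1 : ℝ) / 2 ^ g k i ≤ M / 2 := by
        rw [hM', pow_succ, div_div, div_le_div_iff₀ (by positivity) (by positivity)]
        have : (1 : ℝ) ≤ 2 ^ T := one_le_pow₀ (by norm_num)
        have h3 : (0 : ℝ) < 2 ^ g k i := by positivity
        nlinarith
      have hMt : (2 : ℝ) ^ T / 2 ^ g k i ≤ M / 2 := by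
        rw [hM', pow_succ, div_div, div_le_div_iff₀ (by positivity) (by positivity)]
        exact le_of_eq (by ring)
      have hgg : (1 : ℝ) / 2 ^ g k' i ≤ M / 2 := (inv_mono (m4 i le_rfl)).trans hMo
      have hok := okk k' hk'N
      have hok2 := okk k hkN
      obtain ⟨B'', n1, n2, n3⟩ := hR k' hk'N B' (fun ω h => k1 ω (hB' ω h)) (by
          have := hB1 1 zero_le_one B' (by rw [mul_one, one_mul]; exact hP')
          rw [mul_one, one_mul] at this
          exact this)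
        (fun y => G' k' y i - G' k y i)
        (fun s => H' k' s i - H' k (s.1, s.2.1, s.2.2 / 2 ^ (w k' - w k)) i) M
        (fun y => (totalDegree_sub _ _).trans (max_le (by rw [gi]; exact x1 y)
          (by rw [gi]; exact y1 y)))
        (fun s => (totalDegree_sub _ _).trans (max_le (by rw [hi']; exact x2 s)
          (by rw [hi']; exact y2 _)))
        (fun y b b' hn hb => by
          rw [map_sub, map_sub, gi, gi, x3 y b b' hn hb, y3 y b b' hn hb])
        (fun s b b' hn hb => by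
          rw [map_sub, map_sub, hi', hi', x4 s b b' hn hb, y4 _ b b' hn hb]) hM0
        (fun ω hω => by
          have a1 := (hok.pos ω (hB' ω hω) i (by omega)).trans hgg
          have a2 := (hok2.pos ω (hB' ω hω) i (by omega)).trans hMo
          rw [map_sub]
          rw [abs_le] at a1 a2 ⊢
          constructor <;> linarith only [a1.1, a1.2, a2.1, a2.2])
        (fun ω hω b hb => by
          have hb' : NBx c (G' k' (ptr F J ω)) (g k') (a k') (F.t ω) i b :=
            nbx_congr (fun j hj => (gl k' _ j hj).symm) hb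
          have a1 := (hok.agr ω (hB' ω hω) i (by omega) b hb').trans hgg
          have a2 := (two' k' hk'N k hkN hkk ω (hB' ω hω) b hb').trans hMt
          have e1 := slam_coarse' F m2 m3 ω
          rw [map_sub, map_sub, e1]
          rw [abs_le] at a1 a2 ⊢
          constructor <;> linarith only [a1.1, a1.2, a2.1, a2.2])
      refine ⟨B'', n1, ?_, fun ω hω _ b hb => ?_⟩
      · rw [pow_one]
        linarith
      · have a1 := n3 ω hω b (nbx_congr (fun j hj => gl k' _ j hj) hb)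
        rw [map_sub] at a1
        refine a1.trans ?_
        rw [hM', ← mul_div_assoc, ← pow_add]
        exact div_le_div_of_nonneg_right (pow_le_pow_right₀ (by norm_num) (by omega))
          (by positivity))
  -- the sizes
  obtain ⟨B₃, o1, o2, o3⟩ := iter_ev (p := F.p) hpos 1 N (B₀ := B₂)
    (κ := κ * 2 ^ (Ct * N) * 2 ^ (N * N))
    (Φ := fun k ω => ∀ b, NBx c (G' k (ptr F J ω)) (g k) (a k) (F.t ω) i b →
      |eval b (G' k (ptr F J ω) i) - F.x ω (c i)| ≤ 2 ^ (h + 3)) (by positivity) (by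
      refine le_trans ?_ hκ
      rw [mul_assoc, mul_assoc, ← pow_add, ← pow_add]
      refine mul_le_mul_of_nonneg_left (pow_le_pow_right₀ (by norm_num) ?_) hκ0
      rw [hC, one_mul]
      omega) (fun k hk B' hB' hP' => by
      obtain ⟨x1, x2, x3, x4, x5, x6⟩ := k3 k hk
      have hok := okk k hk
      have hg1 : (1 : ℝ) / 2 ^ g k i ≤ 1 := by
        rw [div_le_one (by positivity)]
        exact one_le_pow₀ (by norm_num)
      have hJ1 : (1 : ℝ) / 2 ^ J ≤ 1 := by
        rw [div_le_one (by positivity)]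
        exact one_le_pow₀ (by norm_num)
      obtain ⟨B'', n1, n2, n3⟩ := hR k hk B' (fun ω h => k1 ω (l1 ω (hB' ω h))) (by
          have h1 : κ * 2 ^ (Ct * N) * Pe F.p B₁ ≤
              κ * 2 ^ (Ct * N) * 2 ^ (N * N) * Pe F.p B₂ := by
            calc κ * 2 ^ (Ct * N) * Pe F.p B₁ ≤
                  κ * 2 ^ (Ct * N) * (2 ^ (1 * (N * N)) * Pe F.p B₂) :=
                  mul_le_mul_of_nonneg_left l2 (by positivity)
              _ = _ := by rw [one_mul]; ring
          have := hB1 1 zero_le_one B' (by rw [mul_one, one_mul]; exact h1.trans hP')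
          rw [mul_one, one_mul] at this
          exact this)
        (fun y => G' k y i - MvPolynomial.C ((y.1 (c i) : ℝ) / 2 ^ J)) (fun s => H' k s i - MvPolynomial.C (s.1.1 (c i))) 3
        (fun y => (totalDegree_sub _ _).trans (max_le (by rw [gi]; exact x1 y)
          (by rw [totalDegree_C]; exact Nat.zero_le _)))
        (fun s => (totalDegree_sub _ _).trans (max_le (by rw [hi']; exact x2 s)
          (by rw [totalDegree_C]; exact Nat.zero_le _)))
        (fun y b b' hn hb => by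
          rw [map_sub, map_sub, gi, x3 y b b' hn hb, eval_C, eval_C])
        (fun s b b' hn hb => by
          rw [map_sub, map_sub, hi', x4 s b b' hn hb, eval_C, eval_C]) (by norm_num)
        (fun ω hω => by
          have a1 := (hok.pos ω (l1 ω (hB' ω hω)) i (by omega)).trans hg1
          have a2 := (near_pt F (c i) ω).trans hJ1
          rw [map_sub, eval_C]
          change |eval (bt F ω) (G' k (ptr F J ω) i) - ((F.X J ω (c i) : ℤ) : ℝ) / 2 ^ J| ≤ 3
          rw [abs_le] at a1 a2 ⊢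
          constructor <;> linarith only [a1.1, a1.2, a2.1, a2.2])
        (fun ω hω b hb => by
          have a1 := (hok.agr ω (l1 ω (hB' ω hω)) i (by omega) b
            (nbx_congr (fun j hj => (gl k _ j hj).symm) hb)).trans hg1
          have a2 := (near_pt F (c i) ω).trans hJ1
          have a3 := near_ini F (c i) ω
          rw [map_sub, map_sub, eval_C, eval_C]
          change |eval b (G' k (ptr F J ω) i) - ((F.X J ω (c i) : ℤ) : ℝ) / 2 ^ J -
            (eval b (H' k (slam F (w k) ω) i) - F.u ω (c i))| ≤ 3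
          rw [abs_le] at a1 a2 a3 ⊢
          constructor <;> linarith only [a1.1, a1.2, a2.1, a2.2, a3.1, a3.2])
      refine ⟨B'', n1, ?_, fun ω hω b hb => ?_⟩
      · rw [pow_one]
        linarith
      · have a1 := n3 ω hω b (nbx_congr (fun j hj => gl k _ j hj) hb)
        have a2 := (near_pt F (c i) ω).trans hJ1
        have h2h : (1 : ℝ) ≤ 2 ^ h := one_le_pow₀ (by norm_num)
        rw [map_sub, eval_C] at a1
        change |eval b (G' k (ptr F J ω) i) - ((F.X J ω (c i) : ℤ) : ℝ) / 2 ^ J| ≤ 2 ^ h * 3 at a1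
        rw [pow_add]
        rw [abs_le] at a1 a2 ⊢
        constructor <;> linarith only [a1.1, a1.2, a2.1, a2.2, h2h])
  refine ⟨B₃, G', H', fun ω h => k1 ω (l1 ω (o1 ω h)), ?_, ⟨fun k hk =>
    (okk k hk).sub fun ω h => l1 ω (o1 ω h), fun k' hk' k hkN hk l hl ω hω b hb => ?_,
    fun k' hk' k hkN hk l hl ω hω b hb => ?_, fun k hk l hl ω hω b hb => ?_⟩⟩
  · calc Pe F.p B₀ ≤ 2 ^ (Ct * N) * Pe F.p B₁ := k2
      _ ≤ 2 ^ (Ct * N) * (2 ^ (1 * (N * N)) * Pe F.p B₂) :=
          mul_le_mul_of_nonneg_left l2 (by positivity)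
      _ ≤ 2 ^ (Ct * N) * (2 ^ (1 * (N * N)) * (2 ^ (1 * N) * Pe F.p B₃)) := by
          refine mul_le_mul_of_nonneg_left (mul_le_mul_of_nonneg_left o2 (by positivity))
            (by positivity)
      _ = 2 ^ (Ct * N + N * N + N) * Pe F.p B₃ := by rw [one_mul, one_mul, pow_add, pow_add]; ring
      _ ≤ _ := by
          refine mul_le_mul_of_nonneg_right (pow_le_pow_right₀ (by norm_num) ?_) (hpos B₃)
          rw [hC]
          omega
  · rcases Nat.lt_or_ge l i with h1 | h1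
    · rw [gl k' _ l h1, gl k _ l h1]
      exact hM.uni k' hk' k hkN hk l h1 ω (k1 ω (l1 ω (o1 ω hω))) b (bxG k' _ _ l b h1.le hb)
    · have : l = i := by omega
      subst this
      have hN0 : 0 < N := by omega
      have e1 : (k * N + k') / N = k := by
        rw [Nat.add_comm, Nat.add_mul_div_right _ _ hN0, Nat.div_eq_of_lt hk', zero_add]
      have e2 : (k * N + k') % N = k' := by
        rw [Nat.add_comm, Nat.add_mul_mod_self_right, Nat.mod_eq_of_lt hk']
      have h2 := l3 ω (o1 ω hω) (k * N + k') (by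
        have : (k + 1) * N ≤ N * N := Nat.mul_le_mul_right N hkN
        nlinarith) 
      simp only [e1, e2] at h2
      refine (h2 hk b hb).trans (div_le_div_of_nonneg_right (pow_le_pow_right₀ (by norm_num) ?_)
        (by positivity))
      rw [hT]
      omega
  · rcases Nat.lt_or_ge l i with h1 | h1
    · rw [gl k _ l h1, hl' k _ l h1]
      exact hM.two k' hk' k hkN hk l h1 ω (k1 ω (l1 ω (o1 ω hω))) b (bxG k' _ _ l b h1.le hb)
    · have : l = i := by omega
      subst this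
      refine (two' k' hk' k hkN hk ω (l1 ω (o1 ω hω)) b hb).trans
        (div_le_div_of_nonneg_right (pow_le_pow_right₀ (by norm_num) ?_) (by positivity))
      rw [hT]
      omega
  · rcases Nat.lt_or_ge l i with h1 | h1
    · rw [gl k _ l h1]
      exact hM.siz k hk l h1 ω (k1 ω (l1 ω (o1 ω hω))) b (bxG k _ _ l b h1.le hb)
    · have : l = i := by omega
      subst this
      refine (o3 ω hω k hk b hb).trans (pow_le_pow_right₀ (by norm_num) ?_)
      omega

end Pool.CHT
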