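import Pool.Agent.H2.GEN.AttI
import Pool.Agent.H95.GN.Rle

/-!
# No relation in a class, from the thresholds

`relvC_of`: at a point where the precisions of the coordinates grow at most linearly along the
diagonal, are nearly sorted and visible, there is no relation between the coordinates of the chains
of the class (`Pool.CHT.RelvC`).
-/

set_option autoImplicit false

namespace Pool.CHT

open Finset Real MvPolynomial
open Pool.Agent.H49.Ent Pool.Agent.H32.Dense Pool.STK Pool.KA Pool.KSAT Pool.K2S Pool.PB Pool.S6C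
open Pool.GEN
open Pool.LBT (LSys Slo Tri ThrOf)
open Pool.LEV (Law)

variable {m J : ℕ} {θ : ℝ} {S : PCl m} {P : List (Fin m) × Fin m → ℝ → ℝ → ℝ}

/-! ### Linear growth -/

/-- **Linear growth** along the diagonal. -/
def Up1 (f : ℝ → ℝ → ℝ) (a w : ℝ) : Prop :=
  ∃ V o₀ : ℝ, 0 ≤ V ∧ 0 < o₀ ∧ ∀ o : ℝ, 0 < o → o < o₀ → f (a + o) (w + o) ≤ f a w + V * o

theorem Up1.rc {f : ℝ → ℝ → ℝ} {a w : ℝ} (h : Up1 f a w) (ha : a < 1) : Rc f a w := by
  obtain ⟨V, o₀, hV, ho, h⟩ := h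
  intro ε hε
  obtain ⟨o, ho'⟩ : ∃ o : ℝ, o = min (o₀ / 2) (min (1 - a) (ε / (V + 1))) := ⟨_, rfl⟩
  have h1 : 0 < o := by
    rw [ho']
    exact lt_min (by positivity) (lt_min (by linarith) (by positivity))
  have h2 : o ≤ o₀ / 2 := by rw [ho']; exact min_le_left _ _
  have h3 : o ≤ 1 - a := by rw [ho']; exact (min_le_right _ _).trans (min_le_left _ _)
  have h4 : o ≤ ε / (V + 1) := by rw [ho']; exact (min_le_right _ _).trans (min_le_right _ _)
  refine ⟨o, h1, by linarith, (h o h1 (by linarith)).trans ?_⟩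
  rw [le_div_iff₀ (by positivity)] at h4
  nlinarith

/-! ### Auxiliary -/

theorem rec_sum (e : ℕ → ℕ) (f : ℕ → ℕ → ℕ) (n : ℕ) :
    ∃ x : ℕ → ℕ, ∀ l < n, x l = e l + ∑ j ∈ range l, x j * f j l := by
  induction n with
  | zero => exact ⟨fun _ => 0, fun l hl => absurd hl (Nat.not_lt_zero l)⟩
  | succ n ih =>
    obtain ⟨x, hx⟩ := ih
    refine ⟨fun l => if l = n then e n + ∑ j ∈ range n, x j * f j n else x l, fun l hl => ?_⟩
    have h1 : ∑ j ∈ range l, (if j = n then e n + ∑ j ∈ range n, x j * f j n else x j) * f j l =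
        ∑ j ∈ range l, x j * f j l := by
      refine Finset.sum_congr rfl fun j hj => ?_
      rw [if_neg (by rw [mem_range] at hj; omega)]
    show (if l = n then e n + ∑ j ∈ range n, x j * f j n else x l) =
      e l + ∑ j ∈ range l, (if j = n then e n + ∑ j ∈ range n, x j * f j n else x j) * f j l
    rw [h1]
    by_cases h2 : l = n
    · rw [if_pos h2, h2]
    · rw [if_neg h2]
      exact hx l (by omega)

theorem pe_split {Ω : Type} [Fintype Ω] (p : Ω → ℝ) {A B : Ω → Prop} (h : Sub B A) :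
    Pe p A = Pe p B + Pe p (fun ω => A ω ∧ ¬ B ω) := by
  classical
  simp_rw [Pe_eq]
  rw [← Finset.sum_add_distrib]
  refine Finset.sum_congr rfl fun ω _ => ?_
  by_cases h1 : B ω
  · simp [h1, h ω h1]
  · by_cases h2 : A ω <;> simp [h1, h2]

/-! ### The class level -/

/-- The factor between the defects. -/
def Zf (V D r T : ℕ) : ℕ := (V + 4) ^ (D * T ^ r + 1) + 12 * (r + 1) * T ^ (r + 1)

theorem Zf_mono {V D r T T' : ℕ} (h : T ≤ T') : Zf V D r T ≤ Zf V D r T' := by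
  unfold Zf
  refine Nat.add_le_add (Nat.pow_le_pow_right (by omega) ?_) ?_
  · exact Nat.add_le_add_right (Nat.mul_le_mul_left _ (Nat.pow_le_pow_left h _)) _
  · exact Nat.mul_le_mul_left _ (Nat.pow_le_pow_left h _)

theorem one_le_Zf (V D r T : ℕ) : 1 ≤ Zf V D r T := by
  unfold Zf
  have : 1 ≤ (V + 4) ^ (D * T ^ r + 1) := Nat.one_le_pow _ _ (by omega)
  omega

theorem dgp_le' (K : ℕ → ℕ) {j l i r T : ℕ} (hl : l ≤ i) (hi : i ≤ r)
    (hT : 1 + ∑ l' ∈ Finset.Ioo j i, K l' ≤ T) : dgp K j l ≤ T ^ r := by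
  have h1 : ∀ x ∈ Finset.Ico (j + 1) l, max (K x) 1 ≤ T := by
    intro x hx
    have hx' := Finset.mem_Ico.1 hx
    have : K x ≤ ∑ l' ∈ Finset.Ioo j i, K l' :=
      Finset.single_le_sum (f := K) (fun _ _ => Nat.zero_le _)
        (Finset.mem_Ioo.2 ⟨by omega, by omega⟩)
    omega
  have hT1 : 1 ≤ T := by omega
  unfold dgp
  calc ∏ x ∈ Finset.Ico (j + 1) l, max (K x) 1 ≤ ∏ _x ∈ Finset.Ico (j + 1) l, T :=
        Finset.prod_le_prod' h1
    _ = T ^ (Finset.Ico (j + 1) l).card := by rw [Finset.prod_const]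
    _ ≤ _ := Nat.pow_le_pow_right hT1 (by rw [Nat.card_Ico]; omega)

/-- The defects. -/
noncomputable def epf (V D r i : ℕ) (K : ℕ → ℕ) (εh : ℝ) (j : ℕ) : ℝ :=
  εh / (Zf V D r (r + D + 1 + ∑ l' ∈ Finset.Ioo j i, K l') : ℝ) ^ (i - j)

theorem epf_pos {V D r i : ℕ} {K : ℕ → ℕ} {εh : ℝ} (h : 0 < εh) (j : ℕ) :
    0 < epf V D r i K εh j := by
  have h1 : (0 : ℝ) < Zf V D r (r + D + 1 + ∑ l' ∈ Finset.Ioo j i, K l') := by
    have := one_le_Zf V D r (r + D + 1 + ∑ l' ∈ Finset.Ioo j i, K l')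
    exact_mod_cast this
  unfold epf
  positivity

theorem epf_self {V D r i : ℕ} {K : ℕ → ℕ} {εh : ℝ} : epf V D r i K εh i = εh := by
  unfold epf
  rw [Nat.sub_self, pow_zero, div_one]

theorem epf_mul {V D r i : ℕ} {K : ℕ → ℕ} {εh : ℝ} (h : 0 < εh) {j l : ℕ} (hjl : j < l)
    (hl : l ≤ i) : epf V D r i K εh j * Zf V D r (r + D + 1 + ∑ l' ∈ Finset.Ioo j i, K l') ≤
      epf V D r i K εh l := by
  obtain ⟨Z, hZ⟩ : ∃ Z : ℕ, Z = Zf V D r (r + D + 1 + ∑ l' ∈ Finset.Ioo j i, K l') := ⟨_, rfl⟩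
  obtain ⟨Z', hZ'⟩ : ∃ Z : ℕ, Z = Zf V D r (r + D + 1 + ∑ l' ∈ Finset.Ioo l i, K l') := ⟨_, rfl⟩
  have h1 : Z' ≤ Z := by
    rw [hZ, hZ']
    refine Zf_mono (Nat.add_le_add_left (Finset.sum_le_sum_of_subset fun x hx => ?_) _)
    have := Finset.mem_Ioo.1 hx
    exact Finset.mem_Ioo.2 ⟨by omega, this.2⟩
  have h2 : (1 : ℝ) ≤ Z' := by
    rw [hZ']
    exact_mod_cast one_le_Zf _ _ _ _
  have h3 : (Z' : ℝ) ≤ Z := by exact_mod_cast h1
  have h4 : (0 : ℝ) < Z := by linarith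
  unfold epf
  rw [← hZ, ← hZ', div_mul_eq_mul_div, div_le_div_iff₀ (by positivity) (by positivity)]
  have h5 : (Z : ℝ) * Z' ^ (i - l) ≤ Z ^ (i - j) := by
    calc (Z : ℝ) * Z' ^ (i - l) ≤ Z * Z ^ (i - l) :=
          mul_le_mul_of_nonneg_left (pow_le_pow_left₀ (by linarith) h3 _) h4.le
      _ = Z ^ (i - l + 1) := by rw [pow_succ]; ring
      _ ≤ Z ^ (i - j) := pow_le_pow_right₀ (by linarith) (by omega)
  calc εh * Z * Z' ^ (i - l) = εh * (Z * Z' ^ (i - l)) := by ring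
    _ ≤ εh * Z ^ (i - j) := mul_le_mul_of_nonneg_left h5 h.le

theorem epf_le {V D r i : ℕ} {K : ℕ → ℕ} {εh : ℝ} (h : 0 < εh) {j : ℕ} (hj : j ≤ i) :
    epf V D r i K εh j ≤ εh := by
  rcases Nat.lt_or_ge j i with h1 | h1
  · have h2 := epf_mul (V := V) (D := D) (r := r) (K := K) h h1 le_rfl
    rw [epf_self] at h2
    refine le_trans ?_ h2
    refine le_mul_of_one_le_right (epf_pos h j).le ?_
    exact_mod_cast one_le_Zf _ _ _ _
  · have : j = i := by omega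
    subst this
    rw [epf_self]

/-- The time of the large events of the members. -/
theorem tmN_of {F : Fam m J} {A : F.Ω → Prop} {N e₀ : ℕ} {x κ : ℝ} {A₀ : F.Ω → Prop}
    (h : ∀ B : F.Ω → Prop, Sub B A₀ → κ * Pe F.p A₀ ≤ Pe F.p B → ∀ h : 0 < Pe F.p B,
      (Pool.FLF.Fam.sub F B h).Tm x) (hx : x ≤ e₀) (hA : Sub A A₀) (hA0 : 0 < Pe F.p A)
    (hκ : ∀ B : F.Ω → Prop, Sub B A → Pe F.p A ≤ N * Pe F.p B → κ * Pe F.p A₀ ≤ Pe F.p B) :
    Pool.RLV.TmN F N e₀ A := by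
  intro B hB hPB
  have hB0 : 0 < Pe F.p B := by
    by_contra hcon
    push Not at hcon
    have h1 : (N : ℝ) * Pe F.p B ≤ 0 := mul_nonpos_of_nonneg_of_nonpos (Nat.cast_nonneg N) hcon
    linarith
  have h1 := h B (fun ω hω => hA ω (hB ω hω)) (hκ B hB hPB) hB0
  unfold Fam.Tm at h1
  have h2 := h1.trans (le_of_eq (Pool.FLF.sub_CH (A := B) (hA := hB0) F.T
    (fun ω => (F.l ω, F.Z ω))))
  linarith

/-- **No relation in a class, from the thresholds.** -/
theorem relvC_of (hP : ThrOf (chsys m θ) S P) (hθ : 0 < θ) (hS : TmH S) {c : ℕ → Fin m} {r : ℕ}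
    (hc : Set.InjOn c (Set.Iio r)) {a w vs e₀ : ℝ} (hw : 0 < w) (hwa : w ≤ a) (ha : a < 1)
    (hup : ∀ l < r, Up1 (bet P c l) a w) (hvis : ∀ l < r, bet P c l a w + θ * w < 1)
    (hvs : 0 ≤ vs) (hsrt : ∀ i < r, ∀ l < i, bet P c l a w ≤ bet P c i a w + vs)
    (he₀ : 0 ≤ e₀) (he : e₀ + 2 * vs < θ * w) :
    RelvC S c r (fun l => bet P c l a w) a w e₀ := by
  classical
  intro D η hη
  have hw1 : w < 1 := hwa.trans_lt ha
  have ha0 : 0 < a := hw.trans_le hwa
  -- the constants of the growth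
  have hup' : ∀ l, ∃ V o₀ : ℝ, 0 ≤ V ∧ 0 < o₀ ∧ (l < r → ∀ o : ℝ, 0 < o → o < o₀ →
      bet P c l (a + o) (w + o) ≤ bet P c l a w + V * o) := by
    intro l
    by_cases hl : l < r
    · obtain ⟨V, o₀, h1, h2, h3⟩ := hup l hl
      exact ⟨V, o₀, h1, h2, fun _ => h3⟩
    · exact ⟨0, 1, le_rfl, one_pos, fun h => absurd h hl⟩
  choose Vl ol hV0 ho0 hup' using hup'
  obtain ⟨o₀, ho₀, ho₁⟩ := fin_pos r (f := ol) fun k _ => ho0 k
  obtain ⟨V₀, hV₀⟩ : ∃ V₀, V₀ = ∑ l ∈ range r, Vl l := ⟨_, rfl⟩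
  have hV₀0 : 0 ≤ V₀ := by rw [hV₀]; exact Finset.sum_nonneg fun l _ => hV0 l
  have hVl : ∀ l < r, Vl l ≤ V₀ := fun l hl => by
    rw [hV₀]
    exact Finset.single_le_sum (f := Vl) (fun l _ => hV0 l) (mem_range.2 hl)
  have hgr : ∀ l < r, ∀ o : ℝ, 0 < o → o < o₀ →
      bet P c l (a + o) (w + o) ≤ bet P c l a w + V₀ * o := fun l hl o h1 h2 => by
    have h3 := hup' l hl o h1 (h2.trans_le (ho₁ l hl))
    have h4 := mul_le_mul_of_nonneg_right (hVl l hl) h1.le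
    linarith
  obtain ⟨σ, hσ, hσl⟩ := fin_pos r (f := fun l => 1 - (bet P c l a w + θ * w)) fun l hl => by
    linarith [hvis l hl]
  obtain ⟨V, hV⟩ : ∃ V : ℕ, V = ⌈16 * V₀⌉₊ + 4 := ⟨_, rfl⟩
  have hVr : 16 * V₀ + 4 ≤ (V : ℝ) := by
    rw [hV]
    push_cast
    have := Nat.le_ceil (16 * V₀)
    linarith
  obtain ⟨o', ho'⟩ : ∃ o' : ℝ, o' = min (o₀ / 4) (min ((1 - a) / 4) (σ / (8 * (V₀ + 1)))) :=
    ⟨_, rfl⟩
  have ho'0 : 0 < o' := by
    rw [ho']
    exact lt_min (by positivity) (lt_min (by linarith) (by positivity))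
  have ho'1 : o' ≤ o₀ / 4 := by rw [ho']; exact min_le_left _ _
  have ho'2 : o' ≤ (1 - a) / 4 := by rw [ho']; exact (min_le_right _ _).trans (min_le_left _ _)
  have ho'3 : 8 * V₀ * o' ≤ σ := by
    have h1 : o' ≤ σ / (8 * (V₀ + 1)) := by
      rw [ho']; exact (min_le_right _ _).trans (min_le_right _ _)
    rw [le_div_iff₀ (by positivity)] at h1
    nlinarith
  obtain ⟨σ₂, hσ₂⟩ : ∃ σ₂, σ₂ = θ * w - e₀ - 2 * vs := ⟨_, rfl⟩
  have hσ₂0 : 0 < σ₂ := by rw [hσ₂]; linarith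
  obtain ⟨εh, hεh⟩ : ∃ εh : ℝ, εh = min (η / 8) (min (o' / 8) (min (σ / (8 * (V + 10)))
    (min (σ₂ / 32) (a / 32)))) := ⟨_, rfl⟩
  have hε0 : 0 < εh := by
    rw [hεh]
    exact lt_min (by positivity) (lt_min (by positivity) (lt_min (by positivity)
      (lt_min (by positivity) (by positivity))))
  have hε1 : εh ≤ η / 8 := by rw [hεh]; exact min_le_left _ _
  have hε2 : εh ≤ o' / 8 := by rw [hεh]; exact (min_le_right _ _).trans (min_le_left _ _)
  have hε3 : 8 * (V + 10) * εh ≤ σ := by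
    have h1 : εh ≤ σ / (8 * (V + 10)) := by
      rw [hεh]
      exact (min_le_right _ _).trans ((min_le_right _ _).trans (min_le_left _ _))
    rw [le_div_iff₀ (by positivity)] at h1
    linarith
  have hε4 : εh ≤ σ₂ / 32 := by
    rw [hεh]
    exact (min_le_right _ _).trans ((min_le_right _ _).trans ((min_le_right _ _).trans
      (min_le_left _ _)))
  have hε5 : εh ≤ a / 32 := by
    rw [hεh]
    exact (min_le_right _ _).trans ((min_le_right _ _).trans ((min_le_right _ _).trans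
      (min_le_right _ _)))
  have hV0' : (0 : ℝ) ≤ V := Nat.cast_nonneg V
  have hZ1 : ∀ T : ℕ, (1 : ℝ) ≤ Zf V D r T := fun T => by exact_mod_cast one_le_Zf V D r T
  refine ⟨fun _ n => εh / (Zf V D r (r + D + 1 + n) : ℝ) ^ r, fun _ n => by
    have := hZ1 (r + D + 1 + n)
    positivity, ?_⟩
  intro i hi K d hd η' hη'
  obtain ⟨eps, heps⟩ : ∃ eps : ℕ → ℝ, eps = epf V D r i K εh := ⟨_, rfl⟩
  obtain ⟨T, hT⟩ : ∃ T : ℕ → ℕ, T = fun j => r + D + 1 + ∑ l' ∈ Finset.Ioo j i, K l' := ⟨_, rfl⟩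
  have hep0 : ∀ j, 0 < eps j := fun j => by rw [heps]; exact epf_pos hε0 j
  have hepi : eps i = εh := by rw [heps]; exact epf_self
  have heple : ∀ j ≤ i, eps j ≤ εh := fun j hj => by rw [heps]; exact epf_le hε0 hj
  have hepm : ∀ j l, j < l → l ≤ i → eps j * Zf V D r (T j) ≤ eps l := fun j l h1 h2 => by
    rw [heps, hT]; exact epf_mul hε0 h1 h2
  have hd0 : ∀ l < i, 0 < d l := fun l hl => (hd l hl).1
  have hdle : ∀ l < i, d l ≤ eps l := by
    intro l hl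
    refine (hd l hl).2.trans ?_
    rw [heps]
    unfold epf
    refine div_le_div_of_nonneg_left hε0.le (by
      have := hZ1 (r + D + 1 + ∑ l' ∈ Finset.Ioo l i, K l')
      positivity) (pow_le_pow_right₀ (hZ1 _) (by omega))
  have hT1 : ∀ j, 1 ≤ T j := fun j => by rw [hT]; show 1 ≤ r + D + 1 + _; omega
  have hdg : ∀ j l, j < l → l ≤ i → dgp K j l ≤ T j ^ r := fun j l _ hl =>
    dgp_le' K hl hi (by rw [hT]; show _ ≤ r + D + 1 + _; omega)
  have hKT : ∀ j l, j < l → l < i → K l ≤ T j := fun j l h1 h2 => by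
    have : K l ≤ ∑ l' ∈ Finset.Ioo j i, K l' :=
      Finset.single_le_sum (f := K) (fun _ _ => Nat.zero_le _) (Finset.mem_Ioo.2 ⟨h1, h2⟩)
    rw [hT]
    show K l ≤ r + D + 1 + _
    omega
  have hDT : ∀ j, D ≤ T j := fun j => by rw [hT]; show D ≤ r + D + 1 + _; omega
  -- the sums of the losses
  have hloss : ∀ j l k, j < l → l ≤ i → k ≤ T j →
      12 * (r + 1) * (eps j * (k * dgp K j l : ℕ)) ≤ eps l := by
    intro j l k h1 h2 h3
    have h4 : k * dgp K j l ≤ T j ^ (r + 1) := by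
      calc k * dgp K j l ≤ T j * T j ^ r := Nat.mul_le_mul h3 (hdg j l h1 h2)
        _ = _ := by rw [pow_succ]; ring
    have h5 : 12 * (r + 1) * (k * dgp K j l) ≤ Zf V D r (T j) := by
      unfold Zf
      calc 12 * (r + 1) * (k * dgp K j l) ≤ 12 * (r + 1) * T j ^ (r + 1) :=
            Nat.mul_le_mul_left _ h4
        _ ≤ _ := Nat.le_add_left _ _
    have h6 : 12 * ((r : ℝ) + 1) * ((k * dgp K j l : ℕ) : ℝ) ≤ Zf V D r (T j) := by
      exact_mod_cast h5
    refine le_trans ?_ (hepm j l h1 h2)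
    calc 12 * ((r : ℝ) + 1) * (eps j * ((k * dgp K j l : ℕ) : ℝ)) =
          eps j * (12 * (r + 1) * ((k * dgp K j l : ℕ) : ℝ)) := by ring
      _ ≤ _ := mul_le_mul_of_nonneg_left h6 (hep0 j).le
  obtain ⟨κ, N, Kn, hκ1, hrel⟩ := Pool.RLV.relv_fam V D i K
  obtain ⟨εm, hεm, hεml⟩ := fin_pos (i + 1) (f := eps) fun k _ => hep0 k
  obtain ⟨εt, hεt⟩ : ∃ εt : ℝ, εt = εm / (4 * (κ + 1)) := ⟨_, rfl⟩
  have hεt0 : 0 < εt := by rw [hεt]; positivity
  have hεtκ : κ * εt ≤ εm / 4 := by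
    have h1 : 4 * (κ + 1) * εt = εm := by rw [hεt]; field_simp
    linarith
  -- the grid
  obtain ⟨km, hkm⟩ := exists_pow_lt_of_lt_one (show 0 < 2 * εm / o' by positivity)
    (show (1 / 2 : ℝ) < 1 by norm_num)
  have hgrid : ∀ k : ℕ, ∃ a' w' : ℚ, w + o' * (1 / 2) ^ k < w' ∧
      (w' : ℝ) < w + 3 / 2 * (o' * (1 / 2) ^ k) ∧ a + 3 / 2 * (o' * (1 / 2) ^ k) < a' ∧
      (a' : ℝ) < a + 2 * (o' * (1 / 2) ^ k) := by
    intro k
    have h1 : 0 < o' * (1 / 2 : ℝ) ^ k := by positivity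
    obtain ⟨w', h2, h3⟩ := exists_rat_btwn (show w + o' * (1 / 2) ^ k <
      w + 3 / 2 * (o' * (1 / 2) ^ k) by linarith)
    obtain ⟨a', h4, h5⟩ := exists_rat_btwn (show a + 3 / 2 * (o' * (1 / 2) ^ k) <
      a + 2 * (o' * (1 / 2) ^ k) by linarith)
    exact ⟨a', w', h2, h3, h4, h5⟩
  choose a' w' hw'1 hw'2 ha'1 ha'2 using hgrid
  have hok : ∀ k, 0 < o' * (1 / 2 : ℝ) ^ k ∧ o' * (1 / 2 : ℝ) ^ k ≤ o' := fun k =>
    ⟨by positivity, mul_le_of_le_one_right ho'0.le (pow_le_one₀ (by norm_num) (by norm_num))⟩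
  have hbk : ∀ k, ∀ l < r, bet P c l (a' k) (w' k) ≤
      bet P c l a w + V₀ * (2 * (o' * (1 / 2) ^ k)) := by
    intro k l hl
    obtain ⟨h1, h2⟩ := hok k
    refine le_trans ?_ (hgr l hl (2 * (o' * (1 / 2) ^ k)) (by linarith) (by linarith))
    exact (hP.law _).mono (by linarith [hw'1 k]) (by linarith [hw'2 k, ha'1 k])
      (ha'2 k).le (by linarith [hw'2 k]) (by linarith) (by linarith)
  have hκ' : 0 < η' / ((N : ℝ) + 1) := by positivity
  have hno := Bas.all (S := S) km (Φ := fun k J F A => ∀ l < i, ∀ B : F.Ω → Prop, Sub B A →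
      η' / ((N : ℝ) + 1) * Pe F.p A ≤ Pe F.p B → ∀ (a₀ w₀ e₀ : ℕ) (g : ℕ → ℕ), w₀ ≤ a₀ →
      a₀ ≤ ⌊(a' k : ℝ) * J⌋₊ → w₀ ≤ ⌊(w' k : ℝ) * J⌋₊ → e₀ ≤ ⌊θ * w * J⌋₊ → (∀ l' ≤ l, g l' ≤ J) →
      ⌊(bet P c l (a' k) (w' k) + eps l) * J⌋₊ + a₀ ≤ g l + ⌊(a' k : ℝ) * J⌋₊ →
      ¬ ChN F c (l + 1) (fun _ => Kn) a₀ w₀ e₀ g B) fun k _ =>
    Bas.all (S := S) i (Φ := fun l J F A => ∀ B : F.Ω → Prop, Sub B A →
      η' / ((N : ℝ) + 1) * Pe F.p A ≤ Pe F.p B → ∀ (a₀ w₀ e₀ : ℕ) (g : ℕ → ℕ), w₀ ≤ a₀ →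
      a₀ ≤ ⌊(a' k : ℝ) * J⌋₊ → w₀ ≤ ⌊(w' k : ℝ) * J⌋₊ → e₀ ≤ ⌊θ * w * J⌋₊ → (∀ l' ≤ l, g l' ≤ J) →
      ⌊(bet P c l (a' k) (w' k) + eps l) * J⌋₊ + a₀ ≤ g l + ⌊(a' k : ℝ) * J⌋₊ →
      ¬ ChN F c (l + 1) (fun _ => Kn) a₀ w₀ e₀ g B) fun l hl => by
    obtain ⟨h1, h2⟩ := hok k
    have h3 : (0 : ℝ) ≤ w' k := by linarith [hw'1 k]
    have h4 : (w' k : ℝ) ≤ a' k := by linarith [hw'2 k, ha'1 k]
    have h5 : (a' k : ℝ) ≤ 1 := by linarith [ha'2 k]
    refine bas_ev (no_unif hP c l (fun _ => Kn) (a' k) (w' k) (θ * w) (eps l)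
      (by exact_mod_cast h3) (by exact_mod_cast h4) (by exact_mod_cast h5)
      (mul_lt_mul_of_pos_left (by linarith [hw'1 k]) hθ) (hep0 l) ?_) hκ'
    have h6 := hbk k l (by omega)
    have h7 := hσl l (by omega)
    have h8 := heple l hl.le
    have h9 : V₀ * (2 * (o' * (1 / 2) ^ k)) ≤ σ / 4 := by
      have := mul_le_mul_of_nonneg_left h2 hV₀0
      linarith
    have h10 : 0 ≤ θ * w := by positivity
    have h11 : 0 ≤ V * εh := by positivity
    linarith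
  have htm := bas_ev (hS.2 (εt / 4) (by positivity)) hκ'
  obtain ⟨J₁, hJ₁⟩ := big ((κ : ℝ) + 10) (show 0 < εm / 8 by positivity)
  obtain ⟨J₂, hJ₂⟩ := big (8 : ℝ) (show 0 < εt / 4 by positivity)
  refine Bas.mono (max J₁ J₂) (hno.and htm) ?_
  rintro J hJ F A ⟨hnoJ, htmJ⟩ G H hL Dx Dl N₀ k1 k2 k3 k4 k5 k6
  have hJ1 := hJ₁ J (le_trans (le_max_left _ _) hJ)
  have hJ2 := hJ₂ J (le_trans (le_max_right _ _) hJ)
  have hJ0 : (0 : ℝ) ≤ J := Nat.cast_nonneg J
  have hJp : (0 : ℝ) < J := by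
    rcases hJ0.lt_or_eq with h | h
    · exact h
    · rw [← h] at hJ2; norm_num at hJ2
  have hκr : (1 : ℝ) ≤ κ := by exact_mod_cast hκ1
  have hJm : ∀ j ≤ i, (κ : ℝ) + 10 ≤ eps j / 8 * J := fun j hj =>
    hJ1.trans (mul_le_mul_of_nonneg_right (by linarith [hεml j (by omega)]) hJ0)
  obtain ⟨β, hβ⟩ : ∃ β : ℕ → ℝ, β = fun l => bet P c l a w := ⟨_, rfl⟩
  obtain ⟨g, hg⟩ : ∃ g : ℕ → ℕ, g = fun l => ⌊(bet P c l a w - d l) * J⌋₊ := ⟨_, rfl⟩
  rw [← hg] at hL k6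
  rw [← hg]
  obtain ⟨E, hE⟩ : ∃ E : ℕ → ℕ, E = fun n => if n = 0 then ⌊εt * J⌋₊ else ⌊eps (n - 1) * J⌋₊ :=
    ⟨_, rfl⟩
  have hE0 : E 0 = ⌊εt * J⌋₊ := by rw [hE]; simp
  have hEs : ∀ n, E (n + 1) = ⌊eps n * J⌋₊ := fun n => by rw [hE]; simp
  have hEle : ∀ n, (E (n + 1) : ℝ) ≤ eps n * J := fun n => by
    rw [hEs]
    exact Nat.floor_le (mul_nonneg (hep0 n).le hJ0)
  have hEge : ∀ n, eps n * J - 1 ≤ (E (n + 1) : ℝ) := fun n => by
    rw [hEs]
    linarith [Nat.lt_floor_add_one (eps n * J)]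
  obtain ⟨x, hx⟩ := rec_sum (fun l => E (l + 1) + κ) (fun j l => K l * dgp K j l) i
  have hxle : ∀ l < i, (x l : ℝ) ≤ 2 * eps l * J := by
    intro l
    induction l using Nat.strong_induction_on with
    | _ l ih =>
      intro hl
      have h1 : (x l : ℝ) = E (l + 1) + κ + ∑ j ∈ range l, (x j : ℝ) * (K l * dgp K j l : ℕ) := by
        rw [hx l hl]
        push_cast
        ring
      have h2 : ∀ j ∈ range l, (x j : ℝ) * (K l * dgp K j l : ℕ) ≤ eps l * J / (6 * (r + 1)) := by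
        intro j hj
        rw [mem_range] at hj
        have h3 := ih j hj (hj.trans hl)
        have h4 := hloss j l (K l) hj hl.le (hKT j l hj hl)
        rw [le_div_iff₀ (by positivity)]
        have h5 := mul_le_mul_of_nonneg_right h4 hJ0
        have h6 := mul_le_mul_of_nonneg_right h3
          (show (0 : ℝ) ≤ ((K l * dgp K j l : ℕ) : ℝ) * (6 * (r + 1)) by positivity)
        linarith
      have h3 := Finset.sum_le_sum h2
      rw [Finset.sum_const, card_range, nsmul_eq_mul] at h3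
      have h4 : (l : ℝ) * (eps l * J / (6 * (r + 1))) ≤ eps l * J / 6 := by
        rw [mul_div_assoc', div_le_div_iff₀ (by positivity) (by norm_num)]
        have h5 : (l : ℝ) ≤ r + 1 := by
          have : l ≤ r + 1 := by omega
          exact_mod_cast this
        have h6 : 0 ≤ eps l * J := mul_nonneg (hep0 l).le hJ0
        have := mul_le_mul_of_nonneg_right h5 h6
        linarith
      have h5 := hEle l
      have h6 := hJm l hl.le
      have h7 : 0 ≤ eps l * J := mul_nonneg (hep0 l).le hJ0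
      rw [h1]
      linarith
  have hβa : ∀ l, a ≤ β l := fun l => by rw [hβ]; exact hP.low _ a w hw.le hwa ha.le
  have hβ1 : ∀ l, β l ≤ 1 := fun l => by rw [hβ]; exact hP.up _ a w hw.le hwa ha.le
  have hgβ : ∀ l, g l = ⌊(β l - d l) * J⌋₊ := fun l => by rw [hg, hβ]
  have hglb : ∀ l, (β l - d l) * J - 1 ≤ (g l : ℝ) := fun l => by
    rw [hgβ]
    linarith [Nat.lt_floor_add_one ((β l - d l) * J)]
  have hgub : ∀ l < i, (g l : ℝ) ≤ (β l - d l) * J := fun l hl => by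
    rw [hgβ]
    refine Nat.floor_le (mul_nonneg ?_ hJ0)
    linarith [hβa l, hdle l hl, heple l hl.le]
  have hxg : ∀ l < i, x l ≤ g l := by
    intro l hl
    have h1 := hxle l hl
    have h2 := hglb l
    have h3 := hdle l hl
    have h4 := heple l hl.le
    have h5 := hJm l hl.le
    have h6 := hβa l
    have h7 : (a - 1 / 32 * a) * J ≤ (β l - d l) * J :=
      mul_le_mul_of_nonneg_right (by linarith) hJ0
    have h8 : eps l * J ≤ a / 32 * J := mul_le_mul_of_nonneg_right (by linarith) hJ0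
    have h9 : 0 ≤ a * J := mul_nonneg ha0.le hJ0
    have h10 : (x l : ℝ) ≤ g l := by linarith
    exact_mod_cast h10
  obtain ⟨q, hq⟩ : ∃ q : ℕ → ℕ, q = fun l => g l - x l := ⟨_, rfl⟩
  have hql : ∀ l < i, q l + x l = g l := fun l hl => by
    rw [hq]
    have := hxg l hl
    show g l - x l + x l = g l
    omega
  have hgls : ∀ l < i, E (l + 1) + κ + gls K g q l = x l := by
    intro l hl
    rw [hx l hl]
    unfold gls
    congr 1
    refine Finset.sum_congr rfl fun j hj => ?_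
    have := hql j ((mem_range.1 hj).trans hl)
    congr 1
    omega
  -- the bad event
  by_contra hcon
  have hbad : ∃ B : F.Ω → Prop, B = fun ω => A ω ∧ ∀ b, NBx c (G (ptr F J ω)) g ⌊a * J⌋₊ (F.t ω) i b →
      |eval b (Dx (ptr F J ω))| ≤ 2 ^ ⌊η * J⌋₊ / 2 ^ N₀ := ⟨_, rfl⟩
  obtain ⟨B₀, hB₀⟩ := hbad
  have hB₀A : Sub B₀ A := fun ω hω => by rw [hB₀] at hω; exact hω.1
  have hB₀P : Pe F.p B₀ < (1 - η') * Pe F.p A := by
    by_contra h
    push Not at h
    exact hcon ⟨B₀, hB₀A, h, fun ω hω => by rw [hB₀] at hω; exact hω.2⟩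
  obtain ⟨A', hA'⟩ : ∃ A' : F.Ω → Prop, A' = fun ω => A ω ∧ ¬ B₀ ω := ⟨_, rfl⟩
  have hA'A : Sub A' A := fun ω hω => by rw [hA'] at hω; exact hω.1
  have hA'P : η' * Pe F.p A < Pe F.p A' := by
    have h1 := pe_split F.p hB₀A
    rw [← hA'] at h1
    linarith
  have hPA0 : 0 ≤ Pe F.p A := Pe_nonneg F.isLaw A
  have hA'0 : 0 < Pe F.p A' := lt_of_le_of_lt (mul_nonneg hη'.le hPA0) hA'P
  have hlow : ∀ ω, A' ω → ∃ b, NBx c (G (ptr F J ω)) g ⌊a * J⌋₊ (F.t ω) i b ∧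
      2 ^ ⌊η * J⌋₊ / 2 ^ N₀ ≤ |eval b (Dx (ptr F J ω))| := by
    intro ω hω
    rw [hA'] at hω
    by_contra h
    push Not at h
    refine hω.2 ?_
    rw [hB₀]
    exact ⟨hω.1, fun b hb => (h b hb).le⟩
  have hNB : ∀ B : F.Ω → Prop, Pe F.p A' ≤ N * Pe F.p B →
      η' / ((N : ℝ) + 1) * Pe F.p A ≤ Pe F.p B := by
    intro B hB
    rw [div_mul_eq_mul_div, div_le_iff₀ (by positivity)]
    have h1 : 0 ≤ Pe F.p B := Pe_nonneg F.isLaw B
    nlinarith
  -- the numbers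
  obtain ⟨e₁, he₁⟩ : ∃ e₁ : ℕ, e₁ = ⌊e₀ * J⌋₊ + (⌊(vs + εh) * J⌋₊ + 1) + ⌊εh * J⌋₊ := ⟨_, rfl⟩
  obtain ⟨e', he'⟩ : ∃ e' : ℕ, e' = e₁ + E (i + 1) + (⌊(vs + εh) * J⌋₊ + 1) + ⌊2 * εh * J⌋₊ :=
    ⟨_, rfl⟩
  have hf1 : (⌊e₀ * J⌋₊ : ℝ) ≤ e₀ * J := Nat.floor_le (mul_nonneg he₀ hJ0)
  have hf2 : (⌊(vs + εh) * J⌋₊ : ℝ) ≤ (vs + εh) * J :=
    Nat.floor_le (mul_nonneg (by linarith) hJ0)
  have hf3 : (⌊εh * J⌋₊ : ℝ) ≤ εh * J := Nat.floor_le (mul_nonneg hε0.le hJ0)
  have hf4 : (⌊2 * εh * J⌋₊ : ℝ) ≤ 2 * εh * J := Nat.floor_le (mul_nonneg (by linarith) hJ0)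
  have hf5 : (⌊a * J⌋₊ : ℝ) ≤ a * J := Nat.floor_le (mul_nonneg ha0.le hJ0)
  have hf6 : (⌊w * J⌋₊ : ℝ) ≤ w * J := Nat.floor_le (mul_nonneg hw.le hJ0)
  have hEi := hEle i
  rw [hepi] at hEi
  have hJi := hJm i le_rfl
  rw [hepi] at hJi
  have he₁r : (e₁ : ℝ) ≤ (e₀ + vs + 2 * εh) * J + 1 := by
    rw [he₁]
    push_cast
    linarith
  have he'r : (e' : ℝ) ≤ (e₀ + 2 * vs + 6 * εh) * J + 2 := by
    rw [he']
    push_cast
    linarith
  have hgd : ∀ l < i, ∀ l' ≤ l, g l' ≤ g l + (⌊(vs + εh) * J⌋₊ + 1) := by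
    intro l hl l' hl'
    rcases hl'.lt_or_eq with h | h
    · have h1 := hsrt l (by omega) l' h
      have h2 := hgub l' (by omega)
      have h3 := hglb l
      have h4 := hdle l hl
      have h5 := heple l hl.le
      have h6 : (β l' - d l') * J ≤ (β l - d l + (vs + εh)) * J := by
        refine mul_le_mul_of_nonneg_right ?_ hJ0
        have := hd0 l' (by omega)
        rw [hβ]
        show bet P c l' a w - d l' ≤ bet P c l a w - d l + (vs + εh)
        linarith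
      have h7 : (g l' : ℝ) < (g l : ℝ) + ⌊(vs + εh) * J⌋₊ + 2 := by
        linarith [Nat.lt_floor_add_one ((vs + εh) * J)]
      have h8 : g l' < g l + ⌊(vs + εh) * J⌋₊ + 2 := by exact_mod_cast h7
      omega
    · subst h
      omega
  refine hrel (A := A') (e := ⌊e₀ * J⌋₊) (e₁ := e₁) (e' := e') (e₀ := ⌊εt / 2 * J⌋₊)
    (y := ⌊η * J⌋₊) (N₀ := N₀) (q := q) (E := E) (G := G) (H := H) (Dx := Dx) (Dl := Dl)
    hA'0 (Nat.floor_mono (mul_le_mul_of_nonneg_right hwa hJ0))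
    (hc.mono fun l hl => lt_of_lt_of_le hl hi) (hL.sub hA'A) k1 k2 k3 k4
    (fun ω hω => k5 ω (hA'A ω hω)) (fun ω hω => k6 ω (hA'A ω hω)) hlow ?_ ?_ ?_ ?_ ?_ ?_ ?_ ?_ ?_
    ?_ ?_ ?_
  · -- the time
    refine tmN_of htmJ ?_ hA'A hA'0 fun B _ hB => hNB B hB
    linarith [Nat.lt_floor_add_one (εt / 2 * J)]
  · -- `E 0`
    rw [hE0]
    refine Nat.le_floor ?_
    push_cast
    have : (⌊εt / 2 * J⌋₊ : ℝ) ≤ εt / 2 * J := Nat.floor_le (by positivity)
    linarith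
  · intro l hl
    rw [hEs]
    refine Nat.le_floor ?_
    push_cast
    rw [hE0]
    have h1 : (⌊εt * J⌋₊ : ℝ) ≤ εt * J := Nat.floor_le (by positivity)
    have h2 : (κ : ℝ) * ⌊εt * J⌋₊ ≤ κ * (εt * J) := mul_le_mul_of_nonneg_left h1 (by linarith)
    have h3 := mul_le_mul_of_nonneg_right hεtκ hJ0
    have h4 : εm * J ≤ eps l * J := mul_le_mul_of_nonneg_right (hεml l (by omega)) hJ0
    have h5 : 0 ≤ εm * J := by positivity
    linarith
  · intro l hl
    rw [hEs (l + 1)]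
    refine Nat.le_floor ?_
    push_cast
    have h1 : ((V : ℝ) + 4) ^ (D * dgp K l i + 1) ≤ Zf V D r (T l) := by
      have h2 : (V + 4) ^ (D * dgp K l i + 1) ≤ Zf V D r (T l) := by
        unfold Zf
        refine le_trans (Nat.pow_le_pow_right (by omega) ?_) (Nat.le_add_right _ _)
        exact Nat.add_le_add_right (Nat.mul_le_mul_left _ (hdg l i hl le_rfl)) _
      exact_mod_cast h2
    calc ((V : ℝ) + 4) ^ (D * dgp K l i + 1) * (E (l + 1) : ℝ) ≤
          Zf V D r (T l) * (eps l * J) :=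
          mul_le_mul h1 (hEle l) (Nat.cast_nonneg _) (Nat.cast_nonneg _)
      _ = eps l * Zf V D r (T l) * J := by ring
      _ ≤ _ := mul_le_mul_of_nonneg_right (hepm l (l + 1) (by omega) (by omega)) hJ0
  · intro l hl
    have := hql l hl
    omega
  · intro l hl
    have h1 := hql l hl
    have h2 := hgls l hl
    omega
  · have h1 : ∑ j ∈ range i, (g j - q j) * (D * dgp K j i) =
        ∑ j ∈ range i, x j * (D * dgp K j i) := Finset.sum_congr rfl fun j hj => by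
      have := hql j (mem_range.1 hj)
      congr 1
      omega
    rw [h1]
    refine Nat.le_floor ?_
    rw [Nat.cast_add, Nat.cast_add, Nat.cast_sum]
    have h2 : ∀ j ∈ range i, ((x j * (D * dgp K j i) : ℕ) : ℝ) ≤ εh * J / (6 * (r + 1)) := by
      intro j hj
      rw [mem_range] at hj
      have h3 := hxle j hj
      have h4 := hloss j i D hj le_rfl (hDT j)
      rw [hepi] at h4
      rw [le_div_iff₀ (by positivity), Nat.cast_mul]
      have h5 := mul_le_mul_of_nonneg_right h4 hJ0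
      have h6 := mul_le_mul_of_nonneg_right h3
        (show (0 : ℝ) ≤ ((D * dgp K j i : ℕ) : ℝ) * (6 * (r + 1)) by positivity)
      linarith
    have h3 := Finset.sum_le_sum h2
    rw [Finset.sum_const, card_range, nsmul_eq_mul] at h3
    have h4 : (i : ℝ) * (εh * J / (6 * (r + 1))) ≤ εh * J / 6 := by
      rw [mul_div_assoc', div_le_div_iff₀ (by positivity) (by norm_num)]
      have h5 : (i : ℝ) ≤ r + 1 := by
        have : i ≤ r + 1 := by omega
        exact_mod_cast this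
      have h6 : 0 ≤ εh * J := mul_nonneg hε0.le hJ0
      have := mul_le_mul_of_nonneg_right h5 h6
      linarith
    have h5 : εh * J ≤ η / 8 * J := mul_le_mul_of_nonneg_right hε1 hJ0
    have h6 : 0 ≤ εh * J := mul_nonneg hε0.le hJ0
    linarith
  · intro l hl l' hl'
    have h1 : nlp g l' l ≤ ⌊(vs + εh) * J⌋₊ + 1 := by
      unfold nlp
      have : (Finset.Icc l' l).sup g ≤ g l + (⌊(vs + εh) * J⌋₊ + 1) :=
        Finset.sup_le fun j hj => hgd l hl j (Finset.mem_Icc.1 hj).2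
      omega
    have h2 := hgls l hl
    have h3 := hxle l hl
    have h4 := hEge l
    have h5 : eps l * 4 ≤ εh := by
      have h6 := hepm l i hl le_rfl
      rw [hepi] at h6
      refine le_trans (mul_le_mul_of_nonneg_left ?_ (hep0 l).le) h6
      have : 4 ≤ Zf V D r (T l) := by
        unfold Zf
        have h7 : (V + 4) ^ 1 ≤ (V + 4) ^ (D * T l ^ r + 1) :=
          Nat.pow_le_pow_right (by omega) (by omega)
        rw [pow_one] at h7
        omega
      exact_mod_cast this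
    have h6 := mul_le_mul_of_nonneg_right h5 hJ0
    have h7 := hJm l hl.le
    have h8 : κ + gls K g q l ≤ ⌊εh * J⌋₊ := by
      refine Nat.le_floor ?_
      have h9 : (E (l + 1) : ℝ) + (κ + gls K g q l : ℕ) = x l := by
        rw [← h2]
        push_cast
        ring
      linarith
    rw [he₁]
    omega
  · intro l hl l' hl'
    have h1 := hgd l hl l' hl'
    have h2 := hql l hl
    have h3 := hql l' (by omega)
    have h4 : x l ≤ ⌊2 * εh * J⌋₊ := by
      refine Nat.le_floor ((hxle l hl).trans ?_)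
      exact mul_le_mul_of_nonneg_right (by linarith [heple l hl.le]) hJ0
    rw [he']
    omega
  · intro l hl
    have h1 := hql l hl
    have h2 := hgub l hl
    have h3 : (q l : ℝ) ≤ g l := by
      have : q l ≤ g l := by omega
      exact_mod_cast this
    have h4 := hσl l (by omega)
    have h5 : (q l : ℝ) + e₁ + 7 * E (i + 1) ≤ J := by
      have h6 : (β l - d l) * J + ((e₀ + vs + 2 * εh) * J + 1) + 7 * (εh * J) ≤ 1 * J := by
        have h7 : (β l - d l + (e₀ + vs + 2 * εh) + εh + 7 * εh) * J ≤ 1 * J := by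
          refine mul_le_mul_of_nonneg_right ?_ hJ0
          have := hd0 l hl
          rw [hβ]
          show bet P c l a w - d l + (e₀ + vs + 2 * εh) + εh + 7 * εh ≤ 1
          linarith
        linarith
      linarith
    exact_mod_cast h5
  · have h1 : (⌊w * J⌋₊ : ℝ) + 4 * E (i + 1) ≤ J := by
      have h2 : (w + 4 * εh) * J ≤ 1 * J := mul_le_mul_of_nonneg_right (by linarith) hJ0
      linarith
    exact_mod_cast h1
  · intro l hl μ hμ1 hμ2 B hB hPB hch
    have hlr : l < r := by omega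
    have hEl := hEge l
    have hJl := hJm l hl.le
    have hel : εm ≤ eps l := hεml l (by omega)
    have hμr1 : eps l * J - 1 ≤ (μ : ℝ) := hEl.trans (by exact_mod_cast hμ1)
    have hμr2 : (μ : ℝ) ≤ εh * J := (show (μ : ℝ) ≤ E (i + 1) by exact_mod_cast hμ2).trans hEi
    have hμ0 : (0 : ℝ) < μ := by
      have : 0 ≤ eps l * J := mul_nonneg (hep0 l).le hJ0
      linarith
    obtain ⟨t, ht⟩ : ∃ t : ℝ, t = 4 * μ / (J * o') := ⟨_, rfl⟩
    have hJo : 0 < J * o' := mul_pos hJp ho'0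
    have ht' : t * (J * o') = 4 * μ := by rw [ht]; field_simp
    have ht0 : 0 < t := by rw [ht]; positivity
    have ht1 : t ≤ 1 := by
      rw [ht, div_le_one hJo]
      have h1 : εh * J ≤ o' / 8 * J := mul_le_mul_of_nonneg_right hε2 hJ0
      have h2 : 0 ≤ o' * J := by positivity
      linarith
    obtain ⟨k, hk1, hk2⟩ := exists_nat_pow_near_of_lt_one ht0 ht1
      (show (0 : ℝ) < 1 / 2 by norm_num) (by norm_num)
    have hkm' : k < km := by
      by_contra h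
      push Not at h
      have h1 : (1 / 2 : ℝ) ^ k ≤ (1 / 2) ^ km :=
        pow_le_pow_of_le_one (by norm_num) (by norm_num) h
      have h2 : 2 * εm / o' ≤ t := by
        rw [ht, div_le_div_iff₀ ho'0 hJo]
        have h3 : εm * J ≤ eps l * J := mul_le_mul_of_nonneg_right hel hJ0
        have h4 : 2 * (εm * J) ≤ 4 * μ := by linarith
        calc 2 * εm * (J * o') = 2 * (εm * J) * o' := by ring
          _ ≤ 4 * μ * o' := mul_le_mul_of_nonneg_right h4 ho'0.le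
      linarith
    obtain ⟨ok, hokd⟩ : ∃ ok : ℝ, ok = o' * (1 / 2) ^ k := ⟨_, rfl⟩
    have hk3 : 4 * (μ : ℝ) ≤ ok * J := by
      have h1 := mul_le_mul_of_nonneg_right hk2 hJo.le
      rw [ht'] at h1
      rw [hokd]
      linarith
    have hk4 : ok * J ≤ 8 * μ := by
      have h1 := mul_le_mul_of_nonneg_right hk1.le hJo.le
      rw [ht', pow_succ] at h1
      rw [hokd]
      linarith
    have h1 := hbk k l hlr
    have h2 := hw'1 k
    have h3 := ha'1 k
    have h4 := ha'2 k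
    have h5 := hw'2 k
    rw [← hokd] at h1 h2 h3 h4 h5
    have hok0 : 0 < ok := by rw [hokd]; positivity
    have hql1 := hql l hl
    have hgl := hglb l
    have hgl' := hgub l hl
    have hdl := hdle l hl
    have hxl := hxle l hl
    have hqr : (q l : ℝ) = g l - x l := by
      have : (q l : ℝ) + x l = g l := by exact_mod_cast hql1
      linarith
    refine hnoJ k hkm' l hl B (fun ω hω => hA'A ω (hB ω hω)) (hNB B hPB) _ _ _ _ ?_ ?_ ?_ ?_ ?_ ?_
      hch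
    · exact Nat.add_le_add_right (Nat.floor_mono (mul_le_mul_of_nonneg_right hwa hJ0)) _
    · refine Nat.le_floor ?_
      push_cast
      have : (a + 3 / 2 * ok) * J ≤ a' k * J := mul_le_mul_of_nonneg_right h3.le hJ0
      linarith
    · refine Nat.le_floor ?_
      push_cast
      have : (w + ok) * J ≤ w' k * J := mul_le_mul_of_nonneg_right h2.le hJ0
      linarith
    · refine Nat.le_floor (he'r.trans ?_)
      have h6 : (e₀ + 2 * vs + 6 * εh + 1 * εh) * J ≤ θ * w * J := by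
        refine mul_le_mul_of_nonneg_right ?_ hJ0
        linarith
      linarith
    · intro l' hl'
      have h6 : ∀ l₁ < i, (q l₁ : ℝ) ≤ (1 - σ) * J := by
        intro l₁ hl₁
        have h7 := hσl l₁ (by omega)
        have h8 := hql l₁ hl₁
        have h9 : (q l₁ : ℝ) ≤ g l₁ := by
          have : q l₁ ≤ g l₁ := by omega
          exact_mod_cast this
        have h10 := hgub l₁ hl₁
        have h11 : (β l₁ - d l₁) * J ≤ (1 - σ) * J := by
          refine mul_le_mul_of_nonneg_right ?_ hJ0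
          have := hd0 l₁ hl₁
          have h12 : 0 < θ * w := by positivity
          rw [hβ]
          show bet P c l₁ a w - d l₁ ≤ 1 - σ
          linarith
        linarith
      have h7 : (V + 10) * εh * J ≤ σ * J := by
        refine mul_le_mul_of_nonneg_right ?_ hJ0
        have : 0 ≤ (V + 10) * εh := by positivity
        linarith
      have h8 : (V : ℝ) * μ ≤ V * (εh * J) := mul_le_mul_of_nonneg_left hμr2 hV0'
      have h9 : 0 ≤ V * (εh * J) := by positivity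
      have h10 : (E (l + 1) : ℝ) ≤ εh * J :=
        (hEle l).trans (mul_le_mul_of_nonneg_right (heple l hl.le) hJ0)
      show (if l' < l then q l' + 4 * μ else q l + E (l + 1) + V * μ) ≤ J
      split_ifs with h
      · have h11 := h6 l' (by omega)
        have h12 : (q l' : ℝ) + 4 * μ ≤ J := by linarith
        exact_mod_cast h12
      · have h11 := h6 l hl
        have h12 : (q l : ℝ) + E (l + 1) + V * μ ≤ J := by linarith
        exact_mod_cast h12
    · show ⌊(bet P c l (a' k) (w' k) + eps l) * J⌋₊ + (⌊a * J⌋₊ + 4 * μ) ≤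
        (if l < l then q l + 4 * μ else q l + E (l + 1) + V * μ) + ⌊(a' k : ℝ) * J⌋₊
      rw [if_neg (lt_irrefl l)]
      have hb0 : 0 ≤ bet P c l (a' k) (w' k) := by
        have h6 : (0 : ℝ) ≤ w' k := by linarith
        have h7 : (w' k : ℝ) ≤ a' k := by linarith
        have h8 : (a' k : ℝ) ≤ 1 := by linarith [(hok k).2, hokd]
        exact (by linarith : (0 : ℝ) ≤ a' k).trans (hP.low _ _ _ h6 h7 h8)
      have h6 : (⌊(bet P c l (a' k) (w' k) + eps l) * J⌋₊ : ℝ) ≤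
          (bet P c l (a' k) (w' k) + eps l) * J :=
        Nat.floor_le (mul_nonneg (add_nonneg hb0 (hep0 l).le) hJ0)
      have h7 : (bet P c l (a' k) (w' k) + eps l) * J ≤ (β l + V₀ * (2 * ok) + eps l) * J := by
        refine mul_le_mul_of_nonneg_right ?_ hJ0
        rw [hβ]
        show _ ≤ bet P c l a w + V₀ * (2 * ok) + eps l
        linarith
      have h8 : V₀ * (ok * J) ≤ V₀ * (8 * μ) := mul_le_mul_of_nonneg_left hk4 hV₀0
      have h9 : (16 * V₀ + 4) * (μ : ℝ) ≤ V * μ := mul_le_mul_of_nonneg_right hVr hμ0.le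
      have h10 := Nat.lt_floor_add_one ((a' k : ℝ) * J)
      have h11 : (a + 3 / 2 * ok) * J ≤ a' k * J := mul_le_mul_of_nonneg_right h3.le hJ0
      have h12 : d l * J ≤ eps l * J := mul_le_mul_of_nonneg_right hdl hJ0
      have h13 : ((⌊(bet P c l (a' k) (w' k) + eps l) * J⌋₊ + (⌊a * J⌋₊ + 4 * μ) : ℕ) : ℝ) ≤
          ((q l + E (l + 1) + V * μ + ⌊(a' k : ℝ) * J⌋₊ : ℕ) : ℝ) := by
        push_cast
        rw [hqr]
        linarith
      exact_mod_cast h13

/-- **Points of a class with a greedy order**, from the thresholds only: the precisions of the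
coordinates grow at most linearly along the diagonal, all are visible, and the order is greedy. -/
theorem Pts.of_up (hS0 : S.Ne) (hP : ThrOf (chsys m θ) S P) (hθ : 0 < θ) (hS : TmH S)
    {c : ℕ → Fin m} {r N : ℕ} (hc : Set.InjOn c (Set.Iio r)) {a w : ℕ → ℝ} {vs e₀ : ℝ}
    (hvs : 0 ≤ vs) (he₀ : 0 ≤ e₀) (pos : ∀ k < N, 0 < w k) (wa : ∀ k < N, w k ≤ a k)
    (lt : ∀ k < N, a k < 1) (he : ∀ k < N, e₀ + 2 * vs < θ * w k)
    (rc : ∀ k < N, ∀ i < r, ∀ l ≤ i, Rc (tau P c l i) (a k) (w k))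
    (up : ∀ k < N, ∀ i < r, Up1 (bet P c i) (a k) (w k))
    (vis : ∀ k < N, ∀ i < r, bet P c i (a k) (w k) + θ * w k < 1)
    (gre : ∀ k < N, ∀ i < r, ∀ l < i,
      bet P c l (a k) (w k) ≤ tau P c l i (a k) (w k) + vs) :
    Pts S P θ c r N a w vs e₀ := by
  refine Pts.of_greedy hS0 hP hc pos wa lt rc vis gre fun k hk => ?_
  refine relvC_of hP hθ hS hc (pos k hk) (wa k hk) (lt k hk) (up k hk) (vis k hk) hvs
    (fun i hi l hl => ?_) he₀ (he k hk)
  have h1 := tau_mono hS0 hP (hc.mono fun x (hx : x < i + 1) => show x < r by omega) hl.le le_rfl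
    (pos k hk) (wa k hk) (rc k hk i hi i le_rfl)
  rw [tau_self] at h1
  linarith [gre k hk i hi l hl]

end Pool.CHT
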