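import Pool.Agent.H2.GEN.AttF4
import Pool.Agent.H2.GEN.Rlv

/-!
# Chains at several points of a class, with their own slowness

`Ptq`: `Pts` with a slowness `vs k` and a bound `e₀ k` for every point. `jattq`: the chains.
-/

set_option autoImplicit false

namespace Pool.CHT

open Finset Real MvPolynomial
open Pool.Agent.H49.Ent Pool.Agent.H32.Dense Pool.STK Pool.KA Pool.KSAT Pool.K2S Pool.PB Pool.S6C
open Pool.GEN
open Pool.LBT (LSys Slo Tri ThrOf)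
open Pool.LEV (Law)

variable {m J : ℕ} {θ : ℝ} {S : PCl m} {P : List (Fin m) × Fin m → ℝ → ℝ → ℝ}

/-- **Points of a class with a greedy order of the coordinates**, with their own slowness. -/
structure Ptq (S : PCl m) (P : List (Fin m) × Fin m → ℝ → ℝ → ℝ) (θ : ℝ) (c : ℕ → Fin m)
    (r N : ℕ) (a w : ℕ → ℝ) (vs e₀ : ℕ → ℝ) : Prop where
  pos : ∀ k < N, 0 < w k
  wa : ∀ k < N, w k ≤ a k
  lt : ∀ k < N, a k < 1
  rc : ∀ k < N, ∀ i < r, ∀ l ≤ i, Rc (tau P c l i) (a k) (w k)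
  vis : ∀ k < N, ∀ i < r, ∀ l ≤ i, tau P c l i (a k) (w k) + θ * w k < 1
  gre : ∀ k < N, ∀ i < r, ∀ l < i, bet P c l (a k) (w k) ≤ tau P c l i (a k) (w k) + vs k
  srt : ∀ k < N, ∀ i < r, ∀ l < i, bet P c l (a k) (w k) ≤ bet P c i (a k) (w k) + vs k
  rel : ∀ k < N, RelvC S c r (fun l => bet P c l (a k) (w k)) (a k) (w k) (e₀ k)

theorem RelvC.zero {c : ℕ → Fin m} {r : ℕ} {β : ℕ → ℝ} {a w e₀ : ℝ} (h : RelvC S c r β a w e₀) :
    RelvC S c r β a w 0 := by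
  intro D η hη
  obtain ⟨φ, h1, h2⟩ := h D η hη
  refine ⟨φ, h1, fun i hi K d hd η' hη' => Bas.mono 0 (h2 i hi K d hd η' hη') ?_⟩
  intro J _ F A hR G H hL
  exact hR G H (hL.mono le_rfl (fun _ => le_rfl) le_rfl (by
    rw [zero_mul, Nat.floor_zero]
    exact Nat.zero_le _))

theorem Ptq.pts {c : ℕ → Fin m} {r N : ℕ} {a w : ℕ → ℝ} {vs e₀ : ℕ → ℝ}
    (h : Ptq S P θ c r N a w vs e₀) : ∃ vs' : ℝ, Pts S P θ c r N a w vs' 0 := by
  have hv : ∀ k < N, vs k ≤ ∑ k ∈ range N, |vs k| := fun k hk =>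
    (le_abs_self _).trans (Finset.single_le_sum (f := fun k => |vs k|)
      (fun _ _ => abs_nonneg _) (mem_range.2 hk))
  refine ⟨∑ k ∈ range N, |vs k|, h.pos, h.wa, h.lt, h.rc, h.vis, fun k hk i hi l hl => ?_,
    fun k hk i hi l hl => ?_, fun k hk => (h.rel k hk).zero⟩
  · linarith [h.gre k hk i hi l hl, hv k hk]
  · linarith [h.srt k hk i hi l hl, hv k hk]

/-- **Points of a class with a greedy order**, from the thresholds only. -/
theorem Ptq.of_up (hS0 : S.Ne) (hP : ThrOf (chsys m θ) S P) (hθ : 0 < θ) (hS : TmH S)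
    {c : ℕ → Fin m} {r N : ℕ} (hc : Set.InjOn c (Set.Iio r)) {a w : ℕ → ℝ} {vs e₀ : ℕ → ℝ}
    (hvs : ∀ k < N, 0 ≤ vs k) (he₀ : ∀ k < N, 0 ≤ e₀ k) (pos : ∀ k < N, 0 < w k)
    (wa : ∀ k < N, w k ≤ a k) (lt : ∀ k < N, a k < 1)
    (he : ∀ k < N, e₀ k + 2 * vs k < θ * w k)
    (rc : ∀ k < N, ∀ i < r, ∀ l ≤ i, Rc (tau P c l i) (a k) (w k))
    (up : ∀ k < N, ∀ i < r, Up1 (bet P c i) (a k) (w k))
    (vis : ∀ k < N, ∀ i < r, bet P c i (a k) (w k) + θ * w k < 1)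
    (gre : ∀ k < N, ∀ i < r, ∀ l < i,
      bet P c l (a k) (w k) ≤ tau P c l i (a k) (w k) + vs k) :
    Ptq S P θ c r N a w vs e₀ := by
  have key : ∀ k < N, Pts S P θ c r 1 (fun _ => a k) (fun _ => w k) (vs k) (e₀ k) := fun k hk =>
    Pts.of_up hS0 hP hθ hS hc (hvs k hk) (he₀ k hk) (fun _ _ => pos k hk) (fun _ _ => wa k hk)
      (fun _ _ => lt k hk) (fun _ _ => he k hk) (fun _ _ => rc k hk) (fun _ _ => up k hk)
      (fun _ _ => vis k hk) (fun _ _ => gre k hk)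
  exact ⟨pos, wa, lt, rc, fun k hk => (key k hk).vis 0 one_pos, gre,
    fun k hk => (key k hk).srt 0 one_pos, fun k hk => (key k hk).rel 0 one_pos⟩

/-- The conclusion, for the first `i` coordinates. -/
def Jatq (S : PCl m) (P : List (Fin m) × Fin m → ℝ → ℝ → ℝ) (c : ℕ → Fin m) (N : ℕ) (a w : ℕ → ℝ)
    (i : ℕ) (φ : ℕ → ℕ → ℝ) (e : ℕ → ℝ) : Prop :=
  ∃ (K : ℕ → ℕ) (d δ : ℕ → ℝ) (K₁ : ℝ), 0 < K₁ ∧ (∀ l, 1 ≤ K l) ∧ Hie φ i K d ∧ Hie φ i K δ ∧
    Bas S (fun J F A => ∃ (B : F.Ω → Prop)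
      (G : ℕ → PtT F → ℕ → MvPolynomial (Option (Fin m)) ℝ)
      (H : ℕ → LnT F → ℕ → MvPolynomial (Option (Fin m)) ℝ), Sub B A ∧
      Pe F.p A ≤ K₁ * Pe F.p B ∧ MCq F c i K N (fun k k' => a k ≤ a k' ∧ w k ≤ w k')
        (fun k => ⌊a k * J⌋₊) (fun k => ⌊w k * J⌋₊) (fun k => ⌊e k * J⌋₊)
        (fun k l => ⌊(bet P c l (a k) (w k) - d l) * J⌋₊) (fun l => ⌊δ l * J⌋₊) B G H)

theorem MCq.congr {F : Fam m J} {c : ℕ → Fin m} {i : ℕ} {K K' : ℕ → ℕ} {N : ℕ}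
    {R : ℕ → ℕ → Prop} {a w : ℕ → ℕ} {e : ℕ → ℕ} {g g' : ℕ → ℕ → ℕ} {δ δ' : ℕ → ℕ} {B : F.Ω → Prop}
    {G : ℕ → PtT F → ℕ → MvPolynomial (Option (Fin m)) ℝ}
    {H : ℕ → LnT F → ℕ → MvPolynomial (Option (Fin m)) ℝ} (h : MCq F c i K N R a w e g δ B G H)
    (hK : ∀ l < i, K l ≤ K' l) (hg : ∀ k, ∀ l < i, g' k l = g k l) (hδ : ∀ l < i, δ' l = δ l) :
    ∃ (G' : ℕ → PtT F → ℕ → MvPolynomial (Option (Fin m)) ℝ)
      (H' : ℕ → LnT F → ℕ → MvPolynomial (Option (Fin m)) ℝ),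
      MCq F c i K' N R a w e g' δ' B G' H' := by
  obtain ⟨G', hG'⟩ : ∃ G' : ℕ → PtT F → ℕ → MvPolynomial (Option (Fin m)) ℝ,
    G' = fun k y l => if l < i then G k y l else 0 := ⟨_, rfl⟩
  obtain ⟨H', hH'⟩ : ∃ H' : ℕ → LnT F → ℕ → MvPolynomial (Option (Fin m)) ℝ,
    H' = fun k y l => if l < i then H k y l else 0 := ⟨_, rfl⟩
  have gl : ∀ k y, ∀ l < i, G' k y l = G k y l := fun k y l hl => by rw [hG']; exact if_pos hl
  have gg : ∀ k y l, i ≤ l → G' k y l = 0 := fun k y l hl => by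
    rw [hG']; exact if_neg (by omega)
  have hl' : ∀ k y, ∀ l < i, H' k y l = H k y l := fun k y l hl => by rw [hH']; exact if_pos hl
  have hg' : ∀ k y l, i ≤ l → H' k y l = 0 := fun k y l hl => by
    rw [hH']; exact if_neg (by omega)
  have bx : ∀ {k : ℕ} {y : PtT F} {x : ℕ} {t : ℝ} {l : ℕ} {b : Option (Fin m) → ℝ}, l ≤ i →
      NBx c (G' k y) (g' k) x t l b → NBx c (G k y) (g k) x t l b := by
    intro k y x t l b hl hb
    refine ⟨hb.1, fun j hj => ?_⟩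
    rw [← gl k y j (by omega), ← hg k j (by omega)]
    exact hb.2 j hj
  have d0 : ∀ l : ℕ, DepC c l (0 : MvPolynomial (Option (Fin m)) ℝ) := by
    intro l b b' _ _
    rw [map_zero, map_zero]
  refine ⟨G', H', ⟨fun k hk => ⟨fun y l => ?_, fun s l => ?_, fun y l => ?_, fun s l => ?_,
    fun ω hω l hl => ?_, fun ω hω l hl b hb => ?_, fun ω hω l hl b hb j hj => ?_⟩,
    fun k' hk' k hk hR l hl ω hω b hb => ?_, fun k' hk' k hk hR l hl ω hω b hb => ?_,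
    fun k hk l hl ω hω b hb => ?_⟩⟩
  · rcases Nat.lt_or_ge l i with h1 | h1
    · rw [gl k y l h1]; exact ((h.ok k hk).degG y l).trans (hK l h1)
    · rw [gg k y l h1, totalDegree_zero]; exact Nat.zero_le _
  · rcases Nat.lt_or_ge l i with h1 | h1
    · rw [hl' k s l h1]; exact ((h.ok k hk).degH s l).trans (hK l h1)
    · rw [hg' k s l h1, totalDegree_zero]; exact Nat.zero_le _
  · rcases Nat.lt_or_ge l i with h1 | h1
    · rw [gl k y l h1]; exact (h.ok k hk).depG y l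
    · rw [gg k y l h1]; exact d0 l
  · rcases Nat.lt_or_ge l i with h1 | h1
    · rw [hl' k s l h1]; exact (h.ok k hk).depH s l
    · rw [hg' k s l h1]; exact d0 l
  · rw [gl k _ l hl, hg k l hl]
    exact (h.ok k hk).pos ω hω l hl
  · rw [gl k _ l hl, hl' k _ l hl, hg k l hl]
    exact (h.ok k hk).agr ω hω l hl b (bx hl.le hb)
  · rw [gl k _ l hl, nlp_congr (l := j) (g := g' k) (g' := g k) fun x hx => hg k x (by omega)]
    exact (h.ok k hk).lip ω hω l hl b (bx hl.le hb) j hj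
  · rw [gl k' _ l hl, gl k _ l hl, hg k l hl, hδ l hl]
    exact h.uni k' hk' k hk hR l hl ω hω b (bx hl.le hb)
  · rw [gl k _ l hl, hl' k _ l hl, hg k l hl, hδ l hl]
    exact h.two k' hk' k hk hR l hl ω hω b (bx hl.le hb)
  · rw [gl k _ l hl, hδ l hl]
    exact h.siz k hk l hl ω hω b (bx hl.le hb)

/-- **One more coordinate.** -/
theorem jatq_succ (hP : ThrOf (chsys m θ) S P) (hθ : 0 < θ) (hS : TmH S) {c : ℕ → Fin m} {r N : ℕ}
    (hc : Set.InjOn c (Set.Iio r)) {a w : ℕ → ℝ} {vs e₀ : ℕ → ℝ} (hvs : ∀ k < N, 0 ≤ vs k)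
    (h : Ptq S P θ c r N a w vs e₀) {i : ℕ} (hi : i < r)
    (ih : ∀ φ : ℕ → ℕ → ℝ, (∀ l n, 0 < φ l n) → ∀ e : ℕ → ℝ,
      (∀ k < N, Csl r i * vs k < e k) → (∀ k < N, e k ≤ e₀ k) →
      Jatq S P c N a w i φ e) (φ : ℕ → ℕ → ℝ) (hφ : ∀ l n, 0 < φ l n) (e : ℕ → ℝ)
    (he : ∀ k < N, Csl r (i + 1) * vs k < e k) (he₀ : ∀ k < N, e k ≤ e₀ k) :
    Jatq S P c N a w (i + 1) φ e := by
  -- the parameters
  obtain ⟨μ, hμ, hμw⟩ := fin_pos N h.pos
  obtain ⟨ρ, hρ0, hρ⟩ := fin_pos N (f := fun k => e k - Csl r (i + 1) * vs k) fun k hk => by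
    have := he k hk
    linarith
  have hCsl : (Csl r (i + 1) : ℝ) = 1 + r * (Csl r i + 1) := by
    show ((1 + r * (Csl r i + 1) : ℕ) : ℝ) = _
    push_cast
    ring
  obtain ⟨x, hx⟩ : ∃ x : ℝ, x = min (φ i 0) (μ / 8) := ⟨_, rfl⟩
  have hx0 : 0 < x := by rw [hx]; exact lt_min (hφ i 0) (by positivity)
  have hx1 : x ≤ φ i 0 := by rw [hx]; exact min_le_left _ _
  have hx2 : x ≤ μ / 8 := by rw [hx]; exact min_le_right _ _
  obtain ⟨h₂, hh₂⟩ : ∃ h₂ : ℝ, h₂ = min (x / 2) (ρ / 8) := ⟨_, rfl⟩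
  have h20 : 0 < h₂ := by rw [hh₂]; exact lt_min (by positivity) (by positivity)
  have h21 : h₂ ≤ x / 2 := by rw [hh₂]; exact min_le_left _ _
  have h22 : h₂ ≤ ρ / 8 := by rw [hh₂]; exact min_le_right _ _
  obtain ⟨vs', hpts⟩ := h.pts
  obtain ⟨D₀, hatt⟩ := att_all hP hθ hS hc hpts hi h20
  obtain ⟨D, hD⟩ : ∃ D, D = max D₀ 1 := ⟨_, rfl⟩
  have hD1 : 1 ≤ D := by rw [hD]; exact le_max_right _ _
  have hD1' : (1 : ℝ) ≤ D := by exact_mod_cast hD1
  obtain ⟨C, hfam⟩ := famq_step D r N hD1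
  obtain ⟨η, hη⟩ : ∃ η : ℝ, η = min (ρ / 8) (x / 4) / (C + 1) := ⟨_, rfl⟩
  have hη0 : 0 < η := by
    rw [hη]
    exact div_pos (lt_min (by positivity) (by positivity)) (by positivity)
  have hηC : (C + 1) * η ≤ min (ρ / 8) (x / 4) := by
    rw [hη, mul_div_cancel₀ _ (by positivity : (C + 1 : ℝ) ≠ 0)]
  have hC0 : (0 : ℝ) ≤ C := Nat.cast_nonneg C
  have hη1 : C * η ≤ ρ / 8 := by
    have := hηC.trans (min_le_left _ _)
    linarith
  have hη2 : C * η ≤ x / 4 := by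
    have := hηC.trans (min_le_right _ _)
    linarith
  have hη3 : η ≤ x / 4 := by
    have := hηC.trans (min_le_right _ _)
    nlinarith
  -- no relation
  have hrel : ∀ k, ∃ φ' : ℕ → ℕ → ℝ, (∀ l n, 0 < φ' l n) ∧ (k < N → ∀ (K : ℕ → ℕ) (d : ℕ → ℝ),
      Hie φ' i K d → Bas S (RelvS c i K (fun l => bet P c l (a k) (w k)) d (a k) (w k) (e₀ k) D η
        (1 / 2))) := by
    intro k
    by_cases hk : k < N
    · obtain ⟨φ', h1, h3⟩ := h.rel k hk D η hη0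
      exact ⟨φ', h1, fun _ K d hd => h3 i hi.le K d hd (1 / 2) (by norm_num)⟩
    · exact ⟨fun _ _ => 1, fun _ _ => one_pos, fun h => absurd h hk⟩
  choose φ₁ hφ₁ hrel using hrel
  have hψ : ∀ l n, ∃ y : ℝ, 0 < y ∧ ∀ k < N, y ≤ φ₁ k l n := fun l n =>
    fin_pos N fun k _ => hφ₁ k l n
  choose ψ hψ0 hψ1 using hψ
  have hr0 : (0 : ℝ) ≤ r := Nat.cast_nonneg r
  obtain ⟨ρ', hρ'⟩ : ∃ ρ' : ℝ, ρ' = ρ / (8 * (r + 1)) := ⟨_, rfl⟩
  have hρ'0 : 0 < ρ' := by rw [hρ']; positivity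
  have hρ'r : r * ρ' ≤ ρ / 8 := by
    rw [hρ', mul_div_assoc', div_le_div_iff₀ (by positivity) (by norm_num)]
    nlinarith
  obtain ⟨φ', hφ'⟩ : ∃ φ' : ℕ → ℕ → ℝ, φ' = fun l n => min (φ l (n + D)) (min (ψ l n)
      (min (μ / 8) (min ρ' (x / (8 * (r + 1) * D * (1 + n) ^ r))))) := ⟨_, rfl⟩
  have hφ'0 : ∀ l n, 0 < φ' l n := by
    intro l n
    rw [hφ']
    exact lt_min (hφ _ _) (lt_min (hψ0 _ _) (lt_min (by positivity) (lt_min hρ'0
      (by positivity))))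
  have f1 : ∀ l n, φ' l n ≤ φ l (n + D) := fun l n => by rw [hφ']; exact min_le_left _ _
  have f2 : ∀ l n, φ' l n ≤ ψ l n := fun l n => by
    rw [hφ']; exact (min_le_right _ _).trans (min_le_left _ _)
  have f3 : ∀ l n, φ' l n ≤ μ / 8 := fun l n => by
    rw [hφ']; exact (min_le_right _ _).trans ((min_le_right _ _).trans (min_le_left _ _))
  have f4 : ∀ l n, φ' l n ≤ ρ' := fun l n => by
    rw [hφ']
    exact (min_le_right _ _).trans ((min_le_right _ _).trans ((min_le_right _ _).trans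
      (min_le_left _ _)))
  have f5 : ∀ l n, φ' l n ≤ x / (8 * (r + 1) * D * (1 + n) ^ r) := fun l n => by
    rw [hφ']
    exact (min_le_right _ _).trans ((min_le_right _ _).trans ((min_le_right _ _).trans
      (min_le_right _ _)))
  obtain ⟨e₁, he₁⟩ : ∃ e₁ : ℕ → ℝ, e₁ = fun k => Csl r i * vs k + ρ' := ⟨_, rfl⟩
  have hr1 : (1 : ℝ) ≤ r := by exact_mod_cast (show 1 ≤ r by omega)
  have hCi : (0 : ℝ) ≤ Csl r i := Nat.cast_nonneg _
  have he₁e : ∀ k < N, e₁ k ≤ e k := by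
    intro k hk
    have h1 : Csl r i * vs k ≤ Csl r (i + 1) * vs k := by
      refine mul_le_mul_of_nonneg_right ?_ (hvs k hk)
      rw [hCsl]
      nlinarith
    have h3 : ρ' ≤ ρ := by
      have : 1 * ρ' ≤ r * ρ' := mul_le_mul_of_nonneg_right hr1 hρ'0.le
      linarith
    have h4 := hρ k hk
    rw [he₁]
    show Csl r i * vs k + ρ' ≤ e k
    linarith
  obtain ⟨K₀, d₀, δ₀, K₁, hK₁, hK0, hd₀, hδ₀, hlow⟩ := ih φ' hφ'0 e₁ (fun k hk => by
    rw [he₁]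
    show Csl r i * vs k < Csl r i * vs k + ρ'
    linarith) (fun k hk => (he₁e k hk).trans (he₀ k hk))
  obtain ⟨K, hK⟩ : ∃ K : ℕ → ℕ, K = fun l => if l = i then D else K₀ l := ⟨_, rfl⟩
  obtain ⟨d, hd⟩ : ∃ d : ℕ → ℝ, d = fun l => if l = i then x else d₀ l := ⟨_, rfl⟩
  obtain ⟨δ, hδ⟩ : ∃ δ : ℕ → ℝ, δ = fun l => if l = i then x else δ₀ l := ⟨_, rfl⟩
  have hKi : K i = D := by rw [hK]; exact if_pos rfl
  have hKl : ∀ l < i, K l = K₀ l := fun l hl => by rw [hK]; exact if_neg (by omega)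
  have hdi : d i = x := by rw [hd]; exact if_pos rfl
  have hdl : ∀ l < i, d l = d₀ l := fun l hl => by rw [hd]; exact if_neg (by omega)
  have hδi : δ i = x := by rw [hδ]; exact if_pos rfl
  have hδl : ∀ l < i, δ l = δ₀ l := fun l hl => by rw [hδ]; exact if_neg (by omega)
  have hd' : Hie φ' i K d := hd₀.congr hKl hdl
  have hδ' : Hie φ' i K δ := hδ₀.congr hKl hδl
  have hsum : ∀ l < i, ∑ l' ∈ Finset.Ioo l (i + 1), K l' = ∑ l' ∈ Finset.Ioo l i, K l' + D := by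
    intro l hl
    have e1 : Finset.Ioo l (i + 1) = insert i (Finset.Ioo l i) := by
      ext y
      rw [Finset.mem_insert, Finset.mem_Ioo, Finset.mem_Ioo]
      omega
    rw [e1, Finset.sum_insert (by rw [Finset.mem_Ioo]; omega), hKi, add_comm]
  have hie : ∀ d : ℕ → ℝ, Hie φ' i K d → d i = x → Hie φ (i + 1) K d := by
    intro d hd hdi l hl
    rcases Nat.lt_or_ge l i with h1 | h1
    · rw [hsum l h1]
      exact ⟨(hd l h1).1, (hd l h1).2.trans (f1 _ _)⟩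
    · have : l = i := by omega
      subst this
      have e1 : Finset.Ioo l (l + 1) = ∅ := by
        ext y
        rw [Finset.mem_Ioo]
        simp
      rw [hdi, e1, Finset.sum_empty]
      exact ⟨hx0, hx1⟩
  obtain ⟨c₁, hfam⟩ := hfam i K hi hKi
  obtain ⟨n, hn⟩ : ∃ n, n = N * (i + 1) := ⟨_, rfl⟩
  refine ⟨K, d, δ, K₁ * 2 ^ n * 2 ^ C, by positivity, fun l => ?_, hie d hd' hdi,
    hie δ hδ' hδi, ?_⟩
  · rcases eq_or_ne l i with h1 | h1
    · rw [h1, hKi]; exact hD1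
    · rw [hK]
      show 1 ≤ if l = i then D else K₀ l
      rw [if_neg h1]
      exact hK0 l
  -- the statements about the class
  have hatt' := hatt D (by rw [hD]; exact le_max_left _ _) (1 / K₁) (by positivity)
  have hrel' := Bas.all (S := S) N (Φ := fun k J F A => ∀ (B₀ : F.Ω → Prop)
      (G : PtT F → ℕ → MvPolynomial (Option (Fin m)) ℝ)
      (H : LnT F → ℕ → MvPolynomial (Option (Fin m)) ℝ) (e : ℕ), Sub B₀ A →
      1 / (K₁ * 2 ^ n) * Pe F.p A ≤ Pe F.p B₀ → e ≤ ⌊e₀ k * J⌋₊ →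
      ChOK F c i K ⌊a k * J⌋₊ ⌊w k * J⌋₊ e
        (fun l => ⌊(bet P c l (a k) (w k) - d l) * J⌋₊) B₀ G H →
      RelvF F c i ⌊a k * J⌋₊ ⌊w k * J⌋₊ (fun l => ⌊(bet P c l (a k) (w k) - d l) * J⌋₊) D
        ⌊η * J⌋₊ (1 / 2 ^ C) B₀ G) fun k hk =>
    relvF_of (hrel k hk K d (hd'.mono fun l n => (f2 l n).trans (hψ1 l n k hk)))
      (by positivity) (by positivity)
  obtain ⟨cs, hcs⟩ : ∃ cs : ℝ, cs = ∑ l ∈ range i, (D * dgp K l i : ℝ) := ⟨_, rfl⟩
  obtain ⟨J₁, hJ₁⟩ := big ((c₁ : ℝ) + C + r * 4 + 3) (show 0 < ρ / 8 by positivity)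
  obtain ⟨J₂, hJ₂⟩ := big ((c₁ : ℝ) + C + 1 + cs) (show 0 < x / 8 by positivity)
  obtain ⟨J₃, hJ₃⟩ := big (1 : ℝ) (show 0 < μ / 8 by positivity)
  refine Bas.mono (max (max J₁ J₂) J₃) ((hlow.and hatt').and hrel') ?_
  rintro J hJ F A ⟨⟨⟨B₁, G, H, hB₁, hPB₁, hM⟩, hat⟩, hre⟩
  have hJ0 : (0 : ℝ) ≤ J := Nat.cast_nonneg J
  have b1 := hJ₁ J (((le_max_left _ _).trans (le_max_left _ _)).trans hJ)
  have b2 := hJ₂ J (((le_max_right _ _).trans (le_max_left _ _)).trans hJ)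
  have b3 := hJ₃ J ((le_max_right _ _).trans hJ)
  obtain ⟨G, H, hM⟩ := hM.congr (K' := K)
    (g' := fun k l => ⌊(bet P c l (a k) (w k) - d l) * J⌋₊) (δ' := fun l => ⌊δ l * J⌋₊)
    (fun l hl => (hKl l hl).ge) (fun k l hl => by
      show ⌊(bet P c l (a k) (w k) - d l) * J⌋₊ = ⌊(bet P c l (a k) (w k) - d₀ l) * J⌋₊
      rw [hdl l hl]) (fun l hl => by
      show ⌊δ l * J⌋₊ = ⌊δ₀ l * J⌋₊
      rw [hδl l hl])
  obtain ⟨B₂, hB₂, hPB₂, hch⟩ := hat B₁ hB₁ (by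
    rw [one_div, inv_mul_le_iff₀ hK₁]
    exact hPB₁)
  have hB₂A : Sub B₂ A := fun ω h => hB₁ ω (hB₂ ω h)
  have hPA2 : Pe F.p A ≤ K₁ * 2 ^ n * Pe F.p B₂ := by
    rw [hn]
    calc Pe F.p A ≤ K₁ * Pe F.p B₁ := hPB₁
      _ ≤ K₁ * (2 ^ (N * (i + 1)) * Pe F.p B₂) := mul_le_mul_of_nonneg_left hPB₂ hK₁.le
      _ = _ := by ring
  have hM2 := hM.sub hB₂
  have haw : ∀ k < N, 0 < a k := fun k hk => (h.pos k hk).trans_le (h.wa k hk)
  have hlow' : ∀ l, ∀ k < N, a k ≤ bet P c l (a k) (w k) := fun l k hk =>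
    hP.low ((List.range l).map c, c l) (a k) (w k) (h.pos k hk).le (h.wa k hk) (h.lt k hk).le
  have hμb : ∀ l, ∀ k < N, μ ≤ bet P c l (a k) (w k) := fun l k hk =>
    (hμw k hk).trans ((h.wa k hk).trans (hlow' l k hk))
  have hdμ : ∀ l < i, d l ≤ μ / 8 := fun l hl => (hd' l hl).2.trans (f3 _ _)
  have hδμ : ∀ l < i, δ l ≤ μ / 8 := fun l hl => (hδ' l hl).2.trans (f3 _ _)
  have hdρ : ∀ l < i, d l ≤ ρ' := fun l hl => (hd' l hl).2.trans (f4 _ _)
  have hδ0 : ∀ l < i, 0 < δ l := fun l hl => (hδ' l hl).1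
  have hd0 : ∀ l ≤ i, 0 < d l := by
    intro l hl
    rcases Nat.lt_or_ge l i with h1 | h1
    · exact (hd' l h1).1
    · have : l = i := by omega
      subst this
      rw [hdi]
      exact hx0
  have hfl : ⌊η * J⌋₊ ≤ η * (J : ℝ) := Nat.floor_le (by positivity)
  obtain ⟨B, G', H', k1, k2, k3⟩ := hfam (F := F) (c := c) (a := fun k => ⌊a k * J⌋₊)
    (w := fun k => ⌊w k * J⌋₊) (e := fun k => ⌊e₁ k * J⌋₊) (e' := fun k => ⌊e k * J⌋₊)
    (h := ⌊η * J⌋₊) (q := fun k => ⌊(vs k + h₂) * J⌋₊ + 1)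
    (s := fun k => ⌊e₁ k * J⌋₊ + (⌊(vs k + ρ') * J⌋₊ + 1))
    (g := fun k l => ⌊(bet P c l (a k) (w k) - d l) * J⌋₊)
    (P := fun k l => ⌊(tau P c l i (a k) (w k) - h₂) * J⌋₊) (δ := fun l => ⌊δ l * J⌋₊)
    (κ := 1 / 2 ^ C) (B₀ := B₂) (G := G) (H := H)
    (hc.mono fun y hy => lt_trans hy hi) (by positivity)
    (by rw [one_div_mul_cancel (by positivity)]) hM2
    (fun k hk => hre k hk B₂ (G k) (H k) ⌊e₁ k * J⌋₊ hB₂A (by
      rw [one_div, inv_mul_le_iff₀ (by positivity)]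
      exact hPA2) (Nat.floor_le_floor (mul_le_mul_of_nonneg_right
        ((he₁e k hk).trans (he₀ k hk)) hJ0))
      (hM2.ok k hk)) hch
    (fun k hk l hl => by
      have g1 := h.gre k hk i hi l hl
      have g2 := h.srt k hk i hi l hl
      have g3 := mul_nonneg (hd0 l hl.le).le hJ0
      constructor
      · refine fl_add ?_
        have := mul_le_mul_of_nonneg_right g1 hJ0
        linarith
      · refine fl_add ?_
        have := mul_le_mul_of_nonneg_right g2 hJ0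
        show (bet P c l (a k) (w k) - d l) * (J : ℝ) ≤ (tau P c i i (a k) (w k) - h₂) * J +
          (vs k + h₂) * J
        rw [tau_self]
        linarith)
    (fun k hk j hj l hl => by
      refine Nat.add_le_add_left ?_ _
      show (Finset.Icc l j).sup (fun l => ⌊(bet P c l (a k) (w k) - d l) * J⌋₊) -
        ⌊(bet P c j (a k) (w k) - d j) * J⌋₊ ≤ _
      rw [Nat.sub_le_iff_le_add']
      refine Finset.sup_le fun y hy => ?_
      have hy' := Finset.mem_Icc.1 hy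
      have g3 := mul_nonneg (hd0 y (by omega)).le hJ0
      have g4 := mul_le_mul_of_nonneg_right (hdρ j hj) hJ0
      refine fl_add ?_
      rcases Nat.lt_or_ge y j with h1 | h1
      · have := mul_le_mul_of_nonneg_right (h.srt k hk j (by omega) y h1) hJ0
        linarith
      · have : y = j := by omega
        subst this
        have := mul_nonneg (hvs k hk) hJ0
        linarith [mul_nonneg hρ'0.le hJ0])
    (fun k hk => by
      have hvk := hvs k hk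
      have hρk := hρ k hk
      refine Nat.le_floor ?_
      have e1k : e₁ k = Csl r i * vs k + ρ' := by rw [he₁]
      have g1 : (⌊(vs k + h₂) * J⌋₊ : ℝ) ≤ (vs k + h₂) * J := Nat.floor_le (by positivity)
      have g2 : (⌊e₁ k * J⌋₊ : ℝ) ≤ e₁ k * J := Nat.floor_le (by
        rw [e1k]; positivity)
      have g3 : (⌊(vs k + ρ') * J⌋₊ : ℝ) ≤ (vs k + ρ') * J := Nat.floor_le (by positivity)
      have g4 : (C : ℝ) * ⌊η * J⌋₊ ≤ ρ / 8 * J := by
        have := mul_le_mul_of_nonneg_left hfl hC0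
        have g5 := mul_le_mul_of_nonneg_right hη1 hJ0
        linarith
      have g6 : r * ((⌊e₁ k * J⌋₊ : ℝ) + (⌊(vs k + ρ') * J⌋₊ + 1) + 2) ≤
          r * ((e₁ k + vs k + ρ') * J + 3) := by
        refine mul_le_mul_of_nonneg_left ?_ hr0
        linarith
      have g7 : r * (e₁ k + vs k + ρ') ≤ r * (Csl r i + 1) * vs k + ρ / 8 + ρ / 8 := by
        rw [e1k]
        linarith
      have g8 := mul_le_mul_of_nonneg_right g7 hJ0
      have g9 := mul_le_mul_of_nonneg_right h22 hJ0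
      have g10 : (1 + r * (Csl r i + 1)) * vs k + ρ ≤ e k := by
        rw [← hCsl]
        linarith
      have g12 := mul_le_mul_of_nonneg_right g10 hJ0
      have g11 : 0 ≤ ρ / 8 * (J : ℝ) := by positivity
      refine le_trans ?_ g12
      push_cast
      linarith)
    (fun k hk => Nat.floor_le_floor (mul_le_mul_of_nonneg_right (he₁e k hk) hJ0))
    (fun k hk => by
      refine Nat.le_floor ?_
      show ((⌊(bet P c i (a k) (w k) - d i) * J⌋₊ + C * (⌊η * J⌋₊ + 1) : ℕ) : ℝ) ≤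
        (bet P c i (a k) (w k) - h₂) * J
      rw [hdi]
      have g1 : (⌊(bet P c i (a k) (w k) - x) * J⌋₊ : ℝ) ≤ (bet P c i (a k) (w k) - x) * J :=
        Nat.floor_le (mul_nonneg (by linarith [hμb i k hk]) hJ0)
      have g4 : (C : ℝ) * ⌊η * J⌋₊ ≤ x / 4 * J := by
        have := mul_le_mul_of_nonneg_left hfl hC0
        have g5 := mul_le_mul_of_nonneg_right hη2 hJ0
        linarith
      have g5 := mul_le_mul_of_nonneg_right h21 hJ0
      have g6 : 0 ≤ cs := by rw [hcs]; exact Finset.sum_nonneg fun _ _ => by positivity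
      have g7 : (0 : ℝ) ≤ c₁ := Nat.cast_nonneg c₁
      have g8 : 0 ≤ x * (J : ℝ) := by positivity
      push_cast
      linarith)
    (fun k' hk' k hk hR => by
      obtain ⟨g1, g2⟩ := hR
      refine ⟨Nat.floor_le_floor (mul_le_mul_of_nonneg_right g1 hJ0),
        Nat.floor_le_floor (mul_le_mul_of_nonneg_right g2 hJ0),
        Pool.LBT.fl_le' ((h.wa k' hk').trans (h.lt k' hk').le) J, fun l hl => ?_⟩
      refine Nat.floor_le_floor (mul_le_mul_of_nonneg_right ?_ hJ0)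
      have g3 : bet P c l (a k) (w k) ≤ bet P c l (a k') (w k') :=
        (hP.law _).mono (h.pos k hk).le (h.wa k hk) g1 g2 (h.wa k' hk') (h.lt k' hk').le
      linarith)
    (fun k hk l hl => by
      refine Nat.le_floor ?_
      have g1 : (⌊δ l * J⌋₊ : ℝ) ≤ δ l * J := Nat.floor_le (mul_nonneg (hδ0 l hl).le hJ0)
      have g2 := mul_le_mul_of_nonneg_right (hδμ l hl) hJ0
      have g3 := mul_le_mul_of_nonneg_right (hdμ l hl) hJ0
      have g4 := mul_le_mul_of_nonneg_right (hμb l k hk) hJ0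
      have g5 : 0 ≤ μ * (J : ℝ) := by positivity
      push_cast
      linarith)
    (by
      refine Nat.le_floor ?_
      rw [hδi]
      have g1 : ∀ l ∈ range i, ((⌊δ l * J⌋₊ : ℝ) + 1) * (D * dgp K l i) ≤
          x / (8 * (r + 1)) * J + D * dgp K l i := by
        intro l hl
        have hl' := mem_range.1 hl
        have g2 : (⌊δ l * J⌋₊ : ℝ) ≤ δ l * J := Nat.floor_le (mul_nonneg (hδ0 l hl').le hJ0)
        have g3 := (hδ' l hl').2.trans (f5 _ _)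
        have g4 := dgp_le K (l := l) (r := r) hi.le
        obtain ⟨y, hy⟩ : ∃ y : ℝ, y = (1 + ((∑ l' ∈ Finset.Ioo l i, K l' : ℕ) : ℝ)) ^ r :=
          ⟨_, rfl⟩
        have hy0 : 0 < y := by rw [hy]; positivity
        rw [← hy] at g3 g4
        have hD0 : (0 : ℝ) < D := by linarith
        have hdg : (0 : ℝ) ≤ dgp K l i := Nat.cast_nonneg _
        have g5 : δ l * (D * dgp K l i) ≤ x / (8 * (r + 1)) := by
          calc δ l * (D * dgp K l i) ≤ x / (8 * (r + 1) * D * y) * (D * y) :=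
                mul_le_mul g3 (mul_le_mul_of_nonneg_left g4 hD0.le) (by positivity)
                  (by positivity)
            _ = _ := by field_simp
        have g6 := mul_le_mul_of_nonneg_right g5 hJ0
        have g7 := mul_le_mul_of_nonneg_right g2 (show (0 : ℝ) ≤ D * dgp K l i by positivity)
        linarith
      have g2 := Finset.sum_le_sum g1
      rw [Finset.sum_add_distrib, Finset.sum_const, card_range, nsmul_eq_mul, ← hcs] at g2
      have g3 : (i : ℝ) * (x / (8 * (r + 1)) * J) ≤ x / 8 * J := by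
        have g4 : (i : ℝ) ≤ r + 1 := by
          have : (i : ℝ) ≤ r := by exact_mod_cast hi.le
          linarith
        calc (i : ℝ) * (x / (8 * (r + 1)) * J) ≤ (r + 1) * (x / (8 * (r + 1)) * J) :=
              mul_le_mul_of_nonneg_right g4 (by positivity)
          _ = _ := by field_simp
      have g5 := mul_le_mul_of_nonneg_right hη3 hJ0
      have g6 : 0 ≤ x * (J : ℝ) := by positivity
      push_cast
      linarith)
  refine ⟨B, G', H', fun ω h => hB₂A ω (k1 ω h), ?_, k3⟩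
  calc Pe F.p A ≤ K₁ * 2 ^ n * Pe F.p B₂ := hPA2
    _ ≤ K₁ * 2 ^ n * (2 ^ C * Pe F.p B) := mul_le_mul_of_nonneg_left k2 (by positivity)
    _ = _ := by ring

/-- **Chains at several points of a class, in greedy order**, every point with its own slowness
and its own gradients. -/
theorem jattq (hP : ThrOf (chsys m θ) S P) (hθ : 0 < θ) (hS : TmH S) {c : ℕ → Fin m} {r N : ℕ}
    (hc : Set.InjOn c (Set.Iio r)) {a w : ℕ → ℝ} {vs e₀ : ℕ → ℝ} (hvs : ∀ k < N, 0 ≤ vs k)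
    (h : Ptq S P θ c r N a w vs e₀) : ∀ i ≤ r, ∀ φ : ℕ → ℕ → ℝ, (∀ l n, 0 < φ l n) →
    ∀ e : ℕ → ℝ, (∀ k < N, Csl r i * vs k < e k) → (∀ k < N, e k ≤ e₀ k) →
    Jatq S P c N a w i φ e := by
  intro i
  induction i with
  | zero =>
    intro _ φ _ e _ _
    refine ⟨fun _ => 1, fun _ => 0, fun _ => 0, 1, one_pos, fun _ => le_rfl,
      fun l hl => absurd hl (Nat.not_lt_zero l), fun l hl => absurd hl (Nat.not_lt_zero l),
      1, one_pos, 0, fun J _ F A _ => ⟨A, fun _ _ _ => 0, fun _ _ _ => 0, fun _ h => h,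
        by rw [one_mul], ⟨fun k hk => ⟨fun y l => ?_, fun s l => ?_, fun y l b b' _ _ => ?_,
        fun s l b b' _ _ => ?_, fun ω hω l hl => absurd hl (Nat.not_lt_zero l),
        fun ω hω l hl => absurd hl (Nat.not_lt_zero l),
        fun ω hω l hl => absurd hl (Nat.not_lt_zero l)⟩,
        fun k' _ k _ _ l hl => absurd hl (Nat.not_lt_zero l),
        fun k' _ k _ _ l hl => absurd hl (Nat.not_lt_zero l),
        fun k _ l hl => absurd hl (Nat.not_lt_zero l)⟩⟩⟩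
    · show (0 : MvPolynomial (Option (Fin m)) ℝ).totalDegree ≤ 1
      rw [totalDegree_zero]; exact Nat.zero_le _
    · show (0 : MvPolynomial (Option (Fin m)) ℝ).totalDegree ≤ 1
      rw [totalDegree_zero]; exact Nat.zero_le _
    · show eval b (0 : MvPolynomial (Option (Fin m)) ℝ) = eval b' 0
      rw [map_zero, map_zero]
    · show eval b (0 : MvPolynomial (Option (Fin m)) ℝ) = eval b' 0
      rw [map_zero, map_zero]
  | succ i ih =>
    intro hi φ hφ e he he₀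
    exact jatq_succ hP hθ hS hc hvs h (by omega)
      (fun φ hφ e h1 h2 => ih (by omega) φ hφ e h1 h2) φ hφ e he he₀

/-- `Jat` with one exponent of the gradients for every point. -/
theorem Jatq.jat {c : ℕ → Fin m} {N : ℕ} {a w : ℕ → ℝ} {i : ℕ} {φ : ℕ → ℕ → ℝ} {e : ℕ → ℝ}
    (h : Jatq S P c N a w i φ e) {e' : ℝ} (he : ∀ k < N, e k ≤ e') : Jat S P c N a w i φ e' := by
  obtain ⟨K, d, δ, K₁, h1, h2, h3, h4, h5⟩ := h
  refine ⟨K, d, δ, K₁, h1, h2, h3, h4, Bas.mono 0 h5 ?_⟩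
  rintro J _ F A ⟨B, G, H, k1, k2, k3⟩
  exact ⟨B, G, H, k1, k2, k3.mch fun k hk =>
    Nat.floor_le_floor (mul_le_mul_of_nonneg_right (he k hk) (Nat.cast_nonneg J))⟩

/-- `Jat` with the own exponents of the gradients of all points. -/
def Jat2 (S : PCl m) (P : List (Fin m) × Fin m → ℝ → ℝ → ℝ) (c : ℕ → Fin m) (N : ℕ) (a w : ℕ → ℝ)
    (i : ℕ) (φ : ℕ → ℕ → ℝ) (e : ℕ → ℝ) (e' : ℝ) : Prop :=
  ∃ (K : ℕ → ℕ) (d δ : ℕ → ℝ) (K₁ : ℝ), 0 < K₁ ∧ (∀ l, 1 ≤ K l) ∧ Hie φ i K d ∧ Hie φ i K δ ∧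
    Bas S (fun J F A => ∃ (B : F.Ω → Prop)
      (G : ℕ → PtT F → ℕ → MvPolynomial (Option (Fin m)) ℝ)
      (H : ℕ → LnT F → ℕ → MvPolynomial (Option (Fin m)) ℝ), Sub B A ∧
      Pe F.p A ≤ K₁ * Pe F.p B ∧ MCh F c i K N (fun k k' => a k ≤ a k' ∧ w k ≤ w k')
        (fun k => ⌊a k * J⌋₊) (fun k => ⌊w k * J⌋₊) ⌊e' * J⌋₊
        (fun k l => ⌊(bet P c l (a k) (w k) - d l) * J⌋₊) (fun l => ⌊δ l * J⌋₊) B G H ∧
      ∀ k < N, ChOK F c i K ⌊a k * J⌋₊ ⌊w k * J⌋₊ ⌊e k * J⌋₊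
        (fun l => ⌊(bet P c l (a k) (w k) - d l) * J⌋₊) B (G k) (H k))

theorem Jatq.jat2 {c : ℕ → Fin m} {N : ℕ} {a w : ℕ → ℝ} {i : ℕ} {φ : ℕ → ℕ → ℝ} {e : ℕ → ℝ}
    (h : Jatq S P c N a w i φ e) {e' : ℝ} (he : ∀ k < N, e k ≤ e') :
    Jat2 S P c N a w i φ e e' := by
  obtain ⟨K, d, δ, K₁, h1, h2, h3, h4, h5⟩ := h
  refine ⟨K, d, δ, K₁, h1, h2, h3, h4, Bas.mono 0 h5 ?_⟩
  rintro J _ F A ⟨B, G, H, k1, k2, k3⟩
  exact ⟨B, G, H, k1, k2, k3.mch fun k hk =>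
    Nat.floor_le_floor (mul_le_mul_of_nonneg_right (he k hk) (Nat.cast_nonneg J)), k3.ok⟩

end Pool.CHT
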