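import Pool.Agent.H80.GEN.Chn

/-!
# Larger natural boxes

A polynomial which is bounded on a natural box is bounded on larger natural boxes (`nbx_grow`); the
exponent of the growth in the direction of the coordinate `c j` is the product of the degree and of
the classes of the labels after `j`. Consequently the sides of a chain may be enlarged
(`chN_grow`).
-/

set_option autoImplicit false

namespace Pool.CHT

open Finset Real MvPolynomial
open Pool.Agent.H49.Ent Pool.Agent.H32.Dense Pool.STK Pool.KA Pool.KSAT Pool.K2S Pool.PB Pool.S6C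
open Pool.GEN

variable {m J : ℕ}

/-! ### One variable -/

theorem natDegree_aeval_mul {σ : Type} (Q : MvPolynomial σ ℝ) (g : σ → Polynomial ℝ) {E : ℕ}
    (hg : ∀ i, (g i).natDegree ≤ E) {D : ℕ} (h : Q.totalDegree ≤ D) :
    (MvPolynomial.aeval g Q).natDegree ≤ D * E := by
  rw [MvPolynomial.aeval_def, MvPolynomial.eval₂_eq]
  refine Polynomial.natDegree_sum_le_of_forall_le _ _ fun α hα => ?_
  refine (Polynomial.natDegree_mul_le).trans ?_
  have h1 : (algebraMap ℝ (Polynomial ℝ) (MvPolynomial.coeff α Q)).natDegree = 0 :=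
    Polynomial.natDegree_C _
  have h2 : (∏ i ∈ α.support, g i ^ α i).natDegree ≤ α.degree * E := by
    refine (Polynomial.natDegree_prod_le _ _).trans ?_
    rw [Finsupp.degree_apply, Finset.sum_mul]
    refine Finset.sum_le_sum fun i _ => ?_
    exact Polynomial.natDegree_pow_le.trans (Nat.mul_le_mul_left (α i) (hg i))
  rw [h1, zero_add]
  exact h2.trans (Nat.mul_le_mul_right E ((MvPolynomial.le_totalDegree hα).trans h))

/-- The growth of a polynomial of one variable. -/
theorem grow_one (D : ℕ) : ∃ C : ℝ, 1 ≤ C ∧ ∀ (q : Polynomial ℝ) (S : ℝ) (n N : ℕ),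
    q.natDegree ≤ N → N ≤ D → (∀ t ∈ Set.Icc (0 : ℝ) 1, |q.eval (t / 2 ^ n)| ≤ S) →
      |q.eval 1| ≤ C * 2 ^ (n * N) * S := by
  obtain ⟨C, hC, h⟩ := Pool.Agent.H40.FR.unit_coef D
  refine ⟨(D + 1) * C, by nlinarith [(Nat.cast_nonneg D : (0 : ℝ) ≤ D)], ?_⟩
  intro q S n N hq hN hS
  have hS0 : 0 ≤ S := le_trans (abs_nonneg _) (hS 0 (by simp))
  have h2n : (0 : ℝ) < 2 ^ n := by positivity
  obtain ⟨f, hf⟩ : ∃ f : Polynomial ℝ, f = q.comp (Polynomial.C (1 / 2 ^ n) * Polynomial.X) :=
    ⟨_, rfl⟩
  have hfe : ∀ t, f.eval t = q.eval (t / 2 ^ n) := by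
    intro t
    rw [hf, Polynomial.eval_comp]
    congr 1
    simp only [Polynomial.eval_mul, Polynomial.eval_C, Polynomial.eval_X]
    ring
  have hfd : f.natDegree ≤ N := by
    rw [hf]
    refine Polynomial.natDegree_comp_le.trans ?_
    calc q.natDegree * (Polynomial.C (1 / 2 ^ n : ℝ) * Polynomial.X).natDegree ≤ N * 1 :=
          Nat.mul_le_mul hq ((Polynomial.natDegree_C_mul_le _ _).trans Polynomial.natDegree_X_le)
      _ = N := mul_one _
  have hc := h f S (hfd.trans hN) fun t ht => by rw [hfe]; exact hS t ht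
  have h1 : q.eval 1 = f.eval (2 ^ n) := by
    rw [hfe, div_self h2n.ne']
  rw [h1, Polynomial.eval_eq_sum_range' (Nat.lt_succ_of_le hfd)]
  refine (Finset.abs_sum_le_sum_abs _ _).trans ?_
  have h3 : ∀ j ∈ range (N + 1), |f.coeff j * (2 ^ n) ^ j| ≤ C * S * 2 ^ (n * N) := by
    intro j hj
    rw [abs_mul, abs_of_pos (by positivity : (0 : ℝ) < (2 ^ n) ^ j), ← pow_mul]
    refine mul_le_mul (hc j) (pow_le_pow_right₀ (by norm_num) ?_) (by positivity) (by positivity)
    exact Nat.mul_le_mul_left n (Nat.lt_succ_iff.1 (mem_range.1 hj))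
  refine (Finset.sum_le_sum h3).trans ?_
  rw [Finset.sum_const, card_range, nsmul_eq_mul]
  have h4 : ((N + 1 : ℕ) : ℝ) ≤ D + 1 := by
    push_cast
    have : (N : ℝ) ≤ D := by exact_mod_cast hN
    linarith
  calc ((N + 1 : ℕ) : ℝ) * (C * S * 2 ^ (n * N)) ≤ (D + 1) * (C * S * 2 ^ (n * N)) :=
        mul_le_mul_of_nonneg_right h4 (by positivity)
    _ = _ := by ring

/-! ### The curves -/

/-- The degree along a chain. -/
def dgp (K : ℕ → ℕ) (j k : ℕ) : ℕ := ∏ l ∈ Ico (j + 1) k, max (K l) 1

theorem one_le_dgp (K : ℕ → ℕ) (j k : ℕ) : 1 ≤ dgp K j k :=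
  Finset.one_le_prod'' fun _ => le_max_right _ _

theorem dgp_self (K : ℕ → ℕ) (j : ℕ) : dgp K j (j + 1) = 1 := by
  unfold dgp
  rw [Finset.Ico_self, Finset.prod_empty]

theorem dgp_succ (K : ℕ → ℕ) {j k : ℕ} (hk : j + 1 ≤ k) :
    dgp K j (k + 1) = dgp K j k * max (K k) 1 := by
  unfold dgp
  rw [Finset.prod_Ico_succ_top hk]

/-- **The curve** through `b` in the direction of the coordinate `c j`: the coordinates before are
fixed, and the coordinates after keep their distance to the labels. -/
theorem curve {c : ℕ → Fin m} {i : ℕ} (hc : Set.InjOn c (Set.Iio i)) {K : ℕ → ℕ}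
    {G : ℕ → MvPolynomial (Option (Fin m)) ℝ} (hdeg : ∀ l, (G l).totalDegree ≤ K l)
    (hdep : ∀ l, DepC c l (G l)) (b : Option (Fin m) → ℝ) {j : ℕ} (k : ℕ) (hk : j + 1 ≤ k) :
    k ≤ i → ∃ p : Option (Fin m) → Polynomial ℝ, (∀ o, (p o).natDegree ≤ dgp K j k) ∧
      (∀ s, (p none).eval s = b none) ∧ (∀ l < j, ∀ s, (p (some (c l))).eval s = b (some (c l))) ∧
      (∀ s, (p (some (c j))).eval s = eval b (G j) + s * (b (some (c j)) - eval b (G j))) ∧
      (∀ l, j < l → l < k → ∀ s, (p (some (c l))).eval s =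
        eval (fun o => (p o).eval s) (G l) + (b (some (c l)) - eval b (G l))) ∧
      ∀ o, (p o).eval 1 = b o := by
  classical
  induction k, hk using Nat.le_induction with
  | base =>
    intro hi
    refine ⟨fun o => if o = some (c j) then Polynomial.C (eval b (G j)) +
      Polynomial.C (b (some (c j)) - eval b (G j)) * Polynomial.X else Polynomial.C (b o),
      fun o => ?_, fun s => ?_, fun l hl s => ?_, fun s => ?_, fun l h1 h2 => ?_, fun o => ?_⟩
    · rw [dgp_self]
      show (if o = some (c j) then Polynomial.C (eval b (G j)) +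
        Polynomial.C (b (some (c j)) - eval b (G j)) * Polynomial.X else
        Polynomial.C (b o)).natDegree ≤ 1
      split_ifs
      · refine (Polynomial.natDegree_add_le _ _).trans (max_le ?_ ?_)
        · rw [Polynomial.natDegree_C]
          exact Nat.zero_le _
        · exact (Polynomial.natDegree_C_mul_le _ _).trans Polynomial.natDegree_X_le
      · rw [Polynomial.natDegree_C]
        exact Nat.zero_le _
    · simp
    · have : some (c l) ≠ some (c j) := fun h => by
        have h1 := hc (show l ∈ Set.Iio i from hl.trans hi) (show j ∈ Set.Iio i from hi)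
          (Option.some_injective _ h)
        omega
      simp [this]
    · simp only [if_true, Polynomial.eval_add, Polynomial.eval_mul, Polynomial.eval_C,
        Polynomial.eval_X]
      ring
    · omega
    · show (if o = some (c j) then Polynomial.C (eval b (G j)) +
        Polynomial.C (b (some (c j)) - eval b (G j)) * Polynomial.X else
        Polynomial.C (b o)).eval 1 = b o
      split_ifs with h
      · rw [h]
        simp only [Polynomial.eval_add, Polynomial.eval_mul, Polynomial.eval_C,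
          Polynomial.eval_X]
        ring
      · rw [Polynomial.eval_C]
  | succ k hk ih =>
    intro hi
    obtain ⟨p, h1, h2, h3, h4, h5, h6⟩ := ih (by omega)
    obtain ⟨q, hq⟩ : ∃ q : Option (Fin m) → Polynomial ℝ, q = Function.update p (some (c k))
        (MvPolynomial.aeval p (G k) + Polynomial.C (b (some (c k)) - eval b (G k))) := ⟨_, rfl⟩
    have hqk : q (some (c k)) = MvPolynomial.aeval p (G k) +
        Polynomial.C (b (some (c k)) - eval b (G k)) := by
      rw [hq]
      exact Function.update_self _ _ _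
    have hqo : ∀ o, o ≠ some (c k) → q o = p o := by
      intro o ho
      rw [hq]
      exact Function.update_of_ne ho _ _
    have hne : ∀ l < k, (some (c l) : Option (Fin m)) ≠ some (c k) := by
      intro l hl h
      have h7 := hc (show l ∈ Set.Iio i from (hl.trans_le (by omega : k ≤ i)))
        (show k ∈ Set.Iio i from (by omega : k < i)) (Option.some_injective _ h)
      omega
    have hqn : q none = p none := hqo _ (by simp)
    have hev : ∀ l ≤ k, ∀ s, eval (fun o => (q o).eval s) (G l) =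
        eval (fun o => (p o).eval s) (G l) := by
      intro l hl s
      refine hdep l _ _ ?_ fun l' hl' => ?_
      · show (q none).eval s = (p none).eval s
        rw [hqn]
      · show (q (some (c l'))).eval s = (p (some (c l'))).eval s
        rw [hqo _ (hne l' (by omega))]
    refine ⟨q, fun o => ?_, fun s => ?_, fun l hl s => ?_, fun s => ?_, fun l k1 k2 s => ?_,
      fun o => ?_⟩
    · rw [dgp_succ K hk]
      by_cases ho : o = some (c k)
      · rw [ho, hqk]
        refine (Polynomial.natDegree_add_le _ _).trans (max_le ?_ ?_)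
        · refine (natDegree_aeval_mul (G k) p h1 (hdeg k)).trans ?_
          rw [mul_comm]
          exact Nat.mul_le_mul_left _ (le_max_left _ _)
        · rw [Polynomial.natDegree_C]
          exact Nat.zero_le _
      · rw [hqo o ho]
        exact (h1 o).trans (Nat.le_mul_of_pos_right _ (lt_max_of_lt_right one_pos))
    · rw [hqn]
      exact h2 s
    · rw [hqo _ (hne l (by omega))]
      exact h3 l hl s
    · rw [hqo _ (hne j (by omega))]
      exact h4 s
    · rcases Nat.lt_or_ge l k with h7 | h7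
      · rw [hqo _ (hne l h7), hev l h7.le]
        exact h5 l k1 h7 s
      · have : l = k := by omega
        subst this
        rw [hev l le_rfl, hqk, Polynomial.eval_add, Polynomial.eval_C, Pool.KBX.eval_aeval_poly]
    · by_cases ho : o = some (c k)
      · rw [ho, hqk, Polynomial.eval_add, Polynomial.eval_C, Pool.KBX.eval_aeval_poly]
        have : (fun o => (p o).eval 1) = b := funext h6
        rw [this]
        ring
      · rw [hqo o ho]
        exact h6 o

/-! ### The growth -/

/-- One coordinate. -/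
theorem grow_dir (D : ℕ) : ∃ C : ℝ, 1 ≤ C ∧ ∀ {m : ℕ} {c : ℕ → Fin m} {i : ℕ} {K : ℕ → ℕ}
    {G : ℕ → MvPolynomial (Option (Fin m)) ℝ} {Q : MvPolynomial (Option (Fin m)) ℝ}
    {g g' : ℕ → ℕ} {a j D₀ : ℕ} {t M : ℝ}, Set.InjOn c (Set.Iio i) →
    (∀ l, (G l).totalDegree ≤ K l) → (∀ l, DepC c l (G l)) → DepC c i Q → Q.totalDegree ≤ D₀ →
    j < i → D₀ * dgp K j i ≤ D → g' j ≤ g j → (∀ l < i, l ≠ j → g' l = g l) →
    (∀ b, NBx c G g a t i b → |eval b Q| ≤ M) → ∀ b, NBx c G g' a t i b →
      |eval b Q| ≤ C * 2 ^ ((g j - g' j) * (D₀ * dgp K j i)) * M := by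
  obtain ⟨C, hC, h⟩ := grow_one D
  refine ⟨C, hC, ?_⟩
  intro m c i K G Q g g' a j D₀ t M hc hdeg hdep hQ hQd hj hD hg hg' hM b hb
  obtain ⟨p, h1, h2, h3, h4, h5, h6⟩ := curve hc hdeg hdep b i hj le_rfl
  have hpe : ∀ s, (MvPolynomial.aeval p Q).eval s = eval (fun o => (p o).eval s) Q := fun s =>
    Pool.KBX.eval_aeval_poly Q p s
  have hb1 : (fun o => (p o).eval 1) = b := funext h6
  have h7 := h (MvPolynomial.aeval p Q) M (g j - g' j) (D₀ * dgp K j i)
    (natDegree_aeval_mul Q p h1 hQd) hD (by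
      intro τ hτ
      rw [hpe]
      refine hM _ ⟨?_, fun l hl => ?_⟩
      · show |(p none).eval _ - t| ≤ _
        rw [h2]
        exact hb.1
      · show |(p (some (c l))).eval (τ / 2 ^ (g j - g' j)) -
          eval (fun o => (p o).eval (τ / 2 ^ (g j - g' j))) (G l)| ≤ 1 / 2 ^ g l
        rcases Nat.lt_trichotomy l j with h8 | h8 | h8
        · have h9 : eval (fun o => (p o).eval (τ / 2 ^ (g j - g' j))) (G l) = eval b (G l) :=
            hdep l _ _ (h2 _) fun l' hl' => h3 l' (hl'.trans h8) _
          rw [h3 l h8, h9, ← hg' l hl h8.ne]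
          exact hb.2 l hl
        · subst h8
          have h9 : eval (fun o => (p o).eval (τ / 2 ^ (g l - g' l))) (G l) = eval b (G l) :=
            hdep l _ _ (h2 _) fun l' hl' => h3 l' hl' _
          rw [h4, h9, add_sub_cancel_left, abs_mul, abs_of_nonneg (by
            exact div_nonneg hτ.1 (by positivity) : (0 : ℝ) ≤ τ / 2 ^ (g l - g' l))]
          have h10 := hb.2 l hl
          calc τ / 2 ^ (g l - g' l) * |b (some (c l)) - eval b (G l)| ≤
              1 / 2 ^ (g l - g' l) * (1 / 2 ^ g' l) :=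
                mul_le_mul (div_le_div_of_nonneg_right hτ.2 (by positivity)) h10 (abs_nonneg _)
                  (by positivity)
            _ = 1 / 2 ^ g l := by
              rw [div_mul_div_comm, one_mul, ← pow_add]
              congr 2
              omega
        · rw [h5 l h8 hl, add_sub_cancel_left, ← hg' l hl h8.ne']
          exact hb.2 l hl)
  rw [hpe, hb1] at h7
  exact h7

/-- **The growth** of polynomials on natural boxes. -/
theorem nbx_grow (D r : ℕ) : ∃ C : ℝ, 1 ≤ C ∧ ∀ {m : ℕ} {c : ℕ → Fin m} {i : ℕ} {K : ℕ → ℕ}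
    {G : ℕ → MvPolynomial (Option (Fin m)) ℝ} {Q : MvPolynomial (Option (Fin m)) ℝ}
    {g g' : ℕ → ℕ} {a D₀ : ℕ} {t M : ℝ}, i ≤ r → Set.InjOn c (Set.Iio i) →
    (∀ l, (G l).totalDegree ≤ K l) → (∀ l, DepC c l (G l)) → DepC c i Q → Q.totalDegree ≤ D₀ →
    (∀ j < i, D₀ * dgp K j i ≤ D) → (∀ j < i, g' j ≤ g j) →
    (∀ b, NBx c G g a t i b → |eval b Q| ≤ M) → ∀ b, NBx c G g' a t i b →
      |eval b Q| ≤ C * 2 ^ (∑ j ∈ range i, (g j - g' j) * (D₀ * dgp K j i)) * M := by
  obtain ⟨C, hC, h⟩ := grow_dir D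
  refine ⟨C ^ r, one_le_pow₀ hC, ?_⟩
  intro m c i K G Q g g' a D₀ t M hir hc hdeg hdep hQ hQd hD hg hM b hb
  have hM0 : ∀ b, NBx c G g a t i b → 0 ≤ M := fun b hb => (abs_nonneg _).trans (hM b hb)
  have key : ∀ j ≤ i, ∀ b, NBx c G (fun l => if l < j then g' l else g l) a t i b →
      |eval b Q| ≤ C ^ j * 2 ^ (∑ l ∈ range j, (g l - g' l) * (D₀ * dgp K l i)) * M := by
    intro j
    induction j with
    | zero =>
      intro _ b hb
      rw [pow_zero, range_zero, sum_empty, pow_zero, one_mul, one_mul]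
      exact hM b ⟨hb.1, fun l hl => by simpa using hb.2 l hl⟩
    | succ j ih =>
      intro hj b hb
      have h1 := h (g := fun l => if l < j then g' l else g l)
        (g' := fun l => if l < j + 1 then g' l else g l) (j := j) hc hdeg hdep hQ hQd
        (by omega : j < i) (hD j (by omega)) (by
          simp only [lt_irrefl, if_false, Nat.lt_succ_self, if_true]
          exact hg j (by omega)) (fun l _ hl => by
          rcases Nat.lt_trichotomy l j with h2 | h2 | h2
          · simp only [if_pos h2, if_pos (show l < j + 1 by omega)]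
          · exact absurd h2 hl
          · simp only [if_neg (show ¬ l < j by omega), if_neg (show ¬ l < j + 1 by omega)])
        (ih (by omega)) b hb
      simp only [lt_irrefl, if_false, Nat.lt_succ_self, if_true] at h1
      refine h1.trans (le_of_eq ?_)
      rw [sum_range_succ, pow_add, pow_succ]
      ring
  have h2 := key i le_rfl b ⟨hb.1, fun l hl => by simpa only [if_pos hl] using hb.2 l hl⟩
  have hM1 : 0 ≤ M := by
    have h3 := (abs_nonneg _).trans h2
    have h4 : (0 : ℝ) < C ^ i * 2 ^ (∑ l ∈ range i, (g l - g' l) * (D₀ * dgp K l i)) := by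
      positivity
    exact nonneg_of_mul_nonneg_right h3 h4
  refine h2.trans ?_
  refine mul_le_mul_of_nonneg_right ?_ hM1
  exact mul_le_mul_of_nonneg_right (pow_le_pow_right₀ hC hir) (by positivity)

/-! ### Chains with larger sides -/

/-- The loss of the label `i`, if the sides before are enlarged. -/
def gls (K : ℕ → ℕ) (g g' : ℕ → ℕ) (i : ℕ) : ℕ := ∑ j ∈ range i, (g j - g' j) * (K i * dgp K j i)

theorem nlp_le {g g' : ℕ → ℕ} {l i : ℕ} (h : ∀ j ≤ i, g' j ≤ g j) :
    nlp g l i ≤ nlp g' l i + ∑ j ∈ range i, (g j - g' j) := by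
  unfold nlp
  have h1 : (Finset.Icc l i).sup g ≤
      (Finset.Icc l i).sup g' + (∑ j ∈ range i, (g j - g' j) + (g i - g' i)) := by
    refine Finset.sup_le fun j hj => ?_
    have h2 := Finset.le_sup (f := g') hj
    have hj' := (Finset.mem_Icc.1 hj).2
    have h4 := h j hj'
    have h3 : g j - g' j ≤ ∑ j ∈ range (i + 1), (g j - g' j) :=
      Finset.single_le_sum (f := fun j => g j - g' j) (fun _ _ => Nat.zero_le _)
        (mem_range.2 (Nat.lt_succ_of_le hj'))
    rw [sum_range_succ] at h3
    omega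
  have h5 : (Finset.Icc l i).sup g ≤
      max ((Finset.Icc l i).sup g' + ∑ j ∈ range i, (g j - g' j)) (g i) := by
    refine Finset.sup_le fun j hj => ?_
    have hj' := (Finset.mem_Icc.1 hj).2
    rcases Nat.lt_or_ge j i with h6 | h6
    · refine le_trans ?_ (le_max_left _ _)
      have h2 := Finset.le_sup (f := g') hj
      have h4 := h j hj'
      have h3 : g j - g' j ≤ ∑ j ∈ range i, (g j - g' j) :=
        Finset.single_le_sum (f := fun j => g j - g' j) (fun _ _ => Nat.zero_le _)
          (mem_range.2 h6)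
      omega
    · rw [show j = i by omega]
      exact le_max_right _ _
  have h7 := h i le_rfl
  omega

/-- **Chains with larger sides.** -/
theorem chN_grow (r : ℕ) (K : ℕ → ℕ) : ∃ c₀ : ℕ, ∀ {m J : ℕ} {F : Fam m J} {c : ℕ → Fin m}
    {a w e e' : ℕ} {g g' : ℕ → ℕ} {A : F.Ω → Prop}, Set.InjOn c (Set.Iio r) →
    (∀ i < r, g' i ≤ g i) → (∀ i < r, 0 < i → c₀ + gls K g g' i ≤ g i - g' i) →
    (∀ i < r, 0 < i → e + c₀ + gls K g g' i + ∑ j ∈ range i, (g j - g' j) ≤ e') →
    ChN F c r K a w e g A → ChN F c r K a w e' g' A := by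
  obtain ⟨D, hD⟩ : ∃ D, D = ∑ i ∈ range r, ∑ j ∈ range i, K i * dgp K j i := ⟨_, rfl⟩
  obtain ⟨C, hC, h⟩ := nbx_grow D r
  obtain ⟨c₀, hc₀⟩ := pow_unbounded_of_one_lt C (one_lt_two (α := ℝ))
  refine ⟨c₀, ?_⟩
  intro m J F c a w e e' g g' A hc hg h1 h2 hch
  obtain ⟨G, H, hch⟩ := hch
  have hDi : ∀ i < r, ∀ j < i, K i * dgp K j i ≤ D := by
    intro i hi j hj
    rw [hD]
    calc K i * dgp K j i ≤ ∑ j ∈ range i, K i * dgp K j i :=
          Finset.single_le_sum (f := fun j => K i * dgp K j i) (fun _ _ => Nat.zero_le _)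
            (mem_range.2 hj)
      _ ≤ _ := Finset.single_le_sum (f := fun i => ∑ j ∈ range i, K i * dgp K j i)
            (fun _ _ => Nat.zero_le _) (mem_range.2 hi)
  have key : ∀ (y : PtT F) (t : ℝ) (i : ℕ) (Q : MvPolynomial (Option (Fin m)) ℝ) (M : ℝ), i < r →
      DepC c i Q → Q.totalDegree ≤ K i → (∀ b, NBx c (G y) g a t i b → |eval b Q| ≤ M) →
      0 ≤ M → ∀ b, NBx c (G y) g' a t i b → |eval b Q| ≤ (if i = 0 then 1 else
        2 ^ (c₀ + gls K g g' i)) * M := by
    intro y t i Q M hi hQ hQd hM hM0 b hb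
    rcases Nat.eq_zero_or_pos i with h0 | h0
    · subst h0
      rw [if_pos rfl, one_mul]
      exact hM b ⟨hb.1, fun l hl => absurd hl (Nat.not_lt_zero l)⟩
    · rw [if_neg h0.ne']
      have h3 := h (K := K) hi.le (hc.mono fun x hx => lt_trans hx hi) (hch.degG y) (hch.depG y)
        hQ hQd (hDi i hi) (fun j hj => hg j (hj.trans hi)) hM b hb
      refine h3.trans ?_
      refine mul_le_mul_of_nonneg_right ?_ hM0
      rw [pow_add]
      exact mul_le_mul_of_nonneg_right hc₀.le (by positivity)
  refine ⟨G, H, hch.degG, hch.degH, hch.depG, hch.depH, fun ω hω i hi =>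
    (hch.pos ω hω i hi).trans (inv_mono (hg i hi)), fun ω hω i hi b hb => ?_,
    fun ω hω i hi b hb l hl => ?_⟩
  · have h3 := key (ptr F J ω) (F.t ω) i (G (ptr F J ω) i - H (slam F w ω) i) (1 / 2 ^ g i) hi
      (fun b b' hn hb => by
        rw [map_sub, map_sub, hch.depG _ i b b' hn hb, hch.depH _ i b b' hn hb])
      ((totalDegree_sub _ _).trans (max_le (hch.degG _ i) (hch.degH _ i)))
      (fun b hb => by rw [map_sub]; exact hch.agr ω hω i hi b hb) (by positivity) b hb
    rw [map_sub] at h3
    refine h3.trans ?_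
    rcases Nat.eq_zero_or_pos i with h0 | h0
    · rw [if_pos h0, one_mul]
      exact inv_mono (hg i hi)
    · rw [if_neg h0.ne', mul_one_div, div_le_div_iff₀ (by positivity) (by positivity), one_mul,
        ← pow_add]
      refine pow_le_pow_right₀ (by norm_num) ?_
      have := h1 i hi h0
      have := hg i hi
      omega
  · have h0 : 0 < i := (Nat.zero_le l).trans_lt hl
    have h3 := key (ptr F J ω) (F.t ω) i (pderiv (some (c l)) (G (ptr F J ω) i))
      (2 ^ (e + nlp g l i)) hi
      (DepC.pderiv (hch.depG _ i) l) (totalDegree_pdσ (hch.degG _ i) _)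
      (fun b hb => hch.lip ω hω i hi b hb l hl) (by positivity) b hb
    rw [if_neg h0.ne', ← pow_add] at h3
    refine h3.trans (pow_le_pow_right₀ (by norm_num) ?_)
    have h4 := h2 i hi h0
    have h5 := nlp_le (l := l) (g := g) (g' := g') (i := i) fun j hj => hg j (hj.trans_lt hi)
    omega

end Pool.CHT
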