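import Pool.Agent.H2.GEN.Act

/-!
# Conditional entropies as numbers of a class, at all scales

`ch_nums`: if `Y k` (`k ≤ J`) is a monotone family of functions with at most exponentially many
values, the entropies `H(Y k | W)` are `r (k / J) * J` in a subclass, where `r` is monotone and
Lipschitz.
`row_nums`: the rows of one coordinate given the time, the side information and all digits of the
other coordinates.
-/

set_option autoImplicit false

namespace Pool.GEN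

open Finset Real
open Pool.Agent.H49.Ent Pool.Agent.H32.Dense Pool.STK Pool.KA Pool.K2S Pool.PB Pool.S6C

variable {m J : ℕ}

/-- **Conditional entropies as numbers.** -/
theorem ch_nums {S : PCl m} (hS : S.Ne)
    (hpos : ∀ (τ : ℝ) (J : ℕ) (F : Fam m J) (A : F.Ω → Prop), S.St τ J F A → 0 < Pe F.p A)
    (β γ : ∀ J : ℕ, Fam m J → Type) (Y : ∀ (J : ℕ) (F : Fam m J), ℕ → F.Ω → β J F)
    (W : ∀ (J : ℕ) (F : Fam m J), F.Ω → γ J F) {M C : ℝ} (hC : 0 ≤ C)
    (hcnt : Bas S (fun J F A => ∀ k : ℕ, k ≤ J →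
      (cnt F.p (fun ω => (Y J F k ω, W J F ω)) A : ℝ) ≤ Real.exp (M * J)))
    (hnear : Bas S (fun J F A => ∀ k k' : ℕ, k ≤ k' → k' ≤ J →
      CH (Pool.Agent.H49.Ent.cond F.p A True) (Y J F k) (W J F) ≤
        CH (Pool.Agent.H49.Ent.cond F.p A True) (Y J F k') (W J F) ∧
      CH (Pool.Agent.H49.Ent.cond F.p A True) (Y J F k') (W J F) ≤
        CH (Pool.Agent.H49.Ent.cond F.p A True) (Y J F k) (W J F) + C * ((k' : ℝ) - k))) :
    ∃ S' : PCl m, S'.Ne ∧
      (∀ (τ : ℝ) (J : ℕ) (F : Fam m J) (A : F.Ω → Prop), S'.St τ J F A → S.St τ J F A) ∧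
      ∃ r : ℝ → ℝ, LipschitzWith ⟨C, hC⟩ r ∧ Monotone r ∧
        ∀ Q : ℝ, 0 ≤ Q → Q ≤ 1 → ∀ h : ℝ, 0 < h → Bas S' (fun J F A =>
          |CH (Pool.Agent.H49.Ent.cond F.p A True) (Y J F ⌊Q * J⌋₊) (W J F) - r Q * J| ≤
            h * J) := by
  classical
  obtain ⟨e, he⟩ := exists_surjective_nat (Option Q01)
  obtain ⟨Z, hZ⟩ : ∃ Z : ∀ (_ J : ℕ) (F : Fam m J), F.Ω → Option (β J F) × γ J F,
      Z = fun i J F ω => match e i with
        | none => (none, W J F ω)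
        | some q => (some (Y J F ⌊((q : ℚ) : ℝ) * J⌋₊ ω), W J F ω) := ⟨_, rfl⟩
  have hZ0 : ∀ i, e i = none → ∀ (J : ℕ) (F : Fam m J),
      Z i J F = fun ω => (none, W J F ω) := by
    intro i hi J F
    rw [hZ]
    funext ω
    simp only [hi]
  have hZ1 : ∀ i q, e i = some q → ∀ (J : ℕ) (F : Fam m J), Z i J F =
      fun ω => (some (Y J F ⌊((q : ℚ) : ℝ) * J⌋₊ ω), W J F ω) := by
    intro i q hi J F
    rw [hZ]
    funext ω
    simp only [hi]
  have hk : ∀ (q : Q01) (J : ℕ), ⌊((q : ℚ) : ℝ) * J⌋₊ ≤ J := by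
    intro q J
    refine Nat.floor_le_of_le ?_
    have h1 : ((q : ℚ) : ℝ) ≤ 1 := by exact_mod_cast q.2.2
    have := mul_le_mul_of_nonneg_right h1 (Nat.cast_nonneg (α := ℝ) J)
    linarith
  obtain ⟨S', hne, hsub, hη⟩ := ext_ent_base hS hpos
    (fun _ J F => Option (β J F) × γ J F) Z (fun _ => M) (fun i => Bas.mono 0 hcnt (by
      intro J _ F A hA
      rcases hi : e i with _ | q
      · rw [hZ0 i hi]
        refine le_trans ?_ (hA 0 (Nat.zero_le J))
        have h1 := cnt_comp_le F.p (fun ω => (Y J F 0 ω, W J F ω))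
          (fun ω => ((none : Option (β J F)), W J F ω)) (A := A)
          (fun y => (none, y.2)) (fun ω _ _ => rfl)
        exact_mod_cast h1
      · rw [hZ1 i q hi]
        refine le_trans ?_ (hA _ (hk q J))
        have h1 := cnt_comp_le F.p (fun ω => (Y J F ⌊((q : ℚ) : ℝ) * J⌋₊ ω, W J F ω))
          (fun ω => (some (Y J F ⌊((q : ℚ) : ℝ) * J⌋₊ ω), W J F ω)) (A := A)
          (fun y => (some y.1, y.2)) (fun ω _ _ => rfl)
        exact_mod_cast h1))
  obtain ⟨i₁, hi₁⟩ := he none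
  obtain ⟨η₀, hη₀⟩ := hη i₁
  have hpos' : Bas S' (fun _ F A => 0 < Pe F.p A) :=
    ⟨1, one_pos, 0, fun J _ F A hA => hpos 1 J F A (hsub 1 J F A hA)⟩
  have hrat : ∀ q : Q01, ∃ ρ : ℝ, ∀ h : ℝ, 0 < h → Bas S' (fun J F A =>
      |CH (Pool.Agent.H49.Ent.cond F.p A True) (Y J F ⌊((q : ℚ) : ℝ) * J⌋₊)
        (W J F) - ρ * J| ≤ h * J) := by
    intro q
    obtain ⟨i, hi⟩ := he (some q)
    obtain ⟨η, hη⟩ := hη i
    refine ⟨η - η₀, fun h hh => ?_⟩
    refine Bas.mono 0 (((hη (h / 2) (half_pos hh)).and (hη₀ (h / 2) (half_pos hh))).and hpos') ?_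
    rintro J - F A ⟨⟨k1, k2⟩, k3⟩
    rw [hZ1 i q hi] at k1
    rw [hZ0 i₁ hi₁] at k2
    have hcl := isLaw_cond F.isLaw k3
    have e1 : H (Pool.Agent.H49.Ent.cond F.p A True)
        (fun ω => ((none : Option (β J F)), W J F ω)) =
        H (Pool.Agent.H49.Ent.cond F.p A True) (W J F) :=
      H_congr hcl.nonneg (fun _ _ _ _ e => Prod.ext rfl e)
        (fun _ _ _ _ e => (Prod.ext_iff.1 e).2)
    have e3 : H (Pool.Agent.H49.Ent.cond F.p A True)
        (fun ω => (some (Y J F ⌊((q : ℚ) : ℝ) * J⌋₊ ω), W J F ω)) =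
        H (Pool.Agent.H49.Ent.cond F.p A True)
          (fun ω => (Y J F ⌊((q : ℚ) : ℝ) * J⌋₊ ω, W J F ω)) :=
      H_congr hcl.nonneg (fun _ _ _ _ e => by
          have h1 := Prod.ext_iff.1 e
          exact Prod.ext (congrArg some h1.1) h1.2)
        (fun _ _ _ _ e => by
          have h1 := Prod.ext_iff.1 e
          exact Prod.ext (Option.some_injective _ h1.1) h1.2)
    have e2 : CH (Pool.Agent.H49.Ent.cond F.p A True) (Y J F ⌊((q : ℚ) : ℝ) * J⌋₊) (W J F) =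
        H (Pool.Agent.H49.Ent.cond F.p A True)
          (fun ω => (Y J F ⌊((q : ℚ) : ℝ) * J⌋₊ ω, W J F ω)) -
        H (Pool.Agent.H49.Ent.cond F.p A True) (W J F) := rfl
    rw [e1] at k2
    rw [e3] at k1
    rw [e2]
    rw [abs_le] at k1 k2 ⊢
    constructor <;> linarith [k1.1, k1.2, k2.1, k2.2]
  obtain ⟨r, h1, h2, h3⟩ := nums hne (f := fun J F A k =>
    CH (Pool.Agent.H49.Ent.cond F.p A True) (Y J F k) (W J F)) hC hrat (hnear.sub hsub)
  exact ⟨S', hne, hsub, r, h1, h2, h3⟩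

/-- The digits of a real function: monotone, one bit per digit. -/
theorem ch_floor {Ω T : Type} [Fintype Ω] {p : Ω → ℝ} (hp : IsLaw p) (y : Ω → ℝ) (W : Ω → T)
    {k k' : ℕ} (h : k ≤ k') :
    CH p (fun ω => ⌊(2 : ℝ) ^ k * y ω⌋) W ≤ CH p (fun ω => ⌊(2 : ℝ) ^ k' * y ω⌋) W ∧
      CH p (fun ω => ⌊(2 : ℝ) ^ k' * y ω⌋) W ≤ CH p (fun ω => ⌊(2 : ℝ) ^ k * y ω⌋) W +
        Real.log 2 * ((k' : ℝ) - k) := by
  have e1 : ∀ l : ℕ, CH p (fun ω => ⌊(2 : ℝ) ^ l * y ω⌋) W =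
      CH p (fun ω => fl (m := 1) l (fun _ => y ω)) W := by
    intro l
    refine CH_congr hp.nonneg ?_ ?_ (fun _ _ _ _ e => e) (fun _ _ _ _ e => e)
    · intro ω ω' _ _ e
      have h1 := Prod.ext_iff.1 e
      funext i
      exact h1.1
    · intro ω ω' _ _ e
      exact congrFun (Prod.ext_iff.1 e).1 0
  obtain ⟨n, rfl⟩ := Nat.exists_eq_add_of_le h
  rw [e1, e1]
  have a1 : Det p (fun ω => fl (m := 1) (k + n) (fun _ => y ω))
      (fun ω => fl (m := 1) k (fun _ => y ω)) :=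
    fun ω ω' _ _ e => Pool.STK.B58.fl_fine (Nat.le_add_right k n) e
  have a2 := Rows.chain_det hp.nonneg _ _ W a1
  have a3 := Pool.KA.TRC.CH_floor (m := 1) hp (fun ω _ => y ω) W k n
  have a4 := CH_nonneg hp.nonneg (fun ω => fl (m := 1) (k + n) (fun _ => y ω))
    (fun ω => (fl (m := 1) k (fun _ => y ω), W ω))
  refine ⟨by linarith, ?_⟩
  push_cast at a3 ⊢
  have e2 : Real.log 2 * ((k : ℝ) + n - k) = 1 * (n * Real.log 2) := by ring
  linarith

/-- **The rows of one coordinate**, given the time, the side information and all digits of the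
other coordinates. -/
theorem row_nums {S : PCl m} (hS : S.Ne)
    (hpos : ∀ (τ : ℝ) (J : ℕ) (F : Fam m J) (A : F.Ω → Prop), S.St τ J F A → 0 < Pe F.p A)
    {M : ℝ} (hcnt : Bas S (fun J F A => (cnt F.p (ptr F J) A : ℝ) ≤ Real.exp (M * J)))
    (i₁ : Fin m) :
    ∃ S' : PCl m, S'.Ne ∧
      (∀ (τ : ℝ) (J : ℕ) (F : Fam m J) (A : F.Ω → Prop), S'.St τ J F A → S.St τ J F A) ∧
      ∃ r : ℝ → ℝ, LipschitzWith ⟨Real.log 2, Real.log_nonneg (by norm_num)⟩ r ∧ Monotone r ∧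
        ∀ Q : ℝ, 0 ≤ Q → Q ≤ 1 → ∀ h : ℝ, 0 < h → Bas S' (fun J F A =>
          |CH (Pool.Agent.H49.Ent.cond F.p A True) (fun ω => F.X ⌊Q * J⌋₊ ω i₁)
            (fun ω => (Function.update (F.X J ω) i₁ 0, F.W ω)) - r Q * J| ≤ h * J) := by
  refine ch_nums hS hpos (fun _ _ => ℤ) (fun J F => (Fin m → ℤ) × (ℕ × F.ζ))
    (fun J F k ω => F.X k ω i₁) (fun J F ω => (Function.update (F.X J ω) i₁ 0, F.W ω))
    (M := M) (Real.log_nonneg (by norm_num)) (Bas.mono 0 hcnt ?_) ?_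
  · intro J _ F A hA k hk
    refine le_trans ?_ hA
    obtain ⟨φ, hφ⟩ := ptr_coarse F hk
    have h1 := cnt_comp_le F.p (ptr F J)
      (fun ω => (F.X k ω i₁, (Function.update (F.X J ω) i₁ 0, F.W ω))) (A := A)
      (fun y => ((φ y).1 i₁, (Function.update y.1 i₁ 0, y.2))) (fun ω _ _ => by
        rw [← hφ ω]
        rfl)
    exact_mod_cast h1
  · refine ⟨1, one_pos, 0, fun J _ F A hA k k' hk _ => ?_⟩
    exact ch_floor (isLaw_cond F.isLaw (hpos _ J F A hA)) (fun ω => F.x ω i₁) _ hk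

end Pool.GEN
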