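import Pool.Agent.H2.GEN.ChB

/-!
# Chains of labels with a property

`PrX m`: a property of chains (of the list, the class, the radius, the window, the precisions, the
family, the event and the two sides of the labels). `PrX.Her`: it is stable under subevents.

`chsysX m θ X`: the system of the chain labels with the property `X`. `thr_chsysX`: the thresholds
of a subclass. `no_X`: no better label with the property, uniformly. `leX`: comparison of two
properties; `leX_ch`: the thresholds are at most those of all the chains. `att_X`: the chains.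
-/

set_option autoImplicit false

namespace Pool.CHX

open Finset Real MvPolynomial
open Pool.Agent.H49.Ent Pool.Agent.H32.Dense Pool.STK Pool.KA Pool.KSAT Pool.K2S Pool.PB Pool.S6C
open Pool.GEN Pool.CHT
open Pool.LBT (LSys Slo Tri ThrOf fl_le' bas_false)
open Pool.LEV (Law)

variable {m J : ℕ}

/-! ### Properties -/

/-- **A property of chains**: `X c i K a w g J F A G H`. -/
abbrev PrX (m : ℕ) : Type 1 := (ℕ → Fin m) → ℕ → ℕ → ℕ → ℕ → (ℕ → ℕ) → (J : ℕ) →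
  (F : Fam m J) → (F.Ω → Prop) → (PtT F → ℕ → MvPolynomial (Option (Fin m)) ℝ) →
  (LnT F → ℕ → MvPolynomial (Option (Fin m)) ℝ) → Prop

/-- **The property is stable** under subevents, under larger classes, and depends on the first
labels only. -/
structure PrX.Her (X : PrX m) : Prop where
  sub : ∀ {c : ℕ → Fin m} {i K a w : ℕ} {g : ℕ → ℕ} {J : ℕ} {F : Fam m J} {A B : F.Ω → Prop}
    {G : PtT F → ℕ → MvPolynomial (Option (Fin m)) ℝ}
    {H : LnT F → ℕ → MvPolynomial (Option (Fin m)) ℝ}, Sub B A →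
    X c i K a w g J F A G H → X c i K a w g J F B G H
  cls : ∀ {c : ℕ → Fin m} {i K K' a w : ℕ} {g : ℕ → ℕ} {J : ℕ} {F : Fam m J} {A : F.Ω → Prop}
    {G : PtT F → ℕ → MvPolynomial (Option (Fin m)) ℝ}
    {H : LnT F → ℕ → MvPolynomial (Option (Fin m)) ℝ}, K ≤ K' →
    X c i K a w g J F A G H → X c i K' a w g J F A G H
  cng : ∀ {c c' : ℕ → Fin m} {i K a w : ℕ} {g g' : ℕ → ℕ} {J : ℕ} {F : Fam m J} {A : F.Ω → Prop}
    {G G' : PtT F → ℕ → MvPolynomial (Option (Fin m)) ℝ}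
    {H H' : LnT F → ℕ → MvPolynomial (Option (Fin m)) ℝ}, (∀ l ≤ i, c' l = c l) →
    (∀ l ≤ i, g' l = g l) → (∀ y, ∀ l ≤ i, G' y l = G y l) → (∀ s, ∀ l ≤ i, H' s l = H s l) →
    X c i K a w g J F A G H → X c' i K a w g J F A G' H'

/-- No property. -/
def PrX.tt (m : ℕ) : PrX m := fun _ _ _ _ _ _ _ _ _ _ _ => True

theorem PrX.her_tt : (PrX.tt m).Her := ⟨fun _ _ => trivial, fun _ _ => trivial,
  fun _ _ _ _ _ => trivial⟩

/-- Two properties. -/
def PrX.and (X Y : PrX m) : PrX m := fun c i K a w g J F A G H =>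
  X c i K a w g J F A G H ∧ Y c i K a w g J F A G H

theorem PrX.Her.and {X Y : PrX m} (hX : X.Her) (hY : Y.Her) : (X.and Y).Her :=
  ⟨fun h h' => ⟨hX.sub h h'.1, hY.sub h h'.2⟩, fun h h' => ⟨hX.cls h h'.1, hY.cls h h'.2⟩,
    fun h1 h2 h3 h4 h' => ⟨hX.cng h1 h2 h3 h4 h'.1, hY.cng h1 h2 h3 h4 h'.2⟩⟩

/-! ### The labels -/

/-- Only the first coordinates matter. -/
theorem chOK_congr {F : Fam m J} {c c' : ℕ → Fin m} {r : ℕ} {K : ℕ → ℕ} {a w e : ℕ} {g g' : ℕ → ℕ}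
    {A : F.Ω → Prop} {G : PtT F → ℕ → MvPolynomial (Option (Fin m)) ℝ}
    {H : LnT F → ℕ → MvPolynomial (Option (Fin m)) ℝ} (h : ChOK F c r K a w e g A G H)
    (hc : ∀ l < r, c l = c' l) (hg : ∀ l < r, g l = g' l) :
    ChOK F c' r K a w e g' A (fun y i => if i < r then G y i else 0)
      (fun s i => if i < r then H s i else 0) := by
  have d0 : ∀ i : ℕ, DepC c' i (0 : MvPolynomial (Option (Fin m)) ℝ) := by
    intro i b b' _ _
    rw [map_zero, map_zero]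
  have hb : ∀ {y : PtT F} {t : ℝ} {i : ℕ} {b : Option (Fin m) → ℝ}, i < r →
      NBx c' (fun l => if l < r then G y l else 0) g' a t i b → NBx c (G y) g a t i b := by
    intro y t i b hi hb
    refine ⟨hb.1, fun l hl => ?_⟩
    have h1 := hb.2 l hl
    simp only [if_pos (hl.trans hi)] at h1
    rw [hc l (hl.trans hi), hg l (hl.trans hi)]
    exact h1
  refine ⟨fun y i => ?_, fun s i => ?_, fun y i => ?_, fun s i => ?_, fun ω hω i hi => ?_,
    fun ω hω i hi b hbx => ?_, fun ω hω i hi b hbx l hl => ?_⟩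
  · split_ifs with hi
    · exact h.degG y i
    · rw [totalDegree_zero]
      exact Nat.zero_le _
  · split_ifs with hi
    · exact h.degH s i
    · rw [totalDegree_zero]
      exact Nat.zero_le _
  · split_ifs with hi
    · exact DepC.congr (h.depG y i) fun l hl => hc l (hl.trans hi)
    · exact d0 i
  · split_ifs with hi
    · exact DepC.congr (h.depH s i) fun l hl => hc l (hl.trans hi)
    · exact d0 i
  · rw [if_pos hi, ← hc i hi, ← hg i hi]
    exact h.pos ω hω i hi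
  · rw [if_pos hi, if_pos hi, ← hg i hi]
    exact h.agr ω hω i hi b (hb hi hbx)
  · rw [if_pos hi, ← hc l (hl.trans hi),
      ← nlp_congr (l := l) (g := g) (g' := g') fun j hj => hg j (hj.trans_lt hi)]
    exact h.lip ω hω i hi b (hb hi hbx) l hl

/-- **Chain labels with the property `X`** of the target `i.2` over the base `i.1`, on larger radii
and windows. The precisions up to the radius are free. -/
def CtX (θ : Option ℝ) (X : PrX m) (i : List (Fin m) × Fin m) (K a w P : ℕ) : Stat m :=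
  fun J F A => P ≤ a ∨ ∃ (a₀ w₀ e : ℕ) (g : ℕ → ℕ)
    (G : PtT F → ℕ → MvPolynomial (Option (Fin m)) ℝ)
    (H : LnT F → ℕ → MvPolynomial (Option (Fin m)) ℝ), w₀ ≤ a₀ ∧ a₀ ≤ a ∧ w₀ ≤ w ∧
    P + a₀ ≤ g i.1.length + a ∧ (∀ j ≤ i.1.length, g j ≤ J) ∧ (∀ θ₀ ∈ θ, e ≤ lipE θ₀ K w J) ∧
    ChOK F (fun j => i.1.getD j i.2) (i.1.length + 1) (fun _ => K) a₀ w₀ e g A G H ∧
    X (fun j => i.1.getD j i.2) i.1.length K a₀ w₀ g J F A G H

variable {θ : Option ℝ} {X X' : PrX m}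

theorem CtX.her (θ : Option ℝ) (hX : X.Her) (i : List (Fin m) × Fin m) (K a w P J : ℕ)
    (F : Fam m J) : Hered (CtX θ X i K a w P J F) := by
  rintro A B hB (h0 | ⟨a₀, w₀, e, g, G, H, h1, h2, h3, h4, h5, h6, h7, h8⟩)
  · exact Or.inl h0
  · exact Or.inr ⟨a₀, w₀, e, g, G, H, h1, h2, h3, h4, h5, h6, h7.sub hB, hX.sub hB h8⟩

theorem CtX.anti {i : List (Fin m) × Fin m} {K a w P P' : ℕ} {F : Fam m J} {A : F.Ω → Prop}
    (hP : P' ≤ P) (h : CtX θ X i K a w P J F A) : CtX θ X i K a w P' J F A := by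
  rcases h with h0 | ⟨a₀, w₀, e, g, G, H, h1, h2, h3, h4, h⟩
  · exact Or.inl (hP.trans h0)
  · exact Or.inr ⟨a₀, w₀, e, g, G, H, h1, h2, h3, by omega, h⟩

theorem CtX.mono (hX : X.Her) {i : List (Fin m) × Fin m} {K K' a a' w w' P : ℕ} {F : Fam m J}
    {A : F.Ω → Prop} (hK : K ≤ K') (ha : a ≤ a') (hw : w ≤ w')
    (h : CtX θ X i K a w P J F A) : CtX θ X i K' a' w' P J F A := by
  rcases h with h0 | ⟨a₀, w₀, e, g, G, H, h1, h2, h3, h4, h5, h6, h7, h8⟩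
  · exact Or.inl (h0.trans ha)
  · exact Or.inr ⟨a₀, w₀, e, g, G, H, h1, h2.trans ha, h3.trans hw, by omega, h5,
      fun θ₀ hθ => (h6 θ₀ hθ).trans (lipE_mono hK hw),
      h7.mono le_rfl (fun _ => hK) le_rfl le_rfl, hX.cls hK h8⟩

/-- **The slope**. -/
theorem CtX.slope {i : List (Fin m) × Fin m} {K a w P v : ℕ} {F : Fam m J} {A : F.Ω → Prop}
    (h : CtX θ X i K a w P J F A) : CtX θ X i K (a + v) w (P + v) J F A := by
  rcases h with h0 | ⟨a₀, w₀, e, g, G, H, h1, h2, h3, h4, h⟩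
  · exact Or.inl (by omega)
  · exact Or.inr ⟨a₀, w₀, e, g, G, H, h1, by omega, h3, by omega, h⟩

/-- A weaker property. -/
theorem CtX.imp {i : List (Fin m) × Fin m}
    (hX : ∀ (K a w : ℕ) (g : ℕ → ℕ) (J : ℕ) (F : Fam m J) (A : F.Ω → Prop)
      (G : PtT F → ℕ → MvPolynomial (Option (Fin m)) ℝ)
      (H : LnT F → ℕ → MvPolynomial (Option (Fin m)) ℝ),
      X (fun j => i.1.getD j i.2) i.1.length K a w g J F A G H →
      X' (fun j => i.1.getD j i.2) i.1.length K a w g J F A G H)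
    {K a w P : ℕ} {F : Fam m J} {A : F.Ω → Prop} (h : CtX θ X i K a w P J F A) :
    CtX θ X' i K a w P J F A := by
  rcases h with h0 | ⟨a₀, w₀, e, g, G, H, h1, h2, h3, h4, h5, h6, h7, h8⟩
  · exact Or.inl h0
  · exact Or.inr ⟨a₀, w₀, e, g, G, H, h1, h2, h3, h4, h5, h6, h7, hX _ _ _ _ _ _ _ _ _ h8⟩

/-- Larger precisions are labels of `Pool.CHT.chsys`. -/
theorem CtX.cht {θ₀ : ℝ} {i : List (Fin m) × Fin m} {K a w P : ℕ} {F : Fam m J}
    {A : F.Ω → Prop} (h : CtX (some θ₀) X i K a w P J F A) (hP : a < P) :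
    Cht θ₀ i.1 i.2 K a w P J F A := by
  rcases h with h0 | ⟨a₀, w₀, e, g, G, H, h1, h2, h3, h4, h5, h6, h7, h8⟩
  · omega
  · exact ⟨a₀, w₀, g, h1, h2, h3, h4, h5, G, H,
      h7.mono le_rfl (fun _ => le_rfl) le_rfl (h6 θ₀ rfl)⟩

/-- A chain with the property is a label of its last coordinate, for every list. -/
theorem CtX.of_chOK (hX : X.Her) {c : ℕ → Fin m} {i : ℕ} {K : ℕ → ℕ} {K₀ a w a₀ w₀ e P : ℕ}
    {g : ℕ → ℕ} {F : Fam m J} {A : F.Ω → Prop}
    {G : PtT F → ℕ → MvPolynomial (Option (Fin m)) ℝ}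
    {H : LnT F → ℕ → MvPolynomial (Option (Fin m)) ℝ} (h : ChOK F c (i + 1) K a₀ w₀ e g A G H)
    (hx : X c i K₀ a₀ w₀ g J F A G H) (hwa : w₀ ≤ a₀) (ha : a₀ ≤ a) (hw : w₀ ≤ w)
    (hP : P + a₀ ≤ g i + a) (hK : ∀ l < i + 1, K l ≤ K₀) (he : ∀ θ₀ ∈ θ, e ≤ lipE θ₀ K₀ w J)
    (hg : ∀ l ≤ i, g l ≤ J) : CtX θ X ((List.range i).map c, c i) K₀ a w P J F A := by
  have hlen : ((List.range i).map c).length = i := by simp
  have hget : ∀ l ≤ i, c l = ((List.range i).map c).getD l (c i) := by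
    intro l hl
    rcases Nat.lt_or_ge l i with h2 | h2
    · simp [h2]
    · have : l = i := by omega
      subst this
      simp
  have h1 := chOK_congr (c' := fun l => ((List.range i).map c).getD l (c i)) (g' := g) h
    (fun l hl => hget l (by omega)) fun _ _ => rfl
  refine Or.inr ⟨a₀, w₀, e, g, fun y l => if l < i + 1 then G y l else 0,
    fun s l => if l < i + 1 then H s l else 0, hwa, ha, hw, ?_, ?_, he, ?_, ?_⟩
  · rw [hlen]
    exact hP
  · rw [hlen]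
    exact hg
  · rw [hlen]
    refine ⟨fun y l => ?_, fun s l => ?_, h1.depG, h1.depH, h1.pos, h1.agr, h1.lip⟩
    · show (if l < i + 1 then G y l else 0).totalDegree ≤ K₀
      split_ifs with hl
      · exact (h.degG y l).trans (hK l hl)
      · rw [totalDegree_zero]
        exact Nat.zero_le _
    · show (if l < i + 1 then H s l else 0).totalDegree ≤ K₀
      split_ifs with hl
      · exact (h.degH s l).trans (hK l hl)
      · rw [totalDegree_zero]
        exact Nat.zero_le _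
  · rw [hlen]
    exact hX.cng (fun l hl => (hget l hl).symm) (fun _ _ => rfl)
      (fun y l hl => if_pos (by omega)) (fun s l hl => if_pos (by omega)) hx

/-! ### The system -/

/-- **The system of the chain labels with the property `X`.** -/
noncomputable def chsysX (m : ℕ) (θ : Option ℝ) (X : PrX m) (hX : X.Her) : LSys m where
  ι := List (Fin m) × Fin m
  T i := CtX θ X i
  her i K a w P J F := CtX.her θ hX i K a w P J F
  anti h := CtX.anti h
  mono hK ha hw _ _ h := CtX.mono hX hK ha hw h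

instance (θ : Option ℝ) (X : PrX m) (hX : X.Her) : Countable (chsysX m θ X hX).ι :=
  inferInstanceAs (Countable (List (Fin m) × Fin m))

theorem slo_chsysX (θ : Option ℝ) (X : PrX m) (hX : X.Her) (S : PCl m) :
    Slo (chsysX m θ X hX) S := by
  intro i K
  refine ⟨K, fun w₀ hw₀ η hη => ⟨1, one_pos, 0, fun J _ F A _ a w v P Q _ _ _ _ hQ hT =>
    ⟨A, fun _ h => h, ?_, ?_⟩⟩⟩
  · have h1 : Real.exp (-(η * J)) ≤ 1 := by
      rw [Real.exp_le_one_iff]
      have : 0 ≤ η * (J : ℝ) := by positivity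
      linarith
    calc _ ≤ 1 * Pe F.p A := mul_le_mul_of_nonneg_right h1 (Pe_nonneg F.isLaw A)
      _ = _ := one_mul _
  · have h1 : Q ≤ P + v := by
      have : (Q : ℝ) ≤ ((P + v : ℕ) : ℝ) := by
        push_cast
        have : 0 ≤ η * (J : ℝ) := by positivity
        linarith
      exact_mod_cast this
    exact CtX.anti h1 (CtX.slope hT)

theorem tri_chsysX (θ : Option ℝ) (X : PrX m) (hX : X.Her) (S : PCl m) :
    Tri (chsysX m θ X hX) S := by
  intro i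
  refine ⟨0, fun η hη => ⟨1, one_pos, 0, fun J hJ F A _ w P hw hP => ⟨A, fun _ h => h, ?_, ?_⟩⟩⟩
  · have h1 : Real.exp (-(η * J)) ≤ 1 := by
      rw [Real.exp_le_one_iff]
      have : 0 ≤ η * (J : ℝ) := by positivity
      linarith
    calc _ ≤ 1 * Pe F.p A := mul_le_mul_of_nonneg_right h1 (Pe_nonneg F.isLaw A)
      _ = _ := one_mul _
  · refine Or.inl ?_
    have h0 : 0 ≤ η * (J : ℝ) := by positivity
    have : (P : ℝ) ≤ w := by linarith
    exact_mod_cast this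

/-- **The thresholds** are numbers of a subclass, for all bases and targets at once; they are
regular. -/
theorem thr_chsysX (θ : Option ℝ) (X : PrX m) (hX : X.Her) {S : PCl m} (hS : S.Ne) :
    ∃ (S' : PCl m) (P : List (Fin m) × Fin m → ℝ → ℝ → ℝ), S'.Ne ∧
      (∀ (τ : ℝ) (J : ℕ) (F : Fam m J) (A : F.Ω → Prop), S'.St τ J F A → S.St τ J F A) ∧
      ThrOf (chsysX m θ X hX) S' P ∧ ∀ i, Pool.LBT.Reg (P i) := by
  obtain ⟨S', P, h1, h2, h3⟩ := Pool.LBT.thr (chsysX m θ X hX) S hS (slo_chsysX θ X hX S)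
    (tri_chsysX θ X hX S)
  obtain ⟨P', h4, h5, -⟩ := h3.reg
  exact ⟨S', P', h1, h2, h4, h5⟩

/-- **Countably many properties at once.** -/
theorem thr_chsysXs {α : Type} [Countable α] (θ : α → Option ℝ) (X : α → PrX m)
    (hX : ∀ x, (X x).Her) {S : PCl m} (hS : S.Ne) :
    ∃ (S' : PCl m) (P : α → List (Fin m) × Fin m → ℝ → ℝ → ℝ), S'.Ne ∧
      (∀ (τ : ℝ) (J : ℕ) (F : Fam m J) (A : F.Ω → Prop), S'.St τ J F A → S.St τ J F A) ∧
      (∀ x, ThrOf (chsysX m (θ x) (X x) (hX x)) S' (P x)) ∧ ∀ x i, Pool.LBT.Reg (P x i) := by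
  have hc : ∀ x, Countable (chsysX m (θ x) (X x) (hX x)).ι := fun x => inferInstance
  obtain ⟨S', P, h1, h2, h3⟩ := Pool.LBT.thr
    (LSys.sig fun x => chsysX m (θ x) (X x) (hX x)) S hS
    (Pool.LBT.slo_sig fun x => slo_chsysX _ _ _ S) (Pool.LBT.tri_sig fun x => tri_chsysX _ _ _ S)
  obtain ⟨P', h4, h5, -⟩ := h3.reg
  exact ⟨S', fun x i => P' ⟨x, i⟩, h1, h2, fun x => h4.of_sig x, fun x i => h5 ⟨x, i⟩⟩

/-! ### None better, comparison -/

variable {S : PCl m} {P : List (Fin m) × Fin m → ℝ → ℝ → ℝ} {hX : X.Her} {hX' : X'.Her}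

/-- **No better label with the property**, uniformly. -/
theorem no_X (hP : ThrOf (chsysX m θ X hX) S P) (c : ℕ → Fin m) (i : ℕ) (K : ℕ → ℕ) (K' : ℕ)
    (a w : ℚ) (e h : ℝ) (hw : 0 ≤ w) (hwa : w ≤ a) (ha : a ≤ 1) (he : ∀ θ₀ ∈ θ, e < θ₀ * w)
    (hh : 0 < h) (h1 : bet P c i a w + h ≤ 1) :
    Bas S (fun J F A => ∀ (a₀ w₀ e₀ : ℕ) (g : ℕ → ℕ)
      (G : PtT F → ℕ → MvPolynomial (Option (Fin m)) ℝ)
      (H : LnT F → ℕ → MvPolynomial (Option (Fin m)) ℝ), w₀ ≤ a₀ → a₀ ≤ ⌊(a : ℝ) * J⌋₊ →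
      w₀ ≤ ⌊(w : ℝ) * J⌋₊ → (∀ θ₀ ∈ θ, e₀ ≤ ⌊e * J⌋₊) → (∀ l ≤ i, g l ≤ J) →
      ⌊(bet P c i a w + h) * J⌋₊ + a₀ ≤ g i + ⌊(a : ℝ) * J⌋₊ →
      ChOK F c (i + 1) K a₀ w₀ e₀ g A G H → ¬ X c i K' a₀ w₀ g J F A G H) := by
  obtain ⟨K₁, J₁, hK₁⟩ : ∃ K₁ J₁ : ℕ, ∀ θ₀ ∈ θ, ∀ K ≥ K₁, ∀ J ≥ J₁,
      ⌊e * J⌋₊ ≤ lipE θ₀ K ⌊(w : ℝ) * J⌋₊ J := by
    cases θ with
    | none => exact ⟨0, 0, fun _ h => by simp at h⟩
    | some t =>
      obtain ⟨K₁, J₁, h⟩ := le_lipE hw (he t rfl)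
      refine ⟨K₁, J₁, fun θ₀ hθ => ?_⟩
      have : t = θ₀ := by simpa using hθ
      rw [← this]
      exact h
  obtain ⟨K₀, hK₀⟩ : ∃ K₀, K₀ = max (max K₁ K') ((range (i + 1)).sup K) := ⟨_, rfl⟩
  refine Bas.mono J₁ (hP.no ((List.range i).map c, c i) K₀ a w h hw hwa ha hh h1) ?_
  intro J hJ F A hn a₀ w₀ e₀ g G H k1 k2 k3 k4 k5 k6 k7 k8
  refine hn ?_
  have hK : ∀ l < i + 1, K l ≤ K₀ := fun l hl => by
    rw [hK₀]
    exact (Finset.le_sup (f := K) (mem_range.2 hl)).trans (le_max_right _ _)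
  exact CtX.of_chOK hX k7 (hX.cls (by
    rw [hK₀]; exact (le_max_right _ _).trans (le_max_left _ _)) k8) k1 k2 k3 k6 hK
    (fun θ₀ hθ => (k4 θ₀ hθ).trans (hK₁ θ₀ hθ K₀ (by
      rw [hK₀]; exact (le_max_left _ _).trans (le_max_left _ _)) J hJ)) k5

/-- **Comparison with any system**: if the labels of `X` better than the radius are labels of the
other system, then its threshold is at least as large. -/
theorem leX_sys (hS : S.Ne) (hP : ThrOf (chsysX m θ X hX) S P) {L : LSys m}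
    {P' : L.ι → ℝ → ℝ → ℝ} (hP' : ThrOf L S P') {i : List (Fin m) × Fin m} {i' : L.ι}
    (h : ∀ K : ℕ, ∃ K' : ℕ, ∀ (a w Q J : ℕ) (F : Fam m J) (A : F.Ω → Prop), a < Q →
      CtX θ X i K a w Q J F A → L.T i' K' a w Q J F A) {a w : ℝ} {a' w' : ℚ} (hw : 0 < w)
    (hwa : w ≤ a) (ha : a ≤ a') (hww : w ≤ w') (hwa' : w' ≤ a') (ha' : a' ≤ 1) :
    P i a w ≤ P' i' a' w' := by
  by_contra hcon
  push Not at hcon
  have haR : (a' : ℝ) ≤ 1 := by exact_mod_cast ha'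
  have hwaR : (w' : ℝ) ≤ a' := by exact_mod_cast hwa'
  have h0' := hP'.low i' a' w' (hw.le.trans hww) hwaR haR
  have ha0 : 0 < a := hw.trans_le hwa
  have h0 : 0 ≤ P' i' a' w' := by linarith
  obtain ⟨e, he⟩ : ∃ e, e = (P i a w - P' i' a' w') / 2 := ⟨_, rfl⟩
  have he0 : 0 < e := by rw [he]; linarith
  have h1 := hP.up i a w hw.le hwa (ha.trans haR)
  obtain ⟨K, hK⟩ := hP.att i a w e hw hwa (ha.trans haR) he0 (by linarith)
  obtain ⟨K', hK'⟩ := h K
  have hno := hP'.no i' K' a' w' e (by exact_mod_cast hw.le.trans hww) hwa' ha' he0 (by linarith)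
  obtain ⟨J₁, hJ₁⟩ := exists_nat_ge (2 / e)
  refine bas_false hS (Bas.mono J₁ hK ?_) hno
  intro J hJ F A hT
  have hJ0 : (0 : ℝ) ≤ J := Nat.cast_nonneg J
  have b1 : 2 ≤ e * J := by
    have h3 : 2 / e ≤ J := hJ₁.trans (by exact_mod_cast hJ)
    rw [div_le_iff₀ he0] at h3
    linarith
  have e1 : P i a w - e = P' i' a' w' + e := by rw [he]; ring
  rw [e1] at hT
  have hlt : ⌊a * J⌋₊ < ⌊(P' i' a' w' + e) * J⌋₊ := by
    have f1 : (⌊a * J⌋₊ : ℝ) ≤ a * J := Nat.floor_le (by positivity)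
    have f2 := Nat.lt_floor_add_one ((P' i' a' w' + e) * J)
    have f3 : a * J ≤ P' i' a' w' * J := mul_le_mul_of_nonneg_right (by linarith) hJ0
    have f4 : (⌊a * J⌋₊ : ℝ) < ⌊(P' i' a' w' + e) * J⌋₊ := by linarith
    exact_mod_cast f4
  exact L.mono le_rfl (Nat.floor_le_floor (mul_le_mul_of_nonneg_right ha hJ0))
    (Nat.floor_le_floor (mul_le_mul_of_nonneg_right hww hJ0))
    (Nat.floor_le_floor (mul_le_mul_of_nonneg_right hwaR hJ0)) (fl_le' haR J)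
    (hK' _ _ _ _ _ _ hlt hT)

/-- **The thresholds are at most those of all the chains.** -/
theorem leX_ch {θ₀ : ℝ} (hS : S.Ne) (hP : ThrOf (chsysX m (some θ₀) X hX) S P)
    {P' : List (Fin m) × Fin m → ℝ → ℝ → ℝ} (hP' : ThrOf (chsys m θ₀) S P')
    (i : List (Fin m) × Fin m) {a w : ℝ} {a' w' : ℚ} (hw : 0 < w) (hwa : w ≤ a) (ha : a ≤ a')
    (hww : w ≤ w') (hwa' : w' ≤ a') (ha' : a' ≤ 1) : P i a w ≤ P' i a' w' :=
  leX_sys hS hP hP' (fun K => ⟨K, fun _ _ _ _ _ _ hlt h => h.cht hlt⟩) hw hwa ha hww hwa' ha'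

/-- **A weaker property has larger thresholds.** -/
theorem leX (hS : S.Ne) (hP : ThrOf (chsysX m θ X hX) S P)
    {P' : List (Fin m) × Fin m → ℝ → ℝ → ℝ} (hP' : ThrOf (chsysX m θ X' hX') S P')
    (i : List (Fin m) × Fin m)
    (hXX : ∀ (K a w : ℕ) (g : ℕ → ℕ) (J : ℕ) (F : Fam m J) (A : F.Ω → Prop)
      (G : PtT F → ℕ → MvPolynomial (Option (Fin m)) ℝ)
      (H : LnT F → ℕ → MvPolynomial (Option (Fin m)) ℝ),
      X (fun j => i.1.getD j i.2) i.1.length K a w g J F A G H →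
      X' (fun j => i.1.getD j i.2) i.1.length K a w g J F A G H)
    {a w : ℝ} {a' w' : ℚ} (hw : 0 < w) (hwa : w ≤ a) (ha : a ≤ a')
    (hww : w ≤ w') (hwa' : w' ≤ a') (ha' : a' ≤ 1) : P i a w ≤ P' i a' w' :=
  leX_sys hS hP hP' (fun K => ⟨K, fun _ _ _ _ _ _ _ h => h.imp hXX⟩) hw hwa ha hww hwa' ha'

/-- **Labels bound the threshold from below.** -/
theorem le_X (hS : S.Ne) (hP : ThrOf (chsysX m θ X hX) S P) (c : ℕ → Fin m) (i : ℕ) (K : ℕ → ℕ)
    (K' : ℕ) {a w : ℝ} {a' w' : ℚ} {e q : ℝ} (hw : 0 ≤ w) (hwa : w ≤ a) (ha : a ≤ a')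
    (hww : w ≤ w') (hwa' : w' ≤ a') (ha' : a' ≤ 1) (he : ∀ θ₀ ∈ θ, e < θ₀ * w')
    (h : Bas S (fun J F A => ∃ (e₀ : ℕ) (g : ℕ → ℕ)
      (G : PtT F → ℕ → MvPolynomial (Option (Fin m)) ℝ)
      (H : LnT F → ℕ → MvPolynomial (Option (Fin m)) ℝ), (∀ θ₀ ∈ θ, e₀ ≤ ⌊e * J⌋₊) ∧
      (∀ l ≤ i, g l ≤ J) ∧ q * J ≤ g i + 1 ∧ ChOK F c (i + 1) K ⌊a * J⌋₊ ⌊w * J⌋₊ e₀ g A G H ∧
      X c i K' ⌊a * J⌋₊ ⌊w * J⌋₊ g J F A G H)) :
    min 1 (q + (a' - a)) ≤ bet P c i a' w' := by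
  by_contra hcon
  push Not at hcon
  have haR : (a' : ℝ) ≤ 1 := by exact_mod_cast ha'
  have hwaR : (w' : ℝ) ≤ a' := by exact_mod_cast hwa'
  have c1 : bet P c i a' w' < 1 := hcon.trans_le (min_le_left _ _)
  have c2 : bet P c i a' w' < q + (a' - a) := hcon.trans_le (min_le_right _ _)
  have c0 : 0 ≤ bet P c i a' w' := by
    have h1 := hP.low ((List.range i).map c, c i) a' w' (hw.trans hww) hwaR haR
    have h2 : (0 : ℝ) ≤ a' := (hw.trans hwa).trans ha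
    exact h2.trans h1
  obtain ⟨η, hη⟩ : ∃ η, η = min (1 - bet P c i a' w') ((q + (a' - a) - bet P c i a' w') / 2) :=
    ⟨_, rfl⟩
  have hη0 : 0 < η := by rw [hη]; exact lt_min (by linarith) (by linarith)
  have hη1 : bet P c i a' w' + η ≤ 1 := by
    have := min_le_left (1 - bet P c i a' w') ((q + (a' - a) - bet P c i a' w') / 2)
    rw [← hη] at this
    linarith
  have hη2 : bet P c i a' w' + 2 * η ≤ q + (a' - a) := by
    have := min_le_right (1 - bet P c i a' w') ((q + (a' - a) - bet P c i a' w') / 2)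
    rw [← hη] at this
    linarith
  obtain ⟨J₁, hJ₁⟩ := exists_nat_ge (3 / η)
  refine bas_false hS h (Bas.mono J₁ (no_X hP c i K K' a' w' e η
    (by exact_mod_cast hw.trans hww) hwa' ha' he hη0 hη1) ?_)
  rintro J hJ F A hn ⟨e₀, g, G, H, k1, k2, k4, k5, k6⟩
  have hJ0 : (0 : ℝ) ≤ J := Nat.cast_nonneg J
  have ha0 : 0 ≤ a := hw.trans hwa
  refine hn _ _ e₀ g G H (Nat.floor_le_floor (mul_le_mul_of_nonneg_right hwa hJ0))
    (Nat.floor_le_floor (mul_le_mul_of_nonneg_right ha hJ0))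
    (Nat.floor_le_floor (mul_le_mul_of_nonneg_right hww hJ0)) k1 k2 ?_ k5 k6
  have hJ' : (J₁ : ℝ) ≤ J := by exact_mod_cast hJ
  have e1 : 3 / η ≤ J := hJ₁.trans hJ'
  rw [div_le_iff₀ hη0] at e1
  have f1 := Nat.floor_le (show 0 ≤ (bet P c i a' w' + η) * (J : ℝ) by positivity)
  have f2 := Nat.floor_le (show 0 ≤ a * (J : ℝ) by positivity)
  have f3 := Nat.lt_floor_add_one ((a' : ℝ) * (J : ℝ))
  have f4 : ((⌊(bet P c i a' w' + η) * J⌋₊ + ⌊a * J⌋₊ : ℕ) : ℝ) ≤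
      ((g i + ⌊(a' : ℝ) * J⌋₊ : ℕ) : ℝ) := by
    push_cast
    nlinarith
  exact_mod_cast f4

end Pool.CHX
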