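import Pool.Agent.H2.GEN.ChnI

/-!
# The grid of re-centred ball charts on the box of a row

`GrB`: the ball charts of the windows of a grid, each one re-centred at all radii of the grid.
`chn_box`: the charts of all points of a fine grid on the box of a row, on one event; the class of
the charts depends only on the number of coordinates and on the constant of the row.
-/

set_option autoImplicit false

namespace Pool.ISO

open Finset Real MvPolynomial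
open Pool.Agent.H49.Ent Pool.Agent.H32.Dense Pool.STK Pool.KA Pool.KSAT Pool.K2S Pool.PB Pool.S6C
open Pool.GEN Pool.CHT Pool.CHX
open Pool.LBT (LSys Slo Tri ThrOf fl_le' bas_false)
open Pool.LEV (Law)
open Pool.FLF (Fam.sub)
open Pool.JTN (TgP)
open Pool.STR (Slp)
open Pool.STAT (msh)
open Pool.STAT.CLO (up up_ge up_le Lg)

variable {m J : ℕ}

/-! ### The grid -/

/-- **The ball charts of the windows of a grid**, each one re-centred at all radii of the grid. -/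
def GrB (cs : ℕ → Fin m) (n K M : ℕ) (g r ζ : ℝ) (e : ℕ → ℝ) (b : ℕ → ℕ → ℕ → ℝ)
    (lo hi : ℕ → ℕ → ℝ) : Stat m := fun J F B =>
  ∃ (g₀ : ℕ → ℕ → ℕ) (G₀ : ℕ → PtT F → ℕ → MvPolynomial (Option (Fin m)) ℝ)
    (H₀ : ℕ → LnT F → ℕ → MvPolynomial (Option (Fin m)) ℝ), ∀ j ≤ M,
    IsoB F cs n K M (up g J + j * up ζ J) (fun i => up (g + r) J + i * up ζ J) ⌊e j * J⌋₊
      (fun i l => ⌊b i j l * J⌋₊) (fun l => lo j l * J) (fun l => hi j l * J) B (g₀ j) (G₀ j)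
      (H₀ j)

/-- **The grid of re-centred ball charts on the box of a row.** -/
theorem chn_box (m n₀ : ℕ) {c : ℝ} (hc : 0 < c) (hc1 : c ≤ 1) : ∃ (D : ℕ) (C : ℝ), 1 ≤ D ∧
    1 ≤ C ∧ ∀ {S : PCl m} {P : List (Fin m) × Fin m → ℝ → ℝ → ℝ} {θ : ℝ} {cs : ℕ → Fin m}
    {Pt : ℝ → ℝ → ℝ} {W : Set ℝ} {sg g r : ℝ}, S.Ne → ThrOf (chsys m θ) S P → TmH S →
    Set.InjOn cs (Set.Iio (n₀ + 1)) → Law Pt → ChI S P θ cs n₀ Pt W sg c g r → 0 < r → C * r ≤ 1 →
    ∀ {ε θ' : ℝ} (N M : ℕ), 2 ≤ N → 0 ≤ ε → 0 < θ' → θ' ≤ 1 → C * (ε * (N * (M + 4))) < θ' →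
    (∀ l ≤ n₀, ∃ V Sl : ℝ, c * Sl ≤ 1 ∧ ∀ w : ℝ, |w - g| ≤ 8 * r →
      |lvN P cs n₀ Pt l w w - V - Sl * (w - g)| ≤ ε * r) →
    ∃ (b : ℕ → ℕ → ℕ → ℝ) (e : ℕ → ℝ),
      (∀ i ≤ M, ∀ j ≤ M, ∀ l ≤ n₀, b i j l <
        Pool.RTS.iso (fun v => lvN P cs n₀ Pt l v v) (g + r + i * msh r N M)
          (g + j * msh r N M)) ∧
      (∀ i ≤ M, ∀ j ≤ M, ∀ l ≤ n₀, Pool.RTS.iso (fun v => lvN P cs n₀ Pt l v v)
        (g + r + i * msh r N M) (g + j * msh r N M) - θ' * msh r N M ≤ b i j l) ∧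
      (∀ j ≤ M, 0 ≤ e j) ∧ (∀ i ≤ M, ∀ j ≤ M, ∀ l ≤ n₀, b i j l + e j + r ≤ 1) ∧
      Lg S (GrB cs (n₀ + 1) D M g r (msh r N M) e b
        (fun j l => lvN P cs n₀ Pt l (g + j * msh r N M) (g + j * msh r N M) - θ' * msh r N M)
        (fun j l => lvN P cs n₀ Pt l (g + j * msh r N M) (g + j * msh r N M))) := by
  obtain ⟨D, C₁, hD, hC₁, hwin⟩ := chn_win m n₀ hc hc1
  have hc16 : 0 < 16 / c := by positivity
  refine ⟨D, 4 * C₁ + 16 / c, hD, by linarith, ?_⟩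
  intro S P θ cs Pt W sg g r hne hP hS hinj hPt hI hr hCr ε θ' N M hN hε hθ0 hθ1 hCε haf
  have hg := hI.g0
  have hg1 := hI.g1
  have hsg := hI.sg1
  have hr16 : 16 * r ≤ c := by
    have h1 : 16 / c * r ≤ 1 := by nlinarith
    rw [div_mul_eq_mul_div, div_le_iff₀ hc] at h1
    linarith
  have hC₁r : C₁ * r ≤ 1 := by nlinarith
  have hNr : (2 : ℝ) ≤ N := by exact_mod_cast hN
  have hMr : (0 : ℝ) ≤ M := Nat.cast_nonneg M
  obtain ⟨ζ, hζ⟩ : ∃ ζ : ℝ, ζ = msh r N M := ⟨_, rfl⟩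
  have hζe : N * ((M + 4) * ζ) = r := by
    rw [hζ]
    unfold msh
    field_simp
  have hζ0 : 0 < ζ := by
    rw [hζ]
    unfold msh
    positivity
  rw [← hζ]
  have hMζ : M * ζ ≤ r / 2 := by
    have h1 : 0 ≤ (M + 4) * ζ := by positivity
    nlinarith
  have hζr : ζ ≤ r := by
    have h1 : 0 ≤ (N : ℝ) * (M * ζ) := by positivity
    have h2 : 2 * ζ ≤ N * ζ := mul_le_mul_of_nonneg_right hNr hζ0.le
    have h3 : (N : ℝ) * ((M + 4) * ζ) = N * (M * ζ) + 4 * (N * ζ) := by ring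
    linarith
  obtain ⟨σ, hσ⟩ : ∃ σ : ℝ, σ = θ' * ζ / 4 := ⟨_, rfl⟩
  have hσ0 : 0 < σ := by rw [hσ]; positivity
  have hσr : σ ≤ r := by
    have h1 := mul_le_mul_of_nonneg_right hθ1 hζ0.le
    rw [hσ]
    linarith
  have hσε : C₁ * (ε * r) < σ := by
    have h1 : (4 * C₁ + 16 / c) * (ε * (N * (M + 4))) ≥ 4 * C₁ * (ε * (N * (M + 4))) := by
      refine mul_le_mul_of_nonneg_right (by linarith) (by positivity)
    have h2 : 4 * C₁ * (ε * (N * (M + 4))) < θ' := by linarith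
    have h3 := mul_lt_mul_of_pos_right h2 hζ0
    have h4 : 4 * C₁ * (ε * (N * (M + 4))) * ζ = 4 * (C₁ * (ε * (N * ((M + 4) * ζ)))) := by ring
    rw [h4, hζe] at h3
    rw [hσ]
    linarith
  have hjζ : ∀ j : ℕ, j ≤ M → 0 ≤ j * ζ ∧ j * ζ ≤ r / 2 := fun j hj => by
    have h1 : (j : ℝ) ≤ M := by exact_mod_cast hj
    exact ⟨by positivity, (mul_le_mul_of_nonneg_right h1 hζ0.le).trans hMζ⟩
  -- the windows
  have hw : ∀ j : ℕ, ∃ (E K₁ μ : ℝ) (b : ℕ → ℝ), j ≤ M → (0 ≤ E ∧ 0 < K₁ ∧ 0 < μ ∧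
      (∀ l ≤ n₀, lvN P cs n₀ Pt l (g + j * ζ) (g + j * ζ) - 2 * σ < b l ∧
        b l < lvN P cs n₀ Pt l (g + j * ζ) (g + j * ζ) - μ) ∧
      (∀ l ≤ n₀, lvN P cs n₀ Pt l (g + j * ζ) (g + j * ζ) + E + c / 4 ≤ 1) ∧
      Bas S (fun J F A => ∀ (w' : ℕ) (a' : ℕ → ℕ) (gg : ℕ → ℕ → ℕ), (g + j * ζ) * J ≤ w' →
        (w' : ℝ) ≤ (g + j * ζ + r) * J → (∀ i ≤ M, (w' : ℝ) + r / 4 * J ≤ a' i) →
        (∀ i ≤ M, (a' i : ℝ) - w' ≤ c / 8 * J) →
        (∀ i ≤ M, ∀ l ≤ n₀, (gg i l : ℝ) ≤ b l * J + (a' i - w') + μ * J) →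
        (∀ i ≤ M, ∀ l ≤ n₀, b l * J + (a' i - w') ≤ gg i l + μ * J) →
        ∃ (B : F.Ω → Prop) (g₀ : ℕ → ℕ) (G₀ : PtT F → ℕ → MvPolynomial (Option (Fin m)) ℝ)
          (H₀ : LnT F → ℕ → MvPolynomial (Option (Fin m)) ℝ), Sub B A ∧
          Pe F.p A ≤ K₁ * Pe F.p B ∧
          IsoB F cs (n₀ + 1) D M w' a' ⌊E * J⌋₊ gg
            (fun l => (lvN P cs n₀ Pt l (g + j * ζ) (g + j * ζ) - 2 * σ) * J)
            (fun l => lvN P cs n₀ Pt l (g + j * ζ) (g + j * ζ) * J) B g₀ G₀ H₀)) := by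
    intro j
    by_cases hj : j ≤ M
    · obtain ⟨h1, h2⟩ := hjζ j hj
      obtain ⟨E, K₁, μ, b, k⟩ := hwin hne hP hS hinj hPt hI hr hC₁r hε hσ0 hσε hσr haf
        (z := g + j * ζ) (by linarith) (by linarith) M
      exact ⟨E, K₁, μ, b, fun _ => k⟩
    · exact ⟨0, 0, 0, fun _ => 0, fun h => absurd h hj⟩
  choose E K₁ μ b hw using hw
  have hlow : ∀ j : ℕ, j ≤ M → ∀ l ≤ n₀, g ≤ lvN P cs n₀ Pt l (g + j * ζ) (g + j * ζ) := by
    intro j hj l hl
    obtain ⟨h1, h2⟩ := hjζ j hj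
    have h3 : g + j * ζ ≤ lvN P cs n₀ Pt l (g + j * ζ) (g + j * ζ) := by
      unfold lvN
      split_ifs
      · exact hP.low _ _ _ (by linarith) le_rfl (by linarith)
      · exact hI.low _ (by linarith) (by linarith)
    linarith
  have hiso : ∀ i ≤ M, ∀ j ≤ M, ∀ l ≤ n₀, Pool.RTS.iso (fun v => lvN P cs n₀ Pt l v v)
      (g + r + i * ζ) (g + j * ζ) = lvN P cs n₀ Pt l (g + j * ζ) (g + j * ζ) +
        (r + i * ζ - j * ζ) := by
    intro i hi j hj l hl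
    obtain ⟨h1, h2⟩ := hjζ j hj
    obtain ⟨h3, h4⟩ := hjζ i hi
    have h5 := hI.bdl (n₀ := n₀) l (w := g + j * ζ) (by linarith) (by linarith)
    unfold Pool.RTS.iso
    rw [min_eq_right (by
      show lvN P cs n₀ Pt l (g + j * ζ) (g + j * ζ) + _ ≤ 1
      linarith)]
    show lvN P cs n₀ Pt l (g + j * ζ) (g + j * ζ) + _ = _
    ring
  refine ⟨fun i j l => b j l + (r + i * ζ - j * ζ), E, fun i hi j hj l hl => ?_,
    fun i hi j hj l hl => ?_, fun j hj => (hw j hj).1, fun i hi j hj l hl => ?_, ?_⟩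
  · rw [hiso i hi j hj l hl]
    have h1 := ((hw j hj).2.2.2.1 l hl).2
    have h2 := (hw j hj).2.2.1
    linarith
  · rw [hiso i hi j hj l hl]
    have h1 := ((hw j hj).2.2.2.1 l hl).1
    have h2 : θ' * ζ = 4 * σ := by rw [hσ]; ring
    linarith
  · have h1 := ((hw j hj).2.2.2.1 l hl).2
    have h2 := (hw j hj).2.2.1
    have h3 := (hw j hj).2.2.2.2.1 l hl
    obtain ⟨h4, h5⟩ := hjζ j hj
    obtain ⟨h6, h7⟩ := hjζ i hi
    show b j l + (r + i * ζ - j * ζ) + E j + r ≤ 1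
    linarith
  -- the classes
  obtain ⟨Φ, hΦ⟩ : ∃ Φ : ℕ → Stat m, Φ = fun j J F B =>
      ∃ (g₀ : ℕ → ℕ) (G₀ : PtT F → ℕ → MvPolynomial (Option (Fin m)) ℝ)
        (H₀ : LnT F → ℕ → MvPolynomial (Option (Fin m)) ℝ),
        IsoB F cs (n₀ + 1) D M (up g J + j * up ζ J) (fun i => up (g + r) J + i * up ζ J)
          ⌊E j * J⌋₊ (fun i l => ⌊(b j l + (r + i * ζ - j * ζ)) * J⌋₊)
          (fun l => (lvN P cs n₀ Pt l (g + j * ζ) (g + j * ζ) - θ' * ζ) * J)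
          (fun l => lvN P cs n₀ Pt l (g + j * ζ) (g + j * ζ) * J) B g₀ G₀ H₀ := ⟨_, rfl⟩
  have hall : ∀ j ∈ range (M + 1), Lg S (Φ j) := by
    intro j hj
    have hjM : j ≤ M := by
      have := mem_range.1 hj
      omega
    obtain ⟨hE, hK₁, hμ, hbl, -, hbas⟩ := hw j hjM
    obtain ⟨h1, h2⟩ := hjζ j hjM
    obtain ⟨J₁, hJ₁⟩ := big ((M : ℝ) + 2) (show 0 < r / 4 by positivity)
    obtain ⟨J₂, hJ₂⟩ := big ((M : ℝ) + 2) hμ
    refine ⟨max (K₁ j) 1, le_max_right _ _, Bas.mono (max J₁ J₂) hbas ?_⟩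
    rintro J hJ F A hA
    have hJ0 : (0 : ℝ) ≤ J := Nat.cast_nonneg J
    have j1 := hJ₁ J ((le_max_left _ _).trans hJ)
    have j2 := hJ₂ J ((le_max_right _ _).trans hJ)
    have u1 := up_ge g J
    have u2 := up_le (show 0 ≤ g by linarith) J
    have u3 := up_ge ζ J
    have u4 := up_le hζ0.le J
    have u5 := up_ge (g + r) J
    have u6 := up_le (show 0 ≤ g + r by linarith) J
    have mul1 : ∀ i : ℕ, i ≤ M → (i : ℝ) * ζ * J ≤ i * up ζ J ∧
        (i : ℝ) * up ζ J ≤ i * ζ * J + M := by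
      intro i hi
      have h3 : (i : ℝ) ≤ M := by exact_mod_cast hi
      have h4 : (0 : ℝ) ≤ i := Nat.cast_nonneg i
      constructor
      · have := mul_le_mul_of_nonneg_left u3 h4
        linarith
      · have := mul_le_mul_of_nonneg_left u4 h4
        linarith
    obtain ⟨m1, m2⟩ := mul1 j hjM
    have hdist : ∀ i ≤ M, (r + i * ζ - j * ζ) * J ≤ ((up (g + r) J + i * up ζ J : ℕ) : ℝ) -
        ((up g J + j * up ζ J : ℕ) : ℝ) + (M + 1) ∧
        ((up (g + r) J + i * up ζ J : ℕ) : ℝ) - ((up g J + j * up ζ J : ℕ) : ℝ) ≤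
          (r + i * ζ - j * ζ) * J + (M + 1) := by
      intro i hi
      obtain ⟨m3, m4⟩ := mul1 i hi
      push_cast
      have e1 : (g + r) * (J : ℝ) = g * J + r * J := by ring
      have e2 : (r + i * ζ - j * ζ) * (J : ℝ) = r * J + i * ζ * J - j * ζ * J := by ring
      rw [e1] at u5 u6
      rw [e2]
      constructor <;> linarith
    obtain ⟨B, g₀, G₀, H₀, k1, k2, k3⟩ := hA (up g J + j * up ζ J)
      (fun i => up (g + r) J + i * up ζ J)
      (fun i l => ⌊(b j l + (r + i * ζ - j * ζ)) * J⌋₊) (by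
        push_cast
        have e1 : (g + j * ζ) * (J : ℝ) = g * J + j * ζ * J := by ring
        linarith) (by
        push_cast
        have e1 : (g + j * ζ + r) * (J : ℝ) = g * J + j * ζ * J + r * J := by ring
        have e2 : r * (J : ℝ) = 4 * (r / 4 * J) := by ring
        linarith) (fun i hi => by
        have h3 := (hdist i hi).1
        obtain ⟨h4, h5⟩ := hjζ i hi
        have h6 : (r / 2) * (J : ℝ) ≤ (r + i * ζ - j * ζ) * J :=
          mul_le_mul_of_nonneg_right (by linarith) hJ0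
        have e2 : r / 2 * (J : ℝ) = 2 * (r / 4 * J) := by ring
        linarith) (fun i hi => by
        have h3 := (hdist i hi).2
        obtain ⟨h4, h5⟩ := hjζ i hi
        have h6 : (r + i * ζ - j * ζ) * J ≤ (3 / 2 * r) * (J : ℝ) :=
          mul_le_mul_of_nonneg_right (by linarith) hJ0
        have h7 : 2 * r * (J : ℝ) ≤ c / 8 * J := mul_le_mul_of_nonneg_right (by linarith) hJ0
        have e2 : 2 * r * (J : ℝ) = 3 / 2 * r * J + 2 * (r / 4 * J) := by ring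
        linarith) (fun i hi l hl => by
        have h3 := (hdist i hi).1
        have h4 := (hbl l hl).1
        have h5 := hlow j hjM l hl
        obtain ⟨h6, h7⟩ := hjζ i hi
        have h8 : 0 ≤ b j l + (r + i * ζ - j * ζ) := by linarith
        have h9 := Nat.floor_le (mul_nonneg h8 hJ0)
        have e1 : (b j l + (r + i * ζ - j * ζ)) * (J : ℝ) = b j l * J +
          (r + i * ζ - j * ζ) * J := by ring
        linarith) (fun i hi l hl => by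
        have h3 := (hdist i hi).2
        have h9 := (Nat.lt_floor_add_one ((b j l + (r + i * ζ - j * ζ)) * (J : ℝ))).le
        have e1 : (b j l + (r + i * ζ - j * ζ)) * (J : ℝ) = b j l * J +
          (r + i * ζ - j * ζ) * J := by ring
        linarith)
    refine ⟨B, k1, k2.trans (mul_le_mul_of_nonneg_right (le_max_left _ _)
      (Pe_nonneg F.isLaw B)), ?_⟩
    rw [hΦ]
    refine ⟨g₀, G₀, H₀, ⟨fun l hl => ?_, k3.ball, k3.rad, k3.near⟩⟩
    have h3 := k3.sd l hl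
    refine ⟨le_trans ?_ h3.1, h3.2⟩
    refine mul_le_mul_of_nonneg_right ?_ hJ0
    have e1 : θ' * ζ = 4 * σ := by rw [hσ]; ring
    linarith
  refine (Lg.all (range (M + 1)) (fun j _ J F B B' hB => ?_) hall).mono 0 ?_
  · rw [hΦ]
    rintro ⟨g₀, G₀, H₀, h1⟩
    exact ⟨g₀, G₀, H₀, h1.sub hB⟩
  · rintro J - F A hA
    have hA' : ∀ j : ℕ, ∃ (g₀ : ℕ → ℕ) (G₀ : PtT F → ℕ → MvPolynomial (Option (Fin m)) ℝ)
        (H₀ : LnT F → ℕ → MvPolynomial (Option (Fin m)) ℝ), j ≤ M →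
        IsoB F cs (n₀ + 1) D M (up g J + j * up ζ J) (fun i => up (g + r) J + i * up ζ J)
          ⌊E j * J⌋₊ (fun i l => ⌊(b j l + (r + i * ζ - j * ζ)) * J⌋₊)
          (fun l => (lvN P cs n₀ Pt l (g + j * ζ) (g + j * ζ) - θ' * ζ) * J)
          (fun l => lvN P cs n₀ Pt l (g + j * ζ) (g + j * ζ) * J) A g₀ G₀ H₀ := by
      intro j
      by_cases hj : j ≤ M
      · have h1 := hA j (mem_range.2 (by omega))
        rw [hΦ] at h1
        obtain ⟨g₀, G₀, H₀, h1⟩ := h1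
        exact ⟨g₀, G₀, H₀, fun _ => h1⟩
      · exact ⟨fun _ => 0, fun _ _ => 0, fun _ _ => 0, fun h => absurd h hj⟩
    choose g₀ G₀ H₀ hA' using hA'
    exact ⟨g₀, G₀, H₀, hA'⟩

end Pool.ISO
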