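import Pool.Agent.H2.GEN.IsoM
import Pool.Agent.H60.GEN.Sel
import Pool.Agent.H78.MIC.Cel
import Pool.Agent.H40.MIC.GrdX
import Pool.Agent.H29.REC.Iso

/-!
# The grid of re-centred ball charts on the box of a row

`ChI`: what is needed at a row at the window `g` and the scale `r`. `IsoB`: one ball chart,
re-centred at several radii. `chn_box`: the charts of all points of a fine grid; the class of the
charts depends only on the number of coordinates and on the constant of the row.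
-/

set_option autoImplicit false

namespace Pool.ISO

open Finset Real MvPolynomial
open Pool.Agent.H49.Ent Pool.Agent.H32.Dense Pool.STK Pool.KA Pool.KSAT Pool.K2S Pool.PB Pool.S6C
open Pool.GEN Pool.CHT Pool.CHX
open Pool.LBT (LSys Slo Tri ThrOf fl_le' bas_false)
open Pool.LEV (Law)
open Pool.FLF (Fam.sub)
open Pool.JTN (TgP)
open Pool.STR (Slp)
open Pool.STAT (msh)
open Pool.STAT.CLO (up up_ge up_le Lg)

variable {m J : ℕ}

/-- **A row at the window `g`**, at the scale `r`, with the constant `c`: `cs 0, …, cs (n₀ - 1)` is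
the greedy list of the window `g`, `cs n₀` is the target, `Pt` its threshold, `W` a dense set of
windows with labels of the target, `sg` a bound of all thresholds. -/
structure ChI (S : PCl m) (P : List (Fin m) × Fin m → ℝ → ℝ → ℝ) (θ : ℝ) (cs : ℕ → Fin m) (n₀ : ℕ)
    (Pt : ℝ → ℝ → ℝ) (W : Set ℝ) (sg c g r : ℝ) : Prop where
  g0 : c ≤ g
  g1 : g + c ≤ 1
  cθ : c ≤ θ
  sg1 : sg + c ≤ 1
  sgθ : sg + θ < 1
  bd : ∀ l < n₀, ∀ w, 0 < w → w ≤ g + 8 * r → bet P cs l w w ≤ sg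
  bdN : ∀ w, 0 < w → w ≤ g + 8 * r → Pt w w ≤ sg
  low : ∀ w, 0 < w → w ≤ 1 → w ≤ Pt w w
  tg : ∀ w ∈ W, 0 < w → w ≤ g + 8 * r → TgP S cs n₀ (Pt w w) w w sg
  up : ∀ w ∈ W, 0 < w → w < 1 → ∀ i < n₀, ∀ l ≤ i, Up1 (tau P cs l i) w w
  den : ∀ x y : ℝ, 0 < x → x < y → y < 1 → ∃ w ∈ W, x < w ∧ w < y
  gre : ∀ i < n₀, ∀ l < i, bet P cs l g g ≤ tau P cs l i g g
  slo : ∀ i < n₀, ∀ l ≤ i, Slp (fun v => tau P cs l i v v) c g r
  sloN : Slp (fun v => Pt v v) c g r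

/-- **One ball chart, re-centred at several radii.** -/
structure IsoB (F : Fam m J) (cs : ℕ → Fin m) (n K M w' : ℕ) (a' : ℕ → ℕ) (e : ℕ)
    (gg : ℕ → ℕ → ℕ) (lo hi : ℕ → ℝ) (B : F.Ω → Prop) (g₀ : ℕ → ℕ)
    (G₀ : PtT F → ℕ → MvPolynomial (Option (Fin m)) ℝ)
    (H₀ : LnT F → ℕ → MvPolynomial (Option (Fin m)) ℝ) : Prop where
  sd : ∀ l < n, lo l ≤ g₀ l ∧ (g₀ l : ℝ) ≤ hi l
  ball : ChOK F cs n (fun _ => K) w' w' e g₀ B G₀ H₀
  rad : ∀ i ≤ M, ChOK F cs n (fun _ => K) (a' i) w' e (gg i) B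
    (fun y l => Gno (cs l) J J (fun y => G₀ y l) y) (fun s l => Hno (cs l) (fun s => H₀ s l) s)
  near : ∀ ω, B ω → ∀ l < n, ∀ b : Option (Fin m) → ℝ,
    |eval b (Gno (cs l) J J (fun y => G₀ y l) (ptr F J ω)) - eval b (G₀ (ptr F J ω) l)| ≤
      2 / 2 ^ g₀ l

theorem IsoB.sub {F : Fam m J} {cs : ℕ → Fin m} {n K M w' : ℕ} {a' : ℕ → ℕ} {e : ℕ}
    {gg : ℕ → ℕ → ℕ} {lo hi : ℕ → ℝ} {B B' : F.Ω → Prop} {g₀ : ℕ → ℕ}
    {G₀ : PtT F → ℕ → MvPolynomial (Option (Fin m)) ℝ}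
    {H₀ : LnT F → ℕ → MvPolynomial (Option (Fin m)) ℝ}
    (h : IsoB F cs n K M w' a' e gg lo hi B g₀ G₀ H₀) (hB : Sub B' B) :
    IsoB F cs n K M w' a' e gg lo hi B' g₀ G₀ H₀ :=
  ⟨h.sd, h.ball.sub hB, fun i hi => (h.rad i hi).sub hB, fun ω hω => h.near ω (hB ω hω)⟩

/-! ### Numbers -/

section num

variable {S : PCl m} {P : List (Fin m) × Fin m → ℝ → ℝ → ℝ} {θ : ℝ} {cs : ℕ → Fin m} {n₀ : ℕ}
  {Pt : ℝ → ℝ → ℝ} {W : Set ℝ} {sg c g r : ℝ}

/-- The levels on the diagonal increase. -/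
theorem lvN_mono (hP : ThrOf (chsys m θ) S P) (hPt : Law Pt) (l : ℕ) {x y : ℝ} (h0 : 0 ≤ x)
    (h1 : x ≤ y) (h2 : y ≤ 1) : lvN P cs n₀ Pt l x x ≤ lvN P cs n₀ Pt l y y := by
  unfold lvN
  split_ifs
  · exact (hP.law _).mono h0 le_rfl h1 h1 le_rfl h2
  · exact hPt.mono h0 le_rfl h1 h1 le_rfl h2

/-- The slopes of the levels. -/
theorem ChI.slp (h : ChI S P θ cs n₀ Pt W sg c g r) (l : ℕ) :
    Slp (fun v => lvN P cs n₀ Pt l v v) c g r := by
  unfold lvN
  split_ifs with h1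
  · exact h.slo l h1 l le_rfl
  · exact h.sloN

theorem ChI.bdl (h : ChI S P θ cs n₀ Pt W sg c g r) (l : ℕ) {w : ℝ} (h0 : 0 < w)
    (h1 : w ≤ g + 8 * r) : lvN P cs n₀ Pt l w w ≤ sg := by
  unfold lvN
  split_ifs with h2
  · exact h.bd l h2 w h0 h1
  · exact h.bdN w h0 h1

/-- **The slowness** near the window of the row. -/
theorem ChI.slow (h : ChI S P θ cs n₀ Pt W sg c g r) (hP : ThrOf (chsys m θ) S P) (hc : 0 < c)
    (hr : 0 < r) (hr1 : 8 * r ≤ c) {vs x y : ℝ} (hv : (y + r) / c ≤ vs) (hx : 0 < x)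
    (hx1 : g - y ≤ x) (hx2 : x ≤ g + r) (hy : 0 ≤ y) {i l : ℕ} (hi : i < n₀) (hl : l < i) :
    bet P cs l x x ≤ tau P cs l i x x + vs := by
  have hg := h.g0
  have hg1 := h.g1
  have h1 := h.gre i hi l hl
  have hyc : 0 ≤ y / c := by positivity
  have hrc : 0 ≤ r / c := by positivity
  have hv' : y / c + r / c ≤ vs := by
    rw [← add_div]
    exact hv
  rcases le_or_gt x g with h2 | h2
  · have h3 : bet P cs l x x ≤ bet P cs l g g :=
      (hP.law _).mono hx.le le_rfl h2 h2 le_rfl (by linarith)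
    have h4 := h.slo i hi l hl.le x g hx.le h2 le_rfl (by linarith)
    simp only at h4
    have h5 : tau P cs l i g g - tau P cs l i x x ≤ (g - x) / c := by
      rw [le_div_iff₀ hc]
      linarith
    have h6 : (g - x) / c ≤ y / c := div_le_div_of_nonneg_right (by linarith) hc.le
    linarith
  · have h3 : tau P cs l i g g ≤ tau P cs l i x x :=
      (hP.law _).mono (by linarith) le_rfl h2.le h2.le le_rfl (by linarith)
    have h4 := h.slo l (hl.trans hi) l le_rfl g x (by linarith) le_rfl h2.le (by linarith)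
    simp only at h4
    have h7 : tau P cs l l x x - tau P cs l l g g ≤ (x - g) / c := by
      rw [le_div_iff₀ hc]
      linarith
    have h8 : tau P cs l l x x = bet P cs l x x := rfl
    have h9 : tau P cs l l g g = bet P cs l g g := rfl
    rw [h8, h9] at h7
    have h6 : (x - g) / c ≤ r / c := div_le_div_of_nonneg_right (by linarith) hc.le
    linarith

/-- **The backward slopes** near the window of the row. -/
theorem ChI.back (h : ChI S P θ cs n₀ Pt W sg c g r) (hP : ThrOf (chsys m θ) S P)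
    (hPt : Law Pt) (hc : 0 < c) (hr : 0 < r) (hr1 : 8 * r ≤ c) {ε η : ℝ} (l : ℕ)
    (haf : ∃ V Sl : ℝ, c * Sl ≤ 1 ∧ ∀ w : ℝ, |w - g| ≤ 8 * r →
      |lvN P cs n₀ Pt l w w - V - Sl * (w - g)| ≤ ε * r) (hη : 0 ≤ η) {z κ : ℝ}
    (hz1 : g - η ≤ z) (hz2 : z ≤ g + r) (hκ : 0 ≤ κ) (hκz : 0 ≤ z - κ) (hηr : η ≤ r)
    (hε : 0 ≤ ε) :
    lvN P cs n₀ Pt l z z ≤ lvN P cs n₀ Pt l (z - κ) (z - κ) + κ / c + (2 * (ε * r) + η / c) := by
  have hg := h.g0
  have hg1 := h.g1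
  have hηc : 0 ≤ η / c := by positivity
  have hεr : 0 ≤ ε * r := by positivity
  rcases le_or_gt (g - 8 * r) (z - κ) with h1 | h1
  · obtain ⟨V, Sl, hSl, haf⟩ := haf
    have h2 := abs_le.1 (haf z (by rw [abs_le]; constructor <;> linarith))
    have h3 := abs_le.1 (haf (z - κ) (by rw [abs_le]; constructor <;> linarith))
    have h4 : Sl ≤ 1 / c := by
      rw [le_div_iff₀ hc]
      linarith
    have h5 : Sl * κ ≤ κ / c := by
      have := mul_le_mul_of_nonneg_right h4 hκ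
      rw [div_mul_eq_mul_div, one_mul] at this
      exact this
    have h6 : Sl * (z - g) - Sl * (z - κ - g) = Sl * κ := by ring
    linarith [h2.2, h3.1]
  · have h2 : lvN P cs n₀ Pt l z z ≤ lvN P cs n₀ Pt l (max z g) (max z g) :=
      lvN_mono hP hPt l (by linarith) (le_max_left _ _) (max_le (by linarith) (by linarith))
    have h3 := h.slp l (z - κ) (max z g) hκz (by linarith) (le_max_right _ _)
      (max_le (by linarith) (by linarith))
    simp only at h3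
    have h4 : lvN P cs n₀ Pt l (max z g) (max z g) - lvN P cs n₀ Pt l (z - κ) (z - κ) ≤
        (max z g - (z - κ)) / c := by
      rw [le_div_iff₀ hc]
      linarith
    have h5 : (max z g - (z - κ)) / c ≤ (κ + η) / c :=
      div_le_div_of_nonneg_right (by
        have : max z g ≤ z + η := max_le (by linarith) (by linarith)
        linarith) hc.le
    rw [add_div] at h5
    linarith

end num


/-- The positive part of the exponent of the target. -/
noncomputable def exN (P : List (Fin m) × Fin m → ℝ → ℝ → ℝ) (cs : ℕ → Fin m) (n₀ : ℕ)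
    (Pt : ℝ → ℝ → ℝ) (sg c w : ℝ) : ℝ :=
  sg + c / 4 - if 1 ≤ n₀ then max (bet P cs (n₀ - 1) w w) (Pt w w) else Pt w w

/-- **One window of the grid.** -/
theorem chn_win (m n₀ : ℕ) {c : ℝ} (hc : 0 < c) (hc1 : c ≤ 1) : ∃ (D : ℕ) (C : ℝ), 1 ≤ D ∧
    1 ≤ C ∧ ∀ {S : PCl m} {P : List (Fin m) × Fin m → ℝ → ℝ → ℝ} {θ : ℝ} {cs : ℕ → Fin m}
    {Pt : ℝ → ℝ → ℝ} {W : Set ℝ} {sg g r : ℝ}, S.Ne → ThrOf (chsys m θ) S P → TmH S →
    Set.InjOn cs (Set.Iio (n₀ + 1)) → Law Pt → ChI S P θ cs n₀ Pt W sg c g r → 0 < r → C * r ≤ 1 →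
    ∀ {ε σ : ℝ}, 0 ≤ ε → 0 < σ → C * (ε * r) < σ → σ ≤ r →
    (∀ l ≤ n₀, ∃ V Sl : ℝ, c * Sl ≤ 1 ∧ ∀ w : ℝ, |w - g| ≤ 8 * r →
      |lvN P cs n₀ Pt l w w - V - Sl * (w - g)| ≤ ε * r) →
    ∀ {z : ℝ}, g ≤ z → z ≤ g + r → ∀ M : ℕ, ∃ (E K₁ μ : ℝ) (b : ℕ → ℝ), 0 ≤ E ∧ 0 < K₁ ∧ 0 < μ ∧
      (∀ l ≤ n₀, lvN P cs n₀ Pt l z z - 2 * σ < b l ∧ b l < lvN P cs n₀ Pt l z z - μ) ∧
      (∀ l ≤ n₀, lvN P cs n₀ Pt l z z + E + c / 4 ≤ 1) ∧
      Bas S (fun J F A => ∀ (w' : ℕ) (a' : ℕ → ℕ) (gg : ℕ → ℕ → ℕ), z * J ≤ w' →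
        (w' : ℝ) ≤ (z + r) * J → (∀ i ≤ M, (w' : ℝ) + r / 4 * J ≤ a' i) →
        (∀ i ≤ M, (a' i : ℝ) - w' ≤ c / 8 * J) →
        (∀ i ≤ M, ∀ l ≤ n₀, (gg i l : ℝ) ≤ b l * J + (a' i - w') + μ * J) →
        (∀ i ≤ M, ∀ l ≤ n₀, b l * J + (a' i - w') ≤ gg i l + μ * J) →
        ∃ (B : F.Ω → Prop) (g₀ : ℕ → ℕ) (G₀ : PtT F → ℕ → MvPolynomial (Option (Fin m)) ℝ)
          (H₀ : LnT F → ℕ → MvPolynomial (Option (Fin m)) ℝ), Sub B A ∧
          Pe F.p A ≤ K₁ * Pe F.p B ∧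
          IsoB F cs (n₀ + 1) D M w' a' ⌊E * J⌋₊ gg
            (fun l => (lvN P cs n₀ Pt l z z - 2 * σ) * J) (fun l => lvN P cs n₀ Pt l z z * J) B
            g₀ G₀ H₀) := by
  obtain ⟨Λ, hΛ⟩ : ∃ Λ : ℝ, Λ = (Csl n₀ n₀ : ℕ) := ⟨_, rfl⟩
  have hΛ0 : 0 ≤ Λ := by rw [hΛ]; exact Nat.cast_nonneg _
  have hn0 : (0 : ℝ) ≤ n₀ := Nat.cast_nonneg n₀
  obtain ⟨vs, hvs⟩ : ∃ vs : ℝ, vs = c ^ 2 / (16 * ((Λ + 3) * (n₀ + 1))) := ⟨_, rfl⟩
  have hvs0 : 0 < vs := by rw [hvs]; positivity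
  have hvs1 : (Λ + 3) * (n₀ + 1) * vs = c ^ 2 / 16 := by
    rw [hvs]
    field_simp
  have hvs2 : (Λ + 3) * vs ≤ c ^ 2 / 16 := by
    rw [← hvs1]
    have h1 : 0 ≤ (Λ + 3) * vs * n₀ := by positivity
    nlinarith
  have hcc : c ^ 2 ≤ c := by nlinarith
  have hvs3 : vs ≤ c / 16 := by
    have h1 : 0 ≤ (Λ + 2) * vs := by positivity
    nlinarith
  obtain ⟨κs, hκs⟩ : ∃ κs : ℝ, κs = c * vs / 2 := ⟨_, rfl⟩
  have hκ0 : 0 < κs := by rw [hκs]; positivity
  have hκ1 : κs ≤ c / 4 := by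
    rw [hκs]
    nlinarith
  obtain ⟨S₀, hS₀⟩ : ∃ S₀ : ℕ, S₀ = ⌈1 / c⌉₊ + ⌈2 / κs⌉₊ + 1 := ⟨_, rfl⟩
  have hS1 : 1 / c ≤ S₀ := by
    rw [hS₀]
    push_cast
    have h1 := Nat.le_ceil (1 / c)
    have h2 : (0 : ℝ) ≤ ⌈2 / κs⌉₊ := Nat.cast_nonneg _
    linarith
  have hS2 : 2 ≤ S₀ * κs := by
    have h1 : 2 / κs ≤ S₀ := by
      rw [hS₀]
      push_cast
      have h1 := Nat.le_ceil (2 / κs)
      have h2 : (0 : ℝ) ≤ ⌈1 / c⌉₊ := Nat.cast_nonneg _
      linarith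
    rwa [div_le_iff₀ hκ0] at h1
  obtain ⟨D, C₀, hD, hC₀, hiso⟩ := iso_ptM m n₀ S₀ (by omega)
  obtain ⟨C, hC⟩ : ∃ C : ℝ, C = 4 * C₀ + 8 / c + 4 / (c * vs) := ⟨_, rfl⟩
  have hc8 : 0 < 8 / c := by positivity
  have hcv : 0 < 4 / (c * vs) := by positivity
  refine ⟨D, C, hD, by rw [hC]; linarith, ?_⟩
  intro S P θ cs Pt W sg g r hne hP hS hinj hPt hI hr hCr ε σ hε hσ hCε hσr haf z hz1 hz2 M
  have hg := hI.g0
  have hg1 := hI.g1
  have hsg := hI.sg1
  have hθ : 0 < θ := hc.trans_le hI.cθ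
  -- the scale is small
  have hr1 : 8 * r ≤ c := by
    have h1 : 8 / c * r ≤ 1 := by
      have h2 : (4 * C₀ + 4 / (c * vs)) * r ≥ 0 := by positivity
      rw [hC] at hCr
      nlinarith
    rw [div_mul_eq_mul_div, div_le_iff₀ hc] at h1
    linarith
  have hr2 : 4 * r ≤ c * vs := by
    have h1 : 4 / (c * vs) * r ≤ 1 := by
      have h2 : (4 * C₀ + 8 / c) * r ≥ 0 := by positivity
      rw [hC] at hCr
      nlinarith
    rw [div_mul_eq_mul_div, div_le_iff₀ (by positivity)] at h1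
    linarith
  have hεσ : C₀ * (2 * (ε * r)) ≤ σ / 2 := by
    have h1 : 4 * C₀ * (ε * r) ≤ C * (ε * r) := by
      refine mul_le_mul_of_nonneg_right ?_ (by positivity)
      rw [hC]
      linarith
    linarith
  obtain ⟨η, hη⟩ : ∃ η : ℝ, η = c * σ / (4 * C₀) := ⟨_, rfl⟩
  have hη0 : 0 < η := by rw [hη]; positivity
  have hηC : C₀ * (η / c) = σ / 4 := by
    rw [hη]
    field_simp
  have hηc : η / c ≤ σ / 4 := by
    have h1 : 0 ≤ η / c := by positivity
    nlinarith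
  have hηr : η ≤ r := by
    rw [div_le_iff₀ hc] at hηc
    nlinarith
  have hεr2 : 2 * (ε * r) ≤ σ / 2 := by
    have h1 : 0 ≤ 2 * (ε * r) := by positivity
    nlinarith
  obtain ⟨w, hw, hw1, hw2⟩ := hI.den (z - η) z (by linarith) (by linarith) (by linarith)
  have hw0 : c / 2 < w := by linarith
  have hwr : w ≤ g + r := by linarith
  have hw3 : w < 1 := by linarith
  obtain ⟨v, hv⟩ : ∃ v : ℝ, v = w - κs := ⟨_, rfl⟩
  have hv0 : 0 < v := by rw [hv]; linarith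
  obtain ⟨Q, hQ⟩ : ∃ Q : Set ℝ, Q = {κ : ℝ | w - κ ∈ W} := ⟨_, rfl⟩
  have hmem : ∀ κ, κ ∈ Q ↔ w - κ ∈ W := fun κ => by rw [hQ]; rfl
  -- the points
  have hpt : ∀ κ ∈ Q, 0 ≤ κ → κ ≤ w - v →
      PtN S P θ cs n₀ Pt (w - κ) (w - κ) vs ((Λ + 1) * vs) ((Λ + 1) * vs)
        (exN P cs n₀ Pt sg c (w - κ)) sg := by
    intro κ hκ h1 h2
    rw [hmem] at hκ
    have hx0 : c / 2 ≤ w - κ := by
      have : κ ≤ κs := by rw [hv] at h2; linarith
      linarith
    have hx00 : 0 < w - κ := by linarith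
    have hx1 : w - κ < 1 := by linarith
    have hxr : w - κ ≤ g + 8 * r := by linarith
    have hupx := hI.up _ hκ hx00 hx1
    have hE : c / 4 ≤ exN P cs n₀ Pt sg c (w - κ) := by
      unfold exN
      have h3 := hI.bdN _ hx00 hxr
      split_ifs with h4
      · have h5 := hI.bd (n₀ - 1) (by omega) _ hx00 hxr
        have h6 := max_le h5 h3
        linarith
      · linarith
    refine ⟨?_, hvs0.le, ?_, le_rfl, ?_, ?_, hI.tg _ hκ hx00 hxr, hI.low _ hx00 hx1.le,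
      lt_of_le_of_lt (hI.bdN _ hx00 hxr) (by linarith)⟩
    · refine Pts.of_up hne hP hθ hS (hinj.mono fun x hx => lt_trans hx (Nat.lt_succ_self n₀))
        hvs0.le (by positivity) (fun _ _ => hx00) (fun _ _ => le_rfl) (fun _ _ => hx1)
        (fun _ _ => ?_) (fun _ _ i hi l hl => (hupx i hi l hl).rc hx1)
        (fun _ _ i hi => hupx i hi i le_rfl) (fun _ _ i hi => ?_) (fun _ _ i hi l hl => ?_)
      · have h3 : c * (c / 2) ≤ θ * (w - κ) := mul_le_mul hI.cθ hx0 (by positivity) hθ.le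
        nlinarith
      · have h3 := hI.bd i hi _ hx00 hxr
        have h4 : θ * (w - κ) ≤ θ * 1 := mul_le_mul_of_nonneg_left hx1.le hθ.le
        have h5 := hI.sgθ
        linarith
      · refine hI.slow hP hc hr hr1 (y := κs + η) ?_ hx00 ?_ (by linarith) (by positivity) hi hl
        · rw [div_le_iff₀ hc, hκs]
          linarith
        · have : κ ≤ κs := by rw [hv] at h2; linarith
          linarith
    · rw [hΛ]
      nlinarith
    · refine lt_of_le_of_lt ?_ (lt_of_lt_of_le (show c / 16 < c / 4 by linarith) hE)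
      have h3 : 0 ≤ vs * (n₀ + 1) := by positivity
      nlinarith
    · unfold exN
      split_ifs with h4
      · rcases le_total (bet P cs (n₀ - 1) (w - κ) (w - κ)) (Pt (w - κ) (w - κ)) with h5 | h5
        · left
          rw [max_eq_right h5]
          linarith
        · right
          rw [max_eq_left h5]
          exact ⟨h4, by linarith⟩
      · left
        linarith
  obtain ⟨E₀, hE₀⟩ : ∃ E₀ : ℝ, E₀ = exN P cs n₀ Pt sg c w := ⟨_, rfl⟩
  have h0Q : (0 : ℝ) ∈ Q := by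
    rw [hmem, sub_zero]
    exact hw
  have hp0 := hpt 0 h0Q le_rfl (by rw [hv]; linarith)
  have hlE : ∀ l ≤ n₀, lvN P cs n₀ Pt l w w + E₀ ≤ sg + c / 4 + vs := by
    intro l hl
    rw [hE₀]
    unfold lvN exN
    by_cases h1 : l < n₀
    · rw [if_pos h1, if_pos (by omega)]
      have h2 := le_max_left (bet P cs (n₀ - 1) w w) (Pt w w)
      have h3 : bet P cs l w w ≤ bet P cs (n₀ - 1) w w + vs := by
        rcases Nat.lt_or_ge l (n₀ - 1) with h4 | h4
        · have h5 := hp0.pts.srt 0 one_pos (n₀ - 1) (by omega) l h4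
          simp only [sub_zero] at h5
          exact h5
        · have h5 : l = n₀ - 1 := by omega
          rw [h5]
          linarith
      linarith
    · rw [if_neg h1]
      have h2 : (Pt w w) ≤ if 1 ≤ n₀ then max (bet P cs (n₀ - 1) w w) (Pt w w) else Pt w w := by
        split_ifs
        · exact le_max_right _ _
        · exact le_rfl
      linarith
  have hE00 : 0 ≤ E₀ := by
    rw [hE₀]
    unfold exN
    have hw00 : 0 < w := by linarith
    have h3 := hI.bdN w hw00 (by linarith)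
    split_ifs with h4
    · have h5 := hI.bd (n₀ - 1) (by omega) w hw00 (by linarith)
      have h6 := max_le h5 h3
      linarith
    · linarith
  obtain ⟨K₁, μ, b, k1, k2, k3, k4⟩ := hiso (Sc := S) (P := P) (θ := θ) (c := cs) (Pt := Pt)
    (w := w) (v := v) (ε := 2 * (ε * r) + η / c) (vs := fun _ => vs)
    (e := fun _ => (Λ + 1) * vs) (e₀ := fun _ => (Λ + 1) * vs)
    (E := fun κ => exN P cs n₀ Pt sg c (w - κ)) (sg := fun _ => sg) (Q := Q) hP hθ hS hinj hPt hv0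
    (by rw [hv]; linarith) hw3 (by positivity) h0Q (fun x y h1 h2 h3 => by
      obtain ⟨u, hu, h4, h5⟩ := hI.den (w - y) (w - x) (by linarith) (by linarith) (by linarith)
      exact ⟨w - u, by rw [hmem, sub_sub_cancel]; exact hu, by linarith, by linarith⟩)
    (fun κ hκ h1 h2 => ⟨hpt κ hκ h1 h2, fun l hl => by
      have h3 := hI.back hP hPt hc hr hr1 (ε := ε) (η := η) l (haf l hl) hη0.le (z := w) (κ := κ)
        (by linarith) hwr h1 (by linarith) hηr hε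
      have h4 : κ / c ≤ S₀ * κ := by
        have := mul_le_mul_of_nonneg_right hS1 h1
        rw [div_mul_eq_mul_div, one_mul] at this
        exact this
      linarith⟩)
    (by rw [hv, sub_sub_cancel]; exact hS2) σ hσ (by
      rw [mul_add, hηC]
      linarith) (by linarith) (z + r) (r / 4) (by linarith) (by linarith) (by positivity) M
  simp only [sub_zero] at k4
  rw [← hE₀] at k4
  -- the levels at `z`
  have hLz : ∀ l ≤ n₀, lvN P cs n₀ Pt l z z ≤ lvN P cs n₀ Pt l w w + σ ∧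
      lvN P cs n₀ Pt l w w ≤ lvN P cs n₀ Pt l z z := by
    intro l hl
    constructor
    · have h3 := hI.back hP hPt hc hr hr1 (ε := ε) (η := 0) l (haf l hl) le_rfl (z := z)
        (κ := z - w) (by linarith) hz2 (by linarith) (by rw [sub_sub_cancel]; linarith) hr.le hε
      rw [sub_sub_cancel, zero_div, add_zero] at h3
      have h4 : (z - w) / c ≤ η / c := div_le_div_of_nonneg_right (by linarith) hc.le
      linarith
    · exact lvN_mono hP hPt l (by linarith) hw2.le (by linarith)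
  refine ⟨E₀ + σ, K₁, μ, b, by linarith, k1, k2, fun l hl => ?_, fun l hl => ?_, k4.mono 0 ?_⟩
  · have h1 := k3 l hl
    have h2 := hLz l hl
    constructor <;> linarith
  · have h1 := hlE l hl
    have h2 := (hLz l hl).1
    linarith
  · rintro J - F A hA w' a' gg h1 h2 h3 h4 h5 h6
    have hJ0 : (0 : ℝ) ≤ J := Nat.cast_nonneg J
    obtain ⟨B, g₀, G₀, H₀, l1, l2, l3, l4, l5, l6⟩ := hA w' a' gg (by
      refine Nat.floor_le_of_le (le_trans ?_ h1)
      exact mul_le_mul_of_nonneg_right hw2.le hJ0) h2 h3 h5 h6 (fun i hi l hl => by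
      have h7 := hlE l hl
      have h8 := h4 i hi
      have h9 : (lvN P cs n₀ Pt l w w + E₀ + σ) * (J : ℝ) ≤ (1 - c / 8) * J :=
        mul_le_mul_of_nonneg_right (by linarith) hJ0
      linarith)
    refine ⟨B, g₀, G₀, H₀, l1, l2, ⟨fun l hl => ?_, l4, l5, fun ω hω l hl => l6 ω hω l (by omega)⟩⟩
    have h7 := l3 l (by omega)
    have h8 := hLz l (by omega)
    constructor
    · refine le_trans ?_ h7.1
      exact mul_le_mul_of_nonneg_right (by linarith) hJ0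
    · exact h7.2.trans (mul_le_mul_of_nonneg_right h8.2 hJ0)

end Pool.ISO
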