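import Pool.Agent.H2.GEN.IsoN

/-!
# Re-centred ball charts for several radii on one event

`rec_labs`, `iso_labs`, `iso_cores`, `iso_ptM`: one ball chart, re-centred at several radii, on one
event.
-/

set_option autoImplicit false

namespace Pool.ISO

open Finset Real MvPolynomial
open Pool.Agent.H49.Ent Pool.Agent.H32.Dense Pool.STK Pool.KA Pool.KSAT Pool.K2S Pool.PB Pool.S6C
open Pool.GEN Pool.CHT Pool.CHX
open Pool.LBT (LSys Slo Tri ThrOf fl_le' bas_false)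
open Pool.LEV (Law)
open Pool.FLF (Fam.sub)
open Pool.JTN (TgP)

variable {m J : ℕ}

/-- **The re-centred chains** of one ball, for several radii and prescribed sides, on one event. -/
theorem rec_labs (m n D : ℕ) (hD : 1 ≤ D) : ∃ (C₁ : ℝ) (C₀ : ℕ), 1 ≤ C₁ ∧
    ∀ (M J : ℕ) (F : Fam m J) (c : ℕ → Fin m) (a w e e' u : ℕ) (v g : ℕ → ℕ) (gg : ℕ → ℕ → ℕ)
      (A : F.Ω → Prop) (G : PtT F → ℕ → MvPolynomial (Option (Fin m)) ℝ)
      (H : LnT F → ℕ → MvPolynomial (Option (Fin m)) ℝ) (θ : ℝ), 0 < Pe F.p A →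
      Set.InjOn c (Set.Iio n) → w ≤ a → w ≤ J →
      (∀ i ≤ M, (∀ l < n, e + g l + v i + C₀ ≤ J) ∧ n * u + 1 ≤ v i ∧
        (∀ l < n, gg i l + (l + 1) * u ≤ g l + v i) ∧
        (∀ l < n, 0 < l → gg i l + C₀ * (1 + ∑ j ∈ range l, (g j + v i - gg i j)) +
          (l + 1) * u ≤ g l + v i) ∧
        e + C₀ * (1 + ∑ j ∈ range n, (g j + v i - gg i j)) ≤ e') → 0 ≤ θ →
      (∀ (B : F.Ω → Prop), Sub B A → Pe F.p A ≤ 2 ^ M * Pe F.p B → ∀ hB : 0 < Pe F.p B,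
        (Fam.sub F B hB).Tm θ) → C₁ * (θ + 1) ≤ ((J : ℝ) - w) * Real.log 2 →
      Real.exp (C₁ * (θ + 1)) ≤ 2 ^ u → ChOK F c n (fun _ => D) a w e g A G H →
      ∃ B : F.Ω → Prop, Sub B A ∧ Pe F.p A ≤ 2 ^ (M + 1) * Pe F.p B ∧
        (∀ i ≤ M, ChOK F c n (fun _ => D) (a + v i) w e' (gg i) B
          (fun y l => Gno (c l) J J (fun y => G y l) y)
          (fun s l => Hno (c l) (fun s => H s l) s)) ∧
        ∀ ω, B ω → ∀ l < n, ∀ b : Option (Fin m) → ℝ,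
          |eval b (Gno (c l) J J (fun y => G y l) (ptr F J ω)) - eval b (G (ptr F J ω) l)| ≤
            2 / 2 ^ g l := by
  obtain ⟨C₁, C₀, hC₁, hrec⟩ := rec_lab m n D hD
  refine ⟨C₁, C₀, hC₁, ?_⟩
  intro M J F c a w e e' u v g gg A G H θ hA hc hwa hwJ hnum hθ hTm hN hu hL
  -- by induction
  have key : ∀ k ≤ M, ∃ B : F.Ω → Prop, Sub B A ∧ Pe F.p A ≤ 2 ^ (k + 1) * Pe F.p B ∧
      (∀ i ≤ k, ChOK F c n (fun _ => D) (a + v i) w e' (gg i) B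
        (fun y l => Gno (c l) J J (fun y => G y l) y)
        (fun s l => Hno (c l) (fun s => H s l) s)) ∧
      ∀ ω, B ω → ∀ l < n, ∀ b : Option (Fin m) → ℝ,
        |eval b (Gno (c l) J J (fun y => G y l) (ptr F J ω)) - eval b (G (ptr F J ω) l)| ≤
          2 / 2 ^ g l := by
    have step : ∀ k ≤ M, ∀ B : F.Ω → Prop, Sub B A → Pe F.p A ≤ 2 ^ k * Pe F.p B →
        ∃ B' : F.Ω → Prop, Sub B' B ∧ Pe F.p A ≤ 2 ^ (k + 1) * Pe F.p B' ∧
          ChOK F c n (fun _ => D) (a + v k) w e' (gg k) B'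
            (fun y l => Gno (c l) J J (fun y => G y l) y)
            (fun s l => Hno (c l) (fun s => H s l) s) ∧
          ∀ ω, B' ω → ∀ l < n, ∀ b : Option (Fin m) → ℝ,
            |eval b (Gno (c l) J J (fun y => G y l) (ptr F J ω)) - eval b (G (ptr F J ω) l)| ≤
              2 / 2 ^ g l := by
      intro k hk B hB hP
      have hB0 : 0 < Pe F.p B := by
        by_contra h
        push Not at h
        have h1 : (2 : ℝ) ^ k * Pe F.p B ≤ 0 := mul_nonpos_of_nonneg_of_nonpos (by positivity) h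
        linarith
      obtain ⟨n1, n2, n3, n4, n5⟩ := hnum k hk
      obtain ⟨B', k1, k2, k3, k4⟩ := hrec J F c a w e e' (v k) u g (gg k) B G H θ hB0 hc hwa hwJ n1
        n2 hθ (hTm B hB (hP.trans (mul_le_mul_of_nonneg_right
          (pow_le_pow_right₀ (by norm_num) hk) hB0.le)) hB0) hN hu (hL.sub hB) n3 n4 n5
      refine ⟨B', k1, ?_, k3, fun ω hω => k4 ω (k1 ω hω)⟩
      have h2 : (2 : ℝ) ^ k * Pe F.p B ≤ 2 ^ k * (2 * Pe F.p B') :=
        mul_le_mul_of_nonneg_left (by linarith) (by positivity)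
      calc Pe F.p A ≤ 2 ^ k * Pe F.p B := hP
        _ ≤ 2 ^ k * (2 * Pe F.p B') := h2
        _ = 2 ^ (k + 1) * Pe F.p B' := by ring
    intro k
    induction k with
    | zero =>
      intro h0
      obtain ⟨B', k1, k2, k3, k4⟩ := step 0 h0 A (fun _ h => h) (by rw [pow_zero, one_mul])
      refine ⟨B', k1, k2, fun i hi => ?_, k4⟩
      rw [Nat.le_zero.1 hi]
      exact k3
    | succ k ih =>
      intro hk
      obtain ⟨B, j1, j2, j3, j4⟩ := ih (by omega)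
      obtain ⟨B', k1, k2, k3, k4⟩ := step (k + 1) hk B j1 j2
      refine ⟨B', fun ω h => j1 ω (k1 ω h), k2, fun i hi => ?_, k4⟩
      rcases Nat.lt_or_ge i (k + 1) with h1 | h1
      · exact (j3 i (by omega)).sub k1
      · have h2 : i = k + 1 := by omega
        rw [h2]
        exact k3
  exact key M le_rfl

/-- **Re-centred balls of a class**: one ball for several radii, at all windows near the given
window, with prescribed sides. `β l`: the precisions of the ball; `x l`: the losses, increasing. -/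
theorem iso_labs (m n D : ℕ) (hD : 1 ≤ D) : ∃ C : ℝ, 1 ≤ C ∧ ∀ {Sc : PCl m} {c : ℕ → Fin m}
    {w w₁ e σ q₀ K₁ : ℝ} {β x : ℕ → ℝ} (M : ℕ), TmH Sc → Set.InjOn c (Set.Iio n) → 0 < w →
    w < w₁ → w₁ < 1 → 0 ≤ e → 0 < σ → 0 < q₀ → 0 < K₁ → (∀ l < n, 0 ≤ β l) → C * σ ≤ x 0 →
    (∀ l, l + 1 < n → C * x l ≤ x (l + 1)) →
    Bas Sc (fun J F A => ∃ B : F.Ω → Prop, Sub B A ∧ Pe F.p A ≤ K₁ * Pe F.p B ∧
      Chn c n (fun _ => D) w w e β J F B) →
    Bas Sc (fun J F A => ∀ (w' : ℕ) (a' : ℕ → ℕ) (gg : ℕ → ℕ → ℕ), ⌊w * J⌋₊ ≤ w' →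
      (w' : ℝ) ≤ w₁ * J → (∀ i ≤ M, (w' : ℝ) + q₀ * J ≤ a' i) →
      (∀ i ≤ M, ∀ l < n, (gg i l : ℝ) ≤ (β l - x l) * J + (a' i - w') + σ * J) →
      (∀ i ≤ M, ∀ l < n, (β l - x l) * J + (a' i - w') ≤ gg i l + σ * J) →
      (∀ i ≤ M, ∀ l < n, (e + β l + σ) * J + (a' i - w') ≤ J) →
      ∃ (B : F.Ω → Prop) (G₀ : PtT F → ℕ → MvPolynomial (Option (Fin m)) ℝ)
        (H₀ : LnT F → ℕ → MvPolynomial (Option (Fin m)) ℝ), Sub B A ∧
        Pe F.p A ≤ 2 ^ (M + 1) * K₁ * Pe F.p B ∧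
        ChOK F c n (fun _ => D) w' w' ⌊e * J⌋₊ (fun l => ⌊β l * J⌋₊) B G₀ H₀ ∧
        (∀ i ≤ M, ChOK F c n (fun _ => D) (a' i) w' ⌊(e + C * x (n - 1)) * J⌋₊ (gg i) B
          (fun y l => Gno (c l) J J (fun y => G₀ y l) y)
          (fun s l => Hno (c l) (fun s => H₀ s l) s)) ∧
        ∀ ω, B ω → ∀ l < n, ∀ b : Option (Fin m) → ℝ,
          |eval b (Gno (c l) J J (fun y => G₀ y l) (ptr F J ω)) - eval b (G₀ (ptr F J ω) l)| ≤
            2 / 2 ^ ⌊β l * J⌋₊) := by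
  obtain ⟨C₁, C₀, hC₁, hrec⟩ := rec_labs m n D hD
  obtain ⟨C, hC⟩ : ∃ C : ℝ, C = 4 + C₀ * (2 * n + 1) := ⟨_, rfl⟩
  have hC₀ : (0 : ℝ) ≤ C₀ := Nat.cast_nonneg _
  have hn0 : (0 : ℝ) ≤ n := Nat.cast_nonneg _
  have hC4 : 4 ≤ C := by
    rw [hC]
    have : 0 ≤ (C₀ : ℝ) * (2 * n + 1) := by positivity
    linarith
  refine ⟨C, by linarith, ?_⟩
  intro Sc c w w₁ e σ q₀ K₁ β x M hS hinj hw hww₁ hw₁ he hσ hq₀ hK₁ hβ hx0 hxs hball
  have hlog : 0 < Real.log 2 := Real.log_pos (by norm_num)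
  have hx00 : 4 * σ ≤ x 0 := (mul_le_mul_of_nonneg_right hC4 hσ.le).trans hx0
  -- the losses
  have hxm : ∀ l < n, 4 * σ ≤ x l ∧ ∀ j ≤ l, x j ≤ x l := by
    intro l
    induction l with
    | zero =>
      intro _
      exact ⟨hx00, fun j hj => by rw [Nat.le_zero.1 hj]⟩
    | succ l ih =>
      intro hl
      obtain ⟨h1, h2⟩ := ih (by omega)
      have h3 := hxs l hl
      have h4 : x l ≤ x (l + 1) := by nlinarith
      refine ⟨h1.trans h4, fun j hj => ?_⟩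
      rcases Nat.lt_or_ge j (l + 1) with h5 | h5
      · exact (h2 j (by omega)).trans h4
      · rw [show j = l + 1 by omega]
  have hxn : 4 * σ ≤ x (n - 1) ∧ ∀ j < n, x j ≤ x (n - 1) := by
    rcases Nat.eq_zero_or_pos n with h0 | h0
    · subst h0
      exact ⟨hx00, fun j hj => absurd hj (Nat.not_lt_zero j)⟩
    · obtain ⟨h1, h2⟩ := hxm (n - 1) (by omega)
      exact ⟨h1, fun j hj => h2 j (by omega)⟩
  obtain ⟨s, hs⟩ : ∃ s : ℝ, s = min (min σ q₀) ((1 - w₁) * Real.log 2) := ⟨_, rfl⟩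
  have hs0 : 0 < s := by
    rw [hs]
    exact lt_min (lt_min hσ hq₀) (mul_pos (by linarith) hlog)
  have hs1 : s ≤ σ := by rw [hs]; exact (min_le_left _ _).trans (min_le_left _ _)
  have hs2 : s ≤ q₀ := by rw [hs]; exact (min_le_left _ _).trans (min_le_right _ _)
  have hs3 : s ≤ (1 - w₁) * Real.log 2 := by rw [hs]; exact min_le_right _ _
  obtain ⟨ε, J₁, hε, hdig⟩ := dig n hC₁ hs0
  obtain ⟨J₂, hJ₂⟩ := big (C₀ + 1 : ℝ) hσ
  have htm := bas_ev (hS.2 ε hε) (κ := 1 / (2 ^ M * K₁)) (by positivity)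
  have hpos : Bas Sc (fun _ F A => 0 < Pe F.p A) := ⟨1, one_pos, 0, fun J _ F A hA =>
    hS.1 1 J F A hA⟩
  refine Bas.mono (max J₁ J₂) ((hball.and htm).and hpos) ?_
  rintro J hJ F A ⟨⟨⟨B, hBA, hBP, hL⟩, ht⟩, hA⟩ w' a' gg hw' hw₁' ha' hg1 hg2 hv
  have hJ0 : (0 : ℝ) ≤ J := Nat.cast_nonneg J
  obtain ⟨u, hu1, hu2, hu3⟩ := hdig J ((le_max_left _ _).trans hJ)
  have hJ2 := hJ₂ J ((le_max_right _ _).trans hJ)
  have hB0 : 0 < Pe F.p B := by
    rcases (Pe_nonneg F.isLaw B).lt_or_eq with h | h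
    · exact h
    · rw [← h, mul_zero] at hBP
      linarith
  have hw'J : w' ≤ J := by
    have h1 : (w' : ℝ) ≤ J := by nlinarith
    exact_mod_cast h1
  have hwa : ∀ i ≤ M, w' ≤ a' i := fun i hi => by
    have h1 := ha' i hi
    have h2 : 0 ≤ q₀ * (J : ℝ) := by positivity
    have h3 : (w' : ℝ) ≤ a' i := by linarith
    exact_mod_cast h3
  obtain ⟨v, hv'⟩ : ∃ v : ℕ → ℕ, v = fun i => a' i - w' := ⟨_, rfl⟩
  have hav : ∀ i ≤ M, w' + v i = a' i := fun i hi => by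
    rw [hv']
    have := hwa i hi
    show w' + (a' i - w') = a' i
    omega
  have hvr : ∀ i ≤ M, (v i : ℝ) = a' i - w' := fun i hi => by
    rw [← hav i hi]
    push_cast
    ring
  have hu0 : (0 : ℝ) ≤ u := Nat.cast_nonneg u
  have hun : ((n : ℝ) + 1) * u + 1 ≤ s * J := by
    push_cast at hu3
    exact hu3
  have hsJ : s * J ≤ σ * J := mul_le_mul_of_nonneg_right hs1 hJ0
  have hC₀J : (C₀ : ℝ) + 1 ≤ σ * J := hJ2
  obtain ⟨G, H, hch⟩ := hL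
  have hfl : ∀ l < n, (⌊β l * J⌋₊ : ℝ) ≤ β l * J := fun l hl =>
    Nat.floor_le (mul_nonneg (hβ l hl) hJ0)
  have hfl' : ∀ l, β l * J ≤ (⌊β l * J⌋₊ : ℝ) + 1 := fun l => (Nat.lt_floor_add_one _).le
  have heJ : (⌊e * J⌋₊ : ℝ) ≤ e * J := Nat.floor_le (by positivity)
  have hlu : ∀ l < n, ((l : ℝ) + 1) * u ≤ (n + 1) * u := fun l hl => by
    refine mul_le_mul_of_nonneg_right ?_ hu0
    have : (l : ℝ) ≤ n := by exact_mod_cast hl.le
    linarith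
  -- the sides
  have hsub : ∀ i ≤ M, ∀ j < n, ((⌊β j * J⌋₊ + v i - gg i j : ℕ) : ℝ) ≤ (x j + σ) * J := by
    intro i hi j hj
    have h1 := hg2 i hi j hj
    have h2 := hfl j hj
    have h3 : 0 ≤ (x j + σ) * J := mul_nonneg (by linarith [(hxm j hj).1]) hJ0
    rcases Nat.lt_or_ge (gg i j) (⌊β j * J⌋₊ + v i) with h4 | h4
    · rw [Nat.cast_sub h4.le]
      push_cast
      rw [hvr i hi]
      have e1 : (x j + σ) * J = β j * J - (β j - x j) * J + σ * J := by ring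
      linarith
    · rw [Nat.sub_eq_zero_of_le h4]
      simpa using h3
  have hsum : ∀ i ≤ M, ∀ l ≤ n, ∀ X : ℝ, (∀ j < l, x j ≤ X) → 4 * σ ≤ X →
      ((∑ j ∈ range l, (⌊β j * J⌋₊ + v i - gg i j) : ℕ) : ℝ) ≤ 2 * n * (X * J) := by
    intro i hi l hl X hX hX4
    push_cast
    have hX0 : 0 ≤ X * J := mul_nonneg (by linarith) hJ0
    have h1 : ∀ j ∈ range l, ((⌊β j * J⌋₊ + v i - gg i j : ℕ) : ℝ) ≤ 2 * (X * J) := by
      intro j hj
      have hj' := mem_range.1 hj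
      refine (hsub i hi j (by omega)).trans ?_
      have h2 := hX j hj'
      have h3 : (x j + σ) * J ≤ (2 * X) * J := mul_le_mul_of_nonneg_right (by linarith) hJ0
      linarith
    refine (Finset.sum_le_sum h1).trans ?_
    rw [Finset.sum_const, card_range, nsmul_eq_mul]
    have h4 : (l : ℝ) ≤ n := by exact_mod_cast hl
    have h5 := mul_le_mul_of_nonneg_right h4 (show 0 ≤ 2 * (X * J) by positivity)
    linarith
  have hlow : ∀ i ≤ M, ∀ l < n, (gg i l : ℝ) + 3 * σ * J + (l + 1) * u + 1 ≤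
      ⌊β l * J⌋₊ + v i + 1 + (5 * σ - x l) * J := by
    intro i hi l hl
    have h1 := hg1 i hi l hl
    have h2 := hfl' l
    have h3 := hlu l hl
    rw [hvr i hi]
    have e1 : (β l - x l) * (J : ℝ) = β l * J - x l * J := by ring
    have e2 : (5 * σ - x l) * (J : ℝ) = 5 * (σ * J) - x l * J := by ring
    have e3 : 3 * σ * (J : ℝ) = 3 * (σ * J) := by ring
    linarith
  obtain ⟨B', k1, k2, k3, k4⟩ := hrec M J F c w' w' ⌊e * J⌋₊ ⌊(e + C * x (n - 1)) * J⌋₊ u v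
    (fun l => ⌊β l * J⌋₊) gg B G (cwn ⌊w * J⌋₊ w' H) (ε * J) hB0 hinj le_rfl hw'J
    (fun i hi => ⟨fun l hl => by
      have h1 := hv i hi l hl
      have h2 := hfl l hl
      have h3 : ((⌊e * J⌋₊ + ⌊β l * J⌋₊ + v i + C₀ : ℕ) : ℝ) ≤ (J : ℝ) := by
        push_cast
        rw [hvr i hi]
        linarith
      exact_mod_cast h3, by
      have h1 : (q₀ : ℝ) * J ≤ v i := by
        rw [hvr i hi]
        linarith [ha' i hi]
      have h2 : s * J ≤ q₀ * J := mul_le_mul_of_nonneg_right hs2 hJ0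
      have h3 : ((n * u + 1 : ℕ) : ℝ) ≤ (v i : ℝ) := by
        push_cast
        linarith
      exact_mod_cast h3, fun l hl => by
      have h1 := hlow i hi l hl
      have h2 := (hxm l hl).1
      have h3 : (5 * σ - x l) * (J : ℝ) ≤ σ * J := mul_le_mul_of_nonneg_right (by linarith) hJ0
      have h4 : ((gg i l + (l + 1) * u : ℕ) : ℝ) ≤ ((⌊β l * J⌋₊ + v i : ℕ) : ℝ) := by
        push_cast
        have e3 : 3 * σ * (J : ℝ) = 3 * (σ * J) := by ring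
        linarith
      exact_mod_cast h4, fun l hl hl0 => by
      have h1 := hlow i hi l hl
      obtain ⟨h5, h6⟩ := hxm (l - 1) (by omega)
      have h7 := hxs (l - 1) (by omega)
      rw [show l - 1 + 1 = l by omega] at h7
      have h8 := hsum i hi l hl.le (x (l - 1)) (fun j hj => h6 j (by omega)) h5
      obtain ⟨Sg, hSg⟩ : ∃ Sg : ℕ, Sg = ∑ j ∈ range l, (⌊β j * J⌋₊ + v i - gg i j) := ⟨_, rfl⟩
      have h9 : ((gg i l + C₀ * (1 + Sg) + (l + 1) * u : ℕ) : ℝ) ≤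
          ((⌊β l * J⌋₊ + v i : ℕ) : ℝ) := by
        push_cast
        rw [← hSg] at h8
        have e3 : 3 * σ * (J : ℝ) = 3 * (σ * J) := by ring
        have h10 : (C₀ : ℝ) * (1 + Sg) ≤ C₀ * ((2 * n + 1) * (x (l - 1) * J)) := by
          refine mul_le_mul_of_nonneg_left ?_ hC₀
          have h11 : 4 * σ * J ≤ x (l - 1) * J := mul_le_mul_of_nonneg_right h5 hJ0
          linarith
        have h12 : x l * J ≥ C * x (l - 1) * J := mul_le_mul_of_nonneg_right h7 hJ0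
        have h13 : C * x (l - 1) * J = 4 * (x (l - 1) * J) +
            C₀ * ((2 * n + 1) * (x (l - 1) * J)) := by
          rw [hC]
          ring
        have h14 : 4 * σ * J ≤ x (l - 1) * J := mul_le_mul_of_nonneg_right h5 hJ0
        have e4 : (5 * σ - x l) * (J : ℝ) = 5 * (σ * J) - x l * J := by ring
        linarith
      rw [hSg] at h9
      exact_mod_cast h9, by
      refine Nat.le_floor ?_
      have h8 := hsum i hi n le_rfl (x (n - 1)) hxn.2 hxn.1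
      obtain ⟨Sg, hSg⟩ : ∃ Sg : ℕ, Sg = ∑ j ∈ range n, (⌊β j * J⌋₊ + v i - gg i j) := ⟨_, rfl⟩
      rw [← hSg] at h8 ⊢
      push_cast
      have h14 : 4 * σ * J ≤ x (n - 1) * J := mul_le_mul_of_nonneg_right hxn.1 hJ0
      have h10 : (C₀ : ℝ) * (1 + Sg) ≤ C₀ * ((2 * n + 1) * (x (n - 1) * J)) := by
        refine mul_le_mul_of_nonneg_left ?_ hC₀
        linarith
      have h13 : (e + C * x (n - 1)) * J = e * J + 4 * (x (n - 1) * J) +
          C₀ * ((2 * n + 1) * (x (n - 1) * J)) := by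
        rw [hC]
        ring
      have h15 : 0 ≤ σ * (J : ℝ) := by positivity
      linarith⟩) (by positivity)
    (fun B'' hB'' hP'' hB''0 => ht B'' (fun ω h => hBA ω (hB'' ω h)) (by
      rw [one_div, inv_mul_le_iff₀ (by positivity)]
      calc Pe F.p A ≤ K₁ * Pe F.p B := hBP
        _ ≤ K₁ * (2 ^ M * Pe F.p B'') := mul_le_mul_of_nonneg_left hP'' hK₁.le
        _ = _ := by ring) hB''0) (by
      have h1 : s * J ≤ (1 - w₁) * Real.log 2 * J := mul_le_mul_of_nonneg_right hs3 hJ0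
      have h2 := mul_le_mul_of_nonneg_right hw₁' hlog.le
      linarith) hu1
    (chOK_win (hch.mono le_rfl (fun _ => le_rfl) hw' le_rfl) hw' hw'J)
  refine ⟨B', G, cwn ⌊w * J⌋₊ w' H, fun ω h => hBA ω (k1 ω h), ?_,
    (chOK_win (hch.mono le_rfl (fun _ => le_rfl) hw' le_rfl) hw' hw'J).sub k1, fun i hi => ?_,
    fun ω hω => k4 ω hω⟩
  · calc Pe F.p A ≤ K₁ * Pe F.p B := hBP
      _ ≤ K₁ * (2 ^ (M + 1) * Pe F.p B') := mul_le_mul_of_nonneg_left k2 hK₁.le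
      _ = _ := by ring
  · have h1 := k3 i hi
    rw [hav i hi] at h1
    exact h1

/-- **Re-centred ball charts of universal degree** at a window `w`, from charts of the ball with
the precisions `β l`, the exponent `E` of the gradients and small losses, several radii. `σ`: the
loss. -/
theorem iso_cores (m n D : ℕ) (hn : 1 ≤ n) (hD1 : 1 ≤ D) (C₁ : ℝ) (hC₁ : 1 ≤ C₁) :
    ∃ C : ℝ, 1 ≤ C ∧ ∀ {Sc : PCl m} {c : ℕ → Fin m} {w E ε : ℝ} {β : ℕ → ℝ}, TmH Sc →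
    Set.InjOn c (Set.Iio n) → 0 < w → w < 1 → 0 ≤ ε → 0 ≤ E → (∀ l < n, w ≤ β l) →
    (∀ de : ℕ → ℝ, 0 < de 0 → C₁ * ε < de 0 → (∀ l, l + 1 < n → C₁ * de l < de (l + 1)) →
      (∀ l < n, de l < w) → ∃ K₁ : ℝ, 0 < K₁ ∧ Bas Sc (fun J F A => ∃ B : F.Ω → Prop, Sub B A ∧
        Pe F.p A ≤ K₁ * Pe F.p B ∧
        Chn c n (fun _ => D) w w (E + C₁ * de (n - 1)) (fun l => β l - de l) J F B)) →
    ∀ σ : ℝ, 0 < σ → C * ε < σ → σ < w → ∀ w₁ q₀ : ℝ, w < w₁ → w₁ < 1 →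
    0 < q₀ → ∀ M : ℕ, ∃ (K₁ μ : ℝ) (b : ℕ → ℝ), 0 < K₁ ∧ 0 < μ ∧
      (∀ l < n, β l - σ < b l ∧ b l < β l - μ) ∧
      Bas Sc (fun J F A => ∀ (w' : ℕ) (a' : ℕ → ℕ) (gg : ℕ → ℕ → ℕ), ⌊w * J⌋₊ ≤ w' →
        (w' : ℝ) ≤ w₁ * J → (∀ i ≤ M, (w' : ℝ) + q₀ * J ≤ a' i) →
        (∀ i ≤ M, ∀ l < n, (gg i l : ℝ) ≤ b l * J + (a' i - w') + μ * J) →
        (∀ i ≤ M, ∀ l < n, b l * J + (a' i - w') ≤ gg i l + μ * J) →
        (∀ i ≤ M, ∀ l < n, (β l + E + σ) * J + (a' i - w') ≤ J) →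
        ∃ (B : F.Ω → Prop) (g₀ : ℕ → ℕ) (G₀ : PtT F → ℕ → MvPolynomial (Option (Fin m)) ℝ)
          (H₀ : LnT F → ℕ → MvPolynomial (Option (Fin m)) ℝ), Sub B A ∧
          Pe F.p A ≤ K₁ * Pe F.p B ∧
          (∀ l < n, (β l - σ) * J ≤ g₀ l ∧ (g₀ l : ℝ) ≤ β l * J) ∧
          ChOK F c n (fun _ => D) w' w' ⌊(E + σ) * J⌋₊ g₀ B G₀ H₀ ∧
          (∀ i ≤ M, ChOK F c n (fun _ => D) (a' i) w' ⌊(E + σ) * J⌋₊ (gg i) B
            (fun y l => Gno (c l) J J (fun y => G₀ y l) y)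
            (fun s l => Hno (c l) (fun s => H₀ s l) s)) ∧
          ∀ ω, B ω → ∀ l < n, ∀ b : Option (Fin m) → ℝ,
            |eval b (Gno (c l) J J (fun y => G₀ y l) (ptr F J ω)) - eval b (G₀ (ptr F J ω) l)| ≤
              2 / 2 ^ g₀ l) := by
  obtain ⟨C₂, hC₂, hiso⟩ := iso_labs m n D hD1
  -- the constants
  obtain ⟨U, hU⟩ : ∃ U : ℝ, U = (C₁ + 1) ^ n := ⟨_, rfl⟩
  obtain ⟨V, hV⟩ : ∃ V : ℝ, V = C₂ ^ (n + 1) := ⟨_, rfl⟩
  have hU1 : 1 ≤ U := by rw [hU]; exact one_le_pow₀ (by linarith)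
  have hV1 : 1 ≤ V := by rw [hV]; exact one_le_pow₀ hC₂
  obtain ⟨W, hW⟩ : ∃ W : ℝ, W = 8 * C₁ * U * V * C₂ := ⟨_, rfl⟩
  have hC₁0 : 0 < C₁ := by linarith
  have hC₂0 : 0 < C₂ := by linarith
  have hU0 : 0 < U := by linarith
  have hV0 : 0 < V := by linarith
  have hW8 : 8 ≤ W := by
    rw [hW]
    have h1 : 1 ≤ C₁ * U := by nlinarith
    have h2 : 1 ≤ C₁ * U * V := by nlinarith
    have h3 : 1 ≤ C₁ * U * V * C₂ := by nlinarith
    nlinarith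
  refine ⟨(W + 2) * C₁, by nlinarith, ?_⟩
  intro Sc c w E ε β hSc hinj hw0 hw1 hε hE hβ hlab σ hσ hσε hσw w₁ q₀ hww₁ hw₁ hq₀ M
  -- the losses
  obtain ⟨d, hd⟩ : ∃ d : ℝ, d = σ / (W + 1) := ⟨_, rfl⟩
  have hd0 : 0 < d := by rw [hd]; exact div_pos hσ (by linarith)
  have hdW : (W + 1) * d = σ := by
    rw [hd]
    field_simp
  have hdε : C₁ * ε < d := by
    rw [hd, lt_div_iff₀ (by linarith)]
    have h1 : C₁ * ε * (W + 1) ≤ (W + 2) * C₁ * ε := by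
      have h2 : 0 ≤ C₁ * ε := by positivity
      nlinarith
    linarith
  obtain ⟨de, hde⟩ : ∃ de : ℕ → ℝ, de = fun l => (C₁ + 1) ^ l * d := ⟨_, rfl⟩
  obtain ⟨μ, hμ⟩ : ∃ μ : ℝ, μ = d / V := ⟨_, rfl⟩
  have hμ0 : 0 < μ := by rw [hμ]; positivity
  have hμV : V * μ = d := by
    rw [hμ]
    field_simp
  have hμd : μ ≤ d := by nlinarith
  obtain ⟨x, hx⟩ : ∃ x : ℕ → ℝ, x = fun l => C₂ ^ (l + 1) * μ := ⟨_, rfl⟩
  have hde0 : de 0 = d := by rw [hde]; simp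
  have hdes : ∀ l, C₁ * de l < de (l + 1) := by
    intro l
    rw [hde]
    show C₁ * ((C₁ + 1) ^ l * d) < (C₁ + 1) ^ (l + 1) * d
    rw [pow_succ]
    have : 0 < (C₁ + 1) ^ l * d := by positivity
    nlinarith
  have hden : ∀ l < n, d ≤ de l ∧ de l ≤ U * d := by
    intro l hl
    rw [hde, hU]
    constructor
    · exact le_mul_of_one_le_left hd0.le (one_le_pow₀ (by linarith))
    · exact mul_le_mul_of_nonneg_right (pow_le_pow_right₀ (by linarith) hl.le) hd0.le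
  have hxn : ∀ l < n, μ ≤ x l ∧ x l ≤ d := by
    intro l hl
    rw [hx]
    constructor
    · exact le_mul_of_one_le_left hμ0.le (one_le_pow₀ hC₂)
    · rw [← hμV, hV]
      exact mul_le_mul_of_nonneg_right (pow_le_pow_right₀ hC₂ (by omega)) hμ0.le
  have hUd : C₁ * (U * d) * 8 ≤ σ := by
    have h1 : 8 * C₁ * U ≤ W := by
      rw [hW]
      have h2 : 0 ≤ 8 * C₁ * U := by positivity
      have h3 : 1 ≤ V * C₂ := by nlinarith
      calc 8 * C₁ * U = 8 * C₁ * U * 1 := (mul_one _).symm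
        _ ≤ 8 * C₁ * U * (V * C₂) := mul_le_mul_of_nonneg_left h3 h2
        _ = _ := by ring
    nlinarith
  have hC₂d : C₂ * d * 8 ≤ σ := by
    have h1 : 8 * C₂ ≤ W := by
      rw [hW]
      have h3 : 1 ≤ C₁ * U * V := by
        have h1 : 1 ≤ C₁ * U := by nlinarith
        nlinarith
      calc 8 * C₂ = 8 * C₂ * 1 := (mul_one _).symm
        _ ≤ 8 * C₂ * (C₁ * U * V) := mul_le_mul_of_nonneg_left h3 (by positivity)
        _ = _ := by ring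
    nlinarith
  have hen : n - 1 < n := by omega
  have he1 : E + C₁ * de (n - 1) ≤ E + σ / 4 := by
    have h1 := (hden (n - 1) hen).2
    have h2 := mul_le_mul_of_nonneg_left h1 hC₁0.le
    linarith
  have hUdσ : U * d * 8 ≤ σ := by nlinarith
  obtain ⟨K₁, hK₁, hball⟩ := hlab de (by rw [hde0]; exact hd0)
    (by rw [hde0]; exact hdε) (fun l _ => hdes l) (fun l hl => by
      have := (hden l hl).2
      linarith)
  have h1 := hiso (Sc := Sc) (c := c) (w := w) (w₁ := w₁) (e := E + C₁ * de (n - 1)) (σ := μ)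
    (q₀ := q₀) (K₁ := K₁) (β := fun l => β l - de l) (x := x) M hSc hinj hw0 hww₁ hw₁
    (by
      have h2 := (hden (n - 1) hen).1
      have : 0 ≤ C₁ * de (n - 1) := mul_nonneg hC₁0.le (by linarith)
      linarith) hμ0 hq₀ hK₁ (fun l hl => by
      have h2 := (hden l hl).2
      have h3 := hβ l hl
      show 0 ≤ β l - de l
      linarith) (by
      rw [hx]
      show C₂ * μ ≤ C₂ ^ (0 + 1) * μ
      rw [zero_add, pow_one]) (fun l _ => by
      rw [hx]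
      show C₂ * (C₂ ^ (l + 1) * μ) ≤ C₂ ^ (l + 1 + 1) * μ
      rw [pow_succ _ (l + 1)]
      linarith)
    (Bas.mono 0 hball (by
      rintro J _ F A ⟨B, k1, k2, k3⟩
      exact ⟨B, k1, k2, k3⟩))
  obtain ⟨J₁, hJ₁⟩ := big 1 (show 0 < σ / 2 by positivity)
  refine ⟨2 ^ (M + 1) * K₁, μ, fun l => β l - de l - x l, by positivity, hμ0, fun l hl => ?_,
    Bas.mono J₁ h1 ?_⟩
  · have h2 := hden l hl
    have h3 := hxn l hl
    constructor
    · show β l - σ < β l - de l - x l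
      have : d * 8 ≤ σ := by nlinarith
      linarith
    · show β l - de l - x l < β l - μ
      linarith
  rintro J hJ F A hA w' a' gg hw' hw₁' ha' hg1 hg2 hv
  have hJ0 : (0 : ℝ) ≤ J := Nat.cast_nonneg J
  have hJ1 := hJ₁ J hJ
  obtain ⟨B, G₀, H₀, k1, k2, k3, k4, k5⟩ := hA w' a' gg hw' hw₁' ha' hg1 hg2 (fun i hi l hl => by
    have h2 := hv i hi l hl
    have h3 := hden l hl
    have h4 : (E + C₁ * de (n - 1) + (β l - de l) + μ) * J ≤
        (β l + E + σ) * J := mul_le_mul_of_nonneg_right (by linarith) hJ0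
    linarith)
  have hge : ∀ l < n, (β l - σ) * J ≤ (⌊(β l - de l) * J⌋₊ : ℝ) ∧
      (⌊(β l - de l) * J⌋₊ : ℝ) ≤ β l * J := by
    intro l hl
    have h3 := hden l hl
    have h4 := hβ l hl
    have h5 := Nat.lt_floor_add_one ((β l - de l) * (J : ℝ))
    have h6 := Nat.floor_le (show 0 ≤ (β l - de l) * (J : ℝ) from
      mul_nonneg (by linarith) hJ0)
    have h7 : (β l - σ) * (J : ℝ) ≤ (β l - de l - σ / 2) * J :=
      mul_le_mul_of_nonneg_right (by linarith) hJ0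
    have h8 : (β l - de l) * (J : ℝ) ≤ β l * J :=
      mul_le_mul_of_nonneg_right (by linarith) hJ0
    have e1 : (β l - de l - σ / 2) * (J : ℝ) = (β l - de l) * J -
        σ / 2 * J := by ring
    constructor <;> linarith
  refine ⟨B, fun l => ⌊(β l - de l) * J⌋₊, G₀, H₀, k1, k2, hge, k3.mono le_rfl
    (fun _ => le_rfl) le_rfl (Nat.floor_le_floor (mul_le_mul_of_nonneg_right ?_ hJ0)),
    fun i hi => (k4 i hi).mono le_rfl (fun _ => le_rfl) le_rfl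
      (Nat.floor_le_floor (mul_le_mul_of_nonneg_right ?_ hJ0)), k5⟩
  · linarith
  · have h2 := (hxn (n - 1) hen).2
    have h3 := mul_le_mul_of_nonneg_left h2 hC₂0.le
    linarith



/-- **Re-centred ball charts of universal degree**, with the target, for several radii. -/
theorem iso_ptM (m r S : ℕ) (hS : 1 ≤ S) : ∃ (D : ℕ) (C : ℝ), 1 ≤ D ∧ 1 ≤ C ∧
    ∀ {Sc : PCl m} {P : List (Fin m) × Fin m → ℝ → ℝ → ℝ} {θ : ℝ} {c : ℕ → Fin m}
    {Pt : ℝ → ℝ → ℝ} {w v ε : ℝ} {vs e e₀ E sg : ℝ → ℝ} {Q : Set ℝ}, ThrOf (chsys m θ) Sc P →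
    0 < θ → TmH Sc → Set.InjOn c (Set.Iio (r + 1)) → Law Pt → 0 < v → v < w → w < 1 →
    0 ≤ ε → (0 : ℝ) ∈ Q → (∀ x y : ℝ, 0 ≤ x → x < y → y ≤ w - v → ∃ κ ∈ Q, x < κ ∧ κ < y) →
    (∀ κ ∈ Q, 0 ≤ κ → κ ≤ w - v →
      PtN Sc P θ c r Pt (w - κ) (w - κ) (vs κ) (e κ) (e₀ κ) (E κ) (sg κ) ∧
      ∀ l ≤ r, lvN P c r Pt l w w ≤ lvN P c r Pt l (w - κ) (w - κ) + S * κ + ε) →
    2 ≤ S * (w - v) →
    ∀ σ : ℝ, 0 < σ → C * ε < σ → σ < w → ∀ w₁ q₀ : ℝ, w < w₁ → w₁ < 1 →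
    0 < q₀ → ∀ M : ℕ, ∃ (K₁ μ : ℝ) (b : ℕ → ℝ), 0 < K₁ ∧ 0 < μ ∧
      (∀ l ≤ r, lvN P c r Pt l w w - σ < b l ∧ b l < lvN P c r Pt l w w - μ) ∧
      Bas Sc (fun J F A => ∀ (w' : ℕ) (a' : ℕ → ℕ) (gg : ℕ → ℕ → ℕ), ⌊w * J⌋₊ ≤ w' →
        (w' : ℝ) ≤ w₁ * J → (∀ i ≤ M, (w' : ℝ) + q₀ * J ≤ a' i) →
        (∀ i ≤ M, ∀ l ≤ r, (gg i l : ℝ) ≤ b l * J + (a' i - w') + μ * J) →
        (∀ i ≤ M, ∀ l ≤ r, b l * J + (a' i - w') ≤ gg i l + μ * J) →
        (∀ i ≤ M, ∀ l ≤ r, (lvN P c r Pt l w w + E 0 + σ) * J + (a' i - w') ≤ J) →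
        ∃ (B : F.Ω → Prop) (g₀ : ℕ → ℕ) (G₀ : PtT F → ℕ → MvPolynomial (Option (Fin m)) ℝ)
          (H₀ : LnT F → ℕ → MvPolynomial (Option (Fin m)) ℝ), Sub B A ∧
          Pe F.p A ≤ K₁ * Pe F.p B ∧
          (∀ l ≤ r, (lvN P c r Pt l w w - σ) * J ≤ g₀ l ∧ (g₀ l : ℝ) ≤ lvN P c r Pt l w w * J) ∧
          ChOK F c (r + 1) (fun _ => D) w' w' ⌊(E 0 + σ) * J⌋₊ g₀ B G₀ H₀ ∧
          (∀ i ≤ M, ChOK F c (r + 1) (fun _ => D) (a' i) w' ⌊(E 0 + σ) * J⌋₊ (gg i) B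
            (fun y l => Gno (c l) J J (fun y => G₀ y l) y)
            (fun s l => Hno (c l) (fun s => H₀ s l) s)) ∧
          ∀ ω, B ω → ∀ l ≤ r, ∀ b : Option (Fin m) → ℝ,
            |eval b (Gno (c l) J J (fun y => G₀ y l) (ptr F J ω)) - eval b (G₀ (ptr F J ω) l)| ≤
              2 / 2 ^ g₀ l) := by
  obtain ⟨D₀, C₁, hC₁, hlab⟩ := labN r S hS
  obtain ⟨D, hD⟩ : ∃ D, D = max D₀ 1 := ⟨_, rfl⟩
  have hDD : D₀ ≤ D := by rw [hD]; exact le_max_left _ _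
  have hD1 : 1 ≤ D := by rw [hD]; exact le_max_right _ _
  obtain ⟨C, hC, hcore⟩ := iso_cores m (r + 1) D (by omega) hD1 C₁ hC₁
  refine ⟨D, C, hD1, hC, ?_⟩
  intro Sc P θ c Pt w v ε vs e e₀ E sg Q hP hθ hSc hinj hPt hv0 hvw hw1 hε h0Q hQ hpt hSv σ hσ
    hσε hσw w₁ q₀ hww₁ hw₁ hq₀ M
  have hw0 : 0 < w := hv0.trans hvw
  have h0 := (hpt 0 h0Q le_rfl (by linarith)).1
  have hE0 : 0 ≤ E 0 := by
    have h2 := h0.E1
    have h3 : 0 ≤ (Csl r r : ℝ) * vs 0 := mul_nonneg (Nat.cast_nonneg _) h0.vs0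
    have h4 := h0.e1
    have h5 : 0 ≤ (e 0 + vs 0) * ((r : ℝ) + 1) :=
      mul_nonneg (by linarith [h0.vs0]) (by positivity)
    linarith
  have hβ : ∀ l < r + 1, w ≤ lvN P c r Pt l w w := by
    intro l hl
    unfold lvN
    split_ifs with h1
    · exact hP.low ((List.range l).map c, c l) w w hw0.le le_rfl hw1.le
    · have h2 := h0.low
      simp only [sub_zero] at h2
      exact h2
  obtain ⟨K₁, μ, b, k1, k2, k3, k4⟩ := hcore (Sc := Sc) (c := c) (w := w) (E := E 0) (ε := ε)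
    (β := fun l => lvN P c r Pt l w w) hSc hinj hw0 hw1 hε hE0 hβ
    (fun de h1 h2 h3 h4 => by
      obtain ⟨K₁, k1, k2⟩ := hlab (a := w) (w := w) (v := v) (ε := ε) (vs := vs) (e := e)
        (e₀ := e₀) (E := E) (sg := sg) (Q := Q) hP hθ hSc hinj hPt hv0 hvw le_rfl hw1 hε h0Q hQ hpt
        hSv de h1 h2 (fun l hl => h3 l (by omega)) (fun l hl => h4 l (by omega))
      refine ⟨K₁, k1, k2.mono 0 ?_⟩
      rintro J - F A ⟨B, l1, l2, l3⟩
      exact ⟨B, l1, l2, ChN.mono l3 le_rfl (fun _ _ => hDD) le_rfl le_rfl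
        (Pool.LBT.fl_le' hw1.le J) le_rfl⟩)
    σ hσ hσε hσw w₁ q₀ hww₁ hw₁ hq₀ M
  refine ⟨K₁, μ, b, k1, k2, fun l hl => k3 l (by omega), k4.mono 0 ?_⟩
  rintro J - F A hA w' a' gg h1 h2 h3 h4 h5 h6
  obtain ⟨B, g₀, G₀, H₀, l1, l2, l3, l4, l5, l6⟩ := hA w' a' gg h1 h2 h3
    (fun i hi l hl => h4 i hi l (by omega)) (fun i hi l hl => h5 i hi l (by omega))
    (fun i hi l hl => h6 i hi l (by omega))
  exact ⟨B, g₀, G₀, H₀, l1, l2, fun l hl => l3 l (by omega), l4, l5,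
    fun ω hω l hl => l6 ω hω l (by omega)⟩

end Pool.ISO
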