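import Pool.Agent.H63.STAT.Lab2
import Pool.Agent.H2.GEN.AttJ

/-!
# Chains of universal degree at one point of a class, with own slownesses on the path

`lab2q`: 63's `lab2`, where the points of the path have their own slownesses and gradients; only
the end point of the path needs small gradients.
-/

set_option autoImplicit false

namespace Pool.STAT

open Finset MvPolynomial
open Pool.Agent.H49.Ent Pool.Agent.H32.Dense Pool.STK Pool.KS3 Pool.KA Pool.KSAT Pool.PB Pool.GEN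
open Pool.K2S Pool.TRC Pool.S6C
open Pool.LBT (ThrOf)
open Pool.CHT (chsys bet Pts Ptq Csl TmH jattq bas_ev MCh MCq fl_add big tau)
open Pool.TRC31 (timeF)

namespace CLO

/-- The points of a path, with own slownesses. -/
theorem ptq_path {m : ℕ} {Sc : PCl m} {P : List (Fin m) × Fin m → ℝ → ℝ → ℝ} {θ : ℝ}
    {c : ℕ → Fin m} {r N : ℕ} {a w : ℝ} {vs e₀ : ℝ → ℝ} {κ : ℕ → ℝ}
    (h : ∀ k < N, Pts Sc P θ c r 1 (fun _ => a - κ k) (fun _ => w - κ k) (vs (κ k)) (e₀ (κ k))) :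
    Ptq Sc P θ c r N (fun k => a - κ k) (fun k => w - κ k) (fun k => vs (κ k))
      (fun k => e₀ (κ k)) where
  pos k hk := (h k hk).pos 0 one_pos
  wa k hk := (h k hk).wa 0 one_pos
  lt k hk := (h k hk).lt 0 one_pos
  rc k hk := (h k hk).rc 0 one_pos
  vis k hk := (h k hk).vis 0 one_pos
  gre k hk := (h k hk).gre 0 one_pos
  srt k hk := (h k hk).srt 0 one_pos
  rel k hk := (h k hk).rel 0 one_pos

/-- **Chains of universal degree at one point**, for one family: `eN` is the exponent of the last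
labels. -/
theorem lab2_famq (n S : ℕ) (hS : 1 ≤ S) : ∃ D c : ℕ, 1 ≤ c ∧ ∀ K N : ℕ, ∃ C : ℕ,
    ∀ (d J : ℕ) (F : Fam d J) (e : ℕ → Fin d) (al om : ℕ → ℕ) (ee eN : ℕ)
    (g : ℕ → ℕ → ℕ)
    (u₀ h u s : ℕ) (ℓ : ℕ → ℕ) (L : ℕ) (A : F.Ω → Prop)
    (G : ℕ → PtT F → ℕ → MvPolynomial (Option (Fin d)) ℝ)
    (H : ℕ → LnT F → ℕ → MvPolynomial (Option (Fin d)) ℝ) (θ : ℝ),
    Jat F e n K (N + 1) al om ee g u₀ A G H →
    ChOK F e n (fun _ => K) (al N) (om N) eN (g N) A (G N) (H N) → Inj e n → al N ≤ J → (∀ k ≤ N, om k ≤ al k) →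
    (∀ k < N, om k ≤ om (k + 1) ∧ om (k + 1) ≤ om k + h) →
    (∀ k < N, al k ≤ al (k + 1) ∧ al (k + 1) ≤ al k + h) →
    (∀ k ≤ N, ∀ k' ≤ k, ∀ l < n, g k' l + al k ≤ g k l + al k' + u ∧
      g k' l + om k ≤ g k l + om k' + u ∧ g k' l ≤ g k l) →
    (∀ k ≤ N, ∀ l < n, al k ≤ g k l + u) →
    (∀ k ≤ N, ∀ l < n, g N l + S * al k ≤ g k l + S * al N + u ∧
      g N l + S * om k ≤ g k l + S * om N + u) →
    (∀ l < n, g N l + S * al 0 ≤ S * al N + u ∧ g N l + S * om 0 ≤ S * om N + u) →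
    (∀ k ≤ N, ∀ l < n, C ≤ g k l) → u₀ + C ≤ u → 0 < Pe F.p A → 0 ≤ θ →
    (∀ k ≤ N, TimeS F A (om k) (J - om N) θ) → C * (θ + 1) ≤ (J - om N : ℕ) →
    (c : ℝ) * (h + u) + C * (θ + 1) ≤ s →
    (∀ i < n, ℓ i ≤ g N i) → (∀ i < n, ℓ i ≤ L) → c * (s + 1) ≤ ℓ 0 →
    (∀ i, i + 1 < n → c * (ℓ i + s + 1) ≤ ℓ (i + 1)) →
    ∃ (B : F.Ω → Prop) (Gt : PtT F → ℕ → PN) (R : LnT F → ℕ → PN), (∀ ω, B ω → A ω) ∧
      Pe F.p A ≤ 2 * Pe F.p B ∧
      ChOK F e n (fun _ => D) (al N) (om N) (eN + c * (L + s + 1) + C) (fun i => g N i - ℓ i) B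
        (fun y i => tb e (Gt y (i + 1))) (fun l i => tb e (R l (i + 1))) ∧
      (∀ ω, B ω → ∀ i < n, ∀ b : ℕ → ℝ,
        Bx (gg (al N) (g N)) (Gs e n (al N) (G N) (ptr F J ω)) (i + 1) b →
        |eval b (Gs e n (al N) (G N) (ptr F J ω) (i + 1)) - eval b (Gt (ptr F J ω) (i + 1))| ≤
          2 ^ s / 2 ^ g N i) := by
  obtain ⟨c₁, htrc⟩ := trc_fam n S hS
  obtain ⟨D, hD⟩ : ∃ D, D = (S + 1) ^ (n + 1) ^ 2 := ⟨_, rfl⟩
  rw [← hD] at htrc
  obtain ⟨c₂, hc₂, hpack⟩ := pack n D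
  refine ⟨D, max c₁ c₂, le_trans hc₂ (le_max_right _ _), fun K N => ?_⟩
  obtain ⟨s₀, hs₀, hlvl⟩ := lvl_of n K
  obtain ⟨C₁, hC₁⟩ := htrc K (N + 1) s₀
  obtain ⟨s₁, hs₁⟩ := hpack K
  obtain ⟨C, hC⟩ : ∃ C, C = C₁ + s₁ + s₀ + 1 := ⟨_, rfl⟩
  have hCC₁ : (C₁ : ℝ) ≤ C := by
    rw [hC]
    push_cast
    have : (0 : ℝ) ≤ s₁ := Nat.cast_nonneg _
    have : (0 : ℝ) ≤ s₀ := Nat.cast_nonneg _
    linarith
  refine ⟨C, ?_⟩
  intro d J F e al om ee eN g u₀ h u s ℓ L A G H θ hJat hchN hinj haJ hoa hom hal hlaw hag hsl hsl0 hCg hu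
    hA hθ htm hCJ hs hℓg hℓL hℓ0 hℓs
  have hmA : ∀ k j, k ≤ j → j ≤ N → al k ≤ al j := by
    intro k j hkj
    induction j with
    | zero =>
      intro _
      have : k = 0 := by omega
      rw [this]
    | succ j ih =>
      intro hj
      rcases Nat.lt_or_ge k (j + 1) with h1 | h1
      · exact (ih (by omega) (by omega)).trans (hal j (by omega)).1
      · have : k = j + 1 := by omega
        rw [this]
  have haJ' : ∀ k ≤ N, al k ≤ J := fun k hk => (hmA k N hk le_rfl).trans haJ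
  have hL := hlvl d J (N + 1) F e al om ee g u₀ h u (al 0) (om 0) A G H hJat hinj
    (fun k hk => haJ' k (by omega)) (haJ' 0 (Nat.zero_le _)) (hoa 0 (Nat.zero_le _))
    (fun k hk => hoa k (by omega)) (fun k hk => (hom k (by omega)).1)
    (fun _ => ⟨le_rfl, le_rfl, by omega⟩) (fun k hk => hal k (by omega))
    (fun k hk k' hk' l hl => ⟨(hlaw k (by omega) k' hk' l hl).1,
      (hlaw k (by omega) k' hk' l hl).2.2⟩)
    (fun k hk l hl => by
      have := hag k (by omega) l hl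
      omega) (by omega)
  have hw : wtop (N + 1) (om N) (shl (om 0) om) = shl (om 0) om := by
    funext k
    unfold wtop
    split_ifs with hk
    · rw [hk]
      rfl
    · rfl
  have hTms : Tms n S (N + 1) (shl (om 0) om) (wtop (N + 1) (om N) (shl (om 0) om)) (jg g) h u := by
    rw [hw]
    refine ⟨?_, ?_, ?_, ?_⟩
    · rintro (_ | k) hk
      · exact ⟨le_rfl, Nat.le_add_right _ _⟩
      · exact hom k (by omega)
    · rintro (_ | k) hk (_ | k') hk' l h1 h2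
      · show 0 + om 0 ≤ 0 + om 0 + u
        omega
      · omega
      · show 0 + om k ≤ g k (l - 1) + om 0 + u
        have h3 := hag k (by omega) (l - 1) (by omega)
        have h4 := hoa k (by omega)
        omega
      · exact (hlaw k (by omega) k' (by omega) (l - 1) (by omega)).2.1
    · rintro (_ | k) hk l h1 h2
      · show g N (l - 1) + S * om 0 ≤ 0 + S * om N + u
        have := (hsl0 (l - 1) (by omega)).2
        omega
      · exact (hsl k (by omega) (l - 1) (by omega)).2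
    · intro k _
      rw [Nat.add_comm]
  have hSlp : Pool.TRC.Slp n S (shl (al 0) al) (jg g) u (N + 1) := by
    rintro (_ | k) hk l h1 h2
    · show g N (l - 1) + S * al 0 ≤ 0 + S * al N + u
      have := (hsl0 (l - 1) (by omega)).1
      omega
    · exact (hsl k (by omega) (l - 1) (by omega)).1
  have hs' : ((c₁ : ℕ) : ℝ) * (h + u + (0 : ℕ)) + C₁ * (θ + 1) ≤ s := by
    refine le_trans ?_ hs
    have e1 : (c₁ : ℝ) ≤ (max c₁ c₂ : ℕ) := by exact_mod_cast le_max_left c₁ c₂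
    have e2 : (0 : ℝ) ≤ (h : ℝ) + u := by positivity
    have e3 := mul_le_mul_of_nonneg_right e1 e2
    have e4 := mul_le_mul_of_nonneg_right hCC₁ (by linarith : 0 ≤ θ + 1)
    push_cast at e3 ⊢
    linarith
  obtain ⟨B, G', H', R, k1, k2, k3, k4, k5, k6, k7, k8, -⟩ := hC₁ d J F (fun i => e (i - 1)) (al N)
    (om N) 0 0 (shl (al 0) al) (shl (om 0) om) (shl (om 0) om) (jg g) (fun _ => jg g (N + 1)) h u
    0 s (fun _ => N + 1) A (jG F e n (N + 1) (al 0) al G) (jH F e n (N + 1) H) θ hL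
    (fun k _ => ⟨le_rfl, hSlp, by
      show al N ≤ al N + k * 0
      omega⟩) rfl (by
      show al N + 0 * 0 ≤ J
      omega) hTms le_rfl (hoa N le_rfl) (by
      rintro (_ | k) hk1 hk2 i hi1 hi2
      · omega
      · show s₀ + 1 ≤ g k (i - 1)
        have := hCg k (by omega) (i - 1) (by omega)
        omega) hA hθ (by
      rintro (_ | k) hk
      · exact htm 0 (Nat.zero_le _)
      · exact htm k (by omega)) (by
      refine le_trans (mul_le_mul_of_nonneg_right hCC₁ (by linarith)) hCJ)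
    (fun k _ i _ _ => ⟨le_rfl, by omega⟩) hs'
  have hRaw := k3 0 le_rfl
  have ea : al N + 0 * 0 = al N := by omega
  rw [ea] at hRaw
  have hg0 : CDat.g0 (al N) 0 (fun _ => jg g (N + 1)) 0 = gg (al N) (g N) := by
    funext i
    unfold CDat.g0 gg
    split_ifs
    · exact ea
    · rfl
  have hnr : ∀ ω, B ω → ∀ i, 1 ≤ i → i ≤ n → ∀ b : ℕ → ℝ,
      Bx (gg (al N) (g N)) (Gs e n (al N) (G N) (ptr F J ω)) i b →
      |eval b (Gs e n (al N) (G N) (ptr F J ω) i) - eval b (G' 0 (ptr F J ω) i)| ≤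
        2 ^ s / 2 ^ g N (i - 1) := by
    intro ω hω i hi1 hi b hb
    have h1 := k8 0 le_rfl ω hω i hi1 hi b
    have h2 : jG F e n (N + 1) (al 0) al G (N + 1) = Gs e n (al N) (G N) :=
      jG_succ (Nat.lt_succ_self N)
    rw [h2] at h1
    refine h1 ?_
    rw [gg_tus] at hb
    exact hb
  refine ⟨B, G' 0, R, k1, k2, ?_, fun ω hω i hi b hb => ?_⟩
  · refine (hs₁ d J (al N) (om N) (om N) eN s F e (fun _ => K) (g N) ℓ L B (G N) (H N) (G' 0) R
      haJ hinj (fun _ _ => le_rfl) (hchN.sub k1) hRaw.G_tri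
      hRaw.G_deg hRaw.G_zero k5 k6 hnr (fun ω hω i hi1 hi => ?_) (fun ω hω i hi1 hi b hb => ?_)
      hℓg hℓL ?_ (fun i hi => ?_)).mono le_rfl (fun _ => le_rfl) le_rfl ?_
    · exact k4 0 le_rfl ω hω i hi1 hi
    · refine k7 ω hω i hi1 hi b ?_
      rw [hg0]
      exact hb
    · exact (Nat.mul_le_mul_right _ (le_max_right c₁ c₂)).trans hℓ0
    · exact (Nat.mul_le_mul_right _ (le_max_right c₁ c₂)).trans (hℓs i hi)
    · have h1 := Nat.mul_le_mul_right (L + s + 1) (le_max_right c₁ c₂)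
      omega
  · exact hnr ω hω (i + 1) (by omega) (by omega) b hb

/-- **Chains of universal degree at one point of a class**: the points of the path have their own
slowness `vs κ` and exponents `e₀ κ`. -/
theorem lab2q (n S : ℕ) (hn : 1 ≤ n) (hS : 1 ≤ S) : ∃ (D : ℕ) (C : ℝ), 1 ≤ C ∧
    ∀ {m : ℕ} {Sc : PCl m} {P : List (Fin m) × Fin m → ℝ → ℝ → ℝ} {θ : ℝ} {c : ℕ → Fin m}
    {a w v ε : ℝ} {vs e₀ : ℝ → ℝ} {Q : Set ℝ}, ThrOf (chsys m θ) Sc P → 0 < θ → TmH Sc →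
    Set.InjOn c (Set.Iio n) → 0 < v → v < w → w ≤ a → a < 1 →
    (∀ κ ∈ Q, 0 ≤ vs κ) → 0 ≤ ε → (0 : ℝ) ∈ Q →
    (∀ x y : ℝ, 0 ≤ x → x < y → y ≤ w - v → ∃ κ ∈ Q, x < κ ∧ κ < y) →
    (∀ κ ∈ Q, 0 ≤ κ → κ ≤ w - v →
      Pts Sc P θ c n 1 (fun _ => a - κ) (fun _ => w - κ) (vs κ) (e₀ κ) ∧
      Csl n n * vs κ < e₀ κ ∧
      ∀ l < n, bet P c l a w ≤ bet P c l (a - κ) (w - κ) + S * κ + ε) → 2 ≤ S * (w - v) →
    ∀ de : ℕ → ℝ, 0 < de 0 → C * ε < de 0 → (∀ l, l + 1 < n → C * de l < de (l + 1)) →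
    (∀ l < n, de l < a) → ∀ e : ℝ, Csl n n * vs 0 < e → e ≤ e₀ 0 →
    ∃ K₁ : ℝ, 0 < K₁ ∧ Bas Sc (fun J F A => ∃ B : F.Ω → Prop, Sub B A ∧
      Pe F.p A ≤ K₁ * Pe F.p B ∧
      Chn c n (fun _ => D) a w (e + C * de (n - 1)) (fun l => bet P c l a w - de l) J F B) := by
  classical
  obtain ⟨D, c₀, hc₀, hfam⟩ := lab2_famq n S hS
  have hc1 : (1 : ℝ) ≤ c₀ := by exact_mod_cast hc₀
  refine ⟨D, 2 * c₀ ^ 2 + 2 * c₀, by nlinarith, ?_⟩
  intro m Sc P θ c a w v ε vs e₀ Q hP hθ hSc hinj hv0 hvw hwa ha hvs hε h0Q hQ hpts hSv de hde0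
    hdeε hdes hdea e hevs hee
  obtain ⟨σ, x, φ, μ, hσ0, hσc, hx0, hσx, hφ0, hφ1, hφ2, hφ3, hμ0, hμ1⟩ :=
    lab_consts hc₀ hde0 hε hv0 hdeε
  obtain ⟨C, hC⟩ : ∃ C : ℝ, C = 2 * c₀ ^ 2 + 2 * c₀ := ⟨_, rfl⟩
  rw [← hC] at hdeε hdes ⊢
  have hCc : (c₀ : ℝ) + 1 ≤ C := by
    rw [hC]
    nlinarith
  have hSr : (1 : ℝ) ≤ S := by exact_mod_cast hS
  have hdmono := de_mono (by linarith : (1 : ℝ) ≤ C) hde0 hdes
  have hd0 : ∀ l < n, de 0 ≤ de l := fun l hl => hdmono 0 l (Nat.zero_le _) hl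
  have hdn : ∀ l < n, de l ≤ de (n - 1) := fun l hl => hdmono l (n - 1) (by omega) (by omega)
  -- the path
  obtain ⟨N, κ, hκ, hκN, hκ0, hκs⟩ := path_ex (Q := Q) (W := w - v) (μ := μ) (by linarith) hμ0 h0Q
    hQ
  have hκm : ∀ k j, k ≤ j → j ≤ N → κ j ≤ κ k := by
    intro k j hkj
    induction j with
    | zero =>
      intro _
      have : k = 0 := by omega
      rw [this]
    | succ j ih =>
      intro hj
      rcases Nat.lt_or_ge k (j + 1) with h1 | h1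
      · exact (hκs j (by omega)).1.trans (ih (by omega) (by omega))
      · have : k = j + 1 := by omega
        rw [this]
  have hPk : ∀ k < N + 1, Pts Sc P θ c n 1 (fun _ => a - κ k) (fun _ => w - κ k) (vs (κ k))
      (e₀ (κ k)) := fun k hk => by
    obtain ⟨h1, h2, h3⟩ := hκ k (by omega)
    exact (hpts _ h1 h2 h3).1
  have hPts := ptq_path hPk
  obtain ⟨en, hen⟩ : ∃ en : ℕ → ℝ, en = fun k => if k = N then e else e₀ (κ k) := ⟨_, rfl⟩
  have henN : en N = e := by rw [hen]; exact if_pos rfl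
  have hen1 : ∀ k < N + 1, Csl n n * vs (κ k) < en k := by
    intro k hk
    rw [hen]
    show _ < if k = N then e else e₀ (κ k)
    split_ifs with h1
    · rw [h1, hκN]
      exact hevs
    · obtain ⟨h2, h3, h4⟩ := hκ k (by omega)
      exact (hpts _ h2 h3 h4).2.1
  have hen2 : ∀ k < N + 1, en k ≤ e₀ (κ k) := by
    intro k hk
    rw [hen]
    show (if k = N then e else e₀ (κ k)) ≤ _
    split_ifs with h1
    · rw [h1, hκN]
      exact hee
    · exact le_rfl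
  obtain ⟨b, hb⟩ : ∃ b : ℕ → ℕ → ℝ, b = fun k l => bet P c l (a - κ k) (w - κ k) := ⟨_, rfl⟩
  have hbN : ∀ l, b N l = bet P c l a w := by
    intro l
    rw [hb]
    show bet P c l (a - κ N) (w - κ N) = _
    rw [hκN, sub_zero, sub_zero]
  have hbsl : ∀ k ≤ N, ∀ l < n, b N l ≤ b k l + S * κ k + ε := by
    intro k hk l hl
    obtain ⟨h1, h2, h3⟩ := hκ k hk
    rw [hbN, hb]
    exact (hpts _ h1 h2 h3).2.2 l hl
  have hw0 : ∀ k ≤ N, v ≤ w - κ k := fun k hk => by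
    have := (hκ k hk).2.2
    linarith
  have ha1 : ∀ k ≤ N, a - κ k ≤ 1 := fun k hk => by
    have := (hκ k hk).2.1
    linarith
  have hwk : ∀ k ≤ N, w - κ k ≤ a - κ k := fun k _ => by linarith
  have hblow : ∀ k ≤ N, ∀ l, a - κ k ≤ b k l := fun k hk l => by
    rw [hb]
    exact hP.low _ _ _ (by linarith [hw0 k hk]) (hwk k hk) (ha1 k hk)
  have hbup : ∀ k ≤ N, ∀ l, b k l ≤ 1 := fun k hk l => by
    rw [hb]
    exact hP.up _ _ _ (by linarith [hw0 k hk]) (hwk k hk) (ha1 k hk)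
  have hblt : ∀ k ≤ N, ∀ l < n, b k l < 1 := by
    intro k hk l hl
    have h1 := hPts.vis k (by omega) l hl l le_rfl
    have h2 := hw0 k hk
    have h3 : 0 < θ * (w - κ k) := mul_pos hθ (by linarith)
    rw [hb]
    show bet P c l (a - κ k) (w - κ k) < 1
    have h4 : tau P c l l (a - κ k) (w - κ k) = bet P c l (a - κ k) (w - κ k) := rfl
    rw [h4] at h1
    linarith
  have hbmono : ∀ k ≤ N, ∀ k' ≤ k, ∀ l < n, b k' l + (κ k' - κ k) ≤ b k l := by
    intro k hk k' hk' l hl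
    have h1 := hκm k' k hk' hk
    have hw1 := hw0 k hk
    have hw2 := hw0 k' (hk'.trans hk)
    have h2 := (hP.law ((List.range l).map c, c l)).slope (a - κ k') (w - κ k') (κ k' - κ k)
      (by linarith) (hwk k' (hk'.trans hk)) (by linarith) (by
        have := ha1 k hk
        linarith)
    have h3 := (hP.law ((List.range l).map c, c l)).mono_w (a - κ k) (w - κ k') (w - κ k)
      (by linarith) (by linarith) (hwk k hk) (ha1 k hk)
    have e1 : a - κ k' + (κ k' - κ k) = a - κ k := by ring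
    rw [e1] at h2
    have h4 := hblt k hk l hl
    rw [hb] at h4 ⊢
    change P ((List.range l).map c, c l) (a - κ k) (w - κ k) < 1 at h4
    show P ((List.range l).map c, c l) (a - κ k') (w - κ k') + (κ k' - κ k) ≤
      P ((List.range l).map c, c l) (a - κ k) (w - κ k)
    rcases min_le_iff.1 (h2.trans h3) with h5 | h5
    · linarith
    · exact h5
  -- the labels
  obtain ⟨K, d, δ, K₁, hK₁, hK1, hd, hδ, hbas⟩ := jattq hP hθ hSc hinj
    (fun k hk => hvs _ (hκ k (by omega)).1) hPts n le_rfl (fun _ _ => φ) (fun _ _ => hφ0) en hen1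
    hen2
  obtain ⟨Kx, hKx⟩ : ∃ Kx, Kx = ∑ l ∈ range n, K l := ⟨_, rfl⟩
  have hKl : ∀ l < n, K l ≤ Kx := fun l hl => by
    rw [hKx]
    exact Finset.single_le_sum (f := K) (fun _ _ => Nat.zero_le _) (mem_range.2 hl)
  obtain ⟨C', hfam⟩ := hfam Kx N
  have hC'0 : (0 : ℝ) ≤ C' := Nat.cast_nonneg C'
  have hw1 : w < 1 := hwa.trans_lt ha
  obtain ⟨η, hη0, hη1, hη2⟩ := eta_ex (C := C') hx0 (by linarith : 0 < 1 - w)
  have htmb := bas_ev (hSc.2 η hη0) (inv_pos.2 hK₁)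
  obtain ⟨J₁, hJ₁⟩ := big (C' + 1 : ℝ) (show 0 < v / 2 by positivity)
  obtain ⟨J₂, hJ₂⟩ := big (C' : ℝ) (show 0 < (1 - w) / 2 by linarith)
  obtain ⟨J₃, hJ₃⟩ := big ((c₀ : ℝ) * (S + 3 + C') + C' + 1) (show 0 < x / 2 by positivity)
  obtain ⟨J₄, hJ₄⟩ := big ((c₀ : ℝ) * 4 + C' + 2) (show 0 < de 0 / 4 by positivity)
  refine ⟨K₁ * 2, by positivity, ?_⟩
  have hposb : Bas Sc (fun _ F A => 0 < Pe F.p A) := ⟨1, one_pos, 0, fun J _ F A hA =>
    hSc.1 1 J F A hA⟩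
  refine Bas.mono (max (max J₁ J₂) (max J₃ J₄)) ((hbas.and htmb).and hposb) ?_
  rintro J hJ F A ⟨⟨⟨B, G, H, hBA, hPe, hM⟩, htm⟩, hA⟩
  have hJ0 : (0 : ℝ) ≤ J := Nat.cast_nonneg J
  have b1 := hJ₁ J (((le_max_left _ _).trans (le_max_left _ _)).trans hJ)
  have b2 := hJ₂ J (((le_max_right _ _).trans (le_max_left _ _)).trans hJ)
  have b3 := hJ₃ J (((le_max_left _ _).trans (le_max_right _ _)).trans hJ)
  have b4 := hJ₄ J (((le_max_right _ _).trans (le_max_right _ _)).trans hJ)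
  have b4' : (c₀ : ℝ) * 4 + 2 ≤ de 0 / 4 * J := by linarith
  have hB : 0 < Pe F.p B := by
    by_contra h
    push Not at h
    have := mul_nonpos_of_nonneg_of_nonpos hK₁.le h
    linarith
  have hTm := htm B hBA (by
    rw [inv_mul_le_iff₀ hK₁]
    exact hPe) hB
  obtain ⟨G', H', hMq⟩ := Pool.CHT.MCq.congr (K' := fun _ => Kx)
    (g' := fun k l => ⌊(bet P c l (a - κ k) (w - κ k) - d l) * J⌋₊)
    (δ' := fun l => ⌊δ l * J⌋₊) hM hKl (fun _ _ _ => rfl) (fun _ _ => rfl)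
  have hMN := hMq.ok N (Nat.lt_succ_self N)
  have hM' := hMq.mch (e' := ∑ k ∈ range (N + 1), ⌊en k * J⌋₊) (fun k hk =>
    Finset.single_le_sum (f := fun k => ⌊en k * (J : ℝ)⌋₊) (fun _ _ => Nat.zero_le _)
      (mem_range.2 hk))
  obtain ⟨al, hal⟩ : ∃ al : ℕ → ℕ, al = fun k => ⌊(a - κ k) * J⌋₊ := ⟨_, rfl⟩
  obtain ⟨om, hom⟩ : ∃ om : ℕ → ℕ, om = fun k => ⌊(w - κ k) * J⌋₊ := ⟨_, rfl⟩
  obtain ⟨g, hg⟩ : ∃ g : ℕ → ℕ → ℕ, g = fun k l => ⌊(b k l - d l) * J⌋₊ := ⟨_, rfl⟩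
  have hJat := Pool.TRC.jat_of_mch hM' (N' := N + 1) (idx := fun k => k) (fun k hk => hk)
    (fun k' hk' k hk => by
      have := hκm k k' hk.le (by omega)
      exact ⟨by linarith, by linarith⟩) (u := ⌊φ * J⌋₊) (fun l hl =>
      Nat.floor_le_floor (mul_le_mul_of_nonneg_right (hδ l hl).2 hJ0))
  have hJat' : Pool.TRC.Jat F c n Kx (N + 1) al om (∑ k ∈ range (N + 1), ⌊en k * J⌋₊) g
      ⌊φ * J⌋₊ B G' H' := by
    rw [hal, hom, hg, hb]
    exact hJat
  have hchN : ChOK F c n (fun _ => Kx) (al N) (om N) ⌊e * J⌋₊ (g N) B (G' N) (H' N) := by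
    rw [hal, hom, hg, hb, ← henN]
    exact hMN
  have hd1 : ∀ l < n, d l ≤ φ := fun l hl => (hd l hl).2
  have hd2 : ∀ l < n, 0 < d l := fun l hl => (hd l hl).1
  have hbd : ∀ k ≤ N, ∀ l < n, v / 2 ≤ b k l - d l := by
    intro k hk l hl
    have h1 := hblow k hk l
    have h2 := hw0 k hk
    have h3 := hd1 l hl
    have h4 := hwk k hk
    linarith
  have fle : ∀ y : ℝ, 0 ≤ y → ((⌊y * J⌋₊ : ℕ) : ℝ) ≤ y * J := fun y hy =>
    Nat.floor_le (mul_nonneg hy hJ0)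
  have fge : ∀ y : ℝ, y * J < ((⌊y * J⌋₊ : ℕ) : ℝ) + 1 := fun y => Nat.lt_floor_add_one _
  obtain ⟨u, hu⟩ : ∃ u, u = ⌊(φ + ε) * J⌋₊ + S + 2 + C' := ⟨_, rfl⟩
  have hur : (φ + ε) * J ≤ ⌊(φ + ε) * J⌋₊ + 1 := (fge _).le
  have hεJ0 : 0 ≤ ε * (J : ℝ) := mul_nonneg hε hJ0
  have hSκ : (1 : ℝ) * J ≤ S * κ 0 * J := by
    refine mul_le_mul_of_nonneg_right ?_ hJ0
    have h1 := mul_le_mul_of_nonneg_left hκ0 (by linarith : (0 : ℝ) ≤ S)
    linarith
  have hu' : (u : ℝ) = (⌊(φ + ε) * J⌋₊ : ℕ) + S + 2 + C' := by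
    rw [hu]
    push_cast
    ring
  have hφJ : φ * (J : ℝ) ≤ (φ + ε) * J := mul_le_mul_of_nonneg_right (by linarith) hJ0
  have hεJ : ε * (J : ℝ) ≤ (φ + ε) * J := mul_le_mul_of_nonneg_right (by linarith) hJ0
  have hur1 : φ * (J : ℝ) + 1 ≤ u := by
    rw [hu']
    linarith
  have hur2 : ε * (J : ℝ) + S + 1 ≤ u := by
    rw [hu']
    linarith
  obtain ⟨ℓ, hℓ⟩ : ∃ ℓ : ℕ → ℕ, ℓ = fun l => g N l - ⌊(bet P c l a w - de l) * J⌋₊ := ⟨_, rfl⟩
  have hdede : ∀ l < n, d l ≤ de l := fun l hl => by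
    have h1 := hd1 l hl
    have h2 := hd0 l hl
    linarith
  have hx1 : ∀ l < n, ⌊(bet P c l a w - de l) * J⌋₊ ≤ g N l := by
    intro l hl
    rw [hg]
    show _ ≤ ⌊(b N l - d l) * J⌋₊
    rw [hbN]
    have := hdede l hl
    exact Nat.floor_le_floor (mul_le_mul_of_nonneg_right (by linarith) hJ0)
  have hba : ∀ l, a ≤ bet P c l a w := fun l => by
    have h1 := hblow N le_rfl l
    rw [hbN, hκN] at h1
    linarith
  have hℓr : ∀ l < n, (de l - d l) * J - 1 ≤ ℓ l ∧ (ℓ l : ℝ) ≤ (de l - d l) * J + 1 := by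
    intro l hl
    have h1 : (ℓ l : ℝ) = (⌊(bet P c l a w - d l) * J⌋₊ : ℕ) -
        (⌊(bet P c l a w - de l) * J⌋₊ : ℕ) := by
      have h2 := hx1 l hl
      rw [hℓ]
      show ((g N l - ⌊(bet P c l a w - de l) * J⌋₊ : ℕ) : ℝ) = _
      rw [Nat.cast_sub h2, hg]
      show ((⌊(b N l - d l) * J⌋₊ : ℕ) : ℝ) - _ = _
      rw [hbN]
    have h3 := fle (bet P c l a w - d l) (by
      have := hbd N le_rfl l hl
      rw [hbN] at this
      linarith)
    have h4 := fge (bet P c l a w - d l)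
    have h5 := fle (bet P c l a w - de l) (by
      have := hdea l hl
      have := hba l
      linarith)
    have h6 := fge (bet P c l a w - de l)
    rw [h1]
    constructor <;> linarith
  obtain ⟨L, hL⟩ : ∃ L, L = ⌊de (n - 1) * J + 1⌋₊ := ⟨_, rfl⟩
  have hden : 0 < de (n - 1) := hde0.trans_le (hd0 (n - 1) (by omega))
  have hLr : (L : ℝ) ≤ de (n - 1) * J + 1 := by
    rw [hL]
    exact Nat.floor_le (by positivity)
  obtain ⟨s, hs⟩ : ∃ s, s = ⌊σ * J⌋₊ := ⟨_, rfl⟩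
  have hsr : (s : ℝ) ≤ σ * J := by
    rw [hs]
    exact fle σ hσ0.le
  have hsr' : σ * J < s + 1 := by
    rw [hs]
    exact fge σ
  have haN : al N = ⌊a * J⌋₊ := by
    rw [hal]
    show ⌊(a - κ N) * J⌋₊ = _
    rw [hκN, sub_zero]
  have hoN : om N = ⌊w * J⌋₊ := by
    rw [hom]
    show ⌊(w - κ N) * J⌋₊ = _
    rw [hκN, sub_zero]
  have hoNJ : om N ≤ J := by
    rw [hoN]
    exact Pool.LBT.fl_le' hw1.le J
  have homm : ∀ k ≤ N, om k ≤ om N := by
    intro k hk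
    rw [hom]
    refine Nat.floor_le_floor (mul_le_mul_of_nonneg_right ?_ hJ0)
    have := hκm k N hk le_rfl
    linarith
  obtain ⟨B', Gt, R, k1, k2, k3, k4⟩ := hfam m J F c al om
    (∑ k ∈ range (N + 1), ⌊en k * J⌋₊) ⌊e * J⌋₊ g ⌊φ * J⌋₊ (⌊μ * J⌋₊ + 1) u s ℓ L B G' H' (η * J)
    hJat' hchN (fun i hi j hj h => hinj (Set.mem_Iio.2 hi) (Set.mem_Iio.2 hj) h)
    (by
      rw [haN]
      exact Pool.LBT.fl_le' ha.le J)
    (fun k hk => by
      rw [hom, hal]
      exact Nat.floor_le_floor (mul_le_mul_of_nonneg_right (hwk k hk) hJ0))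
    (fun k hk => by
      obtain ⟨h1, h2⟩ := hκs k hk
      rw [hom]
      refine ⟨Nat.floor_le_floor (mul_le_mul_of_nonneg_right (by linarith) hJ0), ?_⟩
      refine fl_add ?_
      have h3 := mul_le_mul_of_nonneg_right h2 hJ0
      linarith)
    (fun k hk => by
      obtain ⟨h1, h2⟩ := hκs k hk
      rw [hal]
      refine ⟨Nat.floor_le_floor (mul_le_mul_of_nonneg_right (by linarith) hJ0), ?_⟩
      refine fl_add ?_
      have h3 := mul_le_mul_of_nonneg_right h2 hJ0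
      linarith)
    (fun k hk k' hk' l hl => by
      have h1 := hbmono k hk k' hk' l hl
      have h2 := hbd k' (hk'.trans hk) l hl
      have h3 := hw0 k hk
      have h4 := hwk k hk
      have h5 := hκm k' k hk' hk
      have hu1 : 1 ≤ u := by rw [hu]; omega
      have h7 := mul_le_mul_of_nonneg_right h1 hJ0
      refine ⟨?_, ?_, ?_⟩
      · have h6 := fl2 (x := (b k' l - d l) * J) (y := (a - κ k) * J) (z := (b k l - d l) * J)
          (t := (a - κ k') * J) (mul_nonneg (by linarith) hJ0) (mul_nonneg (by linarith) hJ0)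
          (by linarith)
        rw [hg, hal]
        show ⌊(b k' l - d l) * J⌋₊ + ⌊(a - κ k) * J⌋₊ ≤ ⌊(b k l - d l) * J⌋₊ +
          ⌊(a - κ k') * J⌋₊ + u
        omega
      · have h6 := fl2 (x := (b k' l - d l) * J) (y := (w - κ k) * J) (z := (b k l - d l) * J)
          (t := (w - κ k') * J) (mul_nonneg (by linarith) hJ0) (mul_nonneg (by linarith) hJ0)
          (by linarith)
        rw [hg, hom]
        show ⌊(b k' l - d l) * J⌋₊ + ⌊(w - κ k) * J⌋₊ ≤ ⌊(b k l - d l) * J⌋₊ +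
          ⌊(w - κ k') * J⌋₊ + u
        omega
      · rw [hg]
        exact Nat.floor_le_floor (mul_le_mul_of_nonneg_right (by linarith) hJ0))
    (fun k hk l hl => by
      have h1 := mul_le_mul_of_nonneg_right (hblow k hk l) hJ0
      have h2 := mul_le_mul_of_nonneg_right (hd1 l hl) hJ0
      have h3 := hw0 k hk
      have h4 := hwk k hk
      rw [hal, hg]
      refine le_num (r := φ * J) (mul_nonneg (by linarith) hJ0) ?_ hur1
      linarith)
    (fun k hk l hl => by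
      have h1 := mul_le_mul_of_nonneg_right (hbsl k hk l hl) hJ0
      have h2 := hbd N le_rfl l hl
      have h3 := hw0 k hk
      have h4 := hwk k hk
      rw [hal, hom, hg]
      constructor
      · refine slp_num (r := ε * J) (mul_nonneg (by linarith) hJ0)
          (mul_nonneg (by linarith) hJ0) ?_ hur2
        rw [hκN]
        linarith
      · refine slp_num (r := ε * J) (mul_nonneg (by linarith) hJ0)
          (mul_nonneg (by linarith) hJ0) ?_ hur2
        rw [hκN]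
        linarith)
    (fun l hl => by
      have h1 := hbup N le_rfl l
      have h2 := hbd N le_rfl l hl
      have h3 := hd2 l hl
      have h4 := hw0 0 (Nat.zero_le _)
      have h5 := hwk 0 (Nat.zero_le _)
      have h10 : (b N l - d l) * J ≤ 1 * J := mul_le_mul_of_nonneg_right (by linarith) hJ0
      have h6 := hεJ0
      rw [hal, hom, hg]
      constructor
      · have h7 := slp_num (S := S) (u := u) (x := (b N l - d l) * J) (y := 0)
          (A := (a - κ 0) * J) (B := (a - κ N) * J) (r := ε * J) (mul_nonneg (by linarith) hJ0)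
          (mul_nonneg (by linarith) hJ0) (by
            rw [hκN]
            linarith) hur2
        rw [Nat.floor_zero, Nat.zero_add] at h7
        exact h7
      · have h7 := slp_num (S := S) (u := u) (x := (b N l - d l) * J) (y := 0)
          (A := (w - κ 0) * J) (B := (w - κ N) * J) (r := ε * J) (mul_nonneg (by linarith) hJ0)
          (mul_nonneg (by linarith) hJ0) (by
            rw [hκN]
            linarith) hur2
        rw [Nat.floor_zero, Nat.zero_add] at h7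
        exact h7)
    (fun k hk l hl => by
      have h1 := hbd k hk l hl
      have h2 := fge (b k l - d l)
      have h3 : v / 2 * J ≤ (b k l - d l) * J := mul_le_mul_of_nonneg_right h1 hJ0
      have h5 : ((C' : ℕ) : ℝ) < ((g k l + 1 : ℕ) : ℝ) := by
        rw [hg]
        push_cast
        linarith
      have h6 : C' < g k l + 1 := by exact_mod_cast h5
      omega)
    (by
      have h1 : ⌊φ * J⌋₊ ≤ ⌊(φ + ε) * J⌋₊ := Nat.floor_le_floor hφJ
      omega)
    hB (by positivity)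
    (fun k hk => by
      have h1 := homm k hk
      exact timeF hB hTm (by omega))
    (by
      rw [Nat.cast_sub hoNJ, hoN]
      have h1 := fle w (by linarith)
      have h2 : C' * (η * J) ≤ (1 - w) / 2 * J := by
        rw [← mul_assoc]
        exact mul_le_mul_of_nonneg_right hη2 hJ0
      linarith)
    (by
      rw [hs, hu]
      exact loss_num hφ0.le hε hμ0.le hσx hφ1 hμ1 hη1 b3)
    (fun i hi => by
      rw [hℓ]
      exact Nat.sub_le _ _)
    (fun i hi => by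
      rw [hL]
      refine Nat.le_floor ?_
      have h1 := (hℓr i hi).2
      have h2 := mul_nonneg (hd2 i hi).le hJ0
      have h3 := mul_le_mul_of_nonneg_right (hdn i hi) hJ0
      linarith)
    (by
      have h3 := loss_zero hc1 hσc hsr (hℓr 0 (by omega)).1 (hd1 0 (by omega)) hφ2 b4'
      exact_mod_cast h3)
    (fun i hi => by
      have h3 := loss_succ hc1 hσc hsr (hℓr (i + 1) hi).1 (hℓr i (by omega)).2
        (hd2 i (by omega)).le (hd1 (i + 1) hi) hφ2 hde0 (hd0 i (by omega)) hCc (hdes i hi) b4'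
      exact_mod_cast h3)
  refine ⟨B', fun ω h => hBA ω (k1 ω h), ?_, ?_⟩
  · calc Pe F.p A ≤ K₁ * Pe F.p B := hPe
      _ ≤ K₁ * (2 * Pe F.p B') := mul_le_mul_of_nonneg_left k2 hK₁.le
      _ = _ := by ring
  · have hE : ⌊e * J⌋₊ + c₀ * (L + s + 1) + C' ≤ ⌊(e + C * de (n - 1)) * J⌋₊ := by
      have he0 : 0 ≤ e := by
        have h1 : (0 : ℝ) ≤ Csl n n * vs 0 := mul_nonneg (Nat.cast_nonneg _) (hvs 0 h0Q)
        linarith
      exact grad_num hc1 hσc hsr hLr hde0 (hd0 (n - 1) (by omega)) hCc he0 b4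
    have h1 : ChN F c n (fun _ => D) ⌊a * J⌋₊ ⌊w * J⌋₊ ⌊(e + C * de (n - 1)) * J⌋₊
        (fun i => g N i - ℓ i) B' := by
      rw [haN, hoN] at k3
      exact ⟨_, _, k3.mono le_rfl (fun _ => le_rfl) le_rfl hE⟩
    refine Pool.CHT.ChN.congr h1 (fun _ _ => rfl) (fun l hl => ?_)
    have h2 := hx1 l hl
    rw [hℓ]
    show g N l - (g N l - ⌊(bet P c l a w - de l) * J⌋₊) = ⌊(bet P c l a w - de l) * J⌋₊
    omega

end CLO

end Pool.STAT
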