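import Pool.Agent.H2.GEN.Swp
import Pool.Agent.H2.GEN.IsoM
import Pool.Agent.H2.GEN.Lab2q

/-!
# Labels at one point with no relation

`PtD`: the data of a path of points which ends at `(a, w)`. `thin_labs`: at such a point, on one
event: a chain of the list with small exponents (`T`), for which there is no relation on large
subevents, and a chain with the target (`N`), both of universal degree.
-/

set_option autoImplicit false

namespace Pool.ISO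

open Finset Real MvPolynomial
open Pool.Agent.H49.Ent Pool.Agent.H32.Dense Pool.STK Pool.KA Pool.KSAT Pool.K2S Pool.PB Pool.S6C
open Pool.GEN Pool.CHT Pool.CHX
open Pool.LBT (LSys Slo Tri ThrOf fl_le' bas_false)
open Pool.LEV (Law)
open Pool.FLF (Fam.sub)
open Pool.JTN (TgP)

variable {m : ℕ}

/-! ### Events -/

/-- **A further statement** on the subevents. -/
theorem bas_then {S : PCl m} {Φ Θ : Stat m} {K₁ : ℝ} (hK : 0 < K₁)
    (h : Bas S (fun J F A => ∃ B : F.Ω → Prop, Sub B A ∧ Pe F.p A ≤ K₁ * Pe F.p B ∧ Φ J F B))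
    (h' : Bas S Θ) :
    Bas S (fun J F A => ∃ B : F.Ω → Prop, Sub B A ∧ Pe F.p A ≤ K₁ * Pe F.p B ∧ Φ J F B ∧
      Θ J F B) := by
  refine Bas.mono 0 (h.and (bas_ev h' (κ := 1 / K₁) (by positivity))) ?_
  rintro J - F A ⟨⟨B, h1, h2, h3⟩, h4⟩
  refine ⟨B, h1, h2, h3, h4 B h1 ?_⟩
  rw [one_div, inv_mul_le_iff₀ hK]
  exact h2

/-! ### The losses -/

/-- **A list of losses**, each one large against the ones before, below given bounds. -/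
theorem loss_ex (r : ℕ) {C : ℝ} (hC : 1 ≤ C) {ψ : ℕ → ℝ} (hψ : ∀ l ≤ r, 0 < ψ l) :
    ∃ d : ℕ → ℝ, 0 < d 0 ∧ (∀ l, C * d l < d (l + 1)) ∧ (∀ l, 0 < d l) ∧ ∀ l ≤ r, d l ≤ ψ l := by
  obtain ⟨μ, hμ, hμl⟩ := fin_pos (r + 1) (f := ψ) fun l hl => hψ l (by omega)
  obtain ⟨x, hx⟩ : ∃ x : ℝ, x = μ / (C + 1) ^ r := ⟨_, rfl⟩
  have hC1 : 1 ≤ C + 1 := by linarith
  have hCr : 0 < (C + 1) ^ r := by positivity
  have hx0 : 0 < x := by rw [hx]; positivity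
  refine ⟨fun l => (C + 1) ^ l * x, by simpa using hx0, fun l => ?_, fun l => by positivity,
    fun l hl => ?_⟩
  · show C * ((C + 1) ^ l * x) < (C + 1) ^ (l + 1) * x
    have h1 : 0 < (C + 1) ^ l * x := by positivity
    have e1 : (C + 1) ^ (l + 1) * x = C * ((C + 1) ^ l * x) + (C + 1) ^ l * x := by ring
    linarith
  · show (C + 1) ^ l * x ≤ ψ l
    have h1 : (C + 1) ^ l ≤ (C + 1) ^ r := pow_le_pow_right₀ hC1 hl
    have h2 : (C + 1) ^ l * x ≤ (C + 1) ^ r * x := mul_le_mul_of_nonneg_right h1 hx0.le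
    have h3 : (C + 1) ^ r * x = μ := by
      rw [hx]
      field_simp
    have h4 := hμl l (by omega)
    linarith

/-! ### The data of a point -/

/-- **The data of a path of points** `(a - κ, w - κ)`, `κ ∈ Q`, `κ ≤ ρ`, which ends at `(a, w)`:
chains with the target at all these points, and the growth of the levels is at most linear. -/
structure PtD {m : ℕ} (S : PCl m) (P : List (Fin m) × Fin m → ℝ → ℝ → ℝ) (θ : ℝ) (c : ℕ → Fin m)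
    (r : ℕ) (Pt : ℝ → ℝ → ℝ) (a w ρ : ℝ) (S₀ : ℕ) (vs e e₀ E sg : ℝ → ℝ) (Q : Set ℝ) : Prop where
  ρ0 : 0 < ρ
  ρw : ρ < w
  wa : w ≤ a
  a1 : a < 1
  q0 : (0 : ℝ) ∈ Q
  den : ∀ x y : ℝ, 0 ≤ x → x < y → y ≤ ρ → ∃ κ ∈ Q, x < κ ∧ κ < y
  pt : ∀ κ ∈ Q, 0 ≤ κ → κ ≤ ρ →
    PtN S P θ c r Pt (a - κ) (w - κ) (vs κ) (e κ) (e₀ κ) (E κ) (sg κ)
  grw : ∀ κ ∈ Q, 0 ≤ κ → κ ≤ ρ → ∀ l ≤ r,
    lvN P c r Pt l a w ≤ lvN P c r Pt l (a - κ) (w - κ) + S₀ * κ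
  sr : 2 ≤ S₀ * ρ

section

variable {S : PCl m} {P : List (Fin m) × Fin m → ℝ → ℝ → ℝ} {θ : ℝ} {c : ℕ → Fin m}
  {r : ℕ} {Pt : ℝ → ℝ → ℝ} {a w ρ : ℝ} {S₀ : ℕ} {vs e e₀ E sg : ℝ → ℝ} {Q : Set ℝ}

theorem PtD.w0 (h : PtD S P θ c r Pt a w ρ S₀ vs e e₀ E sg Q) : 0 < w := h.ρ0.trans h.ρw

theorem PtD.a0 (h : PtD S P θ c r Pt a w ρ S₀ vs e e₀ E sg Q) : 0 < a := h.w0.trans_le h.wa

theorem PtD.s1 (h : PtD S P θ c r Pt a w ρ S₀ vs e e₀ E sg Q) : 1 ≤ S₀ := by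
  by_contra hcon
  have h1 : S₀ = 0 := by omega
  have h2 := h.sr
  rw [h1, Nat.cast_zero, zero_mul] at h2
  linarith

theorem PtD.self (h : PtD S P θ c r Pt a w ρ S₀ vs e e₀ E sg Q) :
    PtN S P θ c r Pt a w (vs 0) (e 0) (e₀ 0) (E 0) (sg 0) := by
  have h1 := h.pt 0 h.q0 le_rfl h.ρ0.le
  rwa [sub_zero, sub_zero] at h1

theorem PtD.E0 (h : PtD S P θ c r Pt a w ρ S₀ vs e e₀ E sg Q) : 0 < E 0 := by
  have h1 := h.self
  have h2 : 0 ≤ (Csl r r : ℝ) * vs 0 := mul_nonneg (Nat.cast_nonneg _) h1.vs0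
  have h3 := h1.e1
  have h4 := h1.E1
  have h5 : 0 ≤ (e 0 + vs 0) * ((r : ℝ) + 1) :=
    mul_nonneg (by linarith [h1.vs0]) (by positivity)
  linarith

/-- The levels are at least the radius. -/
theorem PtD.low (h : PtD S P θ c r Pt a w ρ S₀ vs e e₀ E sg Q) (hP : ThrOf (chsys m θ) S P)
    (l : ℕ) : a ≤ lvN P c r Pt l a w := by
  unfold lvN
  split_ifs
  · exact hP.low _ _ _ h.w0.le h.wa h.a1.le
  · exact h.self.low

/-- The levels are less than one. -/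
theorem PtD.lt (h : PtD S P θ c r Pt a w ρ S₀ vs e e₀ E sg Q) (hθ : 0 < θ) (l : ℕ) :
    lvN P c r Pt l a w < 1 := by
  have h1 := h.self
  unfold lvN
  split_ifs with h2
  · have h3 := h1.pts.vis 0 one_pos l h2 l le_rfl
    have h4 : 0 < θ * w := mul_pos hθ h.w0
    have h5 : tau P c l l a w = bet P c l a w := rfl
    rw [h5] at h3
    linarith
  · exact h1.lt

end

/-- **The chains at one point.** -/
theorem thin_labs (r S₀ : ℕ) (hr : 1 ≤ r) (hS₀ : 1 ≤ S₀) : ∃ D : ℕ, 1 ≤ D ∧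
    ∀ {m : ℕ} {S : PCl m} {P : List (Fin m) × Fin m → ℝ → ℝ → ℝ} {θ : ℝ} {c : ℕ → Fin m}
    {Pt : ℝ → ℝ → ℝ} {a w ρ : ℝ} {vs e e₀ E sg : ℝ → ℝ} {Q : Set ℝ}, ThrOf (chsys m θ) S P →
    0 < θ → TmH S → Set.InjOn c (Set.Iio (r + 1)) → Law Pt →
    PtD S P θ c r Pt a w ρ S₀ vs e e₀ E sg Q → ∀ (Dr : ℕ) (η σ : ℝ), 0 < η → 0 < σ →
    ∃ (K₁ : ℝ) (dT dN : ℕ → ℝ), 0 < K₁ ∧ (∀ l < r, 0 < dT l ∧ dT l ≤ σ ∧ dT l < a) ∧
      (∀ l ≤ r, 0 < dN l ∧ dN l ≤ σ ∧ dN l < a) ∧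
      Bas S (fun J F A => ∃ B : F.Ω → Prop, Sub B A ∧ Pe F.p A ≤ K₁ * Pe F.p B ∧
        Chn c r (fun _ => D) a w (e₀ 0) (fun l => bet P c l a w - dT l) J F B ∧
        Chn c (r + 1) (fun _ => D) a w (E 0 + σ) (fun l => lvN P c r Pt l a w - dN l) J F B) ∧
      ∀ κ κ₁ : ℝ, 0 < κ → 0 < κ₁ → Bas S (fun J F A => ∀ (B : F.Ω → Prop)
        (T : PtT F → ℕ → MvPolynomial (Option (Fin m)) ℝ)
        (TH : LnT F → ℕ → MvPolynomial (Option (Fin m)) ℝ), Sub B A →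
        κ₁ * Pe F.p A ≤ Pe F.p B →
        ChOK F c r (fun _ => D) ⌊a * J⌋₊ ⌊w * J⌋₊ ⌊e₀ 0 * J⌋₊
          (fun l => ⌊(bet P c l a w - dT l) * J⌋₊) B T TH →
        RelvF F c r ⌊a * J⌋₊ ⌊w * J⌋₊ (fun l => ⌊(bet P c l a w - dT l) * J⌋₊) Dr ⌊η * J⌋₊ κ B
          T) := by
  obtain ⟨D₁, C₁, hC₁, hT⟩ := Pool.STAT.CLO.lab2q r S₀ hr hS₀
  obtain ⟨D₂, C₂, hC₂, hN⟩ := labN r S₀ hS₀
  obtain ⟨D, hD⟩ : ∃ D, D = max (max D₁ D₂) 1 := ⟨_, rfl⟩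
  have hD1 : D₁ ≤ D := by rw [hD]; exact (le_max_left _ _).trans (le_max_left _ _)
  have hD2 : D₂ ≤ D := by rw [hD]; exact (le_max_right _ _).trans (le_max_left _ _)
  refine ⟨D, by rw [hD]; exact le_max_right _ _, ?_⟩
  intro m S P θ c Pt a w ρ vs e e₀ E sg Q hP hθ hS hinj hPt hd Dr η σ hη hσ
  have hinj' : Set.InjOn c (Set.Iio r) := hinj.mono fun x hx => lt_trans hx (Nat.lt_succ_self r)
  have h0 := hd.self
  have ha0 := hd.a0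
  have hρ := hd.ρ0
  have hρw := hd.ρw
  obtain ⟨φ, hφ, hrel⟩ := h0.pts.rel 0 one_pos Dr η hη
  -- the losses
  obtain ⟨em, hem⟩ : ∃ em : ℝ, em = (Csl r r * vs 0 + e 0) / 2 := ⟨_, rfl⟩
  have hem1 : Csl r r * vs 0 < em := by rw [hem]; linarith [h0.e1]
  have hem2 : em < e 0 := by rw [hem]; linarith [h0.e1]
  obtain ⟨dT, dT0, dT1, dT2, dT3⟩ := loss_ex r hC₁ (ψ := fun l => min (min (σ) (a / 2))
    (min ((e 0 - em) / C₁) (φ l (∑ l' ∈ Finset.Ioo l r, D)))) fun l _ =>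
      lt_min (lt_min hσ (by positivity)) (lt_min (div_pos (by linarith) (by linarith)) (hφ _ _))
  obtain ⟨dN, dN0, dN1, dN2, dN3⟩ := loss_ex r hC₂ (ψ := fun _ => min (min (σ) (a / 2))
    (σ / C₂)) fun l _ => lt_min (lt_min hσ (by positivity)) (div_pos hσ (by linarith))
  have t1 : ∀ l ≤ r, dT l ≤ σ := fun l hl =>
    (dT3 l hl).trans ((min_le_left _ _).trans (min_le_left _ _))
  have t2 : ∀ l ≤ r, dT l < a := fun l hl => by
    have := (dT3 l hl).trans ((min_le_left _ _).trans (min_le_right _ _))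
    linarith
  have t3 : ∀ l ≤ r, C₁ * dT l ≤ e 0 - em := fun l hl => by
    have := (dT3 l hl).trans ((min_le_right _ _).trans (min_le_left _ _))
    rw [le_div_iff₀ (by linarith)] at this
    linarith
  have t4 : ∀ l ≤ r, dT l ≤ φ l (∑ l' ∈ Finset.Ioo l r, D) := fun l hl =>
    (dT3 l hl).trans ((min_le_right _ _).trans (min_le_right _ _))
  have n1 : ∀ l ≤ r, dN l ≤ σ := fun l hl =>
    (dN3 l hl).trans ((min_le_left _ _).trans (min_le_left _ _))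
  have n2 : ∀ l ≤ r, dN l < a := fun l hl => by
    have := (dN3 l hl).trans ((min_le_left _ _).trans (min_le_right _ _))
    linarith
  have n3 : ∀ l ≤ r, C₂ * dN l ≤ σ := fun l hl => by
    have := (dN3 l hl).trans (min_le_right _ _)
    rw [le_div_iff₀ (by linarith)] at this
    linarith
  -- the two chains
  obtain ⟨K₁, hK₁, hbT⟩ := hT (Sc := S) (P := P) (θ := θ) (c := c) (a := a) (w := w)
    (v := w - ρ) (ε := 0) (vs := vs) (e₀ := e₀) (Q := {κ | κ ∈ Q ∧ 0 ≤ κ ∧ κ ≤ ρ}) hP hθ hS hinj'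
    (by linarith) (by linarith) hd.wa hd.a1 (fun κ hκ => (hd.pt κ hκ.1 hκ.2.1 hκ.2.2).vs0) le_rfl
    ⟨hd.q0, le_rfl, hρ.le⟩
    (fun x y h1 h2 h3 => by
      rw [sub_sub_cancel] at h3
      obtain ⟨κ, k1, k2, k3⟩ := hd.den x y h1 h2 h3
      exact ⟨κ, ⟨k1, by linarith, by linarith⟩, k2, k3⟩)
    (fun κ hκ _ _ => by
      have h1 := hd.pt κ hκ.1 hκ.2.1 hκ.2.2
      refine ⟨h1.pts, lt_of_lt_of_le h1.e1 h1.e2, fun l hl => ?_⟩
      have h2 := hd.grw κ hκ.1 hκ.2.1 hκ.2.2 l hl.le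
      unfold lvN at h2
      rw [if_pos hl, if_pos hl] at h2
      linarith)
    (by rw [sub_sub_cancel]; exact hd.sr) dT dT0 (by rw [mul_zero]; exact dT0)
    (fun l _ => dT1 l) (fun l hl => t2 l hl.le) em hem1 (hem2.le.trans h0.e2)
  obtain ⟨K₂, hK₂, hbN⟩ := hN (Sc := S) (P := P) (θ := θ) (c := c) (Pt := Pt) (a := a) (w := w)
    (v := w - ρ) (ε := 0) (vs := vs) (e := e) (e₀ := e₀) (E := E) (sg := sg)
    (Q := {κ | κ ∈ Q ∧ 0 ≤ κ ∧ κ ≤ ρ}) hP hθ hS hinj hPt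
    (by linarith) (by linarith) hd.wa hd.a1 le_rfl ⟨hd.q0, le_rfl, hρ.le⟩
    (fun x y h1 h2 h3 => by
      rw [sub_sub_cancel] at h3
      obtain ⟨κ, k1, k2, k3⟩ := hd.den x y h1 h2 h3
      exact ⟨κ, ⟨k1, by linarith, by linarith⟩, k2, k3⟩)
    (fun κ hκ _ _ => ⟨hd.pt κ hκ.1 hκ.2.1 hκ.2.2, fun l hl => by
      have h2 := hd.grw κ hκ.1 hκ.2.1 hκ.2.2 l hl
      linarith⟩)
    (by rw [sub_sub_cancel]; exact hd.sr) dN dN0 (by rw [mul_zero]; exact dN0)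
    (fun l _ => dN1 l) (fun l hl => n2 l hl)
  refine ⟨K₁ * K₂, dT, dN, mul_pos hK₁ hK₂, fun l hl => ⟨dT2 l, t1 l hl.le, t2 l hl.le⟩,
    fun l hl => ⟨dN2 l, n1 l hl, n2 l hl⟩, ?_, fun κ κ₁ hκ hκ₁ => ?_⟩
  · refine Bas.mono 0 (bas_then hK₁ hbT hbN) ?_
    rintro J - F A ⟨B, h1, h2, h3, B', h4, h5, h6⟩
    have hJ0 : (0 : ℝ) ≤ J := Nat.cast_nonneg J
    refine ⟨B', fun ω hω => h1 ω (h4 ω hω), ?_, ?_, ?_⟩
    · calc Pe F.p A ≤ K₁ * Pe F.p B := h2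
        _ ≤ K₁ * (K₂ * Pe F.p B') := mul_le_mul_of_nonneg_left h5 hK₁.le
        _ = _ := by ring
    · obtain ⟨G, H, h7⟩ := h3
      refine ⟨G, H, (h7.mono le_rfl (fun _ => hD1) le_rfl ?_).sub h4⟩
      refine Nat.floor_le_floor (mul_le_mul_of_nonneg_right ?_ hJ0)
      have := t3 (r - 1) (by omega)
      linarith [h0.e2]
    · obtain ⟨G, H, h7⟩ := h6
      refine ⟨G, H, h7.mono le_rfl (fun _ => hD2) le_rfl ?_⟩
      refine Nat.floor_le_floor (mul_le_mul_of_nonneg_right ?_ hJ0)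
      have := n3 r le_rfl
      linarith
  · have h1 : Hie φ r (fun _ => D) dT := fun l hl => ⟨dT2 l, t4 l hl.le⟩
    have h2 := relvF_of (hrel r le_rfl (fun _ => D) dT h1 (1 / 2) (by norm_num)) hκ hκ₁
    refine Bas.mono 0 h2 ?_
    rintro J - F A hA B T TH hB hP' hL
    exact hA B T TH _ hB hP' le_rfl hL

end Pool.ISO
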