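import Pool.Agent.H2.GEN.EvL

/-!
# Labels over the natural boxes of one ball, rough lists

`EvR`: a ball chart at the window `w`, re-centred at several radii, a label of the target which is
two-sided over the natural boxes of the re-centred chart at the radius `w + v`, and no relation over
these boxes. `ev_rough`: at a point `(w + q, w)` where the levels of the list are the levels at
`(w, w)` plus `q`, from the data of paths which end at `(w, w)` and at `(w + q, w)`.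
-/

set_option autoImplicit false

namespace Pool.ISO

open Finset Real MvPolynomial
open Pool.Agent.H49.Ent Pool.Agent.H32.Dense Pool.STK Pool.KA Pool.KSAT Pool.K2S Pool.PB Pool.S6C
open Pool.GEN Pool.CHT Pool.CHX
open Pool.LBT (LSys Slo Tri ThrOf fl_le' bas_false)
open Pool.LEV (Law)
open Pool.FLF (Fam.sub)
open Pool.JTN (TgP)

/-- **One ball, re-centred, and a label over its natural boxes.** -/
structure EvR {m J : ℕ} (F : Fam m J) (c : ℕ → Fin m) (r D Dr w' v M : ℕ) (z : ℕ → ℕ)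
    (e h p : ℕ) (g : ℕ → ℕ) (κ : ℝ) (lo hi : ℕ → ℝ) (B : F.Ω → Prop) (g₀ : ℕ → ℕ)
    (G₀ : PtT F → ℕ → MvPolynomial (Option (Fin m)) ℝ)
    (H₀ : LnT F → ℕ → MvPolynomial (Option (Fin m)) ℝ)
    (Gt : PtT F → MvPolynomial (Option (Fin m)) ℝ)
    (Ht : LnT F → MvPolynomial (Option (Fin m)) ℝ) : Prop where
  sd : ∀ l ≤ r, lo l ≤ g₀ l ∧ (g₀ l : ℝ) ≤ hi l
  ball : ChOK F c (r + 1) (fun _ => D) w' w' e g₀ B G₀ H₀
  rad : ∀ i ≤ M, ChOK F c (r + 1) (fun _ => D) (w' + z i) w' e (fun l => g l + z i) B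
    (fun y l => Gno (c l) J J (fun y => G₀ y l) y) (fun s l => Hno (c l) (fun s => H₀ s l) s)
  top : ChOK F c (r + 1) (fun _ => D) (w' + v) w' e (fun l => g l + v) B
    (fun y l => Gno (c l) J J (fun y => G₀ y l) y) (fun s l => Hno (c l) (fun s => H₀ s l) s)
  near : ∀ ω, B ω → ∀ l ≤ r, ∀ b : Option (Fin m) → ℝ,
    |eval b (Gno (c l) J J (fun y => G₀ y l) (ptr F J ω)) - eval b (G₀ (ptr F J ω) l)| ≤
      2 / 2 ^ g₀ l
  dG : ∀ y, (Gt y).totalDegree ≤ D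
  dH : ∀ s, (Ht s).totalDegree ≤ D
  pG : ∀ y, DepC c r (Gt y)
  pH : ∀ s, DepC c r (Ht s)
  pos : ∀ ω, B ω → |F.x ω (c r) - eval (bt F ω) (Gt (ptr F J ω))| ≤ 1 / 2 ^ p
  agr : ∀ ω, B ω → ∀ b, NBx c (fun l => Gno (c l) J J (fun y => G₀ y l) (ptr F J ω))
    (fun l => g l + v) (w' + v) (F.t ω) r b →
    |eval b (Gt (ptr F J ω)) - eval b (Ht (slam F w' ω))| ≤ 1 / 2 ^ p
  rel : RelvF F c r (w' + v) w' (fun l => g l + v) Dr h κ B
    (fun y l => Gno (c l) J J (fun y => G₀ y l) y)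

/-- **Labels over the natural boxes of one ball**, for rough lists. -/
theorem ev_rough (m r S₀ : ℕ) (hr : 1 ≤ r) (hS₀ : 1 ≤ S₀) : ∃ D : ℕ, 1 ≤ D ∧ ∀ Dr : ℕ, ∃ C : ℝ,
    1 ≤ C ∧ ∀ {S : PCl m} {P : List (Fin m) × Fin m → ℝ → ℝ → ℝ} {θ : ℝ} {c : ℕ → Fin m}
    {Pt : ℝ → ℝ → ℝ} {w q ρ ρ' ε : ℝ} {vs e e₀ E sg vs' e' e₀' E' sg' : ℝ → ℝ} {Q Q' : Set ℝ},
    ThrOf (chsys m θ) S P → 0 < θ → TmH S → Set.InjOn c (Set.Iio (r + 1)) → Law Pt → 0 < q →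
    PtD S P θ c r Pt w w ρ S₀ vs e e₀ E sg Q →
    PtD S P θ c r Pt (w + q) w ρ' S₀ vs' e' e₀' E' sg' Q' → 0 ≤ ε →
    (∀ l < r, bet P c l (w + q) w ≤ bet P c l w w + q + ε) →
    (∀ l ≤ r, lvN P c r Pt l w w + E 0 + q < 1) → ∀ p' : ℝ, 0 ≤ p' →
    p' + C * ε < Pt (w + q) w → ∀ (η σ r₀ : ℝ) (M : ℕ), C * ε < η → 0 < σ → 0 < r₀ →
    ∃ (K₁ μ : ℝ) (b : ℕ → ℝ), 0 < K₁ ∧ 0 < μ ∧
      (∀ l ≤ r, lvN P c r Pt l w w - σ < b l ∧ b l < lvN P c r Pt l w w - μ) ∧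
      ∀ κ : ℝ, 0 < κ → Bas S (fun J F A => ∀ z : ℕ → ℕ,
        (∀ i ≤ M, r₀ * J ≤ z i ∧ z i ≤ ⌊(w + q) * J⌋₊ - ⌊w * J⌋₊) →
        ∃ (B : F.Ω → Prop) (g₀ : ℕ → ℕ) (G₀ : PtT F → ℕ → MvPolynomial (Option (Fin m)) ℝ)
          (H₀ : LnT F → ℕ → MvPolynomial (Option (Fin m)) ℝ)
          (Gt : PtT F → MvPolynomial (Option (Fin m)) ℝ)
          (Ht : LnT F → MvPolynomial (Option (Fin m)) ℝ), Sub B A ∧
          Pe F.p A ≤ K₁ * Pe F.p B ∧
          EvR F c r D Dr ⌊w * J⌋₊ (⌊(w + q) * J⌋₊ - ⌊w * J⌋₊) M z ⌊(E 0 + σ) * J⌋₊ ⌊η * J⌋₊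
            ⌊p' * J⌋₊ (fun l => ⌊b l * J⌋₊) κ (fun l => (lvN P c r Pt l w w - σ) * J)
            (fun l => lvN P c r Pt l w w * J) B g₀ G₀ H₀ Gt Ht) := by
  obtain ⟨D₁, hD₁, hthin⟩ := thin_labs r S₀ hr hS₀
  obtain ⟨D₂, C₂, hD₂, hC₂, hiso⟩ := iso_ptM m r S₀ hS₀
  obtain ⟨D, hD⟩ : ∃ D, D = max D₁ D₂ := ⟨_, rfl⟩
  have hDD1 : D₁ ≤ D := by rw [hD]; exact le_max_left _ _
  have hDD2 : D₂ ≤ D := by rw [hD]; exact le_max_right _ _
  refine ⟨D, hD₁.trans hDD1, fun Dr => ?_⟩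
  obtain ⟨C₃, h3c⟩ := three_chains D Dr r (hD₁.trans hDD1)
  have hC₃0 : (0 : ℝ) ≤ C₃ := Nat.cast_nonneg _
  refine ⟨C₃ + 1, by linarith, ?_⟩
  intro S P θ c Pt w q ρ ρ' ε vs e e₀ E sg vs' e' e₀' E' sg' Q Q' hP hθ hS hinj hPt hq hdw hda hε
    hrough htop p' hp' hpP η σ r₀ M hη hσ hr₀
  have hinj' : Set.InjOn c (Set.Iio r) := hinj.mono fun x hx => lt_trans hx (Nat.lt_succ_self r)
  have hw0 := hdw.w0
  have hw1 : w < 1 := hdw.a1
  have ha1 : w + q < 1 := hda.a1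
  -- the constants
  obtain ⟨s₂, hs₂, hs₂l⟩ := fin_pos (r + 1)
    (f := fun l => 1 - (lvN P c r Pt l w w + E 0 + q)) fun l hl => by
      have := htop l (by omega)
      linarith
  obtain ⟨δ, hδ⟩ : ∃ δ : ℝ, δ = min η (Pt (w + q) w - p') - C₃ * ε := ⟨_, rfl⟩
  have hδ0 : 0 < δ := by
    rw [hδ]
    have h1 : C₃ * ε < η := by nlinarith
    have h2 : C₃ * ε < Pt (w + q) w - p' := by nlinarith
    have := lt_min h1 h2
    linarith
  have hδη : δ + C₃ * ε ≤ η := by rw [hδ]; linarith [min_le_left η (Pt (w + q) w - p')]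
  have hδP : δ + C₃ * ε ≤ Pt (w + q) w - p' := by
    rw [hδ]; linarith [min_le_right η (Pt (w + q) w - p')]
  obtain ⟨x, hx⟩ : ∃ x : ℝ, x = min (min σ (w / 2)) (min (s₂ / 2) (δ / (2 * C₃ + 2))) := ⟨_, rfl⟩
  have hx0 : 0 < x := by
    rw [hx]
    exact lt_min (lt_min hσ (by linarith)) (lt_min (by linarith) (by positivity))
  have hxσ : x ≤ σ := by rw [hx]; exact (min_le_left _ _).trans (min_le_left _ _)
  have hxw : x < w := by
    have : x ≤ w / 2 := by rw [hx]; exact (min_le_left _ _).trans (min_le_right _ _)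
    linarith
  have hxs : x ≤ s₂ / 2 := by rw [hx]; exact (min_le_right _ _).trans (min_le_left _ _)
  have hxδ : x * (2 * C₃ + 2) ≤ δ := by
    have h1 : x ≤ δ / (2 * C₃ + 2) := by rw [hx]; exact (min_le_right _ _).trans (min_le_right _ _)
    rwa [le_div_iff₀ (by positivity)] at h1
  -- the two events
  obtain ⟨K₁, dT, dN, hK₁, hdT, hdN, hbT, hbR⟩ := hthin hP hθ hS hinj hPt hda (max D Dr) x x hx0 hx0
  obtain ⟨K₂, μ, b, hK₂, hμ, hb, hbI⟩ := hiso (v := w - ρ) (ε := 0) hP hθ hS hinj hPt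
    (by linarith [hdw.ρw]) (by linarith [hdw.ρ0]) hw1 le_rfl hdw.q0
    (fun x y h1 h2 h3 => hdw.den x y h1 h2 (by linarith)) (fun κ h1 h2 h3 =>
      ⟨hdw.pt κ h1 h2 (by linarith), fun l hl => by
        have := hdw.grw κ h1 h2 (by linarith) l hl
        linarith⟩) (by rw [sub_sub_cancel]; exact hdw.sr) x hx0 (by rw [mul_zero]; exact hx0) hxw
    ((w + 1) / 2) r₀ (by linarith) (by linarith) hr₀ (M + 1)
  refine ⟨K₁ * K₂ * 4 ^ r, μ, b, by positivity, hμ, fun l hl =>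
    ⟨by linarith [(hb l hl).1], (hb l hl).2⟩, fun κ hκ => ?_⟩
  have h4 : (0 : ℝ) < 4 ^ r := by positivity
  obtain ⟨κT, hκT⟩ : ∃ κT : ℝ, κT = min κ (1 / 2) / 4 ^ r := ⟨_, rfl⟩
  have hκT0 : 0 < κT := by
    rw [hκT]
    exact div_pos (lt_min hκ (by norm_num)) h4
  have hκTe : κT * 4 ^ r = min κ (1 / 2) := by
    rw [hκT]
    field_simp
  have hκT1 : κT * 4 ^ r ≤ κ := by
    rw [hκTe]
    exact min_le_left _ _
  have hκT2 : κT * (2 * 4 ^ r) ≤ 1 := by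
    have h1 : κT * (2 * 4 ^ r) = 2 * (κT * 4 ^ r) := by ring
    rw [h1, hκTe]
    linarith [min_le_right κ (1 / 2 : ℝ)]
  have hrel := hbR κT (1 / (K₁ * K₂)) hκT0 (by positivity)
  obtain ⟨J₁, hJ₁⟩ := big 1 hμ
  obtain ⟨J₂, hJ₂⟩ := big (4 * C₃ + 2 : ℝ) hx0
  obtain ⟨J₃, hJ₃⟩ := big 1 (show 0 < s₂ / 2 by linarith)
  refine Bas.mono (max J₁ (max J₂ J₃)) ((bas_then hK₁ hbT hbI).and hrel) ?_
  rintro J hJ F A ⟨⟨B₁, h1, h2, ⟨⟨T, TH, hT⟩, ⟨N, NH, hN⟩⟩, hI⟩, hR⟩ z hz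
  have hJμ : 1 ≤ μ * J := hJ₁ J ((le_max_left _ _).trans hJ)
  have hJx : 4 * C₃ + 2 ≤ x * J := hJ₂ J ((le_max_left _ _).trans ((le_max_right _ _).trans hJ))
  have hJs : 1 ≤ s₂ / 2 * J := hJ₃ J ((le_max_right _ _).trans ((le_max_right _ _).trans hJ))
  have hJ0 : (0 : ℝ) ≤ J := Nat.cast_nonneg J
  have hp := Pe_nonneg F.isLaw
  -- the radius
  obtain ⟨v, hv⟩ : ∃ v, ⌊(w + q) * J⌋₊ = ⌊w * J⌋₊ + v :=
    Nat.exists_eq_add_of_le (Nat.floor_le_floor (mul_le_mul_of_nonneg_right (by linarith) hJ0))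
  obtain ⟨w', hw'⟩ : ∃ w' : ℕ, w' = ⌊w * J⌋₊ := ⟨_, rfl⟩
  have hw'1 : (w' : ℝ) ≤ w * J := by rw [hw']; exact Nat.floor_le (by positivity)
  have hw'2 : w * J < w' + 1 := by rw [hw']; exact Nat.lt_floor_add_one _
  rw [← hw'] at hv
  have hv1 : (v : ℝ) ≤ q * J + 1 := by
    have h5 : ((w' + v : ℕ) : ℝ) ≤ (w + q) * J := by
      rw [← hv]
      exact Nat.floor_le (by positivity)
    push_cast at h5
    linarith
  have hv2 : q * J - 1 ≤ v := by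
    have h5 : (w + q) * J < ((w' + v : ℕ) : ℝ) + 1 := by
      rw [← hv]
      exact Nat.lt_floor_add_one _
    push_cast at h5
    linarith
  rw [← hw', hv] at hT hN
  rw [← hw'] at hz ⊢
  rw [hv, Nat.add_sub_cancel_left] at hz ⊢
  -- the levels
  have hlvl : ∀ l < r, lvN P c r Pt l w w = bet P c l w w := fun l hl => if_pos hl
  have hlvr : lvN P c r Pt r (w + q) w = Pt (w + q) w := if_neg (lt_irrefl r)
  have hlow : ∀ l ≤ r, w ≤ lvN P c r Pt l w w := fun l _ => hdw.low hP l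
  have hb0 : ∀ l ≤ r, 0 < b l := fun l hl => by
    have := hlow l hl
    linarith [(hb l hl).1]
  -- the ball
  obtain ⟨z', hz'⟩ : ∃ z' : ℕ → ℕ, z' = fun i => if i ≤ M then z i else v := ⟨_, rfl⟩
  have hz1 : ∀ i ≤ M, z' i = z i := fun i hi => by rw [hz']; exact if_pos hi
  have hz2 : z' (M + 1) = v := by rw [hz']; exact if_neg (by omega)
  have hz3 : ∀ i ≤ M + 1, r₀ * J ≤ z' i ∧ z' i ≤ v := by
    intro i hi
    rcases Nat.lt_or_ge M i with h5 | h5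
    · have h6 : i = M + 1 := by omega
      rw [h6, hz2]
      refine ⟨?_, le_rfl⟩
      obtain ⟨h7, h8⟩ := hz 0 (Nat.zero_le _)
      exact h7.trans (by exact_mod_cast h8)
    · rw [hz1 i h5]
      exact hz i h5
  have hfl : ∀ l ≤ r, (⌊b l * J⌋₊ : ℝ) ≤ b l * J ∧ b l * J < ⌊b l * J⌋₊ + 1 := fun l hl =>
    ⟨Nat.floor_le (mul_nonneg (hb0 l hl).le hJ0), Nat.lt_floor_add_one _⟩
  obtain ⟨B₂, g₀, G₀, H₀, l1, l2, l3, l4, l5, l6⟩ := hI w' (fun i => w' + z' i)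
    (fun i l => ⌊b l * J⌋₊ + z' i) (by rw [hw']) (hw'1.trans (mul_le_mul_of_nonneg_right
      (by linarith) hJ0)) (fun i hi => by
        push_cast
        linarith [(hz3 i hi).1]) (fun i hi l hl => by
        push_cast
        linarith [(hfl l hl).1]) (fun i hi l hl => by
        push_cast
        linarith [(hfl l hl).2]) (fun i hi l hl => by
        push_cast
        have h5 : (z' i : ℝ) ≤ v := by exact_mod_cast (hz3 i hi).2
        have h6 := mul_le_mul_of_nonneg_right (hs₂l l (by omega)) hJ0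
        have h7 := mul_le_mul_of_nonneg_right hxs hJ0
        linarith)
  -- the three chains
  have hPA : 1 / (K₁ * K₂) * Pe F.p A ≤ Pe F.p B₂ := by
    rw [one_div, inv_mul_le_iff₀ (by positivity)]
    calc Pe F.p A ≤ K₁ * Pe F.p B₁ := h2
      _ ≤ K₁ * (K₂ * Pe F.p B₂) := mul_le_mul_of_nonneg_left l2 hK₁.le
      _ = _ := by ring
  rw [← hw', hv] at hR
  have hRT := hR B₂ T TH (fun ω hω => h1 ω (l1 ω hω)) hPA (hT.sub l1)
  have htop' := l5 (M + 1) le_rfl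
  simp only [hz2] at htop'
  obtain ⟨q₃, hq₃⟩ : ∃ q₃, q₃ = ⌊(x + ε) * J⌋₊ + 3 := ⟨_, rfl⟩
  have hq₃1 : (q₃ : ℝ) ≤ (x + ε) * J + 3 := by
    rw [hq₃]
    push_cast
    have := Nat.floor_le (show 0 ≤ (x + ε) * J by positivity)
    linarith
  have hq₃2 : (x + ε) * J + 2 ≤ q₃ := by
    rw [hq₃]
    push_cast
    have := Nat.lt_floor_add_one ((x + ε) * J)
    linarith
  have hxJ : (⌊x * J⌋₊ : ℝ) ≤ x * J := Nat.floor_le (by positivity)
  obtain ⟨B₃, m1, m2, -, m4, m5⟩ := h3c (q := q₃) (κ := κ) hinj' hRT hκ.le hκT1 hκT2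
    ((hT.sub l1).mono le_rfl (fun _ => hDD1) le_rfl le_rfl)
    ((hN.sub l1).mono le_rfl (fun _ => hDD1) le_rfl le_rfl)
    (htop'.mono le_rfl (fun _ => hDD2) le_rfl le_rfl) (fun l hl => by
      have h5 := hrough l hl
      have h6 := (hb l hl.le).1
      rw [hlvl l hl] at h6
      have h7 := (hfl l hl.le).2
      have h8 := (hdT l hl).1
      have h9 : w + q ≤ bet P c l (w + q) w := hP.low _ _ _ hw0.le (by linarith) ha1.le
      have h10 : (⌊(bet P c l (w + q) w - dT l) * J⌋₊ : ℝ) ≤ (bet P c l (w + q) w - dT l) * J :=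
        Nat.floor_le (mul_nonneg (by linarith [(hdT l hl).2.2]) hJ0)
      have h11 : (bet P c l (w + q) w - dT l) * J ≤ (b l + x + q + ε) * J :=
        mul_le_mul_of_nonneg_right (by linarith) hJ0
      have h12 : (⌊(bet P c l (w + q) w - dT l) * J⌋₊ : ℝ) ≤ ((⌊b l * J⌋₊ + v + q₃ : ℕ) : ℝ) := by
        push_cast
        linarith
      exact_mod_cast h12)
  obtain ⟨Z, hZ⟩ : ∃ Z, Z = C₃ * (⌊x * J⌋₊ + q₃ + 1) := ⟨_, rfl⟩
  rw [← hZ] at m4 m5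
  have hZ1 : (Z : ℝ) ≤ C₃ * ((2 * x + ε) * J) + 4 * C₃ := by
    rw [hZ]
    push_cast
    have h5 : (⌊x * J⌋₊ : ℝ) + q₃ + 1 ≤ (2 * x + ε) * J + 4 := by linarith
    calc (C₃ : ℝ) * (⌊x * J⌋₊ + q₃ + 1) ≤ C₃ * ((2 * x + ε) * J + 4) :=
          mul_le_mul_of_nonneg_left h5 hC₃0
      _ = _ := by ring
  have hδJ : (x * (2 * C₃ + 2) + C₃ * ε) * J ≤ (δ + C₃ * ε) * J :=
    mul_le_mul_of_nonneg_right (by linarith) hJ0
  have hZη : Z ≤ ⌊η * J⌋₊ := by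
    refine Nat.le_floor ?_
    have h5 := mul_le_mul_of_nonneg_right hδη hJ0
    linarith
  obtain ⟨gN, hgN⟩ : ∃ gN : ℕ, gN = ⌊(lvN P c r Pt r (w + q) w - dN r) * J⌋₊ := ⟨_, rfl⟩
  have hZp : Z + ⌊p' * J⌋₊ ≤ gN := by
    rw [hgN, hlvr]
    refine Nat.le_floor ?_
    push_cast
    have h5 := mul_le_mul_of_nonneg_right hδP hJ0
    have h6 : (⌊p' * J⌋₊ : ℝ) ≤ p' * J := Nat.floor_le (by positivity)
    have h7 := mul_le_mul_of_nonneg_right (hdN r le_rfl).2.1 hJ0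
    linarith
  have hdiv : ∀ {y n k : ℕ}, y + k ≤ n → (2 : ℝ) ^ y / 2 ^ n ≤ 1 / 2 ^ k := fun {y n k} h => by
    rw [div_le_div_iff₀ (by positivity) (by positivity), one_mul, ← pow_add]
    exact pow_le_pow_right₀ (by norm_num) h
  have hE : ⌊(E 0 + x) * J⌋₊ ≤ ⌊(E 0 + σ) * J⌋₊ :=
    Nat.floor_le_floor (mul_le_mul_of_nonneg_right (by linarith) hJ0)
  refine ⟨B₃, g₀, G₀, H₀, fun y => N y r, fun s => NH s r,
    fun ω hω => h1 ω (l1 ω (m1 ω hω)), ?_, ?_⟩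
  · calc Pe F.p A ≤ K₁ * Pe F.p B₁ := h2
      _ ≤ K₁ * (K₂ * Pe F.p B₂) := mul_le_mul_of_nonneg_left l2 hK₁.le
      _ ≤ K₁ * (K₂ * (4 ^ r * Pe F.p B₃)) :=
          mul_le_mul_of_nonneg_left (mul_le_mul_of_nonneg_left m2 hK₂.le) hK₁.le
      _ = _ := by ring
  · refine ⟨fun l hl => ⟨(mul_le_mul_of_nonneg_right (by linarith) hJ0).trans (l3 l hl).1,
      (l3 l hl).2⟩, (l4.sub m1).mono le_rfl (fun _ => hDD2) le_rfl hE, fun i hi => ?_,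
      (htop'.sub m1).mono le_rfl (fun _ => hDD2) le_rfl hE, fun ω hω => l6 ω (m1 ω hω),
      fun y => (hN.degG y r).trans hDD1, fun s => (hN.degH s r).trans hDD1, fun y => hN.depG y r,
      fun s => hN.depH s r, fun ω hω => ?_, fun ω hω b hb => ?_, relvF_exp m5 hZη⟩
    · have h5 := l5 i (by omega)
      simp only [hz1 i hi] at h5
      exact (h5.sub m1).mono le_rfl (fun _ => hDD2) le_rfl hE
    · refine (hN.pos ω (l1 ω (m1 ω hω)) r (Nat.lt_succ_self r)).trans ?_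
      show 1 / 2 ^ ⌊(lvN P c r Pt r (w + q) w - dN r) * J⌋₊ ≤ _
      rw [← hgN]
      have h5 := hdiv (y := 0) (n := gN) (k := ⌊p' * J⌋₊) (by omega)
      rw [pow_zero] at h5
      exact h5
    · refine (m4 ω hω b hb).trans ?_
      show 2 ^ Z / 2 ^ ⌊(lvN P c r Pt r (w + q) w - dN r) * J⌋₊ ≤ _
      rw [← hgN]
      exact hdiv hZp

end Pool.ISO
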