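import Pool.Agent.H78.MIC.Win
import Pool.Agent.H90.ISO.StA
import Pool.Agent.H9.GEN.PBk

/-!
# Chains with gain near a window

`PkT.gnW_ae`: near almost every good window where the coordinates before `l` are thin and the
coordinate `l` is static of slope at least two there is a chain with gain of the coordinate `l`, of a
class which does not depend on the scale.
-/

set_option autoImplicit false

namespace Pool.PKG

open MeasureTheory Set Filter Topology
open Pool.Agent.H49.Ent Pool.Agent.H32.Dense Pool.STK Pool.KA Pool.KSAT Pool.K2S Pool.PB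
open Pool.GEN Pool.S6C Pool.STAT Pool.CHT Pool.GRW Pool.ONE Pool.STA
open Pool.LBT (LSys ThrOf)
open Pool.LEV (Law)
open Pool.TOP (TopS)
open Pool.RTS (iso Diag)
open Pool.STR (ThinAt SteepAt StaAt StaD)
open Pool.ISO (PtD lvN)
open Pool.Z3 (PtC thin_one)
open Pool.PBL (ptC_of)

variable {n : ℕ} {hn : 2 ≤ n} {S : PCl n} {P : ℝ → ℝ → ℝ} {rr : ℝ → ℝ}
  {P' : ℕ → List (Fin n) × Fin n → ℝ → ℝ → ℝ} {Λ : Finset (Fin n) → Fin n → ℝ → ℝ → ℝ}
  {PB : ℕ → List (Fin n) × Fin n → ℝ → ℝ → ℝ}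

/-- The diagonal of a coordinate. -/
theorem dgN_lvl_lt (o : Od n) {k : ℕ} (hk : k < n - 1) (a : ℝ) :
    dgN hn P P' o k a = LvL hn P P' o k a a := by
  rw [LvL_lt o hk]
  unfold dgN
  rw [if_pos hk]
  rfl

/-- Lower bound for a function with a large derivative. -/
theorem der_low {f : ℝ → ℝ} {g : ℝ} (hd : DifferentiableAt ℝ f g) (h2 : 2 ≤ deriv f g) {e : ℝ}
    (he : 0 < e) : ∃ r₀ : ℝ, 0 < r₀ ∧ ∀ x : ℝ, 0 ≤ x → x < r₀ →
      f g + 2 * x - e * x ≤ f (g + x) := by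
  have h3 := hasDerivAt_iff_isLittleO.1 hd.hasDerivAt
  have h4 := h3.def he
  rw [Metric.eventually_nhds_iff] at h4
  obtain ⟨r₀, hr₀, h5⟩ := h4
  refine ⟨r₀, hr₀, fun x hx hx' => ?_⟩
  have h6 := h5 (y := g + x) (by
    rw [Real.dist_eq, add_sub_cancel_left, abs_of_nonneg hx]
    exact hx')
  rw [add_sub_cancel_left, Real.norm_eq_abs, Real.norm_eq_abs, abs_of_nonneg hx, smul_eq_mul] at h6
  have h7 := (abs_le.1 h6).1
  have h8 : 2 * x ≤ x * deriv f g := by
    rw [mul_comm]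
    exact mul_le_mul_of_nonneg_left h2 hx
  linarith

/-- **Chains with gain near a window.** -/
theorem PkT.gnW_ae (H : PkT hn S P rr P' Λ PB) (hTop : TopS n) (hF : FZX (n - 1)) :
    ∀ᵐ g : ℝ, ∀ o : Od n, g ∈ Gs P rr P' Λ o → ∀ l < n - 1,
      (∀ k < l, ThinAt (LvL hn P P' o k) (LvT hn PB o k) g) → StaAt (LvL hn P P' o l) g →
      2 ≤ slN hn P P' o l g → ∃ (D : ℕ) (r₀ : ℝ), 0 < r₀ ∧ ∀ r : ℝ, 0 < r → r < r₀ →
        GnW hn S P P' o D l g r := by
  filter_upwards [H.toPk.unif_ae hTop hF, H.dia_all H.pble hTop hF] with g hu hdia o ho l hl hthin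
    hsta hsl
  obtain ⟨E, c, hE, hroom, h1⟩ := hu o ho
  obtain ⟨vs, e, he0, -, h2⟩ := h1 1 one_pos
  obtain ⟨S₀, s₁, hS₀, hs₁, h3⟩ := h2 (1 / 32) (1 / 64) (by norm_num) (by norm_num)
  obtain ⟨α, Q, c', F⟩ := H.toPk.fac hTop hF ho
  have hg0 := F.g0
  have hg1 := F.g1
  obtain ⟨D, hD1, hT⟩ := thin_one (n - 1) S₀ (by omega) hS₀
  -- the diagonals
  have hdl := (hdia o ho l hl.le).1
  have hdl' : DifferentiableAt ℝ (dgN hn P P' o l) g := by
    have : dgN hn P P' o l = fun a => LvL hn P P' o l a a := funext fun a => dgN_lvl_lt o hl a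
    rw [this]
    exact hdl
  obtain ⟨r₁, hr₁, hlow⟩ := der_low hdl' hsl (e := 1 / 8) (by norm_num)
  -- the scales
  obtain ⟨r₂, hr₂, hth⟩ : ∃ r₂ : ℝ, 0 < r₂ ∧ ∀ r : ℝ, 0 < r → r < r₂ → ∀ k ∈ Finset.range l,
      ∀ a w : ℝ, g - 8 * r ≤ w → w ≤ a → a ≤ g + 8 * r →
        LvL hn P P' o k a w ≤ LvT hn PB o k w w + (a - w) + 1 / 16 * r :=
    scl_fin (Finset.range l) fun k hk => hthin k (Finset.mem_range.1 hk) (1 / 16) (by norm_num)
  obtain ⟨r₃, hr₃, hst⟩ := hsta (1 / 8) (by norm_num)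
  obtain ⟨R, hR, hRk⟩ := pos_fin (Finset.range (l + 1))
    (f := fun k => 1 - dgN hn P P' o k g) fun k hk => by
      have h4 := hroom k (by have := Finset.mem_range.1 hk; omega)
      have h5 : dgN hn P P' o k g = lvN (P' o.2) (cc hn o.1.1) (n - 1) P k g g := by
        have h6 : k < n - 1 := by have := Finset.mem_range.1 hk; omega
        rw [dgN_lvl_lt o h6]
        rfl
      rw [h5]
      linarith
  obtain ⟨r₀, hr₀⟩ : ∃ r₀, r₀ = min (min s₁ (min r₁ (min r₂ r₃))) (min R (min (g / 4) (1 - g))) :=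
    ⟨_, rfl⟩
  have q1 : r₀ ≤ s₁ := by rw [hr₀]; exact (min_le_left _ _).trans (min_le_left _ _)
  have q2 : r₀ ≤ r₁ := by
    rw [hr₀]; exact (min_le_left _ _).trans ((min_le_right _ _).trans (min_le_left _ _))
  have q3 : r₀ ≤ r₂ := by
    rw [hr₀]
    exact (min_le_left _ _).trans ((min_le_right _ _).trans ((min_le_right _ _).trans
      (min_le_left _ _)))
  have q4 : r₀ ≤ r₃ := by
    rw [hr₀]
    exact (min_le_left _ _).trans ((min_le_right _ _).trans ((min_le_right _ _).trans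
      (min_le_right _ _)))
  have q5 : r₀ ≤ R := by rw [hr₀]; exact (min_le_right _ _).trans (min_le_left _ _)
  have q6 : r₀ ≤ g / 4 := by
    rw [hr₀]; exact (min_le_right _ _).trans ((min_le_right _ _).trans (min_le_left _ _))
  have q7 : r₀ ≤ 1 - g := by
    rw [hr₀]; exact (min_le_right _ _).trans ((min_le_right _ _).trans (min_le_right _ _))
  refine ⟨D, r₀, ?_, fun r hr hrr => ?_⟩
  · rw [hr₀]
    exact lt_min (lt_min hs₁ (lt_min hr₁ (lt_min hr₂ hr₃)))
      (lt_min hR (lt_min (by linarith) (by linarith)))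
  -- the pair
  have h4 := h3 r 0 (13 / 16 * r) hr (by linarith) le_rfl (by linarith) (by linarith)
  obtain ⟨w, ⟨hw1, hw2⟩, hw⟩ : ∃ w ∈ Set.Icc (g - 1 / 32 * r) g, w ∉ {w : ℝ | |w - g| ≤ 1 / 32 * r ∧
      ¬ ∃ (ρ : ℝ) (Q' : Set ℝ),
        PtD S (P' o.2) (tht o.2) (cc hn o.1.1) (n - 1) P (w + 13 / 16 * r) (w + 0) ρ S₀
          (fun _ => vs) (fun _ => e) (fun _ => e) (fun _ => E) (fun _ => 1 - c) Q'} := by
    by_contra hcon
    have h5 : volume (Set.Icc (g - 1 / 32 * r) g) ≤ ENNReal.ofReal (1 / 64 * r) :=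
      (measure_mono fun w hw => by_contra fun h => hcon ⟨w, hw, h⟩).trans h4
    rw [Real.volume_Icc] at h5
    have h6 := (ENNReal.ofReal_le_ofReal_iff (by linarith)).1 h5
    linarith
  have h5 : |w - g| ≤ 1 / 32 * r := by
    rw [abs_le]
    constructor <;> linarith
  simp only [Set.mem_ofPred_eq, not_and, not_not] at hw
  obtain ⟨ρ, Q', h6⟩ := hw h5
  rw [add_zero] at h6
  obtain ⟨a, ha⟩ : ∃ a, a = w + 13 / 16 * r := ⟨_, rfl⟩
  rw [← ha] at h6
  have hσ : (0 : ℝ) < r / 16 := by linarith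
  obtain ⟨K₁, dT, hK₁, hdT, bT, -⟩ := hT (H.cht o.2) (tht_pos _) H.tmh (cc_inj1 hn _)
    (ptC_of h6) 0 1 (r / 16) one_pos hσ
  have hlaw := fun k => H.lawL o k
  refine ⟨a, w, e, fun k => bet (P' o.2) (cc hn o.1.1) k a w - dT k, K₁, hK₁, ?_, ?_⟩
  · refine ⟨?_, ?_, fun k hk => ?_, fun k hk => ?_, ?_⟩
    · show a ≤ g + r
      linarith
    · exact hw2
    · show r / 4 ≤ bet (P' o.2) (cc hn o.1.1) k a w - dT k
      have h7 := (H.cht o.2).low ((List.range k).map (cc hn o.1.1), cc hn o.1.1 k) a w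
        h6.w0.le h6.wa h6.a1.le
      have h8 := (hdT k (by omega)).2.1
      change a ≤ bet (P' o.2) (cc hn o.1.1) k a w at h7
      linarith
    · show bet (P' o.2) (cc hn o.1.1) k a w - dT k + r / 16 ≤ iso (dgN hn P P' o k) (g + r) g
      have k1 : k < n - 1 := by omega
      have h7 := hth r hr (hrr.trans_le q3) k (Finset.mem_range.2 hk) a w (by linarith) (by linarith)
        (by linarith)
      rw [LvL_lt o k1] at h7
      have h8 := (hdT k (by omega)).1
      have h9 : LvT hn PB o k w w ≤ LvT hn PB o k g g :=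
        (H.lawT o k).mono h6.w0.le le_rfl (by linarith) hw2 le_rfl hg1.le
      have h10 := (hdia o ho k k1.le).2.2
      rw [← h10, ← dgN_lvl_lt o k1] at h9
      have h11 := hRk k (Finset.mem_range.2 (by omega))
      unfold iso
      refine le_min ?_ ?_
      · linarith
      · linarith
    · show iso (dgN hn P P' o l) (g + r) g + r / 8 ≤ bet (P' o.2) (cc hn o.1.1) l a w - dT l
      have h7 := hst r hr (hrr.trans_le q4) a w (by linarith) (by linarith) (by linarith)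
      rw [← dgN_lvl_lt o hl, LvL_lt o hl a w] at h7
      have h8 := (hdT l hl).2.1
      have h9 := hlow (a - g) (by linarith) (by linarith)
      rw [add_sub_cancel] at h9
      have h10 : iso (dgN hn P P' o l) (g + r) g ≤ dgN hn P P' o l g + (g + r - g) := min_le_right _ _
      linarith
  · refine Bas.mono 0 bT ?_
    rintro J - F' A ⟨B, h7, h8, h9⟩
    exact ⟨B, h7, h8, h9.mono (by omega) (fun _ _ => le_rfl) le_rfl le_rfl (by linarith) le_rfl⟩

end Pool.PKG
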