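import Pool.Agent.H2.GEN.GnW

/-!
# Chains with gain near a window, several coordinates with gain

`PkT.gnWs_ae`: near almost every good window where the coordinates of the set `A` are static of
slope at least two and the other coordinates before `l` are thin there is a chain with gain of all
coordinates of `A`, of a class which does not depend on the scale.
-/

set_option autoImplicit false

namespace Pool.PKG

open MeasureTheory Set Filter Topology
open Pool.Agent.H49.Ent Pool.Agent.H32.Dense Pool.STK Pool.KA Pool.KSAT Pool.K2S Pool.PB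
open Pool.GEN Pool.S6C Pool.STAT Pool.CHT Pool.GRW Pool.ONE Pool.STA
open Pool.LBT (LSys ThrOf)
open Pool.LEV (Law)
open Pool.TOP (TopS)
open Pool.RTS (iso Diag)
open Pool.STR (ThinAt SteepAt StaAt StaD)
open Pool.ISO (PtD lvN)
open Pool.Z3 (PtC thin_one)
open Pool.PBL (ptC_of)

variable {n : ℕ} {hn : 2 ≤ n} {S : PCl n} {P : ℝ → ℝ → ℝ} {rr : ℝ → ℝ}
  {P' : ℕ → List (Fin n) × Fin n → ℝ → ℝ → ℝ} {Λ : Finset (Fin n) → Fin n → ℝ → ℝ → ℝ}
  {PB : ℕ → List (Fin n) × Fin n → ℝ → ℝ → ℝ}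

/-- The numbers of a chain with gain of the coordinates of `A`. -/
structure GnNs (L : ℕ → ℝ → ℝ → ℝ) (A : ℕ → Prop) (l : ℕ) (y : ℝ × ℝ) (X aT wT : ℝ)
    (β : ℕ → ℝ) : Prop where
  rad : aT ≤ y.1 + y.2
  win : wT ≤ y.1
  lo : ∀ k < l, X / 4 ≤ β k
  up : ∀ k < l, ¬ A k → β k + X / 16 ≤ L k (y.1 + y.2) y.1
  gn : ∀ k < l, A k → L k (y.1 + y.2) y.1 + X / 8 ≤ β k

/-- **A chain with gain** of the coordinates of `A` near the window `g`, at the scale `r`. -/
def GnWs (hn : 2 ≤ n) (S : PCl n) (P : ℝ → ℝ → ℝ) (P' : ℕ → List (Fin n) × Fin n → ℝ → ℝ → ℝ)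
    (o : Od n) (D : ℕ) (A : ℕ → Prop) (l : ℕ) (g r : ℝ) : Prop :=
  ∃ (aT wT eT : ℝ) (β : ℕ → ℝ) (K₁ : ℝ), 0 < K₁ ∧
    GnNs (fun k => iso (dgN hn P P' o k)) A l (g, r) r aT wT β ∧
    Bas S fun J F A => ∃ B : F.Ω → Prop, Sub B A ∧ Pe F.p A ≤ K₁ * Pe F.p B ∧
      Chn (cc hn o.1.1) l (fun _ => D) aT wT eT β J F B

/-- A common radius. -/
theorem com_rad {Q : ℕ → ℝ → Prop} (hQ : ∀ k r r', 0 < r' → r' ≤ r → Q k r → Q k r') {l : ℕ}
    (h : ∀ k < l, ∃ r : ℝ, 0 < r ∧ Q k r) : ∃ r : ℝ, 0 < r ∧ ∀ k < l, Q k r := by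
  induction l with
  | zero => exact ⟨1, one_pos, fun k hk => absurd hk (by omega)⟩
  | succ l ih =>
    obtain ⟨r, hr, h1⟩ := ih fun k hk => h k (by omega)
    obtain ⟨r', hr', h2⟩ := h l (by omega)
    refine ⟨min r r', lt_min hr hr', fun k hk => ?_⟩
    rcases Nat.lt_succ_iff_lt_or_eq.1 hk with h3 | rfl
    · exact hQ k r _ (lt_min hr hr') (min_le_left _ _) (h1 k h3)
    · exact hQ k r' _ (lt_min hr hr') (min_le_right _ _) h2

/-- **Chains with gain near a window.** -/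
theorem PkT.gnWs_ae (H : PkT hn S P rr P' Λ PB) (hTop : TopS n) (hF : FZX (n - 1)) :
    ∀ᵐ g : ℝ, ∀ o : Od n, g ∈ Gs P rr P' Λ o → ∀ l ≤ n - 1, ∀ A : ℕ → Prop,
      (∀ k < l, ¬ A k → ThinAt (LvL hn P P' o k) (LvT hn PB o k) g) →
      (∀ k < l, A k → StaAt (LvL hn P P' o k) g ∧ 2 ≤ slN hn P P' o k g) →
      ∃ (D : ℕ) (r₀ : ℝ), 0 < r₀ ∧ ∀ r : ℝ, 0 < r → r < r₀ → GnWs hn S P P' o D A l g r := by
  filter_upwards [H.toPk.unif_ae hTop hF, H.dia_all H.pble hTop hF] with g hu hdia o ho l hl A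
    hthin hsta
  obtain ⟨E, c, hE, hroom, h1⟩ := hu o ho
  obtain ⟨vs, e, he0, -, h2⟩ := h1 1 one_pos
  obtain ⟨S₀, s₁, hS₀, hs₁, h3⟩ := h2 (1 / 32) (1 / 64) (by norm_num) (by norm_num)
  obtain ⟨α, Q, c', F⟩ := H.toPk.fac hTop hF ho
  have hg0 := F.g0
  have hg1 := F.g1
  obtain ⟨D, hD1, hT⟩ := thin_one (n - 1) S₀ (by omega) hS₀
  -- the diagonals
  obtain ⟨r₁, hr₁, hlow⟩ : ∃ r₁ : ℝ, 0 < r₁ ∧ ∀ k < l, A k → ∀ x : ℝ, 0 ≤ x → x < r₁ →
      dgN hn P P' o k g + 2 * x - 1 / 8 * x ≤ dgN hn P P' o k (g + x) := by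
    refine com_rad (Q := fun k r => A k → ∀ x : ℝ, 0 ≤ x → x < r →
      dgN hn P P' o k g + 2 * x - 1 / 8 * x ≤ dgN hn P P' o k (g + x)) ?_ ?_
    · intro k r r' _ hrr h hA x hx hx'
      exact h hA x hx (hx'.trans_le hrr)
    · intro k hk
      by_cases hA : A k
      · have hk1 : k < n - 1 := by omega
        have hdl := (hdia o ho k hk1.le).1
        have hdl' : DifferentiableAt ℝ (dgN hn P P' o k) g := by
          have : dgN hn P P' o k = fun a => LvL hn P P' o k a a := funext fun a => dgN_LvL o hk1 a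
          rw [this]
          exact hdl
        obtain ⟨r₁, hr₁, h⟩ := der_low hdl' (hsta k hk hA).2 (e := 1 / 8) (by norm_num)
        exact ⟨r₁, hr₁, fun _ => h⟩
      · exact ⟨1, one_pos, fun h => absurd h hA⟩
  -- the scales
  obtain ⟨r₂, hr₂, hth⟩ : ∃ r₂ : ℝ, 0 < r₂ ∧ ∀ k < l, ¬ A k → ∀ r : ℝ, 0 < r → r < r₂ →
      ∀ a w : ℝ, g - 8 * r ≤ w → w ≤ a → a ≤ g + 8 * r →
        LvL hn P P' o k a w ≤ LvT hn PB o k w w + (a - w) + 1 / 16 * r := by
    refine com_rad (Q := fun k r₂ => ¬ A k → ∀ r : ℝ, 0 < r → r < r₂ →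
      ∀ a w : ℝ, g - 8 * r ≤ w → w ≤ a → a ≤ g + 8 * r →
        LvL hn P P' o k a w ≤ LvT hn PB o k w w + (a - w) + 1 / 16 * r) ?_ ?_
    · intro k r r' _ hrr h hA x hx hx'
      exact h hA x hx (hx'.trans_le hrr)
    · intro k hk
      by_cases hA : A k
      · exact ⟨1, one_pos, fun h => absurd hA h⟩
      · obtain ⟨r₂, hr₂, h⟩ := hthin k hk hA (1 / 16) (by norm_num)
        exact ⟨r₂, hr₂, fun _ r hr hrr => h r hr hrr⟩
  obtain ⟨r₃, hr₃, hst⟩ : ∃ r₃ : ℝ, 0 < r₃ ∧ ∀ k < l, A k → ∀ r : ℝ, 0 < r → r < r₃ →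
      ∀ a w : ℝ, g - 8 * r ≤ w → w ≤ a → a ≤ g + 8 * r →
        LvL hn P P' o k a a ≤ LvL hn P P' o k a w + 1 / 8 * r := by
    refine com_rad (Q := fun k r₂ => A k → ∀ r : ℝ, 0 < r → r < r₂ →
      ∀ a w : ℝ, g - 8 * r ≤ w → w ≤ a → a ≤ g + 8 * r →
        LvL hn P P' o k a a ≤ LvL hn P P' o k a w + 1 / 8 * r) ?_ ?_
    · intro k r r' _ hrr h hA x hx hx'
      exact h hA x hx (hx'.trans_le hrr)
    · intro k hk
      by_cases hA : A k
      · obtain ⟨r₂, hr₂, h⟩ := (hsta k hk hA).1 (1 / 8) (by norm_num)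
        exact ⟨r₂, hr₂, fun _ r hr hrr => h r hr hrr⟩
      · exact ⟨1, one_pos, fun h => absurd h hA⟩
  obtain ⟨R, hR, hRk⟩ := pos_fin (Finset.range l)
    (f := fun k => 1 - dgN hn P P' o k g) fun k hk => by
      have h4 := hroom k (by have := Finset.mem_range.1 hk; omega)
      have h5 : dgN hn P P' o k g = lvN (P' o.2) (cc hn o.1.1) (n - 1) P k g g := by
        have h6 : k < n - 1 := by have := Finset.mem_range.1 hk; omega
        rw [dgN_LvL o h6]
        rfl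
      rw [h5]
      linarith
  obtain ⟨r₀, hr₀⟩ : ∃ r₀, r₀ = min (min s₁ (min r₁ (min r₂ r₃))) (min R (min (g / 4) (1 - g))) :=
    ⟨_, rfl⟩
  have q1 : r₀ ≤ s₁ := by rw [hr₀]; exact (min_le_left _ _).trans (min_le_left _ _)
  have q2 : r₀ ≤ r₁ := by
    rw [hr₀]; exact (min_le_left _ _).trans ((min_le_right _ _).trans (min_le_left _ _))
  have q3 : r₀ ≤ r₂ := by
    rw [hr₀]
    exact (min_le_left _ _).trans ((min_le_right _ _).trans ((min_le_right _ _).trans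
      (min_le_left _ _)))
  have q4 : r₀ ≤ r₃ := by
    rw [hr₀]
    exact (min_le_left _ _).trans ((min_le_right _ _).trans ((min_le_right _ _).trans
      (min_le_right _ _)))
  have q5 : r₀ ≤ R := by rw [hr₀]; exact (min_le_right _ _).trans (min_le_left _ _)
  have q6 : r₀ ≤ g / 4 := by
    rw [hr₀]; exact (min_le_right _ _).trans ((min_le_right _ _).trans (min_le_left _ _))
  have q7 : r₀ ≤ 1 - g := by
    rw [hr₀]; exact (min_le_right _ _).trans ((min_le_right _ _).trans (min_le_right _ _))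
  refine ⟨D, r₀, ?_, fun r hr hrr => ?_⟩
  · rw [hr₀]
    exact lt_min (lt_min hs₁ (lt_min hr₁ (lt_min hr₂ hr₃)))
      (lt_min hR (lt_min (by linarith) (by linarith)))
  -- the pair
  have h4 := h3 r 0 (13 / 16 * r) hr (by linarith) le_rfl (by linarith) (by linarith)
  obtain ⟨w, ⟨hw1, hw2⟩, hw⟩ : ∃ w ∈ Set.Icc (g - 1 / 32 * r) g, w ∉ {w : ℝ | |w - g| ≤ 1 / 32 * r ∧
      ¬ ∃ (ρ : ℝ) (Q' : Set ℝ),
        PtD S (P' o.2) (tht o.2) (cc hn o.1.1) (n - 1) P (w + 13 / 16 * r) (w + 0) ρ S₀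
          (fun _ => vs) (fun _ => e) (fun _ => e) (fun _ => E) (fun _ => 1 - c) Q'} := by
    by_contra hcon
    have h5 : volume (Set.Icc (g - 1 / 32 * r) g) ≤ ENNReal.ofReal (1 / 64 * r) :=
      (measure_mono fun w hw => by_contra fun h => hcon ⟨w, hw, h⟩).trans h4
    rw [Real.volume_Icc] at h5
    have h6 := (ENNReal.ofReal_le_ofReal_iff (by linarith)).1 h5
    linarith
  have h5 : |w - g| ≤ 1 / 32 * r := by
    rw [abs_le]
    constructor <;> linarith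
  simp only [Set.mem_ofPred_eq, not_and, not_not] at hw
  obtain ⟨ρ, Q', h6⟩ := hw h5
  rw [add_zero] at h6
  obtain ⟨a, ha⟩ : ∃ a, a = w + 13 / 16 * r := ⟨_, rfl⟩
  rw [← ha] at h6
  have hσ : (0 : ℝ) < r / 16 := by linarith
  obtain ⟨K₁, dT, hK₁, hdT, bT, -⟩ := hT (H.cht o.2) (tht_pos _) H.tmh (cc_inj1 hn _)
    (ptC_of h6) 0 1 (r / 16) one_pos hσ
  refine ⟨a, w, e, fun k => bet (P' o.2) (cc hn o.1.1) k a w - dT k, K₁, hK₁, ?_, ?_⟩
  · refine ⟨?_, ?_, fun k hk => ?_, fun k hk hA => ?_, fun k hk hA => ?_⟩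
    · show a ≤ g + r
      linarith
    · exact hw2
    · show r / 4 ≤ bet (P' o.2) (cc hn o.1.1) k a w - dT k
      have h7 := (H.cht o.2).low ((List.range k).map (cc hn o.1.1), cc hn o.1.1 k) a w
        h6.w0.le h6.wa h6.a1.le
      have h8 := (hdT k (by omega)).2.1
      change a ≤ bet (P' o.2) (cc hn o.1.1) k a w at h7
      linarith
    · show bet (P' o.2) (cc hn o.1.1) k a w - dT k + r / 16 ≤ iso (dgN hn P P' o k) (g + r) g
      have k1 : k < n - 1 := by omega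
      have h7 := hth k hk hA r hr (hrr.trans_le q3) a w (by linarith) (by linarith)
        (by linarith)
      rw [LvL_lt o k1] at h7
      have h8 := (hdT k (by omega)).1
      have h9 : LvT hn PB o k w w ≤ LvT hn PB o k g g :=
        (H.lawT o k).mono h6.w0.le le_rfl (by linarith) hw2 le_rfl hg1.le
      have h10 := (hdia o ho k k1.le).2.2
      rw [← h10, ← dgN_LvL o k1] at h9
      have h11 := hRk k (Finset.mem_range.2 (by omega))
      unfold iso
      refine le_min ?_ ?_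
      · linarith
      · linarith
    · show iso (dgN hn P P' o k) (g + r) g + r / 8 ≤ bet (P' o.2) (cc hn o.1.1) k a w - dT k
      have k1 : k < n - 1 := by omega
      have h7 := hst k hk hA r hr (hrr.trans_le q4) a w (by linarith) (by linarith) (by linarith)
      rw [← dgN_LvL o k1, LvL_lt o k1 a w] at h7
      have h8 := (hdT k (by omega)).2.1
      have h9 := hlow k hk hA (a - g) (by linarith) (by linarith)
      rw [add_sub_cancel] at h9
      have h10 : iso (dgN hn P P' o k) (g + r) g ≤ dgN hn P P' o k g + (g + r - g) := min_le_right _ _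
      linarith
  · refine Bas.mono 0 bT ?_
    rintro J - F' A ⟨B, h7, h8, h9⟩
    exact ⟨B, h7, h8, h9.mono hl (fun _ _ => le_rfl) le_rfl le_rfl (by linarith) le_rfl⟩

end Pool.PKG
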