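import Pool.Agent.H2.GEN.ChnB
import Pool.Agent.H78.MIC.TopB
import Pool.Agent.H78.MIC.GrdJ

/-!
# The labels of the grid of a row

`Com`: the raw labels of a grid do not depend on the radius. `BalG`: they are re-centred ball
charts. `wBal`: the joint property of the raw labels of a grid.

`box_iso`: the chains at the points of the grid on the box of a row, on one event, with the property
`wBal`; the class of the chains depends only on the number of coordinates and on the constant of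
the row. This is the input of `grd_of_box` (helper78).
-/

set_option autoImplicit false

namespace Pool.STAT

open Finset MvPolynomial
open Pool.Agent.H49.Ent Pool.Agent.H32.Dense Pool.STK Pool.KS3 Pool.KA Pool.KSAT Pool.PB Pool.GEN
open Pool.K2S Pool.S6C
open Pool.LEV (Law Lv)
open Pool.STR (AffB CellD)
open Pool.RTS (iso Diag)
open Pool.CHT (bet TmH chsys)
open Pool.LBT (ThrOf)
open Pool.ISO (ChI GrB IsoB chn_box lvN)
open CLO Pool.MIC6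

variable {m n₀ J : ℕ}

/-! ### The properties -/

/-- **Common labels**: the raw labels of the grid do not depend on the radius. -/
def Com {F : Fam m J} (G : GGs F) (H : HHs F) (M : ℕ) : Prop :=
  ∀ i ≤ M, ∀ j ≤ M, G i j = G 0 j ∧ H i j = H 0 j

/-- **The raw labels are re-centred ball charts.** -/
structure BalG {F : Fam m J} (G : GGs F) (H : HHs F) (cs : ℕ → Fin m) (n K M w₀ z : ℕ)
    (lo hi : ℕ → ℕ → ℝ) (e₀ : ℕ → ℕ) (g₀ : ℕ → ℕ → ℕ)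
    (G₀ : ℕ → PtT F → ℕ → MvPolynomial (Option (Fin m)) ℝ)
    (H₀ : ℕ → LnT F → ℕ → MvPolynomial (Option (Fin m)) ℝ) (B : F.Ω → Prop) : Prop where
  sd : ∀ j ≤ M, ∀ l < n, lo j l ≤ g₀ j l ∧ (g₀ j l : ℝ) ≤ hi j l
  ball : ∀ j ≤ M, ChOK F cs n (fun _ => K) (w₀ + j * z) (w₀ + j * z) (e₀ j) (g₀ j) B (G₀ j) (H₀ j)
  eqG : ∀ i ≤ M, ∀ j ≤ M, G i j = fun y l => Gno (cs l) J J (fun y => G₀ j y l) y
  eqH : ∀ i ≤ M, ∀ j ≤ M, H i j = fun s l => Hno (cs l) (fun s => H₀ j s l) s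
  near : ∀ j ≤ M, ∀ ω, B ω → ∀ l < n, ∀ b : Option (Fin m) → ℝ,
    |eval b (Gno (cs l) J J (fun y => G₀ j y l) (ptr F J ω)) - eval b (G₀ j (ptr F J ω) l)| ≤
      2 / 2 ^ g₀ j l

section

variable {F : Fam m J} {G : GGs F} {H : HHs F} {cs : ℕ → Fin m} {n K M w₀ z : ℕ}
  {lo hi : ℕ → ℕ → ℝ} {e₀ : ℕ → ℕ} {g₀ : ℕ → ℕ → ℕ}
  {G₀ : ℕ → PtT F → ℕ → MvPolynomial (Option (Fin m)) ℝ}
  {H₀ : ℕ → LnT F → ℕ → MvPolynomial (Option (Fin m)) ℝ} {B B' : F.Ω → Prop}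

theorem BalG.sub (h : BalG G H cs n K M w₀ z lo hi e₀ g₀ G₀ H₀ B) (hB : Sub B' B) :
    BalG G H cs n K M w₀ z lo hi e₀ g₀ G₀ H₀ B' :=
  ⟨h.sd, fun j hj => (h.ball j hj).sub hB, h.eqG, h.eqH, fun j hj ω hω => h.near j hj ω (hB ω hω)⟩

/-- Re-centred ball charts do not depend on the radius. -/
theorem BalG.com (h : BalG G H cs n K M w₀ z lo hi e₀ g₀ G₀ H₀ B) : Com G H M :=
  fun i hi j hj => ⟨(h.eqG i hi j hj).trans (h.eqG 0 (Nat.zero_le M) j hj).symm,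
    (h.eqH i hi j hj).trans (h.eqH 0 (Nat.zero_le M) j hj).symm⟩

end

/-- **The joint property**: the raw labels are re-centred ball charts with sides between `lo` and
`hi`. -/
def wBal (cs : ℕ → Fin m) (n K M : ℕ) (g ζ : ℝ) (lo hi : ℕ → ℕ → ℝ) : JntP m := fun J F B G H =>
  ∃ (e₀ : ℕ → ℕ) (g₀ : ℕ → ℕ → ℕ) (G₀ : ℕ → PtT F → ℕ → MvPolynomial (Option (Fin m)) ℝ)
    (H₀ : ℕ → LnT F → ℕ → MvPolynomial (Option (Fin m)) ℝ),
    BalG G H cs n K M (up g J) (up ζ J) (fun j l => lo j l * J) (fun j l => hi j l * J) e₀ g₀ G₀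
      H₀ B

theorem wBal_her (cs : ℕ → Fin m) (n K M : ℕ) (g ζ : ℝ) (lo hi : ℕ → ℕ → ℝ) :
    (wBal cs n K M g ζ lo hi).Her := by
  rintro J F A B G H hB ⟨e₀, g₀, G₀, H₀, h⟩
  exact ⟨e₀, g₀, G₀, H₀, h.sub hB⟩

theorem wBal.com {cs : ℕ → Fin m} {n K M : ℕ} {g ζ : ℝ} {lo hi : ℕ → ℕ → ℝ} {F : Fam m J}
    {G : GGs F} {H : HHs F} {B : F.Ω → Prop} (h : wBal cs n K M g ζ lo hi J F B G H) :
    Com G H M := by
  obtain ⟨e₀, g₀, G₀, H₀, h⟩ := h
  exact h.com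

/-! ### The grid of a row -/

variable {P : ℝ → ℝ → ℝ} {ρ : ℝ → ℝ} {c β h Mr : ℝ}

/-- The diagonals of the coordinates on the box of a row. -/
def dgB (E : CellD P ρ) (jx : E.O → ℕ → E.J) (n₀ : ℕ) (p : BS E) (l : ℕ) : ℝ → ℝ :=
  if l < n₀ then E.D p.k.2 (jx p.k.2 l) else fun a => P a a

/-- **The property of the raw labels** on the box of a row. -/
noncomputable def wBS (E : CellD P ρ) (cs : E.α × E.O → ℕ → Fin m) (jx : E.O → ℕ → E.J)
    (n₀ K : ℕ) (p : BS E) (N M : ℕ) (θ : ℝ) : JntP m :=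
  wBal (cs p.k) (n₀ + 1) K M p.g (msh p.r N M)
    (fun j l => dgB E jx n₀ p l (p.g + j * msh p.r N M) - θ * msh p.r N M)
    (fun j l => dgB E jx n₀ p l (p.g + j * msh p.r N M))

theorem wBS_her (E : CellD P ρ) (cs : E.α × E.O → ℕ → Fin m) (jx : E.O → ℕ → E.J)
    (n₀ K : ℕ) (p : BS E) (N M : ℕ) (θ : ℝ) : (wBS E cs jx n₀ K p N M θ).Her :=
  wBal_her _ _ _ _ _ _ _ _

/-- **The chains of the grid** on the boxes of rows. `hchi`: the facts at the window of the row. -/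
theorem box_iso (m n₀ : ℕ) {c : ℝ} (hc : 0 < c) : ∃ K : ℕ, 1 ≤ K ∧
    ∀ {P : ℝ → ℝ → ℝ} {ρ : ℝ → ℝ} (E : CellD P ρ) {S : PCl m} (cs : E.α × E.O → ℕ → Fin m)
    (jx : E.O → ℕ → E.J) {β h Mr : ℝ}, S.Ne → TmH S → Law P →
    (∀ k, Inj (cs k) (n₀ + 1)) →
    (∀ k Q g r, E.Ad c k Q g r → ∃ (Pc : List (Fin m) × Fin m → ℝ → ℝ → ℝ) (θ sg : ℝ)
      (W : Set ℝ), ThrOf (chsys m θ) S Pc ∧
      (∀ l < n₀, ∀ a, E.D k.2 (jx k.2 l) a = bet Pc (cs k) l a a) ∧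
      ChI S Pc θ (cs k) n₀ P W sg c g r) →
    ∀ M : ℕ, EvQ (IsBS E c β h Mr) fun N θ p =>
      ∃ (b : ℕ → ℕ → ℕ → ℝ) (e : ℕ → ℕ → ℝ),
        NearE (n₀ + 1) (fun l => iso (dgB E jx n₀ p l)) (p.g, p.r) p.r N M θ b e ∧
        Lg S fun J F A => ∃ (G : GGs F) (H : HHs F),
          (∀ i ≤ M, ∀ j ≤ M, ChOK F (cs p.k) (n₀ + 1) (fun _ => K)
            (up (p.g + p.r) J + i * up (msh p.r N M) J) (up p.g J + j * up (msh p.r N M) J)
            ⌊e i j * J⌋₊ (fun l => ⌊b i j l * J⌋₊) A (G i j) (H i j)) ∧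
          wBS E cs jx n₀ K p N M θ J F A G H := by
  rcases lt_or_ge 1 c with hc1 | hc1
  · refine ⟨1, le_rfl, ?_⟩
    intro P ρ E S cs jx β h Mr hne hS hP hinj hchi M
    refine ⟨0, fun N _ => ⟨1, one_pos, fun θ _ _ => ⟨1, one_pos, fun p hp => ?_⟩⟩⟩
    obtain ⟨Pc, θ', sg, W, -, -, hI⟩ := hchi _ _ _ _ hp.ad
    have h1 := hI.g0
    have h2 := hI.g1
    exact absurd h1 (by linarith)
  obtain ⟨K, C, hK, hC, hbox⟩ := chn_box m n₀ hc hc1
  refine ⟨K, hK, ?_⟩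
  intro P ρ E S cs jx β h Mr hne hS hP hinj hchi M
  refine ⟨4, fun N hN => ⟨1, one_pos, fun θ hθ hθ1 => ?_⟩⟩
  have hC0 : 0 < C := one_pos.trans_le hC
  have hMr : (0 : ℝ) ≤ M := Nat.cast_nonneg M
  have hNr : (4 : ℝ) ≤ N := by exact_mod_cast hN
  obtain ⟨ε, hε⟩ : ∃ ε : ℝ, ε = θ / (2 * (C * (N * (M + 4)))) := ⟨_, rfl⟩
  have hCN : 0 < 2 * (C * (N * (M + 4))) := by positivity
  have hε0 : 0 < ε := by rw [hε]; positivity
  have hεC : C * (ε * (N * (M + 4))) < θ := by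
    have h1 : ε * (2 * (C * (N * (M + 4)))) = θ := by
      rw [hε]
      field_simp
    linarith
  have hεC1 : C * ε ≤ 1 := by
    have h1 : (1 : ℝ) ≤ N * (M + 4) := by nlinarith
    have h2 : 0 ≤ C * ε := by positivity
    nlinarith
  refine ⟨ε, hε0, fun p hp => ?_⟩
  obtain ⟨Pc, θ', sg, W, hT, hDj, hI⟩ := hchi _ _ _ _ hp.ad
  have hr := hp.r0
  have hdg : ∀ l, (fun v => lvN Pc (cs p.k) n₀ P l v v) = dgB E jx n₀ p l := by
    intro l
    funext v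
    unfold lvN dgB
    split_ifs with h1
    · exact (hDj l h1 v).symm
    · rfl
  have hdg' : ∀ l v, lvN Pc (cs p.k) n₀ P l v v = dgB E jx n₀ p l v := fun l v =>
    congrFun (hdg l) v
  have haff : ∀ l ≤ n₀, ∃ V Sl : ℝ, c * Sl ≤ 1 ∧ ∀ w : ℝ, |w - p.g| ≤ 8 * p.r →
      |lvN Pc (cs p.k) n₀ P l w w - V - Sl * (w - p.g)| ≤ ε * p.r := by
    intro l hl
    by_cases h1 : l < n₀
    · refine ⟨E.D p.k.2 (jx p.k.2 l) p.g, p.Sj (jx p.k.2 l), hp.cSj (jx p.k.2 l),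
        fun w hw => ?_⟩
      rw [hdg']
      unfold dgB
      rw [if_pos h1]
      exact hp.dj (jx p.k.2 l) w hw
    · refine ⟨p.Q, p.S, hp.cS, fun w hw => ?_⟩
      rw [hdg']
      unfold dgB
      rw [if_neg h1]
      exact hp.dgP w hw
  have hCr : C * p.r ≤ 1 := (mul_le_mul_of_nonneg_left hp.rε hC0.le).trans hεC1
  obtain ⟨b, e, h1, h2, h3, h4, h5⟩ := hbox hne hT hS
    (fun x hx y hy hxy => hinj p.k x hx y hy hxy) hP hI hr hCr N M (by omega) hε0.le hθ hθ1 hεC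
    haff
  refine ⟨b, fun _ j => e j, ⟨fun i hi j hj l hl => ?_, fun i hi j hj l hl => ?_,
    fun i hi j hj => h3 j hj, fun i hi j hj l hl => h4 i hi j hj l (by omega)⟩, ?_⟩
  · have := h1 i hi j hj l (by omega)
    rw [hdg] at this
    exact this
  · have := h2 i hi j hj l (by omega)
    rw [hdg] at this
    exact this
  · refine h5.mono 0 ?_
    rintro J - F A ⟨g₀, G₀, H₀, h6⟩
    refine ⟨fun _ j y l => Gno (cs p.k l) J J (fun y => G₀ j y l) y,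
      fun _ j s l => Hno (cs p.k l) (fun s => H₀ j s l) s, fun i hi j hj => (h6 j hj).rad i hi,
      fun j => ⌊e j * J⌋₊, g₀, G₀, H₀, ⟨fun j hj l hl => ?_, fun j hj => (h6 j hj).ball,
      fun _ _ _ _ => rfl, fun _ _ _ _ => rfl, fun j hj => (h6 j hj).near⟩⟩
    have := (h6 j hj).sd l hl
    simp only [hdg'] at this
    exact this

end Pool.STAT
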