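import Pool.Agent.H2.GEN.ChX
import Pool.Agent.H2.GEN.AttJ

/-!
# Labels over re-centred balls

`isoX θ`: the box of the chain is a ball of a chain of the same coordinates, on the same windows,
re-centred at the sample and smaller. `scl`: increments of polynomials on re-centred boxes.
`move_all`: a chain with any sides, on the natural boxes of another chain. `iso_slope`: smaller
radii. `iso_move`: the label on the re-centred boxes of another chain.
-/

set_option autoImplicit false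

namespace Pool.ISO

open Finset Real MvPolynomial
open Pool.Agent.H49.Ent Pool.Agent.H32.Dense Pool.STK Pool.KA Pool.KSAT Pool.K2S Pool.PB Pool.S6C
open Pool.GEN Pool.CHT Pool.CHX
open Pool.LBT (LSys Slo Tri ThrOf fl_le' bas_false)
open Pool.LEV (Law)
open Pool.FLF (Fam.sub)

variable {m J : ℕ}

/-! ### The property -/

/-- The difference of the increments of two polynomials. -/
noncomputable def rdif (P Q : MvPolynomial (Option (Fin m)) ℝ) (x b : Option (Fin m) → ℝ) : ℝ :=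
  (eval b P - eval x P) - (eval b Q - eval x Q)

/-- **The box of the chain is a re-centred ball**: of a chain of the same coordinates with the
radius and the windows `2 ^ (-w)`. -/
def isoX (m : ℕ) (θ : ℝ) : PrX m := fun c i K a w g J F A G _ =>
  ∃ (e₀ : ℕ) (g₀ : ℕ → ℕ) (G₀ : PtT F → ℕ → MvPolynomial (Option (Fin m)) ℝ)
    (H₀ : LnT F → ℕ → MvPolynomial (Option (Fin m)) ℝ), e₀ ≤ lipE θ K w J ∧
    (∀ l < i, g₀ l ≤ J) ∧ ChOK F c i (fun _ => K) w w e₀ g₀ A G₀ H₀ ∧
    (∀ l < i, g l ≤ g₀ l + (a - w)) ∧ ∀ ω, A ω → ∀ l < i, ∀ b : Option (Fin m) → ℝ,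
      NBx c (G (ptr F J ω)) g a (F.t ω) l b →
      |rdif (G (ptr F J ω) l) (G₀ (ptr F J ω) l) (bt F ω) b| ≤ 1 / 2 ^ g l

theorem her_isoX (m : ℕ) (θ : ℝ) : (isoX m θ).Her := by
  refine ⟨?_, ?_, ?_⟩
  · rintro c i K a w g J F A B G H hB ⟨e₀, g₀, G₀, H₀, h1, h2, h3, h4, h5⟩
    exact ⟨e₀, g₀, G₀, H₀, h1, h2, h3.sub hB, h4, fun ω hω => h5 ω (hB ω hω)⟩
  · rintro c i K K' a w g J F A G H hK ⟨e₀, g₀, G₀, H₀, h1, h2, h3, h4, h5⟩
    exact ⟨e₀, g₀, G₀, H₀, h1.trans (lipE_mono hK le_rfl), h2,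
      h3.mono le_rfl (fun _ => hK) le_rfl le_rfl, h4, h5⟩
  · rintro c c' i K a w g g' J F A G G' H H' hc hg hG _ ⟨e₀, g₀, G₀, H₀, h1, h2, h3, h4, h5⟩
    refine ⟨e₀, g₀, fun y l => if l < i then G₀ y l else 0, fun s l => if l < i then H₀ s l else 0,
      h1, h2, chOK_congr (g' := g₀) h3 (fun l hl => (hc l hl.le).symm) fun _ _ => rfl,
      h4, fun ω hω l hl b hb => ?_⟩
    rw [hG _ l hl.le]
    show |rdif (G (ptr F J ω) l) (if l < i then G₀ (ptr F J ω) l else 0) (bt F ω) b| ≤ _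
    rw [if_pos hl]
    refine h5 ω hω l hl b ⟨hb.1, fun j hj => ?_⟩
    have h6 := hb.2 j hj
    rw [hc j (by omega), hG _ j (by omega)] at h6
    exact h6

/-! ### Increments -/

theorem pow_dvd {n : ℕ} : (0 : ℝ) < 2 ^ n := by positivity

/-- **Increments** of a polynomial on a re-centred box, `v` digits smaller. -/
theorem scl (r D : ℕ) (K : ℕ → ℕ) : ∃ c₀ : ℕ, ∀ {m : ℕ} {c : ℕ → Fin m} {i : ℕ}
    {G : ℕ → MvPolynomial (Option (Fin m)) ℝ} {Q : MvPolynomial (Option (Fin m)) ℝ}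
    {g : ℕ → ℕ} {a n v : ℕ} {M : ℝ} {x b : Option (Fin m) → ℝ}, i < r →
    Set.InjOn c (Set.Iio i) → (∀ l, (G l).totalDegree ≤ K l) → (∀ l, DepC c l (G l)) →
    DepC c i Q → Q.totalDegree ≤ D → 0 ≤ M →
    (∀ b, NBx c G g a (x none) i b → |eval b Q| ≤ M) →
    (∀ l < i, |x (some (c l)) - eval x (G l)| ≤ 1 / 2 ^ g l) → n ≤ v →
    |b none - x none| ≤ 2 ^ n / 2 ^ (a + v) →
    (∀ l < i, |(b (some (c l)) - eval b (G l)) - (x (some (c l)) - eval x (G l))| ≤
      2 ^ n / 2 ^ (g l + v)) → |eval b Q - eval x Q| ≤ 2 ^ (c₀ + n) / 2 ^ v * M := by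
  obtain ⟨c₁, h₁⟩ := nbx_dbl r (fun l => max (K l) D)
  obtain ⟨D', hD'⟩ : ∃ D', D' = ∑ i ∈ range r, D * dga (fun l => max (K l) D) i := ⟨_, rfl⟩
  obtain ⟨C, hC, h₂⟩ := nbx_lip D'
  obtain ⟨c₂, hc₂⟩ := pow_unbounded_of_one_lt C (one_lt_two (α := ℝ))
  refine ⟨c₁ + c₂, ?_⟩
  intro m c i G Q g a n v M x b hi hc hdeg hdep hQ hQd hM0 hM hx hnv hb0 hb
  have hDi : D * dga (fun l => max (K l) D) i ≤ D' := by
    rw [hD']
    exact Finset.single_le_sum (f := fun i => D * dga (fun l => max (K l) D) i)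
      (fun _ _ => Nat.zero_le _) (mem_range.2 hi)
  have hlam : (2 : ℝ) ^ n / 2 ^ v ≤ 1 := by
    rw [div_le_one (by positivity)]
    exact pow_le_pow_right₀ (by norm_num) hnv
  have e1 : ∀ y : ℕ, (2 : ℝ) ^ n / 2 ^ (y + v) = 2 ^ n / 2 ^ v / 2 ^ y := fun y => by
    rw [pow_add, div_div, mul_comm ((2 : ℝ) ^ y)]
  have h3 := h₂ (K := fun l => max (K l) D) (G := G) (Q := Q) (g := g) (a := a) (D₀ := D)
    (t := x none) (M := 2 ^ c₁ * M) (lam := 2 ^ n / 2 ^ v) (b := x) (b' := b) hc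
    (fun l => (hdeg l).trans (le_max_left _ _)) hdep hQ hQd hDi (by positivity) hlam
    (fun b' hb1 hb2 => h₁ hi hc (fun l => (hdeg l).trans (le_max_left _ _)) hdep hQ
      (hQd.trans (le_max_right _ _)) hM0 hM b' hb1 hb2) rfl hx (by rw [← e1]; exact hb0)
    (fun l hl => by rw [← e1]; exact hb l hl)
  refine h3.trans ?_
  have h4 : C * (2 ^ c₁ * M) ≤ 2 ^ c₂ * (2 ^ c₁ * M) :=
    mul_le_mul_of_nonneg_right hc₂.le (by positivity)
  calc C * (2 ^ c₁ * M) * (2 ^ n / 2 ^ v) ≤ 2 ^ c₂ * (2 ^ c₁ * M) * (2 ^ n / 2 ^ v) :=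
        mul_le_mul_of_nonneg_right h4 (by positivity)
    _ = _ := by rw [pow_add, pow_add]; ring

/-! ### Moving a chain -/

/-- **Moving a chain**, with any sides, to the natural boxes. -/
theorem move_all (D r : ℕ) (hD : 1 ≤ D) : ∃ C : ℕ, ∀ {m J : ℕ} {F : Fam m J} {c : ℕ → Fin m}
    {i a w e' h : ℕ} {g g' : ℕ → ℕ} {κ κ' : ℝ} {B₀ B' : F.Ω → Prop}
    {G G' : PtT F → ℕ → MvPolynomial (Option (Fin m)) ℝ}
    {H' : LnT F → ℕ → MvPolynomial (Option (Fin m)) ℝ}, i < r →
    Set.InjOn c (Set.Iio i) → RelvF F c i a w g D h κ B₀ G → Sub B' B₀ →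
    κ' * Pe F.p B₀ ≤ Pe F.p B' → κ * 2 ^ r ≤ κ' →
    ChOK F c i (fun _ => D) a w e' g' B' G' H' →
    ∃ B : F.Ω → Prop, Sub B B' ∧ Pe F.p B' / 2 ^ i ≤ Pe F.p B ∧ ∀ ω, B ω →
      ∀ b, NBx c (G (ptr F J ω)) g a (F.t ω) i b →
        ∀ j < i, |b (some (c j)) - eval b (G' (ptr F J ω) j)| ≤ 2 ^ (C * (h + 1)) / 2 ^ g' j := by
  obtain ⟨c₀, D₁, hD₁, hdil⟩ := nbx_dil (r + 1) (fun _ => D)
  refine ⟨(c₀ + 1) * (1 + D₁) ^ (r + 1), ?_⟩
  intro m J F c i a w e' h g g' κ κ' B₀ B' G G' H' hi hc hR hB' hP' hκ hL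
  have hlexC : ∀ j ≤ r + 1, lex h c₀ D₁ j ≤ (c₀ + 1) * (1 + D₁) ^ (r + 1) * (h + 1) := by
    intro j hj
    refine (lex_le h c₀ D₁ j).trans ?_
    have h1 : (1 + D₁) ^ j ≤ (1 + D₁) ^ (r + 1) := Nat.pow_le_pow_right (by omega) hj
    calc (h + c₀) * (1 + D₁) ^ j ≤ ((c₀ + 1) * (h + 1)) * (1 + D₁) ^ (r + 1) :=
          Nat.mul_le_mul (by nlinarith) h1
      _ = _ := by ring
  -- the two sides on the natural boxes
  have htwo : ∀ j < i, ∀ ω, B' ω → ∀ b, NBx c (G (ptr F J ω)) g a (F.t ω) i b →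
      (∀ j' < j, |b (some (c j')) - eval b (G' (ptr F J ω) j')| ≤
        2 ^ lex h c₀ D₁ j / 2 ^ g' j') →
      |eval b (G' (ptr F J ω) j) - eval b (H' (slam F w ω) j)| ≤
        2 ^ (c₀ + lex h c₀ D₁ j * D₁) * (1 / 2 ^ g' j) := by
    intro j hj ω hω b hb hbj
    have h1 := hdil (c := c) (i := j) (G := G' (ptr F J ω))
      (Q := G' (ptr F J ω) j - H' (slam F w ω) j) (g := g') (a := a) (t := F.t ω)
      (M := 1 / 2 ^ g' j) (lex h c₀ D₁ j) (by omega) (hc.mono fun x hx => lt_trans hx hj)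
      (hL.degG _) (hL.depG _)
      (fun y y' hn hy => by rw [map_sub, map_sub, hL.depG _ j y y' hn hy, hL.depH _ j y y' hn hy])
      ((totalDegree_sub _ _).trans (max_le (hL.degG _ j) (hL.degH _ j))) (by positivity)
      (fun b hb => by rw [map_sub]; exact hL.agr ω hω j (by omega) b hb) b hb.1
      (fun j' hj' => hbj j' hj')
    rw [map_sub] at h1
    exact h1
  have key : ∀ j ≤ i, ∃ B : F.Ω → Prop, Sub B B' ∧ Pe F.p B' / 2 ^ j ≤ Pe F.p B ∧ ∀ ω, B ω →
      ∀ b, NBx c (G (ptr F J ω)) g a (F.t ω) i b → ∀ j' < j,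
        |b (some (c j')) - eval b (G' (ptr F J ω) j')| ≤ 2 ^ lex h c₀ D₁ j / 2 ^ g' j' := by
    intro j
    induction j with
    | zero => exact fun _ => ⟨B', fun _ h => h, by simp, fun ω _ b _ j' hj' => by omega⟩
    | succ j ih =>
      intro hj
      obtain ⟨B, k1, k2, k3⟩ := ih (by omega)
      obtain ⟨M, hM⟩ : ∃ M : ℝ, M = 2 ^ (c₀ + lex h c₀ D₁ j * D₁) * (1 / 2 ^ g' j) := ⟨_, rfl⟩
      have hM0 : 0 < M := by rw [hM]; positivity
      have hM1 : (1 : ℝ) / 2 ^ g' j ≤ M := by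
        rw [hM]
        exact le_mul_of_one_le_left (by positivity) (one_le_pow₀ (by norm_num))
      obtain ⟨B'', l1, l2, l3⟩ := hR B (fun ω h => hB' ω (k1 ω h)) (by
          have h1 : κ * 2 ^ r * Pe F.p B₀ ≤ κ' * Pe F.p B₀ :=
            mul_le_mul_of_nonneg_right hκ (Pe_nonneg F.isLaw B₀)
          have h2 : κ * Pe F.p B₀ * 2 ^ r ≤ Pe F.p B' := by linarith [h1, hP']
          have h3 : (2 : ℝ) ^ j ≤ 2 ^ r := pow_le_pow_right₀ (by norm_num) (by omega)
          rw [div_le_iff₀ (by positivity)] at k2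
          rcases le_or_gt (κ * Pe F.p B₀) 0 with h4 | h4
          · exact h4.trans (Pe_nonneg F.isLaw B)
          · have h5 : κ * Pe F.p B₀ * 2 ^ j ≤ Pe F.p B * 2 ^ j :=
              (mul_le_mul_of_nonneg_left h3 h4.le).trans (h2.trans k2)
            exact le_of_mul_le_mul_right h5 (by positivity))
        (fun y => X (some (c j)) - G' y j) (fun s => X (some (c j)) - H' s j) M
        (fun y => (totalDegree_sub _ _).trans (max_le (by rw [totalDegree_X]; exact hD)
          (hL.degG y j))) (fun s => (totalDegree_sub _ _).trans (max_le (by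
            rw [totalDegree_X]; exact hD) (hL.degH s j))) (fun y b b' hn hb => by
          rw [map_sub, map_sub, eval_X, eval_X, hb j (by omega), hL.depG y j b b' hn
            (fun l' hl' => hb l' (by omega))])
        (fun s b b' hn hb => by
          rw [map_sub, map_sub, eval_X, eval_X, hb j (by omega), hL.depH s j b b' hn
            (fun l' hl' => hb l' (by omega))]) hM0
        (fun ω hω => by
          rw [map_sub, eval_X]
          exact (hL.pos ω (k1 ω hω) j (by omega)).trans hM1) (fun ω hω b hb => by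
          rw [map_sub, map_sub, eval_X]
          have := htwo j (by omega) ω (k1 ω hω) b hb (k3 ω hω b hb)
          rw [← hM] at this
          have e1 : b (some (c j)) - eval b (G' (ptr F J ω) j) - (b (some (c j)) -
              eval b (H' (slam F w ω) j)) = -(eval b (G' (ptr F J ω) j) -
                eval b (H' (slam F w ω) j)) := by ring
          rw [e1, abs_neg]
          exact this)
      refine ⟨B'', fun ω h => k1 ω (l1 ω h), ?_, fun ω hω b hb j' hj' => ?_⟩
      · refine le_trans (le_of_eq ?_) ((div_le_div_of_nonneg_right k2 (by norm_num)).trans l2)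
        rw [pow_succ]
        field_simp
      · rcases Nat.lt_or_ge j' j with h7 | h7
        · refine (k3 ω (l1 ω hω) b hb j' h7).trans (div_le_div_of_nonneg_right ?_ (by positivity))
          exact pow_le_pow_right₀ (by norm_num) (lex_mono hD₁)
        · have : j' = j := by omega
          subst this
          have h8 := l3 ω hω b hb
          rw [map_sub, eval_X, hM] at h8
          refine h8.trans (le_of_eq ?_)
          show _ = 2 ^ (h + c₀ + lex h c₀ D₁ j' * D₁) / 2 ^ g' j'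
          rw [add_assoc h, pow_add]
          ring
  obtain ⟨B, k1, k2, k3⟩ := key i le_rfl
  refine ⟨B, k1, k2, fun ω hω b hb j hj => ?_⟩
  refine (k3 ω hω b hb j hj).trans (div_le_div_of_nonneg_right ?_ (by positivity))
  exact pow_le_pow_right₀ (by norm_num) (hlexC i (by omega))

/-! ### Smaller radii -/

/-- The difference to a re-centred label is constant. -/
theorem rdif_Gno {F : Fam m J} (k : Fin m) (P : PtT F → MvPolynomial (Option (Fin m)) ℝ)
    (Q : MvPolynomial (Option (Fin m)) ℝ) (y : PtT F) (x b : Option (Fin m) → ℝ) :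
    rdif (Gno k J J P y) Q x b = rdif (P y) Q x b := by
  unfold rdif Gno
  simp only [map_add, eval_C]
  ring

/-- **The box stays a re-centred ball** for smaller radii. -/
theorem iso_slope (m r K : ℕ) (hK : 1 ≤ K) : ∃ (C₁ : ℝ) (c₀ : ℕ), 1 ≤ C₁ ∧
    ∀ (J : ℕ) (F : Fam m J) (c : ℕ → Fin m) (i a w e v u : ℕ) (g : ℕ → ℕ) (A : F.Ω → Prop)
      (G : PtT F → ℕ → MvPolynomial (Option (Fin m)) ℝ)
      (H : LnT F → ℕ → MvPolynomial (Option (Fin m)) ℝ) (θ θ' : ℝ) (hA : 0 < Pe F.p A),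
      i < r → Set.InjOn c (Set.Iio (i + 1)) → w ≤ a → w ≤ J →
      (∀ l < i + 1, e + g l + v + c₀ ≤ J) →
      (i + 1) * u + 1 ≤ v → 0 ≤ θ → (Fam.sub F A hA).Tm θ →
      C₁ * (θ + 1) ≤ ((J : ℝ) - w) * Real.log 2 → Real.exp (C₁ * (θ + 1)) ≤ 2 ^ u →
      ChOK F c (i + 1) (fun _ => K) a w e g A G H → isoX m θ' c i K a w g J F A G H →
      ∃ B : F.Ω → Prop, Sub B A ∧ Pe F.p A / 2 ≤ Pe F.p B ∧
        ChOK F c (i + 1) (fun _ => K) (a + v) w (e + c₀) (fun l => g l + v - (l + 1) * u) B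
          (fun y l => Gno (c l) J J (fun y => G y l) y)
          (fun s l => Hno (c l) (fun s => H s l) s) ∧
        isoX m θ' c i K (a + v) w (fun l => g l + v - (l + 1) * u) J F B
          (fun y l => Gno (c l) J J (fun y => G y l) y)
          (fun s l => Hno (c l) (fun s => H s l) s) ∧
        ∀ ω, A ω → ∀ l < i + 1, ∀ b : Option (Fin m) → ℝ,
          |eval b (Gno (c l) J J (fun y => G y l) (ptr F J ω)) - eval b (G (ptr F J ω) l)| ≤
            2 / 2 ^ g l := by
  obtain ⟨c₁, h₁⟩ := scl r K (fun _ => K)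
  obtain hch := fun r' : ℕ => ch_slope' m r' (fun _ => K) fun _ => hK
  choose C₁ c₀ hC₁ hsl using hch
  obtain ⟨C, hC⟩ : ∃ C : ℝ, C = (∑ x ∈ range (r + 1), C₁ x) + (c₁ + 2) := ⟨_, rfl⟩
  have hC0 : ∀ x, 0 ≤ C₁ x := fun x => by linarith [hC₁ x]
  have hCx : ∀ x ≤ r, C₁ x + (c₁ + 2) ≤ C := by
    intro x hx
    rw [hC]
    have := Finset.single_le_sum (f := fun x => C₁ x) (fun x _ => hC0 x)
      (mem_range.2 (Nat.lt_succ_of_le hx))
    linarith
  obtain ⟨c₂, hc₂⟩ : ∃ c₂, c₂ = ∑ x ∈ range (r + 1), c₀ x := ⟨_, rfl⟩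
  have hcx : ∀ x ≤ r, c₀ x ≤ c₂ := by
    intro x hx
    rw [hc₂]
    exact Finset.single_le_sum (f := fun x => c₀ x) (fun x _ => Nat.zero_le _)
      (mem_range.2 (Nat.lt_succ_of_le hx))
  refine ⟨C, c₂, ?_, ?_⟩
  · have h1 := hCx 0 (Nat.zero_le _)
    have h2 := hC₁ 0
    have h3 : (0 : ℝ) ≤ c₁ := Nat.cast_nonneg _
    linarith
  intro J F c i a w e v u g A G H θ θ' hA hi hc hwa hwJ hJ hv hθ hTm hN hu hL hX
  have hCi := hCx (i + 1) (by omega)
  have hci := hcx (i + 1) (by omega)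
  have hθ1 : 0 ≤ θ + 1 := by linarith
  have hle : C₁ (i + 1) * (θ + 1) ≤ C * (θ + 1) := by
    refine mul_le_mul_of_nonneg_right ?_ hθ1
    have : (0 : ℝ) ≤ c₁ := Nat.cast_nonneg _
    linarith
  -- the number of digits
  have hu1 : c₁ + 1 ≤ u := by
    by_contra h
    have h1 : u ≤ c₁ := by omega
    have h2 : (c₁ : ℝ) + 2 ≤ C * (θ + 1) := by
      have h3 : (c₁ : ℝ) + 2 ≤ C := by linarith [hC0 (i + 1)]
      have h4 : (0 : ℝ) ≤ c₁ := Nat.cast_nonneg _
      nlinarith
    have h3 : Real.exp (c₁ + 2) ≤ 2 ^ u := (Real.exp_le_exp.2 h2).trans hu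
    have h4 : (2 : ℝ) ^ u ≤ 2 ^ c₁ := pow_le_pow_right₀ (by norm_num) h1
    have h5 : (2 : ℝ) ^ c₁ < Real.exp (c₁ + 2) := by
      have h6 : Real.exp ((c₁ : ℝ) + 2) = Real.exp 1 ^ c₁ * Real.exp 2 := by
        rw [Real.exp_add, ← Real.exp_one_pow c₁]
      rw [h6]
      have h7 : (2 : ℝ) ≤ Real.exp 1 := by
        have := Real.add_one_le_exp (1 : ℝ)
        linarith
      have h8 : (1 : ℝ) < Real.exp 2 := by
        rw [Real.one_lt_exp_iff]
        norm_num
      have h9 : (2 : ℝ) ^ c₁ ≤ Real.exp 1 ^ c₁ := pow_le_pow_left₀ (by norm_num) h7 _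
      have h10 : (0 : ℝ) < 2 ^ c₁ := by positivity
      nlinarith
    linarith
  obtain ⟨B, k1, k2, k3, k4⟩ := hsl (i + 1) J F c a w e v u g A G H θ hA hc hwa hwJ
    (fun l hl => by have := hJ l hl; omega) hv hθ hTm (by linarith)
    ((Real.exp_le_exp.2 hle).trans hu) hL
  refine ⟨B, k1, k2, k3.mono le_rfl (fun _ => le_rfl) le_rfl (by omega), ?_, k4⟩
  obtain ⟨e₀, g₀, G₀, H₀, m1, m2, m3, m4, m5⟩ := hX
  have hvl : ∀ l < i, (l + 1) * u + 1 ≤ v := by
    intro l hl
    have : (l + 1) * u ≤ (i + 1) * u := Nat.mul_le_mul_right u (by omega)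
    omega
  refine ⟨e₀, g₀, G₀, H₀, m1, m2, m3.sub k1, fun l hl => ?_, fun ω hω l hl b hb => ?_⟩
  · have h1 := m4 l hl
    show g l + v - (l + 1) * u ≤ g₀ l + (a + v - w)
    omega
  rw [rdif_Gno]
  have hcl : Set.InjOn c (Set.Iio l) := hc.mono fun x hx => by
    rw [Set.mem_Iio] at hx ⊢
    omega
  obtain ⟨Q, hQ⟩ : ∃ Q, Q = G (ptr F J ω) l - G₀ (ptr F J ω) l -
      MvPolynomial.C (eval (bt F ω) (G (ptr F J ω) l) - eval (bt F ω) (G₀ (ptr F J ω) l)) :=
    ⟨_, rfl⟩
  have hQe : ∀ b, eval b Q = rdif (G (ptr F J ω) l) (G₀ (ptr F J ω) l) (bt F ω) b := by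
    intro b
    rw [hQ, map_sub, map_sub, eval_C]
    unfold rdif
    ring
  have hQ0 : eval (bt F ω) Q = 0 := by
    rw [hQe]
    unfold rdif
    ring
  have hGn : ∀ l' b, eval b (Gno (c l') J J (fun y => G y l') (ptr F J ω)) -
      eval (bt F ω) (Gno (c l') J J (fun y => G y l') (ptr F J ω)) =
        eval b (G (ptr F J ω) l') - eval (bt F ω) (G (ptr F J ω) l') := by
    intro l' b
    unfold Gno
    simp only [map_add, eval_C]
    ring
  have h2 := h₁ (c := c) (i := l) (G := G (ptr F J ω)) (Q := Q) (g := g) (a := a) (n := l * u + 1)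
    (v := v) (M := 1 / 2 ^ g l) (x := bt F ω) (b := b) (by omega) hcl (hL.degG _) (hL.depG _)
    (fun y y' hn hy => by
      rw [hQ]
      simp only [map_sub, eval_C]
      rw [hL.depG _ l y y' hn hy, m3.depG _ l y y' hn hy])
    (by
      rw [hQ]
      refine (totalDegree_sub _ _).trans (max_le ((totalDegree_sub _ _).trans
        (max_le (hL.degG _ l) (m3.degG _ l))) ?_)
      rw [totalDegree_C]
      exact Nat.zero_le _) (by positivity)
    (fun b hb => by
      rw [hQe]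
      exact m5 ω (k1 ω hω) l hl b hb)
    (fun l' hl' => hL.pos ω (k1 ω hω) l' (by omega)) (by
      have h3 : l * u ≤ (l + 1) * u := Nat.mul_le_mul_right u (by omega)
      have := hvl l hl
      omega)
    (by
      refine hb.1.trans ?_
      refine div_le_div_of_nonneg_right ?_ (by positivity)
      exact one_le_pow₀ (by norm_num))
    (fun l' hl' => by
      have h3 := hb.2 l' hl'
      have h4 := k3.pos ω hω l' (by omega)
      have h5 := hGn l' b
      have h6 : (b (some (c l')) - eval b (G (ptr F J ω) l')) - (bt F ω (some (c l')) -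
          eval (bt F ω) (G (ptr F J ω) l')) = (b (some (c l')) -
            eval b (Gno (c l') J J (fun y => G y l') (ptr F J ω))) - (F.x ω (c l') -
              eval (bt F ω) (Gno (c l') J J (fun y => G y l') (ptr F J ω))) := by
        have : bt F ω (some (c l')) = F.x ω (c l') := rfl
        rw [this]
        linarith
      rw [h6]
      have h7 : (1 : ℝ) / 2 ^ (g l' + v - (l' + 1) * u) + 1 / 2 ^ (g l' + v - (l' + 1) * u) ≤
          2 ^ (l * u + 1) / 2 ^ (g l' + v) := by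
        have h8 : g l' + v = (g l' + v - (l' + 1) * u) + (l' + 1) * u := by
          have := hvl l' (by omega)
          omega
        have h9 : (l' + 1) * u ≤ l * u := Nat.mul_le_mul_right u (by omega)
        have h10 : (2 : ℝ) ^ (l * u + 1) / 2 ^ (g l' + v) =
            (2 * 2 ^ (l * u) / 2 ^ ((l' + 1) * u)) / 2 ^ (g l' + v - (l' + 1) * u) := by
          rw [div_div, ← pow_add, pow_succ, mul_comm ((2 : ℝ) ^ (l * u)) 2, add_comm ((l' + 1) * u),
            ← h8]
        rw [h10, ← add_div]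
        refine div_le_div_of_nonneg_right ?_ (by positivity)
        rw [le_div_iff₀ (by positivity)]
        have : (2 : ℝ) ^ ((l' + 1) * u) ≤ 2 ^ (l * u) := pow_le_pow_right₀ (by norm_num) h9
        linarith
      refine le_trans ?_ h7
      rw [abs_le] at h3 h4 ⊢
      constructor <;> linarith only [h3.1, h3.2, h4.1, h4.2])
  rw [hQ0, sub_zero, hQe] at h2
  refine h2.trans ?_
  have h8 : g l + v = (g l + v - (l + 1) * u) + (l + 1) * u := by
    have := hvl l hl
    omega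
  have h9 : c₁ + (l * u + 1) ≤ (l + 1) * u := by
    have : (l + 1) * u = l * u + u := by ring
    omega
  show _ ≤ 1 / 2 ^ (g l + v - (l + 1) * u)
  have h10 : (2 : ℝ) ^ (c₁ + (l * u + 1)) / 2 ^ v * (1 / 2 ^ g l) =
      2 ^ (c₁ + (l * u + 1)) / (2 ^ (g l + v - (l + 1) * u) * 2 ^ ((l + 1) * u)) := by
    rw [← pow_add, ← h8, pow_add _ (g l) v]
    field_simp
  rw [h10, div_le_div_iff₀ (by positivity) (by positivity), one_mul, mul_comm]
  exact mul_le_mul_of_nonneg_left (pow_le_pow_right₀ (by norm_num) h9) (by positivity)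

/-! ### The label on the re-centred boxes of another chain -/

/-- The label of a line, for a shorter window. -/
def cwn {F : Fam m J} (w' w : ℕ) (H : LnT F → ℕ → MvPolynomial (Option (Fin m)) ℝ) (s : LnT F) :
    ℕ → MvPolynomial (Option (Fin m)) ℝ := H (s.1, s.2.1, s.2.2 / 2 ^ (w - w'))

theorem cwn_slam {F : Fam m J} {w' w : ℕ} (hw : w' ≤ w) (hwJ : w ≤ J)
    (H : LnT F → ℕ → MvPolynomial (Option (Fin m)) ℝ) (ω : F.Ω) :
    cwn w' w H (slam F w ω) = H (slam F w' ω) := by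
  unfold cwn
  rw [← slam_coarse F hw hwJ ω]

/-- Shorter windows. -/
theorem chOK_win {F : Fam m J} {c : ℕ → Fin m} {r : ℕ} {K : ℕ → ℕ} {a w w' e : ℕ} {g : ℕ → ℕ}
    {A : F.Ω → Prop} {G : PtT F → ℕ → MvPolynomial (Option (Fin m)) ℝ}
    {H : LnT F → ℕ → MvPolynomial (Option (Fin m)) ℝ} (h : ChOK F c r K a w' e g A G H)
    (hw : w' ≤ w) (hwJ : w ≤ J) : ChOK F c r K a w e g A G (cwn w' w H) :=
  ⟨h.degG, fun s i => h.degH _ i, h.depG, fun s i => h.depH _ i, h.pos, fun ω hω i hi b hb => by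
    rw [cwn_slam hw hwJ]
    exact h.agr ω hω i hi b hb, h.lip⟩

/-- **Re-centred boxes**: the increments are `v` digits smaller. -/
def Rcn (F : Fam m J) (c : ℕ → Fin m) (i w v n D : ℕ) (g gr : ℕ → ℕ) (B : F.Ω → Prop)
    (G Gr : PtT F → ℕ → MvPolynomial (Option (Fin m)) ℝ) : Prop :=
  ∀ ω, B ω → ∀ Q : MvPolynomial (Option (Fin m)) ℝ, DepC c i Q → Q.totalDegree ≤ D → ∀ M : ℝ,
    0 ≤ M → (∀ b, NBx c (G (ptr F J ω)) g w (F.t ω) i b → |eval b Q| ≤ M) →
    ∀ b, NBx c (Gr (ptr F J ω)) gr (w + v) (F.t ω) i b →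
      |eval b Q - eval (bt F ω) Q| ≤ 2 ^ n / 2 ^ v * M

theorem Rcn.sub {F : Fam m J} {c : ℕ → Fin m} {i w v n D : ℕ} {g gr : ℕ → ℕ} {B B' : F.Ω → Prop}
    {G Gr : PtT F → ℕ → MvPolynomial (Option (Fin m)) ℝ} (h : Rcn F c i w v n D g gr B G Gr)
    (hB : Sub B' B) : Rcn F c i w v n D g gr B' G Gr := fun ω hω => h ω (hB ω hω)

/-- The box itself. -/
theorem rcn_self {F : Fam m J} {c : ℕ → Fin m} {i w n D : ℕ} {g : ℕ → ℕ} {B : F.Ω → Prop}
    {G : PtT F → ℕ → MvPolynomial (Option (Fin m)) ℝ} (hn : 1 ≤ n)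
    (hs : ∀ ω, B ω → NBx c (G (ptr F J ω)) g w (F.t ω) i (bt F ω)) :
    Rcn F c i w 0 n D g g B G G := by
  intro ω hω Q _ _ M hM h b hb
  have h1 := h b hb
  have h2 := h _ (hs ω hω)
  have h3 : (2 : ℝ) * M ≤ 2 ^ n / 2 ^ 0 * M := by
    rw [pow_zero, div_one]
    refine mul_le_mul_of_nonneg_right ?_ hM
    calc (2 : ℝ) = 2 ^ 1 := by norm_num
      _ ≤ 2 ^ n := pow_le_pow_right₀ (by norm_num) hn
  refine le_trans ?_ h3
  rw [abs_le] at h1 h2 ⊢
  constructor <;> linarith only [h1.1, h1.2, h2.1, h2.2]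

/-- **The label over the re-centred boxes of another chain.** -/
theorem iso_move (D r : ℕ) (hD : 1 ≤ D) : ∃ C : ℕ, ∀ {m J : ℕ} {F : Fam m J} {c : ℕ → Fin m}
    {i w v h n q e₁ e' er e'' : ℕ} {K : ℕ → ℕ} {g gr g₁ g' : ℕ → ℕ} {κ κ' : ℝ}
    {B₀ B' : F.Ω → Prop} {G Gr G₁ G' : PtT F → ℕ → MvPolynomial (Option (Fin m)) ℝ}
    {Hr H₁ H' : LnT F → ℕ → MvPolynomial (Option (Fin m)) ℝ}, i < r →
    Set.InjOn c (Set.Iio i) → RelvF F c i w w g D h κ B₀ G → Sub B' B₀ →
    κ' * Pe F.p B₀ ≤ Pe F.p B' → κ * 2 ^ r ≤ κ' → Rcn F c i w v n D g gr B' G Gr →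
    ChOK F c i K (w + v) w er gr B' Gr Hr → ChOK F c i (fun _ => D) w w e₁ g₁ B' G₁ H₁ →
    ChOK F c (i + 1) (fun _ => D) (w + v) w e' g' B' G' H' → (∀ l < i, g' l ≤ g₁ l + v + n) →
    (∀ ω, B' ω → ∀ l < i, ∀ b, NBx c (G' (ptr F J ω)) g' (w + v) (F.t ω) l b →
      |rdif (G' (ptr F J ω) l) (G₁ (ptr F J ω) l) (bt F ω) b| ≤ 1 / 2 ^ g' l) →
    (∀ l < i, g' l ≤ gr l + q) → C * (h + n + 1) ≤ g' i → er ≤ e'' →
    e' + C * (h + n + 1) + q ≤ e'' →
    ∃ B : F.Ω → Prop, Sub B B' ∧ Pe F.p B' / 2 ^ i ≤ Pe F.p B ∧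
      (∀ ω, B ω → ∀ b, NBx c (Gr (ptr F J ω)) gr (w + v) (F.t ω) i b → ∀ j < i,
        |b (some (c j)) - eval b (G' (ptr F J ω) j)| ≤ 2 ^ (C * (h + n + 1)) / 2 ^ g' j) ∧
      ChOK F c (i + 1) (fun l => if l = i then D else K l) (w + v) w e''
        (fun l => if l = i then g' i - C * (h + n + 1) else gr l) B
        (fun y l => if l = i then G' y i else Gr y l)
        (fun s l => if l = i then H' s i else Hr s l) := by
  obtain ⟨C₁, move⟩ := move_all D r hD
  obtain ⟨c₀, D₁, hD₁, hdil⟩ := nbx_dil (r + 1) (fun _ => D)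
  obtain ⟨C, hC⟩ : ∃ C, C = (C₁ + 3 + c₀) * (1 + D₁) ^ (r + 1) + 2 := ⟨_, rfl⟩
  refine ⟨C, ?_⟩
  intro m J F c i w v h n q e₁ e' er e'' K g gr g₁ g' κ κ' B₀ B' G Gr G₁ G' Hr H₁ H' hi hc hR hB'
    hP' hκ hrc hLr hL₁ hL' hg' hrd hq hgi her he''
  obtain ⟨B, k1, k2, k3⟩ := move hi hc hR hB' hP' hκ hL₁
  obtain ⟨h', hh'⟩ : ∃ h', h' = 2 * n + C₁ * (h + 1) + 2 := ⟨_, rfl⟩
  have hlexC : ∀ j ≤ r + 1, lex h' c₀ D₁ j + 2 ≤ C * (h + n + 1) := by
    intro j hj
    have h0 := lex_le h' c₀ D₁ j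
    have h1 : (1 + D₁) ^ j ≤ (1 + D₁) ^ (r + 1) := Nat.pow_le_pow_right (by omega) hj
    have h2 : h' + c₀ ≤ (C₁ + 3 + c₀) * (h + n + 1) := by
      rw [hh']
      nlinarith
    have h3 : (h' + c₀) * (1 + D₁) ^ j ≤ (C₁ + 3 + c₀) * (h + n + 1) * (1 + D₁) ^ (r + 1) :=
      Nat.mul_le_mul h2 h1
    have h4 : C * (h + n + 1) = (C₁ + 3 + c₀) * (h + n + 1) * (1 + D₁) ^ (r + 1) +
        2 * (h + n + 1) := by
      rw [hC]
      ring
    omega
  have hself : ∀ ω, B' ω → NBx c (G' (ptr F J ω)) g' (w + v) (F.t ω) i (bt F ω) := fun ω hω =>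
    hL'.self hω (by omega)
  -- the boxes
  have key : ∀ j ≤ i, ∀ ω, B ω → ∀ b, NBx c (Gr (ptr F J ω)) gr (w + v) (F.t ω) i b → ∀ j' < j,
      |b (some (c j')) - eval b (G' (ptr F J ω) j')| ≤ 2 ^ lex h' c₀ D₁ j / 2 ^ g' j' := by
    intro j
    induction j with
    | zero => exact fun _ ω _ b _ j' hj' => by omega
    | succ j ih =>
      intro hj ω hω b hb j' hj'
      have h0 := ih (by omega) ω hω b hb
      rcases Nat.lt_or_ge j' j with h7 | h7
      · refine (h0 j' h7).trans (div_le_div_of_nonneg_right ?_ (by positivity))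
        exact pow_le_pow_right₀ (by norm_num) (lex_mono hD₁)
      have : j' = j := by omega
      subst this
      have hω' := k1 ω hω
      have hcj : Set.InjOn c (Set.Iio j') := hc.mono fun x hx => by
        rw [Set.mem_Iio] at hx ⊢
        omega
      -- the distance to the ball
      obtain ⟨Q₁, hQ₁⟩ : ∃ Q₁, Q₁ = X (some (c j')) - G₁ (ptr F J ω) j' := ⟨_, rfl⟩
      have h1 := hrc ω hω' Q₁ (fun y y' hn hy => by
          rw [hQ₁, map_sub, map_sub, eval_X, eval_X, hy j' hj,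
            hL₁.depG _ j' y y' hn fun l hl => hy l (by omega)]) (by
          rw [hQ₁]
          refine (totalDegree_sub _ _).trans (max_le ?_ (hL₁.degG _ j'))
          rw [totalDegree_X]
          exact hD) (2 ^ (C₁ * (h + 1)) / 2 ^ g₁ j') (by positivity) (fun b hb => by
          rw [hQ₁, map_sub, eval_X]
          exact k3 ω hω b hb j' hj) b hb
      rw [hQ₁, map_sub, map_sub, eval_X, eval_X] at h1
      have h2 : (2 : ℝ) ^ n / 2 ^ v * (2 ^ (C₁ * (h + 1)) / 2 ^ g₁ j') ≤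
          2 ^ (2 * n + C₁ * (h + 1)) / 2 ^ g' j' := by
        have e1 : (2 : ℝ) ^ n / 2 ^ v * (2 ^ (C₁ * (h + 1)) / 2 ^ g₁ j') =
            2 ^ (2 * n + C₁ * (h + 1)) / 2 ^ (g₁ j' + v + n) := by
          rw [show 2 * n + C₁ * (h + 1) = n + C₁ * (h + 1) + n by ring, pow_add _ _ n,
            pow_add _ n (C₁ * (h + 1)), pow_add _ _ n, pow_add _ (g₁ j') v]
          field_simp
        rw [e1]
        exact div_le_div_of_nonneg_left (by positivity) (by positivity)
          (pow_le_pow_right₀ (by norm_num) (hg' j' hj))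
      -- the difference of the increments
      obtain ⟨Q₂, hQ₂⟩ : ∃ Q₂, Q₂ = G' (ptr F J ω) j' - G₁ (ptr F J ω) j' -
          MvPolynomial.C (eval (bt F ω) (G' (ptr F J ω) j') -
            eval (bt F ω) (G₁ (ptr F J ω) j')) := ⟨_, rfl⟩
      have hQe : ∀ b, eval b Q₂ =
          rdif (G' (ptr F J ω) j') (G₁ (ptr F J ω) j') (bt F ω) b := by
        intro b
        rw [hQ₂, map_sub, map_sub, eval_C]
        unfold rdif
        ring
      have h3 := hdil (c := c) (i := j') (G := G' (ptr F J ω)) (Q := Q₂) (g := g') (a := w + v)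
        (t := F.t ω) (M := 1 / 2 ^ g' j') (lex h' c₀ D₁ j') (by omega) hcj (hL'.degG _)
        (hL'.depG _) (fun y y' hn hy => by
          rw [hQ₂]
          simp only [map_sub, eval_C]
          rw [hL'.depG _ j' y y' hn hy, hL₁.depG _ j' y y' hn hy]) (by
          rw [hQ₂]
          refine (totalDegree_sub _ _).trans (max_le ((totalDegree_sub _ _).trans
            (max_le (hL'.degG _ j') (hL₁.degG _ j'))) ?_)
          rw [totalDegree_C]
          exact Nat.zero_le _) (by positivity) (fun b hb => by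
          rw [hQe]
          exact hrd ω hω' j' hj b hb) b hb.1 h0
      rw [hQe] at h3
      have h4 := hL'.pos ω hω' j' (by omega)
      have e2 : b (some (c j')) - eval b (G' (ptr F J ω) j') =
          (b (some (c j')) - eval b (G₁ (ptr F J ω) j') - (bt F ω (some (c j')) -
            eval (bt F ω) (G₁ (ptr F J ω) j'))) + (F.x ω (c j') -
              eval (bt F ω) (G' (ptr F J ω) j')) -
            rdif (G' (ptr F J ω) j') (G₁ (ptr F J ω) j') (bt F ω) b := by
        have : bt F ω (some (c j')) = F.x ω (c j') := rfl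
        rw [this]
        unfold rdif
        ring
      have h5 : (2 : ℝ) ^ (2 * n + C₁ * (h + 1)) / 2 ^ g' j' + 1 / 2 ^ g' j' +
          2 ^ (c₀ + lex h' c₀ D₁ j' * D₁) * (1 / 2 ^ g' j') ≤
            2 ^ lex h' c₀ D₁ (j' + 1) / 2 ^ g' j' := by
        rw [mul_one_div, ← add_div, ← add_div]
        refine div_le_div_of_nonneg_right ?_ (by positivity)
        have e3 : lex h' c₀ D₁ (j' + 1) = (2 * n + C₁ * (h + 1)) + (c₀ + lex h' c₀ D₁ j' * D₁) +
            2 := by
          show h' + c₀ + lex h' c₀ D₁ j' * D₁ = _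
          rw [hh']
          ring
        rw [e3, pow_add _ _ 2, pow_add _ (2 * n + C₁ * (h + 1)) (c₀ + lex h' c₀ D₁ j' * D₁)]
        have i1 : (1 : ℝ) ≤ 2 ^ (2 * n + C₁ * (h + 1)) := one_le_pow₀ (by norm_num)
        have i2 : (1 : ℝ) ≤ 2 ^ (c₀ + lex h' c₀ D₁ j' * D₁) := one_le_pow₀ (by norm_num)
        nlinarith only [i1, i2]
      rw [e2]
      refine le_trans ?_ h5
      have h6 := h1.trans h2
      rw [abs_le] at h3 h4 h6 ⊢
      constructor <;> linarith only [h3.1, h3.2, h4.1, h4.2, h6.1, h6.2]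
  have hbox : ∀ ω, B ω → ∀ b, NBx c (Gr (ptr F J ω)) gr (w + v) (F.t ω) i b → ∀ j < i,
      |b (some (c j)) - eval b (G' (ptr F J ω) j)| ≤ 2 ^ lex h' c₀ D₁ i / 2 ^ g' j :=
    fun ω hω b hb => key i le_rfl ω hω b hb
  have hLx : c₀ + lex h' c₀ D₁ i * D₁ ≤ C * (h + n + 1) := by
    have h1 := hlexC (i + 1) (by omega)
    have h2 : lex h' c₀ D₁ (i + 1) = h' + c₀ + lex h' c₀ D₁ i * D₁ := rfl
    omega
  have bx : ∀ {y : PtT F} {t : ℝ} {l : ℕ} {b : Option (Fin m) → ℝ}, l ≤ i →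
      NBx c ((fun y l => if l = i then G' y i else Gr y l) y)
        (fun l => if l = i then g' i - C * (h + n + 1) else gr l) (w + v) t l b →
      NBx c (Gr y) gr (w + v) t l b := by
    intro y t l b hl hb
    refine ⟨hb.1, fun j hj => ?_⟩
    have h1 := hb.2 j hj
    simp only [if_neg (show ¬ j = i by omega)] at h1
    exact h1
  refine ⟨B, k1, k2, fun ω hω b hb j hj => ?_, ⟨fun y l => ?_, fun s l => ?_, fun y l => ?_,
    fun s l => ?_, fun ω hω l hl => ?_, fun ω hω l hl b hb => ?_, fun ω hω l hl b hb j hj => ?_⟩⟩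
  · refine (hbox ω hω b hb j hj).trans (div_le_div_of_nonneg_right ?_ (by positivity))
    exact pow_le_pow_right₀ (by norm_num) (by have := hlexC i (by omega); omega)
  · show (if l = i then G' y i else Gr y l).totalDegree ≤ if l = i then D else K l
    split_ifs with h1
    · exact hL'.degG y i
    · exact hLr.degG y l
  · show (if l = i then H' s i else Hr s l).totalDegree ≤ if l = i then D else K l
    split_ifs with h1
    · exact hL'.degH s i
    · exact hLr.degH s l
  · show DepC c l (if l = i then G' y i else Gr y l)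
    split_ifs with h1
    · rw [h1]; exact hL'.depG y i
    · exact hLr.depG y l
  · show DepC c l (if l = i then H' s i else Hr s l)
    split_ifs with h1
    · rw [h1]; exact hL'.depH s i
    · exact hLr.depH s l
  · show |F.x ω (c l) - eval (bt F ω) (if l = i then G' (ptr F J ω) i else Gr (ptr F J ω) l)| ≤
      1 / 2 ^ (if l = i then g' i - C * (h + n + 1) else gr l)
    by_cases h1 : l = i
    · subst h1
      rw [if_pos rfl, if_pos rfl]
      exact (hL'.pos ω (k1 ω hω) l (by omega)).trans (inv_mono (Nat.sub_le _ _))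
    · rw [if_neg h1, if_neg h1]
      exact hLr.pos ω (k1 ω hω) l (by omega)
  · have hb' := bx (by omega) hb
    show |eval b (if l = i then G' (ptr F J ω) i else Gr (ptr F J ω) l) -
      eval b (if l = i then H' (slam F w ω) i else Hr (slam F w ω) l)| ≤
      1 / 2 ^ (if l = i then g' i - C * (h + n + 1) else gr l)
    by_cases h1 : l = i
    · subst h1
      rw [if_pos rfl, if_pos rfl, if_pos rfl]
      have h3 := hdil (c := c) (i := l) (G := G' (ptr F J ω))
        (Q := G' (ptr F J ω) l - H' (slam F w ω) l) (g := g') (a := w + v)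
        (t := F.t ω) (M := 1 / 2 ^ g' l) (lex h' c₀ D₁ l) (by omega) hc (hL'.degG _)
        (hL'.depG _) (fun y y' hn hy => by
          rw [map_sub, map_sub, hL'.depG _ l y y' hn hy, hL'.depH _ l y y' hn hy])
        ((totalDegree_sub _ _).trans (max_le (hL'.degG _ l) (hL'.degH _ l))) (by positivity)
        (fun b hb => by
          rw [map_sub]
          exact hL'.agr ω (k1 ω hω) l (by omega) b hb) b hb'.1 (hbox ω hω b hb')
      rw [map_sub] at h3
      refine h3.trans ?_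
      rw [mul_one_div, div_le_div_iff₀ (by positivity) (by positivity), one_mul, ← pow_add]
      exact pow_le_pow_right₀ (by norm_num) (by omega)
    · rw [if_neg h1, if_neg h1, if_neg h1]
      exact hLr.agr ω (k1 ω hω) l (by omega) b hb'
  · have hb' := bx (by omega) hb
    show |eval b (pderiv (some (c j)) (if l = i then G' (ptr F J ω) i else Gr (ptr F J ω) l))| ≤
      2 ^ (e'' + nlp (fun l => if l = i then g' i - C * (h + n + 1) else gr l) j l)
    by_cases h1 : l = i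
    · subst h1
      rw [if_pos rfl]
      have h3 := hdil (c := c) (i := l) (G := G' (ptr F J ω))
        (Q := pderiv (some (c j)) (G' (ptr F J ω) l)) (g := g') (a := w + v)
        (t := F.t ω) (M := 2 ^ (e' + nlp g' j l)) (lex h' c₀ D₁ l) (by omega) hc (hL'.degG _)
        (hL'.depG _) (DepC.pderiv (hL'.depG _ l) j) (totalDegree_pdσ (hL'.degG _ l) _)
        (by positivity) (fun b hb => hL'.lip ω (k1 ω hω) l (by omega) b hb j hj) b hb'.1
        (hbox ω hω b hb')
      refine h3.trans ?_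
      rw [← pow_add]
      refine pow_le_pow_right₀ (by norm_num) ?_
      have h4 : nlp g' j l ≤ nlp (fun x => if x = l then g' l - C * (h + n + 1) else gr x) j l +
          q := by
        unfold nlp
        have h5 : (Finset.Icc j l).sup g' ≤ (Finset.Icc j l).sup
            (fun x => if x = l then g' l - C * (h + n + 1) else gr x) + (C * (h + n + 1) + q) := by
          refine Finset.sup_le fun x hx => ?_
          have h6 := Finset.le_sup
            (f := fun x => if x = l then g' l - C * (h + n + 1) else gr x) hx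
          have hx' := (Finset.mem_Icc.1 hx).2
          by_cases h7 : x = l
          · rw [if_pos h7] at h6
            rw [h7]
            omega
          · rw [if_neg h7] at h6
            have := hq x (by omega)
            omega
        have h5' : (Finset.Icc j l).sup g' ≤ max ((Finset.Icc j l).sup
            (fun x => if x = l then g' l - C * (h + n + 1) else gr x) + q) (g' l) := by
          refine Finset.sup_le fun x hx => ?_
          have h6 := Finset.le_sup
            (f := fun x => if x = l then g' l - C * (h + n + 1) else gr x) hx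
          have hx' := (Finset.mem_Icc.1 hx).2
          by_cases h7 : x = l
          · rw [h7]
            exact le_max_right _ _
          · rw [if_neg h7] at h6
            have := hq x (by omega)
            refine le_trans ?_ (le_max_left _ _)
            omega
        have h8 : (fun x => if x = l then g' l - C * (h + n + 1) else gr x) l =
            g' l - C * (h + n + 1) := if_pos rfl
        rw [h8]
        omega
      omega
    · rw [if_neg h1]
      refine (hLr.lip ω (k1 ω hω) l (by omega) b hb' j hj).trans ?_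
      refine pow_le_pow_right₀ (by norm_num) ?_
      rw [nlp_congr (l := j) (g := gr)
        (g' := fun x => if x = i then g' i - C * (h + n + 1) else gr x)
        fun x hx => (if_neg (by omega)).symm]
      omega

end Pool.ISO
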