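import Pool.Agent.H2.GEN.Iso

/-!
# Re-centred ball charts of a class

`chOK_grow`: larger boxes. `rec_lab`: the re-centred chain with prescribed sides. `iso_lab`: from
balls of a class to smaller radii, with prescribed sides.
-/

set_option autoImplicit false

namespace Pool.ISO

open Finset Real MvPolynomial
open Pool.Agent.H49.Ent Pool.Agent.H32.Dense Pool.STK Pool.KA Pool.KSAT Pool.K2S Pool.PB Pool.S6C
open Pool.GEN Pool.CHT Pool.CHX
open Pool.LBT (LSys Slo Tri ThrOf fl_le' bas_false)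
open Pool.LEV (Law)
open Pool.FLF (Fam.sub)

variable {m J : ℕ}

/-! ### Larger boxes -/

/-- **Larger boxes**, with the same labels. -/
theorem chOK_grow (r : ℕ) (K : ℕ → ℕ) : ∃ c₀ : ℕ, ∀ {m J : ℕ} {F : Fam m J} {c : ℕ → Fin m}
    {a w e e' : ℕ} {g g' : ℕ → ℕ} {A : F.Ω → Prop}
    {G : PtT F → ℕ → MvPolynomial (Option (Fin m)) ℝ}
    {H : LnT F → ℕ → MvPolynomial (Option (Fin m)) ℝ}, Set.InjOn c (Set.Iio r) →
    (∀ i < r, g' i ≤ g i) → (∀ i < r, 0 < i → c₀ + gls K g g' i ≤ g i - g' i) →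
    (∀ i < r, 0 < i → e + c₀ + gls K g g' i + ∑ j ∈ range i, (g j - g' j) ≤ e') →
    ChOK F c r K a w e g A G H → ChOK F c r K a w e' g' A G H := by
  obtain ⟨D, hD⟩ : ∃ D, D = ∑ i ∈ range r, ∑ j ∈ range i, K i * dgp K j i := ⟨_, rfl⟩
  obtain ⟨C, hC, h⟩ := nbx_grow D r
  obtain ⟨c₀, hc₀⟩ := pow_unbounded_of_one_lt C (one_lt_two (α := ℝ))
  refine ⟨c₀, ?_⟩
  intro m J F c a w e e' g g' A G H hc hg h1 h2 hch
  have hDi : ∀ i < r, ∀ j < i, K i * dgp K j i ≤ D := by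
    intro i hi j hj
    rw [hD]
    calc K i * dgp K j i ≤ ∑ j ∈ range i, K i * dgp K j i :=
          Finset.single_le_sum (f := fun j => K i * dgp K j i) (fun _ _ => Nat.zero_le _)
            (mem_range.2 hj)
      _ ≤ _ := Finset.single_le_sum (f := fun i => ∑ j ∈ range i, K i * dgp K j i)
            (fun _ _ => Nat.zero_le _) (mem_range.2 hi)
  have key : ∀ (y : PtT F) (t : ℝ) (i : ℕ) (Q : MvPolynomial (Option (Fin m)) ℝ) (M : ℝ), i < r →
      DepC c i Q → Q.totalDegree ≤ K i → (∀ b, NBx c (G y) g a t i b → |eval b Q| ≤ M) →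
      0 ≤ M → ∀ b, NBx c (G y) g' a t i b → |eval b Q| ≤ (if i = 0 then 1 else
        2 ^ (c₀ + gls K g g' i)) * M := by
    intro y t i Q M hi hQ hQd hM hM0 b hb
    rcases Nat.eq_zero_or_pos i with h0 | h0
    · subst h0
      rw [if_pos rfl, one_mul]
      exact hM b ⟨hb.1, fun l hl => absurd hl (Nat.not_lt_zero l)⟩
    · rw [if_neg h0.ne']
      have h3 := h (K := K) hi.le (hc.mono fun x hx => lt_trans hx hi) (hch.degG y) (hch.depG y)
        hQ hQd (hDi i hi) (fun j hj => hg j (hj.trans hi)) hM b hb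
      refine h3.trans ?_
      refine mul_le_mul_of_nonneg_right ?_ hM0
      rw [pow_add]
      exact mul_le_mul_of_nonneg_right hc₀.le (by positivity)
  refine ⟨hch.degG, hch.degH, hch.depG, hch.depH, fun ω hω i hi =>
    (hch.pos ω hω i hi).trans (inv_mono (hg i hi)), fun ω hω i hi b hb => ?_,
    fun ω hω i hi b hb l hl => ?_⟩
  · have h3 := key (ptr F J ω) (F.t ω) i (G (ptr F J ω) i - H (slam F w ω) i) (1 / 2 ^ g i) hi
      (fun b b' hn hb => by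
        rw [map_sub, map_sub, hch.depG _ i b b' hn hb, hch.depH _ i b b' hn hb])
      ((totalDegree_sub _ _).trans (max_le (hch.degG _ i) (hch.degH _ i)))
      (fun b hb => by rw [map_sub]; exact hch.agr ω hω i hi b hb) (by positivity) b hb
    rw [map_sub] at h3
    refine h3.trans ?_
    rcases Nat.eq_zero_or_pos i with h0 | h0
    · rw [if_pos h0, one_mul]
      exact inv_mono (hg i hi)
    · rw [if_neg h0.ne', mul_one_div, div_le_div_iff₀ (by positivity) (by positivity), one_mul,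
        ← pow_add]
      refine pow_le_pow_right₀ (by norm_num) ?_
      have := h1 i hi h0
      have := hg i hi
      omega
  · have h0 : 0 < i := (Nat.zero_le l).trans_lt hl
    have h3 := key (ptr F J ω) (F.t ω) i (pderiv (some (c l)) (G (ptr F J ω) i))
      (2 ^ (e + nlp g l i)) hi
      (DepC.pderiv (hch.depG _ i) l) (totalDegree_pdσ (hch.degG _ i) _)
      (fun b hb => hch.lip ω hω i hi b hb l hl) (by positivity) b hb
    rw [if_neg h0.ne', ← pow_add] at h3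
    refine h3.trans (pow_le_pow_right₀ (by norm_num) ?_)
    have h4 := h2 i hi h0
    have h5 := nlp_le (l := l) (g := g) (g' := g') (i := i) fun j hj => hg j (hj.trans_lt hi)
    omega

/-- The loss of the labels of one degree. -/
theorem gls_le (n D : ℕ) : ∃ C : ℕ, ∀ (g g' : ℕ → ℕ) (i : ℕ), i < n →
    gls (fun _ => D) g g' i ≤ C * ∑ j ∈ range i, (g j - g' j) := by
  obtain ⟨C, hC⟩ : ∃ C, C = ∑ i ∈ range n, ∑ j ∈ range i, D * dgp (fun _ => D) j i := ⟨_, rfl⟩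
  refine ⟨C, fun g g' i hi => ?_⟩
  unfold gls
  rw [Finset.mul_sum]
  refine Finset.sum_le_sum fun j hj => ?_
  rw [mul_comm]
  refine Nat.mul_le_mul_right _ ?_
  rw [hC]
  calc D * dgp (fun _ => D) j i ≤ ∑ j ∈ range i, D * dgp (fun _ => D) j i :=
        Finset.single_le_sum (f := fun j => D * dgp (fun _ => D) j i) (fun _ _ => Nat.zero_le _) hj
    _ ≤ _ := Finset.single_le_sum (f := fun i => ∑ j ∈ range i, D * dgp (fun _ => D) j i)
          (fun _ _ => Nat.zero_le _) (mem_range.2 hi)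

/-- **The re-centred chain**, with prescribed sides. -/
theorem rec_lab (m n D : ℕ) (hD : 1 ≤ D) : ∃ (C₁ : ℝ) (C₀ : ℕ), 1 ≤ C₁ ∧
    ∀ (J : ℕ) (F : Fam m J) (c : ℕ → Fin m) (a w e e' v u : ℕ) (g gg : ℕ → ℕ) (A : F.Ω → Prop)
      (G : PtT F → ℕ → MvPolynomial (Option (Fin m)) ℝ)
      (H : LnT F → ℕ → MvPolynomial (Option (Fin m)) ℝ) (θ : ℝ) (hA : 0 < Pe F.p A),
      Set.InjOn c (Set.Iio n) → w ≤ a → w ≤ J → (∀ l < n, e + g l + v + C₀ ≤ J) → n * u + 1 ≤ v →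
      0 ≤ θ → (Fam.sub F A hA).Tm θ → C₁ * (θ + 1) ≤ ((J : ℝ) - w) * Real.log 2 →
      Real.exp (C₁ * (θ + 1)) ≤ 2 ^ u → ChOK F c n (fun _ => D) a w e g A G H →
      (∀ l < n, gg l + (l + 1) * u ≤ g l + v) →
      (∀ l < n, 0 < l → gg l + C₀ * (1 + ∑ j ∈ range l, (g j + v - gg j)) + (l + 1) * u ≤
        g l + v) → e + C₀ * (1 + ∑ j ∈ range n, (g j + v - gg j)) ≤ e' →
      ∃ B : F.Ω → Prop, Sub B A ∧ Pe F.p A / 2 ≤ Pe F.p B ∧
        ChOK F c n (fun _ => D) (a + v) w e' gg B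
          (fun y l => Gno (c l) J J (fun y => G y l) y)
          (fun s l => Hno (c l) (fun s => H s l) s) ∧
        ∀ ω, A ω → ∀ l < n, ∀ b : Option (Fin m) → ℝ,
          |eval b (Gno (c l) J J (fun y => G y l) (ptr F J ω)) - eval b (G (ptr F J ω) l)| ≤
            2 / 2 ^ g l := by
  obtain ⟨C₁, c₀, hC₁, hsl⟩ := ch_slope' m n (fun _ => D) fun _ => hD
  obtain ⟨c₁, hgr⟩ := chOK_grow n (fun _ => D)
  obtain ⟨c₂, hls⟩ := gls_le n D
  refine ⟨C₁, c₀ + c₁ + c₂ + 1, hC₁, ?_⟩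
  intro J F c a w e e' v u g gg A G H θ hA hc hwa hwJ hJ hv hθ hTm hN hu hL h0 h1 h2
  obtain ⟨B, k1, k2, k3, k4⟩ := hsl J F c a w e v u g A G H θ hA hc hwa hwJ
    (fun l hl => by have := hJ l hl; omega) hv hθ hTm hN hu hL
  refine ⟨B, k1, k2, ?_, k4⟩
  have hsum : ∀ l, ∑ j ∈ range l, (g j + v - (j + 1) * u - gg j) ≤
      ∑ j ∈ range l, (g j + v - gg j) := fun l => Finset.sum_le_sum fun j _ => by omega
  have hgl : ∀ l < n, c₀ + c₁ + gls (fun _ => D) (fun i => g i + v - (i + 1) * u) gg l +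
      ∑ j ∈ range l, (g j + v - (j + 1) * u - gg j) ≤
        (c₀ + c₁ + c₂ + 1) * (1 + ∑ j ∈ range l, (g j + v - gg j)) := by
    intro l hl
    have h3 := hls (fun i => g i + v - (i + 1) * u) gg l hl
    have h4 := hsum l
    have h5 : c₂ * ∑ j ∈ range l, (g j + v - (j + 1) * u - gg j) ≤
        c₂ * ∑ j ∈ range l, (g j + v - gg j) := Nat.mul_le_mul_left _ h4
    have h6 : (c₀ + c₁ + c₂ + 1) * (1 + ∑ j ∈ range l, (g j + v - gg j)) =
        c₀ + c₁ + c₂ + 1 + (c₀ + c₁) * ∑ j ∈ range l, (g j + v - gg j) +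
          c₂ * ∑ j ∈ range l, (g j + v - gg j) + ∑ j ∈ range l, (g j + v - gg j) := by ring
    omega
  refine hgr hc (fun l hl => ?_) (fun l hl hl0 => ?_) (fun l hl hl0 => ?_) k3
  · show gg l ≤ g l + v - (l + 1) * u
    have := h0 l hl
    omega
  · show _ ≤ g l + v - (l + 1) * u - gg l
    have h3 := h1 l hl hl0
    have h4 := hgl l hl
    omega
  · have h4 := hgl l hl
    have h5 : ∑ j ∈ range l, (g j + v - gg j) ≤ ∑ j ∈ range n, (g j + v - gg j) :=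
      Finset.sum_le_sum_of_subset (Finset.range_subset_range.2 hl.le)
    have h6 : (c₀ + c₁ + c₂ + 1) * (1 + ∑ j ∈ range l, (g j + v - gg j)) ≤
        (c₀ + c₁ + c₂ + 1) * (1 + ∑ j ∈ range n, (g j + v - gg j)) :=
      Nat.mul_le_mul_left _ (by omega)
    omega

/-! ### Classes -/

/-- The number of digits. -/
theorem dig (n : ℕ) {C₁ s : ℝ} (hC : 1 ≤ C₁) (hs : 0 < s) : ∃ (ε : ℝ) (J₀ : ℕ), 0 < ε ∧
    ∀ J : ℕ, J₀ ≤ J → ∃ u : ℕ, Real.exp (C₁ * (ε * J + 1)) ≤ 2 ^ u ∧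
      C₁ * (ε * J + 1) ≤ s * J ∧ (((n + 1) * u + 1 : ℕ) : ℝ) ≤ s * J := by
  have hL : 0 < Real.log 2 := Real.log_pos (by norm_num)
  have hL1 : Real.log 2 ≤ 1 := by
    have := Real.log_two_lt_d9
    linarith
  have hC0 : 0 < C₁ := by linarith
  have hl0 : (0 : ℝ) ≤ n := Nat.cast_nonneg n
  obtain ⟨ε, hε⟩ : ∃ ε : ℝ, ε = s * Real.log 2 / (2 * C₁ * (n + 2)) := ⟨_, rfl⟩
  have hε0 : 0 < ε := by rw [hε]; positivity
  obtain ⟨J₀, hJ₀⟩ := big ((n + 2) * (C₁ / Real.log 2 + 1)) (show 0 < s / 2 by positivity)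
  refine ⟨ε, J₀, hε0, fun J hJ => ?_⟩
  have hJ0 : (0 : ℝ) ≤ J := Nat.cast_nonneg J
  have h1 := hJ₀ J hJ
  obtain ⟨X, hX⟩ : ∃ X : ℝ, X = C₁ * (ε * J + 1) / Real.log 2 := ⟨_, rfl⟩
  have hX0 : 0 ≤ X := by rw [hX]; positivity
  have hXL : X * Real.log 2 = C₁ * (ε * J + 1) := by
    rw [hX]
    field_simp
  have hXe : (n + 2) * (X + 1) = s / 2 * J + (n + 2) * (C₁ / Real.log 2 + 1) := by
    rw [hX, hε]
    field_simp
    ring
  have hXs : (n + 2) * (X + 1) ≤ s * J := by linarith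
  obtain ⟨u, hu⟩ : ∃ u : ℕ, u = ⌈X⌉₊ := ⟨_, rfl⟩
  have hu1 : X ≤ u := by rw [hu]; exact Nat.le_ceil X
  have hu2 : (u : ℝ) ≤ X + 1 := by rw [hu]; exact (Nat.ceil_lt_add_one hX0).le
  refine ⟨u, ?_, ?_, ?_⟩
  · have h7 : (2 : ℝ) ^ u = Real.exp (u * Real.log 2) := by
      rw [mul_comm, Real.exp_mul, Real.exp_log (by norm_num)]
      simp
    rw [h7, ← hXL]
    exact Real.exp_le_exp.2 (mul_le_mul_of_nonneg_right hu1 hL.le)
  · rw [← hXL]
    have h2 : X * Real.log 2 ≤ X * 1 := mul_le_mul_of_nonneg_left hL1 hX0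
    nlinarith
  · push_cast
    have h3 : ((n : ℝ) + 1) * u ≤ (n + 1) * (X + 1) := mul_le_mul_of_nonneg_left hu2 (by linarith)
    nlinarith

/-- **Re-centred balls of a class**: at all radii and windows near the given window, with
prescribed sides. `β l`: the precisions of the ball; `x l`: the losses, increasing. -/
theorem iso_lab (m n D : ℕ) (hD : 1 ≤ D) : ∃ C : ℝ, 1 ≤ C ∧ ∀ {Sc : PCl m} {c : ℕ → Fin m}
    {w w₁ e σ q₀ K₁ : ℝ} {β x : ℕ → ℝ}, TmH Sc → Set.InjOn c (Set.Iio n) → 0 < w → w < w₁ →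
    w₁ < 1 → 0 ≤ e → 0 < σ → 0 < q₀ → 0 < K₁ → (∀ l < n, 0 ≤ β l) → C * σ ≤ x 0 →
    (∀ l, l + 1 < n → C * x l ≤ x (l + 1)) →
    Bas Sc (fun J F A => ∃ B : F.Ω → Prop, Sub B A ∧ Pe F.p A ≤ K₁ * Pe F.p B ∧
      Chn c n (fun _ => D) w w e β J F B) →
    Bas Sc (fun J F A => ∀ (w' a' : ℕ) (gg : ℕ → ℕ), ⌊w * J⌋₊ ≤ w' → (w' : ℝ) ≤ w₁ * J →
      (w' : ℝ) + q₀ * J ≤ a' → (∀ l < n, (gg l : ℝ) ≤ (β l - x l) * J + (a' - w') + σ * J) →
      (∀ l < n, (β l - x l) * J + (a' - w') ≤ gg l + σ * J) →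
      (∀ l < n, (e + β l + σ) * J + (a' - w') ≤ J) →
      ∃ (B : F.Ω → Prop) (G₀ : PtT F → ℕ → MvPolynomial (Option (Fin m)) ℝ)
        (H₀ : LnT F → ℕ → MvPolynomial (Option (Fin m)) ℝ), Sub B A ∧
        Pe F.p A ≤ 2 * K₁ * Pe F.p B ∧
        ChOK F c n (fun _ => D) w' w' ⌊e * J⌋₊ (fun l => ⌊β l * J⌋₊) B G₀ H₀ ∧
        ChOK F c n (fun _ => D) a' w' ⌊(e + C * x (n - 1)) * J⌋₊ gg B
          (fun y l => Gno (c l) J J (fun y => G₀ y l) y)
          (fun s l => Hno (c l) (fun s => H₀ s l) s) ∧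
        ∀ ω, B ω → ∀ l < n, ∀ b : Option (Fin m) → ℝ,
          |eval b (Gno (c l) J J (fun y => G₀ y l) (ptr F J ω)) - eval b (G₀ (ptr F J ω) l)| ≤
            2 / 2 ^ ⌊β l * J⌋₊) := by
  obtain ⟨C₁, C₀, hC₁, hrec⟩ := rec_lab m n D hD
  obtain ⟨C, hC⟩ : ∃ C : ℝ, C = 4 + C₀ * (2 * n + 1) := ⟨_, rfl⟩
  have hC₀ : (0 : ℝ) ≤ C₀ := Nat.cast_nonneg _
  have hn0 : (0 : ℝ) ≤ n := Nat.cast_nonneg _
  have hC4 : 4 ≤ C := by
    rw [hC]
    have : 0 ≤ (C₀ : ℝ) * (2 * n + 1) := by positivity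
    linarith
  refine ⟨C, by linarith, ?_⟩
  intro Sc c w w₁ e σ q₀ K₁ β x hS hinj hw hww₁ hw₁ he hσ hq₀ hK₁ hβ hx0 hxs hball
  have hlog : 0 < Real.log 2 := Real.log_pos (by norm_num)
  have hx00 : 4 * σ ≤ x 0 := (mul_le_mul_of_nonneg_right hC4 hσ.le).trans hx0
  -- the losses
  have hxm : ∀ l < n, 4 * σ ≤ x l ∧ ∀ j ≤ l, x j ≤ x l := by
    intro l
    induction l with
    | zero =>
      intro _
      exact ⟨hx00, fun j hj => by rw [Nat.le_zero.1 hj]⟩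
    | succ l ih =>
      intro hl
      obtain ⟨h1, h2⟩ := ih (by omega)
      have h3 := hxs l hl
      have h4 : x l ≤ x (l + 1) := by nlinarith
      refine ⟨h1.trans h4, fun j hj => ?_⟩
      rcases Nat.lt_or_ge j (l + 1) with h5 | h5
      · exact (h2 j (by omega)).trans h4
      · rw [show j = l + 1 by omega]
  have hxn : 4 * σ ≤ x (n - 1) ∧ ∀ j < n, x j ≤ x (n - 1) := by
    rcases Nat.eq_zero_or_pos n with h0 | h0
    · subst h0
      exact ⟨hx00, fun j hj => absurd hj (Nat.not_lt_zero j)⟩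
    · obtain ⟨h1, h2⟩ := hxm (n - 1) (by omega)
      exact ⟨h1, fun j hj => h2 j (by omega)⟩
  obtain ⟨s, hs⟩ : ∃ s : ℝ, s = min (min σ q₀) ((1 - w₁) * Real.log 2) := ⟨_, rfl⟩
  have hs0 : 0 < s := by
    rw [hs]
    exact lt_min (lt_min hσ hq₀) (mul_pos (by linarith) hlog)
  have hs1 : s ≤ σ := by rw [hs]; exact (min_le_left _ _).trans (min_le_left _ _)
  have hs2 : s ≤ q₀ := by rw [hs]; exact (min_le_left _ _).trans (min_le_right _ _)
  have hs3 : s ≤ (1 - w₁) * Real.log 2 := by rw [hs]; exact min_le_right _ _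
  obtain ⟨ε, J₁, hε, hdig⟩ := dig n hC₁ hs0
  obtain ⟨J₂, hJ₂⟩ := big (C₀ + 1 : ℝ) hσ
  have htm := bas_ev (hS.2 ε hε) (κ := 1 / K₁) (by positivity)
  have hpos : Bas Sc (fun _ F A => 0 < Pe F.p A) := ⟨1, one_pos, 0, fun J _ F A hA =>
    hS.1 1 J F A hA⟩
  refine Bas.mono (max J₁ J₂) ((hball.and htm).and hpos) ?_
  rintro J hJ F A ⟨⟨⟨B, hBA, hBP, hL⟩, ht⟩, hA⟩ w' a' gg hw' hw₁' ha' hg1 hg2 hv
  have hJ0 : (0 : ℝ) ≤ J := Nat.cast_nonneg J
  obtain ⟨u, hu1, hu2, hu3⟩ := hdig J ((le_max_left _ _).trans hJ)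
  have hJ2 := hJ₂ J ((le_max_right _ _).trans hJ)
  have hB0 : 0 < Pe F.p B := by
    rcases (Pe_nonneg F.isLaw B).lt_or_eq with h | h
    · exact h
    · rw [← h, mul_zero] at hBP
      linarith
  have hwa : w' ≤ a' := by
    have h1 : (w' : ℝ) ≤ a' := by nlinarith
    exact_mod_cast h1
  have hw'J : w' ≤ J := by
    have h1 : (w' : ℝ) ≤ J := by nlinarith
    exact_mod_cast h1
  obtain ⟨v, hv'⟩ : ∃ v, v = a' - w' := ⟨_, rfl⟩
  have hav : w' + v = a' := by omega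
  have hvr : (v : ℝ) = a' - w' := by
    rw [← hav]
    push_cast
    ring
  have hu0 : (0 : ℝ) ≤ u := Nat.cast_nonneg u
  have hun : ((n : ℝ) + 1) * u + 1 ≤ s * J := by
    push_cast at hu3
    exact hu3
  have hsJ : s * J ≤ σ * J := mul_le_mul_of_nonneg_right hs1 hJ0
  have hC₀J : (C₀ : ℝ) + 1 ≤ σ * J := hJ2
  obtain ⟨G, H, hch⟩ := hL
  have hfl : ∀ l < n, (⌊β l * J⌋₊ : ℝ) ≤ β l * J := fun l hl =>
    Nat.floor_le (mul_nonneg (hβ l hl) hJ0)
  have hfl' : ∀ l, β l * J ≤ (⌊β l * J⌋₊ : ℝ) + 1 := fun l => (Nat.lt_floor_add_one _).le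
  have heJ : (⌊e * J⌋₊ : ℝ) ≤ e * J := Nat.floor_le (by positivity)
  have hlu : ∀ l < n, ((l : ℝ) + 1) * u ≤ (n + 1) * u := fun l hl => by
    refine mul_le_mul_of_nonneg_right ?_ hu0
    have : (l : ℝ) ≤ n := by exact_mod_cast hl.le
    linarith
  -- the sides
  have hsub : ∀ j < n, ((⌊β j * J⌋₊ + v - gg j : ℕ) : ℝ) ≤ (x j + σ) * J := by
    intro j hj
    have h1 := hg2 j hj
    have h2 := hfl j hj
    have h3 : 0 ≤ (x j + σ) * J := mul_nonneg (by linarith [(hxm j hj).1]) hJ0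
    rcases Nat.lt_or_ge (gg j) (⌊β j * J⌋₊ + v) with h4 | h4
    · rw [Nat.cast_sub h4.le]
      push_cast
      rw [hvr]
      have e1 : (x j + σ) * J = β j * J - (β j - x j) * J + σ * J := by ring
      linarith
    · rw [Nat.sub_eq_zero_of_le h4]
      simpa using h3
  have hsum : ∀ l ≤ n, ∀ X : ℝ, (∀ j < l, x j ≤ X) → 4 * σ ≤ X →
      ((∑ j ∈ range l, (⌊β j * J⌋₊ + v - gg j) : ℕ) : ℝ) ≤ 2 * n * (X * J) := by
    intro l hl X hX hX4
    push_cast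
    have hX0 : 0 ≤ X * J := mul_nonneg (by linarith) hJ0
    have h1 : ∀ j ∈ range l, ((⌊β j * J⌋₊ + v - gg j : ℕ) : ℝ) ≤ 2 * (X * J) := by
      intro j hj
      have hj' := mem_range.1 hj
      refine (hsub j (by omega)).trans ?_
      have h2 := hX j hj'
      have h3 : (x j + σ) * J ≤ (2 * X) * J := mul_le_mul_of_nonneg_right (by linarith) hJ0
      linarith
    refine (Finset.sum_le_sum h1).trans ?_
    rw [Finset.sum_const, card_range, nsmul_eq_mul]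
    have h4 : (l : ℝ) ≤ n := by exact_mod_cast hl
    have h5 := mul_le_mul_of_nonneg_right h4 (show 0 ≤ 2 * (X * J) by positivity)
    linarith
  have hlow : ∀ l < n, (gg l : ℝ) + 3 * σ * J + (l + 1) * u + 1 ≤ ⌊β l * J⌋₊ + v + 1 +
      (5 * σ - x l) * J := by
    intro l hl
    have h1 := hg1 l hl
    have h2 := hfl' l
    have h3 := hlu l hl
    rw [hvr]
    have e1 : (β l - x l) * (J : ℝ) = β l * J - x l * J := by ring
    have e2 : (5 * σ - x l) * (J : ℝ) = 5 * (σ * J) - x l * J := by ring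
    have e3 : 3 * σ * (J : ℝ) = 3 * (σ * J) := by ring
    linarith
  obtain ⟨B', k1, k2, k3, k4⟩ := hrec J F c w' w' ⌊e * J⌋₊ ⌊(e + C * x (n - 1)) * J⌋₊ v u
    (fun l => ⌊β l * J⌋₊) gg B G (cwn ⌊w * J⌋₊ w' H) (ε * J) hB0 hinj le_rfl hw'J
    (fun l hl => by
      have h1 := hv l hl
      have h2 := hfl l hl
      have h3 : ((⌊e * J⌋₊ + ⌊β l * J⌋₊ + v + C₀ : ℕ) : ℝ) ≤ (J : ℝ) := by
        push_cast
        rw [hvr]
        linarith
      exact_mod_cast h3) (by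
      have h1 : (q₀ : ℝ) * J ≤ v := by rw [hvr]; linarith
      have h2 : s * J ≤ q₀ * J := mul_le_mul_of_nonneg_right hs2 hJ0
      have h3 : ((n * u + 1 : ℕ) : ℝ) ≤ (v : ℝ) := by
        push_cast
        linarith
      exact_mod_cast h3) (by positivity)
    (ht B hBA (by
      rw [one_div, inv_mul_le_iff₀ hK₁]
      exact hBP) hB0) (by
      have h1 : s * J ≤ (1 - w₁) * Real.log 2 * J := mul_le_mul_of_nonneg_right hs3 hJ0
      have h2 := mul_le_mul_of_nonneg_right hw₁' hlog.le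
      linarith) hu1
    (chOK_win (hch.mono le_rfl (fun _ => le_rfl) hw' le_rfl) hw' hw'J)
    (fun l hl => by
      have h1 := hlow l hl
      have h2 := (hxm l hl).1
      have h3 : (5 * σ - x l) * (J : ℝ) ≤ σ * J := mul_le_mul_of_nonneg_right (by linarith) hJ0
      have h4 : ((gg l + (l + 1) * u : ℕ) : ℝ) ≤ ((⌊β l * J⌋₊ + v : ℕ) : ℝ) := by
        push_cast
        have e3 : 3 * σ * (J : ℝ) = 3 * (σ * J) := by ring
        linarith
      exact_mod_cast h4)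
    (fun l hl hl0 => by
      have h1 := hlow l hl
      obtain ⟨h5, h6⟩ := hxm (l - 1) (by omega)
      have h7 := hxs (l - 1) (by omega)
      rw [show l - 1 + 1 = l by omega] at h7
      have h8 := hsum l hl.le (x (l - 1)) (fun j hj => h6 j (by omega)) h5
      obtain ⟨Sg, hSg⟩ : ∃ Sg : ℕ, Sg = ∑ j ∈ range l, (⌊β j * J⌋₊ + v - gg j) := ⟨_, rfl⟩
      have h9 : ((gg l + C₀ * (1 + Sg) + (l + 1) * u : ℕ) : ℝ) ≤
          ((⌊β l * J⌋₊ + v : ℕ) : ℝ) := by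
        push_cast
        rw [← hSg] at h8
        have e3 : 3 * σ * (J : ℝ) = 3 * (σ * J) := by ring
        have h10 : (C₀ : ℝ) * (1 + Sg) ≤ C₀ * ((2 * n + 1) * (x (l - 1) * J)) := by
          refine mul_le_mul_of_nonneg_left ?_ hC₀
          have h11 : 4 * σ * J ≤ x (l - 1) * J := mul_le_mul_of_nonneg_right h5 hJ0
          linarith
        have h12 : x l * J ≥ C * x (l - 1) * J := mul_le_mul_of_nonneg_right h7 hJ0
        have h13 : C * x (l - 1) * J = 4 * (x (l - 1) * J) +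
            C₀ * ((2 * n + 1) * (x (l - 1) * J)) := by
          rw [hC]
          ring
        have h14 : 4 * σ * J ≤ x (l - 1) * J := mul_le_mul_of_nonneg_right h5 hJ0
        have e4 : (5 * σ - x l) * (J : ℝ) = 5 * (σ * J) - x l * J := by ring
        linarith
      rw [hSg] at h9
      exact_mod_cast h9)
    (by
      refine Nat.le_floor ?_
      have h8 := hsum n le_rfl (x (n - 1)) hxn.2 hxn.1
      obtain ⟨Sg, hSg⟩ : ∃ Sg : ℕ, Sg = ∑ j ∈ range n, (⌊β j * J⌋₊ + v - gg j) := ⟨_, rfl⟩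
      rw [← hSg] at h8 ⊢
      push_cast
      have h14 : 4 * σ * J ≤ x (n - 1) * J := mul_le_mul_of_nonneg_right hxn.1 hJ0
      have h10 : (C₀ : ℝ) * (1 + Sg) ≤ C₀ * ((2 * n + 1) * (x (n - 1) * J)) := by
        refine mul_le_mul_of_nonneg_left ?_ hC₀
        linarith
      have h13 : (e + C * x (n - 1)) * J = e * J + 4 * (x (n - 1) * J) +
          C₀ * ((2 * n + 1) * (x (n - 1) * J)) := by
        rw [hC]
        ring
      have h15 : 0 ≤ σ * (J : ℝ) := by positivity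
      linarith)
  rw [hav] at k3
  refine ⟨B', G, cwn ⌊w * J⌋₊ w' H, fun ω h => hBA ω (k1 ω h), ?_,
    (chOK_win (hch.mono le_rfl (fun _ => le_rfl) hw' le_rfl) hw' hw'J).sub k1, k3,
    fun ω hω => k4 ω (k1 ω hω)⟩
  calc Pe F.p A ≤ K₁ * Pe F.p B := hBP
    _ ≤ K₁ * (2 * Pe F.p B') := mul_le_mul_of_nonneg_left (by linarith) hK₁.le
    _ = _ := by ring

end Pool.ISO
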