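import Pool.Agent.H2.GEN.Lab2q

/-!
# Chains of universal degree at one point of a class, with abstract numbers

`lab2_abs`: 63's `lab2`, for abstract precisions `b κ l` and exponents `Ee κ` along the path
`(a - κ, w - κ)`.
-/

set_option autoImplicit false

namespace Pool.STAT

open Finset MvPolynomial
open Pool.Agent.H49.Ent Pool.Agent.H32.Dense Pool.STK Pool.KS3 Pool.KA Pool.KSAT Pool.PB Pool.GEN
open Pool.K2S Pool.TRC Pool.S6C
open Pool.LBT (ThrOf)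
open Pool.CHT (chsys bet Pts Ptq Csl TmH jattq bas_ev MCh MCq fl_add big tau)
open Pool.TRC31 (timeF)

namespace CLO

/-- **Chains of universal degree at one point of a class**, with abstract numbers: `b κ l` is the
precision of the label `l` at the point `(a - κ, w - κ)`, `Ee κ` the exponent of the gradients. -/
theorem lab2_abs (n S : ℕ) (hn : 1 ≤ n) (hS : 1 ≤ S) : ∃ (D : ℕ) (C : ℝ), 1 ≤ C ∧
    ∀ {m : ℕ} {Sc : PCl m} {c : ℕ → Fin m} {a w v ε : ℝ} {b : ℝ → ℕ → ℝ} {Ee : ℝ → ℝ}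
    {Q : Set ℝ}, TmH Sc → Set.InjOn c (Set.Iio n) → 0 < v → v < w → w ≤ a → a < 1 → 0 ≤ ε →
    (0 : ℝ) ∈ Q → (∀ x y : ℝ, 0 ≤ x → x < y → y ≤ w - v → ∃ κ ∈ Q, x < κ ∧ κ < y) →
    (∀ κ ∈ Q, 0 ≤ κ → κ ≤ w - v → ∀ l < n, a - κ ≤ b κ l ∧ b κ l ≤ 1 ∧
      b 0 l ≤ b κ l + S * κ + ε) →
    (∀ κ ∈ Q, ∀ κ' ∈ Q, 0 ≤ κ' → κ' ≤ κ → κ ≤ w - v → ∀ l < n, b κ l + (κ - κ') ≤ b κ' l) →
    (∀ (N : ℕ) (κ : ℕ → ℝ), (∀ k < N, κ k ∈ Q ∧ 0 ≤ κ k ∧ κ k ≤ w - v) → ∀ φ : ℝ, 0 < φ →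
      ∃ (K : ℕ) (d δ : ℕ → ℝ) (K₁ : ℝ), 0 < K₁ ∧ (∀ l < n, 0 < d l ∧ d l ≤ φ ∧ δ l ≤ φ) ∧
      Bas Sc (fun J F A => ∃ (B : F.Ω → Prop)
        (G : ℕ → PtT F → ℕ → MvPolynomial (Option (Fin m)) ℝ)
        (H : ℕ → LnT F → ℕ → MvPolynomial (Option (Fin m)) ℝ), Sub B A ∧
        Pe F.p A ≤ K₁ * Pe F.p B ∧ MCq F c n (fun _ => K) N
          (fun k k' => a - κ k ≤ a - κ k' ∧ w - κ k ≤ w - κ k')
          (fun k => ⌊(a - κ k) * J⌋₊) (fun k => ⌊(w - κ k) * J⌋₊) (fun k => ⌊Ee (κ k) * J⌋₊)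
          (fun k l => ⌊(b (κ k) l - d l) * J⌋₊) (fun l => ⌊δ l * J⌋₊) B G H)) →
    2 ≤ S * (w - v) → 0 ≤ Ee 0 →
    ∀ de : ℕ → ℝ, 0 < de 0 → C * ε < de 0 → (∀ l, l + 1 < n → C * de l < de (l + 1)) →
    (∀ l < n, de l < a) →
    ∃ K₁ : ℝ, 0 < K₁ ∧ Bas Sc (fun J F A => ∃ B : F.Ω → Prop, Sub B A ∧
      Pe F.p A ≤ K₁ * Pe F.p B ∧
      Chn c n (fun _ => D) a w (Ee 0 + C * de (n - 1)) (fun l => b 0 l - de l) J F B) := by
  classical
  obtain ⟨D, c₀, hc₀, hfam⟩ := lab2_famq n S hS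
  have hc1 : (1 : ℝ) ≤ c₀ := by exact_mod_cast hc₀
  refine ⟨D, 2 * c₀ ^ 2 + 2 * c₀, by nlinarith, ?_⟩
  intro m Sc c a w v ε bb Ee Q hSc hinj hv0 hvw hwa ha hε h0Q hQ hnum hmn hfm hSv he0 de hde0
    hdeε hdes hdea
  obtain ⟨σ, x, φ, μ, hσ0, hσc, hx0, hσx, hφ0, hφ1, hφ2, hφ3, hμ0, hμ1⟩ :=
    lab_consts hc₀ hde0 hε hv0 hdeε
  obtain ⟨C, hC⟩ : ∃ C : ℝ, C = 2 * c₀ ^ 2 + 2 * c₀ := ⟨_, rfl⟩
  rw [← hC] at hdeε hdes ⊢
  have hCc : (c₀ : ℝ) + 1 ≤ C := by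
    rw [hC]
    nlinarith
  have hSr : (1 : ℝ) ≤ S := by exact_mod_cast hS
  have hdmono := de_mono (by linarith : (1 : ℝ) ≤ C) hde0 hdes
  have hd0 : ∀ l < n, de 0 ≤ de l := fun l hl => hdmono 0 l (Nat.zero_le _) hl
  have hdn : ∀ l < n, de l ≤ de (n - 1) := fun l hl => hdmono l (n - 1) (by omega) (by omega)
  -- the path
  obtain ⟨N, κ, hκ, hκN, hκ0, hκs⟩ := path_ex (Q := Q) (W := w - v) (μ := μ) (by linarith) hμ0 h0Q
    hQ
  have hκm : ∀ k j, k ≤ j → j ≤ N → κ j ≤ κ k := by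
    intro k j hkj
    induction j with
    | zero =>
      intro _
      have : k = 0 := by omega
      rw [this]
    | succ j ih =>
      intro hj
      rcases Nat.lt_or_ge k (j + 1) with h1 | h1
      · exact (hκs j (by omega)).1.trans (ih (by omega) (by omega))
      · have : k = j + 1 := by omega
        rw [this]
  have hκ' : ∀ k < N + 1, κ k ∈ Q ∧ 0 ≤ κ k ∧ κ k ≤ w - v := fun k hk => hκ k (by omega)
  obtain ⟨b, hb⟩ : ∃ b : ℕ → ℕ → ℝ, b = fun k l => bb (κ k) l := ⟨_, rfl⟩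
  have hbN : ∀ l, b N l = bb 0 l := by
    intro l
    rw [hb]
    show bb (κ N) l = _
    rw [hκN]
  have hbsl : ∀ k ≤ N, ∀ l < n, b N l ≤ b k l + S * κ k + ε := by
    intro k hk l hl
    obtain ⟨h1, h2, h3⟩ := hκ k hk
    rw [hbN, hb]
    exact (hnum _ h1 h2 h3 l hl).2.2
  have hw0 : ∀ k ≤ N, v ≤ w - κ k := fun k hk => by
    have := (hκ k hk).2.2
    linarith
  have ha1 : ∀ k ≤ N, a - κ k ≤ 1 := fun k hk => by
    have := (hκ k hk).2.1
    linarith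
  have hwk : ∀ k ≤ N, w - κ k ≤ a - κ k := fun k _ => by linarith
  have hblow : ∀ k ≤ N, ∀ l < n, a - κ k ≤ b k l := fun k hk l hl => by
    obtain ⟨h1, h2, h3⟩ := hκ k hk
    rw [hb]
    exact (hnum _ h1 h2 h3 l hl).1
  have hbup : ∀ k ≤ N, ∀ l < n, b k l ≤ 1 := fun k hk l hl => by
    obtain ⟨h1, h2, h3⟩ := hκ k hk
    rw [hb]
    exact (hnum _ h1 h2 h3 l hl).2.1
  have hbmono : ∀ k ≤ N, ∀ k' ≤ k, ∀ l < n, b k' l + (κ k' - κ k) ≤ b k l := by
    intro k hk k' hk' l hl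
    obtain ⟨h1, h2, h3⟩ := hκ k hk
    obtain ⟨h1', h2', h3'⟩ := hκ k' (hk'.trans hk)
    rw [hb]
    exact hmn _ h1' _ h1 h2 (hκm k' k hk' hk) h3' l hl
  -- the labels
  obtain ⟨Kx, d, δ, K₁, hK₁, hdδ, hbas⟩ := hfm (N + 1) κ hκ' φ hφ0
  obtain ⟨C', hfam⟩ := hfam Kx N
  have hC'0 : (0 : ℝ) ≤ C' := Nat.cast_nonneg C'
  have hw1 : w < 1 := hwa.trans_lt ha
  obtain ⟨η, hη0, hη1, hη2⟩ := eta_ex (C := C') hx0 (by linarith : 0 < 1 - w)
  have htmb := bas_ev (hSc.2 η hη0) (inv_pos.2 hK₁)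
  obtain ⟨J₁, hJ₁⟩ := big (C' + 1 : ℝ) (show 0 < v / 2 by positivity)
  obtain ⟨J₂, hJ₂⟩ := big (C' : ℝ) (show 0 < (1 - w) / 2 by linarith)
  obtain ⟨J₃, hJ₃⟩ := big ((c₀ : ℝ) * (S + 3 + C') + C' + 1) (show 0 < x / 2 by positivity)
  obtain ⟨J₄, hJ₄⟩ := big ((c₀ : ℝ) * 4 + C' + 2) (show 0 < de 0 / 4 by positivity)
  refine ⟨K₁ * 2, by positivity, ?_⟩
  have hposb : Bas Sc (fun _ F A => 0 < Pe F.p A) := ⟨1, one_pos, 0, fun J _ F A hA =>
    hSc.1 1 J F A hA⟩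
  refine Bas.mono (max (max J₁ J₂) (max J₃ J₄)) ((hbas.and htmb).and hposb) ?_
  rintro J hJ F A ⟨⟨⟨B, G', H', hBA, hPe, hM⟩, htm⟩, hA⟩
  have hJ0 : (0 : ℝ) ≤ J := Nat.cast_nonneg J
  have b1 := hJ₁ J (((le_max_left _ _).trans (le_max_left _ _)).trans hJ)
  have b2 := hJ₂ J (((le_max_right _ _).trans (le_max_left _ _)).trans hJ)
  have b3 := hJ₃ J (((le_max_left _ _).trans (le_max_right _ _)).trans hJ)
  have b4 := hJ₄ J (((le_max_right _ _).trans (le_max_right _ _)).trans hJ)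
  have b4' : (c₀ : ℝ) * 4 + 2 ≤ de 0 / 4 * J := by linarith
  have hB : 0 < Pe F.p B := by
    by_contra h
    push Not at h
    have := mul_nonpos_of_nonneg_of_nonpos hK₁.le h
    linarith
  have hTm := htm B hBA (by
    rw [inv_mul_le_iff₀ hK₁]
    exact hPe) hB
  have hMN := hM.ok N (Nat.lt_succ_self N)
  have hM' := hM.mch (e' := ∑ k ∈ range (N + 1), ⌊Ee (κ k) * J⌋₊) (fun k hk =>
    Finset.single_le_sum (f := fun k => ⌊Ee (κ k) * (J : ℝ)⌋₊) (fun _ _ => Nat.zero_le _)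
      (mem_range.2 hk))
  obtain ⟨al, hal⟩ : ∃ al : ℕ → ℕ, al = fun k => ⌊(a - κ k) * J⌋₊ := ⟨_, rfl⟩
  obtain ⟨om, hom⟩ : ∃ om : ℕ → ℕ, om = fun k => ⌊(w - κ k) * J⌋₊ := ⟨_, rfl⟩
  obtain ⟨g, hg⟩ : ∃ g : ℕ → ℕ → ℕ, g = fun k l => ⌊(b k l - d l) * J⌋₊ := ⟨_, rfl⟩
  have hJat := Pool.TRC.jat_of_mch hM' (N' := N + 1) (idx := fun k => k) (fun k hk => hk)
    (fun k' hk' k hk => by
      have := hκm k k' hk.le (by omega)
      exact ⟨by linarith, by linarith⟩) (u := ⌊φ * J⌋₊) (fun l hl =>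
      Nat.floor_le_floor (mul_le_mul_of_nonneg_right (hdδ l hl).2.2 hJ0))
  have hJat' : Pool.TRC.Jat F c n Kx (N + 1) al om (∑ k ∈ range (N + 1), ⌊Ee (κ k) * J⌋₊) g
      ⌊φ * J⌋₊ B G' H' := by
    rw [hal, hom, hg, hb]
    exact hJat
  have hchN : ChOK F c n (fun _ => Kx) (al N) (om N) ⌊Ee 0 * J⌋₊ (g N) B (G' N) (H' N) := by
    rw [hal, hom, hg, hb, ← hκN]
    exact hMN
  have hd1 : ∀ l < n, d l ≤ φ := fun l hl => (hdδ l hl).2.1
  have hd2 : ∀ l < n, 0 < d l := fun l hl => (hdδ l hl).1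
  have hbd : ∀ k ≤ N, ∀ l < n, v / 2 ≤ b k l - d l := by
    intro k hk l hl
    have h1 := hblow k hk l hl
    have h2 := hw0 k hk
    have h3 := hd1 l hl
    have h4 := hwk k hk
    linarith
  have fle : ∀ y : ℝ, 0 ≤ y → ((⌊y * J⌋₊ : ℕ) : ℝ) ≤ y * J := fun y hy =>
    Nat.floor_le (mul_nonneg hy hJ0)
  have fge : ∀ y : ℝ, y * J < ((⌊y * J⌋₊ : ℕ) : ℝ) + 1 := fun y => Nat.lt_floor_add_one _
  obtain ⟨u, hu⟩ : ∃ u, u = ⌊(φ + ε) * J⌋₊ + S + 2 + C' := ⟨_, rfl⟩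
  have hur : (φ + ε) * J ≤ ⌊(φ + ε) * J⌋₊ + 1 := (fge _).le
  have hεJ0 : 0 ≤ ε * (J : ℝ) := mul_nonneg hε hJ0
  have hSκ : (1 : ℝ) * J ≤ S * κ 0 * J := by
    refine mul_le_mul_of_nonneg_right ?_ hJ0
    have h1 := mul_le_mul_of_nonneg_left hκ0 (by linarith : (0 : ℝ) ≤ S)
    linarith
  have hu' : (u : ℝ) = (⌊(φ + ε) * J⌋₊ : ℕ) + S + 2 + C' := by
    rw [hu]
    push_cast
    ring
  have hφJ : φ * (J : ℝ) ≤ (φ + ε) * J := mul_le_mul_of_nonneg_right (by linarith) hJ0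
  have hεJ : ε * (J : ℝ) ≤ (φ + ε) * J := mul_le_mul_of_nonneg_right (by linarith) hJ0
  have hur1 : φ * (J : ℝ) + 1 ≤ u := by
    rw [hu']
    linarith
  have hur2 : ε * (J : ℝ) + S + 1 ≤ u := by
    rw [hu']
    linarith
  obtain ⟨ℓ, hℓ⟩ : ∃ ℓ : ℕ → ℕ, ℓ = fun l => g N l - ⌊(bb 0 l - de l) * J⌋₊ := ⟨_, rfl⟩
  have hdede : ∀ l < n, d l ≤ de l := fun l hl => by
    have h1 := hd1 l hl
    have h2 := hd0 l hl
    linarith
  have hx1 : ∀ l < n, ⌊(bb 0 l - de l) * J⌋₊ ≤ g N l := by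
    intro l hl
    rw [hg]
    show _ ≤ ⌊(b N l - d l) * J⌋₊
    rw [hbN]
    have := hdede l hl
    exact Nat.floor_le_floor (mul_le_mul_of_nonneg_right (by linarith) hJ0)
  have hba : ∀ l < n, a ≤ bb 0 l := fun l hl => by
    have h1 := hblow N le_rfl l hl
    rw [hbN, hκN] at h1
    linarith
  have hℓr : ∀ l < n, (de l - d l) * J - 1 ≤ ℓ l ∧ (ℓ l : ℝ) ≤ (de l - d l) * J + 1 := by
    intro l hl
    have h1 : (ℓ l : ℝ) = (⌊(bb 0 l - d l) * J⌋₊ : ℕ) -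
        (⌊(bb 0 l - de l) * J⌋₊ : ℕ) := by
      have h2 := hx1 l hl
      rw [hℓ]
      show ((g N l - ⌊(bb 0 l - de l) * J⌋₊ : ℕ) : ℝ) = _
      rw [Nat.cast_sub h2, hg]
      show ((⌊(b N l - d l) * J⌋₊ : ℕ) : ℝ) - _ = _
      rw [hbN]
    have h3 := fle (bb 0 l - d l) (by
      have := hbd N le_rfl l hl
      rw [hbN] at this
      linarith)
    have h4 := fge (bb 0 l - d l)
    have h5 := fle (bb 0 l - de l) (by
      have := hdea l hl
      have := hba l hl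
      linarith)
    have h6 := fge (bb 0 l - de l)
    rw [h1]
    constructor <;> linarith
  obtain ⟨L, hL⟩ : ∃ L, L = ⌊de (n - 1) * J + 1⌋₊ := ⟨_, rfl⟩
  have hden : 0 < de (n - 1) := hde0.trans_le (hd0 (n - 1) (by omega))
  have hLr : (L : ℝ) ≤ de (n - 1) * J + 1 := by
    rw [hL]
    exact Nat.floor_le (by positivity)
  obtain ⟨s, hs⟩ : ∃ s, s = ⌊σ * J⌋₊ := ⟨_, rfl⟩
  have hsr : (s : ℝ) ≤ σ * J := by
    rw [hs]
    exact fle σ hσ0.le
  have hsr' : σ * J < s + 1 := by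
    rw [hs]
    exact fge σ
  have haN : al N = ⌊a * J⌋₊ := by
    rw [hal]
    show ⌊(a - κ N) * J⌋₊ = _
    rw [hκN, sub_zero]
  have hoN : om N = ⌊w * J⌋₊ := by
    rw [hom]
    show ⌊(w - κ N) * J⌋₊ = _
    rw [hκN, sub_zero]
  have hoNJ : om N ≤ J := by
    rw [hoN]
    exact Pool.LBT.fl_le' hw1.le J
  have homm : ∀ k ≤ N, om k ≤ om N := by
    intro k hk
    rw [hom]
    refine Nat.floor_le_floor (mul_le_mul_of_nonneg_right ?_ hJ0)
    have := hκm k N hk le_rfl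
    linarith
  obtain ⟨B', Gt, R, k1, k2, k3, k4⟩ := hfam m J F c al om
    (∑ k ∈ range (N + 1), ⌊Ee (κ k) * J⌋₊) ⌊Ee 0 * J⌋₊ g ⌊φ * J⌋₊ (⌊μ * J⌋₊ + 1) u s ℓ L B G' H' (η * J)
    hJat' hchN (fun i hi j hj h => hinj (Set.mem_Iio.2 hi) (Set.mem_Iio.2 hj) h)
    (by
      rw [haN]
      exact Pool.LBT.fl_le' ha.le J)
    (fun k hk => by
      rw [hom, hal]
      exact Nat.floor_le_floor (mul_le_mul_of_nonneg_right (hwk k hk) hJ0))
    (fun k hk => by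
      obtain ⟨h1, h2⟩ := hκs k hk
      rw [hom]
      refine ⟨Nat.floor_le_floor (mul_le_mul_of_nonneg_right (by linarith) hJ0), ?_⟩
      refine fl_add ?_
      have h3 := mul_le_mul_of_nonneg_right h2 hJ0
      linarith)
    (fun k hk => by
      obtain ⟨h1, h2⟩ := hκs k hk
      rw [hal]
      refine ⟨Nat.floor_le_floor (mul_le_mul_of_nonneg_right (by linarith) hJ0), ?_⟩
      refine fl_add ?_
      have h3 := mul_le_mul_of_nonneg_right h2 hJ0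
      linarith)
    (fun k hk k' hk' l hl => by
      have h1 := hbmono k hk k' hk' l hl
      have h2 := hbd k' (hk'.trans hk) l hl
      have h3 := hw0 k hk
      have h4 := hwk k hk
      have h5 := hκm k' k hk' hk
      have hu1 : 1 ≤ u := by rw [hu]; omega
      have h7 := mul_le_mul_of_nonneg_right h1 hJ0
      refine ⟨?_, ?_, ?_⟩
      · have h6 := fl2 (x := (b k' l - d l) * J) (y := (a - κ k) * J) (z := (b k l - d l) * J)
          (t := (a - κ k') * J) (mul_nonneg (by linarith) hJ0) (mul_nonneg (by linarith) hJ0)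
          (by linarith)
        rw [hg, hal]
        show ⌊(b k' l - d l) * J⌋₊ + ⌊(a - κ k) * J⌋₊ ≤ ⌊(b k l - d l) * J⌋₊ +
          ⌊(a - κ k') * J⌋₊ + u
        omega
      · have h6 := fl2 (x := (b k' l - d l) * J) (y := (w - κ k) * J) (z := (b k l - d l) * J)
          (t := (w - κ k') * J) (mul_nonneg (by linarith) hJ0) (mul_nonneg (by linarith) hJ0)
          (by linarith)
        rw [hg, hom]
        show ⌊(b k' l - d l) * J⌋₊ + ⌊(w - κ k) * J⌋₊ ≤ ⌊(b k l - d l) * J⌋₊ +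
          ⌊(w - κ k') * J⌋₊ + u
        omega
      · rw [hg]
        exact Nat.floor_le_floor (mul_le_mul_of_nonneg_right (by linarith) hJ0))
    (fun k hk l hl => by
      have h1 := mul_le_mul_of_nonneg_right (hblow k hk l hl) hJ0
      have h2 := mul_le_mul_of_nonneg_right (hd1 l hl) hJ0
      have h3 := hw0 k hk
      have h4 := hwk k hk
      rw [hal, hg]
      refine le_num (r := φ * J) (mul_nonneg (by linarith) hJ0) ?_ hur1
      linarith)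
    (fun k hk l hl => by
      have h1 := mul_le_mul_of_nonneg_right (hbsl k hk l hl) hJ0
      have h2 := hbd N le_rfl l hl
      have h3 := hw0 k hk
      have h4 := hwk k hk
      rw [hal, hom, hg]
      constructor
      · refine slp_num (r := ε * J) (mul_nonneg (by linarith) hJ0)
          (mul_nonneg (by linarith) hJ0) ?_ hur2
        rw [hκN]
        linarith
      · refine slp_num (r := ε * J) (mul_nonneg (by linarith) hJ0)
          (mul_nonneg (by linarith) hJ0) ?_ hur2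
        rw [hκN]
        linarith)
    (fun l hl => by
      have h1 := hbup N le_rfl l hl
      have h2 := hbd N le_rfl l hl
      have h3 := hd2 l hl
      have h4 := hw0 0 (Nat.zero_le _)
      have h5 := hwk 0 (Nat.zero_le _)
      have h10 : (b N l - d l) * J ≤ 1 * J := mul_le_mul_of_nonneg_right (by linarith) hJ0
      have h6 := hεJ0
      rw [hal, hom, hg]
      constructor
      · have h7 := slp_num (S := S) (u := u) (x := (b N l - d l) * J) (y := 0)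
          (A := (a - κ 0) * J) (B := (a - κ N) * J) (r := ε * J) (mul_nonneg (by linarith) hJ0)
          (mul_nonneg (by linarith) hJ0) (by
            rw [hκN]
            linarith) hur2
        rw [Nat.floor_zero, Nat.zero_add] at h7
        exact h7
      · have h7 := slp_num (S := S) (u := u) (x := (b N l - d l) * J) (y := 0)
          (A := (w - κ 0) * J) (B := (w - κ N) * J) (r := ε * J) (mul_nonneg (by linarith) hJ0)
          (mul_nonneg (by linarith) hJ0) (by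
            rw [hκN]
            linarith) hur2
        rw [Nat.floor_zero, Nat.zero_add] at h7
        exact h7)
    (fun k hk l hl => by
      have h1 := hbd k hk l hl
      have h2 := fge (b k l - d l)
      have h3 : v / 2 * J ≤ (b k l - d l) * J := mul_le_mul_of_nonneg_right h1 hJ0
      have h5 : ((C' : ℕ) : ℝ) < ((g k l + 1 : ℕ) : ℝ) := by
        rw [hg]
        push_cast
        linarith
      have h6 : C' < g k l + 1 := by exact_mod_cast h5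
      omega)
    (by
      have h1 : ⌊φ * J⌋₊ ≤ ⌊(φ + ε) * J⌋₊ := Nat.floor_le_floor hφJ
      omega)
    hB (by positivity)
    (fun k hk => by
      have h1 := homm k hk
      exact timeF hB hTm (by omega))
    (by
      rw [Nat.cast_sub hoNJ, hoN]
      have h1 := fle w (by linarith)
      have h2 : C' * (η * J) ≤ (1 - w) / 2 * J := by
        rw [← mul_assoc]
        exact mul_le_mul_of_nonneg_right hη2 hJ0
      linarith)
    (by
      rw [hs, hu]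
      exact loss_num hφ0.le hε hμ0.le hσx hφ1 hμ1 hη1 b3)
    (fun i hi => by
      rw [hℓ]
      exact Nat.sub_le _ _)
    (fun i hi => by
      rw [hL]
      refine Nat.le_floor ?_
      have h1 := (hℓr i hi).2
      have h2 := mul_nonneg (hd2 i hi).le hJ0
      have h3 := mul_le_mul_of_nonneg_right (hdn i hi) hJ0
      linarith)
    (by
      have h3 := loss_zero hc1 hσc hsr (hℓr 0 (by omega)).1 (hd1 0 (by omega)) hφ2 b4'
      exact_mod_cast h3)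
    (fun i hi => by
      have h3 := loss_succ hc1 hσc hsr (hℓr (i + 1) hi).1 (hℓr i (by omega)).2
        (hd2 i (by omega)).le (hd1 (i + 1) hi) hφ2 hde0 (hd0 i (by omega)) hCc (hdes i hi) b4'
      exact_mod_cast h3)
  refine ⟨B', fun ω h => hBA ω (k1 ω h), ?_, ?_⟩
  · calc Pe F.p A ≤ K₁ * Pe F.p B := hPe
      _ ≤ K₁ * (2 * Pe F.p B') := mul_le_mul_of_nonneg_left k2 hK₁.le
      _ = _ := by ring
  · have hE : ⌊Ee 0 * J⌋₊ + c₀ * (L + s + 1) + C' ≤ ⌊(Ee 0 + C * de (n - 1)) * J⌋₊ :=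
      grad_num hc1 hσc hsr hLr hde0 (hd0 (n - 1) (by omega)) hCc he0 b4
    have h1 : ChN F c n (fun _ => D) ⌊a * J⌋₊ ⌊w * J⌋₊ ⌊(Ee 0 + C * de (n - 1)) * J⌋₊
        (fun i => g N i - ℓ i) B' := by
      rw [haN, hoN] at k3
      exact ⟨_, _, k3.mono le_rfl (fun _ => le_rfl) le_rfl hE⟩
    refine Pool.CHT.ChN.congr h1 (fun _ _ => rfl) (fun l hl => ?_)
    have h2 := hx1 l hl
    rw [hℓ]
    show g N l - (g N l - ⌊(bb 0 l - de l) * J⌋₊) = ⌊(bb 0 l - de l) * J⌋₊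
    omega

end CLO

end Pool.STAT
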