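import Pool.Agent.H2.GEN.IsoC
import Pool.Agent.H2.GEN.LabAbs
import Pool.Agent.H62.GEN.JatB

/-!
# Re-centred ball charts of universal degree, with the target

`iso_core`: charts of the balls with small losses give re-centred charts with all prescribed sides.
`labN`: chains of universal degree for a list of coordinates and the target on the top, under a
pointwise hypothesis `PtN` along a path. `iso_ptN`: the re-centred charts.
-/

set_option autoImplicit false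

namespace Pool.ISO

open Finset Real MvPolynomial
open Pool.Agent.H49.Ent Pool.Agent.H32.Dense Pool.STK Pool.KA Pool.KSAT Pool.K2S Pool.PB Pool.S6C
open Pool.GEN Pool.CHT Pool.CHX
open Pool.LBT (LSys Slo Tri ThrOf fl_le' bas_false)
open Pool.LEV (Law)
open Pool.FLF (Fam.sub)
open Pool.JTN (TgP)

/-- **Re-centred ball charts of universal degree** at a window `w`, from charts of the ball with
the precisions `β l`, the exponent `E` of the gradients and small losses. `σ`: the loss. -/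
theorem iso_core (m n D : ℕ) (hn : 1 ≤ n) (hD1 : 1 ≤ D) (C₁ : ℝ) (hC₁ : 1 ≤ C₁) :
    ∃ C : ℝ, 1 ≤ C ∧ ∀ {Sc : PCl m} {c : ℕ → Fin m} {w E ε : ℝ} {β : ℕ → ℝ}, TmH Sc →
    Set.InjOn c (Set.Iio n) → 0 < w → w < 1 → 0 ≤ ε → 0 ≤ E → (∀ l < n, w ≤ β l) →
    (∀ de : ℕ → ℝ, 0 < de 0 → C₁ * ε < de 0 → (∀ l, l + 1 < n → C₁ * de l < de (l + 1)) →
      (∀ l < n, de l < w) → ∃ K₁ : ℝ, 0 < K₁ ∧ Bas Sc (fun J F A => ∃ B : F.Ω → Prop, Sub B A ∧
        Pe F.p A ≤ K₁ * Pe F.p B ∧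
        Chn c n (fun _ => D) w w (E + C₁ * de (n - 1)) (fun l => β l - de l) J F B)) →
    ∀ σ : ℝ, 0 < σ → C * ε < σ → σ < w → ∀ w₁ q₀ : ℝ, w < w₁ → w₁ < 1 →
    0 < q₀ → ∃ (K₁ μ : ℝ) (b : ℕ → ℝ), 0 < K₁ ∧ 0 < μ ∧
      (∀ l < n, β l - σ < b l ∧ b l < β l - μ) ∧
      Bas Sc (fun J F A => ∀ (w' a' : ℕ) (gg : ℕ → ℕ), ⌊w * J⌋₊ ≤ w' → (w' : ℝ) ≤ w₁ * J →
        (w' : ℝ) + q₀ * J ≤ a' → (∀ l < n, (gg l : ℝ) ≤ b l * J + (a' - w') + μ * J) →
        (∀ l < n, b l * J + (a' - w') ≤ gg l + μ * J) →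
        (∀ l < n, (β l + E + σ) * J + (a' - w') ≤ J) →
        ∃ (B : F.Ω → Prop) (g₀ : ℕ → ℕ) (G₀ : PtT F → ℕ → MvPolynomial (Option (Fin m)) ℝ)
          (H₀ : LnT F → ℕ → MvPolynomial (Option (Fin m)) ℝ), Sub B A ∧
          Pe F.p A ≤ K₁ * Pe F.p B ∧
          (∀ l < n, (β l - σ) * J ≤ g₀ l ∧ (g₀ l : ℝ) ≤ β l * J) ∧
          ChOK F c n (fun _ => D) w' w' ⌊(E + σ) * J⌋₊ g₀ B G₀ H₀ ∧
          ChOK F c n (fun _ => D) a' w' ⌊(E + σ) * J⌋₊ gg B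
            (fun y l => Gno (c l) J J (fun y => G₀ y l) y)
            (fun s l => Hno (c l) (fun s => H₀ s l) s) ∧
          ∀ ω, B ω → ∀ l < n, ∀ b : Option (Fin m) → ℝ,
            |eval b (Gno (c l) J J (fun y => G₀ y l) (ptr F J ω)) - eval b (G₀ (ptr F J ω) l)| ≤
              2 / 2 ^ g₀ l) := by
  obtain ⟨C₂, hC₂, hiso⟩ := iso_lab m n D hD1
  -- the constants
  obtain ⟨U, hU⟩ : ∃ U : ℝ, U = (C₁ + 1) ^ n := ⟨_, rfl⟩
  obtain ⟨V, hV⟩ : ∃ V : ℝ, V = C₂ ^ (n + 1) := ⟨_, rfl⟩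
  have hU1 : 1 ≤ U := by rw [hU]; exact one_le_pow₀ (by linarith)
  have hV1 : 1 ≤ V := by rw [hV]; exact one_le_pow₀ hC₂
  obtain ⟨W, hW⟩ : ∃ W : ℝ, W = 8 * C₁ * U * V * C₂ := ⟨_, rfl⟩
  have hC₁0 : 0 < C₁ := by linarith
  have hC₂0 : 0 < C₂ := by linarith
  have hU0 : 0 < U := by linarith
  have hV0 : 0 < V := by linarith
  have hW8 : 8 ≤ W := by
    rw [hW]
    have h1 : 1 ≤ C₁ * U := by nlinarith
    have h2 : 1 ≤ C₁ * U * V := by nlinarith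
    have h3 : 1 ≤ C₁ * U * V * C₂ := by nlinarith
    nlinarith
  refine ⟨(W + 2) * C₁, by nlinarith, ?_⟩
  intro Sc c w E ε β hSc hinj hw0 hw1 hε hE hβ hlab σ hσ hσε hσw w₁ q₀ hww₁ hw₁ hq₀
  -- the losses
  obtain ⟨d, hd⟩ : ∃ d : ℝ, d = σ / (W + 1) := ⟨_, rfl⟩
  have hd0 : 0 < d := by rw [hd]; exact div_pos hσ (by linarith)
  have hdW : (W + 1) * d = σ := by
    rw [hd]
    field_simp
  have hdε : C₁ * ε < d := by
    rw [hd, lt_div_iff₀ (by linarith)]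
    have h1 : C₁ * ε * (W + 1) ≤ (W + 2) * C₁ * ε := by
      have h2 : 0 ≤ C₁ * ε := by positivity
      nlinarith
    linarith
  obtain ⟨de, hde⟩ : ∃ de : ℕ → ℝ, de = fun l => (C₁ + 1) ^ l * d := ⟨_, rfl⟩
  obtain ⟨μ, hμ⟩ : ∃ μ : ℝ, μ = d / V := ⟨_, rfl⟩
  have hμ0 : 0 < μ := by rw [hμ]; positivity
  have hμV : V * μ = d := by
    rw [hμ]
    field_simp
  have hμd : μ ≤ d := by nlinarith
  obtain ⟨x, hx⟩ : ∃ x : ℕ → ℝ, x = fun l => C₂ ^ (l + 1) * μ := ⟨_, rfl⟩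
  have hde0 : de 0 = d := by rw [hde]; simp
  have hdes : ∀ l, C₁ * de l < de (l + 1) := by
    intro l
    rw [hde]
    show C₁ * ((C₁ + 1) ^ l * d) < (C₁ + 1) ^ (l + 1) * d
    rw [pow_succ]
    have : 0 < (C₁ + 1) ^ l * d := by positivity
    nlinarith
  have hden : ∀ l < n, d ≤ de l ∧ de l ≤ U * d := by
    intro l hl
    rw [hde, hU]
    constructor
    · exact le_mul_of_one_le_left hd0.le (one_le_pow₀ (by linarith))
    · exact mul_le_mul_of_nonneg_right (pow_le_pow_right₀ (by linarith) hl.le) hd0.le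
  have hxn : ∀ l < n, μ ≤ x l ∧ x l ≤ d := by
    intro l hl
    rw [hx]
    constructor
    · exact le_mul_of_one_le_left hμ0.le (one_le_pow₀ hC₂)
    · rw [← hμV, hV]
      exact mul_le_mul_of_nonneg_right (pow_le_pow_right₀ hC₂ (by omega)) hμ0.le
  have hUd : C₁ * (U * d) * 8 ≤ σ := by
    have h1 : 8 * C₁ * U ≤ W := by
      rw [hW]
      have h2 : 0 ≤ 8 * C₁ * U := by positivity
      have h3 : 1 ≤ V * C₂ := by nlinarith
      calc 8 * C₁ * U = 8 * C₁ * U * 1 := (mul_one _).symm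
        _ ≤ 8 * C₁ * U * (V * C₂) := mul_le_mul_of_nonneg_left h3 h2
        _ = _ := by ring
    nlinarith
  have hC₂d : C₂ * d * 8 ≤ σ := by
    have h1 : 8 * C₂ ≤ W := by
      rw [hW]
      have h3 : 1 ≤ C₁ * U * V := by
        have h1 : 1 ≤ C₁ * U := by nlinarith
        nlinarith
      calc 8 * C₂ = 8 * C₂ * 1 := (mul_one _).symm
        _ ≤ 8 * C₂ * (C₁ * U * V) := mul_le_mul_of_nonneg_left h3 (by positivity)
        _ = _ := by ring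
    nlinarith
  have hen : n - 1 < n := by omega
  have he1 : E + C₁ * de (n - 1) ≤ E + σ / 4 := by
    have h1 := (hden (n - 1) hen).2
    have h2 := mul_le_mul_of_nonneg_left h1 hC₁0.le
    linarith
  have hUdσ : U * d * 8 ≤ σ := by nlinarith
  obtain ⟨K₁, hK₁, hball⟩ := hlab de (by rw [hde0]; exact hd0)
    (by rw [hde0]; exact hdε) (fun l _ => hdes l) (fun l hl => by
      have := (hden l hl).2
      linarith)
  have h1 := hiso (Sc := Sc) (c := c) (w := w) (w₁ := w₁) (e := E + C₁ * de (n - 1)) (σ := μ)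
    (q₀ := q₀) (K₁ := K₁) (β := fun l => β l - de l) (x := x) hSc hinj hw0 hww₁ hw₁
    (by
      have h2 := (hden (n - 1) hen).1
      have : 0 ≤ C₁ * de (n - 1) := mul_nonneg hC₁0.le (by linarith)
      linarith) hμ0 hq₀ hK₁ (fun l hl => by
      have h2 := (hden l hl).2
      have h3 := hβ l hl
      show 0 ≤ β l - de l
      linarith) (by
      rw [hx]
      show C₂ * μ ≤ C₂ ^ (0 + 1) * μ
      rw [zero_add, pow_one]) (fun l _ => by
      rw [hx]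
      show C₂ * (C₂ ^ (l + 1) * μ) ≤ C₂ ^ (l + 1 + 1) * μ
      rw [pow_succ _ (l + 1)]
      linarith)
    (Bas.mono 0 hball (by
      rintro J _ F A ⟨B, k1, k2, k3⟩
      exact ⟨B, k1, k2, k3⟩))
  obtain ⟨J₁, hJ₁⟩ := big 1 (show 0 < σ / 2 by positivity)
  refine ⟨2 * K₁, μ, fun l => β l - de l - x l, by positivity, hμ0, fun l hl => ?_,
    Bas.mono J₁ h1 ?_⟩
  · have h2 := hden l hl
    have h3 := hxn l hl
    constructor
    · show β l - σ < β l - de l - x l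
      have : d * 8 ≤ σ := by nlinarith
      linarith
    · show β l - de l - x l < β l - μ
      linarith
  rintro J hJ F A hA w' a' gg hw' hw₁' ha' hg1 hg2 hv
  have hJ0 : (0 : ℝ) ≤ J := Nat.cast_nonneg J
  have hJ1 := hJ₁ J hJ
  obtain ⟨B, G₀, H₀, k1, k2, k3, k4, k5⟩ := hA w' a' gg hw' hw₁' ha' hg1 hg2 (fun l hl => by
    have h2 := hv l hl
    have h3 := hden l hl
    have h4 : (E + C₁ * de (n - 1) + (β l - de l) + μ) * J ≤
        (β l + E + σ) * J := mul_le_mul_of_nonneg_right (by linarith) hJ0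
    linarith)
  have hge : ∀ l < n, (β l - σ) * J ≤ (⌊(β l - de l) * J⌋₊ : ℝ) ∧
      (⌊(β l - de l) * J⌋₊ : ℝ) ≤ β l * J := by
    intro l hl
    have h3 := hden l hl
    have h4 := hβ l hl
    have h5 := Nat.lt_floor_add_one ((β l - de l) * (J : ℝ))
    have h6 := Nat.floor_le (show 0 ≤ (β l - de l) * (J : ℝ) from
      mul_nonneg (by linarith) hJ0)
    have h7 : (β l - σ) * (J : ℝ) ≤ (β l - de l - σ / 2) * J :=
      mul_le_mul_of_nonneg_right (by linarith) hJ0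
    have h8 : (β l - de l) * (J : ℝ) ≤ β l * J :=
      mul_le_mul_of_nonneg_right (by linarith) hJ0
    have e1 : (β l - de l - σ / 2) * (J : ℝ) = (β l - de l) * J -
        σ / 2 * J := by ring
    constructor <;> linarith
  refine ⟨B, fun l => ⌊(β l - de l) * J⌋₊, G₀, H₀, k1, k2, hge, k3.mono le_rfl
    (fun _ => le_rfl) le_rfl (Nat.floor_le_floor (mul_le_mul_of_nonneg_right ?_ hJ0)),
    k4.mono le_rfl (fun _ => le_rfl) le_rfl
      (Nat.floor_le_floor (mul_le_mul_of_nonneg_right ?_ hJ0)), k5⟩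
  · linarith
  · have h2 := (hxn (n - 1) hen).2
    have h3 := mul_le_mul_of_nonneg_left h2 hC₂0.le
    linarith


/-! ### The target on the top -/

/-- **The data of a point** `(x, y)` for joint chains of `c 0, …, c (r - 1)` and of the target
`c r`: a greedy order with the slowness `vs`, the exponent `e` of the gradients of the list, a label
of the target with the precision `Pt x y`, visible up to `sg`, and the exponent `E` of its
gradients. -/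
structure PtN {m : ℕ} (S : PCl m) (P : List (Fin m) × Fin m → ℝ → ℝ → ℝ) (θ : ℝ) (c : ℕ → Fin m) (r : ℕ)
    (Pt : ℝ → ℝ → ℝ) (x y vs e e₀ E sg : ℝ) : Prop where
  pts : Pts S P θ c r 1 (fun _ => x) (fun _ => y) vs e₀
  vs0 : 0 ≤ vs
  e1 : Csl r r * vs < e
  e2 : e ≤ e₀
  E1 : (e + vs) * (r + 1) < E
  E2 : sg < E + Pt x y ∨ 1 ≤ r ∧ sg < E + bet P c (r - 1) x y
  tg : TgP S c r (Pt x y) x y sg
  low : x ≤ Pt x y
  lt : Pt x y < 1

/-- The levels of the list and of the target. -/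
noncomputable def lvN {m : ℕ} (P : List (Fin m) × Fin m → ℝ → ℝ → ℝ) (c : ℕ → Fin m) (r : ℕ)
    (Pt : ℝ → ℝ → ℝ) (l : ℕ) (a w : ℝ) : ℝ := if l < r then bet P c l a w else Pt a w

/-- **Chains of universal degree**, with the target on the top. -/
theorem labN (r S : ℕ) (hS : 1 ≤ S) : ∃ (D : ℕ) (C : ℝ), 1 ≤ C ∧
    ∀ {m : ℕ} {Sc : PCl m} {P : List (Fin m) × Fin m → ℝ → ℝ → ℝ} {θ : ℝ} {c : ℕ → Fin m}
    {Pt : ℝ → ℝ → ℝ} {a w v ε : ℝ} {vs e e₀ E sg : ℝ → ℝ} {Q : Set ℝ}, ThrOf (chsys m θ) Sc P →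
    0 < θ → TmH Sc → Set.InjOn c (Set.Iio (r + 1)) → Law Pt → 0 < v → v < w → w ≤ a → a < 1 →
    0 ≤ ε → (0 : ℝ) ∈ Q → (∀ x y : ℝ, 0 ≤ x → x < y → y ≤ w - v → ∃ κ ∈ Q, x < κ ∧ κ < y) →
    (∀ κ ∈ Q, 0 ≤ κ → κ ≤ w - v →
      PtN Sc P θ c r Pt (a - κ) (w - κ) (vs κ) (e κ) (e₀ κ) (E κ) (sg κ) ∧
      ∀ l ≤ r, lvN P c r Pt l a w ≤ lvN P c r Pt l (a - κ) (w - κ) + S * κ + ε) →
    2 ≤ S * (w - v) → ∀ de : ℕ → ℝ, 0 < de 0 → C * ε < de 0 →
    (∀ l, l < r → C * de l < de (l + 1)) → (∀ l ≤ r, de l < a) →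
    ∃ K₁ : ℝ, 0 < K₁ ∧ Bas Sc (fun J F A => ∃ B : F.Ω → Prop, Sub B A ∧
      Pe F.p A ≤ K₁ * Pe F.p B ∧
      Chn c (r + 1) (fun _ => D) a w (E 0 + C * de r) (fun l => lvN P c r Pt l a w - de l)
        J F B) := by
  obtain ⟨D, C, hC, hab⟩ := Pool.STAT.CLO.lab2_abs (r + 1) S (by omega) hS
  refine ⟨D, C, hC, ?_⟩
  intro m Sc P θ c Pt a w v ε vs e e₀ E sg Q hP hθ hSc hinj hPt hv0 hvw hwa ha hε h0Q hQ hpt hSv
    de hde0 hdeε hdes hdea
  have hinj' : Set.InjOn c (Set.Iio r) := hinj.mono fun x hx => lt_trans hx (Nat.lt_succ_self r)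
  have hbl : ∀ l κ, l < r → lvN P c r Pt l (a - κ) (w - κ) = bet P c l (a - κ) (w - κ) :=
    fun l κ hl => if_pos hl
  have hbr : ∀ κ, lvN P c r Pt r (a - κ) (w - κ) = Pt (a - κ) (w - κ) := fun κ =>
    if_neg (lt_irrefl r)
  have hlt : ∀ κ ∈ Q, 0 ≤ κ → κ ≤ w - v → ∀ l < r + 1, lvN P c r Pt l (a - κ) (w - κ) < 1 := by
    intro κ h1 h2 h3 l hl
    have h4 := (hpt κ h1 h2 h3).1
    rcases Nat.lt_or_ge l r with h5 | h5
    · rw [hbl l κ h5]
      have h6 := h4.pts.vis 0 one_pos l h5 l le_rfl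
      have h7 : 0 < θ * (w - κ) := mul_pos hθ (by linarith)
      have h8 : tau P c l l (a - κ) (w - κ) = bet P c l (a - κ) (w - κ) := rfl
      rw [h8] at h6
      linarith
    · have h6 : l = r := by omega
      rw [h6, hbr]
      exact h4.lt
  have hlow : ∀ κ ∈ Q, 0 ≤ κ → κ ≤ w - v → ∀ l < r + 1, a - κ ≤ lvN P c r Pt l (a - κ) (w - κ) := by
    intro κ h1 h2 h3 l hl
    rcases Nat.lt_or_ge l r with h5 | h5
    · rw [hbl l κ h5]
      exact hP.low _ _ _ (by linarith) (by linarith) (by linarith)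
    · have h6 : l = r := by omega
      rw [h6, hbr]
      exact (hpt κ h1 h2 h3).1.low
  have hlaw : ∀ κ κ' : ℝ, 0 ≤ κ' → κ' ≤ κ → κ ≤ w - v → ∀ {f : ℝ → ℝ → ℝ}, Law f →
      f (a - κ') (w - κ') < 1 → f (a - κ) (w - κ) + (κ - κ') ≤ f (a - κ') (w - κ') := by
    intro κ κ' h1 h2 h3 f hf h4
    have h5 := hf.slope (a - κ) (w - κ) (κ - κ') (by linarith) (by linarith) (by linarith)
      (by linarith)
    have e1 : a - κ + (κ - κ') = a - κ' := by ring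
    rw [e1] at h5
    have h6 := hf.mono_w (a - κ') (w - κ) (w - κ') (by linarith) (by linarith) (by linarith)
      (by linarith)
    rcases min_le_iff.1 (h5.trans h6) with h7 | h7
    · linarith
    · exact h7
  obtain ⟨K₁, hK₁, hb⟩ := hab (Sc := Sc) (c := c) (a := a) (w := w) (v := v) (ε := ε)
    (b := fun κ l => lvN P c r Pt l (a - κ) (w - κ)) (Ee := E) (Q := Q) hSc hinj hv0 hvw hwa ha hε
    h0Q hQ (fun κ h1 h2 h3 l hl => ⟨hlow κ h1 h2 h3 l hl, (hlt κ h1 h2 h3 l hl).le, by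
      have h4 := (hpt κ h1 h2 h3).2 l (by omega)
      simp only [sub_zero]
      exact h4⟩)
    (fun κ h1 κ' h1' h2 h3 h4 l hl => by
      have h5 := hlt κ' h1' h2 (h3.trans h4) l hl
      rcases Nat.lt_or_ge l r with h6 | h6
      · simp only [hbl l _ h6] at h5 ⊢
        exact hlaw κ κ' h2 h3 h4 (hP.law _) h5
      · have h7 : l = r := by omega
        rw [h7] at h5 ⊢
        simp only [hbr] at h5 ⊢
        exact hlaw κ κ' h2 h3 h4 hPt h5)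
    (fun N κ hκ φ hφ => by
      have hPts : Ptq Sc P θ c r N (fun k => a - κ k) (fun k => w - κ k) (fun k => vs (κ k))
          (fun k => e₀ (κ k)) := Pool.STAT.CLO.ptq_path fun k hk => by
        obtain ⟨h1, h2, h3⟩ := hκ k hk
        exact (hpt _ h1 h2 h3).1.pts
      have hN : ∀ k < N, PtN Sc P θ c r Pt (a - κ k) (w - κ k) (vs (κ k)) (e (κ k)) (e₀ (κ k))
          (E (κ k)) (sg (κ k)) := fun k hk => by
        obtain ⟨h1, h2, h3⟩ := hκ k hk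
        exact (hpt _ h1 h2 h3).1
      obtain ⟨K, d, δ, K₁, k1, k2, k3⟩ := Pool.JTN.jatn_pts hP hθ hSc hinj'
        (e := fun k => e (κ k)) (E := fun k => E (κ k)) (sg := fun k => sg (κ k))
        (P₀ := fun k => Pt (a - κ k) (w - κ k))
        (fun k hk => (hN k hk).vs0) hPts (fun k hk => (hN k hk).e1) (fun k hk => (hN k hk).e2)
        (fun k hk => (hN k hk).low) (fun k hk => (hN k hk).tg)
        (fun k' hk' k hk h1 h2 => by
          have h3 := (hκ k hk).2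
          have h4 := (hκ k' hk').2
          exact hPt.mono (by linarith) (by linarith) h1 h2 (by linarith) (by linarith))
        (fun k hk => (hN k hk).E1) (fun k hk => (hN k hk).E2) φ hφ
      refine ⟨K, d, δ, K₁, k1, fun l hl => ⟨(k2 l (by omega)).1, (k2 l (by omega)).2.1,
        (k2 l (by omega)).2.2.2⟩, k3.mono 0 ?_⟩
      rintro J - F A ⟨B, G, H, h1, h2, h3, -⟩
      obtain ⟨G', H', h4⟩ := Pool.CHT.MCq.congr (K' := fun _ => K)
        (g' := fun k l => ⌊(lvN P c r Pt l (a - κ k) (w - κ k) - d l) * J⌋₊)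
        (δ' := fun l => ⌊δ l * J⌋₊) h3 (fun _ _ => le_rfl) (fun k l hl => rfl) (fun _ _ => rfl)
      exact ⟨B, G', H', h1, h2, h4⟩)
    hSv (by
      have h1 := (hpt 0 h0Q le_rfl (by linarith)).1
      have h2 := h1.E1
      have h3 : 0 ≤ (Csl r r : ℝ) * vs 0 := mul_nonneg (Nat.cast_nonneg _) h1.vs0
      have h4 := h1.e1
      have h5 : 0 ≤ (e 0 + vs 0) * ((r : ℝ) + 1) :=
        mul_nonneg (by linarith [h1.vs0]) (by positivity)
      linarith) de hde0 hdeε (fun l hl => hdes l (by omega)) (fun l hl => hdea l (by omega))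
  refine ⟨K₁, hK₁, ?_⟩
  rw [Nat.add_sub_cancel] at hb
  simp only [sub_zero] at hb
  exact hb

/-- **Re-centred ball charts of universal degree**, with the target. -/
theorem iso_ptN (m r S : ℕ) (hS : 1 ≤ S) : ∃ (D : ℕ) (C : ℝ), 1 ≤ D ∧ 1 ≤ C ∧
    ∀ {Sc : PCl m} {P : List (Fin m) × Fin m → ℝ → ℝ → ℝ} {θ : ℝ} {c : ℕ → Fin m}
    {Pt : ℝ → ℝ → ℝ} {w v ε : ℝ} {vs e e₀ E sg : ℝ → ℝ} {Q : Set ℝ}, ThrOf (chsys m θ) Sc P →
    0 < θ → TmH Sc → Set.InjOn c (Set.Iio (r + 1)) → Law Pt → 0 < v → v < w → w < 1 →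
    0 ≤ ε → (0 : ℝ) ∈ Q → (∀ x y : ℝ, 0 ≤ x → x < y → y ≤ w - v → ∃ κ ∈ Q, x < κ ∧ κ < y) →
    (∀ κ ∈ Q, 0 ≤ κ → κ ≤ w - v →
      PtN Sc P θ c r Pt (w - κ) (w - κ) (vs κ) (e κ) (e₀ κ) (E κ) (sg κ) ∧
      ∀ l ≤ r, lvN P c r Pt l w w ≤ lvN P c r Pt l (w - κ) (w - κ) + S * κ + ε) →
    2 ≤ S * (w - v) →
    ∀ σ : ℝ, 0 < σ → C * ε < σ → σ < w → ∀ w₁ q₀ : ℝ, w < w₁ → w₁ < 1 →
    0 < q₀ → ∃ (K₁ μ : ℝ) (b : ℕ → ℝ), 0 < K₁ ∧ 0 < μ ∧
      (∀ l ≤ r, lvN P c r Pt l w w - σ < b l ∧ b l < lvN P c r Pt l w w - μ) ∧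
      Bas Sc (fun J F A => ∀ (w' a' : ℕ) (gg : ℕ → ℕ), ⌊w * J⌋₊ ≤ w' → (w' : ℝ) ≤ w₁ * J →
        (w' : ℝ) + q₀ * J ≤ a' → (∀ l ≤ r, (gg l : ℝ) ≤ b l * J + (a' - w') + μ * J) →
        (∀ l ≤ r, b l * J + (a' - w') ≤ gg l + μ * J) →
        (∀ l ≤ r, (lvN P c r Pt l w w + E 0 + σ) * J + (a' - w') ≤ J) →
        ∃ (B : F.Ω → Prop) (g₀ : ℕ → ℕ) (G₀ : PtT F → ℕ → MvPolynomial (Option (Fin m)) ℝ)
          (H₀ : LnT F → ℕ → MvPolynomial (Option (Fin m)) ℝ), Sub B A ∧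
          Pe F.p A ≤ K₁ * Pe F.p B ∧
          (∀ l ≤ r, (lvN P c r Pt l w w - σ) * J ≤ g₀ l ∧ (g₀ l : ℝ) ≤ lvN P c r Pt l w w * J) ∧
          ChOK F c (r + 1) (fun _ => D) w' w' ⌊(E 0 + σ) * J⌋₊ g₀ B G₀ H₀ ∧
          ChOK F c (r + 1) (fun _ => D) a' w' ⌊(E 0 + σ) * J⌋₊ gg B
            (fun y l => Gno (c l) J J (fun y => G₀ y l) y)
            (fun s l => Hno (c l) (fun s => H₀ s l) s) ∧
          ∀ ω, B ω → ∀ l ≤ r, ∀ b : Option (Fin m) → ℝ,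
            |eval b (Gno (c l) J J (fun y => G₀ y l) (ptr F J ω)) - eval b (G₀ (ptr F J ω) l)| ≤
              2 / 2 ^ g₀ l) := by
  obtain ⟨D₀, C₁, hC₁, hlab⟩ := labN r S hS
  obtain ⟨D, hD⟩ : ∃ D, D = max D₀ 1 := ⟨_, rfl⟩
  have hDD : D₀ ≤ D := by rw [hD]; exact le_max_left _ _
  have hD1 : 1 ≤ D := by rw [hD]; exact le_max_right _ _
  obtain ⟨C, hC, hcore⟩ := iso_core m (r + 1) D (by omega) hD1 C₁ hC₁
  refine ⟨D, C, hD1, hC, ?_⟩
  intro Sc P θ c Pt w v ε vs e e₀ E sg Q hP hθ hSc hinj hPt hv0 hvw hw1 hε h0Q hQ hpt hSv σ hσ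
    hσε hσw w₁ q₀ hww₁ hw₁ hq₀
  have hw0 : 0 < w := hv0.trans hvw
  have h0 := (hpt 0 h0Q le_rfl (by linarith)).1
  have hE0 : 0 ≤ E 0 := by
    have h2 := h0.E1
    have h3 : 0 ≤ (Csl r r : ℝ) * vs 0 := mul_nonneg (Nat.cast_nonneg _) h0.vs0
    have h4 := h0.e1
    have h5 : 0 ≤ (e 0 + vs 0) * ((r : ℝ) + 1) :=
      mul_nonneg (by linarith [h0.vs0]) (by positivity)
    linarith
  have hβ : ∀ l < r + 1, w ≤ lvN P c r Pt l w w := by
    intro l hl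
    unfold lvN
    split_ifs with h1
    · exact hP.low ((List.range l).map c, c l) w w hw0.le le_rfl hw1.le
    · have h2 := h0.low
      simp only [sub_zero] at h2
      exact h2
  obtain ⟨K₁, μ, b, k1, k2, k3, k4⟩ := hcore (Sc := Sc) (c := c) (w := w) (E := E 0) (ε := ε)
    (β := fun l => lvN P c r Pt l w w) hSc hinj hw0 hw1 hε hE0 hβ
    (fun de h1 h2 h3 h4 => by
      obtain ⟨K₁, k1, k2⟩ := hlab (a := w) (w := w) (v := v) (ε := ε) (vs := vs) (e := e)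
        (e₀ := e₀) (E := E) (sg := sg) (Q := Q) hP hθ hSc hinj hPt hv0 hvw le_rfl hw1 hε h0Q hQ hpt
        hSv de h1 h2 (fun l hl => h3 l (by omega)) (fun l hl => h4 l (by omega))
      refine ⟨K₁, k1, k2.mono 0 ?_⟩
      rintro J - F A ⟨B, l1, l2, l3⟩
      exact ⟨B, l1, l2, ChN.mono l3 le_rfl (fun _ _ => hDD) le_rfl le_rfl
        (Pool.LBT.fl_le' hw1.le J) le_rfl⟩)
    σ hσ hσε hσw w₁ q₀ hww₁ hw₁ hq₀
  refine ⟨K₁, μ, b, k1, k2, fun l hl => k3 l (by omega), k4.mono 0 ?_⟩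
  rintro J - F A hA w' a' gg h1 h2 h3 h4 h5 h6
  obtain ⟨B, g₀, G₀, H₀, l1, l2, l3, l4, l5, l6⟩ := hA w' a' gg h1 h2 h3
    (fun l hl => h4 l (by omega)) (fun l hl => h5 l (by omega)) (fun l hl => h6 l (by omega))
  exact ⟨B, g₀, G₀, H₀, l1, l2, fun l hl => l3 l (by omega), l4, l5,
    fun ω hω l hl => l6 ω hω l (by omega)⟩

end Pool.ISO
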