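import Pool.Agent.H2.GEN.IsoC
import Pool.Agent.H63.STAT.Lab2

/-!
# Re-centred ball charts of universal degree

`iso_pt`: under the hypotheses of `lab2` at the point `(w, w)` there are ball charts of the
windows near `w` whose re-centred charts have all prescribed sides near
`bet P c l w w + (a - w)`, up to small losses.
-/

set_option autoImplicit false

namespace Pool.ISO

open Finset Real MvPolynomial
open Pool.Agent.H49.Ent Pool.Agent.H32.Dense Pool.STK Pool.KA Pool.KSAT Pool.K2S Pool.PB Pool.S6C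
open Pool.GEN Pool.CHT Pool.CHX
open Pool.LBT (LSys Slo Tri ThrOf fl_le' bas_false)
open Pool.LEV (Law)
open Pool.FLF (Fam.sub)

/-- **Re-centred ball charts of universal degree.** `σ`: the loss. -/
theorem iso_pt (m n S : ℕ) (hn : 1 ≤ n) (hS : 1 ≤ S) : ∃ (D : ℕ) (C : ℝ), 1 ≤ D ∧ 1 ≤ C ∧
    ∀ {Sc : PCl m} {P : List (Fin m) × Fin m → ℝ → ℝ → ℝ} {θ : ℝ} {c : ℕ → Fin m}
    {w v vs e₀ ε : ℝ} {Q : Set ℝ}, ThrOf (chsys m θ) Sc P → 0 < θ → TmH Sc →
    Set.InjOn c (Set.Iio n) → 0 < v → v < w → w < 1 → 0 ≤ vs → 0 ≤ ε → (0 : ℝ) ∈ Q →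
    (∀ x y : ℝ, 0 ≤ x → x < y → y ≤ w - v → ∃ κ ∈ Q, x < κ ∧ κ < y) →
    (∀ κ ∈ Q, 0 ≤ κ → κ ≤ w - v →
      Pts Sc P θ c n 1 (fun _ => w - κ) (fun _ => w - κ) vs e₀ ∧
      ∀ l < n, bet P c l w w ≤ bet P c l (w - κ) (w - κ) + S * κ + ε) → 2 ≤ S * (w - v) →
    ∀ σ : ℝ, 0 < σ → C * ε < σ → C * vs < σ → σ < w → σ ≤ e₀ → ∀ w₁ q₀ : ℝ, w < w₁ → w₁ < 1 →
    0 < q₀ → ∃ (K₁ μ : ℝ) (b : ℕ → ℝ), 0 < K₁ ∧ 0 < μ ∧
      (∀ l < n, bet P c l w w - σ < b l ∧ b l < bet P c l w w - μ) ∧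
      Bas Sc (fun J F A => ∀ (w' a' : ℕ) (gg : ℕ → ℕ), ⌊w * J⌋₊ ≤ w' → (w' : ℝ) ≤ w₁ * J →
        (w' : ℝ) + q₀ * J ≤ a' → (∀ l < n, (gg l : ℝ) ≤ b l * J + (a' - w') + μ * J) →
        (∀ l < n, b l * J + (a' - w') ≤ gg l + μ * J) →
        (∀ l < n, (bet P c l w w + σ) * J + (a' - w') ≤ J) →
        ∃ (B : F.Ω → Prop) (g₀ : ℕ → ℕ) (G₀ : PtT F → ℕ → MvPolynomial (Option (Fin m)) ℝ)
          (H₀ : LnT F → ℕ → MvPolynomial (Option (Fin m)) ℝ), Sub B A ∧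
          Pe F.p A ≤ K₁ * Pe F.p B ∧
          (∀ l < n, (bet P c l w w - σ) * J ≤ g₀ l ∧ (g₀ l : ℝ) ≤ bet P c l w w * J) ∧
          ChOK F c n (fun _ => D) w' w' ⌊σ * J⌋₊ g₀ B G₀ H₀ ∧
          ChOK F c n (fun _ => D) a' w' ⌊σ * J⌋₊ gg B
            (fun y l => Gno (c l) J J (fun y => G₀ y l) y)
            (fun s l => Hno (c l) (fun s => H₀ s l) s) ∧
          ∀ ω, B ω → ∀ l < n, ∀ b : Option (Fin m) → ℝ,
            |eval b (Gno (c l) J J (fun y => G₀ y l) (ptr F J ω)) - eval b (G₀ (ptr F J ω) l)| ≤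
              2 / 2 ^ g₀ l) := by
  obtain ⟨D₀, C₁, hC₁, hlab⟩ := Pool.STAT.CLO.lab2 n S hn hS
  obtain ⟨D, hD⟩ : ∃ D, D = max D₀ 1 := ⟨_, rfl⟩
  have hDD : D₀ ≤ D := by rw [hD]; exact le_max_left _ _
  obtain ⟨C₂, hC₂, hiso⟩ := iso_lab m n D (by rw [hD]; exact le_max_right _ _)
  -- the constants
  obtain ⟨U, hU⟩ : ∃ U : ℝ, U = (C₁ + 1) ^ n := ⟨_, rfl⟩
  obtain ⟨V, hV⟩ : ∃ V : ℝ, V = C₂ ^ (n + 1) := ⟨_, rfl⟩
  have hU1 : 1 ≤ U := by rw [hU]; exact one_le_pow₀ (by linarith)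
  have hV1 : 1 ≤ V := by rw [hV]; exact one_le_pow₀ hC₂
  obtain ⟨W, hW⟩ : ∃ W : ℝ, W = 8 * C₁ * U * V * C₂ := ⟨_, rfl⟩
  have hC₁0 : 0 < C₁ := by linarith
  have hC₂0 : 0 < C₂ := by linarith
  have hU0 : 0 < U := by linarith
  have hV0 : 0 < V := by linarith
  have hW8 : 8 ≤ W := by
    rw [hW]
    have h1 : 1 ≤ C₁ * U := by nlinarith
    have h2 : 1 ≤ C₁ * U * V := by nlinarith
    have h3 : 1 ≤ C₁ * U * V * C₂ := by nlinarith
    nlinarith
  have hCsl : (0 : ℝ) ≤ Csl n n := Nat.cast_nonneg _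
  refine ⟨D, (W + 2) * C₁ + 8 * (Csl n n + 1), by rw [hD]; exact le_max_right _ _, by nlinarith,
    ?_⟩
  intro Sc P θ c w v vs e₀ ε Q hP hθ hSc hinj hv0 hvw hw1 hvs hε h0Q hQ hpts hSv σ hσ hσε hσvs
    hσw hσe w₁ q₀ hww₁ hw₁ hq₀
  have hw0 : 0 < w := hv0.trans hvw
  -- the losses
  obtain ⟨d, hd⟩ : ∃ d : ℝ, d = σ / (W + 1) := ⟨_, rfl⟩
  have hd0 : 0 < d := by rw [hd]; exact div_pos hσ (by linarith)
  have hdW : (W + 1) * d = σ := by
    rw [hd]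
    field_simp
  have hdε : C₁ * ε < d := by
    rw [hd, lt_div_iff₀ (by linarith)]
    have h1 : C₁ * ε * (W + 1) ≤ ((W + 2) * C₁ + 8 * (Csl n n + 1)) * ε := by
      have h2 : 0 ≤ C₁ * ε := by positivity
      have h3 : 0 ≤ 8 * ((Csl n n : ℝ) + 1) * ε := by positivity
      nlinarith
    linarith
  obtain ⟨de, hde⟩ : ∃ de : ℕ → ℝ, de = fun l => (C₁ + 1) ^ l * d := ⟨_, rfl⟩
  obtain ⟨μ, hμ⟩ : ∃ μ : ℝ, μ = d / V := ⟨_, rfl⟩
  have hμ0 : 0 < μ := by rw [hμ]; positivity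
  have hμV : V * μ = d := by
    rw [hμ]
    field_simp
  have hμd : μ ≤ d := by nlinarith
  obtain ⟨x, hx⟩ : ∃ x : ℕ → ℝ, x = fun l => C₂ ^ (l + 1) * μ := ⟨_, rfl⟩
  have hde0 : de 0 = d := by rw [hde]; simp
  have hdes : ∀ l, C₁ * de l < de (l + 1) := by
    intro l
    rw [hde]
    show C₁ * ((C₁ + 1) ^ l * d) < (C₁ + 1) ^ (l + 1) * d
    rw [pow_succ]
    have : 0 < (C₁ + 1) ^ l * d := by positivity
    nlinarith
  have hden : ∀ l < n, d ≤ de l ∧ de l ≤ U * d := by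
    intro l hl
    rw [hde, hU]
    constructor
    · exact le_mul_of_one_le_left hd0.le (one_le_pow₀ (by linarith))
    · exact mul_le_mul_of_nonneg_right (pow_le_pow_right₀ (by linarith) hl.le) hd0.le
  have hxn : ∀ l < n, μ ≤ x l ∧ x l ≤ d := by
    intro l hl
    rw [hx]
    constructor
    · exact le_mul_of_one_le_left hμ0.le (one_le_pow₀ hC₂)
    · rw [← hμV, hV]
      exact mul_le_mul_of_nonneg_right (pow_le_pow_right₀ hC₂ (by omega)) hμ0.le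
  have hUd : C₁ * (U * d) * 8 ≤ σ := by
    have h1 : 8 * C₁ * U ≤ W := by
      rw [hW]
      have h2 : 0 ≤ 8 * C₁ * U := by positivity
      have h3 : 1 ≤ V * C₂ := by nlinarith
      calc 8 * C₁ * U = 8 * C₁ * U * 1 := (mul_one _).symm
        _ ≤ 8 * C₁ * U * (V * C₂) := mul_le_mul_of_nonneg_left h3 h2
        _ = _ := by ring
    nlinarith
  have hC₂d : C₂ * d * 8 ≤ σ := by
    have h1 : 8 * C₂ ≤ W := by
      rw [hW]
      have h3 : 1 ≤ C₁ * U * V := by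
        have h1 : 1 ≤ C₁ * U := by nlinarith
        nlinarith
      calc 8 * C₂ = 8 * C₂ * 1 := (mul_one _).symm
        _ ≤ 8 * C₂ * (C₁ * U * V) := mul_le_mul_of_nonneg_left h3 (by positivity)
        _ = _ := by ring
    nlinarith
  obtain ⟨e, he⟩ : ∃ e : ℝ, e = σ / 8 := ⟨_, rfl⟩
  have hen : n - 1 < n := by omega
  have he1 : e + C₁ * de (n - 1) ≤ σ / 4 := by
    have h1 := (hden (n - 1) hen).2
    have h2 := mul_le_mul_of_nonneg_left h1 hC₁0.le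
    rw [he]
    linarith
  have hb0 : ∀ l, w ≤ bet P c l w w := fun l =>
    hP.low ((List.range l).map c, c l) w w hw0.le le_rfl hw1.le
  have hUdσ : U * d * 8 ≤ σ := by nlinarith
  obtain ⟨K₁, hK₁, hball⟩ := hlab (a := w) (w := w) (v := v) (vs := vs) (e₀ := e₀) (ε := ε)
    (Q := Q) hP hθ hSc hinj hv0 hvw le_rfl hw1 hvs hε h0Q hQ hpts hSv de (by rw [hde0]; exact hd0)
    (by rw [hde0]; exact hdε) (fun l _ => hdes l) (fun l hl => by
      have := (hden l hl).2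
      linarith) e (by
        rw [he]
        have h1 : 8 * (Csl n n : ℝ) * vs ≤ ((W + 2) * C₁ + 8 * (Csl n n + 1)) * vs := by
          refine mul_le_mul_of_nonneg_right ?_ hvs
          nlinarith
        linarith) (by rw [he]; linarith)
  have h1 := hiso (Sc := Sc) (c := c) (w := w) (w₁ := w₁) (e := e + C₁ * de (n - 1)) (σ := μ)
    (q₀ := q₀) (K₁ := K₁) (β := fun l => bet P c l w w - de l) (x := x) hSc hinj hw0 hww₁ hw₁
    (by
      have h2 := (hden (n - 1) hen).1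
      have : 0 ≤ C₁ * de (n - 1) := mul_nonneg hC₁0.le (by linarith)
      rw [he]
      linarith) hμ0 hq₀ hK₁ (fun l hl => by
      have h2 := (hden l hl).2
      have h3 := hb0 l
      show 0 ≤ bet P c l w w - de l
      linarith) (by
      rw [hx]
      show C₂ * μ ≤ C₂ ^ (0 + 1) * μ
      rw [zero_add, pow_one]) (fun l _ => by
      rw [hx]
      show C₂ * (C₂ ^ (l + 1) * μ) ≤ C₂ ^ (l + 1 + 1) * μ
      rw [pow_succ _ (l + 1)]
      linarith)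
    (Bas.mono 0 hball (by
      rintro J _ F A ⟨B, k1, k2, k3⟩
      exact ⟨B, k1, k2, ChN.mono k3 le_rfl (fun _ _ => hDD) le_rfl le_rfl
        (Pool.LBT.fl_le' hw1.le J) le_rfl⟩))
  obtain ⟨J₁, hJ₁⟩ := big 1 (show 0 < σ / 2 by positivity)
  refine ⟨2 * K₁, μ, fun l => bet P c l w w - de l - x l, by positivity, hμ0, fun l hl => ?_,
    Bas.mono J₁ h1 ?_⟩
  · have h2 := hden l hl
    have h3 := hxn l hl
    constructor
    · show bet P c l w w - σ < bet P c l w w - de l - x l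
      have : d * 8 ≤ σ := by nlinarith
      linarith
    · show bet P c l w w - de l - x l < bet P c l w w - μ
      linarith
  rintro J hJ F A hA w' a' gg hw' hw₁' ha' hg1 hg2 hv
  have hJ0 : (0 : ℝ) ≤ J := Nat.cast_nonneg J
  have hJ1 := hJ₁ J hJ
  obtain ⟨B, G₀, H₀, k1, k2, k3, k4, k5⟩ := hA w' a' gg hw' hw₁' ha' hg1 hg2 (fun l hl => by
    have h2 := hv l hl
    have h3 := hden l hl
    have h4 : (e + C₁ * de (n - 1) + (bet P c l w w - de l) + μ) * J ≤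
        (bet P c l w w + σ) * J := mul_le_mul_of_nonneg_right (by linarith) hJ0
    linarith)
  have hge : ∀ l < n, (bet P c l w w - σ) * J ≤ (⌊(bet P c l w w - de l) * J⌋₊ : ℝ) ∧
      (⌊(bet P c l w w - de l) * J⌋₊ : ℝ) ≤ bet P c l w w * J := by
    intro l hl
    have h3 := hden l hl
    have h4 := hb0 l
    have h5 := Nat.lt_floor_add_one ((bet P c l w w - de l) * (J : ℝ))
    have h6 := Nat.floor_le (show 0 ≤ (bet P c l w w - de l) * (J : ℝ) from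
      mul_nonneg (by linarith) hJ0)
    have h7 : (bet P c l w w - σ) * (J : ℝ) ≤ (bet P c l w w - de l - σ / 2) * J :=
      mul_le_mul_of_nonneg_right (by linarith) hJ0
    have h8 : (bet P c l w w - de l) * (J : ℝ) ≤ bet P c l w w * J :=
      mul_le_mul_of_nonneg_right (by linarith) hJ0
    have e1 : (bet P c l w w - de l - σ / 2) * (J : ℝ) = (bet P c l w w - de l) * J -
        σ / 2 * J := by ring
    constructor <;> linarith
  refine ⟨B, fun l => ⌊(bet P c l w w - de l) * J⌋₊, G₀, H₀, k1, k2, hge, k3.mono le_rfl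
    (fun _ => le_rfl) le_rfl (Nat.floor_le_floor (mul_le_mul_of_nonneg_right ?_ hJ0)),
    k4.mono le_rfl (fun _ => le_rfl) le_rfl
      (Nat.floor_le_floor (mul_le_mul_of_nonneg_right ?_ hJ0)), k5⟩
  · linarith
  · have h2 := (hxn (n - 1) hen).2
    have h3 := mul_le_mul_of_nonneg_left h2 hC₂0.le
    linarith

end Pool.ISO
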