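import Pool.Agent.H40.SLP.TrlC
import Pool.Agent.H71.GEN.Lip

/-!
# The geometric laws of the labels in tubes

`Lab F i₁ J K a w P A` is a label of the radius `2 ^ (-a)` on the window `2 ^ (-w)` with the
precision `2 ^ (-P)`. Labels restrict to smaller radii and to shorter windows (`Lab.mono`); on a
radius `2 ^ (-a - v)` the precision is `2 ^ (-P - v)`, up to the defects of the times.
-/

set_option autoImplicit false

namespace Pool.GEN

open Finset Real MvPolynomial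
open Pool.Agent.H49.Ent Pool.Agent.H32.Dense Pool.STK Pool.KA Pool.KSAT Pool.K2S Pool.PB
open Pool.FLF (Fam.sub)

variable {m : ℕ}

/-- **The slope of the thresholds in the radius**, for one family. -/
theorem lab_slope (m K : ℕ) (hK : 1 ≤ K) : ∃ C₁ : ℝ, 1 ≤ C₁ ∧
    ∀ (J : ℕ) (F : Fam m J) (i₁ : Fin m) (a w v P Q u : ℕ) (A : F.Ω → Prop) (θ : ℝ)
      (hA : 0 < Pe F.p A), w ≤ a → a + v ≤ J → P + v ≤ J → Q + u = P + v →
      0 ≤ θ → (Fam.sub F A hA).Tm θ → C₁ * (θ + 1) ≤ ((J : ℝ) - w) * Real.log 2 →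
      Real.exp (C₁ * (θ + 1)) ≤ 2 ^ u → Lab F i₁ J K a w P A →
      ∃ B : F.Ω → Prop, Sub B A ∧ Pe F.p A / 2 ≤ Pe F.p B ∧ Lab F i₁ J K (a + v) w Q B := by
  classical
  obtain ⟨c, hc, hcore⟩ := Pool.PB.Trl.core m K hK
  obtain ⟨C₀, hC₀, hrem⟩ := Pool.PB.Trl.rem_event (m := m) K hK
  obtain ⟨D, hD⟩ : ∃ D : ℝ, D = 1 + c * (2 * m * m) + c + 2 * c := ⟨_, rfl⟩
  have hcm : (0 : ℝ) ≤ c * (2 * m * m) := by positivity
  have hD1 : 1 ≤ D := by rw [hD]; nlinarith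
  have hlD : 0 ≤ Real.log D := Real.log_nonneg hD1
  refine ⟨C₀ + Real.log D, by linarith, ?_⟩
  intro J F i₁ a w v P Q u A θ hA hwa hav hPv hQ hθ hTm hN hu hL
  obtain ⟨G, H, hG, hH, hGH⟩ := hL
  obtain ⟨E, hE⟩ : ∃ E : ℝ, E = Real.exp (C₀ * (θ + 1)) := ⟨_, rfl⟩
  have hE1 : 1 ≤ E := by
    rw [hE, Real.one_le_exp_iff]
    have : 0 ≤ θ + 1 := by linarith
    nlinarith
  have hDE : D * E ≤ 2 ^ u := by
    refine le_trans ?_ hu
    have h1 : Real.exp ((C₀ + Real.log D) * (θ + 1)) =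
        E * Real.exp (Real.log D * (θ + 1)) := by
      rw [hE, ← Real.exp_add]
      congr 1
      ring
    rw [h1, mul_comm D]
    refine mul_le_mul_of_nonneg_left ?_ (by linarith)
    calc D = Real.exp (Real.log D) := (Real.exp_log (by linarith)).symm
      _ ≤ _ := Real.exp_le_exp.2 (by nlinarith)
  obtain ⟨B, hBA, hBP, hB⟩ := hrem J F i₁ A hA w H (2 / 2 ^ P) θ (by omega) hH
    (by positivity) hθ hTm (by
      refine le_trans ?_ hN
      refine mul_le_mul_of_nonneg_right ?_ (by linarith)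
      linarith) (fun ω hω => by
      obtain ⟨h1, h2⟩ := hGH ω hω
      have h3 := (h2 (bp F i₁ ω) fun j => by rw [sub_self, abs_zero]; positivity).2
      have h4 : (2 : ℝ) / 2 ^ P = 1 / 2 ^ P + 1 / 2 ^ P := by ring
      rw [h4]
      rw [abs_le] at h1 h3 ⊢
      constructor <;> linarith [h1.1, h1.2, h3.1, h3.2])
  refine ⟨B, hBA, hBP, Pool.PB.Trl.Gn i₁ J J G, Pool.PB.Trl.Hn i₁ H, fun y => ?_,
    fun s => Pool.PB.Trl.totalDegree_Hn i₁ hK H s (hH s), fun ω hω => ?_⟩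
  · unfold Pool.PB.Trl.Gn
    refine (totalDegree_add _ _).trans (max_le (hG y) ?_)
    rw [totalDegree_C]
    exact Nat.zero_le _
  have hAω := hBA ω hω
  obtain ⟨h1, h2⟩ := hGH ω hAω
  have ha0 : (0 : ℝ) < 1 / 2 ^ a := by positivity
  have hU : ∀ b : Fin m → ℝ, (∀ j, |b j - bp F i₁ ω j| ≤ 1 / 2 ^ a) →
      |eval b (G (ptr F J ω)) - eval (bp F i₁ ω) (G (ptr F J ω))| ≤ 2 * m * (m * (1 / 2 ^ a)) := by
    intro b hb
    have h3 := mvσ (G (ptr F J ω)) (bp F i₁ ω) b (2 * m) (fun y hy i =>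
      (h2 y fun j => (hy j).trans (hb j)).1 i)
    refine h3.trans (mul_le_mul_of_nonneg_left ?_ (by positivity))
    calc ∑ j : Fin m, |b j - bp F i₁ ω j| ≤ ∑ _j : Fin m, (1 : ℝ) / 2 ^ a :=
          Finset.sum_le_sum fun j _ => hb j
      _ = m * (1 / 2 ^ a) := by
          rw [Finset.sum_const, Finset.card_univ, Fintype.card_fin, nsmul_eq_mul]
  obtain ⟨k1, k2⟩ := hcore J F i₁ J a w v P ω G H (eval (bp F i₁ ω) (G (ptr F J ω)))
    (Real.exp (C₀ * (θ + 1)) * (2 / 2 ^ P)) (2 * m * (m * (1 / 2 ^ a))) hG hH hwa (by omega)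
    (by omega) h1 (fun b hb => (h2 b hb).2) hU (hB ω hω)
  rw [← hE] at k2
  have hPv0 : (0 : ℝ) < 2 ^ (P + v) := by positivity
  have hQe : (1 : ℝ) / 2 ^ Q = 2 ^ u / 2 ^ (P + v) := by
    rw [← hQ, pow_add]
    field_simp
  have t1 : (1 + c * (2 * m * (m * (1 / 2 ^ a))) * 2 ^ a) / (2 : ℝ) ^ J ≤
      (1 + c * (2 * m * m)) / 2 ^ (P + v) := by
    have e1 : c * (2 * m * (m * (1 / 2 ^ a))) * (2 : ℝ) ^ a = c * (2 * m * m) := by
      field_simp
    rw [e1]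
    refine div_le_div_of_nonneg_left (by positivity) hPv0 ?_
    exact pow_le_pow_right₀ (by norm_num) hPv
  have t2 : c * (1 / 2 ^ P) / (2 : ℝ) ^ v ≤ c * E / 2 ^ (P + v) := by
    have e1 : c * (1 / 2 ^ P) / (2 : ℝ) ^ v = c / 2 ^ (P + v) := by
      rw [pow_add]
      field_simp
    rw [e1]
    refine div_le_div_of_nonneg_right ?_ hPv0.le
    nlinarith
  have t3 : c * (E * (2 / 2 ^ P)) / (2 : ℝ) ^ v = 2 * c * E / 2 ^ (P + v) := by
    rw [pow_add]
    field_simp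
  have t4 : (1 + c * (2 * m * m)) / (2 : ℝ) ^ (P + v) ≤
      (1 + c * (2 * m * m)) * E / 2 ^ (P + v) := by
    refine div_le_div_of_nonneg_right ?_ hPv0.le
    nlinarith
  have t5 : (1 + c * (2 * m * m)) * E / (2 : ℝ) ^ (P + v) + c * E / 2 ^ (P + v) +
      2 * c * E / 2 ^ (P + v) ≤ 1 / 2 ^ Q := by
    rw [hQe, ← add_div, ← add_div]
    refine div_le_div_of_nonneg_right ?_ hPv0.le
    refine le_trans (le_of_eq ?_) hDE
    rw [hD]
    ring
  have p2 : 0 ≤ c * E / (2 : ℝ) ^ (P + v) := by positivity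
  have p3 : 0 ≤ 2 * c * E / (2 : ℝ) ^ (P + v) := by positivity
  refine ⟨k1.trans (by linarith), fun b hb => ⟨fun j => ?_, (k2 b hb).trans (by linarith)⟩⟩
  have h5 : pderiv j (Pool.PB.Trl.Gn i₁ J J G (ptr F J ω)) = pderiv j (G (ptr F J ω)) := by
    unfold Pool.PB.Trl.Gn
    rw [map_add, pderiv_C, add_zero]
  rw [h5]
  exact (h2 b fun j => (hb j).trans (inv_mono (by omega))).1 j

end Pool.GEN
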