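import Pool.Agent.H2.GEN.LabG
import Pool.Agent.H76.GN.Lev
import Pool.Agent.H42.PB.Ext
import Pool.Agent.H60.ZCL.BTail
import Pool.Agent.H37.STPA.Reg2

/-!
# Thresholds of labels in tubes

A system of labels (`LSys`) has labels of radius `2 ^ (-a)` on windows `2 ^ (-w)` with precision
`2 ^ (-P)`, in finitely or countably many charts. In a class in which the precision increases with
the radius exponent (`Slo`) and with trivial labels (`Tri`), the thresholds of the labels are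
numbers of a subclass (`thr`): functions on the plane with the laws `Pool.LEV.Law`, which are
attained up to arbitrarily small defects, and which are not exceeded.
-/

set_option autoImplicit false

namespace Pool.LBT

open Finset Real
open Pool.Agent.H49.Ent Pool.Agent.H32.Dense Pool.STK Pool.KA Pool.KSAT Pool.K2S Pool.PB Pool.S6C
open Pool.LEV

variable {m : ℕ}

/-- **A system of labels.** -/
structure LSys (m : ℕ) where
  /-- the charts -/
  ι : Type
  /-- the labels in the chart `i`, of the class `K`, with the radius `2 ^ (-a)`, on the windows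
  `2 ^ (-w)`, with the precision `2 ^ (-P)` -/
  T : ι → ℕ → ℕ → ℕ → ℕ → Stat m
  her : ∀ (i : ι) (K a w P J : ℕ) (F : Fam m J), Hered (T i K a w P J F)
  anti : ∀ {i : ι} {K a w P P' J : ℕ} {F : Fam m J} {A : F.Ω → Prop}, P' ≤ P →
    T i K a w P J F A → T i K a w P' J F A
  mono : ∀ {i : ι} {K K' a a' w w' P J : ℕ} {F : Fam m J} {A : F.Ω → Prop}, K ≤ K' → a ≤ a' →
    w ≤ w' → w' ≤ a' → a' ≤ J → T i K a w P J F A → T i K' a' w' P J F A

/-- **The slope**: the precision increases with the radius exponent, up to small defects. -/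
def Slo (L : LSys m) (S : PCl m) : Prop :=
  ∀ (i : L.ι) (K : ℕ), ∃ K' : ℕ, ∀ w₀ : ℝ, w₀ < 1 → ∀ η : ℝ, 0 < η → ∃ τ : ℝ, 0 < τ ∧
    ∃ J₁ : ℕ, ∀ J ≥ J₁, ∀ (F : Fam m J) (A : F.Ω → Prop), S.St τ J F A →
    ∀ a w v P Q : ℕ, w ≤ a → a + v ≤ J → P + v ≤ J → (w : ℝ) ≤ w₀ * J →
      (Q : ℝ) + η * J ≤ P + v → L.T i K a w P J F A →
      ∃ B : F.Ω → Prop, Sub B A ∧ Real.exp (-(η * J)) * Pe F.p A ≤ Pe F.p B ∧
        L.T i K' (a + v) w Q J F B

/-- **The trivial labels.** -/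
def Tri (L : LSys m) (S : PCl m) : Prop :=
  ∀ i : L.ι, ∃ K : ℕ, ∀ η : ℝ, 0 < η → ∃ τ : ℝ, 0 < τ ∧
    ∃ J₁ : ℕ, ∀ J ≥ J₁, ∀ (F : Fam m J) (A : F.Ω → Prop), S.St τ J F A →
    ∀ w P : ℕ, w ≤ J → (P : ℝ) + η * J ≤ w →
      ∃ B : F.Ω → Prop, Sub B A ∧ Real.exp (-(η * J)) * Pe F.p A ≤ Pe F.p B ∧
        L.T i K w w P J F B

/-- **The thresholds of a class.** They are attained for windows of positive length exponent. -/
structure ThrOf (L : LSys m) (S : PCl m) (P : L.ι → ℝ → ℝ → ℝ) : Prop where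
  law : ∀ i, Law (P i)
  low : ∀ (i : L.ι) (a w : ℝ), 0 ≤ w → w ≤ a → a ≤ 1 → a ≤ P i a w
  up : ∀ (i : L.ι) (a w : ℝ), 0 ≤ w → w ≤ a → a ≤ 1 → P i a w ≤ 1
  att : ∀ (i : L.ι) (a w h : ℝ), 0 < w → w ≤ a → a ≤ 1 → 0 < h → h < P i a w → ∃ K : ℕ,
    Bas S (fun J F A => L.T i K ⌊a * J⌋₊ ⌊w * J⌋₊ ⌊(P i a w - h) * J⌋₊ J F A)
  no : ∀ (i : L.ι) (K : ℕ) (a w : ℚ) (h : ℝ), 0 ≤ w → w ≤ a → a ≤ 1 → 0 < h →
    P i a w + h ≤ 1 →
    Bas S (fun J F A => ¬ L.T i K ⌊(a : ℝ) * J⌋₊ ⌊(w : ℝ) * J⌋₊ ⌊(P i a w + h) * J⌋₊ J F A)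

/-- Thresholds of a class are thresholds of all subclasses. -/
theorem ThrOf.sub {L : LSys m} {S S' : PCl m} {P : L.ι → ℝ → ℝ → ℝ} (h : ThrOf L S P)
    (hs : ∀ (τ : ℝ) (J : ℕ) (F : Fam m J) (A : F.Ω → Prop), S'.St τ J F A → S.St τ J F A) :
    ThrOf L S' P where
  law := h.law
  low := h.low
  up := h.up
  att := by
    intro i a w h' h1 h2 h3 h4 h5
    obtain ⟨K, hK⟩ := h.att i a w h' h1 h2 h3 h4 h5
    exact ⟨K, hK.sub hs⟩
  no := fun i K a w h' h1 h2 h3 h4 h5 => (h.no i K a w h' h1 h2 h3 h4 h5).sub hs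

/-- None exceeds, at real points: the thresholds of larger rational points are bounds. -/
theorem ThrOf.no' {L : LSys m} {S : PCl m} {P : L.ι → ℝ → ℝ → ℝ} (hP : ThrOf L S P) (i : L.ι)
    (K : ℕ) {a w a' w' h : ℝ} (hw : 0 ≤ w) (hwa : w ≤ a) (ha : a < a') (hww : w < w')
    (hwa' : w' ≤ a') (ha' : a' ≤ 1) (hh : 0 < h) (h1 : P i a' w' + h ≤ 1) :
    Bas S (fun J F A => ¬ L.T i K ⌊a * J⌋₊ ⌊w * J⌋₊ ⌊(P i a' w' + h) * J⌋₊ J F A) := by
  obtain ⟨p, hp1, hp2⟩ := exists_rat_btwn ha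
  obtain ⟨q, hq1, hq2⟩ := exists_rat_btwn (show w < min w' p from lt_min hww (hwa.trans_lt hp1))
  have e1 := min_le_left w' (p : ℝ)
  have e2 := min_le_right w' (p : ℝ)
  have hq0 : (0 : ℝ) ≤ q := hw.trans hq1.le
  have hqp : (q : ℝ) ≤ p := hq2.le.trans e2
  have hp1' : (p : ℝ) ≤ 1 := hp2.le.trans ha'
  have hle : P i p q ≤ P i a' w' := (hP.law i).mono hq0 hqp hp2.le (hq2.le.trans e1) hwa' ha'
  obtain ⟨τ, hτ, J₁, hb⟩ := hP.no i K p q (P i a' w' + h - P i p q) (by exact_mod_cast hq0)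
    (by exact_mod_cast hqp) (by exact_mod_cast hp1') (by linarith only [hh, hle]) (by linarith only [h1])
  refine ⟨τ, hτ, J₁, fun J hJ F A hA hT => hb J hJ F A hA ?_⟩
  have hJ0 : (0 : ℝ) ≤ J := Nat.cast_nonneg J
  have e3 : P i p q + (P i a' w' + h - P i p q) = P i a' w' + h := by ring
  rw [e3]
  refine L.mono le_rfl (Nat.floor_le_floor (mul_le_mul_of_nonneg_right hp1.le hJ0))
    (Nat.floor_le_floor (mul_le_mul_of_nonneg_right hq1.le hJ0))
    (Nat.floor_le_floor (mul_le_mul_of_nonneg_right hqp hJ0)) ?_ hT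
  refine Nat.floor_le_of_le ?_
  nlinarith only [ha', hp2]

/-- The threshold property. -/
noncomputable def LSys.tq (L : LSys m) (i : L.ι) (K : ℕ) (a w : ℝ) : Thr m where
  Q s J F A := s ≤ 0 ∨ L.T i K ⌊a * J⌋₊ ⌊w * J⌋₊ ⌊s * J⌋₊ J F A
  her := by
    rintro s J F A B hB (h | h)
    · exact Or.inl h
    · exact Or.inr (L.her _ _ _ _ _ J F A B hB h)
  anti := by
    rintro s s' J F A hs (h | h)
    · exact Or.inl (hs.trans h)
    · exact Or.inr (L.anti (Nat.floor_le_floor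
        (mul_le_mul_of_nonneg_right hs (Nat.cast_nonneg J))) h)
  triv := Or.inl

/-! ### Extension from the rational points -/

/-- The values at the rational points below. -/
def rset (p : ℚ → ℚ → ℝ) (a w : ℝ) : Set ℝ :=
  {y | ∃ a' w' : ℚ, 0 ≤ w' ∧ w' ≤ a' ∧ (a' : ℝ) ≤ a ∧ (w' : ℝ) ≤ w ∧ a' ≤ 1 ∧ y = p a' w'}

/-- The extension to the real points. -/
noncomputable def rext (p : ℚ → ℚ → ℝ) (a w : ℝ) : ℝ := sSup (rset p a w)

/-- The laws at the rational points. -/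
structure RLaw (p : ℚ → ℚ → ℝ) : Prop where
  low : ∀ a w : ℚ, 0 ≤ w → w ≤ a → a ≤ 1 → (a : ℝ) ≤ p a w
  up : ∀ a w : ℚ, 0 ≤ w → w ≤ a → a ≤ 1 → p a w ≤ 1
  mono : ∀ a a' w w' : ℚ, 0 ≤ w → w ≤ a → a ≤ a' → w ≤ w' → w' ≤ a' → a' ≤ 1 → p a w ≤ p a' w'
  slope : ∀ a w v : ℚ, 0 ≤ w → w ≤ a → 0 ≤ v → a + v ≤ 1 → min 1 (p a w + v) ≤ p (a + v) w

variable {p : ℚ → ℚ → ℝ}

theorem rset_bdd (h : RLaw p) (a w : ℝ) : BddAbove (rset p a w) := by
  refine ⟨1, ?_⟩
  rintro y ⟨a', w', h1, h2, -, -, h3, rfl⟩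
  exact h.up a' w' h1 h2 h3

theorem rset_ne {a w : ℝ} (h0 : 0 ≤ w) (h1 : w ≤ a) : (rset p a w).Nonempty :=
  ⟨p 0 0, 0, 0, le_rfl, le_rfl, by simpa using h0.trans h1, by simpa using h0, by norm_num, rfl⟩

theorem rext_rat (h : RLaw p) {a w : ℚ} (h0 : 0 ≤ w) (h1 : w ≤ a) (h2 : a ≤ 1) :
    rext p a w = p a w := by
  refine le_antisymm (csSup_le (rset_ne (by exact_mod_cast h0) (by exact_mod_cast h1)) ?_)
    (le_csSup (rset_bdd h _ _) ⟨a, w, h0, h1, le_rfl, le_rfl, h2, rfl⟩)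
  rintro y ⟨a', w', h3, h4, h5, h6, h7, rfl⟩
  exact h.mono a' a w' w h3 h4 (by exact_mod_cast h5) (by exact_mod_cast h6) h1 h2

theorem le_rext (h : RLaw p) {a w : ℝ} {a' w' : ℚ} (h0 : 0 ≤ w') (h1 : w' ≤ a') (h2 : a' ≤ 1)
    (h3 : (a' : ℝ) ≤ a) (h4 : (w' : ℝ) ≤ w) : p a' w' ≤ rext p a w :=
  le_csSup (rset_bdd h _ _) ⟨a', w', h0, h1, h3, h4, h2, rfl⟩

theorem rext_up (h : RLaw p) {a w : ℝ} (h0 : 0 ≤ w) (h1 : w ≤ a) : rext p a w ≤ 1 := by
  refine csSup_le (rset_ne h0 h1) ?_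
  rintro y ⟨a', w', h1, h2, -, -, h3, rfl⟩
  exact h.up a' w' h1 h2 h3

theorem rext_low (h : RLaw p) {a w : ℝ} (h0 : 0 ≤ w) (h1 : w ≤ a) (h2 : a ≤ 1) :
    a ≤ rext p a w := by
  refine le_of_forall_lt fun c hc => ?_
  rcases lt_or_ge c 0 with hc0 | hc0
  · refine hc0.trans_le ?_
    have := le_rext h (a := a) (w := w) (a' := 0) (w' := 0) le_rfl le_rfl (by norm_num)
      (by simpa using h0.trans h1) (by simpa using h0)
    exact (h.low 0 0 le_rfl le_rfl (by norm_num)).trans this |>.trans' (by simp)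
  · obtain ⟨q, hq1, hq2⟩ := exists_rat_btwn hc
    have hq0 : (0 : ℚ) ≤ q := by
      have : (0 : ℝ) ≤ q := hc0.trans hq1.le
      exact_mod_cast this
    have hq3 : q ≤ 1 := by
      have : (q : ℝ) ≤ 1 := hq2.le.trans h2
      exact_mod_cast this
    have := le_rext h (a := a) (w := w) (a' := q) (w' := 0) le_rfl hq0 hq3 hq2.le
      (by simpa using h0)
    exact hq1.trans_le ((h.low q 0 le_rfl hq0 hq3).trans this)

/-- Almost attained, at a rational point with a positive window. -/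
theorem rext_att (h : RLaw p) {a w e : ℝ} (h0 : 0 < w) (h1 : w ≤ a) (h2 : a ≤ 1) (he : 0 < e) :
    ∃ a' w' : ℚ, 0 < w' ∧ w' ≤ a' ∧ a' ≤ 1 ∧ (a' : ℝ) ≤ a ∧ (w' : ℝ) ≤ w ∧
      rext p a w - e < p a' w' := by
  obtain ⟨y, ⟨a', w', h3, h4, h5, h6, h7, rfl⟩, hy⟩ :=
    exists_lt_of_lt_csSup (rset_ne (p := p) h0.le h1) (show sSup (rset p a w) - e <
      sSup (rset p a w) by linarith only [he])
  obtain ⟨q, hq1, hq2⟩ := exists_rat_btwn h0
  have hq0 : (0 : ℚ) < q := by exact_mod_cast hq1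
  refine ⟨max a' (max w' q), max w' q, lt_max_of_lt_right hq0, le_max_right _ _, ?_, ?_, ?_, ?_⟩
  · have e1 : q ≤ 1 := by
      have : (q : ℝ) ≤ 1 := by linarith only [h1, h2, hq2]
      exact_mod_cast this
    exact max_le h7 (max_le (h4.trans h7) e1)
  · push_cast
    exact max_le h5 (max_le (h6.trans h1) (hq2.le.trans h1))
  · push_cast
    exact max_le h6 hq2.le
  · refine hy.trans_le (h.mono a' _ w' _ h3 h4 (le_max_left _ _) (le_max_left _ _)
      (le_max_right _ _) ?_)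
    have e1 : q ≤ 1 := by
      have : (q : ℝ) ≤ 1 := by linarith only [h1, h2, hq2]
      exact_mod_cast this
    exact max_le h7 (max_le (h4.trans h7) e1)

/-- **The laws at the real points.** -/
theorem rext_law (h : RLaw p) : Law (rext p) where
  mono_a := by
    intro a a' w h0 h1 h2 _
    refine csSup_le_csSup (rset_bdd h _ _) (rset_ne h0 h1) ?_
    rintro y ⟨b, c, h3, h4, h5, h6, h7, rfl⟩
    exact ⟨b, c, h3, h4, h5.trans h2, h6, h7, rfl⟩
  mono_w := by
    intro a w w' h0 h1 h2 _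
    refine csSup_le_csSup (rset_bdd h _ _) (rset_ne h0 (h1.trans h2)) ?_
    rintro y ⟨b, c, h3, h4, h5, h6, h7, rfl⟩
    exact ⟨b, c, h3, h4, h5, h6.trans h1, h7, rfl⟩
  slope := by
    intro a w v h0 h1 h2 h3
    refine le_of_forall_pos_le_add fun e he => ?_
    obtain ⟨y, ⟨b, c, h4, h5, h6, h7, h8, rfl⟩, hy⟩ :=
      exists_lt_of_lt_csSup (rset_ne (p := p) h0 h1) (show sSup (rset p a w) - e / 2 <
        sSup (rset p a w) by linarith only [he])
    obtain ⟨u, hu0, hu1, hu2⟩ : ∃ u : ℚ, 0 ≤ u ∧ (u : ℝ) ≤ v ∧ v - e / 2 < u := by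
      rcases lt_or_ge (v - e / 2) 0 with hv | hv
      · exact ⟨0, le_rfl, by simpa using h2, by simpa using hv⟩
      · obtain ⟨u, hu1, hu2⟩ := exists_rat_btwn (show v - e / 2 < v by linarith only [he])
        refine ⟨u, ?_, hu2.le, hu1⟩
        have : (0 : ℝ) ≤ u := hv.trans hu1.le
        exact_mod_cast this
    have hbu : b + u ≤ 1 := by
      have : (b : ℝ) + u ≤ 1 := by linarith only [h3, h6, hu1]
      exact_mod_cast this
    have h9 := h.slope b c u h4 h5 hu0 hbu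
    have h10 := le_rext h (a := a + v) (w := w) (a' := b + u) (w' := c) h4 (by linarith only [h5, hu0]) hbu
      (by push_cast; linarith only [h6, hu1]) h7
    have h11 : min 1 (rext p a w + v) - e ≤ min 1 (p b c + u) := by
      refine le_min ?_ ?_
      · have := min_le_left 1 (rext p a w + v)
        linarith only [he, this]
      · have := min_le_right 1 (rext p a w + v)
        have h12 : rext p a w - e / 2 < p b c := hy
        linarith only [hu2, this, h12]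
    linarith only [h9, h10, h11]

/-! ### The thresholds -/

theorem fl_le' {w : ℝ} (hw : w ≤ 1) (J : ℕ) : ⌊w * J⌋₊ ≤ J := by
  refine Nat.floor_le_of_le ?_
  have : (0 : ℝ) ≤ J := Nat.cast_nonneg J
  nlinarith only [hw]

/-- **The thresholds exist.** -/
theorem thr (L : LSys m) [Countable L.ι] (S : PCl m) (hS : S.Ne) (hsl : Slo L S)
    (htr : Tri L S) :
    ∃ (S' : PCl m) (P : L.ι → ℝ → ℝ → ℝ), S'.Ne ∧
      (∀ (τ : ℝ) (J : ℕ) (F : Fam m J) (A : F.Ω → Prop), S'.St τ J F A → S.St τ J F A) ∧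
      ThrOf L S' P := by
  classical
  rcases isEmpty_or_nonempty L.ι with hemp | hne0
  · exact ⟨S, fun _ _ _ => 0, hS, fun _ _ _ _ h => h, ⟨fun i => (hemp.false i).elim,
      fun i => (hemp.false i).elim, fun i => (hemp.false i).elim, fun i => (hemp.false i).elim,
      fun i => (hemp.false i).elim⟩⟩
  obtain ⟨f, hf⟩ := exists_surjective_nat (L.ι × ℕ × ℚ × ℚ)
  obtain ⟨s, S', h01, hsub, hne, hatt, hno, -⟩ := ext S hS
    (fun n => L.tq (f n).1 (f n).2.1 ((f n).2.2.1 : ℝ) ((f n).2.2.2 : ℝ))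
  obtain ⟨g, hg⟩ : ∃ g : L.ι × ℕ × ℚ × ℚ → ℕ, ∀ a, f (g a) = a :=
    ⟨Function.surjInv hf, Function.surjInv_eq hf⟩
  obtain ⟨th, hth⟩ : ∃ th : L.ι → ℕ → ℚ → ℚ → ℝ,
    th = fun i K a w => s (g (i, K, a, w)) := ⟨_, rfl⟩
  have th0 : ∀ i K a w, 0 ≤ th i K a w := fun i K a w => by rw [hth]; exact (h01 _).1
  have th1 : ∀ i K a w, th i K a w ≤ 1 := fun i K a w => by rw [hth]; exact (h01 _).2
  have att : ∀ (i : L.ι) (K : ℕ) (a w : ℚ), ∀ τ > 0,
      Bas S' ((L.tq i K a w).Q (th i K a w - τ)) := by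
    intro i K a w τ hτ
    have hg0 : (0 : ℝ) < (g (i, K, a, w) : ℝ) + 1 := by positivity
    refine ⟨min τ (1 / ((g (i, K, a, w) : ℝ) + 1)), lt_min hτ (by positivity), 0,
      fun J _ F A hA => ?_⟩
    have h2 := hatt (g (i, K, a, w)) (min τ (1 / ((g (i, K, a, w) : ℝ) + 1))) J F A (by
      calc _ ≤ ((g (i, K, a, w) : ℝ) + 1) * (1 / ((g (i, K, a, w) : ℝ) + 1)) :=
            mul_le_mul_of_nonneg_left (min_le_right _ _) hg0.le
        _ = 1 := by field_simp) hA
    have e := hg (i, K, a, w)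
    rw [hth]
    simp only [e] at h2
    exact (L.tq i K a w).anti (by linarith only [min_le_left τ (1 / ((g (i, K, a, w) : ℝ) + 1))]) h2
  have no : ∀ (i : L.ι) (K : ℕ) (a w : ℚ), ∀ h : ℝ, th i K a w < h → h ≤ 1 →
      ∃ ψ > 0, Clp S' ((L.tq i K a w).No h ψ) := by
    intro i K a w h h1 h2
    rw [hth] at h1
    have h3 := hno (g (i, K, a, w)) h h1 h2
    have e := hg (i, K, a, w)
    simp only [e] at h3
    exact h3
  -- comparison
  have ex1 : ∀ (δ : ℝ) (J : ℕ) (F : Fam m J) (A : F.Ω → Prop), 0 ≤ δ →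
      Real.exp (-(δ * J)) * Pe F.p A ≤ Pe F.p A := by
    intro δ J F A hδ
    have : Real.exp (-(δ * J)) ≤ 1 := by
      rw [Real.exp_le_one_iff]
      have : 0 ≤ δ * (J : ℝ) := by positivity
      linarith
    calc _ ≤ 1 * Pe F.p A := mul_le_mul_of_nonneg_right this (Pe_nonneg F.isLaw A)
      _ = _ := one_mul _
  have cmp : ∀ (i : L.ι) (K K' : ℕ) (a a' w w' : ℚ), K ≤ K' → a ≤ a' → w ≤ w' → w' ≤ a' →
      a' ≤ 1 → th i K a w ≤ th i K' a' w' := by
    intro i K K' a a' w w' hK ha hw hwa ha1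
    by_contra hcon
    push Not at hcon
    have h1 : (th i K a w + th i K' a' w') / 2 ≤ th i K' a' w' := by
      refine le_of_att hne (no i K' a' w') (by linarith only [hcon, th1, th1 i K a w]) fun δ hδ => ?_
      refine Clp.mono (J₂ := 0) (att i K a w ((th i K a w - th i K' a' w') / 2)
        (by linarith only [hcon])).clp ?_
      intro J _ F A hQ
      refine ⟨A, fun _ h => h, ex1 δ J F A hδ.le, ?_⟩
      have e : th i K a w - (th i K a w - th i K' a' w') / 2 =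
        (th i K a w + th i K' a' w') / 2 := by ring
      rw [e] at hQ
      rcases hQ with hQ | hQ
      · exact Or.inl hQ
      · have hJ0 : (0 : ℝ) ≤ J := Nat.cast_nonneg J
        exact Or.inr (L.mono hK
          (Nat.floor_le_floor (mul_le_mul_of_nonneg_right (by exact_mod_cast ha) hJ0))
          (Nat.floor_le_floor (mul_le_mul_of_nonneg_right (by exact_mod_cast hw) hJ0))
          (Nat.floor_le_floor (mul_le_mul_of_nonneg_right (by exact_mod_cast hwa) hJ0))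
          (fl_le' (by exact_mod_cast ha1) J) hQ)
    linarith only [hcon, h1]
  -- the suprema over the classes
  obtain ⟨Θ, hΘ⟩ : ∃ Θ : L.ι → ℚ → ℚ → ℝ, Θ = fun i a w => ⨆ K : ℕ, th i K a w := ⟨_, rfl⟩
  have bdd : ∀ i a w, BddAbove (Set.range fun K : ℕ => th i K a w) := by
    intro i a w
    refine ⟨1, ?_⟩
    rintro y ⟨K, rfl⟩
    exact th1 i K a w
  have leΘ : ∀ i K a w, th i K a w ≤ Θ i a w := by
    intro i K a w
    rw [hΘ]
    exact le_ciSup (bdd i a w) K
  have Θle : ∀ i a w b, (∀ K, th i K a w ≤ b) → Θ i a w ≤ b := by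
    intro i a w b hb
    rw [hΘ]
    exact ciSup_le hb
  have Θ1 : ∀ i a w, Θ i a w ≤ 1 := fun i a w => Θle i a w 1 fun K => th1 i K a w
  have Θ0 : ∀ i a w, 0 ≤ Θ i a w := fun i a w => (th0 i 0 a w).trans (leΘ i 0 a w)
  have Θmono : ∀ i (a a' w w' : ℚ), a ≤ a' → w ≤ w' → w' ≤ a' → a' ≤ 1 →
      Θ i a w ≤ Θ i a' w' := fun i a a' w w' h1 h2 h3 h4 =>
    Θle i a w _ fun K => (cmp i K K a a' w w' le_rfl h1 h2 h3 h4).trans (leΘ i K a' w')
  -- the slope, if the precision is above the defect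
  have slo : ∀ (i : L.ι) (K : ℕ) (a w v : ℚ), 0 ≤ w → w ≤ a → 0 ≤ v → a + v ≤ 1 →
      ∀ t : ℝ, 0 ≤ t → t < th i K a w → t + v < 1 → t + v ≤ Θ i (a + v) w := by
    intro i K a w v hw hwa hv hav t ht0 ht htv
    by_cases hw1 : w = 1
    · have e1 : a = 1 := le_antisymm (by linarith) (hw1 ▸ hwa)
      have e2 : v = 0 := by linarith
      rw [e2]
      simp only [Rat.cast_zero, add_zero]
      exact ht.le.trans (leΘ i K a w)
    have hw1' : w < 1 := lt_of_le_of_ne (by linarith only [hwa, hv, hav]) hw1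
    obtain ⟨K', hK'⟩ := hsl i K
    refine le_trans ?_ (leΘ i K' (a + v) w)
    obtain ⟨e, he⟩ : ∃ e, e = min (th i K a w - t) (1 - (t + v)) := ⟨_, rfl⟩
    have he0 : 0 < e := by rw [he]; exact lt_min (by linarith only [ht]) (by linarith)
    have he1 : t + e ≤ th i K a w := by
      have := min_le_left (th i K a w - t) (1 - (t + v))
      rw [← he] at this
      linarith
    have he2 : t + v + e ≤ 1 := by
      have := min_le_right (th i K a w - t) (1 - (t + v))
      rw [← he] at this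
      linarith only [this]
    refine le_of_att hne (no i K' (a + v) w) (by linarith) fun δ hδ => ?_
    obtain ⟨η, hη⟩ : ∃ η, η = min δ (e / 8) := ⟨_, rfl⟩
    have hη0 : 0 < η := by rw [hη]; exact lt_min hδ (by linarith only [he0])
    have hηδ : η ≤ δ := by rw [hη]; exact min_le_left _ _
    have hηe : η ≤ e / 8 := by rw [hη]; exact min_le_right _ _
    obtain ⟨τ, hτ, J₁, hslo⟩ := hK' w (by exact_mod_cast hw1') η hη0
    obtain ⟨J₂, hJ₂⟩ := exists_nat_ge (max (8 * 2 / e) 1)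
    obtain ⟨τ', hτ', J₃, hat⟩ := att i K a w (e / 2) (by linarith only [hη0, hηe])
    refine Clp.base (min τ τ') (lt_min hτ hτ') (max (max J₁ J₂) J₃) fun J hJ F A hA => ?_
    have hJ1 : J₁ ≤ J := (le_max_left _ _).trans ((le_max_left _ _).trans hJ)
    have hJ2 : J₂ ≤ J := (le_max_right _ _).trans ((le_max_left _ _).trans hJ)
    have hJ3 : J₃ ≤ J := (le_max_right _ _).trans hJ
    have hJ2' : (J₂ : ℝ) ≤ J := by exact_mod_cast hJ2
    have hJe : 8 * 2 / e ≤ J := (le_max_left _ _).trans (hJ₂.trans hJ2')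
    have hJ11 : (1 : ℝ) ≤ J := (le_max_right _ _).trans (hJ₂.trans hJ2')
    rw [div_le_iff₀ he0] at hJe
    have hJ0 : (0 : ℝ) ≤ J := Nat.cast_nonneg J
    have hq := hat J hJ3 F A (S'.mono (min_le_right _ _) hA)
    have hq2 := (L.tq i K a w).anti (show t + e / 2 ≤ th i K a w - e / 2 by linarith only [he1]) hq
    rcases hq2 with hq2 | hq2
    · exfalso
      linarith only [ht0, hη0, hηe, hq2]
    have hwR : (0 : ℝ) ≤ w := by exact_mod_cast hw
    have haR : (0 : ℝ) ≤ a := by exact_mod_cast hw.trans hwa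
    have hvR : (0 : ℝ) ≤ v := by exact_mod_cast hv
    have hwaR : (w : ℝ) ≤ a := by exact_mod_cast hwa
    have havR : (a : ℝ) + v ≤ 1 := by exact_mod_cast hav
    have k1 := Nat.floor_le (show 0 ≤ (a : ℝ) * J by positivity)
    have k2 := Nat.floor_le (show 0 ≤ (v : ℝ) * J by positivity)
    have k3 := Nat.floor_le (show 0 ≤ (w : ℝ) * J by positivity)
    have k4 := Nat.floor_le (show 0 ≤ (t + e / 2) * (J : ℝ) by positivity)
    have k5 := Nat.lt_floor_add_one ((t + e / 2) * (J : ℝ))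
    have k6 := Nat.lt_floor_add_one ((v : ℝ) * J)
    have k7 := Nat.floor_le (show 0 ≤ (t + v) * (J : ℝ) by positivity)
    obtain ⟨B, hBA, hBP, hB⟩ := hslo J hJ1 F A (hsub _ _ _ _ (S'.mono (min_le_left _ _) hA))
      ⌊(a : ℝ) * J⌋₊ ⌊(w : ℝ) * J⌋₊ ⌊(v : ℝ) * J⌋₊ ⌊(t + e / 2) * (J : ℝ)⌋₊
      ⌊(t + v) * (J : ℝ)⌋₊
      (Nat.floor_le_floor (mul_le_mul_of_nonneg_right hwaR hJ0)) (by
        have : ((⌊(a : ℝ) * J⌋₊ + ⌊(v : ℝ) * J⌋₊ : ℕ) : ℝ) ≤ J := by
          push_cast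
          nlinarith only [k1, k2, havR]
        exact_mod_cast this) (by
        have : ((⌊(t + e / 2) * (J : ℝ)⌋₊ + ⌊(v : ℝ) * J⌋₊ : ℕ) : ℝ) ≤ J := by
          push_cast
          nlinarith only [ht0, he2, hη0, hηe, hJe, hvR, k2, k4]
        exact_mod_cast this) k3 (by nlinarith only [ht0, he2, hη0, hηe, hJe, hvR, k5, k6, k7]) hq2
    refine ⟨B, hBA, ?_, Or.inr ?_⟩
    · refine le_trans (mul_le_mul_of_nonneg_right (Real.exp_le_exp.2 ?_)
        (Pe_nonneg F.isLaw A)) hBP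
      have := mul_le_mul_of_nonneg_right hηδ hJ0
      linarith only [this]
    · have k8 : ⌊(a : ℝ) * J⌋₊ + ⌊(v : ℝ) * J⌋₊ ≤ ⌊((a + v : ℚ) : ℝ) * J⌋₊ := by
        apply Nat.le_floor
        push_cast
        nlinarith only [k1, k2]
      refine L.mono le_rfl k8 le_rfl (le_trans (Nat.floor_le_floor
        (mul_le_mul_of_nonneg_right hwaR hJ0)) ((Nat.le_add_right _ _).trans k8))
        (fl_le' (by push_cast; exact havR) J) hB
  -- the trivial labels
  have tri : ∀ (i : L.ι) (w : ℚ), 0 ≤ w → w ≤ 1 → ∃ K, (w : ℝ) ≤ th i K w w := by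
    intro i w hw hw1
    obtain ⟨K, hK⟩ := htr i
    refine ⟨K, ?_⟩
    by_contra hcon
    push Not at hcon
    have hwR : (w : ℝ) ≤ 1 := by exact_mod_cast hw1
    have hw0 : (0 : ℝ) ≤ w := by exact_mod_cast hw
    have t0 := th0 i K w w
    have h1 : (th i K w w + w) / 2 ≤ th i K w w := by
      refine le_of_att hne (no i K w w) (by linarith) fun δ hδ => ?_
      obtain ⟨η, hη⟩ : ∃ η, η = min δ ((w - th i K w w) / 8) := ⟨_, rfl⟩
      have hη0 : 0 < η := by rw [hη]; exact lt_min hδ (by linarith only [hcon])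
      have hηδ : η ≤ δ := by rw [hη]; exact min_le_left _ _
      have hηe : η ≤ (w - th i K w w) / 8 := by rw [hη]; exact min_le_right _ _
      obtain ⟨τ, hτ, J₁, htri⟩ := hK η hη0
      obtain ⟨J₂, hJ₂⟩ := exists_nat_ge (8 / (w - th i K w w))
      refine Clp.base τ hτ (max J₁ J₂) fun J hJ F A hA => ?_
      have hJ1 : J₁ ≤ J := (le_max_left _ _).trans hJ
      have hJ2' : (J₂ : ℝ) ≤ J := by exact_mod_cast (le_max_right _ _).trans hJ
      have hJe : 8 / (w - th i K w w) ≤ J := hJ₂.trans hJ2'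
      rw [div_le_iff₀ (by linarith only [hη0, hηe])] at hJe
      have hJ0 : (0 : ℝ) ≤ J := Nat.cast_nonneg J
      have k1 := Nat.lt_floor_add_one ((w : ℝ) * J)
      have k2 := Nat.floor_le (show 0 ≤ (th i K w w + w) / 2 * (J : ℝ) by positivity)
      obtain ⟨B, hBA, hBP, hB⟩ := htri J hJ1 F A (hsub _ _ _ _ hA) ⌊(w : ℝ) * J⌋₊
        ⌊(th i K w w + w) / 2 * (J : ℝ)⌋₊ (fl_le' hwR J) (by nlinarith only [hwR, t0, hη0, hηe, hJe, k1, k2])
      refine ⟨B, hBA, ?_, Or.inr hB⟩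
      refine le_trans (mul_le_mul_of_nonneg_right (Real.exp_le_exp.2 ?_)
        (Pe_nonneg F.isLaw A)) hBP
      have := mul_le_mul_of_nonneg_right hηδ hJ0
      linarith only [this]
    linarith only [hcon, h1]
  -- the lower bound
  have low : ∀ (i : L.ι) (a w : ℚ), 0 < w → w ≤ a → a ≤ 1 → ((a : ℚ) : ℝ) ≤ Θ i a w := by
    intro i a w hw hwa ha
    obtain ⟨K, hK⟩ := tri i w hw.le (hwa.trans ha)
    have hwR : (0 : ℝ) < w := by exact_mod_cast hw
    have haR : (a : ℝ) ≤ 1 := by exact_mod_cast ha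
    refine le_of_forall_lt fun c hc => ?_
    obtain ⟨e, he⟩ : ∃ e, e = min ((a - c) / 2) ((w : ℝ) / 2) := ⟨_, rfl⟩
    have he0 : 0 < e := by rw [he]; exact lt_min (by linarith only [hc]) (by linarith)
    have he1 : e ≤ (a - c) / 2 := by rw [he]; exact min_le_left _ _
    have he2 : e ≤ (w : ℝ) / 2 := by rw [he]; exact min_le_right _ _
    have h1 := slo i K w w (a - w) hw.le le_rfl (by linarith only [hwa]) (by linarith) (w - e)
      (by linarith only [he0, he2]) (by linarith) (by push_cast; linarith only [haR, he0])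
    have e1 : w + (a - w) = a := by ring
    rw [e1] at h1
    push_cast at h1
    linarith only [he0, he1, h1]
  -- the rational laws
  obtain ⟨p, hp⟩ : ∃ p : L.ι → ℚ → ℚ → ℝ, p = fun i (a w : ℚ) => max (a : ℝ) (Θ i a w) := ⟨_, rfl⟩
  have pΘ : ∀ i (a w : ℚ), 0 < w → w ≤ a → a ≤ 1 → p i a w = Θ i a w := by
    intro i a w h1 h2 h3
    rw [hp]
    exact max_eq_right (low i a w h1 h2 h3)
  have hR : ∀ i, RLaw (p i) := by
    intro i
    refine ⟨?_, ?_, ?_, ?_⟩
    · intro a w _ _ _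
      rw [hp]
      exact le_max_left _ _
    · intro a w _ _ h3
      rw [hp]
      exact max_le (by exact_mod_cast h3) (Θ1 i a w)
    · intro a a' w w' _ _ h3 h4 h5 h6
      rw [hp]
      exact max_le_max (by exact_mod_cast h3) (Θmono i a a' w w' h3 h4 h5 h6)
    · intro a w v h1 h2 h3 h4
      have hvR : (0 : ℝ) ≤ v := by exact_mod_cast h3
      have h4R : (a : ℝ) + v ≤ 1 := by exact_mod_cast h4
      rw [hp]
      simp only
      rcases le_total (Θ i a w) a with h5 | h5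
      · rw [max_eq_left h5]
        refine (min_le_right _ _).trans ?_
        rw [← Rat.cast_add]
        exact le_max_left _ _
      · rw [max_eq_right h5]
        refine le_of_forall_lt fun c hc => ?_
        have hc1 := hc.trans_le (min_le_left _ _)
        have hc2 := hc.trans_le (min_le_right _ _)
        rcases lt_or_ge c v with h6 | h6
        · refine h6.trans_le (le_trans ?_ (le_max_left _ _))
          push_cast
          have : (0 : ℝ) ≤ a := by exact_mod_cast h1.trans h2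
          linarith
        · -- the slope law for one class
          obtain ⟨b, hb1, hb2⟩ := exists_between (show c < min 1 (Θ i a w + v) from hc)
          have hb3 := hb2.trans_le (min_le_left _ _)
          have hb4 := hb2.trans_le (min_le_right _ _)
          obtain ⟨K, hK⟩ : ∃ K, b - v < th i K a w := by
            by_contra hcon
            push Not at hcon
            have := Θle i a w (b - v) hcon
            linarith only [hb4, this]
          have := slo i K a w v h1 h2 h3 h4 (b - v) (by linarith) hK (by linarith)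
          exact (hb1.trans_le (by linarith)).trans_le (le_max_right _ _)
  refine ⟨S', fun i => rext (p i), hne, hsub, ⟨fun i => rext_law (hR i),
    fun i a w h0 h1 h2 => rext_low (hR i) h0 h1 h2, fun i a w h0 h1 _ => rext_up (hR i) h0 h1,
    ?_, ?_⟩⟩
  · intro i a w h h0 h1 h2 h3 h4
    obtain ⟨a', w', h5, h6, h7, h8, h9, h10⟩ := rext_att (hR i) h0 h1 h2 (half_pos h3)
    rw [pΘ i a' w' h5 h6 h7] at h10
    obtain ⟨K, hK⟩ : ∃ K, rext (p i) a w - h / 2 < th i K a' w' := by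
      by_contra hcon
      push Not at hcon
      have := Θle i a' w' _ hcon
      linarith only [h10, this]
    refine ⟨K, Bas.mono 0 (att i K a' w' (h / 2) (half_pos h3)) ?_⟩
    intro J _ F A hQ
    have hJ0 : (0 : ℝ) ≤ J := Nat.cast_nonneg J
    have hQ' := (L.tq i K a' w').anti (show rext (p i) a w - h ≤ th i K a' w' - h / 2 by
      linarith only [hK]) hQ
    rcases hQ' with hQ' | hQ'
    · exfalso
      linarith only [h4, hQ']
    · exact L.mono le_rfl (Nat.floor_le_floor (mul_le_mul_of_nonneg_right h8 hJ0))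
        (Nat.floor_le_floor (mul_le_mul_of_nonneg_right h9 hJ0))
        (Nat.floor_le_floor (mul_le_mul_of_nonneg_right h1 hJ0)) (fl_le' h2 J) hQ'
  · intro i K a w h h0 h1 h2 h3 h4
    have e1 : rext (p i) a w = p i a w := rext_rat (hR i) h0 h1 h2
    simp only [e1] at h4 ⊢
    have h5 : th i K a w < p i a w + h := by
      have e2 : Θ i a w ≤ p i a w := by rw [hp]; exact le_max_right _ _
      have := leΘ i K a w
      linarith
    obtain ⟨ψ, hψ, hc⟩ := no i K a w _ h5 h4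
    refine Bas.neg (Q := fun J F A => L.T i K ⌊(a : ℝ) * J⌋₊ ⌊(w : ℝ) * J⌋₊
      ⌊(p i a w + h) * J⌋₊ J F A) (fun J F => L.her _ _ _ _ _ J F) ?_
    refine Clp.mono (J₂ := 0) hc ?_
    intro J _ F A hN hG
    exact hN A (fun _ h => h) (ex1 ψ J F A hψ.le) (Or.inr hG)

/-! ### The polynomial labels -/

/-- The labels `Lab` of codimension one. -/
def labS (m : ℕ) : LSys m where
  ι := Fin m
  T i K a w P := fun J F A => Lab F i J K a w P A
  her i K a w P J F := Lab.hered F i J K a w P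
  anti := by
    rintro i K a w P P' J F A h ⟨G, H, h1, h2, h3⟩
    exact ⟨G, H, h1, h2, fun ω hω => ⟨(h3 ω hω).1.trans (inv_mono h), fun b hb =>
      ⟨((h3 ω hω).2 b hb).1, ((h3 ω hω).2 b hb).2.trans (inv_mono h)⟩⟩⟩
  mono := by
    intro i K K' a a' w w' P J F A hK ha hw hwa ha' h
    exact Lab.mono le_rfl hK ha hw (hwa.trans ha') le_rfl h

/-- The regularity of the families of a class. -/
def Rgl (S : PCl m) : Prop :=
  ∀ (τ : ℝ) (J : ℕ) (F : Fam m J) (A : F.Ω → Prop), S.St τ J F A →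
    F.Tr ∧ F.Tm (τ * J) ∧ F.Rb (τ * J) ∧ Real.exp (-(τ * J)) ≤ Pe F.p A

theorem slo_lab {S : PCl m} (hS : Rgl S) : Slo (labS m) S := by
  intro i K
  obtain ⟨C₁, hC₁, hsl⟩ := Pool.GEN.lab_slope m (max K 1) (le_max_right _ _)
  refine ⟨max K 1, fun w₀ hw₀ η hη => ?_⟩
  have hl : (0 : ℝ) < Real.log 2 := Real.log_pos (by norm_num)
  obtain ⟨k, hk⟩ : ∃ k, k = min (1 - w₀) η * Real.log 2 := ⟨_, rfl⟩
  have hk0 : 0 < k := by rw [hk]; exact mul_pos (lt_min (by linarith) hη) hl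
  have hk1 : k ≤ (1 - w₀) * Real.log 2 := by
    rw [hk]; exact mul_le_mul_of_nonneg_right (min_le_left _ _) hl.le
  have hk2 : k ≤ η * Real.log 2 := by
    rw [hk]; exact mul_le_mul_of_nonneg_right (min_le_right _ _) hl.le
  have hC0 : 0 < C₁ := by linarith only [hC₁]
  refine ⟨k / (12 * C₁), by positivity, ?_⟩
  obtain ⟨J₁, hJ₁⟩ := exists_nat_ge (max (max (2 * C₁ / k) (Real.log 2 / η)) 1)
  refine ⟨J₁, fun J hJ F A hA a w v P Q hwa hav hPv hw hQ hT => ?_⟩
  have hJ' : (J₁ : ℝ) ≤ J := by exact_mod_cast hJ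
  have e1 : 2 * C₁ / k ≤ J := (le_max_left _ _).trans ((le_max_left _ _).trans (hJ₁.trans hJ'))
  have e2 : Real.log 2 / η ≤ J :=
    (le_max_right _ _).trans ((le_max_left _ _).trans (hJ₁.trans hJ'))
  have e3 : (1 : ℝ) ≤ J := (le_max_right _ _).trans (hJ₁.trans hJ')
  rw [div_le_iff₀ hk0] at e1
  rw [div_le_iff₀ hη] at e2
  obtain ⟨h1, h2, h3, h4⟩ := hS _ J F A hA
  have hPe : 0 < Pe F.p A := (Real.exp_pos _).trans_le h4
  obtain ⟨τJ, hτJ⟩ : ∃ τJ : ℝ, τJ = k / (12 * C₁) * J := ⟨_, rfl⟩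
  rw [← hτJ] at h2 h3 h4
  have hτ0 : 0 ≤ τJ := by rw [hτJ]; positivity
  have hτ1 : C₁ * (6 * τJ) = k / 2 * J := by
    rw [hτJ]
    field_simp
    ring
  have hTm := Pool.STPA.sub_Tm_of_reg h1 h2 h3 hPe h4
  have e4 : 4 * τJ + τJ + τJ = 6 * τJ := by ring
  rw [e4] at hTm
  have hmain : C₁ * (6 * τJ + 1) ≤ k * J := by
    rw [mul_add, hτ1, mul_one]
    linarith only [e1]
  have hQP : Q ≤ P + v := by
    have : (Q : ℝ) ≤ ((P + v : ℕ) : ℝ) := by
      push_cast
      have : 0 ≤ η * (J : ℝ) := by positivity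
      linarith only [hl, hQ, e2]
    exact_mod_cast this
  obtain ⟨u, hu⟩ := Nat.exists_eq_add_of_le hQP
  have hu' : η * J ≤ u := by
    have : ((P + v : ℕ) : ℝ) = ((Q + u : ℕ) : ℝ) := by rw [hu]
    push_cast at this
    linarith only [hQ, this]
  have hT' : Lab F i J (max K 1) a w P A :=
    Lab.mono le_rfl (le_max_left _ _) le_rfl le_rfl (by omega) le_rfl hT
  obtain ⟨B, hB1, hB2, hB3⟩ := hsl J F i a w v P Q u A (6 * τJ) hPe hwa hav hPv hu.symm
    (by positivity) hTm (by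
      refine hmain.trans ?_
      have : k * (J : ℝ) ≤ (1 - w₀) * Real.log 2 * J :=
        mul_le_mul_of_nonneg_right hk1 (by linarith only [e3])
      refine this.trans ?_
      have h5 : (1 - w₀) * (J : ℝ) ≤ J - w := by linarith only [hw]
      have := mul_le_mul_of_nonneg_right h5 hl.le
      linarith only [this]) (by
      have e5 : (2 : ℝ) ^ u = Real.exp (u * Real.log 2) := by
        rw [mul_comm, Real.exp_mul, Real.exp_log (by norm_num), Real.rpow_natCast]
      rw [e5]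
      refine Real.exp_le_exp.2 (hmain.trans ?_)
      have : k * (J : ℝ) ≤ η * Real.log 2 * J :=
        mul_le_mul_of_nonneg_right hk2 (by linarith only [e3])
      refine this.trans ?_
      have := mul_le_mul_of_nonneg_right hu' hl.le
      linarith only [this]) hT'
  refine ⟨B, hB1, le_trans ?_ hB2, hB3⟩
  have e6 : Real.exp (-(η * J)) ≤ 1 / 2 := by
    rw [Real.exp_neg, inv_eq_one_div]
    refine one_div_le_one_div_of_le (by norm_num) ?_
    calc (2 : ℝ) = Real.exp (Real.log 2) := (Real.exp_log (by norm_num)).symm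
      _ ≤ _ := Real.exp_le_exp.2 (by linarith only [e2])
  calc _ ≤ 1 / 2 * Pe F.p A := mul_le_mul_of_nonneg_right e6 (Pe_nonneg F.isLaw A)
    _ = _ := by ring

theorem tri_lab (S : PCl m) : Tri (labS m) S := by
  intro i
  refine ⟨0, fun η hη => ⟨1, one_pos, ?_⟩⟩
  obtain ⟨J₁, hJ₁⟩ := exists_nat_ge (1 / η)
  refine ⟨J₁, fun J hJ F A _ w P hw hP => ⟨A, fun _ h => h, ?_, ?_⟩⟩
  · have : Real.exp (-(η * J)) ≤ 1 := by
      rw [Real.exp_le_one_iff]
      have : 0 ≤ η * (J : ℝ) := by positivity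
      linarith only [this]
    calc _ ≤ 1 * Pe F.p A := mul_le_mul_of_nonneg_right this (Pe_nonneg F.isLaw A)
      _ = _ := one_mul _
  · have hJ' : (J₁ : ℝ) ≤ J := by exact_mod_cast hJ
    have e1 : 1 / η ≤ J := hJ₁.trans hJ'
    rw [div_le_iff₀ hη] at e1
    have e2 : P + 1 ≤ w := by
      have : ((P + 1 : ℕ) : ℝ) ≤ w := by
        push_cast
        linarith only [hP, e1]
      exact_mod_cast this
    exact Lab.trivial e2 (by omega) hw

/-- **The thresholds of the polynomial labels.** -/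
theorem thr_lab {S : PCl m} (hS : S.Ne) (hr : Rgl S) :
    ∃ (S' : PCl m) (P : Fin m → ℝ → ℝ → ℝ), S'.Ne ∧
      (∀ (τ : ℝ) (J : ℕ) (F : Fam m J) (A : F.Ω → Prop), S'.St τ J F A → S.St τ J F A) ∧
      ThrOf (labS m) S' P := by
  have : Countable (labS m).ι := (inferInstance : Countable (Fin m))
  exact thr (labS m) S hS (slo_lab hr) (tri_lab S)

end Pool.LBT
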