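import Pool.Agent.H60.ZCL.BTail

/-!
# The rates of the positions in a class, in base form, any dimension
-/

set_option autoImplicit false

namespace Pool.GEN

open Finset Real
open Pool.Agent.H49.Ent Pool.Agent.H32.Dense Pool.STK Pool.KA Pool.K2S Pool.PB Pool.S6C

variable {m : ℕ}

/-- Comparison of the numbers of two quantities. -/
theorem lim_le {S : PCl m} (hS : S.Ne) {f g : ∀ (J : ℕ) (F : Fam m J),
    (F.Ω → Prop) → ℝ} {a b c C : ℝ}
    (hf : ∀ h : ℝ, 0 < h → Bas S (fun J F A => |f J F A - a * J| ≤ h * J))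
    (hg : ∀ h : ℝ, 0 < h → Bas S (fun J F A => |g J F A - b * J| ≤ h * J))
    (hfg : Bas S (fun J F A => f J F A ≤ g J F A + c * J + C)) : a ≤ b + c := by
  by_contra hcon
  push Not at hcon
  obtain ⟨h, hh⟩ : ∃ h, h = (a - b - c) / 4 := ⟨_, rfl⟩
  have hh0 : 0 < h := by rw [hh]; linarith
  obtain ⟨J₀, hJ₀⟩ := exists_nat_gt (|C| / h)
  obtain ⟨τ, hτ, J₁, hb⟩ := ((hf h hh0).and (hg h hh0)).and hfg
  obtain ⟨J, hJ, F, A, hA⟩ := hS τ hτ (max J₀ J₁)
  obtain ⟨⟨k1, k2⟩, k3⟩ := hb J ((le_max_right _ _).trans hJ) F A hA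
  have hJr : |C| / h < J := hJ₀.trans_le (by exact_mod_cast (le_max_left _ _).trans hJ)
  rw [div_lt_iff₀ hh0] at hJr
  rw [abs_le] at k1 k2
  have h1 := le_abs_self C
  have h2 : a * J = b * J + c * J + 4 * (h * J) := by
    rw [hh]
    ring
  linarith [k1.1, k2.2]

/-- **The rates of the positions**, in a subclass. -/
theorem rates {S : PCl m} (hS : S.Ne)
    (hpos : ∀ (τ : ℝ) (J : ℕ) (F : Fam m J) (A : F.Ω → Prop), S.St τ J F A → 0 < Pe F.p A)
    {M : ℝ} (hcnt : Bas S (fun J F A => ∀ k : ℕ, k ≤ J →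
      (cnt F.p (ptr F k) A : ℝ) ≤ Real.exp (M * J))) :
    ∃ S' : PCl m, S'.Ne ∧
      (∀ (τ : ℝ) (J : ℕ) (F : Fam m J) (A : F.Ω → Prop), S'.St τ J F A → S.St τ J F A) ∧
      ∃ r : ℝ → ℝ, ContinuousOn r (Set.Icc 0 1) ∧ MonotoneOn r (Set.Icc 0 1) ∧ 0 ≤ r 0 ∧
        ∀ Q : ℝ, 0 ≤ Q → Q ≤ 1 → ∀ h : ℝ, 0 < h → Bas S' (fun J F A =>
          |CH (Pool.Agent.H49.Ent.cond F.p A True) (F.X ⌊Q * J⌋₊) F.W -
            r Q * Real.log 2 * J| ≤ h * J) := by
  classical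
  have hl2 : 0 < Real.log 2 := Real.log_pos (by norm_num)
  have hl1 : Real.log 2 ≤ 1 := by
    have := Real.log_two_lt_d9
    linarith
  -- the functions
  obtain ⟨e, he⟩ := exists_surjective_nat (Option {q : ℚ // 0 ≤ q ∧ q ≤ 1})
  obtain ⟨Y, hY⟩ : ∃ Y : ∀ (_ J : ℕ) (F : Fam m J), F.Ω → (Fin m → ℤ) × (ℕ × F.ζ),
      Y = fun i J F ω => match e i with
        | none => (fun _ => 0, F.W ω)
        | some q => ptr F ⌊((q : ℚ) : ℝ) * J⌋₊ ω := ⟨_, rfl⟩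
  have hY0 : ∀ i, e i = none → ∀ (J : ℕ) (F : Fam m J), Y i J F = fun ω => (fun _ => 0, F.W ω) := by
    intro i hi J F
    rw [hY]
    funext ω
    simp only [hi]
  have hY1 : ∀ i q, e i = some q → ∀ (J : ℕ) (F : Fam m J), Y i J F =
      ptr F ⌊((q : ℚ) : ℝ) * J⌋₊ := by
    intro i q hi J F
    rw [hY]
    funext ω
    simp only [hi]
  have hk : ∀ (q : {q : ℚ // 0 ≤ q ∧ q ≤ 1}) (J : ℕ), ⌊((q : ℚ) : ℝ) * J⌋₊ ≤ J := by
    intro q J
    refine Nat.floor_le_of_le ?_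
    have h1 : ((q : ℚ) : ℝ) ≤ 1 := by exact_mod_cast q.2.2
    have := mul_le_mul_of_nonneg_right h1 (Nat.cast_nonneg (α := ℝ) J)
    linarith
  obtain ⟨S', hne, hsub, hη⟩ := ext_ent_base hS hpos (fun _ _ F => (Fin m → ℤ) × (ℕ × F.ζ)) Y
    (fun _ => M) (fun i => Bas.mono 0 hcnt (by
      intro J _ F A hA
      rcases hi : e i with _ | q
      · rw [hY0 i hi]
        refine le_trans ?_ (hA 0 (Nat.zero_le J))
        have := cnt_comp_le F.p (ptr F 0) (fun ω => ((fun _ => 0 : Fin m → ℤ), F.W ω)) (A := A)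
          (fun y => (fun _ => 0, y.2)) (fun ω _ _ => rfl)
        exact_mod_cast this
      · rw [hY1 i q hi]
        exact hA _ (hk q J)))
  obtain ⟨i₁, hi₁⟩ := he none
  obtain ⟨η₀, hη₀⟩ := hη i₁
  have hpos' : Bas S' (fun _ F A => 0 < Pe F.p A) :=
    ⟨1, one_pos, 0, fun J _ F A hA => hpos 1 J F A (hsub 1 J F A hA)⟩
  -- rational rows
  have hrat : ∀ q : {q : ℚ // 0 ≤ q ∧ q ≤ 1}, ∃ ρ : ℝ, ∀ h : ℝ, 0 < h → Bas S' (fun J F A =>
      |CH (Pool.Agent.H49.Ent.cond F.p A True) (F.X ⌊((q : ℚ) : ℝ) * J⌋₊) F.W - ρ * J| ≤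
        h * J) := by
    intro q
    obtain ⟨i, hi⟩ := he (some q)
    obtain ⟨η, hη⟩ := hη i
    refine ⟨η - η₀, fun h hh => ?_⟩
    refine Bas.mono 0 (((hη (h / 2) (half_pos hh)).and (hη₀ (h / 2) (half_pos hh))).and hpos') ?_
    rintro J - F A ⟨⟨k1, k2⟩, k3⟩
    rw [hY1 i q hi] at k1
    rw [hY0 i₁ hi₁] at k2
    have hcl := isLaw_cond F.isLaw k3
    have e1 : H (Pool.Agent.H49.Ent.cond F.p A True)
        (fun ω => ((fun _ => 0 : Fin m → ℤ), F.W ω)) =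
        H (Pool.Agent.H49.Ent.cond F.p A True) F.W :=
      H_congr hcl.nonneg (fun _ _ _ _ e => Prod.ext rfl e)
        (fun _ _ _ _ e => (Prod.ext_iff.1 e).2)
    have e2 : CH (Pool.Agent.H49.Ent.cond F.p A True) (F.X ⌊((q : ℚ) : ℝ) * J⌋₊) F.W =
        H (Pool.Agent.H49.Ent.cond F.p A True) (ptr F ⌊((q : ℚ) : ℝ) * J⌋₊) -
        H (Pool.Agent.H49.Ent.cond F.p A True) F.W := rfl
    rw [e1] at k2
    rw [e2]
    rw [abs_le] at k1 k2 ⊢
    constructor <;> linarith [k1.1, k1.2, k2.1, k2.2]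
  choose ρ hρ using hrat
  -- monotone, Lipschitz, nonnegative
  have hmono : ∀ q q' : {q : ℚ // 0 ≤ q ∧ q ≤ 1}, (q : ℚ) ≤ q' → ρ q ≤ ρ q' := by
    intro q q' hqq
    have hq0 : (0 : ℝ) ≤ ((q : ℚ) : ℝ) := by exact_mod_cast q.2.1
    have hqq' : ((q : ℚ) : ℝ) ≤ ((q' : ℚ) : ℝ) := by exact_mod_cast hqq
    have := lim_le (c := 0) (C := 0) hne (hρ q) (hρ q')
      (Bas.mono 0 hpos' (fun J _ F A hA => by
        have := (rows_near (F := F) (isLaw_cond F.isLaw hA) hq0 hqq').1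
        linarith))
    linarith
  have hlip : ∀ q q' : {q : ℚ // 0 ≤ q ∧ q ≤ 1}, (q : ℚ) ≤ q' →
      ρ q' ≤ ρ q + m * ((((q' : ℚ) : ℝ) - ((q : ℚ) : ℝ)) * Real.log 2) := by
    intro q q' hqq
    have hq0 : (0 : ℝ) ≤ ((q : ℚ) : ℝ) := by exact_mod_cast q.2.1
    have hqq' : ((q : ℚ) : ℝ) ≤ ((q' : ℚ) : ℝ) := by exact_mod_cast hqq
    exact lim_le (C := m * Real.log 2) hne (hρ q') (hρ q)
      (Bas.mono 0 hpos' (fun J _ F A hA => by
        have := (rows_near (F := F) (isLaw_cond F.isLaw hA) hq0 hqq').2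
        have e1 : (m : ℝ) * (((((q' : ℚ) : ℝ) - ((q : ℚ) : ℝ)) * J + 1) * Real.log 2) =
          m * ((((q' : ℚ) : ℝ) - ((q : ℚ) : ℝ)) * Real.log 2) * J + m * Real.log 2 := by ring
        linarith))
  have hnn : ∀ q : {q : ℚ // 0 ≤ q ∧ q ≤ 1}, 0 ≤ ρ q := by
    intro q
    have := lim_le (f := fun _ _ _ => 0) (a := 0)
      (c := 0) (C := 0) hne (fun h hh => ⟨1, one_pos, 0, fun J _ F A _ => by
        show |(0 : ℝ) - 0 * (J : ℝ)| ≤ h * J
        rw [zero_mul, sub_zero, abs_zero]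
        positivity⟩) (hρ q)
      (Bas.mono 0 hpos' (fun J _ F A hA => by
        have := CH_nonneg (isLaw_cond F.isLaw hA).nonneg (F.X ⌊((q : ℚ) : ℝ) * J⌋₊) F.W
        linarith))
    linarith
  -- the rate function
  obtain ⟨R, hR⟩ : ∃ R : ℝ → ℝ, R = fun x => sSup {y : ℝ | ∃ q : {q : ℚ // 0 ≤ q ∧ q ≤ 1},
      ((q : ℚ) : ℝ) ≤ max x 0 ∧ y = ρ q} := ⟨_, rfl⟩
  have hz : (⟨0, le_rfl, zero_le_one⟩ : {q : ℚ // 0 ≤ q ∧ q ≤ 1}).1 = (0 : ℚ) := rfl
  have hbdd : ∀ x : ℝ, BddAbove {y : ℝ | ∃ q : {q : ℚ // 0 ≤ q ∧ q ≤ 1},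
      ((q : ℚ) : ℝ) ≤ max x 0 ∧ y = ρ q} := by
    intro x
    refine ⟨ρ ⟨1, zero_le_one, le_rfl⟩, ?_⟩
    rintro y ⟨q, -, rfl⟩
    exact hmono q ⟨1, zero_le_one, le_rfl⟩ q.2.2
  have hnem : ∀ x : ℝ, {y : ℝ | ∃ q : {q : ℚ // 0 ≤ q ∧ q ≤ 1},
      ((q : ℚ) : ℝ) ≤ max x 0 ∧ y = ρ q}.Nonempty := fun x =>
    ⟨ρ ⟨0, le_rfl, zero_le_one⟩, ⟨0, le_rfl, zero_le_one⟩, by simp, rfl⟩
  have hle : ∀ (x : ℝ) (q : {q : ℚ // 0 ≤ q ∧ q ≤ 1}), ((q : ℚ) : ℝ) ≤ x → ρ q ≤ R x := by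
    intro x q hq
    rw [hR]
    exact le_csSup (hbdd x) ⟨q, hq.trans (le_max_left _ _), rfl⟩
  have hmonoR : ∀ x y : ℝ, x ≤ y → R x ≤ R y := by
    intro x y hxy
    rw [hR]
    refine csSup_le_csSup (hbdd y) (hnem x) ?_
    rintro z ⟨q, h1, rfl⟩
    exact ⟨q, h1.trans (max_le_max hxy le_rfl), rfl⟩
  have hRq : ∀ q : {q : ℚ // 0 ≤ q ∧ q ≤ 1}, R ((q : ℚ) : ℝ) = ρ q := by
    intro q
    refine le_antisymm ?_ (hle _ q le_rfl)
    rw [hR]
    refine csSup_le (hnem _) ?_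
    rintro y ⟨q', h1, rfl⟩
    have hq : (0 : ℝ) ≤ ((q : ℚ) : ℝ) := by exact_mod_cast q.2.1
    rw [max_eq_left hq] at h1
    exact hmono q' q (by exact_mod_cast h1)
  have hlipR : ∀ x y : ℝ, 0 ≤ x → x ≤ y → x ≤ 1 → R y ≤ R x + m * ((y - x) * Real.log 2) := by
    intro x y hx hxy hx1
    rw [hR]
    refine csSup_le (hnem _) ?_
    rintro z ⟨q', h1, rfl⟩
    rw [max_eq_left (hx.trans hxy)] at h1
    rw [← hR]
    have hnl : 0 ≤ (m : ℝ) * ((y - x) * Real.log 2) := by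
      have : 0 ≤ y - x := by linarith
      positivity
    rcases le_or_gt ((q' : ℚ) : ℝ) x with h2 | h2
    · exact (hle x q' h2).trans (by linarith)
    · refine le_of_forall_pos_le_add fun ε hε => ?_
      -- a rational just below `x`
      obtain ⟨q, hqx, hqe⟩ : ∃ q : {q : ℚ // 0 ≤ q ∧ q ≤ 1}, ((q : ℚ) : ℝ) ≤ x ∧
          x - ε / (m + 1) ≤ ((q : ℚ) : ℝ) := by
        have hm1 : (0 : ℝ) < (m : ℝ) + 1 := by positivity
        rcases eq_or_lt_of_le hx with h3 | h3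
        · refine ⟨⟨0, le_rfl, zero_le_one⟩, ?_, ?_⟩
          · rw [hz, ← h3]; simp
          · rw [hz, ← h3]
            have : 0 < ε / (m + 1) := by positivity
            push_cast
            linarith
        · obtain ⟨q, h4, h5⟩ := exists_rat_btwn (show max 0 (x - ε / (m + 1)) < x from
            max_lt h3 (by
              have : 0 < ε / (m + 1) := by positivity
              linarith))
          have h6 : (0 : ℝ) ≤ q := (le_max_left _ _).trans h4.le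
          have h7 : (q : ℝ) ≤ 1 := h5.le.trans hx1
          exact ⟨⟨q, by exact_mod_cast h6, by exact_mod_cast h7⟩, h5.le,
            (le_max_right _ _).trans h4.le⟩
      have h8 := hlip q q' (by
        have : ((q : ℚ) : ℝ) ≤ ((q' : ℚ) : ℝ) := hqx.trans h2.le
        exact_mod_cast this)
      have h9 := hle x q hqx
      have h10 : (((q' : ℚ) : ℝ) - ((q : ℚ) : ℝ)) * Real.log 2 ≤
          (y - x) * Real.log 2 + ε / (m + 1) := by
        have a1 : ((q' : ℚ) : ℝ) - ((q : ℚ) : ℝ) ≤ (y - x) + ε / (m + 1) := by linarith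
        have a2 : (0 : ℝ) ≤ ε / (m + 1) := by positivity
        have a3 := mul_le_mul_of_nonneg_right a1 hl2.le
        have a4 : ε / (m + 1) * Real.log 2 ≤ ε / (m + 1) * 1 := mul_le_mul_of_nonneg_left hl1 a2
        linarith
      have h11 := mul_le_mul_of_nonneg_left h10 (Nat.cast_nonneg (α := ℝ) m)
      have h12 : (m : ℝ) * (ε / (m + 1)) ≤ ε := by
        rw [mul_div_assoc', div_le_iff₀ (by positivity)]
        nlinarith
      have h13 : (m : ℝ) * ((y - x) * Real.log 2 + ε / (m + 1)) =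
        m * ((y - x) * Real.log 2) + m * (ε / (m + 1)) := by ring
      linarith
  refine ⟨S', hne, hsub, fun x => R x / Real.log 2, ?_, ?_, ?_, ?_⟩
  · -- continuity
    refine ContinuousOn.div_const ?_ _
    rw [Metric.continuousOn_iff]
    intro x hx ε hε
    refine ⟨ε / (m + 1), by positivity, fun y hy hxy => ?_⟩
    have hxy' : |y - x| < ε / (m + 1) := hxy
    rw [Real.dist_eq]
    have hm : (m : ℝ) * |y - x| < ε := by
      have h1 : (m : ℝ) * |y - x| ≤ (m + 1) * |y - x| :=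
        mul_le_mul_of_nonneg_right (by linarith) (abs_nonneg _)
      have h2 : ((m : ℝ) + 1) * |y - x| < (m + 1) * (ε / (m + 1)) :=
        mul_lt_mul_of_pos_left hxy' (by positivity)
      have h3 : ((m : ℝ) + 1) * (ε / (m + 1)) = ε := by field_simp
      linarith
    have key : ∀ u v : ℝ, 0 ≤ u → u ≤ v → u ≤ 1 → |R v - R u| ≤ m * (v - u) := by
      intro u v hu huv hu1
      have h1 := hmonoR u v huv
      have h2 := hlipR u v hu huv hu1
      have h3 : (v - u) * Real.log 2 ≤ (v - u) * 1 := mul_le_mul_of_nonneg_left hl1 (by linarith)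
      have h4 := mul_le_mul_of_nonneg_left h3 (Nat.cast_nonneg (α := ℝ) m)
      rw [abs_of_nonneg (by linarith)]
      linarith
    rcases le_total x y with h | h
    · have := key x y hx.1 h hx.2
      rw [abs_of_nonneg (by linarith : 0 ≤ y - x)] at hm
      linarith
    · have := key y x hy.1 h hy.2
      rw [abs_of_nonpos (by linarith : y - x ≤ 0)] at hm
      rw [abs_sub_comm]
      linarith
  · intro x _ y _ hxy
    exact div_le_div_of_nonneg_right (hmonoR x y hxy) hl2.le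
  · have h1 := hRq ⟨0, le_rfl, zero_le_one⟩
    rw [hz] at h1
    push_cast at h1
    refine div_nonneg ?_ hl2.le
    rw [h1]
    exact hnn _
  -- all rows
  intro P hP0 hP1 h hh
  have hm1 : (0 : ℝ) < (m : ℝ) + 1 := by positivity
  obtain ⟨q, hqP⟩ : ∃ q : {q : ℚ // 0 ≤ q ∧ q ≤ 1}, |P - ((q : ℚ) : ℝ)| ≤
      h / (8 * (m + 1)) := by
    have h0 : 0 < h / (8 * (m + 1)) := by positivity
    rcases lt_or_eq_of_le hP1 with h1 | h1
    · obtain ⟨q, h2, h3⟩ := exists_rat_btwn (lt_min h1 (by linarith : P < P + h / (8 * (m + 1))))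
      have h4 : (0 : ℝ) ≤ q := by linarith
      have h5 : (q : ℝ) ≤ 1 := (h3.trans_le (min_le_left _ _)).le
      refine ⟨⟨q, by exact_mod_cast h4, by exact_mod_cast h5⟩, ?_⟩
      have := h3.trans_le (min_le_right _ _)
      rw [abs_le]
      constructor <;> simp only <;> linarith
    · refine ⟨⟨1, zero_le_one, le_rfl⟩, ?_⟩
      rw [h1]
      simp only [Rat.cast_one, sub_self, abs_zero]
      exact h0.le
  obtain ⟨J₂, hJ₂⟩ := exists_nat_gt (8 * (m + 1) / h)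
  refine Bas.mono J₂ ((hρ q (h / 4) (by linarith)).and hpos') ?_
  rintro J hJ F A ⟨k1, k2⟩
  have hcl := isLaw_cond F.isLaw k2
  have hJ0 : (0 : ℝ) ≤ J := Nat.cast_nonneg J
  have hJ3 : 8 * (m + 1) ≤ h * J := by
    have : 8 * ((m : ℝ) + 1) / h < J := hJ₂.trans_le (by exact_mod_cast hJ)
    rw [div_lt_iff₀ hh] at this
    linarith
  have hq0 : (0 : ℝ) ≤ ((q : ℚ) : ℝ) := by exact_mod_cast q.2.1
  have hq1 : ((q : ℚ) : ℝ) ≤ 1 := by exact_mod_cast q.2.2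
  have hRP : |R P - ρ q| ≤ m * |P - ((q : ℚ) : ℝ)| := by
    rw [← hRq q]
    rcases le_total P ((q : ℚ) : ℝ) with h1 | h1
    · have a1 := hmonoR _ _ h1
      have a2 := hlipR _ _ hP0 h1 hP1
      have a3 : (((q : ℚ) : ℝ) - P) * Real.log 2 ≤ (((q : ℚ) : ℝ) - P) * 1 :=
        mul_le_mul_of_nonneg_left hl1 (by linarith)
      have a4 := mul_le_mul_of_nonneg_left a3 (Nat.cast_nonneg (α := ℝ) m)
      rw [abs_of_nonpos (by linarith : R P - R ((q : ℚ) : ℝ) ≤ 0),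
        abs_of_nonpos (by linarith : P - ((q : ℚ) : ℝ) ≤ 0)]
      linarith
    · have a1 := hmonoR _ _ h1
      have a2 := hlipR _ _ hq0 h1 hq1
      have a3 : (P - ((q : ℚ) : ℝ)) * Real.log 2 ≤ (P - ((q : ℚ) : ℝ)) * 1 :=
        mul_le_mul_of_nonneg_left hl1 (by linarith)
      have a4 := mul_le_mul_of_nonneg_left a3 (Nat.cast_nonneg (α := ℝ) m)
      rw [abs_of_nonneg (by linarith : 0 ≤ R P - R ((q : ℚ) : ℝ)),
        abs_of_nonneg (by linarith : 0 ≤ P - ((q : ℚ) : ℝ))]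
      linarith
  have hnear : |CH (Pool.Agent.H49.Ent.cond F.p A True) (F.X ⌊P * J⌋₊) F.W -
      CH (Pool.Agent.H49.Ent.cond F.p A True) (F.X ⌊((q : ℚ) : ℝ) * J⌋₊) F.W| ≤
      m * (|P - ((q : ℚ) : ℝ)| * J + 1) := by
    rcases le_total P ((q : ℚ) : ℝ) with h1 | h1
    · obtain ⟨n1, n2⟩ := rows_near (F := F) hcl hP0 h1
      have n3 : (((q : ℚ) : ℝ) - P) * J + 1 = |P - ((q : ℚ) : ℝ)| * J + 1 := by
        rw [abs_sub_comm, abs_of_nonneg (by linarith)]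
      rw [n3] at n2
      have n4 : (|P - ((q : ℚ) : ℝ)| * J + 1) * Real.log 2 ≤
          (|P - ((q : ℚ) : ℝ)| * J + 1) * 1 :=
        mul_le_mul_of_nonneg_left hl1 (by positivity)
      have n5 := mul_le_mul_of_nonneg_left n4 (Nat.cast_nonneg (α := ℝ) m)
      rw [abs_of_nonpos (by linarith)]
      linarith
    · obtain ⟨n1, n2⟩ := rows_near (F := F) hcl hq0 h1
      have n3 : (P - ((q : ℚ) : ℝ)) * J + 1 = |P - ((q : ℚ) : ℝ)| * J + 1 := by
        rw [abs_of_nonneg (by linarith)]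
      rw [n3] at n2
      have n4 : (|P - ((q : ℚ) : ℝ)| * J + 1) * Real.log 2 ≤
          (|P - ((q : ℚ) : ℝ)| * J + 1) * 1 :=
        mul_le_mul_of_nonneg_left hl1 (by positivity)
      have n5 := mul_le_mul_of_nonneg_left n4 (Nat.cast_nonneg (α := ℝ) m)
      rw [abs_of_nonneg (by linarith)]
      linarith
  have e0 : R P / Real.log 2 * Real.log 2 * J = R P * J := by
    rw [div_mul_cancel₀ _ hl2.ne']
  have e1 : |R P * J - ρ q * J| ≤ m * |P - ((q : ℚ) : ℝ)| * J := by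
    rw [← sub_mul, abs_mul, abs_of_nonneg hJ0]
    exact mul_le_mul_of_nonneg_right hRP hJ0
  have e2 : (m : ℝ) * |P - ((q : ℚ) : ℝ)| * J ≤ h / 8 * J := by
    refine mul_le_mul_of_nonneg_right ?_ hJ0
    have a1 : (m : ℝ) * |P - ((q : ℚ) : ℝ)| ≤ (m + 1) * (h / (8 * (m + 1))) :=
      mul_le_mul (by linarith) hqP (abs_nonneg _) hm1.le
    have a2 : ((m : ℝ) + 1) * (h / (8 * (m + 1))) = h / 8 := by field_simp
    linarith
  have e3 : (m : ℝ) * (|P - ((q : ℚ) : ℝ)| * J + 1) = m * |P - ((q : ℚ) : ℝ)| * J + m := by ring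
  rw [e3] at hnear
  show |CH (Pool.Agent.H49.Ent.cond F.p A True) (F.X ⌊P * J⌋₊) F.W -
    R P / Real.log 2 * Real.log 2 * J| ≤ h * J
  rw [e0]
  rw [abs_le] at k1 e1 hnear ⊢
  constructor <;> linarith [k1.1, k1.2, e1.1, e1.2, hnear.1, hnear.2]

end Pool.GEN
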