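import Pool.Agent.H71.GEN.Stm2
import Pool.Agent.H2.GEN.Rate0

/-!
# The rates of the positions given the labels, any dimension
-/

set_option autoImplicit false

namespace Pool.GEN

open Finset Real MvPolynomial
open Pool.Agent.H49.Ent Pool.Agent.H32.Dense Pool.STK Pool.KA Pool.KSAT Pool.K2S Pool.PB Pool.S6C

variable {m : ℕ}

/-- The class of the families with the labels as side information. -/
def memC (S : PCl m) (K : ℕ) (w : ℝ) (s : Fin m → ℝ) (I : Fin m → Finset (Fin m)) : PCl m where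
  St τ J F A := Mem S K w s I τ J F A
  mono h hS := by
    cases hS with
    | mk F A V z z' G hlab hS => exact Mem.mk _ _ _ V z z' G hlab (S.mono h hS)
  res := by
    intro τ τ' J F A B hτ hS hB hP
    cases hS with
    | mk F A V z z' G hlab hS =>
      exact Mem.mk J F B V z z' G (fun j => (hlab j).sub hB) (S.res hτ hS hB hP)

theorem memC_ne {S : PCl m} (hS : S.Ne) {K : ℕ} {w : ℝ} {s : Fin m → ℝ}
    {I : Fin m → Finset (Fin m)}
    (hlab : ∀ j, Bas S (fun J F A => GLab F (I j) K J ⌊w * J⌋₊ ⌊s j * J⌋₊ A)) :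
    (memC S K w s I).Ne := by
  intro τ hτ J₁
  obtain ⟨τ', hτ', J₂, hb⟩ := Bas.all (S := S) m
    (Φ := fun i J F A => ∀ h : i < m, GLab F (I ⟨i, h⟩) K J ⌊w * J⌋₊ ⌊s ⟨i, h⟩ * J⌋₊ A)
    (fun i hi => Bas.mono 0 (hlab ⟨i, hi⟩) (fun J _ F A hA _ => hA))
  obtain ⟨J, hJ, F, A, hA⟩ := hS (min τ τ') (lt_min hτ hτ') (max J₁ J₂)
  have h1 := hb J ((le_max_right _ _).trans hJ) F A (S.mono (min_le_right _ _) hA)
  have h2 : ∀ j : Fin m, GLab F (I j) K J ⌊w * J⌋₊ ⌊s j * J⌋₊ A := fun j => h1 j j.2 j.2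
  choose V z z' G hG using h2
  exact ⟨J, (le_max_left _ _).trans hJ, _, _,
    Mem.mk J F A V z z' G hG (S.mono (min_le_left _ _) hA)⟩

theorem memC_cnt {S : PCl m} {M : ℝ} {K : ℕ} {w : ℝ} {s : Fin m → ℝ}
    {I : Fin m → Finset (Fin m)}
    (hcnt : Bas S (fun J F A => ∀ k : ℕ, k ≤ J →
      (cnt F.p (ptr F k) A : ℝ) ≤ Real.exp (M * J))) :
    Bas (memC S K w s I) (fun J F A => ∀ k : ℕ, k ≤ J →
      (cnt F.p (ptr F k) A : ℝ) ≤ Real.exp (M * J)) := by
  obtain ⟨τ, hτ, J₁, hb⟩ := hcnt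
  refine ⟨τ, hτ, J₁, fun J hJ F A hA k hk => ?_⟩
  have hA' : Mem S K w s I τ J F A := hA
  cases hA' with
  | mk F A V z z' G hlab hS =>
    refine le_trans ?_ (hb J hJ F A hS J le_rfl)
    obtain ⟨φ, hφ⟩ := ptr_coarse F hk
    have := cnt_comp_le F.p (ptr F J)
      (ptr (F.cnd (fun ω => fun j => z' j (slam F ⌊w * J⌋₊ ω))) k) (A := A)
      (fun y => ((φ y).1, ((φ y).2.1, ((fun j => z j y), (φ y).2.2)))) (fun ω _ hω => by
        have e1 := hφ ω
        refine Prod.ext ?_ (Prod.ext ?_ (Prod.ext ?_ ?_))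
        · show F.X k ω = (φ (ptr F J ω)).1
          rw [← e1]
          rfl
        · show F.T ω = (φ (ptr F J ω)).2.1
          rw [← e1]
          rfl
        · funext j
          exact ((hlab j).cls ω hω).symm
        · show F.Z ω = (φ (ptr F J ω)).2.2
          rw [← e1]
          rfl)
    exact_mod_cast this

/-- **(RATE).** -/
theorem rate_stmt (m : ℕ) : RateStmt m := by
  intro S M K w s I hS hpos hcnt _ _ hlab
  refine rates (S := memC S K w s I) (memC_ne hS hlab) ?_ (M := M) (memC_cnt hcnt)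
  intro τ J F A hA
  have hA' : Mem S K w s I τ J F A := hA
  cases hA' with
  | mk F A V z z' G hlab hS' => exact hpos τ J F A hS'

end Pool.GEN
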